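import Mathlib

set_option autoImplicit false

open AlgebraicGeometry CategoryTheory Limits DirectSum

namespace Pool.Agent.J6H65.Hilb4

section avoid

variable {σ A : Type} [CommRing A] [SetLike σ A] [AddSubgroupClass σ A] (𝒜 : ℕ → σ)
  [GradedRing 𝒜]

theorem exists_homog (I J : HomogeneousIdeal 𝒜) (h : ¬ I ≤ J) :
    ∃ (d : ℕ) (a : A), a ∈ 𝒜 d ∧ a ∈ I ∧ a ∉ J := by
  classical
  by_contra hcon
  push Not at hcon
  apply h
  intro x hx
  rw [← DirectSum.sum_support_decompose 𝒜 x]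
  refine J.toIdeal.sum_mem fun i _ => ?_
  exact hcon i _ (SetLike.coe_mem _) (I.isHomogeneous i hx)

theorem exists_homog_pos (J : HomogeneousIdeal 𝒜) (q : ProjectiveSpectrum 𝒜)
    (h : ¬ J ≤ q.asHomogeneousIdeal) :
    ∃ (d : ℕ) (a : A), 0 < d ∧ a ∈ 𝒜 d ∧ a ∈ J ∧ a ∉ q.asHomogeneousIdeal := by
  obtain ⟨d, a, had, haJ, haq⟩ := exists_homog 𝒜 J _ h
  have h2 : ¬ (HomogeneousIdeal.irrelevant 𝒜) ≤ q.asHomogeneousIdeal := q.not_irrelevant_le
  rw [HomogeneousIdeal.irrelevant_le] at h2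
  push Not at h2
  obtain ⟨e, he, hle⟩ := h2
  obtain ⟨b, hb, hbq⟩ := SetLike.not_le_iff_exists.mp hle
  refine ⟨d + e, a * b, by omega, SetLike.mul_mem_graded had hb,
    J.toIdeal.mul_mem_right b haJ, fun hab => ?_⟩
  exact (q.isPrime.mem_or_mem hab).elim haq hbq

theorem avoid (J : HomogeneousIdeal 𝒜) (n : ℕ) : ∀ S : Finset (ProjectiveSpectrum 𝒜),
    S.card = n → (∀ q ∈ S, ¬ J ≤ q.asHomogeneousIdeal) →
    ∃ (d : ℕ) (f : A), 0 < d ∧ f ∈ 𝒜 d ∧ f ∈ J ∧ ∀ q ∈ S, f ∉ q.asHomogeneousIdeal := by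
  classical
  induction n with
  | zero =>
    intro S hS _
    rw [Finset.card_eq_zero] at hS
    subst hS
    exact ⟨1, 0, one_pos, zero_mem _, J.toIdeal.zero_mem, by simp⟩
  | succ n ih =>
    intro S hS hJ
    have hne : S.Nonempty := by
      rw [← Finset.card_pos, hS]
      omega
    obtain ⟨q, hq, hmin⟩ := S.exists_minimalFor (fun q => q.asHomogeneousIdeal) hne
    obtain ⟨d, f, hd, hfd, hfJ, hf⟩ := ih (S.erase q) (by rw [Finset.card_erase_of_mem hq, hS]; rfl)
      (fun p hp => hJ p (Finset.mem_of_mem_erase hp))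
    by_cases hfq : f ∈ q.asHomogeneousIdeal
    · have h1 : ∀ p ∈ S.erase q, ∃ (e : ℕ) (a : A), a ∈ 𝒜 e ∧ a ∈ p.asHomogeneousIdeal ∧
          a ∉ q.asHomogeneousIdeal := by
        intro p hp
        apply exists_homog
        intro hle
        have h2 := hmin (Finset.mem_of_mem_erase hp) hle
        exact (Finset.ne_of_mem_erase hp) (ProjectiveSpectrum.ext (le_antisymm hle h2))
      choose! e a hae hap haq using h1
      obtain ⟨c, g, hc, hgc, hgJ, hgq⟩ := exists_homog_pos 𝒜 J q (hJ q hq)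
      have hprod : (∏ p ∈ S.erase q, a p) ∈ 𝒜 (∑ p ∈ S.erase q, e p) :=
        SetLike.prod_mem_graded (A := 𝒜) _ _ fun p hp => hae p hp
      set m := ∑ p ∈ S.erase q, e p
      have hgm : g * ∏ p ∈ S.erase q, a p ∈ 𝒜 (c + m) := SetLike.mul_mem_graded hgc hprod
      have hgmq : g * ∏ p ∈ S.erase q, a p ∉ q.asHomogeneousIdeal := by
        intro hmem
        rcases q.isPrime.mem_or_mem hmem with h3 | h3
        · exact hgq h3
        · rw [Ideal.IsPrime.prod_mem_iff] at h3
          obtain ⟨p, hp, hpq⟩ := h3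
          exact haq p hp hpq
      refine ⟨(c + m) * d, f ^ (c + m) + (g * ∏ p ∈ S.erase q, a p) ^ d, by positivity, ?_, ?_, ?_⟩
      · refine add_mem ?_ ?_
        · have := SetLike.pow_mem_graded (c + m) hfd
          simpa using this
        · have := SetLike.pow_mem_graded d hgm
          rw [smul_eq_mul, mul_comm] at this
          exact this
      · refine J.toIdeal.add_mem ?_ ?_
        · exact J.toIdeal.pow_mem_of_mem hfJ _ (by omega)
        · exact J.toIdeal.pow_mem_of_mem (J.toIdeal.mul_mem_right _ hgJ) _ hd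
      · intro p hp hmem
        by_cases hpq : p = q
        · subst hpq
          have h3 : (g * ∏ p ∈ S.erase p, a p) ^ d ∈ p.asHomogeneousIdeal.toIdeal := by
            have h4 := p.asHomogeneousIdeal.toIdeal.sub_mem hmem
              (p.asHomogeneousIdeal.toIdeal.pow_mem_of_mem hfq (c + m) (by omega))
            rwa [add_sub_cancel_left] at h4
          exact hgmq (p.isPrime.mem_of_pow_mem _ h3)
        · have hp' : p ∈ S.erase q := Finset.mem_erase.mpr ⟨hpq, hp⟩
          have h5 : (g * ∏ p ∈ S.erase q, a p) ∈ p.asHomogeneousIdeal.toIdeal :=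
            Ideal.mul_mem_left _ _ (by
              rw [Ideal.IsPrime.prod_mem_iff]
              exact ⟨p, hp', hap p hp'⟩)
          have h3 : f ^ (c + m) ∈ p.asHomogeneousIdeal.toIdeal := by
            have h4 := p.asHomogeneousIdeal.toIdeal.sub_mem hmem
              (p.asHomogeneousIdeal.toIdeal.pow_mem_of_mem h5 d hd)
            rwa [add_sub_cancel_right] at h4
          exact hf p hp' (p.isPrime.mem_of_pow_mem _ h3)
    · refine ⟨d, f, hd, hfd, hfJ, fun p hp => ?_⟩
      by_cases hpq : p = q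
      · rw [hpq]; exact hfq
      · exact hf p (Finset.mem_erase.mpr ⟨hpq, hp⟩)

/-- Finite subsets of schemes immersed into a projective spectrum lie in affine open subsets. -/
theorem exists_affine {X : Scheme.{0}} (i : X ⟶ Proj 𝒜) [IsImmersion i] (s : Set X)
    (hs : s.Finite) : ∃ U : X.Opens, IsAffineOpen U ∧ s ⊆ U := by
  classical
  let W := i.coborderRange
  have hW : ∀ x : X, i x ∈ W := by
    intro x
    exact subset_coborder ⟨x, rfl⟩
  let J : HomogeneousIdeal 𝒜 := ProjectiveSpectrum.vanishingIdeal ((W : Set (Proj 𝒜))ᶜ)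
  let S : Finset (ProjectiveSpectrum 𝒜) := (hs.image i).toFinset
  have hS : ∀ q : ProjectiveSpectrum 𝒜, q ∈ S ↔ q ∈ i '' s := fun q =>
    (hs.image i).mem_toFinset
  obtain ⟨d, f, hd, hfd, hfJ, hf⟩ := avoid 𝒜 J S.card S rfl (by
    intro q hq hle
    have hq' : q ∈ i '' s := (hS q).mp hq
    obtain ⟨x, -, hx⟩ := hq'
    have h1 : q ∈ closure ((W : Set (Proj 𝒜))ᶜ) := by
      have h2 : q ∈ ProjectiveSpectrum.zeroLocus 𝒜 (J : Set A) := hle
      rw [ProjectiveSpectrum.zeroLocus_vanishingIdeal_eq_closure] at h2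
      exact h2
    rw [W.isOpen.isClosed_compl.closure_eq] at h1
    exact h1 (hx ▸ hW x))
  let D := Proj.basicOpen 𝒜 f
  have hD : IsAffineOpen D := Proj.isAffineOpen_basicOpen 𝒜 f hfd hd
  have hDW : D ≤ W := by
    intro q hq
    by_contra hcon
    exact hq ((ProjectiveSpectrum.mem_vanishingIdeal _ _).mp hfJ q hcon)
  have h1 : IsAffineOpen (W.ι ⁻¹ᵁ D) :=
    hD.preimage_of_isOpenImmersion _ (by rw [Scheme.Opens.opensRange_ι]; exact hDW)
  have h2 : IsAffineOpen (i.liftCoborder ⁻¹ᵁ (W.ι ⁻¹ᵁ D)) := h1.preimage i.liftCoborder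
  refine ⟨_, h2, fun x hx => ?_⟩
  change W.ι (i.liftCoborder x) ∈ D
  have h3 : W.ι (i.liftCoborder x) = i x := by
    rw [← Scheme.Hom.comp_apply]
    exact congrArg (fun j : X ⟶ Proj 𝒜 => j x) i.liftCoborder_ι
  rw [h3]
  exact hf _ ((hS _).mpr ⟨x, hx, rfl⟩)

end avoid

end Pool.Agent.J6H65.Hilb4
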