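import Pool.Agent.J6H65.Hilb4.Defs

set_option autoImplicit false

namespace Pool.Agent.J6H65.Hilb4

open IsLocalRing RingTheory.Sequence CategoryTheory Abelian Pointwise

section equiv

theorem isRegular_ringEquiv {R S : Type*} [CommRing R] [CommRing S] (e : R ≃+* S) (rs : List R)
    (h : IsRegular R rs) : IsRegular S (rs.map e) := by
  let _ := RingHomInvPair.of_ringEquiv e
  let _ := RingHomInvPair.symm (↑e : R →+* S) (↑e.symm : S →+* R)
  let e' : R ≃ₛₗ[(e : R →+* S)] S :=
    { e.toAddEquiv with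
      map_smul' := fun a b => by simp [smul_eq_mul] }
  exact (LinearEquiv.isRegular_congr' e' rs).mp h

theorem IsCohenMacaulayLocalRing.of_ringEquiv {R S : Type*} [CommRing R] [IsLocalRing R]
    [CommRing S] [IsLocalRing S] (e : R ≃+* S) (h : IsCohenMacaulayLocalRing R) :
    IsCohenMacaulayLocalRing S := by
  obtain ⟨hn, rs, hmem, hreg, hdim⟩ := h
  refine ⟨isNoetherianRing_of_ringEquiv R e, rs.map e, ?_, isRegular_ringEquiv e rs hreg, ?_⟩
  · intro s hs
    rw [List.mem_map] at hs
    obtain ⟨r, hr, rfl⟩ := hs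
    have := hmem r hr
    rw [IsLocalRing.mem_maximalIdeal, mem_nonunits_iff] at this ⊢
    rwa [MulEquiv.isUnit_map]
  · rw [List.length_map, ← hdim, ringKrullDim_eq_of_ringEquiv e]

end equiv

/-- A quotient of a Cohen–Macaulay local ring by a regular element is Cohen–Macaulay. -/
theorem IsCohenMacaulayLocalRing.quotient {R : Type} [CommRing R] [IsLocalRing R]
    (h : IsCohenMacaulayLocalRing R) (x : R) (hx : x ∈ maximalIdeal R)
    (hreg : IsSMulRegular R x) [IsLocalRing (R ⧸ Ideal.span {x})] :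
    IsCohenMacaulayLocalRing (R ⧸ Ideal.span {x}) := by
  obtain ⟨hn, rs, hmem, hrs, hdim⟩ := h
  have hdim' : ringKrullDim (R ⧸ Ideal.span {x}) + 1 = ringKrullDim R :=
    ringKrullDim_quotient_span_singleton_succ_eq_ringKrullDim hreg hx
  -- length is a successor
  obtain ⟨n, hn'⟩ : ∃ n, rs.length = n + 1 := by
    rcases Nat.eq_zero_or_pos rs.length with h0 | h0
    · exfalso
      rw [h0] at hdim
      rw [hdim] at hdim'
      have : (0 : WithBot ℕ∞) ≤ ringKrullDim (R ⧸ Ideal.span {x}) :=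
        ringKrullDim_nonneg_of_nontrivial
      have h2 : (1 : WithBot ℕ∞) ≤ ringKrullDim (R ⧸ Ideal.span {x}) + 1 := by
        calc (1 : WithBot ℕ∞) = 0 + 1 := by simp
          _ ≤ _ := by gcongr
      rw [hdim'] at h2
      exact absurd h2 (by simp)
    · exact ⟨rs.length - 1, by omega⟩
  let I := maximalIdeal R
  have lt1 : I • (⊤ : Submodule R R) < ⊤ := by
    rw [lt_top_iff_ne_top]
    intro h
    have : I = ⊤ := by simpa using h
    exact (maximalIdeal.isMaximal R).ne_top this
  have hR := (ModuleCat.exists_isRegular_tfae I (n+1) (ModuleCat.of R R) lt1).out 3 1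
  have hExt := hR.mp ⟨rs, hn', hmem, hrs⟩
  let κ := ModuleCat.of R (Shrink.{0} (R ⧸ I))
  let M' := ModuleCat.of R (QuotSMulTop x R)
  have hExt' : ∀ i < n, Subsingleton (Ext κ M' i) := by
    intro i hi
    have h1 : Subsingleton (Ext κ (ModuleCat.of R R) i) := hExt i (by omega)
    have h2 : Subsingleton (Ext κ (ModuleCat.of R R) (i+1)) := hExt (i+1) (by omega)
    have hS := (IsSMulRegular.smulShortComplex_shortExact
      (M := ModuleCat.of R R) (r := x) hreg)
    refine ⟨fun a b => ?_⟩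
    have key : ∀ a : Ext κ M' i, a = 0 := by
      intro a
      obtain ⟨x₂, hx₂⟩ := Ext.covariant_sequence_exact₃ κ hS a (n₁ := i+1) rfl
        (by exact @Subsingleton.elim _ h2 _ _)
      have : x₂ = 0 := @Subsingleton.elim _ h1 _ _
      rw [← hx₂, this, Ext.zero_comp]; rfl
    rw [key a, key b]
  have eIx : (x • (⊤ : Submodule R R)) = Ideal.span {x} := by
    ext y
    simp [Submodule.mem_smul_pointwise_iff_exists, Ideal.mem_span_singleton', mul_comm]
  let e : QuotSMulTop x R ≃ₗ[R] R ⧸ Ideal.span {x} := Submodule.quotEquivOfEq _ _ eIx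
  have ntM : Nontrivial (QuotSMulTop x R) := e.toEquiv.nontrivial
  have lt2 : I • (⊤ : Submodule R (QuotSMulTop x R)) < ⊤ := by
    rw [lt_top_iff_ne_top]
    intro h
    have := Submodule.eq_bot_of_le_smul_of_le_jacobson_bot I (⊤ : Submodule R (QuotSMulTop x R))
      Module.Finite.fg_top h.ge (by rw [IsLocalRing.jacobson_eq_maximalIdeal _ bot_ne_top])
    exact bot_ne_top this.symm
  have hM := (ModuleCat.exists_isRegular_tfae I n M' lt2).out 1 3
  obtain ⟨rs', hlen, hmem', hreg'⟩ := hM.mp hExt'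
  have hreg2 : IsRegular (R ⧸ Ideal.span {x}) rs' := (LinearEquiv.isRegular_congr e rs').mp hreg'
  refine ⟨inferInstance, rs'.map (algebraMap R (R ⧸ Ideal.span {x})), ?_, ?_, ?_⟩
  · intro s hs
    rw [List.mem_map] at hs
    obtain ⟨r, hr, rfl⟩ := hs
    have := hmem' r hr
    rw [IsLocalRing.mem_maximalIdeal, mem_nonunits_iff]
    intro hu
    have : IsLocalHom (algebraMap R (R ⧸ Ideal.span {x})) :=
      IsLocalHom.of_surjective _ Ideal.Quotient.mk_surjective
    have := (isUnit_map_iff (algebraMap R (R ⧸ Ideal.span {x})) r).mp hu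
    exact (IsLocalRing.mem_maximalIdeal _).mp (hmem' r hr) this
  · have w := (isWeaklyRegular_map_algebraMap_iff (R := R) (S := R ⧸ Ideal.span {x})
      (M := R ⧸ Ideal.span {x}) rs').mpr hreg2.toIsWeaklyRegular
    refine RingTheory.Sequence.IsRegular.of_isWeaklyRegular_of_mem_maximalIdeal _ ?_ w
    intro s hs
    rw [List.mem_map] at hs
    obtain ⟨r, hr, rfl⟩ := hs
    rw [IsLocalRing.mem_maximalIdeal, mem_nonunits_iff]
    intro hu
    have : IsLocalHom (algebraMap R (R ⧸ Ideal.span {x})) :=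
      IsLocalHom.of_surjective _ Ideal.Quotient.mk_surjective
    have := (isUnit_map_iff (algebraMap R (R ⧸ Ideal.span {x})) r).mp hu
    exact (IsLocalRing.mem_maximalIdeal _).mp (hmem' r hr) this
  · rw [List.length_map, hlen]
    rw [hdim, hn'] at hdim'
    have h3 : ringKrullDim (R ⧸ Ideal.span {x}) + 1 = (n : WithBot ℕ∞) + 1 := by
      rw [hdim']; push_cast; rfl
    exact ENat.WithBot.add_natCast_cancel (c := 1) |>.mp (by simpa using h3)

/-- A flat quasi-finite local homomorphism ascends the Cohen–Macaulay property. -/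
theorem IsCohenMacaulayLocalRing.of_flat_quasiFinite {A D : Type*} [CommRing A] [IsLocalRing A]
    [CommRing D] [IsLocalRing D] [IsNoetherianRing D] [Algebra A D] [Module.Flat A D]
    [IsLocalHom (algebraMap A D)] [Algebra.QuasiFinite A D]
    (h : IsCohenMacaulayLocalRing A) : IsCohenMacaulayLocalRing D := by
  obtain ⟨hn, rs, hmem, hrs, hdim⟩ := h
  have hmem' : ∀ r ∈ rs.map (algebraMap A D), r ∈ maximalIdeal D := by
    intro s hs
    rw [List.mem_map] at hs
    obtain ⟨r, hr, rfl⟩ := hs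
    rw [IsLocalRing.mem_maximalIdeal, mem_nonunits_iff]
    intro hu
    exact (IsLocalRing.mem_maximalIdeal _).mp (hmem r hr) ((isUnit_map_iff (algebraMap A D) r).mp hu)
  have hreg : IsRegular D (rs.map (algebraMap A D)) :=
    RingTheory.Sequence.IsRegular.of_isWeaklyRegular_of_mem_maximalIdeal _ hmem'
      (IsWeaklyRegular.of_flat hrs.toIsWeaklyRegular)
  refine ⟨inferInstance, _, hmem', hreg, ?_⟩
  have h1 := ringKrullDim_add_length_eq_ringKrullDim_of_isRegular rs hrs
  have h2 := ringKrullDim_add_length_eq_ringKrullDim_of_isRegular _ hreg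
  rw [hdim] at h1
  have h3 : ringKrullDim (A ⧸ Ideal.ofList rs) = 0 := by
    have : ringKrullDim (A ⧸ Ideal.ofList rs) + (rs.length : WithBot ℕ∞)
      = 0 + (rs.length : WithBot ℕ∞) := by rw [h1]; simp
    exact ENat.WithBot.add_natCast_cancel.mp this
  have ne1 : Ideal.ofList rs ≠ ⊤ := by
    intro h
    have := Ideal.span_le.mpr (show {r | r ∈ rs} ⊆ (maximalIdeal A : Set A) from hmem)
    have h' : Ideal.ofList rs ≤ maximalIdeal A := this
    rw [h] at h'
    exact (maximalIdeal.isMaximal A).ne_top (top_le_iff.mp h')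
  have : Nontrivial (A ⧸ Ideal.ofList rs) := Ideal.Quotient.nontrivial_iff.mpr ne1
  have : Ring.KrullDimLE 0 (A ⧸ Ideal.ofList rs) := by
    rw [Ring.krullDimLE_iff, h3]; simp
  have : IsArtinianRing (A ⧸ Ideal.ofList rs) := isArtinianRing_iff_krullDimLE_zero.mpr ‹_›
  let J := Ideal.ofList (rs.map (algebraMap A D))
  have hJ : J = (Ideal.ofList rs).map (algebraMap A D) := (Ideal.map_ofList _ _).symm
  let φ : (A ⧸ Ideal.ofList rs) →+* (D ⧸ J) :=
    Ideal.quotientMap J (algebraMap A D) (by rw [hJ]; exact Ideal.le_comap_map)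
  letI : Algebra (A ⧸ Ideal.ofList rs) (D ⧸ J) := φ.toAlgebra
  have : IsScalarTower A (A ⧸ Ideal.ofList rs) (D ⧸ J) := .of_algebraMap_eq fun a => rfl
  have : Algebra.QuasiFinite (A ⧸ Ideal.ofList rs) (D ⧸ J) :=
    Algebra.QuasiFinite.of_restrictScalars A _ _
  have : Module.Finite (A ⧸ Ideal.ofList rs) (D ⧸ J) := Module.Finite.of_quasiFinite
  have : IsArtinianRing (D ⧸ J) := .of_finite (A ⧸ Ideal.ofList rs) _
  have ne2 : J ≠ ⊤ := by
    intro h
    have h' : J ≤ maximalIdeal D := Ideal.span_le.mpr hmem'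
    rw [h] at h'
    exact (maximalIdeal.isMaximal D).ne_top (top_le_iff.mp h')
  have : Nontrivial (D ⧸ J) := Ideal.Quotient.nontrivial_iff.mpr ne2
  have h4 : ringKrullDim (D ⧸ J) = 0 := by
    have k := isArtinianRing_iff_krullDimLE_zero.mp ‹IsArtinianRing (D ⧸ J)›
    rw [Ring.krullDimLE_iff] at k
    exact le_antisymm (by simpa using k) ringKrullDim_nonneg_of_nontrivial
  rw [← h2]
  change _ = _
  rw [show ringKrullDim (D ⧸ Ideal.ofList (rs.map (algebraMap A D))) = 0 from h4]
  simp

end Pool.Agent.J6H65.Hilb4
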