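import Pool.Agent.J6H65.Hilb4.CM

set_option autoImplicit false

namespace Pool.Agent.J6H65.Hilb4

open IsLocalRing RingTheory.Sequence Polynomial

/-- A Noetherian ring all of whose localizations at primes are Cohen–Macaulay. -/
def IsCohenMacaulayRing (A : Type*) [CommRing A] : Prop :=
  IsNoetherianRing A ∧ ∀ (p : Ideal A) [p.IsPrime],
    IsCohenMacaulayLocalRing (Localization.AtPrime p)

theorem IsCohenMacaulayRing.of_flat_quasiFinite {A : Type*} (D : Type*) [CommRing A]
    [CommRing D] [IsNoetherianRing D] [Algebra A D] [Module.Flat A D]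
    [Algebra.QuasiFinite A D]
    (h : IsCohenMacaulayRing A) : IsCohenMacaulayRing D := by
  refine ⟨inferInstance, fun q hq => ?_⟩
  let p := q.under A
  have : q.LiesOver p := ⟨rfl⟩
  letI := Localization.AtPrime.algebraOfLiesOver p q
  have : Algebra.QuasiFinite A (Localization.AtPrime q) := inferInstance
  have : Algebra.QuasiFinite (Localization.AtPrime p) (Localization.AtPrime q) :=
    Algebra.QuasiFinite.of_restrictScalars A _ _
  have : Module.Flat A (Localization.AtPrime q) :=
    Module.Flat.trans A D _
  have : Module.Flat (Localization.AtPrime p) (Localization.AtPrime q) :=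
    (Module.flat_iff_of_isLocalization _ p.primeCompl _).mpr ‹_›
  have : IsLocalHom (algebraMap (Localization.AtPrime p) (Localization.AtPrime q)) := by
    change IsLocalHom (Localization.localRingHom p q (algebraMap A D) Ideal.LiesOver.over)
    infer_instance
  have : IsNoetherianRing (Localization.AtPrime q) := IsLocalization.isNoetherianRing q.primeCompl _ ‹_›
  exact IsCohenMacaulayLocalRing.of_flat_quasiFinite (A := Localization.AtPrime p) (h.2 p)

/-- Cohen–Macaulayness of the localization of a ring is inherited from the ring. -/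
theorem IsCohenMacaulayRing.of_ringEquiv {A B : Type*} [CommRing A] [CommRing B] (e : A ≃+* B)
    (h : IsCohenMacaulayRing A) : IsCohenMacaulayRing B := by
  refine ⟨@isNoetherianRing_of_ringEquiv A _ _ _ e h.1, fun q hq => ?_⟩
  let p := q.comap (e : A →+* B)
  exact IsCohenMacaulayLocalRing.of_ringEquiv
    (IsLocalization.ringEquivOfRingEquiv (Localization.AtPrime p) (Localization.AtPrime q) e
      (M := p.primeCompl) (T := q.primeCompl) (by
        ext x
        rw [Submonoid.mem_map]
        constructor
        · rintro ⟨a, ha, rfl⟩; exact ha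
        · intro hx
          refine ⟨e.symm x, ?_, by simp⟩
          intro hx2
          apply hx
          have : e (e.symm x) ∈ q := hx2
          simpa using this)) (h.2 p)

theorem isCohenMacaulayRing_of_field (k : Type*) [Field k] : IsCohenMacaulayRing k := by
  refine ⟨inferInstance, fun p hp => ⟨inferInstance, [], by simp, ?_, ?_⟩⟩
  · exact RingTheory.Sequence.IsRegular.nil _ _
  · have : p = ⊥ := (Ideal.eq_bot_or_top p).resolve_right hp.ne_top
    have h2 : p.height = 0 := by rw [this]; simp
    rw [IsLocalization.AtPrime.ringKrullDim_eq_height p (Localization.AtPrime p), h2]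
    simp

theorem isSMulRegular_monic {R : Type*} [CommRing R] (I : Ideal R) (y : R[X]) (hy : y.Monic) :
    IsSMulRegular (R[X] ⧸ (I.map (C : R →+* R[X]))) y := by
  intro a b hab
  obtain ⟨a, rfl⟩ := Ideal.Quotient.mk_surjective a
  obtain ⟨b, rfl⟩ := Ideal.Quotient.mk_surjective b
  have h1 : y * (a - b) ∈ I.map (C : R →+* R[X]) := by
    rw [← Ideal.Quotient.eq_zero_iff_mem, map_mul, map_sub, mul_sub, sub_eq_zero]
    exact hab
  have ker : ∀ f : R[X], f ∈ I.map (C : R →+* R[X]) ↔ f.map (Ideal.Quotient.mk I) = 0 := by
    intro f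
    rw [Ideal.mem_map_C_iff, Polynomial.ext_iff]
    simp [Ideal.Quotient.eq_zero_iff_mem]
  rw [ker, Polynomial.map_mul] at h1
  have h2 : (a - b).map (Ideal.Quotient.mk I) = 0 :=
    ((hy.map (Ideal.Quotient.mk I)).mul_right_eq_zero_iff).mp h1
  rw [Ideal.Quotient.eq, ker]
  exact h2

theorem isMaximal_of_lt {R : Type*} [CommRing R] (m : Ideal R) [m.IsMaximal] (p : Ideal R[X])
    [p.IsPrime] (hlt : m.map (C : R →+* R[X]) < p) : p.IsMaximal := by
  let _ : Field (R ⧸ m) := Ideal.Quotient.field m
  let f : R[X] →+* (R ⧸ m)[X] := Polynomial.mapRingHom (Ideal.Quotient.mk m)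
  have hf : Function.Surjective f := Polynomial.map_surjective _ Ideal.Quotient.mk_surjective
  have hker : RingHom.ker f = m.map (C : R →+* R[X]) := by
    simp only [f]
    rw [Polynomial.ker_mapRingHom, Ideal.mk_ker]
  have hkerle : RingHom.ker f ≤ p := hker ▸ hlt.le
  have hprime : (p.map f).IsPrime := Ideal.map_isPrime_of_surjective hf hkerle
  have hne : p.map f ≠ ⊥ := by
    intro h
    rw [Ideal.map_eq_bot_iff_le_ker, hker] at h
    exact absurd hlt (not_lt_of_ge h)
  have hmax : (p.map f).IsMaximal := IsPrime.to_maximal_ideal hne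
  have : (p.map f).comap f = p := by
    rw [Ideal.comap_map_of_surjective f hf, ← RingHom.ker_eq_comap_bot]
    exact sup_eq_left.mpr hkerle
  rw [← this]
  exact Ideal.comap_isMaximal_of_surjective f hf

theorem poly_aux (R : Type*) [CommRing R] [IsLocalRing R] (h : IsCohenMacaulayLocalRing R)
    (p : Ideal R[X]) [p.IsPrime] (max : p.comap C = maximalIdeal R) :
    IsCohenMacaulayLocalRing (Localization.AtPrime p) := by
  obtain ⟨hn, rs, hmem, hrs, hdim⟩ := h
  let q := (maximalIdeal R).map (C : R →+* R[X])
  have qle : q ≤ p := by simpa [q, ← max] using Ideal.map_comap_le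
  have hw : IsWeaklyRegular R[X] (rs.map (algebraMap R R[X])) :=
    IsWeaklyRegular.of_flat hrs.toIsWeaklyRegular
  have hmem' : ∀ r ∈ rs.map (algebraMap R R[X]), r ∈ p := by
    intro s hs
    rw [List.mem_map] at hs
    obtain ⟨r, hr, rfl⟩ := hs
    exact qle (Ideal.mem_map_of_mem _ (hmem r hr))
  have hht : ((maximalIdeal R).height : WithBot ℕ∞) = rs.length := by
    rw [IsLocalRing.maximalIdeal_height_eq_ringKrullDim, hdim]
  have hfin : (maximalIdeal R).height = rs.length := by exact_mod_cast hht
  refine ⟨inferInstance, ?_⟩
  by_cases eq : p = q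
  · refine ⟨(rs.map (algebraMap R R[X])).map (algebraMap R[X] (Localization.AtPrime p)), ?_,
      IsWeaklyRegular.isRegular_of_isLocalization_of_mem (Localization.AtPrime p) p hw hmem', ?_⟩
    · intro s hs
      rw [List.mem_map] at hs
      obtain ⟨r, hr, rfl⟩ := hs
      exact (IsLocalization.AtPrime.to_map_mem_maximal_iff _ p _).mpr (hmem' r hr)
    · have h2 : p.height = rs.length := by rw [eq]; simp only [q]; rw [Polynomial.height_map_C, hfin]
      rw [IsLocalization.AtPrime.ringKrullDim_eq_height p (Localization.AtPrime p), h2]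
      simp
  · have lt : q < p := lt_of_le_of_ne qle (Ne.symm eq)
    have : (Ideal.comap C p).IsMaximal := by simpa [max] using maximalIdeal.isMaximal R
    obtain ⟨y, ym, hy⟩ := Polynomial.exists_monic_span_sup_map_eq R p this (by simpa [max])
    have hyp : y ∈ p := by
      rw [hy]
      exact Ideal.mem_sup_right (Ideal.mem_span_singleton_self y)
    have hw2 : IsWeaklyRegular R[X] (rs.map (algebraMap R R[X]) ++ [y]) := by
      rw [isWeaklyRegular_append_iff]
      refine ⟨hw, ?_⟩
      rw [isWeaklyRegular_singleton_iff]
      have hE : (Ideal.ofList (rs.map (algebraMap R R[X])) • (⊤ : Submodule R[X] R[X])) =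
          (Ideal.ofList rs).map (C : R →+* R[X]) := by
        rw [← Polynomial.algebraMap_eq, Ideal.map_ofList]
        simp
      exact (LinearEquiv.isSMulRegular_congr (Submodule.quotEquivOfEq _ _ hE) y).mpr
        (isSMulRegular_monic (Ideal.ofList rs) y ym)
    have hmem2 : ∀ r ∈ rs.map (algebraMap R R[X]) ++ [y], r ∈ p := by
      intro r hr
      rw [List.mem_append] at hr
      rcases hr with hr | hr
      · exact hmem' r hr
      · rw [List.mem_singleton] at hr; rw [hr]; exact hyp
    refine ⟨(rs.map (algebraMap R R[X]) ++ [y]).map (algebraMap R[X] (Localization.AtPrime p)), ?_,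
      IsWeaklyRegular.isRegular_of_isLocalization_of_mem (Localization.AtPrime p) p hw2 hmem2, ?_⟩
    · intro s hs
      rw [List.mem_map] at hs
      obtain ⟨r, hr, rfl⟩ := hs
      exact (IsLocalization.AtPrime.to_map_mem_maximal_iff _ p _).mpr (hmem2 r hr)
    · have h2 : p.height = rs.length + 1 := by
        refine le_antisymm ?_ ?_
        · have pm : p.IsMaximal := isMaximal_of_lt (maximalIdeal R) p lt
          have : p.LiesOver (maximalIdeal R) := ⟨max.symm⟩
          rw [Polynomial.height_eq_height_add_one (maximalIdeal R) p, hfin]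
        · rw [← hfin]
          exact (add_le_add_left (Polynomial.height_map_C _).ge 1).trans
            (Ideal.height_add_one_le_of_lt_of_isPrime lt)
      rw [IsLocalization.AtPrime.ringKrullDim_eq_height p (Localization.AtPrime p), h2]
      simp

/-- Polynomial rings over Cohen–Macaulay rings are Cohen–Macaulay. -/
theorem IsCohenMacaulayRing.polynomial {R : Type*} [CommRing R] (h : IsCohenMacaulayRing R) :
    IsCohenMacaulayRing R[X] := by
  have := h.1
  refine ⟨inferInstance, fun p hp => ?_⟩
  let q := p.comap C
  let S := (Localization.AtPrime q)[X]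
  let pc := Submonoid.map Polynomial.C.toMonoidHom q.primeCompl
  let : Algebra R[X] S := Polynomial.algebra R (Localization.AtPrime q)
  have : IsLocalization pc S := Polynomial.isLocalization _ _
  let pS := p.map (algebraMap R[X] S)
  have disj : Disjoint (pc : Set R[X]) (p : Set R[X]) := by
    simpa [pc, q] using! Set.disjoint_image_left.mpr
      (Set.disjoint_compl_left_iff_subset.mpr (fun _ a ↦ a))
  have : pS.IsPrime := IsLocalization.isPrime_of_isPrime_disjoint pc _ _ ‹_› disj
  have : IsLocalization.AtPrime (Localization.AtPrime pS) p := by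
    convert IsLocalization.isLocalization_isLocalization_atPrime_isLocalization pc
      (Localization.AtPrime pS) pS
    exact (IsLocalization.under_map_of_isPrime_disjoint pc _ ‹_› disj).symm
  have hq := h.2 q
  have eq : Ideal.comap C pS = maximalIdeal (Localization.AtPrime q) := by
    rw [← IsLocalization.map_under q.primeCompl _ (Ideal.comap C pS),
      ← IsLocalization.map_under q.primeCompl _ (maximalIdeal (Localization.AtPrime q))]
    simp only [Ideal.comap_comap, S, pS]
    rw [← Polynomial.algebraMap_eq (R := Localization.AtPrime q),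
      ← IsScalarTower.algebraMap_eq R (Localization.AtPrime q) (Localization.AtPrime q)[X],
      IsScalarTower.algebraMap_eq R R[X] (Localization.AtPrime q)[X], ← Ideal.comap_comap,
      ← Ideal.under_def R[X], IsLocalization.under_map_of_isPrime_disjoint pc _ ‹_› disj]
    simp [q, IsLocalization.AtPrime.under_maximalIdeal (Localization.AtPrime q) q]
  have := poly_aux _ hq pS eq
  exact IsCohenMacaulayLocalRing.of_ringEquiv (IsLocalization.algEquiv p.primeCompl
    (Localization.AtPrime pS) (Localization.AtPrime p)).toRingEquiv this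

/-- Multivariate polynomial rings over Cohen–Macaulay rings are Cohen–Macaulay. -/
theorem IsCohenMacaulayRing.mvPolynomial {R : Type*} [CommRing R] (h : IsCohenMacaulayRing R)
    (ι : Type*) [Finite ι] : IsCohenMacaulayRing (MvPolynomial ι R) := by
  induction ι using Finite.induction_empty_option with
  | of_equiv e H => exact IsCohenMacaulayRing.of_ringEquiv (MvPolynomial.renameEquiv _ e).toRingEquiv H
  | h_empty => exact IsCohenMacaulayRing.of_ringEquiv (MvPolynomial.isEmptyRingEquiv R _).symm h
  | h_option IH =>
    exact IsCohenMacaulayRing.of_ringEquiv (MvPolynomial.optionEquivLeft _ _).toRingEquiv.symm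
      IH.polynomial

end Pool.Agent.J6H65.Hilb4
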