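import Pool.Agent.J6H65.Hilb4.Ops

set_option autoImplicit false
set_option linter.unusedSimpArgs false
set_option linter.unusedVariables false

namespace Pool.Agent.J6H65.Hilb4

variable {R : Type*} [CommRing R]

theorem comm01_0 (t : Fin 9 → R) (v : Fin 14 → R) :
    U0 t (U1 t v) 0 = U1 t (U0 t v) 0 := by
  simp only [U0_0, U0_1, U0_2, U0_3, U0_4, U0_5, U0_6, U0_7, U0_8, U0_9, U0_10, U0_11, U0_12, U0_13, U1_0, U1_1, U1_2, U1_3, U1_4, U1_5, U1_6, U1_7, U1_8, U1_9, U1_10, U1_11, U1_12, U1_13]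
  ring

theorem comm01_1 (t : Fin 9 → R) (v : Fin 14 → R) :
    U0 t (U1 t v) 1 = U1 t (U0 t v) 1 := by
  simp only [U0_0, U0_1, U0_2, U0_3, U0_4, U0_5, U0_6, U0_7, U0_8, U0_9, U0_10, U0_11, U0_12, U0_13, U1_0, U1_1, U1_2, U1_3, U1_4, U1_5, U1_6, U1_7, U1_8, U1_9, U1_10, U1_11, U1_12, U1_13]
  ring

theorem comm01_2 (t : Fin 9 → R) (v : Fin 14 → R) :
    U0 t (U1 t v) 2 = U1 t (U0 t v) 2 := by
  simp only [U0_0, U0_1, U0_2, U0_3, U0_4, U0_5, U0_6, U0_7, U0_8, U0_9, U0_10, U0_11, U0_12, U0_13, U1_0, U1_1, U1_2, U1_3, U1_4, U1_5, U1_6, U1_7, U1_8, U1_9, U1_10, U1_11, U1_12, U1_13]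
  ring

theorem comm01_3 (t : Fin 9 → R) (v : Fin 14 → R) :
    U0 t (U1 t v) 3 = U1 t (U0 t v) 3 := by
  simp only [U0_0, U0_1, U0_2, U0_3, U0_4, U0_5, U0_6, U0_7, U0_8, U0_9, U0_10, U0_11, U0_12, U0_13, U1_0, U1_1, U1_2, U1_3, U1_4, U1_5, U1_6, U1_7, U1_8, U1_9, U1_10, U1_11, U1_12, U1_13]
  ring

theorem comm01_4 (t : Fin 9 → R) (v : Fin 14 → R) :
    U0 t (U1 t v) 4 = U1 t (U0 t v) 4 := by
  simp only [U0_0, U0_1, U0_2, U0_3, U0_4, U0_5, U0_6, U0_7, U0_8, U0_9, U0_10, U0_11, U0_12, U0_13, U1_0, U1_1, U1_2, U1_3, U1_4, U1_5, U1_6, U1_7, U1_8, U1_9, U1_10, U1_11, U1_12, U1_13]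
  ring

theorem comm01_5 (t : Fin 9 → R) (v : Fin 14 → R) :
    U0 t (U1 t v) 5 = U1 t (U0 t v) 5 := by
  simp only [U0_0, U0_1, U0_2, U0_3, U0_4, U0_5, U0_6, U0_7, U0_8, U0_9, U0_10, U0_11, U0_12, U0_13, U1_0, U1_1, U1_2, U1_3, U1_4, U1_5, U1_6, U1_7, U1_8, U1_9, U1_10, U1_11, U1_12, U1_13]
  ring

theorem comm01_6 (t : Fin 9 → R) (v : Fin 14 → R) :
    U0 t (U1 t v) 6 = U1 t (U0 t v) 6 := by
  simp only [U0_0, U0_1, U0_2, U0_3, U0_4, U0_5, U0_6, U0_7, U0_8, U0_9, U0_10, U0_11, U0_12, U0_13, U1_0, U1_1, U1_2, U1_3, U1_4, U1_5, U1_6, U1_7, U1_8, U1_9, U1_10, U1_11, U1_12, U1_13]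
  ring

theorem comm01_7 (t : Fin 9 → R) (v : Fin 14 → R) :
    U0 t (U1 t v) 7 = U1 t (U0 t v) 7 := by
  simp only [U0_0, U0_1, U0_2, U0_3, U0_4, U0_5, U0_6, U0_7, U0_8, U0_9, U0_10, U0_11, U0_12, U0_13, U1_0, U1_1, U1_2, U1_3, U1_4, U1_5, U1_6, U1_7, U1_8, U1_9, U1_10, U1_11, U1_12, U1_13]
  ring

theorem comm01_8 (t : Fin 9 → R) (v : Fin 14 → R) :
    U0 t (U1 t v) 8 = U1 t (U0 t v) 8 := by
  simp only [U0_0, U0_1, U0_2, U0_3, U0_4, U0_5, U0_6, U0_7, U0_8, U0_9, U0_10, U0_11, U0_12, U0_13, U1_0, U1_1, U1_2, U1_3, U1_4, U1_5, U1_6, U1_7, U1_8, U1_9, U1_10, U1_11, U1_12, U1_13]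
  ring

theorem comm01_9 (t : Fin 9 → R) (v : Fin 14 → R) :
    U0 t (U1 t v) 9 = U1 t (U0 t v) 9 := by
  simp only [U0_0, U0_1, U0_2, U0_3, U0_4, U0_5, U0_6, U0_7, U0_8, U0_9, U0_10, U0_11, U0_12, U0_13, U1_0, U1_1, U1_2, U1_3, U1_4, U1_5, U1_6, U1_7, U1_8, U1_9, U1_10, U1_11, U1_12, U1_13]
  ring

theorem comm01_10 (t : Fin 9 → R) (v : Fin 14 → R) :
    U0 t (U1 t v) 10 = U1 t (U0 t v) 10 := by
  simp only [U0_0, U0_1, U0_2, U0_3, U0_4, U0_5, U0_6, U0_7, U0_8, U0_9, U0_10, U0_11, U0_12, U0_13, U1_0, U1_1, U1_2, U1_3, U1_4, U1_5, U1_6, U1_7, U1_8, U1_9, U1_10, U1_11, U1_12, U1_13]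
  ring

theorem comm01_11 (t : Fin 9 → R) (v : Fin 14 → R) :
    U0 t (U1 t v) 11 = U1 t (U0 t v) 11 := by
  simp only [U0_0, U0_1, U0_2, U0_3, U0_4, U0_5, U0_6, U0_7, U0_8, U0_9, U0_10, U0_11, U0_12, U0_13, U1_0, U1_1, U1_2, U1_3, U1_4, U1_5, U1_6, U1_7, U1_8, U1_9, U1_10, U1_11, U1_12, U1_13]
  ring

theorem comm01_12 (t : Fin 9 → R) (v : Fin 14 → R) :
    U0 t (U1 t v) 12 = U1 t (U0 t v) 12 := by
  simp only [U0_0, U0_1, U0_2, U0_3, U0_4, U0_5, U0_6, U0_7, U0_8, U0_9, U0_10, U0_11, U0_12, U0_13, U1_0, U1_1, U1_2, U1_3, U1_4, U1_5, U1_6, U1_7, U1_8, U1_9, U1_10, U1_11, U1_12, U1_13]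
  ring

theorem comm01_13 (t : Fin 9 → R) (v : Fin 14 → R) :
    U0 t (U1 t v) 13 = U1 t (U0 t v) 13 := by
  simp only [U0_0, U0_1, U0_2, U0_3, U0_4, U0_5, U0_6, U0_7, U0_8, U0_9, U0_10, U0_11, U0_12, U0_13, U1_0, U1_1, U1_2, U1_3, U1_4, U1_5, U1_6, U1_7, U1_8, U1_9, U1_10, U1_11, U1_12, U1_13]
  ring

theorem comm01 (t : Fin 9 → R) (v : Fin 14 → R) :
    U0 t (U1 t v) = U1 t (U0 t v) := by
  refine funext fun i => ?_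
  fin_cases i
  exacts [comm01_0 t v, comm01_1 t v, comm01_2 t v, comm01_3 t v, comm01_4 t v, comm01_5 t v, comm01_6 t v, comm01_7 t v, comm01_8 t v, comm01_9 t v, comm01_10 t v, comm01_11 t v, comm01_12 t v, comm01_13 t v]

theorem comm02_0 (t : Fin 9 → R) (v : Fin 14 → R) :
    U0 t (U2 t v) 0 = U2 t (U0 t v) 0 := by
  simp only [U0_0, U0_1, U0_2, U0_3, U0_4, U0_5, U0_6, U0_7, U0_8, U0_9, U0_10, U0_11, U0_12, U0_13, U2_0, U2_1, U2_2, U2_3, U2_4, U2_5, U2_6, U2_7, U2_8, U2_9, U2_10, U2_11, U2_12, U2_13]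
  ring

theorem comm02_1 (t : Fin 9 → R) (v : Fin 14 → R) :
    U0 t (U2 t v) 1 = U2 t (U0 t v) 1 := by
  simp only [U0_0, U0_1, U0_2, U0_3, U0_4, U0_5, U0_6, U0_7, U0_8, U0_9, U0_10, U0_11, U0_12, U0_13, U2_0, U2_1, U2_2, U2_3, U2_4, U2_5, U2_6, U2_7, U2_8, U2_9, U2_10, U2_11, U2_12, U2_13]
  ring

theorem comm02_2 (t : Fin 9 → R) (v : Fin 14 → R) :
    U0 t (U2 t v) 2 = U2 t (U0 t v) 2 := by
  simp only [U0_0, U0_1, U0_2, U0_3, U0_4, U0_5, U0_6, U0_7, U0_8, U0_9, U0_10, U0_11, U0_12, U0_13, U2_0, U2_1, U2_2, U2_3, U2_4, U2_5, U2_6, U2_7, U2_8, U2_9, U2_10, U2_11, U2_12, U2_13]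
  ring

theorem comm02_3 (t : Fin 9 → R) (v : Fin 14 → R) :
    U0 t (U2 t v) 3 = U2 t (U0 t v) 3 := by
  simp only [U0_0, U0_1, U0_2, U0_3, U0_4, U0_5, U0_6, U0_7, U0_8, U0_9, U0_10, U0_11, U0_12, U0_13, U2_0, U2_1, U2_2, U2_3, U2_4, U2_5, U2_6, U2_7, U2_8, U2_9, U2_10, U2_11, U2_12, U2_13]
  ring

theorem comm02_4 (t : Fin 9 → R) (v : Fin 14 → R) :
    U0 t (U2 t v) 4 = U2 t (U0 t v) 4 := by
  simp only [U0_0, U0_1, U0_2, U0_3, U0_4, U0_5, U0_6, U0_7, U0_8, U0_9, U0_10, U0_11, U0_12, U0_13, U2_0, U2_1, U2_2, U2_3, U2_4, U2_5, U2_6, U2_7, U2_8, U2_9, U2_10, U2_11, U2_12, U2_13]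
  ring

theorem comm02_5 (t : Fin 9 → R) (v : Fin 14 → R) :
    U0 t (U2 t v) 5 = U2 t (U0 t v) 5 := by
  simp only [U0_0, U0_1, U0_2, U0_3, U0_4, U0_5, U0_6, U0_7, U0_8, U0_9, U0_10, U0_11, U0_12, U0_13, U2_0, U2_1, U2_2, U2_3, U2_4, U2_5, U2_6, U2_7, U2_8, U2_9, U2_10, U2_11, U2_12, U2_13]
  ring

theorem comm02_6 (t : Fin 9 → R) (v : Fin 14 → R) :
    U0 t (U2 t v) 6 = U2 t (U0 t v) 6 := by
  simp only [U0_0, U0_1, U0_2, U0_3, U0_4, U0_5, U0_6, U0_7, U0_8, U0_9, U0_10, U0_11, U0_12, U0_13, U2_0, U2_1, U2_2, U2_3, U2_4, U2_5, U2_6, U2_7, U2_8, U2_9, U2_10, U2_11, U2_12, U2_13]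
  ring

theorem comm02_7 (t : Fin 9 → R) (v : Fin 14 → R) :
    U0 t (U2 t v) 7 = U2 t (U0 t v) 7 := by
  simp only [U0_0, U0_1, U0_2, U0_3, U0_4, U0_5, U0_6, U0_7, U0_8, U0_9, U0_10, U0_11, U0_12, U0_13, U2_0, U2_1, U2_2, U2_3, U2_4, U2_5, U2_6, U2_7, U2_8, U2_9, U2_10, U2_11, U2_12, U2_13]
  ring

theorem comm02_8 (t : Fin 9 → R) (v : Fin 14 → R) :
    U0 t (U2 t v) 8 = U2 t (U0 t v) 8 := by
  simp only [U0_0, U0_1, U0_2, U0_3, U0_4, U0_5, U0_6, U0_7, U0_8, U0_9, U0_10, U0_11, U0_12, U0_13, U2_0, U2_1, U2_2, U2_3, U2_4, U2_5, U2_6, U2_7, U2_8, U2_9, U2_10, U2_11, U2_12, U2_13]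
  ring

theorem comm02_9 (t : Fin 9 → R) (v : Fin 14 → R) :
    U0 t (U2 t v) 9 = U2 t (U0 t v) 9 := by
  simp only [U0_0, U0_1, U0_2, U0_3, U0_4, U0_5, U0_6, U0_7, U0_8, U0_9, U0_10, U0_11, U0_12, U0_13, U2_0, U2_1, U2_2, U2_3, U2_4, U2_5, U2_6, U2_7, U2_8, U2_9, U2_10, U2_11, U2_12, U2_13]
  ring

theorem comm02_10 (t : Fin 9 → R) (v : Fin 14 → R) :
    U0 t (U2 t v) 10 = U2 t (U0 t v) 10 := by
  simp only [U0_0, U0_1, U0_2, U0_3, U0_4, U0_5, U0_6, U0_7, U0_8, U0_9, U0_10, U0_11, U0_12, U0_13, U2_0, U2_1, U2_2, U2_3, U2_4, U2_5, U2_6, U2_7, U2_8, U2_9, U2_10, U2_11, U2_12, U2_13]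
  ring

theorem comm02_11 (t : Fin 9 → R) (v : Fin 14 → R) :
    U0 t (U2 t v) 11 = U2 t (U0 t v) 11 := by
  simp only [U0_0, U0_1, U0_2, U0_3, U0_4, U0_5, U0_6, U0_7, U0_8, U0_9, U0_10, U0_11, U0_12, U0_13, U2_0, U2_1, U2_2, U2_3, U2_4, U2_5, U2_6, U2_7, U2_8, U2_9, U2_10, U2_11, U2_12, U2_13]
  ring

theorem comm02_12 (t : Fin 9 → R) (v : Fin 14 → R) :
    U0 t (U2 t v) 12 = U2 t (U0 t v) 12 := by
  simp only [U0_0, U0_1, U0_2, U0_3, U0_4, U0_5, U0_6, U0_7, U0_8, U0_9, U0_10, U0_11, U0_12, U0_13, U2_0, U2_1, U2_2, U2_3, U2_4, U2_5, U2_6, U2_7, U2_8, U2_9, U2_10, U2_11, U2_12, U2_13]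
  ring

theorem comm02_13 (t : Fin 9 → R) (v : Fin 14 → R) :
    U0 t (U2 t v) 13 = U2 t (U0 t v) 13 := by
  simp only [U0_0, U0_1, U0_2, U0_3, U0_4, U0_5, U0_6, U0_7, U0_8, U0_9, U0_10, U0_11, U0_12, U0_13, U2_0, U2_1, U2_2, U2_3, U2_4, U2_5, U2_6, U2_7, U2_8, U2_9, U2_10, U2_11, U2_12, U2_13]
  ring

theorem comm02 (t : Fin 9 → R) (v : Fin 14 → R) :
    U0 t (U2 t v) = U2 t (U0 t v) := by
  refine funext fun i => ?_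
  fin_cases i
  exacts [comm02_0 t v, comm02_1 t v, comm02_2 t v, comm02_3 t v, comm02_4 t v, comm02_5 t v, comm02_6 t v, comm02_7 t v, comm02_8 t v, comm02_9 t v, comm02_10 t v, comm02_11 t v, comm02_12 t v, comm02_13 t v]

theorem comm03_0 (t : Fin 9 → R) (v : Fin 14 → R) :
    U0 t (U3 t v) 0 = U3 t (U0 t v) 0 := by
  simp only [U0_0, U0_1, U0_2, U0_3, U0_4, U0_5, U0_6, U0_7, U0_8, U0_9, U0_10, U0_11, U0_12, U0_13, U3_0, U3_1, U3_2, U3_3, U3_4, U3_5, U3_6, U3_7, U3_8, U3_9, U3_10, U3_11, U3_12, U3_13]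
  ring

theorem comm03_1 (t : Fin 9 → R) (v : Fin 14 → R) :
    U0 t (U3 t v) 1 = U3 t (U0 t v) 1 := by
  simp only [U0_0, U0_1, U0_2, U0_3, U0_4, U0_5, U0_6, U0_7, U0_8, U0_9, U0_10, U0_11, U0_12, U0_13, U3_0, U3_1, U3_2, U3_3, U3_4, U3_5, U3_6, U3_7, U3_8, U3_9, U3_10, U3_11, U3_12, U3_13]
  ring

theorem comm03_2 (t : Fin 9 → R) (v : Fin 14 → R) :
    U0 t (U3 t v) 2 = U3 t (U0 t v) 2 := by
  simp only [U0_0, U0_1, U0_2, U0_3, U0_4, U0_5, U0_6, U0_7, U0_8, U0_9, U0_10, U0_11, U0_12, U0_13, U3_0, U3_1, U3_2, U3_3, U3_4, U3_5, U3_6, U3_7, U3_8, U3_9, U3_10, U3_11, U3_12, U3_13]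
  ring

theorem comm03_3 (t : Fin 9 → R) (v : Fin 14 → R) :
    U0 t (U3 t v) 3 = U3 t (U0 t v) 3 := by
  simp only [U0_0, U0_1, U0_2, U0_3, U0_4, U0_5, U0_6, U0_7, U0_8, U0_9, U0_10, U0_11, U0_12, U0_13, U3_0, U3_1, U3_2, U3_3, U3_4, U3_5, U3_6, U3_7, U3_8, U3_9, U3_10, U3_11, U3_12, U3_13]
  ring

theorem comm03_4 (t : Fin 9 → R) (v : Fin 14 → R) :
    U0 t (U3 t v) 4 = U3 t (U0 t v) 4 := by
  simp only [U0_0, U0_1, U0_2, U0_3, U0_4, U0_5, U0_6, U0_7, U0_8, U0_9, U0_10, U0_11, U0_12, U0_13, U3_0, U3_1, U3_2, U3_3, U3_4, U3_5, U3_6, U3_7, U3_8, U3_9, U3_10, U3_11, U3_12, U3_13]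
  ring

theorem comm03_5 (t : Fin 9 → R) (v : Fin 14 → R) :
    U0 t (U3 t v) 5 = U3 t (U0 t v) 5 := by
  simp only [U0_0, U0_1, U0_2, U0_3, U0_4, U0_5, U0_6, U0_7, U0_8, U0_9, U0_10, U0_11, U0_12, U0_13, U3_0, U3_1, U3_2, U3_3, U3_4, U3_5, U3_6, U3_7, U3_8, U3_9, U3_10, U3_11, U3_12, U3_13]
  ring

theorem comm03_6 (t : Fin 9 → R) (v : Fin 14 → R) :
    U0 t (U3 t v) 6 = U3 t (U0 t v) 6 := by
  simp only [U0_0, U0_1, U0_2, U0_3, U0_4, U0_5, U0_6, U0_7, U0_8, U0_9, U0_10, U0_11, U0_12, U0_13, U3_0, U3_1, U3_2, U3_3, U3_4, U3_5, U3_6, U3_7, U3_8, U3_9, U3_10, U3_11, U3_12, U3_13]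
  ring

theorem comm03_7 (t : Fin 9 → R) (v : Fin 14 → R) :
    U0 t (U3 t v) 7 = U3 t (U0 t v) 7 := by
  simp only [U0_0, U0_1, U0_2, U0_3, U0_4, U0_5, U0_6, U0_7, U0_8, U0_9, U0_10, U0_11, U0_12, U0_13, U3_0, U3_1, U3_2, U3_3, U3_4, U3_5, U3_6, U3_7, U3_8, U3_9, U3_10, U3_11, U3_12, U3_13]
  ring

theorem comm03_8 (t : Fin 9 → R) (v : Fin 14 → R) :
    U0 t (U3 t v) 8 = U3 t (U0 t v) 8 := by
  simp only [U0_0, U0_1, U0_2, U0_3, U0_4, U0_5, U0_6, U0_7, U0_8, U0_9, U0_10, U0_11, U0_12, U0_13, U3_0, U3_1, U3_2, U3_3, U3_4, U3_5, U3_6, U3_7, U3_8, U3_9, U3_10, U3_11, U3_12, U3_13]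
  ring

theorem comm03_9 (t : Fin 9 → R) (v : Fin 14 → R) :
    U0 t (U3 t v) 9 = U3 t (U0 t v) 9 := by
  simp only [U0_0, U0_1, U0_2, U0_3, U0_4, U0_5, U0_6, U0_7, U0_8, U0_9, U0_10, U0_11, U0_12, U0_13, U3_0, U3_1, U3_2, U3_3, U3_4, U3_5, U3_6, U3_7, U3_8, U3_9, U3_10, U3_11, U3_12, U3_13]
  ring

theorem comm03_10 (t : Fin 9 → R) (v : Fin 14 → R) :
    U0 t (U3 t v) 10 = U3 t (U0 t v) 10 := by
  simp only [U0_0, U0_1, U0_2, U0_3, U0_4, U0_5, U0_6, U0_7, U0_8, U0_9, U0_10, U0_11, U0_12, U0_13, U3_0, U3_1, U3_2, U3_3, U3_4, U3_5, U3_6, U3_7, U3_8, U3_9, U3_10, U3_11, U3_12, U3_13]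
  ring

theorem comm03_11 (t : Fin 9 → R) (v : Fin 14 → R) :
    U0 t (U3 t v) 11 = U3 t (U0 t v) 11 := by
  simp only [U0_0, U0_1, U0_2, U0_3, U0_4, U0_5, U0_6, U0_7, U0_8, U0_9, U0_10, U0_11, U0_12, U0_13, U3_0, U3_1, U3_2, U3_3, U3_4, U3_5, U3_6, U3_7, U3_8, U3_9, U3_10, U3_11, U3_12, U3_13]
  ring

theorem comm03_12 (t : Fin 9 → R) (v : Fin 14 → R) :
    U0 t (U3 t v) 12 = U3 t (U0 t v) 12 := by
  simp only [U0_0, U0_1, U0_2, U0_3, U0_4, U0_5, U0_6, U0_7, U0_8, U0_9, U0_10, U0_11, U0_12, U0_13, U3_0, U3_1, U3_2, U3_3, U3_4, U3_5, U3_6, U3_7, U3_8, U3_9, U3_10, U3_11, U3_12, U3_13]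
  ring

theorem comm03_13 (t : Fin 9 → R) (v : Fin 14 → R) :
    U0 t (U3 t v) 13 = U3 t (U0 t v) 13 := by
  simp only [U0_0, U0_1, U0_2, U0_3, U0_4, U0_5, U0_6, U0_7, U0_8, U0_9, U0_10, U0_11, U0_12, U0_13, U3_0, U3_1, U3_2, U3_3, U3_4, U3_5, U3_6, U3_7, U3_8, U3_9, U3_10, U3_11, U3_12, U3_13]
  ring

theorem comm03 (t : Fin 9 → R) (v : Fin 14 → R) :
    U0 t (U3 t v) = U3 t (U0 t v) := by
  refine funext fun i => ?_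
  fin_cases i
  exacts [comm03_0 t v, comm03_1 t v, comm03_2 t v, comm03_3 t v, comm03_4 t v, comm03_5 t v, comm03_6 t v, comm03_7 t v, comm03_8 t v, comm03_9 t v, comm03_10 t v, comm03_11 t v, comm03_12 t v, comm03_13 t v]

theorem comm04_0 (t : Fin 9 → R) (v : Fin 14 → R) :
    U0 t (U4 t v) 0 = U4 t (U0 t v) 0 := by
  simp only [U0_0, U0_1, U0_2, U0_3, U0_4, U0_5, U0_6, U0_7, U0_8, U0_9, U0_10, U0_11, U0_12, U0_13, U4_0, U4_1, U4_2, U4_3, U4_4, U4_5, U4_6, U4_7, U4_8, U4_9, U4_10, U4_11, U4_12, U4_13]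
  ring

theorem comm04_1 (t : Fin 9 → R) (v : Fin 14 → R) :
    U0 t (U4 t v) 1 = U4 t (U0 t v) 1 := by
  simp only [U0_0, U0_1, U0_2, U0_3, U0_4, U0_5, U0_6, U0_7, U0_8, U0_9, U0_10, U0_11, U0_12, U0_13, U4_0, U4_1, U4_2, U4_3, U4_4, U4_5, U4_6, U4_7, U4_8, U4_9, U4_10, U4_11, U4_12, U4_13]
  ring

theorem comm04_2 (t : Fin 9 → R) (v : Fin 14 → R) :
    U0 t (U4 t v) 2 = U4 t (U0 t v) 2 := by
  simp only [U0_0, U0_1, U0_2, U0_3, U0_4, U0_5, U0_6, U0_7, U0_8, U0_9, U0_10, U0_11, U0_12, U0_13, U4_0, U4_1, U4_2, U4_3, U4_4, U4_5, U4_6, U4_7, U4_8, U4_9, U4_10, U4_11, U4_12, U4_13]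
  ring

theorem comm04_3 (t : Fin 9 → R) (v : Fin 14 → R) :
    U0 t (U4 t v) 3 = U4 t (U0 t v) 3 := by
  simp only [U0_0, U0_1, U0_2, U0_3, U0_4, U0_5, U0_6, U0_7, U0_8, U0_9, U0_10, U0_11, U0_12, U0_13, U4_0, U4_1, U4_2, U4_3, U4_4, U4_5, U4_6, U4_7, U4_8, U4_9, U4_10, U4_11, U4_12, U4_13]
  ring

theorem comm04_4 (t : Fin 9 → R) (v : Fin 14 → R) :
    U0 t (U4 t v) 4 = U4 t (U0 t v) 4 := by
  simp only [U0_0, U0_1, U0_2, U0_3, U0_4, U0_5, U0_6, U0_7, U0_8, U0_9, U0_10, U0_11, U0_12, U0_13, U4_0, U4_1, U4_2, U4_3, U4_4, U4_5, U4_6, U4_7, U4_8, U4_9, U4_10, U4_11, U4_12, U4_13]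
  ring

theorem comm04_5 (t : Fin 9 → R) (v : Fin 14 → R) :
    U0 t (U4 t v) 5 = U4 t (U0 t v) 5 := by
  simp only [U0_0, U0_1, U0_2, U0_3, U0_4, U0_5, U0_6, U0_7, U0_8, U0_9, U0_10, U0_11, U0_12, U0_13, U4_0, U4_1, U4_2, U4_3, U4_4, U4_5, U4_6, U4_7, U4_8, U4_9, U4_10, U4_11, U4_12, U4_13]
  ring

theorem comm04_6 (t : Fin 9 → R) (v : Fin 14 → R) :
    U0 t (U4 t v) 6 = U4 t (U0 t v) 6 := by
  simp only [U0_0, U0_1, U0_2, U0_3, U0_4, U0_5, U0_6, U0_7, U0_8, U0_9, U0_10, U0_11, U0_12, U0_13, U4_0, U4_1, U4_2, U4_3, U4_4, U4_5, U4_6, U4_7, U4_8, U4_9, U4_10, U4_11, U4_12, U4_13]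
  ring

theorem comm04_7 (t : Fin 9 → R) (v : Fin 14 → R) :
    U0 t (U4 t v) 7 = U4 t (U0 t v) 7 := by
  simp only [U0_0, U0_1, U0_2, U0_3, U0_4, U0_5, U0_6, U0_7, U0_8, U0_9, U0_10, U0_11, U0_12, U0_13, U4_0, U4_1, U4_2, U4_3, U4_4, U4_5, U4_6, U4_7, U4_8, U4_9, U4_10, U4_11, U4_12, U4_13]
  ring

theorem comm04_8 (t : Fin 9 → R) (v : Fin 14 → R) :
    U0 t (U4 t v) 8 = U4 t (U0 t v) 8 := by
  simp only [U0_0, U0_1, U0_2, U0_3, U0_4, U0_5, U0_6, U0_7, U0_8, U0_9, U0_10, U0_11, U0_12, U0_13, U4_0, U4_1, U4_2, U4_3, U4_4, U4_5, U4_6, U4_7, U4_8, U4_9, U4_10, U4_11, U4_12, U4_13]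
  ring

theorem comm04_9 (t : Fin 9 → R) (v : Fin 14 → R) :
    U0 t (U4 t v) 9 = U4 t (U0 t v) 9 := by
  simp only [U0_0, U0_1, U0_2, U0_3, U0_4, U0_5, U0_6, U0_7, U0_8, U0_9, U0_10, U0_11, U0_12, U0_13, U4_0, U4_1, U4_2, U4_3, U4_4, U4_5, U4_6, U4_7, U4_8, U4_9, U4_10, U4_11, U4_12, U4_13]
  ring

theorem comm04_10 (t : Fin 9 → R) (v : Fin 14 → R) :
    U0 t (U4 t v) 10 = U4 t (U0 t v) 10 := by
  simp only [U0_0, U0_1, U0_2, U0_3, U0_4, U0_5, U0_6, U0_7, U0_8, U0_9, U0_10, U0_11, U0_12, U0_13, U4_0, U4_1, U4_2, U4_3, U4_4, U4_5, U4_6, U4_7, U4_8, U4_9, U4_10, U4_11, U4_12, U4_13]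
  ring

theorem comm04_11 (t : Fin 9 → R) (v : Fin 14 → R) :
    U0 t (U4 t v) 11 = U4 t (U0 t v) 11 := by
  simp only [U0_0, U0_1, U0_2, U0_3, U0_4, U0_5, U0_6, U0_7, U0_8, U0_9, U0_10, U0_11, U0_12, U0_13, U4_0, U4_1, U4_2, U4_3, U4_4, U4_5, U4_6, U4_7, U4_8, U4_9, U4_10, U4_11, U4_12, U4_13]
  ring

theorem comm04_12 (t : Fin 9 → R) (v : Fin 14 → R) :
    U0 t (U4 t v) 12 = U4 t (U0 t v) 12 := by
  simp only [U0_0, U0_1, U0_2, U0_3, U0_4, U0_5, U0_6, U0_7, U0_8, U0_9, U0_10, U0_11, U0_12, U0_13, U4_0, U4_1, U4_2, U4_3, U4_4, U4_5, U4_6, U4_7, U4_8, U4_9, U4_10, U4_11, U4_12, U4_13]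
  ring

theorem comm04_13 (t : Fin 9 → R) (v : Fin 14 → R) :
    U0 t (U4 t v) 13 = U4 t (U0 t v) 13 := by
  simp only [U0_0, U0_1, U0_2, U0_3, U0_4, U0_5, U0_6, U0_7, U0_8, U0_9, U0_10, U0_11, U0_12, U0_13, U4_0, U4_1, U4_2, U4_3, U4_4, U4_5, U4_6, U4_7, U4_8, U4_9, U4_10, U4_11, U4_12, U4_13]
  ring

theorem comm04 (t : Fin 9 → R) (v : Fin 14 → R) :
    U0 t (U4 t v) = U4 t (U0 t v) := by
  refine funext fun i => ?_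
  fin_cases i
  exacts [comm04_0 t v, comm04_1 t v, comm04_2 t v, comm04_3 t v, comm04_4 t v, comm04_5 t v, comm04_6 t v, comm04_7 t v, comm04_8 t v, comm04_9 t v, comm04_10 t v, comm04_11 t v, comm04_12 t v, comm04_13 t v]

theorem comm05_0 (t : Fin 9 → R) (v : Fin 14 → R) :
    U0 t (U5 t v) 0 = U5 t (U0 t v) 0 := by
  simp only [U0_0, U0_1, U0_2, U0_3, U0_4, U0_5, U0_6, U0_7, U0_8, U0_9, U0_10, U0_11, U0_12, U0_13, U5_0, U5_1, U5_2, U5_3, U5_4, U5_5, U5_6, U5_7, U5_8, U5_9, U5_10, U5_11, U5_12, U5_13]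
  ring

theorem comm05_1 (t : Fin 9 → R) (v : Fin 14 → R) :
    U0 t (U5 t v) 1 = U5 t (U0 t v) 1 := by
  simp only [U0_0, U0_1, U0_2, U0_3, U0_4, U0_5, U0_6, U0_7, U0_8, U0_9, U0_10, U0_11, U0_12, U0_13, U5_0, U5_1, U5_2, U5_3, U5_4, U5_5, U5_6, U5_7, U5_8, U5_9, U5_10, U5_11, U5_12, U5_13]
  ring

theorem comm05_2 (t : Fin 9 → R) (v : Fin 14 → R) :
    U0 t (U5 t v) 2 = U5 t (U0 t v) 2 := by
  simp only [U0_0, U0_1, U0_2, U0_3, U0_4, U0_5, U0_6, U0_7, U0_8, U0_9, U0_10, U0_11, U0_12, U0_13, U5_0, U5_1, U5_2, U5_3, U5_4, U5_5, U5_6, U5_7, U5_8, U5_9, U5_10, U5_11, U5_12, U5_13]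
  ring

theorem comm05_3 (t : Fin 9 → R) (v : Fin 14 → R) :
    U0 t (U5 t v) 3 = U5 t (U0 t v) 3 := by
  simp only [U0_0, U0_1, U0_2, U0_3, U0_4, U0_5, U0_6, U0_7, U0_8, U0_9, U0_10, U0_11, U0_12, U0_13, U5_0, U5_1, U5_2, U5_3, U5_4, U5_5, U5_6, U5_7, U5_8, U5_9, U5_10, U5_11, U5_12, U5_13]
  ring

theorem comm05_4 (t : Fin 9 → R) (v : Fin 14 → R) :
    U0 t (U5 t v) 4 = U5 t (U0 t v) 4 := by
  simp only [U0_0, U0_1, U0_2, U0_3, U0_4, U0_5, U0_6, U0_7, U0_8, U0_9, U0_10, U0_11, U0_12, U0_13, U5_0, U5_1, U5_2, U5_3, U5_4, U5_5, U5_6, U5_7, U5_8, U5_9, U5_10, U5_11, U5_12, U5_13]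
  ring

theorem comm05_5 (t : Fin 9 → R) (v : Fin 14 → R) :
    U0 t (U5 t v) 5 = U5 t (U0 t v) 5 := by
  simp only [U0_0, U0_1, U0_2, U0_3, U0_4, U0_5, U0_6, U0_7, U0_8, U0_9, U0_10, U0_11, U0_12, U0_13, U5_0, U5_1, U5_2, U5_3, U5_4, U5_5, U5_6, U5_7, U5_8, U5_9, U5_10, U5_11, U5_12, U5_13]
  ring

theorem comm05_6 (t : Fin 9 → R) (v : Fin 14 → R) :
    U0 t (U5 t v) 6 = U5 t (U0 t v) 6 := by
  simp only [U0_0, U0_1, U0_2, U0_3, U0_4, U0_5, U0_6, U0_7, U0_8, U0_9, U0_10, U0_11, U0_12, U0_13, U5_0, U5_1, U5_2, U5_3, U5_4, U5_5, U5_6, U5_7, U5_8, U5_9, U5_10, U5_11, U5_12, U5_13]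
  ring

theorem comm05_7 (t : Fin 9 → R) (v : Fin 14 → R) :
    U0 t (U5 t v) 7 = U5 t (U0 t v) 7 := by
  simp only [U0_0, U0_1, U0_2, U0_3, U0_4, U0_5, U0_6, U0_7, U0_8, U0_9, U0_10, U0_11, U0_12, U0_13, U5_0, U5_1, U5_2, U5_3, U5_4, U5_5, U5_6, U5_7, U5_8, U5_9, U5_10, U5_11, U5_12, U5_13]
  ring

theorem comm05_8 (t : Fin 9 → R) (v : Fin 14 → R) :
    U0 t (U5 t v) 8 = U5 t (U0 t v) 8 := by
  simp only [U0_0, U0_1, U0_2, U0_3, U0_4, U0_5, U0_6, U0_7, U0_8, U0_9, U0_10, U0_11, U0_12, U0_13, U5_0, U5_1, U5_2, U5_3, U5_4, U5_5, U5_6, U5_7, U5_8, U5_9, U5_10, U5_11, U5_12, U5_13]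
  ring

theorem comm05_9 (t : Fin 9 → R) (v : Fin 14 → R) :
    U0 t (U5 t v) 9 = U5 t (U0 t v) 9 := by
  simp only [U0_0, U0_1, U0_2, U0_3, U0_4, U0_5, U0_6, U0_7, U0_8, U0_9, U0_10, U0_11, U0_12, U0_13, U5_0, U5_1, U5_2, U5_3, U5_4, U5_5, U5_6, U5_7, U5_8, U5_9, U5_10, U5_11, U5_12, U5_13]
  ring

theorem comm05_10 (t : Fin 9 → R) (v : Fin 14 → R) :
    U0 t (U5 t v) 10 = U5 t (U0 t v) 10 := by
  simp only [U0_0, U0_1, U0_2, U0_3, U0_4, U0_5, U0_6, U0_7, U0_8, U0_9, U0_10, U0_11, U0_12, U0_13, U5_0, U5_1, U5_2, U5_3, U5_4, U5_5, U5_6, U5_7, U5_8, U5_9, U5_10, U5_11, U5_12, U5_13]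
  ring

theorem comm05_11 (t : Fin 9 → R) (v : Fin 14 → R) :
    U0 t (U5 t v) 11 = U5 t (U0 t v) 11 := by
  simp only [U0_0, U0_1, U0_2, U0_3, U0_4, U0_5, U0_6, U0_7, U0_8, U0_9, U0_10, U0_11, U0_12, U0_13, U5_0, U5_1, U5_2, U5_3, U5_4, U5_5, U5_6, U5_7, U5_8, U5_9, U5_10, U5_11, U5_12, U5_13]
  ring

theorem comm05_12 (t : Fin 9 → R) (v : Fin 14 → R) :
    U0 t (U5 t v) 12 = U5 t (U0 t v) 12 := by
  simp only [U0_0, U0_1, U0_2, U0_3, U0_4, U0_5, U0_6, U0_7, U0_8, U0_9, U0_10, U0_11, U0_12, U0_13, U5_0, U5_1, U5_2, U5_3, U5_4, U5_5, U5_6, U5_7, U5_8, U5_9, U5_10, U5_11, U5_12, U5_13]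
  ring

theorem comm05_13 (t : Fin 9 → R) (v : Fin 14 → R) :
    U0 t (U5 t v) 13 = U5 t (U0 t v) 13 := by
  simp only [U0_0, U0_1, U0_2, U0_3, U0_4, U0_5, U0_6, U0_7, U0_8, U0_9, U0_10, U0_11, U0_12, U0_13, U5_0, U5_1, U5_2, U5_3, U5_4, U5_5, U5_6, U5_7, U5_8, U5_9, U5_10, U5_11, U5_12, U5_13]
  ring

theorem comm05 (t : Fin 9 → R) (v : Fin 14 → R) :
    U0 t (U5 t v) = U5 t (U0 t v) := by
  refine funext fun i => ?_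
  fin_cases i
  exacts [comm05_0 t v, comm05_1 t v, comm05_2 t v, comm05_3 t v, comm05_4 t v, comm05_5 t v, comm05_6 t v, comm05_7 t v, comm05_8 t v, comm05_9 t v, comm05_10 t v, comm05_11 t v, comm05_12 t v, comm05_13 t v]

end Pool.Agent.J6H65.Hilb4
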