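import Pool.Agent.J6H65.Hilb4.Ops

set_option autoImplicit false
set_option linter.unusedSimpArgs false
set_option linter.unusedVariables false

namespace Pool.Agent.J6H65.Hilb4

variable {R : Type*} [CommRing R]

theorem comm12_0 (t : Fin 9 → R) (v : Fin 14 → R) :
    U1 t (U2 t v) 0 = U2 t (U1 t v) 0 := by
  simp only [U1_0, U1_1, U1_2, U1_3, U1_4, U1_5, U1_6, U1_7, U1_8, U1_9, U1_10, U1_11, U1_12, U1_13, U2_0, U2_1, U2_2, U2_3, U2_4, U2_5, U2_6, U2_7, U2_8, U2_9, U2_10, U2_11, U2_12, U2_13]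
  ring

theorem comm12_1 (t : Fin 9 → R) (v : Fin 14 → R) :
    U1 t (U2 t v) 1 = U2 t (U1 t v) 1 := by
  simp only [U1_0, U1_1, U1_2, U1_3, U1_4, U1_5, U1_6, U1_7, U1_8, U1_9, U1_10, U1_11, U1_12, U1_13, U2_0, U2_1, U2_2, U2_3, U2_4, U2_5, U2_6, U2_7, U2_8, U2_9, U2_10, U2_11, U2_12, U2_13]
  ring

theorem comm12_2 (t : Fin 9 → R) (v : Fin 14 → R) :
    U1 t (U2 t v) 2 = U2 t (U1 t v) 2 := by
  simp only [U1_0, U1_1, U1_2, U1_3, U1_4, U1_5, U1_6, U1_7, U1_8, U1_9, U1_10, U1_11, U1_12, U1_13, U2_0, U2_1, U2_2, U2_3, U2_4, U2_5, U2_6, U2_7, U2_8, U2_9, U2_10, U2_11, U2_12, U2_13]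
  ring

theorem comm12_3 (t : Fin 9 → R) (v : Fin 14 → R) :
    U1 t (U2 t v) 3 = U2 t (U1 t v) 3 := by
  simp only [U1_0, U1_1, U1_2, U1_3, U1_4, U1_5, U1_6, U1_7, U1_8, U1_9, U1_10, U1_11, U1_12, U1_13, U2_0, U2_1, U2_2, U2_3, U2_4, U2_5, U2_6, U2_7, U2_8, U2_9, U2_10, U2_11, U2_12, U2_13]
  ring

theorem comm12_4 (t : Fin 9 → R) (v : Fin 14 → R) :
    U1 t (U2 t v) 4 = U2 t (U1 t v) 4 := by
  simp only [U1_0, U1_1, U1_2, U1_3, U1_4, U1_5, U1_6, U1_7, U1_8, U1_9, U1_10, U1_11, U1_12, U1_13, U2_0, U2_1, U2_2, U2_3, U2_4, U2_5, U2_6, U2_7, U2_8, U2_9, U2_10, U2_11, U2_12, U2_13]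
  ring

theorem comm12_5 (t : Fin 9 → R) (v : Fin 14 → R) :
    U1 t (U2 t v) 5 = U2 t (U1 t v) 5 := by
  simp only [U1_0, U1_1, U1_2, U1_3, U1_4, U1_5, U1_6, U1_7, U1_8, U1_9, U1_10, U1_11, U1_12, U1_13, U2_0, U2_1, U2_2, U2_3, U2_4, U2_5, U2_6, U2_7, U2_8, U2_9, U2_10, U2_11, U2_12, U2_13]
  ring

theorem comm12_6 (t : Fin 9 → R) (v : Fin 14 → R) :
    U1 t (U2 t v) 6 = U2 t (U1 t v) 6 := by
  simp only [U1_0, U1_1, U1_2, U1_3, U1_4, U1_5, U1_6, U1_7, U1_8, U1_9, U1_10, U1_11, U1_12, U1_13, U2_0, U2_1, U2_2, U2_3, U2_4, U2_5, U2_6, U2_7, U2_8, U2_9, U2_10, U2_11, U2_12, U2_13]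
  ring

theorem comm12_7 (t : Fin 9 → R) (v : Fin 14 → R) :
    U1 t (U2 t v) 7 = U2 t (U1 t v) 7 := by
  simp only [U1_0, U1_1, U1_2, U1_3, U1_4, U1_5, U1_6, U1_7, U1_8, U1_9, U1_10, U1_11, U1_12, U1_13, U2_0, U2_1, U2_2, U2_3, U2_4, U2_5, U2_6, U2_7, U2_8, U2_9, U2_10, U2_11, U2_12, U2_13]
  ring

theorem comm12_8 (t : Fin 9 → R) (v : Fin 14 → R) :
    U1 t (U2 t v) 8 = U2 t (U1 t v) 8 := by
  simp only [U1_0, U1_1, U1_2, U1_3, U1_4, U1_5, U1_6, U1_7, U1_8, U1_9, U1_10, U1_11, U1_12, U1_13, U2_0, U2_1, U2_2, U2_3, U2_4, U2_5, U2_6, U2_7, U2_8, U2_9, U2_10, U2_11, U2_12, U2_13]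
  ring

theorem comm12_9 (t : Fin 9 → R) (v : Fin 14 → R) :
    U1 t (U2 t v) 9 = U2 t (U1 t v) 9 := by
  simp only [U1_0, U1_1, U1_2, U1_3, U1_4, U1_5, U1_6, U1_7, U1_8, U1_9, U1_10, U1_11, U1_12, U1_13, U2_0, U2_1, U2_2, U2_3, U2_4, U2_5, U2_6, U2_7, U2_8, U2_9, U2_10, U2_11, U2_12, U2_13]
  ring

theorem comm12_10 (t : Fin 9 → R) (v : Fin 14 → R) :
    U1 t (U2 t v) 10 = U2 t (U1 t v) 10 := by
  simp only [U1_0, U1_1, U1_2, U1_3, U1_4, U1_5, U1_6, U1_7, U1_8, U1_9, U1_10, U1_11, U1_12, U1_13, U2_0, U2_1, U2_2, U2_3, U2_4, U2_5, U2_6, U2_7, U2_8, U2_9, U2_10, U2_11, U2_12, U2_13]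
  ring

theorem comm12_11 (t : Fin 9 → R) (v : Fin 14 → R) :
    U1 t (U2 t v) 11 = U2 t (U1 t v) 11 := by
  simp only [U1_0, U1_1, U1_2, U1_3, U1_4, U1_5, U1_6, U1_7, U1_8, U1_9, U1_10, U1_11, U1_12, U1_13, U2_0, U2_1, U2_2, U2_3, U2_4, U2_5, U2_6, U2_7, U2_8, U2_9, U2_10, U2_11, U2_12, U2_13]
  ring

theorem comm12_12 (t : Fin 9 → R) (v : Fin 14 → R) :
    U1 t (U2 t v) 12 = U2 t (U1 t v) 12 := by
  simp only [U1_0, U1_1, U1_2, U1_3, U1_4, U1_5, U1_6, U1_7, U1_8, U1_9, U1_10, U1_11, U1_12, U1_13, U2_0, U2_1, U2_2, U2_3, U2_4, U2_5, U2_6, U2_7, U2_8, U2_9, U2_10, U2_11, U2_12, U2_13]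
  ring

theorem comm12_13 (t : Fin 9 → R) (v : Fin 14 → R) :
    U1 t (U2 t v) 13 = U2 t (U1 t v) 13 := by
  simp only [U1_0, U1_1, U1_2, U1_3, U1_4, U1_5, U1_6, U1_7, U1_8, U1_9, U1_10, U1_11, U1_12, U1_13, U2_0, U2_1, U2_2, U2_3, U2_4, U2_5, U2_6, U2_7, U2_8, U2_9, U2_10, U2_11, U2_12, U2_13]
  ring

theorem comm12 (t : Fin 9 → R) (v : Fin 14 → R) :
    U1 t (U2 t v) = U2 t (U1 t v) := by
  refine funext fun i => ?_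
  fin_cases i
  exacts [comm12_0 t v, comm12_1 t v, comm12_2 t v, comm12_3 t v, comm12_4 t v, comm12_5 t v, comm12_6 t v, comm12_7 t v, comm12_8 t v, comm12_9 t v, comm12_10 t v, comm12_11 t v, comm12_12 t v, comm12_13 t v]

theorem comm13_0 (t : Fin 9 → R) (v : Fin 14 → R) :
    U1 t (U3 t v) 0 = U3 t (U1 t v) 0 := by
  simp only [U1_0, U1_1, U1_2, U1_3, U1_4, U1_5, U1_6, U1_7, U1_8, U1_9, U1_10, U1_11, U1_12, U1_13, U3_0, U3_1, U3_2, U3_3, U3_4, U3_5, U3_6, U3_7, U3_8, U3_9, U3_10, U3_11, U3_12, U3_13]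
  ring

theorem comm13_1 (t : Fin 9 → R) (v : Fin 14 → R) :
    U1 t (U3 t v) 1 = U3 t (U1 t v) 1 := by
  simp only [U1_0, U1_1, U1_2, U1_3, U1_4, U1_5, U1_6, U1_7, U1_8, U1_9, U1_10, U1_11, U1_12, U1_13, U3_0, U3_1, U3_2, U3_3, U3_4, U3_5, U3_6, U3_7, U3_8, U3_9, U3_10, U3_11, U3_12, U3_13]
  ring

theorem comm13_2 (t : Fin 9 → R) (v : Fin 14 → R) :
    U1 t (U3 t v) 2 = U3 t (U1 t v) 2 := by
  simp only [U1_0, U1_1, U1_2, U1_3, U1_4, U1_5, U1_6, U1_7, U1_8, U1_9, U1_10, U1_11, U1_12, U1_13, U3_0, U3_1, U3_2, U3_3, U3_4, U3_5, U3_6, U3_7, U3_8, U3_9, U3_10, U3_11, U3_12, U3_13]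
  ring

theorem comm13_3 (t : Fin 9 → R) (v : Fin 14 → R) :
    U1 t (U3 t v) 3 = U3 t (U1 t v) 3 := by
  simp only [U1_0, U1_1, U1_2, U1_3, U1_4, U1_5, U1_6, U1_7, U1_8, U1_9, U1_10, U1_11, U1_12, U1_13, U3_0, U3_1, U3_2, U3_3, U3_4, U3_5, U3_6, U3_7, U3_8, U3_9, U3_10, U3_11, U3_12, U3_13]
  ring

theorem comm13_4 (t : Fin 9 → R) (v : Fin 14 → R) :
    U1 t (U3 t v) 4 = U3 t (U1 t v) 4 := by
  simp only [U1_0, U1_1, U1_2, U1_3, U1_4, U1_5, U1_6, U1_7, U1_8, U1_9, U1_10, U1_11, U1_12, U1_13, U3_0, U3_1, U3_2, U3_3, U3_4, U3_5, U3_6, U3_7, U3_8, U3_9, U3_10, U3_11, U3_12, U3_13]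
  ring

theorem comm13_5 (t : Fin 9 → R) (v : Fin 14 → R) :
    U1 t (U3 t v) 5 = U3 t (U1 t v) 5 := by
  simp only [U1_0, U1_1, U1_2, U1_3, U1_4, U1_5, U1_6, U1_7, U1_8, U1_9, U1_10, U1_11, U1_12, U1_13, U3_0, U3_1, U3_2, U3_3, U3_4, U3_5, U3_6, U3_7, U3_8, U3_9, U3_10, U3_11, U3_12, U3_13]
  ring

theorem comm13_6 (t : Fin 9 → R) (v : Fin 14 → R) :
    U1 t (U3 t v) 6 = U3 t (U1 t v) 6 := by
  simp only [U1_0, U1_1, U1_2, U1_3, U1_4, U1_5, U1_6, U1_7, U1_8, U1_9, U1_10, U1_11, U1_12, U1_13, U3_0, U3_1, U3_2, U3_3, U3_4, U3_5, U3_6, U3_7, U3_8, U3_9, U3_10, U3_11, U3_12, U3_13]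
  ring

theorem comm13_7 (t : Fin 9 → R) (v : Fin 14 → R) :
    U1 t (U3 t v) 7 = U3 t (U1 t v) 7 := by
  simp only [U1_0, U1_1, U1_2, U1_3, U1_4, U1_5, U1_6, U1_7, U1_8, U1_9, U1_10, U1_11, U1_12, U1_13, U3_0, U3_1, U3_2, U3_3, U3_4, U3_5, U3_6, U3_7, U3_8, U3_9, U3_10, U3_11, U3_12, U3_13]
  ring

theorem comm13_8 (t : Fin 9 → R) (v : Fin 14 → R) :
    U1 t (U3 t v) 8 = U3 t (U1 t v) 8 := by
  simp only [U1_0, U1_1, U1_2, U1_3, U1_4, U1_5, U1_6, U1_7, U1_8, U1_9, U1_10, U1_11, U1_12, U1_13, U3_0, U3_1, U3_2, U3_3, U3_4, U3_5, U3_6, U3_7, U3_8, U3_9, U3_10, U3_11, U3_12, U3_13]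
  ring

theorem comm13_9 (t : Fin 9 → R) (v : Fin 14 → R) :
    U1 t (U3 t v) 9 = U3 t (U1 t v) 9 := by
  simp only [U1_0, U1_1, U1_2, U1_3, U1_4, U1_5, U1_6, U1_7, U1_8, U1_9, U1_10, U1_11, U1_12, U1_13, U3_0, U3_1, U3_2, U3_3, U3_4, U3_5, U3_6, U3_7, U3_8, U3_9, U3_10, U3_11, U3_12, U3_13]
  ring

theorem comm13_10 (t : Fin 9 → R) (v : Fin 14 → R) :
    U1 t (U3 t v) 10 = U3 t (U1 t v) 10 := by
  simp only [U1_0, U1_1, U1_2, U1_3, U1_4, U1_5, U1_6, U1_7, U1_8, U1_9, U1_10, U1_11, U1_12, U1_13, U3_0, U3_1, U3_2, U3_3, U3_4, U3_5, U3_6, U3_7, U3_8, U3_9, U3_10, U3_11, U3_12, U3_13]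
  ring

theorem comm13_11 (t : Fin 9 → R) (v : Fin 14 → R) :
    U1 t (U3 t v) 11 = U3 t (U1 t v) 11 := by
  simp only [U1_0, U1_1, U1_2, U1_3, U1_4, U1_5, U1_6, U1_7, U1_8, U1_9, U1_10, U1_11, U1_12, U1_13, U3_0, U3_1, U3_2, U3_3, U3_4, U3_5, U3_6, U3_7, U3_8, U3_9, U3_10, U3_11, U3_12, U3_13]
  ring

theorem comm13_12 (t : Fin 9 → R) (v : Fin 14 → R) :
    U1 t (U3 t v) 12 = U3 t (U1 t v) 12 := by
  simp only [U1_0, U1_1, U1_2, U1_3, U1_4, U1_5, U1_6, U1_7, U1_8, U1_9, U1_10, U1_11, U1_12, U1_13, U3_0, U3_1, U3_2, U3_3, U3_4, U3_5, U3_6, U3_7, U3_8, U3_9, U3_10, U3_11, U3_12, U3_13]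
  ring

theorem comm13_13 (t : Fin 9 → R) (v : Fin 14 → R) :
    U1 t (U3 t v) 13 = U3 t (U1 t v) 13 := by
  simp only [U1_0, U1_1, U1_2, U1_3, U1_4, U1_5, U1_6, U1_7, U1_8, U1_9, U1_10, U1_11, U1_12, U1_13, U3_0, U3_1, U3_2, U3_3, U3_4, U3_5, U3_6, U3_7, U3_8, U3_9, U3_10, U3_11, U3_12, U3_13]
  ring

theorem comm13 (t : Fin 9 → R) (v : Fin 14 → R) :
    U1 t (U3 t v) = U3 t (U1 t v) := by
  refine funext fun i => ?_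
  fin_cases i
  exacts [comm13_0 t v, comm13_1 t v, comm13_2 t v, comm13_3 t v, comm13_4 t v, comm13_5 t v, comm13_6 t v, comm13_7 t v, comm13_8 t v, comm13_9 t v, comm13_10 t v, comm13_11 t v, comm13_12 t v, comm13_13 t v]

theorem comm14_0 (t : Fin 9 → R) (v : Fin 14 → R) :
    U1 t (U4 t v) 0 = U4 t (U1 t v) 0 := by
  simp only [U1_0, U1_1, U1_2, U1_3, U1_4, U1_5, U1_6, U1_7, U1_8, U1_9, U1_10, U1_11, U1_12, U1_13, U4_0, U4_1, U4_2, U4_3, U4_4, U4_5, U4_6, U4_7, U4_8, U4_9, U4_10, U4_11, U4_12, U4_13]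
  ring

theorem comm14_1 (t : Fin 9 → R) (v : Fin 14 → R) :
    U1 t (U4 t v) 1 = U4 t (U1 t v) 1 := by
  simp only [U1_0, U1_1, U1_2, U1_3, U1_4, U1_5, U1_6, U1_7, U1_8, U1_9, U1_10, U1_11, U1_12, U1_13, U4_0, U4_1, U4_2, U4_3, U4_4, U4_5, U4_6, U4_7, U4_8, U4_9, U4_10, U4_11, U4_12, U4_13]
  ring

theorem comm14_2 (t : Fin 9 → R) (v : Fin 14 → R) :
    U1 t (U4 t v) 2 = U4 t (U1 t v) 2 := by
  simp only [U1_0, U1_1, U1_2, U1_3, U1_4, U1_5, U1_6, U1_7, U1_8, U1_9, U1_10, U1_11, U1_12, U1_13, U4_0, U4_1, U4_2, U4_3, U4_4, U4_5, U4_6, U4_7, U4_8, U4_9, U4_10, U4_11, U4_12, U4_13]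
  ring

theorem comm14_3 (t : Fin 9 → R) (v : Fin 14 → R) :
    U1 t (U4 t v) 3 = U4 t (U1 t v) 3 := by
  simp only [U1_0, U1_1, U1_2, U1_3, U1_4, U1_5, U1_6, U1_7, U1_8, U1_9, U1_10, U1_11, U1_12, U1_13, U4_0, U4_1, U4_2, U4_3, U4_4, U4_5, U4_6, U4_7, U4_8, U4_9, U4_10, U4_11, U4_12, U4_13]
  ring

theorem comm14_4 (t : Fin 9 → R) (v : Fin 14 → R) :
    U1 t (U4 t v) 4 = U4 t (U1 t v) 4 := by
  simp only [U1_0, U1_1, U1_2, U1_3, U1_4, U1_5, U1_6, U1_7, U1_8, U1_9, U1_10, U1_11, U1_12, U1_13, U4_0, U4_1, U4_2, U4_3, U4_4, U4_5, U4_6, U4_7, U4_8, U4_9, U4_10, U4_11, U4_12, U4_13]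
  ring

theorem comm14_5 (t : Fin 9 → R) (v : Fin 14 → R) :
    U1 t (U4 t v) 5 = U4 t (U1 t v) 5 := by
  simp only [U1_0, U1_1, U1_2, U1_3, U1_4, U1_5, U1_6, U1_7, U1_8, U1_9, U1_10, U1_11, U1_12, U1_13, U4_0, U4_1, U4_2, U4_3, U4_4, U4_5, U4_6, U4_7, U4_8, U4_9, U4_10, U4_11, U4_12, U4_13]
  ring

theorem comm14_6 (t : Fin 9 → R) (v : Fin 14 → R) :
    U1 t (U4 t v) 6 = U4 t (U1 t v) 6 := by
  simp only [U1_0, U1_1, U1_2, U1_3, U1_4, U1_5, U1_6, U1_7, U1_8, U1_9, U1_10, U1_11, U1_12, U1_13, U4_0, U4_1, U4_2, U4_3, U4_4, U4_5, U4_6, U4_7, U4_8, U4_9, U4_10, U4_11, U4_12, U4_13]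
  ring

theorem comm14_7 (t : Fin 9 → R) (v : Fin 14 → R) :
    U1 t (U4 t v) 7 = U4 t (U1 t v) 7 := by
  simp only [U1_0, U1_1, U1_2, U1_3, U1_4, U1_5, U1_6, U1_7, U1_8, U1_9, U1_10, U1_11, U1_12, U1_13, U4_0, U4_1, U4_2, U4_3, U4_4, U4_5, U4_6, U4_7, U4_8, U4_9, U4_10, U4_11, U4_12, U4_13]
  ring

theorem comm14_8 (t : Fin 9 → R) (v : Fin 14 → R) :
    U1 t (U4 t v) 8 = U4 t (U1 t v) 8 := by
  simp only [U1_0, U1_1, U1_2, U1_3, U1_4, U1_5, U1_6, U1_7, U1_8, U1_9, U1_10, U1_11, U1_12, U1_13, U4_0, U4_1, U4_2, U4_3, U4_4, U4_5, U4_6, U4_7, U4_8, U4_9, U4_10, U4_11, U4_12, U4_13]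
  ring

theorem comm14_9 (t : Fin 9 → R) (v : Fin 14 → R) :
    U1 t (U4 t v) 9 = U4 t (U1 t v) 9 := by
  simp only [U1_0, U1_1, U1_2, U1_3, U1_4, U1_5, U1_6, U1_7, U1_8, U1_9, U1_10, U1_11, U1_12, U1_13, U4_0, U4_1, U4_2, U4_3, U4_4, U4_5, U4_6, U4_7, U4_8, U4_9, U4_10, U4_11, U4_12, U4_13]
  ring

theorem comm14_10 (t : Fin 9 → R) (v : Fin 14 → R) :
    U1 t (U4 t v) 10 = U4 t (U1 t v) 10 := by
  simp only [U1_0, U1_1, U1_2, U1_3, U1_4, U1_5, U1_6, U1_7, U1_8, U1_9, U1_10, U1_11, U1_12, U1_13, U4_0, U4_1, U4_2, U4_3, U4_4, U4_5, U4_6, U4_7, U4_8, U4_9, U4_10, U4_11, U4_12, U4_13]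
  ring

theorem comm14_11 (t : Fin 9 → R) (v : Fin 14 → R) :
    U1 t (U4 t v) 11 = U4 t (U1 t v) 11 := by
  simp only [U1_0, U1_1, U1_2, U1_3, U1_4, U1_5, U1_6, U1_7, U1_8, U1_9, U1_10, U1_11, U1_12, U1_13, U4_0, U4_1, U4_2, U4_3, U4_4, U4_5, U4_6, U4_7, U4_8, U4_9, U4_10, U4_11, U4_12, U4_13]
  ring

theorem comm14_12 (t : Fin 9 → R) (v : Fin 14 → R) :
    U1 t (U4 t v) 12 = U4 t (U1 t v) 12 := by
  simp only [U1_0, U1_1, U1_2, U1_3, U1_4, U1_5, U1_6, U1_7, U1_8, U1_9, U1_10, U1_11, U1_12, U1_13, U4_0, U4_1, U4_2, U4_3, U4_4, U4_5, U4_6, U4_7, U4_8, U4_9, U4_10, U4_11, U4_12, U4_13]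
  ring

theorem comm14_13 (t : Fin 9 → R) (v : Fin 14 → R) :
    U1 t (U4 t v) 13 = U4 t (U1 t v) 13 := by
  simp only [U1_0, U1_1, U1_2, U1_3, U1_4, U1_5, U1_6, U1_7, U1_8, U1_9, U1_10, U1_11, U1_12, U1_13, U4_0, U4_1, U4_2, U4_3, U4_4, U4_5, U4_6, U4_7, U4_8, U4_9, U4_10, U4_11, U4_12, U4_13]
  ring

theorem comm14 (t : Fin 9 → R) (v : Fin 14 → R) :
    U1 t (U4 t v) = U4 t (U1 t v) := by
  refine funext fun i => ?_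
  fin_cases i
  exacts [comm14_0 t v, comm14_1 t v, comm14_2 t v, comm14_3 t v, comm14_4 t v, comm14_5 t v, comm14_6 t v, comm14_7 t v, comm14_8 t v, comm14_9 t v, comm14_10 t v, comm14_11 t v, comm14_12 t v, comm14_13 t v]

theorem comm15_0 (t : Fin 9 → R) (v : Fin 14 → R) :
    U1 t (U5 t v) 0 = U5 t (U1 t v) 0 := by
  simp only [U1_0, U1_1, U1_2, U1_3, U1_4, U1_5, U1_6, U1_7, U1_8, U1_9, U1_10, U1_11, U1_12, U1_13, U5_0, U5_1, U5_2, U5_3, U5_4, U5_5, U5_6, U5_7, U5_8, U5_9, U5_10, U5_11, U5_12, U5_13]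
  ring

theorem comm15_1 (t : Fin 9 → R) (v : Fin 14 → R) :
    U1 t (U5 t v) 1 = U5 t (U1 t v) 1 := by
  simp only [U1_0, U1_1, U1_2, U1_3, U1_4, U1_5, U1_6, U1_7, U1_8, U1_9, U1_10, U1_11, U1_12, U1_13, U5_0, U5_1, U5_2, U5_3, U5_4, U5_5, U5_6, U5_7, U5_8, U5_9, U5_10, U5_11, U5_12, U5_13]
  ring

theorem comm15_2 (t : Fin 9 → R) (v : Fin 14 → R) :
    U1 t (U5 t v) 2 = U5 t (U1 t v) 2 := by
  simp only [U1_0, U1_1, U1_2, U1_3, U1_4, U1_5, U1_6, U1_7, U1_8, U1_9, U1_10, U1_11, U1_12, U1_13, U5_0, U5_1, U5_2, U5_3, U5_4, U5_5, U5_6, U5_7, U5_8, U5_9, U5_10, U5_11, U5_12, U5_13]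
  ring

theorem comm15_3 (t : Fin 9 → R) (v : Fin 14 → R) :
    U1 t (U5 t v) 3 = U5 t (U1 t v) 3 := by
  simp only [U1_0, U1_1, U1_2, U1_3, U1_4, U1_5, U1_6, U1_7, U1_8, U1_9, U1_10, U1_11, U1_12, U1_13, U5_0, U5_1, U5_2, U5_3, U5_4, U5_5, U5_6, U5_7, U5_8, U5_9, U5_10, U5_11, U5_12, U5_13]
  ring

theorem comm15_4 (t : Fin 9 → R) (v : Fin 14 → R) :
    U1 t (U5 t v) 4 = U5 t (U1 t v) 4 := by
  simp only [U1_0, U1_1, U1_2, U1_3, U1_4, U1_5, U1_6, U1_7, U1_8, U1_9, U1_10, U1_11, U1_12, U1_13, U5_0, U5_1, U5_2, U5_3, U5_4, U5_5, U5_6, U5_7, U5_8, U5_9, U5_10, U5_11, U5_12, U5_13]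
  ring

theorem comm15_5 (t : Fin 9 → R) (v : Fin 14 → R) :
    U1 t (U5 t v) 5 = U5 t (U1 t v) 5 := by
  simp only [U1_0, U1_1, U1_2, U1_3, U1_4, U1_5, U1_6, U1_7, U1_8, U1_9, U1_10, U1_11, U1_12, U1_13, U5_0, U5_1, U5_2, U5_3, U5_4, U5_5, U5_6, U5_7, U5_8, U5_9, U5_10, U5_11, U5_12, U5_13]
  ring

theorem comm15_6 (t : Fin 9 → R) (v : Fin 14 → R) :
    U1 t (U5 t v) 6 = U5 t (U1 t v) 6 := by
  simp only [U1_0, U1_1, U1_2, U1_3, U1_4, U1_5, U1_6, U1_7, U1_8, U1_9, U1_10, U1_11, U1_12, U1_13, U5_0, U5_1, U5_2, U5_3, U5_4, U5_5, U5_6, U5_7, U5_8, U5_9, U5_10, U5_11, U5_12, U5_13]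
  ring

theorem comm15_7 (t : Fin 9 → R) (v : Fin 14 → R) :
    U1 t (U5 t v) 7 = U5 t (U1 t v) 7 := by
  simp only [U1_0, U1_1, U1_2, U1_3, U1_4, U1_5, U1_6, U1_7, U1_8, U1_9, U1_10, U1_11, U1_12, U1_13, U5_0, U5_1, U5_2, U5_3, U5_4, U5_5, U5_6, U5_7, U5_8, U5_9, U5_10, U5_11, U5_12, U5_13]
  ring

theorem comm15_8 (t : Fin 9 → R) (v : Fin 14 → R) :
    U1 t (U5 t v) 8 = U5 t (U1 t v) 8 := by
  simp only [U1_0, U1_1, U1_2, U1_3, U1_4, U1_5, U1_6, U1_7, U1_8, U1_9, U1_10, U1_11, U1_12, U1_13, U5_0, U5_1, U5_2, U5_3, U5_4, U5_5, U5_6, U5_7, U5_8, U5_9, U5_10, U5_11, U5_12, U5_13]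
  ring

theorem comm15_9 (t : Fin 9 → R) (v : Fin 14 → R) :
    U1 t (U5 t v) 9 = U5 t (U1 t v) 9 := by
  simp only [U1_0, U1_1, U1_2, U1_3, U1_4, U1_5, U1_6, U1_7, U1_8, U1_9, U1_10, U1_11, U1_12, U1_13, U5_0, U5_1, U5_2, U5_3, U5_4, U5_5, U5_6, U5_7, U5_8, U5_9, U5_10, U5_11, U5_12, U5_13]
  ring

theorem comm15_10 (t : Fin 9 → R) (v : Fin 14 → R) :
    U1 t (U5 t v) 10 = U5 t (U1 t v) 10 := by
  simp only [U1_0, U1_1, U1_2, U1_3, U1_4, U1_5, U1_6, U1_7, U1_8, U1_9, U1_10, U1_11, U1_12, U1_13, U5_0, U5_1, U5_2, U5_3, U5_4, U5_5, U5_6, U5_7, U5_8, U5_9, U5_10, U5_11, U5_12, U5_13]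
  ring

theorem comm15_11 (t : Fin 9 → R) (v : Fin 14 → R) :
    U1 t (U5 t v) 11 = U5 t (U1 t v) 11 := by
  simp only [U1_0, U1_1, U1_2, U1_3, U1_4, U1_5, U1_6, U1_7, U1_8, U1_9, U1_10, U1_11, U1_12, U1_13, U5_0, U5_1, U5_2, U5_3, U5_4, U5_5, U5_6, U5_7, U5_8, U5_9, U5_10, U5_11, U5_12, U5_13]
  ring

theorem comm15_12 (t : Fin 9 → R) (v : Fin 14 → R) :
    U1 t (U5 t v) 12 = U5 t (U1 t v) 12 := by
  simp only [U1_0, U1_1, U1_2, U1_3, U1_4, U1_5, U1_6, U1_7, U1_8, U1_9, U1_10, U1_11, U1_12, U1_13, U5_0, U5_1, U5_2, U5_3, U5_4, U5_5, U5_6, U5_7, U5_8, U5_9, U5_10, U5_11, U5_12, U5_13]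
  ring

theorem comm15_13 (t : Fin 9 → R) (v : Fin 14 → R) :
    U1 t (U5 t v) 13 = U5 t (U1 t v) 13 := by
  simp only [U1_0, U1_1, U1_2, U1_3, U1_4, U1_5, U1_6, U1_7, U1_8, U1_9, U1_10, U1_11, U1_12, U1_13, U5_0, U5_1, U5_2, U5_3, U5_4, U5_5, U5_6, U5_7, U5_8, U5_9, U5_10, U5_11, U5_12, U5_13]
  ring

theorem comm15 (t : Fin 9 → R) (v : Fin 14 → R) :
    U1 t (U5 t v) = U5 t (U1 t v) := by
  refine funext fun i => ?_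
  fin_cases i
  exacts [comm15_0 t v, comm15_1 t v, comm15_2 t v, comm15_3 t v, comm15_4 t v, comm15_5 t v, comm15_6 t v, comm15_7 t v, comm15_8 t v, comm15_9 t v, comm15_10 t v, comm15_11 t v, comm15_12 t v, comm15_13 t v]

theorem comm23_0 (t : Fin 9 → R) (v : Fin 14 → R) :
    U2 t (U3 t v) 0 = U3 t (U2 t v) 0 := by
  simp only [U2_0, U2_1, U2_2, U2_3, U2_4, U2_5, U2_6, U2_7, U2_8, U2_9, U2_10, U2_11, U2_12, U2_13, U3_0, U3_1, U3_2, U3_3, U3_4, U3_5, U3_6, U3_7, U3_8, U3_9, U3_10, U3_11, U3_12, U3_13]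
  ring

theorem comm23_1 (t : Fin 9 → R) (v : Fin 14 → R) :
    U2 t (U3 t v) 1 = U3 t (U2 t v) 1 := by
  simp only [U2_0, U2_1, U2_2, U2_3, U2_4, U2_5, U2_6, U2_7, U2_8, U2_9, U2_10, U2_11, U2_12, U2_13, U3_0, U3_1, U3_2, U3_3, U3_4, U3_5, U3_6, U3_7, U3_8, U3_9, U3_10, U3_11, U3_12, U3_13]
  ring

theorem comm23_2 (t : Fin 9 → R) (v : Fin 14 → R) :
    U2 t (U3 t v) 2 = U3 t (U2 t v) 2 := by
  simp only [U2_0, U2_1, U2_2, U2_3, U2_4, U2_5, U2_6, U2_7, U2_8, U2_9, U2_10, U2_11, U2_12, U2_13, U3_0, U3_1, U3_2, U3_3, U3_4, U3_5, U3_6, U3_7, U3_8, U3_9, U3_10, U3_11, U3_12, U3_13]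
  ring

theorem comm23_3 (t : Fin 9 → R) (v : Fin 14 → R) :
    U2 t (U3 t v) 3 = U3 t (U2 t v) 3 := by
  simp only [U2_0, U2_1, U2_2, U2_3, U2_4, U2_5, U2_6, U2_7, U2_8, U2_9, U2_10, U2_11, U2_12, U2_13, U3_0, U3_1, U3_2, U3_3, U3_4, U3_5, U3_6, U3_7, U3_8, U3_9, U3_10, U3_11, U3_12, U3_13]
  ring

theorem comm23_4 (t : Fin 9 → R) (v : Fin 14 → R) :
    U2 t (U3 t v) 4 = U3 t (U2 t v) 4 := by
  simp only [U2_0, U2_1, U2_2, U2_3, U2_4, U2_5, U2_6, U2_7, U2_8, U2_9, U2_10, U2_11, U2_12, U2_13, U3_0, U3_1, U3_2, U3_3, U3_4, U3_5, U3_6, U3_7, U3_8, U3_9, U3_10, U3_11, U3_12, U3_13]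
  ring

theorem comm23_5 (t : Fin 9 → R) (v : Fin 14 → R) :
    U2 t (U3 t v) 5 = U3 t (U2 t v) 5 := by
  simp only [U2_0, U2_1, U2_2, U2_3, U2_4, U2_5, U2_6, U2_7, U2_8, U2_9, U2_10, U2_11, U2_12, U2_13, U3_0, U3_1, U3_2, U3_3, U3_4, U3_5, U3_6, U3_7, U3_8, U3_9, U3_10, U3_11, U3_12, U3_13]
  ring

theorem comm23_6 (t : Fin 9 → R) (v : Fin 14 → R) :
    U2 t (U3 t v) 6 = U3 t (U2 t v) 6 := by
  simp only [U2_0, U2_1, U2_2, U2_3, U2_4, U2_5, U2_6, U2_7, U2_8, U2_9, U2_10, U2_11, U2_12, U2_13, U3_0, U3_1, U3_2, U3_3, U3_4, U3_5, U3_6, U3_7, U3_8, U3_9, U3_10, U3_11, U3_12, U3_13]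
  ring

theorem comm23_7 (t : Fin 9 → R) (v : Fin 14 → R) :
    U2 t (U3 t v) 7 = U3 t (U2 t v) 7 := by
  simp only [U2_0, U2_1, U2_2, U2_3, U2_4, U2_5, U2_6, U2_7, U2_8, U2_9, U2_10, U2_11, U2_12, U2_13, U3_0, U3_1, U3_2, U3_3, U3_4, U3_5, U3_6, U3_7, U3_8, U3_9, U3_10, U3_11, U3_12, U3_13]
  ring

theorem comm23_8 (t : Fin 9 → R) (v : Fin 14 → R) :
    U2 t (U3 t v) 8 = U3 t (U2 t v) 8 := by
  simp only [U2_0, U2_1, U2_2, U2_3, U2_4, U2_5, U2_6, U2_7, U2_8, U2_9, U2_10, U2_11, U2_12, U2_13, U3_0, U3_1, U3_2, U3_3, U3_4, U3_5, U3_6, U3_7, U3_8, U3_9, U3_10, U3_11, U3_12, U3_13]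
  ring

theorem comm23_9 (t : Fin 9 → R) (v : Fin 14 → R) :
    U2 t (U3 t v) 9 = U3 t (U2 t v) 9 := by
  simp only [U2_0, U2_1, U2_2, U2_3, U2_4, U2_5, U2_6, U2_7, U2_8, U2_9, U2_10, U2_11, U2_12, U2_13, U3_0, U3_1, U3_2, U3_3, U3_4, U3_5, U3_6, U3_7, U3_8, U3_9, U3_10, U3_11, U3_12, U3_13]
  ring

theorem comm23_10 (t : Fin 9 → R) (v : Fin 14 → R) :
    U2 t (U3 t v) 10 = U3 t (U2 t v) 10 := by
  simp only [U2_0, U2_1, U2_2, U2_3, U2_4, U2_5, U2_6, U2_7, U2_8, U2_9, U2_10, U2_11, U2_12, U2_13, U3_0, U3_1, U3_2, U3_3, U3_4, U3_5, U3_6, U3_7, U3_8, U3_9, U3_10, U3_11, U3_12, U3_13]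
  ring

theorem comm23_11 (t : Fin 9 → R) (v : Fin 14 → R) :
    U2 t (U3 t v) 11 = U3 t (U2 t v) 11 := by
  simp only [U2_0, U2_1, U2_2, U2_3, U2_4, U2_5, U2_6, U2_7, U2_8, U2_9, U2_10, U2_11, U2_12, U2_13, U3_0, U3_1, U3_2, U3_3, U3_4, U3_5, U3_6, U3_7, U3_8, U3_9, U3_10, U3_11, U3_12, U3_13]
  ring

theorem comm23_12 (t : Fin 9 → R) (v : Fin 14 → R) :
    U2 t (U3 t v) 12 = U3 t (U2 t v) 12 := by
  simp only [U2_0, U2_1, U2_2, U2_3, U2_4, U2_5, U2_6, U2_7, U2_8, U2_9, U2_10, U2_11, U2_12, U2_13, U3_0, U3_1, U3_2, U3_3, U3_4, U3_5, U3_6, U3_7, U3_8, U3_9, U3_10, U3_11, U3_12, U3_13]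
  ring

theorem comm23_13 (t : Fin 9 → R) (v : Fin 14 → R) :
    U2 t (U3 t v) 13 = U3 t (U2 t v) 13 := by
  simp only [U2_0, U2_1, U2_2, U2_3, U2_4, U2_5, U2_6, U2_7, U2_8, U2_9, U2_10, U2_11, U2_12, U2_13, U3_0, U3_1, U3_2, U3_3, U3_4, U3_5, U3_6, U3_7, U3_8, U3_9, U3_10, U3_11, U3_12, U3_13]
  ring

theorem comm23 (t : Fin 9 → R) (v : Fin 14 → R) :
    U2 t (U3 t v) = U3 t (U2 t v) := by
  refine funext fun i => ?_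
  fin_cases i
  exacts [comm23_0 t v, comm23_1 t v, comm23_2 t v, comm23_3 t v, comm23_4 t v, comm23_5 t v, comm23_6 t v, comm23_7 t v, comm23_8 t v, comm23_9 t v, comm23_10 t v, comm23_11 t v, comm23_12 t v, comm23_13 t v]

end Pool.Agent.J6H65.Hilb4
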