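import Pool.Agent.J6H65.Hilb4.Ops

set_option autoImplicit false
set_option linter.unusedSimpArgs false
set_option linter.unusedVariables false

namespace Pool.Agent.J6H65.Hilb4

variable {R : Type*} [CommRing R]

theorem comm24_0 (t : Fin 9 → R) (v : Fin 14 → R) :
    U2 t (U4 t v) 0 = U4 t (U2 t v) 0 := by
  simp only [U2_0, U2_1, U2_2, U2_3, U2_4, U2_5, U2_6, U2_7, U2_8, U2_9, U2_10, U2_11, U2_12, U2_13, U4_0, U4_1, U4_2, U4_3, U4_4, U4_5, U4_6, U4_7, U4_8, U4_9, U4_10, U4_11, U4_12, U4_13]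
  ring

theorem comm24_1 (t : Fin 9 → R) (v : Fin 14 → R) :
    U2 t (U4 t v) 1 = U4 t (U2 t v) 1 := by
  simp only [U2_0, U2_1, U2_2, U2_3, U2_4, U2_5, U2_6, U2_7, U2_8, U2_9, U2_10, U2_11, U2_12, U2_13, U4_0, U4_1, U4_2, U4_3, U4_4, U4_5, U4_6, U4_7, U4_8, U4_9, U4_10, U4_11, U4_12, U4_13]
  ring

theorem comm24_2 (t : Fin 9 → R) (v : Fin 14 → R) :
    U2 t (U4 t v) 2 = U4 t (U2 t v) 2 := by
  simp only [U2_0, U2_1, U2_2, U2_3, U2_4, U2_5, U2_6, U2_7, U2_8, U2_9, U2_10, U2_11, U2_12, U2_13, U4_0, U4_1, U4_2, U4_3, U4_4, U4_5, U4_6, U4_7, U4_8, U4_9, U4_10, U4_11, U4_12, U4_13]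
  ring

theorem comm24_3 (t : Fin 9 → R) (v : Fin 14 → R) :
    U2 t (U4 t v) 3 = U4 t (U2 t v) 3 := by
  simp only [U2_0, U2_1, U2_2, U2_3, U2_4, U2_5, U2_6, U2_7, U2_8, U2_9, U2_10, U2_11, U2_12, U2_13, U4_0, U4_1, U4_2, U4_3, U4_4, U4_5, U4_6, U4_7, U4_8, U4_9, U4_10, U4_11, U4_12, U4_13]
  ring

theorem comm24_4 (t : Fin 9 → R) (v : Fin 14 → R) :
    U2 t (U4 t v) 4 = U4 t (U2 t v) 4 := by
  simp only [U2_0, U2_1, U2_2, U2_3, U2_4, U2_5, U2_6, U2_7, U2_8, U2_9, U2_10, U2_11, U2_12, U2_13, U4_0, U4_1, U4_2, U4_3, U4_4, U4_5, U4_6, U4_7, U4_8, U4_9, U4_10, U4_11, U4_12, U4_13]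
  ring

theorem comm24_5 (t : Fin 9 → R) (v : Fin 14 → R) :
    U2 t (U4 t v) 5 = U4 t (U2 t v) 5 := by
  simp only [U2_0, U2_1, U2_2, U2_3, U2_4, U2_5, U2_6, U2_7, U2_8, U2_9, U2_10, U2_11, U2_12, U2_13, U4_0, U4_1, U4_2, U4_3, U4_4, U4_5, U4_6, U4_7, U4_8, U4_9, U4_10, U4_11, U4_12, U4_13]
  ring

theorem comm24_6 (t : Fin 9 → R) (v : Fin 14 → R) :
    U2 t (U4 t v) 6 = U4 t (U2 t v) 6 := by
  simp only [U2_0, U2_1, U2_2, U2_3, U2_4, U2_5, U2_6, U2_7, U2_8, U2_9, U2_10, U2_11, U2_12, U2_13, U4_0, U4_1, U4_2, U4_3, U4_4, U4_5, U4_6, U4_7, U4_8, U4_9, U4_10, U4_11, U4_12, U4_13]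
  ring

theorem comm24_7 (t : Fin 9 → R) (v : Fin 14 → R) :
    U2 t (U4 t v) 7 = U4 t (U2 t v) 7 := by
  simp only [U2_0, U2_1, U2_2, U2_3, U2_4, U2_5, U2_6, U2_7, U2_8, U2_9, U2_10, U2_11, U2_12, U2_13, U4_0, U4_1, U4_2, U4_3, U4_4, U4_5, U4_6, U4_7, U4_8, U4_9, U4_10, U4_11, U4_12, U4_13]
  ring

theorem comm24_8 (t : Fin 9 → R) (v : Fin 14 → R) :
    U2 t (U4 t v) 8 = U4 t (U2 t v) 8 := by
  simp only [U2_0, U2_1, U2_2, U2_3, U2_4, U2_5, U2_6, U2_7, U2_8, U2_9, U2_10, U2_11, U2_12, U2_13, U4_0, U4_1, U4_2, U4_3, U4_4, U4_5, U4_6, U4_7, U4_8, U4_9, U4_10, U4_11, U4_12, U4_13]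
  ring

theorem comm24_9 (t : Fin 9 → R) (v : Fin 14 → R) :
    U2 t (U4 t v) 9 = U4 t (U2 t v) 9 := by
  simp only [U2_0, U2_1, U2_2, U2_3, U2_4, U2_5, U2_6, U2_7, U2_8, U2_9, U2_10, U2_11, U2_12, U2_13, U4_0, U4_1, U4_2, U4_3, U4_4, U4_5, U4_6, U4_7, U4_8, U4_9, U4_10, U4_11, U4_12, U4_13]
  ring

theorem comm24_10 (t : Fin 9 → R) (v : Fin 14 → R) :
    U2 t (U4 t v) 10 = U4 t (U2 t v) 10 := by
  simp only [U2_0, U2_1, U2_2, U2_3, U2_4, U2_5, U2_6, U2_7, U2_8, U2_9, U2_10, U2_11, U2_12, U2_13, U4_0, U4_1, U4_2, U4_3, U4_4, U4_5, U4_6, U4_7, U4_8, U4_9, U4_10, U4_11, U4_12, U4_13]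
  ring

theorem comm24_11 (t : Fin 9 → R) (v : Fin 14 → R) :
    U2 t (U4 t v) 11 = U4 t (U2 t v) 11 := by
  simp only [U2_0, U2_1, U2_2, U2_3, U2_4, U2_5, U2_6, U2_7, U2_8, U2_9, U2_10, U2_11, U2_12, U2_13, U4_0, U4_1, U4_2, U4_3, U4_4, U4_5, U4_6, U4_7, U4_8, U4_9, U4_10, U4_11, U4_12, U4_13]
  ring

theorem comm24_12 (t : Fin 9 → R) (v : Fin 14 → R) :
    U2 t (U4 t v) 12 = U4 t (U2 t v) 12 := by
  simp only [U2_0, U2_1, U2_2, U2_3, U2_4, U2_5, U2_6, U2_7, U2_8, U2_9, U2_10, U2_11, U2_12, U2_13, U4_0, U4_1, U4_2, U4_3, U4_4, U4_5, U4_6, U4_7, U4_8, U4_9, U4_10, U4_11, U4_12, U4_13]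
  ring

theorem comm24_13 (t : Fin 9 → R) (v : Fin 14 → R) :
    U2 t (U4 t v) 13 = U4 t (U2 t v) 13 := by
  simp only [U2_0, U2_1, U2_2, U2_3, U2_4, U2_5, U2_6, U2_7, U2_8, U2_9, U2_10, U2_11, U2_12, U2_13, U4_0, U4_1, U4_2, U4_3, U4_4, U4_5, U4_6, U4_7, U4_8, U4_9, U4_10, U4_11, U4_12, U4_13]
  ring

theorem comm24 (t : Fin 9 → R) (v : Fin 14 → R) :
    U2 t (U4 t v) = U4 t (U2 t v) := by
  refine funext fun i => ?_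
  fin_cases i
  exacts [comm24_0 t v, comm24_1 t v, comm24_2 t v, comm24_3 t v, comm24_4 t v, comm24_5 t v, comm24_6 t v, comm24_7 t v, comm24_8 t v, comm24_9 t v, comm24_10 t v, comm24_11 t v, comm24_12 t v, comm24_13 t v]

theorem comm25_0 (t : Fin 9 → R) (v : Fin 14 → R) :
    U2 t (U5 t v) 0 = U5 t (U2 t v) 0 := by
  simp only [U2_0, U2_1, U2_2, U2_3, U2_4, U2_5, U2_6, U2_7, U2_8, U2_9, U2_10, U2_11, U2_12, U2_13, U5_0, U5_1, U5_2, U5_3, U5_4, U5_5, U5_6, U5_7, U5_8, U5_9, U5_10, U5_11, U5_12, U5_13]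
  ring

theorem comm25_1 (t : Fin 9 → R) (v : Fin 14 → R) :
    U2 t (U5 t v) 1 = U5 t (U2 t v) 1 := by
  simp only [U2_0, U2_1, U2_2, U2_3, U2_4, U2_5, U2_6, U2_7, U2_8, U2_9, U2_10, U2_11, U2_12, U2_13, U5_0, U5_1, U5_2, U5_3, U5_4, U5_5, U5_6, U5_7, U5_8, U5_9, U5_10, U5_11, U5_12, U5_13]
  ring

theorem comm25_2 (t : Fin 9 → R) (v : Fin 14 → R) :
    U2 t (U5 t v) 2 = U5 t (U2 t v) 2 := by
  simp only [U2_0, U2_1, U2_2, U2_3, U2_4, U2_5, U2_6, U2_7, U2_8, U2_9, U2_10, U2_11, U2_12, U2_13, U5_0, U5_1, U5_2, U5_3, U5_4, U5_5, U5_6, U5_7, U5_8, U5_9, U5_10, U5_11, U5_12, U5_13]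
  ring

theorem comm25_3 (t : Fin 9 → R) (v : Fin 14 → R) :
    U2 t (U5 t v) 3 = U5 t (U2 t v) 3 := by
  simp only [U2_0, U2_1, U2_2, U2_3, U2_4, U2_5, U2_6, U2_7, U2_8, U2_9, U2_10, U2_11, U2_12, U2_13, U5_0, U5_1, U5_2, U5_3, U5_4, U5_5, U5_6, U5_7, U5_8, U5_9, U5_10, U5_11, U5_12, U5_13]
  ring

theorem comm25_4 (t : Fin 9 → R) (v : Fin 14 → R) :
    U2 t (U5 t v) 4 = U5 t (U2 t v) 4 := by
  simp only [U2_0, U2_1, U2_2, U2_3, U2_4, U2_5, U2_6, U2_7, U2_8, U2_9, U2_10, U2_11, U2_12, U2_13, U5_0, U5_1, U5_2, U5_3, U5_4, U5_5, U5_6, U5_7, U5_8, U5_9, U5_10, U5_11, U5_12, U5_13]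
  ring

theorem comm25_5 (t : Fin 9 → R) (v : Fin 14 → R) :
    U2 t (U5 t v) 5 = U5 t (U2 t v) 5 := by
  simp only [U2_0, U2_1, U2_2, U2_3, U2_4, U2_5, U2_6, U2_7, U2_8, U2_9, U2_10, U2_11, U2_12, U2_13, U5_0, U5_1, U5_2, U5_3, U5_4, U5_5, U5_6, U5_7, U5_8, U5_9, U5_10, U5_11, U5_12, U5_13]
  ring

theorem comm25_6 (t : Fin 9 → R) (v : Fin 14 → R) :
    U2 t (U5 t v) 6 = U5 t (U2 t v) 6 := by
  simp only [U2_0, U2_1, U2_2, U2_3, U2_4, U2_5, U2_6, U2_7, U2_8, U2_9, U2_10, U2_11, U2_12, U2_13, U5_0, U5_1, U5_2, U5_3, U5_4, U5_5, U5_6, U5_7, U5_8, U5_9, U5_10, U5_11, U5_12, U5_13]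
  ring

theorem comm25_7 (t : Fin 9 → R) (v : Fin 14 → R) :
    U2 t (U5 t v) 7 = U5 t (U2 t v) 7 := by
  simp only [U2_0, U2_1, U2_2, U2_3, U2_4, U2_5, U2_6, U2_7, U2_8, U2_9, U2_10, U2_11, U2_12, U2_13, U5_0, U5_1, U5_2, U5_3, U5_4, U5_5, U5_6, U5_7, U5_8, U5_9, U5_10, U5_11, U5_12, U5_13]
  ring

theorem comm25_8 (t : Fin 9 → R) (v : Fin 14 → R) :
    U2 t (U5 t v) 8 = U5 t (U2 t v) 8 := by
  simp only [U2_0, U2_1, U2_2, U2_3, U2_4, U2_5, U2_6, U2_7, U2_8, U2_9, U2_10, U2_11, U2_12, U2_13, U5_0, U5_1, U5_2, U5_3, U5_4, U5_5, U5_6, U5_7, U5_8, U5_9, U5_10, U5_11, U5_12, U5_13]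
  ring

theorem comm25_9 (t : Fin 9 → R) (v : Fin 14 → R) :
    U2 t (U5 t v) 9 = U5 t (U2 t v) 9 := by
  simp only [U2_0, U2_1, U2_2, U2_3, U2_4, U2_5, U2_6, U2_7, U2_8, U2_9, U2_10, U2_11, U2_12, U2_13, U5_0, U5_1, U5_2, U5_3, U5_4, U5_5, U5_6, U5_7, U5_8, U5_9, U5_10, U5_11, U5_12, U5_13]
  ring

theorem comm25_10 (t : Fin 9 → R) (v : Fin 14 → R) :
    U2 t (U5 t v) 10 = U5 t (U2 t v) 10 := by
  simp only [U2_0, U2_1, U2_2, U2_3, U2_4, U2_5, U2_6, U2_7, U2_8, U2_9, U2_10, U2_11, U2_12, U2_13, U5_0, U5_1, U5_2, U5_3, U5_4, U5_5, U5_6, U5_7, U5_8, U5_9, U5_10, U5_11, U5_12, U5_13]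
  ring

theorem comm25_11 (t : Fin 9 → R) (v : Fin 14 → R) :
    U2 t (U5 t v) 11 = U5 t (U2 t v) 11 := by
  simp only [U2_0, U2_1, U2_2, U2_3, U2_4, U2_5, U2_6, U2_7, U2_8, U2_9, U2_10, U2_11, U2_12, U2_13, U5_0, U5_1, U5_2, U5_3, U5_4, U5_5, U5_6, U5_7, U5_8, U5_9, U5_10, U5_11, U5_12, U5_13]
  ring

theorem comm25_12 (t : Fin 9 → R) (v : Fin 14 → R) :
    U2 t (U5 t v) 12 = U5 t (U2 t v) 12 := by
  simp only [U2_0, U2_1, U2_2, U2_3, U2_4, U2_5, U2_6, U2_7, U2_8, U2_9, U2_10, U2_11, U2_12, U2_13, U5_0, U5_1, U5_2, U5_3, U5_4, U5_5, U5_6, U5_7, U5_8, U5_9, U5_10, U5_11, U5_12, U5_13]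
  ring

theorem comm25_13 (t : Fin 9 → R) (v : Fin 14 → R) :
    U2 t (U5 t v) 13 = U5 t (U2 t v) 13 := by
  simp only [U2_0, U2_1, U2_2, U2_3, U2_4, U2_5, U2_6, U2_7, U2_8, U2_9, U2_10, U2_11, U2_12, U2_13, U5_0, U5_1, U5_2, U5_3, U5_4, U5_5, U5_6, U5_7, U5_8, U5_9, U5_10, U5_11, U5_12, U5_13]
  ring

theorem comm25 (t : Fin 9 → R) (v : Fin 14 → R) :
    U2 t (U5 t v) = U5 t (U2 t v) := by
  refine funext fun i => ?_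
  fin_cases i
  exacts [comm25_0 t v, comm25_1 t v, comm25_2 t v, comm25_3 t v, comm25_4 t v, comm25_5 t v, comm25_6 t v, comm25_7 t v, comm25_8 t v, comm25_9 t v, comm25_10 t v, comm25_11 t v, comm25_12 t v, comm25_13 t v]

theorem comm34_0 (t : Fin 9 → R) (v : Fin 14 → R) :
    U3 t (U4 t v) 0 = U4 t (U3 t v) 0 := by
  simp only [U3_0, U3_1, U3_2, U3_3, U3_4, U3_5, U3_6, U3_7, U3_8, U3_9, U3_10, U3_11, U3_12, U3_13, U4_0, U4_1, U4_2, U4_3, U4_4, U4_5, U4_6, U4_7, U4_8, U4_9, U4_10, U4_11, U4_12, U4_13]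
  ring

theorem comm34_1 (t : Fin 9 → R) (v : Fin 14 → R) :
    U3 t (U4 t v) 1 = U4 t (U3 t v) 1 := by
  simp only [U3_0, U3_1, U3_2, U3_3, U3_4, U3_5, U3_6, U3_7, U3_8, U3_9, U3_10, U3_11, U3_12, U3_13, U4_0, U4_1, U4_2, U4_3, U4_4, U4_5, U4_6, U4_7, U4_8, U4_9, U4_10, U4_11, U4_12, U4_13]
  ring

theorem comm34_2 (t : Fin 9 → R) (v : Fin 14 → R) :
    U3 t (U4 t v) 2 = U4 t (U3 t v) 2 := by
  simp only [U3_0, U3_1, U3_2, U3_3, U3_4, U3_5, U3_6, U3_7, U3_8, U3_9, U3_10, U3_11, U3_12, U3_13, U4_0, U4_1, U4_2, U4_3, U4_4, U4_5, U4_6, U4_7, U4_8, U4_9, U4_10, U4_11, U4_12, U4_13]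
  ring

theorem comm34_3 (t : Fin 9 → R) (v : Fin 14 → R) :
    U3 t (U4 t v) 3 = U4 t (U3 t v) 3 := by
  simp only [U3_0, U3_1, U3_2, U3_3, U3_4, U3_5, U3_6, U3_7, U3_8, U3_9, U3_10, U3_11, U3_12, U3_13, U4_0, U4_1, U4_2, U4_3, U4_4, U4_5, U4_6, U4_7, U4_8, U4_9, U4_10, U4_11, U4_12, U4_13]
  ring

theorem comm34_4 (t : Fin 9 → R) (v : Fin 14 → R) :
    U3 t (U4 t v) 4 = U4 t (U3 t v) 4 := by
  simp only [U3_0, U3_1, U3_2, U3_3, U3_4, U3_5, U3_6, U3_7, U3_8, U3_9, U3_10, U3_11, U3_12, U3_13, U4_0, U4_1, U4_2, U4_3, U4_4, U4_5, U4_6, U4_7, U4_8, U4_9, U4_10, U4_11, U4_12, U4_13]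
  ring

theorem comm34_5 (t : Fin 9 → R) (v : Fin 14 → R) :
    U3 t (U4 t v) 5 = U4 t (U3 t v) 5 := by
  simp only [U3_0, U3_1, U3_2, U3_3, U3_4, U3_5, U3_6, U3_7, U3_8, U3_9, U3_10, U3_11, U3_12, U3_13, U4_0, U4_1, U4_2, U4_3, U4_4, U4_5, U4_6, U4_7, U4_8, U4_9, U4_10, U4_11, U4_12, U4_13]
  ring

theorem comm34_6 (t : Fin 9 → R) (v : Fin 14 → R) :
    U3 t (U4 t v) 6 = U4 t (U3 t v) 6 := by
  simp only [U3_0, U3_1, U3_2, U3_3, U3_4, U3_5, U3_6, U3_7, U3_8, U3_9, U3_10, U3_11, U3_12, U3_13, U4_0, U4_1, U4_2, U4_3, U4_4, U4_5, U4_6, U4_7, U4_8, U4_9, U4_10, U4_11, U4_12, U4_13]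
  ring

theorem comm34_7 (t : Fin 9 → R) (v : Fin 14 → R) :
    U3 t (U4 t v) 7 = U4 t (U3 t v) 7 := by
  simp only [U3_0, U3_1, U3_2, U3_3, U3_4, U3_5, U3_6, U3_7, U3_8, U3_9, U3_10, U3_11, U3_12, U3_13, U4_0, U4_1, U4_2, U4_3, U4_4, U4_5, U4_6, U4_7, U4_8, U4_9, U4_10, U4_11, U4_12, U4_13]
  ring

theorem comm34_8 (t : Fin 9 → R) (v : Fin 14 → R) :
    U3 t (U4 t v) 8 = U4 t (U3 t v) 8 := by
  simp only [U3_0, U3_1, U3_2, U3_3, U3_4, U3_5, U3_6, U3_7, U3_8, U3_9, U3_10, U3_11, U3_12, U3_13, U4_0, U4_1, U4_2, U4_3, U4_4, U4_5, U4_6, U4_7, U4_8, U4_9, U4_10, U4_11, U4_12, U4_13]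
  ring

theorem comm34_9 (t : Fin 9 → R) (v : Fin 14 → R) :
    U3 t (U4 t v) 9 = U4 t (U3 t v) 9 := by
  simp only [U3_0, U3_1, U3_2, U3_3, U3_4, U3_5, U3_6, U3_7, U3_8, U3_9, U3_10, U3_11, U3_12, U3_13, U4_0, U4_1, U4_2, U4_3, U4_4, U4_5, U4_6, U4_7, U4_8, U4_9, U4_10, U4_11, U4_12, U4_13]
  ring

theorem comm34_10 (t : Fin 9 → R) (v : Fin 14 → R) :
    U3 t (U4 t v) 10 = U4 t (U3 t v) 10 := by
  simp only [U3_0, U3_1, U3_2, U3_3, U3_4, U3_5, U3_6, U3_7, U3_8, U3_9, U3_10, U3_11, U3_12, U3_13, U4_0, U4_1, U4_2, U4_3, U4_4, U4_5, U4_6, U4_7, U4_8, U4_9, U4_10, U4_11, U4_12, U4_13]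
  ring

theorem comm34_11 (t : Fin 9 → R) (v : Fin 14 → R) :
    U3 t (U4 t v) 11 = U4 t (U3 t v) 11 := by
  simp only [U3_0, U3_1, U3_2, U3_3, U3_4, U3_5, U3_6, U3_7, U3_8, U3_9, U3_10, U3_11, U3_12, U3_13, U4_0, U4_1, U4_2, U4_3, U4_4, U4_5, U4_6, U4_7, U4_8, U4_9, U4_10, U4_11, U4_12, U4_13]
  ring

theorem comm34_12 (t : Fin 9 → R) (v : Fin 14 → R) :
    U3 t (U4 t v) 12 = U4 t (U3 t v) 12 := by
  simp only [U3_0, U3_1, U3_2, U3_3, U3_4, U3_5, U3_6, U3_7, U3_8, U3_9, U3_10, U3_11, U3_12, U3_13, U4_0, U4_1, U4_2, U4_3, U4_4, U4_5, U4_6, U4_7, U4_8, U4_9, U4_10, U4_11, U4_12, U4_13]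
  ring

theorem comm34_13 (t : Fin 9 → R) (v : Fin 14 → R) :
    U3 t (U4 t v) 13 = U4 t (U3 t v) 13 := by
  simp only [U3_0, U3_1, U3_2, U3_3, U3_4, U3_5, U3_6, U3_7, U3_8, U3_9, U3_10, U3_11, U3_12, U3_13, U4_0, U4_1, U4_2, U4_3, U4_4, U4_5, U4_6, U4_7, U4_8, U4_9, U4_10, U4_11, U4_12, U4_13]
  ring

theorem comm34 (t : Fin 9 → R) (v : Fin 14 → R) :
    U3 t (U4 t v) = U4 t (U3 t v) := by
  refine funext fun i => ?_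
  fin_cases i
  exacts [comm34_0 t v, comm34_1 t v, comm34_2 t v, comm34_3 t v, comm34_4 t v, comm34_5 t v, comm34_6 t v, comm34_7 t v, comm34_8 t v, comm34_9 t v, comm34_10 t v, comm34_11 t v, comm34_12 t v, comm34_13 t v]

theorem comm35_0 (t : Fin 9 → R) (v : Fin 14 → R) :
    U3 t (U5 t v) 0 = U5 t (U3 t v) 0 := by
  simp only [U3_0, U3_1, U3_2, U3_3, U3_4, U3_5, U3_6, U3_7, U3_8, U3_9, U3_10, U3_11, U3_12, U3_13, U5_0, U5_1, U5_2, U5_3, U5_4, U5_5, U5_6, U5_7, U5_8, U5_9, U5_10, U5_11, U5_12, U5_13]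
  ring

theorem comm35_1 (t : Fin 9 → R) (v : Fin 14 → R) :
    U3 t (U5 t v) 1 = U5 t (U3 t v) 1 := by
  simp only [U3_0, U3_1, U3_2, U3_3, U3_4, U3_5, U3_6, U3_7, U3_8, U3_9, U3_10, U3_11, U3_12, U3_13, U5_0, U5_1, U5_2, U5_3, U5_4, U5_5, U5_6, U5_7, U5_8, U5_9, U5_10, U5_11, U5_12, U5_13]
  ring

theorem comm35_2 (t : Fin 9 → R) (v : Fin 14 → R) :
    U3 t (U5 t v) 2 = U5 t (U3 t v) 2 := by
  simp only [U3_0, U3_1, U3_2, U3_3, U3_4, U3_5, U3_6, U3_7, U3_8, U3_9, U3_10, U3_11, U3_12, U3_13, U5_0, U5_1, U5_2, U5_3, U5_4, U5_5, U5_6, U5_7, U5_8, U5_9, U5_10, U5_11, U5_12, U5_13]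
  ring

theorem comm35_3 (t : Fin 9 → R) (v : Fin 14 → R) :
    U3 t (U5 t v) 3 = U5 t (U3 t v) 3 := by
  simp only [U3_0, U3_1, U3_2, U3_3, U3_4, U3_5, U3_6, U3_7, U3_8, U3_9, U3_10, U3_11, U3_12, U3_13, U5_0, U5_1, U5_2, U5_3, U5_4, U5_5, U5_6, U5_7, U5_8, U5_9, U5_10, U5_11, U5_12, U5_13]
  ring

theorem comm35_4 (t : Fin 9 → R) (v : Fin 14 → R) :
    U3 t (U5 t v) 4 = U5 t (U3 t v) 4 := by
  simp only [U3_0, U3_1, U3_2, U3_3, U3_4, U3_5, U3_6, U3_7, U3_8, U3_9, U3_10, U3_11, U3_12, U3_13, U5_0, U5_1, U5_2, U5_3, U5_4, U5_5, U5_6, U5_7, U5_8, U5_9, U5_10, U5_11, U5_12, U5_13]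
  ring

theorem comm35_5 (t : Fin 9 → R) (v : Fin 14 → R) :
    U3 t (U5 t v) 5 = U5 t (U3 t v) 5 := by
  simp only [U3_0, U3_1, U3_2, U3_3, U3_4, U3_5, U3_6, U3_7, U3_8, U3_9, U3_10, U3_11, U3_12, U3_13, U5_0, U5_1, U5_2, U5_3, U5_4, U5_5, U5_6, U5_7, U5_8, U5_9, U5_10, U5_11, U5_12, U5_13]
  ring

theorem comm35_6 (t : Fin 9 → R) (v : Fin 14 → R) :
    U3 t (U5 t v) 6 = U5 t (U3 t v) 6 := by
  simp only [U3_0, U3_1, U3_2, U3_3, U3_4, U3_5, U3_6, U3_7, U3_8, U3_9, U3_10, U3_11, U3_12, U3_13, U5_0, U5_1, U5_2, U5_3, U5_4, U5_5, U5_6, U5_7, U5_8, U5_9, U5_10, U5_11, U5_12, U5_13]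
  ring

theorem comm35_7 (t : Fin 9 → R) (v : Fin 14 → R) :
    U3 t (U5 t v) 7 = U5 t (U3 t v) 7 := by
  simp only [U3_0, U3_1, U3_2, U3_3, U3_4, U3_5, U3_6, U3_7, U3_8, U3_9, U3_10, U3_11, U3_12, U3_13, U5_0, U5_1, U5_2, U5_3, U5_4, U5_5, U5_6, U5_7, U5_8, U5_9, U5_10, U5_11, U5_12, U5_13]
  ring

theorem comm35_8 (t : Fin 9 → R) (v : Fin 14 → R) :
    U3 t (U5 t v) 8 = U5 t (U3 t v) 8 := by
  simp only [U3_0, U3_1, U3_2, U3_3, U3_4, U3_5, U3_6, U3_7, U3_8, U3_9, U3_10, U3_11, U3_12, U3_13, U5_0, U5_1, U5_2, U5_3, U5_4, U5_5, U5_6, U5_7, U5_8, U5_9, U5_10, U5_11, U5_12, U5_13]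
  ring

theorem comm35_9 (t : Fin 9 → R) (v : Fin 14 → R) :
    U3 t (U5 t v) 9 = U5 t (U3 t v) 9 := by
  simp only [U3_0, U3_1, U3_2, U3_3, U3_4, U3_5, U3_6, U3_7, U3_8, U3_9, U3_10, U3_11, U3_12, U3_13, U5_0, U5_1, U5_2, U5_3, U5_4, U5_5, U5_6, U5_7, U5_8, U5_9, U5_10, U5_11, U5_12, U5_13]
  ring

theorem comm35_10 (t : Fin 9 → R) (v : Fin 14 → R) :
    U3 t (U5 t v) 10 = U5 t (U3 t v) 10 := by
  simp only [U3_0, U3_1, U3_2, U3_3, U3_4, U3_5, U3_6, U3_7, U3_8, U3_9, U3_10, U3_11, U3_12, U3_13, U5_0, U5_1, U5_2, U5_3, U5_4, U5_5, U5_6, U5_7, U5_8, U5_9, U5_10, U5_11, U5_12, U5_13]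
  ring

theorem comm35_11 (t : Fin 9 → R) (v : Fin 14 → R) :
    U3 t (U5 t v) 11 = U5 t (U3 t v) 11 := by
  simp only [U3_0, U3_1, U3_2, U3_3, U3_4, U3_5, U3_6, U3_7, U3_8, U3_9, U3_10, U3_11, U3_12, U3_13, U5_0, U5_1, U5_2, U5_3, U5_4, U5_5, U5_6, U5_7, U5_8, U5_9, U5_10, U5_11, U5_12, U5_13]
  ring

theorem comm35_12 (t : Fin 9 → R) (v : Fin 14 → R) :
    U3 t (U5 t v) 12 = U5 t (U3 t v) 12 := by
  simp only [U3_0, U3_1, U3_2, U3_3, U3_4, U3_5, U3_6, U3_7, U3_8, U3_9, U3_10, U3_11, U3_12, U3_13, U5_0, U5_1, U5_2, U5_3, U5_4, U5_5, U5_6, U5_7, U5_8, U5_9, U5_10, U5_11, U5_12, U5_13]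
  ring

theorem comm35_13 (t : Fin 9 → R) (v : Fin 14 → R) :
    U3 t (U5 t v) 13 = U5 t (U3 t v) 13 := by
  simp only [U3_0, U3_1, U3_2, U3_3, U3_4, U3_5, U3_6, U3_7, U3_8, U3_9, U3_10, U3_11, U3_12, U3_13, U5_0, U5_1, U5_2, U5_3, U5_4, U5_5, U5_6, U5_7, U5_8, U5_9, U5_10, U5_11, U5_12, U5_13]
  ring

theorem comm35 (t : Fin 9 → R) (v : Fin 14 → R) :
    U3 t (U5 t v) = U5 t (U3 t v) := by
  refine funext fun i => ?_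
  fin_cases i
  exacts [comm35_0 t v, comm35_1 t v, comm35_2 t v, comm35_3 t v, comm35_4 t v, comm35_5 t v, comm35_6 t v, comm35_7 t v, comm35_8 t v, comm35_9 t v, comm35_10 t v, comm35_11 t v, comm35_12 t v, comm35_13 t v]

theorem comm45_0 (t : Fin 9 → R) (v : Fin 14 → R) :
    U4 t (U5 t v) 0 = U5 t (U4 t v) 0 := by
  simp only [U4_0, U4_1, U4_2, U4_3, U4_4, U4_5, U4_6, U4_7, U4_8, U4_9, U4_10, U4_11, U4_12, U4_13, U5_0, U5_1, U5_2, U5_3, U5_4, U5_5, U5_6, U5_7, U5_8, U5_9, U5_10, U5_11, U5_12, U5_13]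
  ring

theorem comm45_1 (t : Fin 9 → R) (v : Fin 14 → R) :
    U4 t (U5 t v) 1 = U5 t (U4 t v) 1 := by
  simp only [U4_0, U4_1, U4_2, U4_3, U4_4, U4_5, U4_6, U4_7, U4_8, U4_9, U4_10, U4_11, U4_12, U4_13, U5_0, U5_1, U5_2, U5_3, U5_4, U5_5, U5_6, U5_7, U5_8, U5_9, U5_10, U5_11, U5_12, U5_13]
  ring

theorem comm45_2 (t : Fin 9 → R) (v : Fin 14 → R) :
    U4 t (U5 t v) 2 = U5 t (U4 t v) 2 := by
  simp only [U4_0, U4_1, U4_2, U4_3, U4_4, U4_5, U4_6, U4_7, U4_8, U4_9, U4_10, U4_11, U4_12, U4_13, U5_0, U5_1, U5_2, U5_3, U5_4, U5_5, U5_6, U5_7, U5_8, U5_9, U5_10, U5_11, U5_12, U5_13]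
  ring

theorem comm45_3 (t : Fin 9 → R) (v : Fin 14 → R) :
    U4 t (U5 t v) 3 = U5 t (U4 t v) 3 := by
  simp only [U4_0, U4_1, U4_2, U4_3, U4_4, U4_5, U4_6, U4_7, U4_8, U4_9, U4_10, U4_11, U4_12, U4_13, U5_0, U5_1, U5_2, U5_3, U5_4, U5_5, U5_6, U5_7, U5_8, U5_9, U5_10, U5_11, U5_12, U5_13]
  ring

theorem comm45_4 (t : Fin 9 → R) (v : Fin 14 → R) :
    U4 t (U5 t v) 4 = U5 t (U4 t v) 4 := by
  simp only [U4_0, U4_1, U4_2, U4_3, U4_4, U4_5, U4_6, U4_7, U4_8, U4_9, U4_10, U4_11, U4_12, U4_13, U5_0, U5_1, U5_2, U5_3, U5_4, U5_5, U5_6, U5_7, U5_8, U5_9, U5_10, U5_11, U5_12, U5_13]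
  ring

theorem comm45_5 (t : Fin 9 → R) (v : Fin 14 → R) :
    U4 t (U5 t v) 5 = U5 t (U4 t v) 5 := by
  simp only [U4_0, U4_1, U4_2, U4_3, U4_4, U4_5, U4_6, U4_7, U4_8, U4_9, U4_10, U4_11, U4_12, U4_13, U5_0, U5_1, U5_2, U5_3, U5_4, U5_5, U5_6, U5_7, U5_8, U5_9, U5_10, U5_11, U5_12, U5_13]
  ring

theorem comm45_6 (t : Fin 9 → R) (v : Fin 14 → R) :
    U4 t (U5 t v) 6 = U5 t (U4 t v) 6 := by
  simp only [U4_0, U4_1, U4_2, U4_3, U4_4, U4_5, U4_6, U4_7, U4_8, U4_9, U4_10, U4_11, U4_12, U4_13, U5_0, U5_1, U5_2, U5_3, U5_4, U5_5, U5_6, U5_7, U5_8, U5_9, U5_10, U5_11, U5_12, U5_13]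
  ring

theorem comm45_7 (t : Fin 9 → R) (v : Fin 14 → R) :
    U4 t (U5 t v) 7 = U5 t (U4 t v) 7 := by
  simp only [U4_0, U4_1, U4_2, U4_3, U4_4, U4_5, U4_6, U4_7, U4_8, U4_9, U4_10, U4_11, U4_12, U4_13, U5_0, U5_1, U5_2, U5_3, U5_4, U5_5, U5_6, U5_7, U5_8, U5_9, U5_10, U5_11, U5_12, U5_13]
  ring

theorem comm45_8 (t : Fin 9 → R) (v : Fin 14 → R) :
    U4 t (U5 t v) 8 = U5 t (U4 t v) 8 := by
  simp only [U4_0, U4_1, U4_2, U4_3, U4_4, U4_5, U4_6, U4_7, U4_8, U4_9, U4_10, U4_11, U4_12, U4_13, U5_0, U5_1, U5_2, U5_3, U5_4, U5_5, U5_6, U5_7, U5_8, U5_9, U5_10, U5_11, U5_12, U5_13]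
  ring

theorem comm45_9 (t : Fin 9 → R) (v : Fin 14 → R) :
    U4 t (U5 t v) 9 = U5 t (U4 t v) 9 := by
  simp only [U4_0, U4_1, U4_2, U4_3, U4_4, U4_5, U4_6, U4_7, U4_8, U4_9, U4_10, U4_11, U4_12, U4_13, U5_0, U5_1, U5_2, U5_3, U5_4, U5_5, U5_6, U5_7, U5_8, U5_9, U5_10, U5_11, U5_12, U5_13]
  ring

theorem comm45_10 (t : Fin 9 → R) (v : Fin 14 → R) :
    U4 t (U5 t v) 10 = U5 t (U4 t v) 10 := by
  simp only [U4_0, U4_1, U4_2, U4_3, U4_4, U4_5, U4_6, U4_7, U4_8, U4_9, U4_10, U4_11, U4_12, U4_13, U5_0, U5_1, U5_2, U5_3, U5_4, U5_5, U5_6, U5_7, U5_8, U5_9, U5_10, U5_11, U5_12, U5_13]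
  ring

theorem comm45_11 (t : Fin 9 → R) (v : Fin 14 → R) :
    U4 t (U5 t v) 11 = U5 t (U4 t v) 11 := by
  simp only [U4_0, U4_1, U4_2, U4_3, U4_4, U4_5, U4_6, U4_7, U4_8, U4_9, U4_10, U4_11, U4_12, U4_13, U5_0, U5_1, U5_2, U5_3, U5_4, U5_5, U5_6, U5_7, U5_8, U5_9, U5_10, U5_11, U5_12, U5_13]
  ring

theorem comm45_12 (t : Fin 9 → R) (v : Fin 14 → R) :
    U4 t (U5 t v) 12 = U5 t (U4 t v) 12 := by
  simp only [U4_0, U4_1, U4_2, U4_3, U4_4, U4_5, U4_6, U4_7, U4_8, U4_9, U4_10, U4_11, U4_12, U4_13, U5_0, U5_1, U5_2, U5_3, U5_4, U5_5, U5_6, U5_7, U5_8, U5_9, U5_10, U5_11, U5_12, U5_13]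
  ring

theorem comm45_13 (t : Fin 9 → R) (v : Fin 14 → R) :
    U4 t (U5 t v) 13 = U5 t (U4 t v) 13 := by
  simp only [U4_0, U4_1, U4_2, U4_3, U4_4, U4_5, U4_6, U4_7, U4_8, U4_9, U4_10, U4_11, U4_12, U4_13, U5_0, U5_1, U5_2, U5_3, U5_4, U5_5, U5_6, U5_7, U5_8, U5_9, U5_10, U5_11, U5_12, U5_13]
  ring

theorem comm45 (t : Fin 9 → R) (v : Fin 14 → R) :
    U4 t (U5 t v) = U5 t (U4 t v) := by
  refine funext fun i => ?_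
  fin_cases i
  exacts [comm45_0 t v, comm45_1 t v, comm45_2 t v, comm45_3 t v, comm45_4 t v, comm45_5 t v, comm45_6 t v, comm45_7 t v, comm45_8 t v, comm45_9 t v, comm45_10 t v, comm45_11 t v, comm45_12 t v, comm45_13 t v]

end Pool.Agent.J6H65.Hilb4
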