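import Mathlib

set_option autoImplicit false

open AlgebraicGeometry CategoryTheory Limits

namespace Pool.Agent.J6H65.Hilb4

/-- The base scheme `Spec ℂ`. -/
noncomputable abbrev SpecC : Scheme.{0} := Spec (CommRingCat.of ℂ)

/-- A flat family, parametrised by the complex scheme `T`, of zero-dimensional closed subschemes of
length `n` of the complex scheme `X`: a closed subscheme `Z` of `X ×_ℂ T` which is finite, flat and
locally of finite presentation of degree `n` over `T`. -/
structure Family (n : ℕ) (X T : Over SpecC) where
  /-- The total space. -/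
  Z : Scheme.{0}
  /-- The projection to the parameter scheme. -/
  p : Z ⟶ T.left
  /-- The projection to the ambient scheme. -/
  u : Z ⟶ X.left
  w : u ≫ X.hom = p ≫ T.hom
  isFinite : IsFinite p
  flat : Flat p
  locallyOfFinitePresentation : LocallyOfFinitePresentation p
  degree : ∀ t : T.left, p.finrank t = n
  isClosedImmersion : IsClosedImmersion (pullback.lift u p w)

/-- The family `F` over `H` is universal: for every family `G` over a complex scheme `T` there is
exactly one morphism `φ : T ⟶ H` over `ℂ` such that `G` is the pullback of `F` along `φ`. In other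
words `H`, together with `F`, represents the Hilbert functor of `n` points of `X`. -/
def Family.IsUniversal {n : ℕ} {X H : Over SpecC} (F : Family n X H) : Prop :=
  ∀ (T : Over SpecC) (G : Family n X T), ∃! φ : T ⟶ H, ∃ ψ : G.Z ⟶ F.Z,
    IsPullback ψ G.p F.p φ.left ∧ ψ ≫ F.u = G.u

section projective

attribute [local instance] MvPolynomial.gradedAlgebra

/-- Projective space `ℙⁿ` over the complex numbers. -/
noncomputable def ProjSpace (n : ℕ) : Scheme.{0} :=
  Proj (MvPolynomial.homogeneousSubmodule (Fin (n + 1)) ℂ)

/-- The structure morphism of projective space. -/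
noncomputable def ProjSpace.toSpec (n : ℕ) : ProjSpace n ⟶ SpecC :=
  Proj.toSpecZero (MvPolynomial.homogeneousSubmodule (Fin (n + 1)) ℂ) ≫
    Spec.map (CommRingCat.ofHom
      (algebraMap ℂ (MvPolynomial.homogeneousSubmodule (Fin (n + 1)) ℂ 0)))

end projective

/-- A complex scheme is quasi-projective when it admits an immersion (over `ℂ`) into some
projective space. -/
def IsQuasiProjective (X : Over SpecC) : Prop :=
  ∃ (n : ℕ) (i : X.left ⟶ ProjSpace n), IsImmersion i ∧ i ≫ ProjSpace.toSpec n = X.hom

/-- A local ring is Cohen–Macaulay when it is Noetherian and its maximal ideal contains a regular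
sequence whose length is the Krull dimension of the ring. -/
def IsCohenMacaulayLocalRing (R : Type*) [CommRing R] [IsLocalRing R] : Prop :=
  IsNoetherianRing R ∧ ∃ rs : List R, (∀ r ∈ rs, r ∈ IsLocalRing.maximalIdeal R) ∧
    RingTheory.Sequence.IsRegular R rs ∧ ringKrullDim R = (rs.length : WithBot ℕ∞)

/-- A scheme is normal when all its local rings are integrally closed domains. -/
def IsNormalScheme (Y : Scheme.{0}) : Prop :=
  ∀ y : Y, IsDomain (Y.presheaf.stalk y) ∧ IsIntegrallyClosed (Y.presheaf.stalk y)

/-- A scheme is Cohen–Macaulay when all its local rings are Cohen–Macaulay local rings. -/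
def IsCohenMacaulayScheme (Y : Scheme.{0}) : Prop :=
  ∀ y : Y, IsCohenMacaulayLocalRing (Y.presheaf.stalk y)

end Pool.Agent.J6H65.Hilb4
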