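import Pool.Agent.J6H65.Hilb4.Smooth

set_option autoImplicit false

namespace Pool.Agent.J6H65.Hilb4

open IsLocalRing Polynomial

theorem normal_of_retract {A B : Type*} [CommRing A] [CommRing B] (i : A →+* B) (π : B →+* A)
    (h : ∀ a, π (i a) = a) (hB : IsDomain B ∧ IsIntegrallyClosed B) :
    IsDomain A ∧ IsIntegrallyClosed A := by
  obtain ⟨h1, h2⟩ := hB
  have hi : Function.Injective i := Function.LeftInverse.injective h
  have hA : IsDomain A := hi.isDomain i
  refine ⟨hA, ?_⟩
  rw [isIntegrallyClosed_iff (FractionRing A)]
  intro x hx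
  obtain ⟨a, b, hb, rfl⟩ := IsFractionRing.div_surjective (A := A) x
  have hb0 : b ≠ 0 := nonZeroDivisors.ne_zero hb
  let j : FractionRing A →+* FractionRing B := IsFractionRing.map hi
  have hj : ∀ a, j (algebraMap A _ a) = algebraMap B _ (i a) := fun a => by
    simp [j, IsFractionRing.map]
  have hint : IsIntegral B (j (algebraMap A (FractionRing A) a / algebraMap A (FractionRing A) b)) := by
    obtain ⟨p, hp, hp2⟩ := hx
    refine ⟨p.map i, hp.map i, ?_⟩
    rw [Polynomial.eval₂_map]
    have : (algebraMap B (FractionRing B)).comp i = j.comp (algebraMap A (FractionRing A)) := by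
      ext a; simp [hj]
    rw [this, ← Polynomial.hom_eval₂, hp2, map_zero]
  obtain ⟨c, hc⟩ := (isIntegrallyClosed_iff (FractionRing B)).mp h2 hint
  rw [map_div₀, hj, hj] at hc
  have hib : algebraMap B (FractionRing B) (i b) ≠ 0 := by
    rw [map_ne_zero_iff _ (IsFractionRing.injective B (FractionRing B)), map_ne_zero_iff _ hi]
    exact hb0
  rw [eq_div_iff hib, ← map_mul] at hc
  have hc' := IsFractionRing.injective B (FractionRing B) hc
  have hc2 := congrArg π hc'
  rw [map_mul, h, h] at hc2
  refine ⟨π c, ?_⟩
  have hb1 : algebraMap A (FractionRing A) b ≠ 0 := by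
    rw [map_ne_zero_iff _ (IsFractionRing.injective A (FractionRing A))]
    exact hb0
  rw [eq_div_iff hb1, ← map_mul, hc2]

theorem normal_retract_ring {A B : Type*} [CommRing A] [CommRing B] (i : A →+* B) (π : B →+* A)
    (h : ∀ a, π (i a) = a) (hB : IsNormalRing' B) : IsNormalRing' A := by
  intro p hp
  let q := p.comap π
  have hiq : p = q.comap i := by
    ext a; simp [q, Ideal.mem_comap, h]
  refine normal_of_retract (Localization.localRingHom p q i hiq)
    (Localization.localRingHom q p π rfl) (fun a => ?_) (hB q)
  have := Localization.localRingHom_comp p q p i hiq π rfl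
  have h2 : Localization.localRingHom p p (π.comp i)
      (by rw [← Ideal.comap_comap, ← hiq]) = RingHom.id _ := by
    have : π.comp i = RingHom.id A := RingHom.ext h
    simp only [this]
    exact Localization.localRingHom_id p
  have h3 := congrArg (fun f : _ →+* _ => f a) (this.symm.trans h2)
  simpa using h3

theorem cm_one_variable {B : Type} [CommRing B] (b : B) (q : Ideal B) [q.IsPrime]
    (Q : Ideal B[X]) [Q.IsPrime] (hQ : Q = q.comap (Polynomial.evalRingHom b))
    (h : IsCohenMacaulayLocalRing (Localization.AtPrime Q)) :
    IsCohenMacaulayLocalRing (Localization.AtPrime q) := by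
  let C := Localization.AtPrime Q
  let φ : C →+* Localization.AtPrime q := Localization.localRingHom Q q (Polynomial.evalRingHom b) hQ
  let x : C := algebraMap B[X] C (X - Polynomial.C b)
  have hφ : ∀ f : B[X], φ (algebraMap B[X] C f) = algebraMap B _ (f.eval b) := fun f => by
    simp only [φ, C]
    rw [Localization.localRingHom_to_map]
    rfl
  have hxmem : x ∈ maximalIdeal C := by
    refine (IsLocalization.AtPrime.to_map_mem_maximal_iff C Q _).mpr ?_
    rw [hQ, Ideal.mem_comap]
    simp
  have hreg : IsSMulRegular C x := by
    have h0 : IsSMulRegular B[X] (X - Polynomial.C b) := by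
      intro f g hfg
      exact (monic_X_sub_C b).isRegular.left hfg
    have := RingTheory.Sequence.IsWeaklyRegular.of_isLocalization C Q.primeCompl
      (rs := [X - Polynomial.C b]) (by simpa using h0)
    exact (RingTheory.Sequence.isWeaklyRegular_singleton_iff C x).mp this
  have hsurj : Function.Surjective φ := by
    intro z
    obtain ⟨a, s, rfl⟩ := IsLocalization.exists_mk'_eq q.primeCompl z
    have hs : Polynomial.C (s : B) ∈ Q.primeCompl := by
      intro hmem
      have hmem' : Polynomial.C (s : B) ∈ Q := hmem
      rw [hQ, Ideal.mem_comap] at hmem'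
      exact s.2 (by simpa using hmem')
    refine ⟨IsLocalization.mk' C (Polynomial.C a) (⟨Polynomial.C (s : B), hs⟩ : Q.primeCompl), ?_⟩
    simp only [φ, C]
    rw [Localization.localRingHom_mk']
    congr 1
    · simp
    · ext; simp
  have hker : RingHom.ker φ = Ideal.span {x} := by
    apply le_antisymm
    · intro y hy
      rw [RingHom.mem_ker] at hy
      obtain ⟨f, s, rfl⟩ := IsLocalization.exists_mk'_eq Q.primeCompl y
      simp only [φ, C] at hy
      rw [Localization.localRingHom_mk', IsLocalization.mk'_eq_zero_iff] at hy
      obtain ⟨t, ht⟩ := hy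
      have ht' : (t : B) * f.eval b = 0 := ht
      have hdvd : (X - Polynomial.C b) ∣ Polynomial.C (t : B) * f := by
        rw [Polynomial.dvd_iff_isRoot]
        simp [ht']
      have hs : Polynomial.C (t : B) ∈ Q.primeCompl := by
        intro hmem
        have hmem' : Polynomial.C (t : B) ∈ Q := hmem
        rw [hQ, Ideal.mem_comap] at hmem'
        exact t.2 (by simpa using hmem')
      have h1 : algebraMap B[X] C (Polynomial.C (t : B) * f) ∈ Ideal.span {x} := by
        rw [Ideal.mem_span_singleton]
        exact map_dvd (algebraMap B[X] C) hdvd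
      rw [map_mul] at h1
      have hu : IsUnit (algebraMap B[X] C (Polynomial.C (t : B))) :=
        IsLocalization.map_units C (⟨_, hs⟩ : Q.primeCompl)
      have h2 : algebraMap B[X] C f ∈ Ideal.span {x} := by
        obtain ⟨u, hu⟩ := hu
        rw [← hu] at h1
        have := Ideal.mul_mem_left (Ideal.span {x}) (↑u⁻¹ : C) h1
        rwa [← mul_assoc, Units.inv_mul, one_mul] at this
      rw [IsLocalization.mk'_eq_mul_mk'_one]
      exact Ideal.mul_mem_right _ _ h2
    · rw [Ideal.span_singleton_le_iff_mem, RingHom.mem_ker]
      simp only [x]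
      rw [hφ]
      simp
  let e : (C ⧸ Ideal.span {x}) ≃+* Localization.AtPrime q :=
    (Ideal.quotEquivOfEq hker.symm).trans (RingHom.quotientKerEquivOfSurjective hsurj)
  have hloc : IsLocalRing (C ⧸ Ideal.span {x}) := e.symm.isLocalRing
  exact (h.quotient x hxmem hreg).of_ringEquiv e

/-- Cohen–Macaulayness descends from a polynomial ring (at a prime cut out by a point). -/
theorem cm_mvPolynomial {R : Type} [CommRing R] (n : ℕ) (a : Fin n → R) (p : Ideal R) [p.IsPrime]
    (Q : Ideal (MvPolynomial (Fin n) R)) [Q.IsPrime] (hQ : Q = p.comap (MvPolynomial.eval a))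
    (h : IsCohenMacaulayLocalRing (Localization.AtPrime Q)) :
    IsCohenMacaulayLocalRing (Localization.AtPrime p) := by
  induction n with
  | zero =>
    let e := MvPolynomial.isEmptyRingEquiv R (Fin 0)
    have hcomp : ∀ f, MvPolynomial.eval a f = e f := by
      intro f
      have : (MvPolynomial.eval a) = (e : MvPolynomial (Fin 0) R →+* R) := by
        ext i
        · change MvPolynomial.eval a (MvPolynomial.C i) = e (MvPolynomial.C i)
          rw [MvPolynomial.eval_C]
          exact (e.apply_symm_apply i).symm
        · exact i.elim0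
      rw [this]; rfl
    refine h.of_ringEquiv (IsLocalization.ringEquivOfRingEquiv (Localization.AtPrime Q)
      (Localization.AtPrime p) e (M := Q.primeCompl) (T := p.primeCompl) ?_)
    ext x
    rw [Submonoid.mem_map]
    constructor
    · rintro ⟨f, hf, rfl⟩
      intro h2
      apply hf
      rw [hQ]
      change MvPolynomial.eval a f ∈ p
      rw [hcomp]
      exact h2
    · intro hx
      refine ⟨e.symm x, ?_, by simp⟩
      intro h2
      apply hx
      have h3 : e.symm x ∈ Q := h2
      rw [hQ, Ideal.mem_comap, hcomp] at h3
      simpa using h3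
  | succ n ih =>
    let a' : Fin n → R := fun i => a i.succ
    let Q' : Ideal (MvPolynomial (Fin n) R) := p.comap (MvPolynomial.eval a')
    have hQ' : Q'.IsPrime := Ideal.comap_isPrime _ _
    refine ih a' Q' rfl ?_
    let e := (MvPolynomial.finSuccEquiv R n).toRingEquiv
    let b : MvPolynomial (Fin n) R := MvPolynomial.C (a 0)
    let P : Ideal (Polynomial (MvPolynomial (Fin n) R)) := Q'.comap (Polynomial.evalRingHom b)
    have hP : P.IsPrime := Ideal.comap_isPrime _ _
    refine cm_one_variable b Q' P rfl ?_
    have hcomp : ∀ f, MvPolynomial.eval a f =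
        MvPolynomial.eval a' (Polynomial.eval b (e f)) := by
      intro f
      have : (MvPolynomial.eval a) = ((MvPolynomial.eval a').comp
          (Polynomial.evalRingHom b)).comp (e : MvPolynomial (Fin (n+1)) R →+* _) := by
        ext i
        · simp [e, MvPolynomial.finSuccEquiv_apply]
        · refine Fin.cases ?_ (fun i => ?_) i
          · change MvPolynomial.eval a (MvPolynomial.X 0) = MvPolynomial.eval a' (Polynomial.eval b
              (MvPolynomial.finSuccEquiv R n (MvPolynomial.X 0)))
            rw [MvPolynomial.finSuccEquiv_X_zero]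
            simp [b]
          · change MvPolynomial.eval a (MvPolynomial.X i.succ) = MvPolynomial.eval a'
              (Polynomial.eval b (MvPolynomial.finSuccEquiv R n (MvPolynomial.X i.succ)))
            rw [MvPolynomial.finSuccEquiv_X_succ]
            simp [a']
      rw [this]; rfl
    refine h.of_ringEquiv (IsLocalization.ringEquivOfRingEquiv (Localization.AtPrime Q)
      (Localization.AtPrime P) e (M := Q.primeCompl) (T := P.primeCompl) ?_)
    ext x
    rw [Submonoid.mem_map]
    constructor
    · rintro ⟨f, hf, rfl⟩
      intro h2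
      apply hf
      rw [hQ]
      change MvPolynomial.eval a f ∈ p
      rw [hcomp]
      exact h2
    · intro hx
      refine ⟨e.symm x, ?_, by simp⟩
      intro h2
      apply hx
      have h3 : e.symm x ∈ Q := h2
      rw [hQ, Ideal.mem_comap, hcomp] at h3
      change MvPolynomial.eval a' (Polynomial.eval b x) ∈ p
      simpa using h3

/-- Descent of normality and Cohen–Macaulayness from a localized polynomial ring with a rational
point. -/
theorem descent {R : Type} [CommRing R] [IsNoetherianRing R] (n : ℕ)
    (d : MvPolynomial (Fin n) R) (a : Fin n → R) (hd : IsUnit (MvPolynomial.eval a d))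
    (hN : IsNormalRing' (Localization.Away d)) (hC : IsCohenMacaulayRing (Localization.Away d)) :
    IsNormalRing' R ∧ IsCohenMacaulayRing R := by
  constructor
  · refine normal_retract_ring ((algebraMap (MvPolynomial (Fin n) R) (Localization.Away d)).comp
      MvPolynomial.C) (IsLocalization.Away.lift d (g := MvPolynomial.eval a) hd) (fun r => ?_) hN
    rw [RingHom.comp_apply, IsLocalization.Away.lift_eq, MvPolynomial.eval_C]
  · refine ⟨inferInstance, fun p hp => ?_⟩
    let Q := p.comap (MvPolynomial.eval a)
    have hQ : Q.IsPrime := Ideal.comap_isPrime _ _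
    have hdQ : d ∉ Q := by
      intro h
      exact hp.ne_top (Ideal.eq_top_of_isUnit_mem _ h hd)
    obtain ⟨Q', hQ', ⟨e⟩⟩ := atPrime_away d Q hdQ
    exact cm_mvPolynomial n a p Q rfl ((hC.2 Q').of_ringEquiv e.toRingEquiv)

end Pool.Agent.J6H65.Hilb4
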