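import Pool.Agent.J6H65.Hilb4.Table

set_option autoImplicit false

namespace Pool.Agent.J6H65.Hilb4

/-- Pluecker data: fifteen elements satisfying the fifteen Pluecker relations of `G(2,6)`. -/
@[ext]
structure Plk (R : Type*) [CommRing R] where
  p12 : R
  p13 : R
  p14 : R
  p15 : R
  p16 : R
  p23 : R
  p24 : R
  p25 : R
  p26 : R
  p34 : R
  p35 : R
  p36 : R
  p45 : R
  p46 : R
  p56 : R
  r1234 : p12 * p34 - p13 * p24 + p14 * p23 = 0
  r1235 : p12 * p35 - p13 * p25 + p15 * p23 = 0
  r1236 : p12 * p36 - p13 * p26 + p16 * p23 = 0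
  r1245 : p12 * p45 - p14 * p25 + p15 * p24 = 0
  r1246 : p12 * p46 - p14 * p26 + p16 * p24 = 0
  r1256 : p12 * p56 - p15 * p26 + p16 * p25 = 0
  r1345 : p13 * p45 - p14 * p35 + p15 * p34 = 0
  r1346 : p13 * p46 - p14 * p36 + p16 * p34 = 0
  r1356 : p13 * p56 - p15 * p36 + p16 * p35 = 0
  r1456 : p14 * p56 - p15 * p46 + p16 * p45 = 0
  r2345 : p23 * p45 - p24 * p35 + p25 * p34 = 0
  r2346 : p23 * p46 - p24 * p36 + p26 * p34 = 0
  r2356 : p23 * p56 - p25 * p36 + p26 * p35 = 0
  r2456 : p24 * p56 - p25 * p46 + p26 * p45 = 0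
  r3456 : p34 * p56 - p35 * p46 + p36 * p45 = 0

namespace Plk

variable {R S T : Type*} [CommRing R] [CommRing S] [CommRing T]

/-- Base change of Pluecker data. -/
def map (f : R →+* S) (x : Plk R) : Plk S where
  p12 := f x.p12
  p13 := f x.p13
  p14 := f x.p14
  p15 := f x.p15
  p16 := f x.p16
  p23 := f x.p23
  p24 := f x.p24
  p25 := f x.p25
  p26 := f x.p26
  p34 := f x.p34
  p35 := f x.p35
  p36 := f x.p36
  p45 := f x.p45
  p46 := f x.p46
  p56 := f x.p56
  r1234 := by simpa using congrArg f x.r1234
  r1235 := by simpa using congrArg f x.r1235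
  r1236 := by simpa using congrArg f x.r1236
  r1245 := by simpa using congrArg f x.r1245
  r1246 := by simpa using congrArg f x.r1246
  r1256 := by simpa using congrArg f x.r1256
  r1345 := by simpa using congrArg f x.r1345
  r1346 := by simpa using congrArg f x.r1346
  r1356 := by simpa using congrArg f x.r1356
  r1456 := by simpa using congrArg f x.r1456
  r2345 := by simpa using congrArg f x.r2345
  r2346 := by simpa using congrArg f x.r2346
  r2356 := by simpa using congrArg f x.r2356
  r2456 := by simpa using congrArg f x.r2456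
  r3456 := by simpa using congrArg f x.r3456

theorem map_map (f : R →+* S) (g : S →+* T) (x : Plk R) : (x.map f).map g = x.map (g.comp f) := by
  ext <;> rfl

theorem map_id (x : Plk R) : x.map (RingHom.id R) = x := by
  ext <;> rfl

/-- The fifteen coordinates as a vector. -/
def vec (x : Plk R) : Fin 15 → R := ![x.p12, x.p13, x.p14, x.p15, x.p16, x.p23, x.p24, x.p25, x.p26, x.p34, x.p35, x.p36, x.p45, x.p46, x.p56]

end Plk

open MvPolynomial in
/-- The fifteen Pluecker polynomials. -/
noncomputable def relPoly (k : Type*) [CommRing k] : Fin 15 → MvPolynomial (Fin 15) k := ![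
  X 0 * X 9 - X 1 * X 6 + X 2 * X 5,
  X 0 * X 10 - X 1 * X 7 + X 3 * X 5,
  X 0 * X 11 - X 1 * X 8 + X 4 * X 5,
  X 0 * X 12 - X 2 * X 7 + X 3 * X 6,
  X 0 * X 13 - X 2 * X 8 + X 4 * X 6,
  X 0 * X 14 - X 3 * X 8 + X 4 * X 7,
  X 1 * X 12 - X 2 * X 10 + X 3 * X 9,
  X 1 * X 13 - X 2 * X 11 + X 4 * X 9,
  X 1 * X 14 - X 3 * X 11 + X 4 * X 10,
  X 2 * X 14 - X 3 * X 13 + X 4 * X 12,
  X 5 * X 12 - X 6 * X 10 + X 7 * X 9,
  X 5 * X 13 - X 6 * X 11 + X 8 * X 9,
  X 5 * X 14 - X 7 * X 11 + X 8 * X 10,
  X 6 * X 14 - X 7 * X 13 + X 8 * X 12,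
  X 9 * X 14 - X 10 * X 13 + X 11 * X 12]

/-- The coordinate ring of the cone over the Grassmannian `G(2,6)`. -/
def PL (k : Type*) [CommRing k] : Type _ :=
  MvPolynomial (Fin 15) k ⧸ Ideal.span (Set.range (relPoly k))

namespace PL

variable (k : Type*) [CommRing k]

noncomputable instance : CommRing (PL k) := inferInstanceAs (CommRing (_ ⧸ _))

noncomputable instance : Algebra k (PL k) := inferInstanceAs (Algebra k (_ ⧸ _))

/-- The projection from the polynomial ring. -/
noncomputable def proj : MvPolynomial (Fin 15) k →ₐ[k] PL k :=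
  Ideal.Quotient.mkₐ k (Ideal.span (Set.range (relPoly k)))

theorem proj_surjective : Function.Surjective (proj k) := Ideal.Quotient.mk_surjective

theorem proj_rel (i : Fin 15) : proj k (relPoly k i) = 0 :=
  Ideal.Quotient.eq_zero_iff_mem.mpr (Ideal.subset_span ⟨i, rfl⟩)

/-- The universal Pluecker data. -/
noncomputable def univ : Plk (PL k) where
  p12 := proj k (MvPolynomial.X 0)
  p13 := proj k (MvPolynomial.X 1)
  p14 := proj k (MvPolynomial.X 2)
  p15 := proj k (MvPolynomial.X 3)
  p16 := proj k (MvPolynomial.X 4)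
  p23 := proj k (MvPolynomial.X 5)
  p24 := proj k (MvPolynomial.X 6)
  p25 := proj k (MvPolynomial.X 7)
  p26 := proj k (MvPolynomial.X 8)
  p34 := proj k (MvPolynomial.X 9)
  p35 := proj k (MvPolynomial.X 10)
  p36 := proj k (MvPolynomial.X 11)
  p45 := proj k (MvPolynomial.X 12)
  p46 := proj k (MvPolynomial.X 13)
  p56 := proj k (MvPolynomial.X 14)
  r1234 := by
    have := proj_rel k 0
    simpa [relPoly] using this
  r1235 := by
    have := proj_rel k 1
    simpa [relPoly] using this
  r1236 := by
    have := proj_rel k 2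
    simpa [relPoly] using this
  r1245 := by
    have := proj_rel k 3
    simpa [relPoly] using this
  r1246 := by
    have := proj_rel k 4
    simpa [relPoly] using this
  r1256 := by
    have := proj_rel k 5
    simpa [relPoly] using this
  r1345 := by
    have := proj_rel k 6
    simpa [relPoly] using this
  r1346 := by
    have := proj_rel k 7
    simpa [relPoly] using this
  r1356 := by
    have := proj_rel k 8
    simpa [relPoly] using this
  r1456 := by
    have := proj_rel k 9
    simpa [relPoly] using this
  r2345 := by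
    have := proj_rel k 10
    simpa [relPoly] using this
  r2346 := by
    have := proj_rel k 11
    simpa [relPoly] using this
  r2356 := by
    have := proj_rel k 12
    simpa [relPoly] using this
  r2456 := by
    have := proj_rel k 13
    simpa [relPoly] using this
  r3456 := by
    have := proj_rel k 14
    simpa [relPoly] using this

variable {k}

/-- The universal property of `PL k`. -/
noncomputable def lift {A : Type*} [CommRing A] [Algebra k A] (x : Plk A) : PL k →ₐ[k] A :=
  Ideal.Quotient.liftₐ _ (MvPolynomial.aeval x.vec) (by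
    intro a ha
    have : Ideal.span (Set.range (relPoly k)) ≤
        RingHom.ker (MvPolynomial.aeval x.vec : MvPolynomial (Fin 15) k →ₐ[k] A) := by
      rw [Ideal.span_le]
      rintro _ ⟨i, rfl⟩
      rw [SetLike.mem_coe, RingHom.mem_ker]
      fin_cases i
      · simpa [relPoly, Plk.vec] using x.r1234
      · simpa [relPoly, Plk.vec] using x.r1235
      · simpa [relPoly, Plk.vec] using x.r1236
      · simpa [relPoly, Plk.vec] using x.r1245
      · simpa [relPoly, Plk.vec] using x.r1246
      · simpa [relPoly, Plk.vec] using x.r1256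
      · simpa [relPoly, Plk.vec] using x.r1345
      · simpa [relPoly, Plk.vec] using x.r1346
      · simpa [relPoly, Plk.vec] using x.r1356
      · simpa [relPoly, Plk.vec] using x.r1456
      · simpa [relPoly, Plk.vec] using x.r2345
      · simpa [relPoly, Plk.vec] using x.r2346
      · simpa [relPoly, Plk.vec] using x.r2356
      · simpa [relPoly, Plk.vec] using x.r2456
      · simpa [relPoly, Plk.vec] using x.r3456
    exact this ha)

theorem lift_proj {A : Type*} [CommRing A] [Algebra k A] (x : Plk A) (f : MvPolynomial (Fin 15) k) :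
    lift x (proj k f) = MvPolynomial.aeval x.vec f := rfl

theorem map_lift {A : Type*} [CommRing A] [Algebra k A] (x : Plk A) :
    (univ k).map (lift x : PL k →ₐ[k] A).toRingHom = x := by
  ext <;> simp [Plk.map, univ, lift_proj, Plk.vec]

theorem algHom_ext {A : Type*} [CommRing A] [Algebra k A] {f g : PL k →ₐ[k] A}
    (h : (univ k).map f.toRingHom = (univ k).map g.toRingHom) : f = g := by
  have : f.comp (proj k) = g.comp (proj k) := by
    apply MvPolynomial.algHom_ext
    intro i
    fin_cases i
    · exact congrArg Plk.p12 h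
    · exact congrArg Plk.p13 h
    · exact congrArg Plk.p14 h
    · exact congrArg Plk.p15 h
    · exact congrArg Plk.p16 h
    · exact congrArg Plk.p23 h
    · exact congrArg Plk.p24 h
    · exact congrArg Plk.p25 h
    · exact congrArg Plk.p26 h
    · exact congrArg Plk.p34 h
    · exact congrArg Plk.p35 h
    · exact congrArg Plk.p36 h
    · exact congrArg Plk.p45 h
    · exact congrArg Plk.p46 h
    · exact congrArg Plk.p56 h
  ext x
  obtain ⟨y, rfl⟩ := proj_surjective k x
  exact DFunLike.congr_fun this y

end PL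

end Pool.Agent.J6H65.Hilb4
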