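import Pool.Agent.J6H65.Hilb4.Lin
import Pool.Agent.J6H65.Hilb4.Plk

set_option autoImplicit false
set_option linter.unusedSimpArgs false
set_option linter.unusedVariables false

namespace Pool.Agent.J6H65.Hilb4

section endo

variable {R : Type*} [CommRing R] (t : Fin 9 → R)

theorem commE01 : (UL0 t * UL1 t : Module.End R (Fin 14 → R)) = UL1 t * UL0 t :=
  LinearMap.ext fun v => comm01 t v

theorem commE02 : (UL0 t * UL2 t : Module.End R (Fin 14 → R)) = UL2 t * UL0 t :=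
  LinearMap.ext fun v => comm02 t v

theorem commE03 : (UL0 t * UL3 t : Module.End R (Fin 14 → R)) = UL3 t * UL0 t :=
  LinearMap.ext fun v => comm03 t v

theorem commE04 : (UL0 t * UL4 t : Module.End R (Fin 14 → R)) = UL4 t * UL0 t :=
  LinearMap.ext fun v => comm04 t v

theorem commE05 : (UL0 t * UL5 t : Module.End R (Fin 14 → R)) = UL5 t * UL0 t :=
  LinearMap.ext fun v => comm05 t v

theorem commE12 : (UL1 t * UL2 t : Module.End R (Fin 14 → R)) = UL2 t * UL1 t :=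
  LinearMap.ext fun v => comm12 t v

theorem commE13 : (UL1 t * UL3 t : Module.End R (Fin 14 → R)) = UL3 t * UL1 t :=
  LinearMap.ext fun v => comm13 t v

theorem commE14 : (UL1 t * UL4 t : Module.End R (Fin 14 → R)) = UL4 t * UL1 t :=
  LinearMap.ext fun v => comm14 t v

theorem commE15 : (UL1 t * UL5 t : Module.End R (Fin 14 → R)) = UL5 t * UL1 t :=
  LinearMap.ext fun v => comm15 t v

theorem commE23 : (UL2 t * UL3 t : Module.End R (Fin 14 → R)) = UL3 t * UL2 t :=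
  LinearMap.ext fun v => comm23 t v

theorem commE24 : (UL2 t * UL4 t : Module.End R (Fin 14 → R)) = UL4 t * UL2 t :=
  LinearMap.ext fun v => comm24 t v

theorem commE25 : (UL2 t * UL5 t : Module.End R (Fin 14 → R)) = UL5 t * UL2 t :=
  LinearMap.ext fun v => comm25 t v

theorem commE34 : (UL3 t * UL4 t : Module.End R (Fin 14 → R)) = UL4 t * UL3 t :=
  LinearMap.ext fun v => comm34 t v

theorem commE35 : (UL3 t * UL5 t : Module.End R (Fin 14 → R)) = UL5 t * UL3 t :=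
  LinearMap.ext fun v => comm35 t v

theorem commE45 : (UL4 t * UL5 t : Module.End R (Fin 14 → R)) = UL5 t * UL4 t :=
  LinearMap.ext fun v => comm45 t v

/-- The six commuting operators. -/
def UL : Fin 6 → Module.End R (Fin 14 → R)
  | 0 => UL0 t
  | 1 => UL1 t
  | 2 => UL2 t
  | 3 => UL3 t
  | 4 => UL4 t
  | 5 => UL5 t

theorem UL_comm : ∀ a b : Fin 6, UL t a * UL t b = UL t b * UL t a
  | 0, 0 => rfl
  | 0, 1 => commE01 t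
  | 0, 2 => commE02 t
  | 0, 3 => commE03 t
  | 0, 4 => commE04 t
  | 0, 5 => commE05 t
  | 1, 0 => (commE01 t).symm
  | 1, 1 => rfl
  | 1, 2 => commE12 t
  | 1, 3 => commE13 t
  | 1, 4 => commE14 t
  | 1, 5 => commE15 t
  | 2, 0 => (commE02 t).symm
  | 2, 1 => (commE12 t).symm
  | 2, 2 => rfl
  | 2, 3 => commE23 t
  | 2, 4 => commE24 t
  | 2, 5 => commE25 t
  | 3, 0 => (commE03 t).symm
  | 3, 1 => (commE13 t).symm
  | 3, 2 => (commE23 t).symm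
  | 3, 3 => rfl
  | 3, 4 => commE34 t
  | 3, 5 => commE35 t
  | 4, 0 => (commE04 t).symm
  | 4, 1 => (commE14 t).symm
  | 4, 2 => (commE24 t).symm
  | 4, 3 => (commE34 t).symm
  | 4, 4 => rfl
  | 4, 5 => commE45 t
  | 5, 0 => (commE05 t).symm
  | 5, 1 => (commE15 t).symm
  | 5, 2 => (commE25 t).symm
  | 5, 3 => (commE35 t).symm
  | 5, 4 => (commE45 t).symm
  | 5, 5 => rfl

/-- The standard basis vectors. -/
def E (j : Fin 14) : Fin 14 → R := fun k => if k = j then 1 else 0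

theorem E0_0 : (E 0 : Fin 14 → R) 0 = 1 := rfl

theorem E0_1 : (E 0 : Fin 14 → R) 1 = 0 := rfl

theorem E0_2 : (E 0 : Fin 14 → R) 2 = 0 := rfl

theorem E0_3 : (E 0 : Fin 14 → R) 3 = 0 := rfl

theorem E0_4 : (E 0 : Fin 14 → R) 4 = 0 := rfl

theorem E0_5 : (E 0 : Fin 14 → R) 5 = 0 := rfl

theorem E0_6 : (E 0 : Fin 14 → R) 6 = 0 := rfl

theorem E0_7 : (E 0 : Fin 14 → R) 7 = 0 := rfl

theorem E0_8 : (E 0 : Fin 14 → R) 8 = 0 := rfl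

theorem E0_9 : (E 0 : Fin 14 → R) 9 = 0 := rfl

theorem E0_10 : (E 0 : Fin 14 → R) 10 = 0 := rfl

theorem E0_11 : (E 0 : Fin 14 → R) 11 = 0 := rfl

theorem E0_12 : (E 0 : Fin 14 → R) 12 = 0 := rfl

theorem E0_13 : (E 0 : Fin 14 → R) 13 = 0 := rfl

theorem E1_0 : (E 1 : Fin 14 → R) 0 = 0 := rfl

theorem E1_1 : (E 1 : Fin 14 → R) 1 = 1 := rfl

theorem E1_2 : (E 1 : Fin 14 → R) 2 = 0 := rfl

theorem E1_3 : (E 1 : Fin 14 → R) 3 = 0 := rfl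

theorem E1_4 : (E 1 : Fin 14 → R) 4 = 0 := rfl

theorem E1_5 : (E 1 : Fin 14 → R) 5 = 0 := rfl

theorem E1_6 : (E 1 : Fin 14 → R) 6 = 0 := rfl

theorem E1_7 : (E 1 : Fin 14 → R) 7 = 0 := rfl

theorem E1_8 : (E 1 : Fin 14 → R) 8 = 0 := rfl

theorem E1_9 : (E 1 : Fin 14 → R) 9 = 0 := rfl

theorem E1_10 : (E 1 : Fin 14 → R) 10 = 0 := rfl

theorem E1_11 : (E 1 : Fin 14 → R) 11 = 0 := rfl

theorem E1_12 : (E 1 : Fin 14 → R) 12 = 0 := rfl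

theorem E1_13 : (E 1 : Fin 14 → R) 13 = 0 := rfl

theorem E2_0 : (E 2 : Fin 14 → R) 0 = 0 := rfl

theorem E2_1 : (E 2 : Fin 14 → R) 1 = 0 := rfl

theorem E2_2 : (E 2 : Fin 14 → R) 2 = 1 := rfl

theorem E2_3 : (E 2 : Fin 14 → R) 3 = 0 := rfl

theorem E2_4 : (E 2 : Fin 14 → R) 4 = 0 := rfl

theorem E2_5 : (E 2 : Fin 14 → R) 5 = 0 := rfl

theorem E2_6 : (E 2 : Fin 14 → R) 6 = 0 := rfl

theorem E2_7 : (E 2 : Fin 14 → R) 7 = 0 := rfl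

theorem E2_8 : (E 2 : Fin 14 → R) 8 = 0 := rfl

theorem E2_9 : (E 2 : Fin 14 → R) 9 = 0 := rfl

theorem E2_10 : (E 2 : Fin 14 → R) 10 = 0 := rfl

theorem E2_11 : (E 2 : Fin 14 → R) 11 = 0 := rfl

theorem E2_12 : (E 2 : Fin 14 → R) 12 = 0 := rfl

theorem E2_13 : (E 2 : Fin 14 → R) 13 = 0 := rfl

theorem E3_0 : (E 3 : Fin 14 → R) 0 = 0 := rfl

theorem E3_1 : (E 3 : Fin 14 → R) 1 = 0 := rfl

theorem E3_2 : (E 3 : Fin 14 → R) 2 = 0 := rfl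

theorem E3_3 : (E 3 : Fin 14 → R) 3 = 1 := rfl

theorem E3_4 : (E 3 : Fin 14 → R) 4 = 0 := rfl

theorem E3_5 : (E 3 : Fin 14 → R) 5 = 0 := rfl

theorem E3_6 : (E 3 : Fin 14 → R) 6 = 0 := rfl

theorem E3_7 : (E 3 : Fin 14 → R) 7 = 0 := rfl

theorem E3_8 : (E 3 : Fin 14 → R) 8 = 0 := rfl

theorem E3_9 : (E 3 : Fin 14 → R) 9 = 0 := rfl

theorem E3_10 : (E 3 : Fin 14 → R) 10 = 0 := rfl

theorem E3_11 : (E 3 : Fin 14 → R) 11 = 0 := rfl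

theorem E3_12 : (E 3 : Fin 14 → R) 12 = 0 := rfl

theorem E3_13 : (E 3 : Fin 14 → R) 13 = 0 := rfl

theorem E4_0 : (E 4 : Fin 14 → R) 0 = 0 := rfl

theorem E4_1 : (E 4 : Fin 14 → R) 1 = 0 := rfl

theorem E4_2 : (E 4 : Fin 14 → R) 2 = 0 := rfl

theorem E4_3 : (E 4 : Fin 14 → R) 3 = 0 := rfl

theorem E4_4 : (E 4 : Fin 14 → R) 4 = 1 := rfl

theorem E4_5 : (E 4 : Fin 14 → R) 5 = 0 := rfl

theorem E4_6 : (E 4 : Fin 14 → R) 6 = 0 := rfl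

theorem E4_7 : (E 4 : Fin 14 → R) 7 = 0 := rfl

theorem E4_8 : (E 4 : Fin 14 → R) 8 = 0 := rfl

theorem E4_9 : (E 4 : Fin 14 → R) 9 = 0 := rfl

theorem E4_10 : (E 4 : Fin 14 → R) 10 = 0 := rfl

theorem E4_11 : (E 4 : Fin 14 → R) 11 = 0 := rfl

theorem E4_12 : (E 4 : Fin 14 → R) 12 = 0 := rfl

theorem E4_13 : (E 4 : Fin 14 → R) 13 = 0 := rfl

theorem E5_0 : (E 5 : Fin 14 → R) 0 = 0 := rfl

theorem E5_1 : (E 5 : Fin 14 → R) 1 = 0 := rfl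

theorem E5_2 : (E 5 : Fin 14 → R) 2 = 0 := rfl

theorem E5_3 : (E 5 : Fin 14 → R) 3 = 0 := rfl

theorem E5_4 : (E 5 : Fin 14 → R) 4 = 0 := rfl

theorem E5_5 : (E 5 : Fin 14 → R) 5 = 1 := rfl

theorem E5_6 : (E 5 : Fin 14 → R) 6 = 0 := rfl

theorem E5_7 : (E 5 : Fin 14 → R) 7 = 0 := rfl

theorem E5_8 : (E 5 : Fin 14 → R) 8 = 0 := rfl

theorem E5_9 : (E 5 : Fin 14 → R) 9 = 0 := rfl

theorem E5_10 : (E 5 : Fin 14 → R) 10 = 0 := rfl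

theorem E5_11 : (E 5 : Fin 14 → R) 11 = 0 := rfl

theorem E5_12 : (E 5 : Fin 14 → R) 12 = 0 := rfl

theorem E5_13 : (E 5 : Fin 14 → R) 13 = 0 := rfl

theorem E6_0 : (E 6 : Fin 14 → R) 0 = 0 := rfl

theorem E6_1 : (E 6 : Fin 14 → R) 1 = 0 := rfl

theorem E6_2 : (E 6 : Fin 14 → R) 2 = 0 := rfl

theorem E6_3 : (E 6 : Fin 14 → R) 3 = 0 := rfl

theorem E6_4 : (E 6 : Fin 14 → R) 4 = 0 := rfl

theorem E6_5 : (E 6 : Fin 14 → R) 5 = 0 := rfl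

theorem E6_6 : (E 6 : Fin 14 → R) 6 = 1 := rfl

theorem E6_7 : (E 6 : Fin 14 → R) 7 = 0 := rfl

theorem E6_8 : (E 6 : Fin 14 → R) 8 = 0 := rfl

theorem E6_9 : (E 6 : Fin 14 → R) 9 = 0 := rfl

theorem E6_10 : (E 6 : Fin 14 → R) 10 = 0 := rfl

theorem E6_11 : (E 6 : Fin 14 → R) 11 = 0 := rfl

theorem E6_12 : (E 6 : Fin 14 → R) 12 = 0 := rfl

theorem E6_13 : (E 6 : Fin 14 → R) 13 = 0 := rfl

theorem E7_0 : (E 7 : Fin 14 → R) 0 = 0 := rfl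

theorem E7_1 : (E 7 : Fin 14 → R) 1 = 0 := rfl

theorem E7_2 : (E 7 : Fin 14 → R) 2 = 0 := rfl

theorem E7_3 : (E 7 : Fin 14 → R) 3 = 0 := rfl

theorem E7_4 : (E 7 : Fin 14 → R) 4 = 0 := rfl

theorem E7_5 : (E 7 : Fin 14 → R) 5 = 0 := rfl

theorem E7_6 : (E 7 : Fin 14 → R) 6 = 0 := rfl

theorem E7_7 : (E 7 : Fin 14 → R) 7 = 1 := rfl

theorem E7_8 : (E 7 : Fin 14 → R) 8 = 0 := rfl

theorem E7_9 : (E 7 : Fin 14 → R) 9 = 0 := rfl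

theorem E7_10 : (E 7 : Fin 14 → R) 10 = 0 := rfl

theorem E7_11 : (E 7 : Fin 14 → R) 11 = 0 := rfl

theorem E7_12 : (E 7 : Fin 14 → R) 12 = 0 := rfl

theorem E7_13 : (E 7 : Fin 14 → R) 13 = 0 := rfl

theorem E8_0 : (E 8 : Fin 14 → R) 0 = 0 := rfl

theorem E8_1 : (E 8 : Fin 14 → R) 1 = 0 := rfl

theorem E8_2 : (E 8 : Fin 14 → R) 2 = 0 := rfl

theorem E8_3 : (E 8 : Fin 14 → R) 3 = 0 := rfl

theorem E8_4 : (E 8 : Fin 14 → R) 4 = 0 := rfl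

theorem E8_5 : (E 8 : Fin 14 → R) 5 = 0 := rfl

theorem E8_6 : (E 8 : Fin 14 → R) 6 = 0 := rfl

theorem E8_7 : (E 8 : Fin 14 → R) 7 = 0 := rfl

theorem E8_8 : (E 8 : Fin 14 → R) 8 = 1 := rfl

theorem E8_9 : (E 8 : Fin 14 → R) 9 = 0 := rfl

theorem E8_10 : (E 8 : Fin 14 → R) 10 = 0 := rfl

theorem E8_11 : (E 8 : Fin 14 → R) 11 = 0 := rfl

theorem E8_12 : (E 8 : Fin 14 → R) 12 = 0 := rfl

theorem E8_13 : (E 8 : Fin 14 → R) 13 = 0 := rfl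

theorem E9_0 : (E 9 : Fin 14 → R) 0 = 0 := rfl

theorem E9_1 : (E 9 : Fin 14 → R) 1 = 0 := rfl

theorem E9_2 : (E 9 : Fin 14 → R) 2 = 0 := rfl

theorem E9_3 : (E 9 : Fin 14 → R) 3 = 0 := rfl

theorem E9_4 : (E 9 : Fin 14 → R) 4 = 0 := rfl

theorem E9_5 : (E 9 : Fin 14 → R) 5 = 0 := rfl

theorem E9_6 : (E 9 : Fin 14 → R) 6 = 0 := rfl

theorem E9_7 : (E 9 : Fin 14 → R) 7 = 0 := rfl

theorem E9_8 : (E 9 : Fin 14 → R) 8 = 0 := rfl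

theorem E9_9 : (E 9 : Fin 14 → R) 9 = 1 := rfl

theorem E9_10 : (E 9 : Fin 14 → R) 10 = 0 := rfl

theorem E9_11 : (E 9 : Fin 14 → R) 11 = 0 := rfl

theorem E9_12 : (E 9 : Fin 14 → R) 12 = 0 := rfl

theorem E9_13 : (E 9 : Fin 14 → R) 13 = 0 := rfl

theorem E10_0 : (E 10 : Fin 14 → R) 0 = 0 := rfl

theorem E10_1 : (E 10 : Fin 14 → R) 1 = 0 := rfl

theorem E10_2 : (E 10 : Fin 14 → R) 2 = 0 := rfl

theorem E10_3 : (E 10 : Fin 14 → R) 3 = 0 := rfl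

theorem E10_4 : (E 10 : Fin 14 → R) 4 = 0 := rfl

theorem E10_5 : (E 10 : Fin 14 → R) 5 = 0 := rfl

theorem E10_6 : (E 10 : Fin 14 → R) 6 = 0 := rfl

theorem E10_7 : (E 10 : Fin 14 → R) 7 = 0 := rfl

theorem E10_8 : (E 10 : Fin 14 → R) 8 = 0 := rfl

theorem E10_9 : (E 10 : Fin 14 → R) 9 = 0 := rfl

theorem E10_10 : (E 10 : Fin 14 → R) 10 = 1 := rfl

theorem E10_11 : (E 10 : Fin 14 → R) 11 = 0 := rfl

theorem E10_12 : (E 10 : Fin 14 → R) 12 = 0 := rfl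

theorem E10_13 : (E 10 : Fin 14 → R) 13 = 0 := rfl

theorem E11_0 : (E 11 : Fin 14 → R) 0 = 0 := rfl

theorem E11_1 : (E 11 : Fin 14 → R) 1 = 0 := rfl

theorem E11_2 : (E 11 : Fin 14 → R) 2 = 0 := rfl

theorem E11_3 : (E 11 : Fin 14 → R) 3 = 0 := rfl

theorem E11_4 : (E 11 : Fin 14 → R) 4 = 0 := rfl

theorem E11_5 : (E 11 : Fin 14 → R) 5 = 0 := rfl

theorem E11_6 : (E 11 : Fin 14 → R) 6 = 0 := rfl

theorem E11_7 : (E 11 : Fin 14 → R) 7 = 0 := rfl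

theorem E11_8 : (E 11 : Fin 14 → R) 8 = 0 := rfl

theorem E11_9 : (E 11 : Fin 14 → R) 9 = 0 := rfl

theorem E11_10 : (E 11 : Fin 14 → R) 10 = 0 := rfl

theorem E11_11 : (E 11 : Fin 14 → R) 11 = 1 := rfl

theorem E11_12 : (E 11 : Fin 14 → R) 12 = 0 := rfl

theorem E11_13 : (E 11 : Fin 14 → R) 13 = 0 := rfl

theorem E12_0 : (E 12 : Fin 14 → R) 0 = 0 := rfl

theorem E12_1 : (E 12 : Fin 14 → R) 1 = 0 := rfl

theorem E12_2 : (E 12 : Fin 14 → R) 2 = 0 := rfl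

theorem E12_3 : (E 12 : Fin 14 → R) 3 = 0 := rfl

theorem E12_4 : (E 12 : Fin 14 → R) 4 = 0 := rfl

theorem E12_5 : (E 12 : Fin 14 → R) 5 = 0 := rfl

theorem E12_6 : (E 12 : Fin 14 → R) 6 = 0 := rfl

theorem E12_7 : (E 12 : Fin 14 → R) 7 = 0 := rfl

theorem E12_8 : (E 12 : Fin 14 → R) 8 = 0 := rfl

theorem E12_9 : (E 12 : Fin 14 → R) 9 = 0 := rfl

theorem E12_10 : (E 12 : Fin 14 → R) 10 = 0 := rfl

theorem E12_11 : (E 12 : Fin 14 → R) 11 = 0 := rfl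

theorem E12_12 : (E 12 : Fin 14 → R) 12 = 1 := rfl

theorem E12_13 : (E 12 : Fin 14 → R) 13 = 0 := rfl

theorem E13_0 : (E 13 : Fin 14 → R) 0 = 0 := rfl

theorem E13_1 : (E 13 : Fin 14 → R) 1 = 0 := rfl

theorem E13_2 : (E 13 : Fin 14 → R) 2 = 0 := rfl

theorem E13_3 : (E 13 : Fin 14 → R) 3 = 0 := rfl

theorem E13_4 : (E 13 : Fin 14 → R) 4 = 0 := rfl

theorem E13_5 : (E 13 : Fin 14 → R) 5 = 0 := rfl

theorem E13_6 : (E 13 : Fin 14 → R) 6 = 0 := rfl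

theorem E13_7 : (E 13 : Fin 14 → R) 7 = 0 := rfl

theorem E13_8 : (E 13 : Fin 14 → R) 8 = 0 := rfl

theorem E13_9 : (E 13 : Fin 14 → R) 9 = 0 := rfl

theorem E13_10 : (E 13 : Fin 14 → R) 10 = 0 := rfl

theorem E13_11 : (E 13 : Fin 14 → R) 11 = 0 := rfl

theorem E13_12 : (E 13 : Fin 14 → R) 12 = 0 := rfl

theorem E13_13 : (E 13 : Fin 14 → R) 13 = 1 := rfl

theorem word1 : U0 t (E 0) = E 1 := by
  refine funext fun i => ?_
  fin_cases i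
  · change U0 t (E 0) 0 = 0
    simp only [U0_0, E0_0, E0_1, E0_2, E0_3, E0_4, E0_5, E0_6, E0_7, E0_8, E0_9, E0_10, E0_11, E0_12, E0_13]; ring
  · change U0 t (E 0) 1 = 1
    simp only [U0_1, E0_0, E0_1, E0_2, E0_3, E0_4, E0_5, E0_6, E0_7, E0_8, E0_9, E0_10, E0_11, E0_12, E0_13]; ring
  · change U0 t (E 0) 2 = 0
    simp only [U0_2, E0_0, E0_1, E0_2, E0_3, E0_4, E0_5, E0_6, E0_7, E0_8, E0_9, E0_10, E0_11, E0_12, E0_13]; ring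
  · change U0 t (E 0) 3 = 0
    simp only [U0_3, E0_0, E0_1, E0_2, E0_3, E0_4, E0_5, E0_6, E0_7, E0_8, E0_9, E0_10, E0_11, E0_12, E0_13]; ring
  · change U0 t (E 0) 4 = 0
    simp only [U0_4, E0_0, E0_1, E0_2, E0_3, E0_4, E0_5, E0_6, E0_7, E0_8, E0_9, E0_10, E0_11, E0_12, E0_13]; ring
  · change U0 t (E 0) 5 = 0
    simp only [U0_5, E0_0, E0_1, E0_2, E0_3, E0_4, E0_5, E0_6, E0_7, E0_8, E0_9, E0_10, E0_11, E0_12, E0_13]; ring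
  · change U0 t (E 0) 6 = 0
    simp only [U0_6, E0_0, E0_1, E0_2, E0_3, E0_4, E0_5, E0_6, E0_7, E0_8, E0_9, E0_10, E0_11, E0_12, E0_13]; ring
  · change U0 t (E 0) 7 = 0
    simp only [U0_7, E0_0, E0_1, E0_2, E0_3, E0_4, E0_5, E0_6, E0_7, E0_8, E0_9, E0_10, E0_11, E0_12, E0_13]; ring
  · change U0 t (E 0) 8 = 0
    simp only [U0_8, E0_0, E0_1, E0_2, E0_3, E0_4, E0_5, E0_6, E0_7, E0_8, E0_9, E0_10, E0_11, E0_12, E0_13]; ring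
  · change U0 t (E 0) 9 = 0
    simp only [U0_9, E0_0, E0_1, E0_2, E0_3, E0_4, E0_5, E0_6, E0_7, E0_8, E0_9, E0_10, E0_11, E0_12, E0_13]; ring
  · change U0 t (E 0) 10 = 0
    simp only [U0_10, E0_0, E0_1, E0_2, E0_3, E0_4, E0_5, E0_6, E0_7, E0_8, E0_9, E0_10, E0_11, E0_12, E0_13]; ring
  · change U0 t (E 0) 11 = 0
    simp only [U0_11, E0_0, E0_1, E0_2, E0_3, E0_4, E0_5, E0_6, E0_7, E0_8, E0_9, E0_10, E0_11, E0_12, E0_13]; ring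
  · change U0 t (E 0) 12 = 0
    simp only [U0_12, E0_0, E0_1, E0_2, E0_3, E0_4, E0_5, E0_6, E0_7, E0_8, E0_9, E0_10, E0_11, E0_12, E0_13]; ring
  · change U0 t (E 0) 13 = 0
    simp only [U0_13, E0_0, E0_1, E0_2, E0_3, E0_4, E0_5, E0_6, E0_7, E0_8, E0_9, E0_10, E0_11, E0_12, E0_13]; ring

theorem word2 : U1 t (E 0) = E 2 := by
  refine funext fun i => ?_
  fin_cases i
  · change U1 t (E 0) 0 = 0
    simp only [U1_0, E0_0, E0_1, E0_2, E0_3, E0_4, E0_5, E0_6, E0_7, E0_8, E0_9, E0_10, E0_11, E0_12, E0_13]; ring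
  · change U1 t (E 0) 1 = 0
    simp only [U1_1, E0_0, E0_1, E0_2, E0_3, E0_4, E0_5, E0_6, E0_7, E0_8, E0_9, E0_10, E0_11, E0_12, E0_13]; ring
  · change U1 t (E 0) 2 = 1
    simp only [U1_2, E0_0, E0_1, E0_2, E0_3, E0_4, E0_5, E0_6, E0_7, E0_8, E0_9, E0_10, E0_11, E0_12, E0_13]; ring
  · change U1 t (E 0) 3 = 0
    simp only [U1_3, E0_0, E0_1, E0_2, E0_3, E0_4, E0_5, E0_6, E0_7, E0_8, E0_9, E0_10, E0_11, E0_12, E0_13]; ring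
  · change U1 t (E 0) 4 = 0
    simp only [U1_4, E0_0, E0_1, E0_2, E0_3, E0_4, E0_5, E0_6, E0_7, E0_8, E0_9, E0_10, E0_11, E0_12, E0_13]; ring
  · change U1 t (E 0) 5 = 0
    simp only [U1_5, E0_0, E0_1, E0_2, E0_3, E0_4, E0_5, E0_6, E0_7, E0_8, E0_9, E0_10, E0_11, E0_12, E0_13]; ring
  · change U1 t (E 0) 6 = 0
    simp only [U1_6, E0_0, E0_1, E0_2, E0_3, E0_4, E0_5, E0_6, E0_7, E0_8, E0_9, E0_10, E0_11, E0_12, E0_13]; ring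
  · change U1 t (E 0) 7 = 0
    simp only [U1_7, E0_0, E0_1, E0_2, E0_3, E0_4, E0_5, E0_6, E0_7, E0_8, E0_9, E0_10, E0_11, E0_12, E0_13]; ring
  · change U1 t (E 0) 8 = 0
    simp only [U1_8, E0_0, E0_1, E0_2, E0_3, E0_4, E0_5, E0_6, E0_7, E0_8, E0_9, E0_10, E0_11, E0_12, E0_13]; ring
  · change U1 t (E 0) 9 = 0
    simp only [U1_9, E0_0, E0_1, E0_2, E0_3, E0_4, E0_5, E0_6, E0_7, E0_8, E0_9, E0_10, E0_11, E0_12, E0_13]; ring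
  · change U1 t (E 0) 10 = 0
    simp only [U1_10, E0_0, E0_1, E0_2, E0_3, E0_4, E0_5, E0_6, E0_7, E0_8, E0_9, E0_10, E0_11, E0_12, E0_13]; ring
  · change U1 t (E 0) 11 = 0
    simp only [U1_11, E0_0, E0_1, E0_2, E0_3, E0_4, E0_5, E0_6, E0_7, E0_8, E0_9, E0_10, E0_11, E0_12, E0_13]; ring
  · change U1 t (E 0) 12 = 0
    simp only [U1_12, E0_0, E0_1, E0_2, E0_3, E0_4, E0_5, E0_6, E0_7, E0_8, E0_9, E0_10, E0_11, E0_12, E0_13]; ring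
  · change U1 t (E 0) 13 = 0
    simp only [U1_13, E0_0, E0_1, E0_2, E0_3, E0_4, E0_5, E0_6, E0_7, E0_8, E0_9, E0_10, E0_11, E0_12, E0_13]; ring

theorem word3 : U2 t (E 0) = E 3 := by
  refine funext fun i => ?_
  fin_cases i
  · change U2 t (E 0) 0 = 0
    simp only [U2_0, E0_0, E0_1, E0_2, E0_3, E0_4, E0_5, E0_6, E0_7, E0_8, E0_9, E0_10, E0_11, E0_12, E0_13]; ring
  · change U2 t (E 0) 1 = 0
    simp only [U2_1, E0_0, E0_1, E0_2, E0_3, E0_4, E0_5, E0_6, E0_7, E0_8, E0_9, E0_10, E0_11, E0_12, E0_13]; ring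
  · change U2 t (E 0) 2 = 0
    simp only [U2_2, E0_0, E0_1, E0_2, E0_3, E0_4, E0_5, E0_6, E0_7, E0_8, E0_9, E0_10, E0_11, E0_12, E0_13]; ring
  · change U2 t (E 0) 3 = 1
    simp only [U2_3, E0_0, E0_1, E0_2, E0_3, E0_4, E0_5, E0_6, E0_7, E0_8, E0_9, E0_10, E0_11, E0_12, E0_13]; ring
  · change U2 t (E 0) 4 = 0
    simp only [U2_4, E0_0, E0_1, E0_2, E0_3, E0_4, E0_5, E0_6, E0_7, E0_8, E0_9, E0_10, E0_11, E0_12, E0_13]; ring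
  · change U2 t (E 0) 5 = 0
    simp only [U2_5, E0_0, E0_1, E0_2, E0_3, E0_4, E0_5, E0_6, E0_7, E0_8, E0_9, E0_10, E0_11, E0_12, E0_13]; ring
  · change U2 t (E 0) 6 = 0
    simp only [U2_6, E0_0, E0_1, E0_2, E0_3, E0_4, E0_5, E0_6, E0_7, E0_8, E0_9, E0_10, E0_11, E0_12, E0_13]; ring
  · change U2 t (E 0) 7 = 0
    simp only [U2_7, E0_0, E0_1, E0_2, E0_3, E0_4, E0_5, E0_6, E0_7, E0_8, E0_9, E0_10, E0_11, E0_12, E0_13]; ring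
  · change U2 t (E 0) 8 = 0
    simp only [U2_8, E0_0, E0_1, E0_2, E0_3, E0_4, E0_5, E0_6, E0_7, E0_8, E0_9, E0_10, E0_11, E0_12, E0_13]; ring
  · change U2 t (E 0) 9 = 0
    simp only [U2_9, E0_0, E0_1, E0_2, E0_3, E0_4, E0_5, E0_6, E0_7, E0_8, E0_9, E0_10, E0_11, E0_12, E0_13]; ring
  · change U2 t (E 0) 10 = 0
    simp only [U2_10, E0_0, E0_1, E0_2, E0_3, E0_4, E0_5, E0_6, E0_7, E0_8, E0_9, E0_10, E0_11, E0_12, E0_13]; ring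
  · change U2 t (E 0) 11 = 0
    simp only [U2_11, E0_0, E0_1, E0_2, E0_3, E0_4, E0_5, E0_6, E0_7, E0_8, E0_9, E0_10, E0_11, E0_12, E0_13]; ring
  · change U2 t (E 0) 12 = 0
    simp only [U2_12, E0_0, E0_1, E0_2, E0_3, E0_4, E0_5, E0_6, E0_7, E0_8, E0_9, E0_10, E0_11, E0_12, E0_13]; ring
  · change U2 t (E 0) 13 = 0
    simp only [U2_13, E0_0, E0_1, E0_2, E0_3, E0_4, E0_5, E0_6, E0_7, E0_8, E0_9, E0_10, E0_11, E0_12, E0_13]; ring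

theorem word4 : U3 t (E 0) = E 4 := by
  refine funext fun i => ?_
  fin_cases i
  · change U3 t (E 0) 0 = 0
    simp only [U3_0, E0_0, E0_1, E0_2, E0_3, E0_4, E0_5, E0_6, E0_7, E0_8, E0_9, E0_10, E0_11, E0_12, E0_13]; ring
  · change U3 t (E 0) 1 = 0
    simp only [U3_1, E0_0, E0_1, E0_2, E0_3, E0_4, E0_5, E0_6, E0_7, E0_8, E0_9, E0_10, E0_11, E0_12, E0_13]; ring
  · change U3 t (E 0) 2 = 0
    simp only [U3_2, E0_0, E0_1, E0_2, E0_3, E0_4, E0_5, E0_6, E0_7, E0_8, E0_9, E0_10, E0_11, E0_12, E0_13]; ring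
  · change U3 t (E 0) 3 = 0
    simp only [U3_3, E0_0, E0_1, E0_2, E0_3, E0_4, E0_5, E0_6, E0_7, E0_8, E0_9, E0_10, E0_11, E0_12, E0_13]; ring
  · change U3 t (E 0) 4 = 1
    simp only [U3_4, E0_0, E0_1, E0_2, E0_3, E0_4, E0_5, E0_6, E0_7, E0_8, E0_9, E0_10, E0_11, E0_12, E0_13]; ring
  · change U3 t (E 0) 5 = 0
    simp only [U3_5, E0_0, E0_1, E0_2, E0_3, E0_4, E0_5, E0_6, E0_7, E0_8, E0_9, E0_10, E0_11, E0_12, E0_13]; ring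
  · change U3 t (E 0) 6 = 0
    simp only [U3_6, E0_0, E0_1, E0_2, E0_3, E0_4, E0_5, E0_6, E0_7, E0_8, E0_9, E0_10, E0_11, E0_12, E0_13]; ring
  · change U3 t (E 0) 7 = 0
    simp only [U3_7, E0_0, E0_1, E0_2, E0_3, E0_4, E0_5, E0_6, E0_7, E0_8, E0_9, E0_10, E0_11, E0_12, E0_13]; ring
  · change U3 t (E 0) 8 = 0
    simp only [U3_8, E0_0, E0_1, E0_2, E0_3, E0_4, E0_5, E0_6, E0_7, E0_8, E0_9, E0_10, E0_11, E0_12, E0_13]; ring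
  · change U3 t (E 0) 9 = 0
    simp only [U3_9, E0_0, E0_1, E0_2, E0_3, E0_4, E0_5, E0_6, E0_7, E0_8, E0_9, E0_10, E0_11, E0_12, E0_13]; ring
  · change U3 t (E 0) 10 = 0
    simp only [U3_10, E0_0, E0_1, E0_2, E0_3, E0_4, E0_5, E0_6, E0_7, E0_8, E0_9, E0_10, E0_11, E0_12, E0_13]; ring
  · change U3 t (E 0) 11 = 0
    simp only [U3_11, E0_0, E0_1, E0_2, E0_3, E0_4, E0_5, E0_6, E0_7, E0_8, E0_9, E0_10, E0_11, E0_12, E0_13]; ring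
  · change U3 t (E 0) 12 = 0
    simp only [U3_12, E0_0, E0_1, E0_2, E0_3, E0_4, E0_5, E0_6, E0_7, E0_8, E0_9, E0_10, E0_11, E0_12, E0_13]; ring
  · change U3 t (E 0) 13 = 0
    simp only [U3_13, E0_0, E0_1, E0_2, E0_3, E0_4, E0_5, E0_6, E0_7, E0_8, E0_9, E0_10, E0_11, E0_12, E0_13]; ring

theorem word5 : U4 t (E 0) = E 5 := by
  refine funext fun i => ?_
  fin_cases i
  · change U4 t (E 0) 0 = 0
    simp only [U4_0, E0_0, E0_1, E0_2, E0_3, E0_4, E0_5, E0_6, E0_7, E0_8, E0_9, E0_10, E0_11, E0_12, E0_13]; ring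
  · change U4 t (E 0) 1 = 0
    simp only [U4_1, E0_0, E0_1, E0_2, E0_3, E0_4, E0_5, E0_6, E0_7, E0_8, E0_9, E0_10, E0_11, E0_12, E0_13]; ring
  · change U4 t (E 0) 2 = 0
    simp only [U4_2, E0_0, E0_1, E0_2, E0_3, E0_4, E0_5, E0_6, E0_7, E0_8, E0_9, E0_10, E0_11, E0_12, E0_13]; ring
  · change U4 t (E 0) 3 = 0
    simp only [U4_3, E0_0, E0_1, E0_2, E0_3, E0_4, E0_5, E0_6, E0_7, E0_8, E0_9, E0_10, E0_11, E0_12, E0_13]; ring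
  · change U4 t (E 0) 4 = 0
    simp only [U4_4, E0_0, E0_1, E0_2, E0_3, E0_4, E0_5, E0_6, E0_7, E0_8, E0_9, E0_10, E0_11, E0_12, E0_13]; ring
  · change U4 t (E 0) 5 = 1
    simp only [U4_5, E0_0, E0_1, E0_2, E0_3, E0_4, E0_5, E0_6, E0_7, E0_8, E0_9, E0_10, E0_11, E0_12, E0_13]; ring
  · change U4 t (E 0) 6 = 0
    simp only [U4_6, E0_0, E0_1, E0_2, E0_3, E0_4, E0_5, E0_6, E0_7, E0_8, E0_9, E0_10, E0_11, E0_12, E0_13]; ring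
  · change U4 t (E 0) 7 = 0
    simp only [U4_7, E0_0, E0_1, E0_2, E0_3, E0_4, E0_5, E0_6, E0_7, E0_8, E0_9, E0_10, E0_11, E0_12, E0_13]; ring
  · change U4 t (E 0) 8 = 0
    simp only [U4_8, E0_0, E0_1, E0_2, E0_3, E0_4, E0_5, E0_6, E0_7, E0_8, E0_9, E0_10, E0_11, E0_12, E0_13]; ring
  · change U4 t (E 0) 9 = 0
    simp only [U4_9, E0_0, E0_1, E0_2, E0_3, E0_4, E0_5, E0_6, E0_7, E0_8, E0_9, E0_10, E0_11, E0_12, E0_13]; ring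
  · change U4 t (E 0) 10 = 0
    simp only [U4_10, E0_0, E0_1, E0_2, E0_3, E0_4, E0_5, E0_6, E0_7, E0_8, E0_9, E0_10, E0_11, E0_12, E0_13]; ring
  · change U4 t (E 0) 11 = 0
    simp only [U4_11, E0_0, E0_1, E0_2, E0_3, E0_4, E0_5, E0_6, E0_7, E0_8, E0_9, E0_10, E0_11, E0_12, E0_13]; ring
  · change U4 t (E 0) 12 = 0
    simp only [U4_12, E0_0, E0_1, E0_2, E0_3, E0_4, E0_5, E0_6, E0_7, E0_8, E0_9, E0_10, E0_11, E0_12, E0_13]; ring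
  · change U4 t (E 0) 13 = 0
    simp only [U4_13, E0_0, E0_1, E0_2, E0_3, E0_4, E0_5, E0_6, E0_7, E0_8, E0_9, E0_10, E0_11, E0_12, E0_13]; ring

theorem word6 : U5 t (E 0) = E 6 := by
  refine funext fun i => ?_
  fin_cases i
  · change U5 t (E 0) 0 = 0
    simp only [U5_0, E0_0, E0_1, E0_2, E0_3, E0_4, E0_5, E0_6, E0_7, E0_8, E0_9, E0_10, E0_11, E0_12, E0_13]; ring
  · change U5 t (E 0) 1 = 0
    simp only [U5_1, E0_0, E0_1, E0_2, E0_3, E0_4, E0_5, E0_6, E0_7, E0_8, E0_9, E0_10, E0_11, E0_12, E0_13]; ring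
  · change U5 t (E 0) 2 = 0
    simp only [U5_2, E0_0, E0_1, E0_2, E0_3, E0_4, E0_5, E0_6, E0_7, E0_8, E0_9, E0_10, E0_11, E0_12, E0_13]; ring
  · change U5 t (E 0) 3 = 0
    simp only [U5_3, E0_0, E0_1, E0_2, E0_3, E0_4, E0_5, E0_6, E0_7, E0_8, E0_9, E0_10, E0_11, E0_12, E0_13]; ring
  · change U5 t (E 0) 4 = 0
    simp only [U5_4, E0_0, E0_1, E0_2, E0_3, E0_4, E0_5, E0_6, E0_7, E0_8, E0_9, E0_10, E0_11, E0_12, E0_13]; ring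
  · change U5 t (E 0) 5 = 0
    simp only [U5_5, E0_0, E0_1, E0_2, E0_3, E0_4, E0_5, E0_6, E0_7, E0_8, E0_9, E0_10, E0_11, E0_12, E0_13]; ring
  · change U5 t (E 0) 6 = 1
    simp only [U5_6, E0_0, E0_1, E0_2, E0_3, E0_4, E0_5, E0_6, E0_7, E0_8, E0_9, E0_10, E0_11, E0_12, E0_13]; ring
  · change U5 t (E 0) 7 = 0
    simp only [U5_7, E0_0, E0_1, E0_2, E0_3, E0_4, E0_5, E0_6, E0_7, E0_8, E0_9, E0_10, E0_11, E0_12, E0_13]; ring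
  · change U5 t (E 0) 8 = 0
    simp only [U5_8, E0_0, E0_1, E0_2, E0_3, E0_4, E0_5, E0_6, E0_7, E0_8, E0_9, E0_10, E0_11, E0_12, E0_13]; ring
  · change U5 t (E 0) 9 = 0
    simp only [U5_9, E0_0, E0_1, E0_2, E0_3, E0_4, E0_5, E0_6, E0_7, E0_8, E0_9, E0_10, E0_11, E0_12, E0_13]; ring
  · change U5 t (E 0) 10 = 0
    simp only [U5_10, E0_0, E0_1, E0_2, E0_3, E0_4, E0_5, E0_6, E0_7, E0_8, E0_9, E0_10, E0_11, E0_12, E0_13]; ring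
  · change U5 t (E 0) 11 = 0
    simp only [U5_11, E0_0, E0_1, E0_2, E0_3, E0_4, E0_5, E0_6, E0_7, E0_8, E0_9, E0_10, E0_11, E0_12, E0_13]; ring
  · change U5 t (E 0) 12 = 0
    simp only [U5_12, E0_0, E0_1, E0_2, E0_3, E0_4, E0_5, E0_6, E0_7, E0_8, E0_9, E0_10, E0_11, E0_12, E0_13]; ring
  · change U5 t (E 0) 13 = 0
    simp only [U5_13, E0_0, E0_1, E0_2, E0_3, E0_4, E0_5, E0_6, E0_7, E0_8, E0_9, E0_10, E0_11, E0_12, E0_13]; ring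

theorem word7 : U0 t (E 4) = E 7 := by
  refine funext fun i => ?_
  fin_cases i
  · change U0 t (E 4) 0 = 0
    simp only [U0_0, E4_0, E4_1, E4_2, E4_3, E4_4, E4_5, E4_6, E4_7, E4_8, E4_9, E4_10, E4_11, E4_12, E4_13]; ring
  · change U0 t (E 4) 1 = 0
    simp only [U0_1, E4_0, E4_1, E4_2, E4_3, E4_4, E4_5, E4_6, E4_7, E4_8, E4_9, E4_10, E4_11, E4_12, E4_13]; ring
  · change U0 t (E 4) 2 = 0
    simp only [U0_2, E4_0, E4_1, E4_2, E4_3, E4_4, E4_5, E4_6, E4_7, E4_8, E4_9, E4_10, E4_11, E4_12, E4_13]; ring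
  · change U0 t (E 4) 3 = 0
    simp only [U0_3, E4_0, E4_1, E4_2, E4_3, E4_4, E4_5, E4_6, E4_7, E4_8, E4_9, E4_10, E4_11, E4_12, E4_13]; ring
  · change U0 t (E 4) 4 = 0
    simp only [U0_4, E4_0, E4_1, E4_2, E4_3, E4_4, E4_5, E4_6, E4_7, E4_8, E4_9, E4_10, E4_11, E4_12, E4_13]; ring
  · change U0 t (E 4) 5 = 0
    simp only [U0_5, E4_0, E4_1, E4_2, E4_3, E4_4, E4_5, E4_6, E4_7, E4_8, E4_9, E4_10, E4_11, E4_12, E4_13]; ring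
  · change U0 t (E 4) 6 = 0
    simp only [U0_6, E4_0, E4_1, E4_2, E4_3, E4_4, E4_5, E4_6, E4_7, E4_8, E4_9, E4_10, E4_11, E4_12, E4_13]; ring
  · change U0 t (E 4) 7 = 1
    simp only [U0_7, E4_0, E4_1, E4_2, E4_3, E4_4, E4_5, E4_6, E4_7, E4_8, E4_9, E4_10, E4_11, E4_12, E4_13]; ring
  · change U0 t (E 4) 8 = 0
    simp only [U0_8, E4_0, E4_1, E4_2, E4_3, E4_4, E4_5, E4_6, E4_7, E4_8, E4_9, E4_10, E4_11, E4_12, E4_13]; ring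
  · change U0 t (E 4) 9 = 0
    simp only [U0_9, E4_0, E4_1, E4_2, E4_3, E4_4, E4_5, E4_6, E4_7, E4_8, E4_9, E4_10, E4_11, E4_12, E4_13]; ring
  · change U0 t (E 4) 10 = 0
    simp only [U0_10, E4_0, E4_1, E4_2, E4_3, E4_4, E4_5, E4_6, E4_7, E4_8, E4_9, E4_10, E4_11, E4_12, E4_13]; ring
  · change U0 t (E 4) 11 = 0
    simp only [U0_11, E4_0, E4_1, E4_2, E4_3, E4_4, E4_5, E4_6, E4_7, E4_8, E4_9, E4_10, E4_11, E4_12, E4_13]; ring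
  · change U0 t (E 4) 12 = 0
    simp only [U0_12, E4_0, E4_1, E4_2, E4_3, E4_4, E4_5, E4_6, E4_7, E4_8, E4_9, E4_10, E4_11, E4_12, E4_13]; ring
  · change U0 t (E 4) 13 = 0
    simp only [U0_13, E4_0, E4_1, E4_2, E4_3, E4_4, E4_5, E4_6, E4_7, E4_8, E4_9, E4_10, E4_11, E4_12, E4_13]; ring

theorem word8 : U0 t (E 5) = E 8 := by
  refine funext fun i => ?_
  fin_cases i
  · change U0 t (E 5) 0 = 0
    simp only [U0_0, E5_0, E5_1, E5_2, E5_3, E5_4, E5_5, E5_6, E5_7, E5_8, E5_9, E5_10, E5_11, E5_12, E5_13]; ring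
  · change U0 t (E 5) 1 = 0
    simp only [U0_1, E5_0, E5_1, E5_2, E5_3, E5_4, E5_5, E5_6, E5_7, E5_8, E5_9, E5_10, E5_11, E5_12, E5_13]; ring
  · change U0 t (E 5) 2 = 0
    simp only [U0_2, E5_0, E5_1, E5_2, E5_3, E5_4, E5_5, E5_6, E5_7, E5_8, E5_9, E5_10, E5_11, E5_12, E5_13]; ring
  · change U0 t (E 5) 3 = 0
    simp only [U0_3, E5_0, E5_1, E5_2, E5_3, E5_4, E5_5, E5_6, E5_7, E5_8, E5_9, E5_10, E5_11, E5_12, E5_13]; ring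
  · change U0 t (E 5) 4 = 0
    simp only [U0_4, E5_0, E5_1, E5_2, E5_3, E5_4, E5_5, E5_6, E5_7, E5_8, E5_9, E5_10, E5_11, E5_12, E5_13]; ring
  · change U0 t (E 5) 5 = 0
    simp only [U0_5, E5_0, E5_1, E5_2, E5_3, E5_4, E5_5, E5_6, E5_7, E5_8, E5_9, E5_10, E5_11, E5_12, E5_13]; ring
  · change U0 t (E 5) 6 = 0
    simp only [U0_6, E5_0, E5_1, E5_2, E5_3, E5_4, E5_5, E5_6, E5_7, E5_8, E5_9, E5_10, E5_11, E5_12, E5_13]; ring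
  · change U0 t (E 5) 7 = 0
    simp only [U0_7, E5_0, E5_1, E5_2, E5_3, E5_4, E5_5, E5_6, E5_7, E5_8, E5_9, E5_10, E5_11, E5_12, E5_13]; ring
  · change U0 t (E 5) 8 = 1
    simp only [U0_8, E5_0, E5_1, E5_2, E5_3, E5_4, E5_5, E5_6, E5_7, E5_8, E5_9, E5_10, E5_11, E5_12, E5_13]; ring
  · change U0 t (E 5) 9 = 0
    simp only [U0_9, E5_0, E5_1, E5_2, E5_3, E5_4, E5_5, E5_6, E5_7, E5_8, E5_9, E5_10, E5_11, E5_12, E5_13]; ring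
  · change U0 t (E 5) 10 = 0
    simp only [U0_10, E5_0, E5_1, E5_2, E5_3, E5_4, E5_5, E5_6, E5_7, E5_8, E5_9, E5_10, E5_11, E5_12, E5_13]; ring
  · change U0 t (E 5) 11 = 0
    simp only [U0_11, E5_0, E5_1, E5_2, E5_3, E5_4, E5_5, E5_6, E5_7, E5_8, E5_9, E5_10, E5_11, E5_12, E5_13]; ring
  · change U0 t (E 5) 12 = 0
    simp only [U0_12, E5_0, E5_1, E5_2, E5_3, E5_4, E5_5, E5_6, E5_7, E5_8, E5_9, E5_10, E5_11, E5_12, E5_13]; ring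
  · change U0 t (E 5) 13 = 0
    simp only [U0_13, E5_0, E5_1, E5_2, E5_3, E5_4, E5_5, E5_6, E5_7, E5_8, E5_9, E5_10, E5_11, E5_12, E5_13]; ring

theorem word9 : U0 t (E 6) = E 9 := by
  refine funext fun i => ?_
  fin_cases i
  · change U0 t (E 6) 0 = 0
    simp only [U0_0, E6_0, E6_1, E6_2, E6_3, E6_4, E6_5, E6_6, E6_7, E6_8, E6_9, E6_10, E6_11, E6_12, E6_13]; ring
  · change U0 t (E 6) 1 = 0
    simp only [U0_1, E6_0, E6_1, E6_2, E6_3, E6_4, E6_5, E6_6, E6_7, E6_8, E6_9, E6_10, E6_11, E6_12, E6_13]; ring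
  · change U0 t (E 6) 2 = 0
    simp only [U0_2, E6_0, E6_1, E6_2, E6_3, E6_4, E6_5, E6_6, E6_7, E6_8, E6_9, E6_10, E6_11, E6_12, E6_13]; ring
  · change U0 t (E 6) 3 = 0
    simp only [U0_3, E6_0, E6_1, E6_2, E6_3, E6_4, E6_5, E6_6, E6_7, E6_8, E6_9, E6_10, E6_11, E6_12, E6_13]; ring
  · change U0 t (E 6) 4 = 0
    simp only [U0_4, E6_0, E6_1, E6_2, E6_3, E6_4, E6_5, E6_6, E6_7, E6_8, E6_9, E6_10, E6_11, E6_12, E6_13]; ring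
  · change U0 t (E 6) 5 = 0
    simp only [U0_5, E6_0, E6_1, E6_2, E6_3, E6_4, E6_5, E6_6, E6_7, E6_8, E6_9, E6_10, E6_11, E6_12, E6_13]; ring
  · change U0 t (E 6) 6 = 0
    simp only [U0_6, E6_0, E6_1, E6_2, E6_3, E6_4, E6_5, E6_6, E6_7, E6_8, E6_9, E6_10, E6_11, E6_12, E6_13]; ring
  · change U0 t (E 6) 7 = 0
    simp only [U0_7, E6_0, E6_1, E6_2, E6_3, E6_4, E6_5, E6_6, E6_7, E6_8, E6_9, E6_10, E6_11, E6_12, E6_13]; ring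
  · change U0 t (E 6) 8 = 0
    simp only [U0_8, E6_0, E6_1, E6_2, E6_3, E6_4, E6_5, E6_6, E6_7, E6_8, E6_9, E6_10, E6_11, E6_12, E6_13]; ring
  · change U0 t (E 6) 9 = 1
    simp only [U0_9, E6_0, E6_1, E6_2, E6_3, E6_4, E6_5, E6_6, E6_7, E6_8, E6_9, E6_10, E6_11, E6_12, E6_13]; ring
  · change U0 t (E 6) 10 = 0
    simp only [U0_10, E6_0, E6_1, E6_2, E6_3, E6_4, E6_5, E6_6, E6_7, E6_8, E6_9, E6_10, E6_11, E6_12, E6_13]; ring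
  · change U0 t (E 6) 11 = 0
    simp only [U0_11, E6_0, E6_1, E6_2, E6_3, E6_4, E6_5, E6_6, E6_7, E6_8, E6_9, E6_10, E6_11, E6_12, E6_13]; ring
  · change U0 t (E 6) 12 = 0
    simp only [U0_12, E6_0, E6_1, E6_2, E6_3, E6_4, E6_5, E6_6, E6_7, E6_8, E6_9, E6_10, E6_11, E6_12, E6_13]; ring
  · change U0 t (E 6) 13 = 0
    simp only [U0_13, E6_0, E6_1, E6_2, E6_3, E6_4, E6_5, E6_6, E6_7, E6_8, E6_9, E6_10, E6_11, E6_12, E6_13]; ring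

theorem word10 : U1 t (E 5) = E 10 := by
  refine funext fun i => ?_
  fin_cases i
  · change U1 t (E 5) 0 = 0
    simp only [U1_0, E5_0, E5_1, E5_2, E5_3, E5_4, E5_5, E5_6, E5_7, E5_8, E5_9, E5_10, E5_11, E5_12, E5_13]; ring
  · change U1 t (E 5) 1 = 0
    simp only [U1_1, E5_0, E5_1, E5_2, E5_3, E5_4, E5_5, E5_6, E5_7, E5_8, E5_9, E5_10, E5_11, E5_12, E5_13]; ring
  · change U1 t (E 5) 2 = 0
    simp only [U1_2, E5_0, E5_1, E5_2, E5_3, E5_4, E5_5, E5_6, E5_7, E5_8, E5_9, E5_10, E5_11, E5_12, E5_13]; ring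
  · change U1 t (E 5) 3 = 0
    simp only [U1_3, E5_0, E5_1, E5_2, E5_3, E5_4, E5_5, E5_6, E5_7, E5_8, E5_9, E5_10, E5_11, E5_12, E5_13]; ring
  · change U1 t (E 5) 4 = 0
    simp only [U1_4, E5_0, E5_1, E5_2, E5_3, E5_4, E5_5, E5_6, E5_7, E5_8, E5_9, E5_10, E5_11, E5_12, E5_13]; ring
  · change U1 t (E 5) 5 = 0
    simp only [U1_5, E5_0, E5_1, E5_2, E5_3, E5_4, E5_5, E5_6, E5_7, E5_8, E5_9, E5_10, E5_11, E5_12, E5_13]; ring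
  · change U1 t (E 5) 6 = 0
    simp only [U1_6, E5_0, E5_1, E5_2, E5_3, E5_4, E5_5, E5_6, E5_7, E5_8, E5_9, E5_10, E5_11, E5_12, E5_13]; ring
  · change U1 t (E 5) 7 = 0
    simp only [U1_7, E5_0, E5_1, E5_2, E5_3, E5_4, E5_5, E5_6, E5_7, E5_8, E5_9, E5_10, E5_11, E5_12, E5_13]; ring
  · change U1 t (E 5) 8 = 0
    simp only [U1_8, E5_0, E5_1, E5_2, E5_3, E5_4, E5_5, E5_6, E5_7, E5_8, E5_9, E5_10, E5_11, E5_12, E5_13]; ring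
  · change U1 t (E 5) 9 = 0
    simp only [U1_9, E5_0, E5_1, E5_2, E5_3, E5_4, E5_5, E5_6, E5_7, E5_8, E5_9, E5_10, E5_11, E5_12, E5_13]; ring
  · change U1 t (E 5) 10 = 1
    simp only [U1_10, E5_0, E5_1, E5_2, E5_3, E5_4, E5_5, E5_6, E5_7, E5_8, E5_9, E5_10, E5_11, E5_12, E5_13]; ring
  · change U1 t (E 5) 11 = 0
    simp only [U1_11, E5_0, E5_1, E5_2, E5_3, E5_4, E5_5, E5_6, E5_7, E5_8, E5_9, E5_10, E5_11, E5_12, E5_13]; ring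
  · change U1 t (E 5) 12 = 0
    simp only [U1_12, E5_0, E5_1, E5_2, E5_3, E5_4, E5_5, E5_6, E5_7, E5_8, E5_9, E5_10, E5_11, E5_12, E5_13]; ring
  · change U1 t (E 5) 13 = 0
    simp only [U1_13, E5_0, E5_1, E5_2, E5_3, E5_4, E5_5, E5_6, E5_7, E5_8, E5_9, E5_10, E5_11, E5_12, E5_13]; ring

theorem word11 : U1 t (E 6) = E 11 := by
  refine funext fun i => ?_
  fin_cases i
  · change U1 t (E 6) 0 = 0
    simp only [U1_0, E6_0, E6_1, E6_2, E6_3, E6_4, E6_5, E6_6, E6_7, E6_8, E6_9, E6_10, E6_11, E6_12, E6_13]; ring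
  · change U1 t (E 6) 1 = 0
    simp only [U1_1, E6_0, E6_1, E6_2, E6_3, E6_4, E6_5, E6_6, E6_7, E6_8, E6_9, E6_10, E6_11, E6_12, E6_13]; ring
  · change U1 t (E 6) 2 = 0
    simp only [U1_2, E6_0, E6_1, E6_2, E6_3, E6_4, E6_5, E6_6, E6_7, E6_8, E6_9, E6_10, E6_11, E6_12, E6_13]; ring
  · change U1 t (E 6) 3 = 0
    simp only [U1_3, E6_0, E6_1, E6_2, E6_3, E6_4, E6_5, E6_6, E6_7, E6_8, E6_9, E6_10, E6_11, E6_12, E6_13]; ring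
  · change U1 t (E 6) 4 = 0
    simp only [U1_4, E6_0, E6_1, E6_2, E6_3, E6_4, E6_5, E6_6, E6_7, E6_8, E6_9, E6_10, E6_11, E6_12, E6_13]; ring
  · change U1 t (E 6) 5 = 0
    simp only [U1_5, E6_0, E6_1, E6_2, E6_3, E6_4, E6_5, E6_6, E6_7, E6_8, E6_9, E6_10, E6_11, E6_12, E6_13]; ring
  · change U1 t (E 6) 6 = 0
    simp only [U1_6, E6_0, E6_1, E6_2, E6_3, E6_4, E6_5, E6_6, E6_7, E6_8, E6_9, E6_10, E6_11, E6_12, E6_13]; ring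
  · change U1 t (E 6) 7 = 0
    simp only [U1_7, E6_0, E6_1, E6_2, E6_3, E6_4, E6_5, E6_6, E6_7, E6_8, E6_9, E6_10, E6_11, E6_12, E6_13]; ring
  · change U1 t (E 6) 8 = 0
    simp only [U1_8, E6_0, E6_1, E6_2, E6_3, E6_4, E6_5, E6_6, E6_7, E6_8, E6_9, E6_10, E6_11, E6_12, E6_13]; ring
  · change U1 t (E 6) 9 = 0
    simp only [U1_9, E6_0, E6_1, E6_2, E6_3, E6_4, E6_5, E6_6, E6_7, E6_8, E6_9, E6_10, E6_11, E6_12, E6_13]; ring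
  · change U1 t (E 6) 10 = 0
    simp only [U1_10, E6_0, E6_1, E6_2, E6_3, E6_4, E6_5, E6_6, E6_7, E6_8, E6_9, E6_10, E6_11, E6_12, E6_13]; ring
  · change U1 t (E 6) 11 = 1
    simp only [U1_11, E6_0, E6_1, E6_2, E6_3, E6_4, E6_5, E6_6, E6_7, E6_8, E6_9, E6_10, E6_11, E6_12, E6_13]; ring
  · change U1 t (E 6) 12 = 0
    simp only [U1_12, E6_0, E6_1, E6_2, E6_3, E6_4, E6_5, E6_6, E6_7, E6_8, E6_9, E6_10, E6_11, E6_12, E6_13]; ring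
  · change U1 t (E 6) 13 = 0
    simp only [U1_13, E6_0, E6_1, E6_2, E6_3, E6_4, E6_5, E6_6, E6_7, E6_8, E6_9, E6_10, E6_11, E6_12, E6_13]; ring

theorem word12 : U3 t (E 6) = E 12 := by
  refine funext fun i => ?_
  fin_cases i
  · change U3 t (E 6) 0 = 0
    simp only [U3_0, E6_0, E6_1, E6_2, E6_3, E6_4, E6_5, E6_6, E6_7, E6_8, E6_9, E6_10, E6_11, E6_12, E6_13]; ring
  · change U3 t (E 6) 1 = 0
    simp only [U3_1, E6_0, E6_1, E6_2, E6_3, E6_4, E6_5, E6_6, E6_7, E6_8, E6_9, E6_10, E6_11, E6_12, E6_13]; ring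
  · change U3 t (E 6) 2 = 0
    simp only [U3_2, E6_0, E6_1, E6_2, E6_3, E6_4, E6_5, E6_6, E6_7, E6_8, E6_9, E6_10, E6_11, E6_12, E6_13]; ring
  · change U3 t (E 6) 3 = 0
    simp only [U3_3, E6_0, E6_1, E6_2, E6_3, E6_4, E6_5, E6_6, E6_7, E6_8, E6_9, E6_10, E6_11, E6_12, E6_13]; ring
  · change U3 t (E 6) 4 = 0
    simp only [U3_4, E6_0, E6_1, E6_2, E6_3, E6_4, E6_5, E6_6, E6_7, E6_8, E6_9, E6_10, E6_11, E6_12, E6_13]; ring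
  · change U3 t (E 6) 5 = 0
    simp only [U3_5, E6_0, E6_1, E6_2, E6_3, E6_4, E6_5, E6_6, E6_7, E6_8, E6_9, E6_10, E6_11, E6_12, E6_13]; ring
  · change U3 t (E 6) 6 = 0
    simp only [U3_6, E6_0, E6_1, E6_2, E6_3, E6_4, E6_5, E6_6, E6_7, E6_8, E6_9, E6_10, E6_11, E6_12, E6_13]; ring
  · change U3 t (E 6) 7 = 0
    simp only [U3_7, E6_0, E6_1, E6_2, E6_3, E6_4, E6_5, E6_6, E6_7, E6_8, E6_9, E6_10, E6_11, E6_12, E6_13]; ring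
  · change U3 t (E 6) 8 = 0
    simp only [U3_8, E6_0, E6_1, E6_2, E6_3, E6_4, E6_5, E6_6, E6_7, E6_8, E6_9, E6_10, E6_11, E6_12, E6_13]; ring
  · change U3 t (E 6) 9 = 0
    simp only [U3_9, E6_0, E6_1, E6_2, E6_3, E6_4, E6_5, E6_6, E6_7, E6_8, E6_9, E6_10, E6_11, E6_12, E6_13]; ring
  · change U3 t (E 6) 10 = 0
    simp only [U3_10, E6_0, E6_1, E6_2, E6_3, E6_4, E6_5, E6_6, E6_7, E6_8, E6_9, E6_10, E6_11, E6_12, E6_13]; ring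
  · change U3 t (E 6) 11 = 0
    simp only [U3_11, E6_0, E6_1, E6_2, E6_3, E6_4, E6_5, E6_6, E6_7, E6_8, E6_9, E6_10, E6_11, E6_12, E6_13]; ring
  · change U3 t (E 6) 12 = 1
    simp only [U3_12, E6_0, E6_1, E6_2, E6_3, E6_4, E6_5, E6_6, E6_7, E6_8, E6_9, E6_10, E6_11, E6_12, E6_13]; ring
  · change U3 t (E 6) 13 = 0
    simp only [U3_13, E6_0, E6_1, E6_2, E6_3, E6_4, E6_5, E6_6, E6_7, E6_8, E6_9, E6_10, E6_11, E6_12, E6_13]; ring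

theorem word13 : U0 t (E 12) = E 13 := by
  refine funext fun i => ?_
  fin_cases i
  · change U0 t (E 12) 0 = 0
    simp only [U0_0, E12_0, E12_1, E12_2, E12_3, E12_4, E12_5, E12_6, E12_7, E12_8, E12_9, E12_10, E12_11, E12_12, E12_13]; ring
  · change U0 t (E 12) 1 = 0
    simp only [U0_1, E12_0, E12_1, E12_2, E12_3, E12_4, E12_5, E12_6, E12_7, E12_8, E12_9, E12_10, E12_11, E12_12, E12_13]; ring
  · change U0 t (E 12) 2 = 0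
    simp only [U0_2, E12_0, E12_1, E12_2, E12_3, E12_4, E12_5, E12_6, E12_7, E12_8, E12_9, E12_10, E12_11, E12_12, E12_13]; ring
  · change U0 t (E 12) 3 = 0
    simp only [U0_3, E12_0, E12_1, E12_2, E12_3, E12_4, E12_5, E12_6, E12_7, E12_8, E12_9, E12_10, E12_11, E12_12, E12_13]; ring
  · change U0 t (E 12) 4 = 0
    simp only [U0_4, E12_0, E12_1, E12_2, E12_3, E12_4, E12_5, E12_6, E12_7, E12_8, E12_9, E12_10, E12_11, E12_12, E12_13]; ring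
  · change U0 t (E 12) 5 = 0
    simp only [U0_5, E12_0, E12_1, E12_2, E12_3, E12_4, E12_5, E12_6, E12_7, E12_8, E12_9, E12_10, E12_11, E12_12, E12_13]; ring
  · change U0 t (E 12) 6 = 0
    simp only [U0_6, E12_0, E12_1, E12_2, E12_3, E12_4, E12_5, E12_6, E12_7, E12_8, E12_9, E12_10, E12_11, E12_12, E12_13]; ring
  · change U0 t (E 12) 7 = 0
    simp only [U0_7, E12_0, E12_1, E12_2, E12_3, E12_4, E12_5, E12_6, E12_7, E12_8, E12_9, E12_10, E12_11, E12_12, E12_13]; ring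
  · change U0 t (E 12) 8 = 0
    simp only [U0_8, E12_0, E12_1, E12_2, E12_3, E12_4, E12_5, E12_6, E12_7, E12_8, E12_9, E12_10, E12_11, E12_12, E12_13]; ring
  · change U0 t (E 12) 9 = 0
    simp only [U0_9, E12_0, E12_1, E12_2, E12_3, E12_4, E12_5, E12_6, E12_7, E12_8, E12_9, E12_10, E12_11, E12_12, E12_13]; ring
  · change U0 t (E 12) 10 = 0
    simp only [U0_10, E12_0, E12_1, E12_2, E12_3, E12_4, E12_5, E12_6, E12_7, E12_8, E12_9, E12_10, E12_11, E12_12, E12_13]; ring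
  · change U0 t (E 12) 11 = 0
    simp only [U0_11, E12_0, E12_1, E12_2, E12_3, E12_4, E12_5, E12_6, E12_7, E12_8, E12_9, E12_10, E12_11, E12_12, E12_13]; ring
  · change U0 t (E 12) 12 = 0
    simp only [U0_12, E12_0, E12_1, E12_2, E12_3, E12_4, E12_5, E12_6, E12_7, E12_8, E12_9, E12_10, E12_11, E12_12, E12_13]; ring
  · change U0 t (E 12) 13 = 1
    simp only [U0_13, E12_0, E12_1, E12_2, E12_3, E12_4, E12_5, E12_6, E12_7, E12_8, E12_9, E12_10, E12_11, E12_12, E12_13]; ring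

/-- The commutative algebra generated by the six operators. -/
abbrev CC : Subalgebra R (Module.End R (Fin 14 → R)) := Algebra.adjoin R (Set.range (UL t))

noncomputable instance : CommRing (CC t) := Algebra.adjoinCommRingOfComm R (by
  rintro _ ⟨a, rfl⟩ _ ⟨b, rfl⟩
  exact UL_comm t a b)

/-- The generators as elements of the commutative algebra. -/
def UC (a : Fin 6) : CC t := ⟨UL t a, Algebra.subset_adjoin ⟨a, rfl⟩⟩

theorem cyc (c : CC t) (h : c.1 (E 0) = 0) : c = 0 := by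
  have key : ∀ i : Fin 14, ∃ w : CC t, w.1 (E 0) = E i := by
    intro i
    fin_cases i
    · exact ⟨1, rfl⟩
    · exact ⟨UC t 0, word1 t⟩
    · exact ⟨UC t 1, word2 t⟩
    · exact ⟨UC t 2, word3 t⟩
    · exact ⟨UC t 3, word4 t⟩
    · exact ⟨UC t 4, word5 t⟩
    · exact ⟨UC t 5, word6 t⟩
    · refine ⟨UC t 0 * UC t 3, ?_⟩
      change U0 t (U3 t (E 0)) = _
      rw [word4, word7]; rfl
    · refine ⟨UC t 0 * UC t 4, ?_⟩
      change U0 t (U4 t (E 0)) = _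
      rw [word5, word8]; rfl
    · refine ⟨UC t 0 * UC t 5, ?_⟩
      change U0 t (U5 t (E 0)) = _
      rw [word6, word9]; rfl
    · refine ⟨UC t 1 * UC t 4, ?_⟩
      change U1 t (U4 t (E 0)) = _
      rw [word5, word10]; rfl
    · refine ⟨UC t 1 * UC t 5, ?_⟩
      change U1 t (U5 t (E 0)) = _
      rw [word6, word11]; rfl
    · refine ⟨UC t 3 * UC t 5, ?_⟩
      change U3 t (U5 t (E 0)) = _
      rw [word6, word12]; rfl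
    · refine ⟨UC t 0 * (UC t 3 * UC t 5), ?_⟩
      change U0 t (U3 t (U5 t (E 0))) = _
      rw [word6, word12, word13]; rfl
  apply Subtype.ext
  apply LinearMap.pi_ext'
  intro i
  apply LinearMap.ext_ring
  obtain ⟨w, hw⟩ := key i
  have hsingle : (Pi.single i 1 : Fin 14 → R) = E i := by
    funext k; simp [E, Pi.single_apply]
  change c.1 (Pi.single i 1) = 0
  rw [hsingle, ← hw]
  have : c.1 (w.1 (E 0)) = w.1 (c.1 (E 0)) := by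
    have h2 : c * w = w * c := mul_comm c w
    exact congrArg (fun z : CC t => z.1 (E 0)) h2
  rw [this, h, map_zero]

end endo

end Pool.Agent.J6H65.Hilb4
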