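import Pool.Agent.J6H65.Hilb4.Free1

set_option autoImplicit false
set_option linter.unusedSimpArgs false
set_option linter.unusedVariables false

namespace Pool.Agent.J6H65.Hilb4

variable {R : Type*} [CommRing R] (t : Fin 9 → R)

/-- The structure scalars inside the commutative algebra of operators. -/
noncomputable def tC (k : Fin 9) : CC t := algebraMap R (CC t) (t k)

theorem relE1234_0 :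
    ((t 0 • (U3 t (E 0))) - (t 1 • (U1 t (E 0))) + (t 2 • (U0 t (E 0)) - U0 t (U0 t (E 0))) : Fin 14 → R) 0 = 0 := by
  simp only [Pi.add_apply, Pi.sub_apply, Pi.smul_apply, Pi.neg_apply, smul_eq_mul, U0_0, U0_1, U0_2, U0_3, U0_4, U0_5, U0_6, U0_7, U0_8, U0_9, U0_10, U0_11, U0_12, U0_13, U1_0, U1_1, U1_2, U1_3, U1_4, U1_5, U1_6, U1_7, U1_8, U1_9, U1_10, U1_11, U1_12, U1_13, U3_0, U3_1, U3_2, U3_3, U3_4, U3_5, U3_6, U3_7, U3_8, U3_9, U3_10, U3_11, U3_12, U3_13, E0_0, E0_1, E0_2, E0_3, E0_4, E0_5, E0_6, E0_7, E0_8, E0_9, E0_10, E0_11, E0_12, E0_13]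
  ring

theorem relE1234_1 :
    ((t 0 • (U3 t (E 0))) - (t 1 • (U1 t (E 0))) + (t 2 • (U0 t (E 0)) - U0 t (U0 t (E 0))) : Fin 14 → R) 1 = 0 := by
  simp only [Pi.add_apply, Pi.sub_apply, Pi.smul_apply, Pi.neg_apply, smul_eq_mul, U0_0, U0_1, U0_2, U0_3, U0_4, U0_5, U0_6, U0_7, U0_8, U0_9, U0_10, U0_11, U0_12, U0_13, U1_0, U1_1, U1_2, U1_3, U1_4, U1_5, U1_6, U1_7, U1_8, U1_9, U1_10, U1_11, U1_12, U1_13, U3_0, U3_1, U3_2, U3_3, U3_4, U3_5, U3_6, U3_7, U3_8, U3_9, U3_10, U3_11, U3_12, U3_13, E0_0, E0_1, E0_2, E0_3, E0_4, E0_5, E0_6, E0_7, E0_8, E0_9, E0_10, E0_11, E0_12, E0_13]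
  ring

theorem relE1234_2 :
    ((t 0 • (U3 t (E 0))) - (t 1 • (U1 t (E 0))) + (t 2 • (U0 t (E 0)) - U0 t (U0 t (E 0))) : Fin 14 → R) 2 = 0 := by
  simp only [Pi.add_apply, Pi.sub_apply, Pi.smul_apply, Pi.neg_apply, smul_eq_mul, U0_0, U0_1, U0_2, U0_3, U0_4, U0_5, U0_6, U0_7, U0_8, U0_9, U0_10, U0_11, U0_12, U0_13, U1_0, U1_1, U1_2, U1_3, U1_4, U1_5, U1_6, U1_7, U1_8, U1_9, U1_10, U1_11, U1_12, U1_13, U3_0, U3_1, U3_2, U3_3, U3_4, U3_5, U3_6, U3_7, U3_8, U3_9, U3_10, U3_11, U3_12, U3_13, E0_0, E0_1, E0_2, E0_3, E0_4, E0_5, E0_6, E0_7, E0_8, E0_9, E0_10, E0_11, E0_12, E0_13]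
  ring

theorem relE1234_3 :
    ((t 0 • (U3 t (E 0))) - (t 1 • (U1 t (E 0))) + (t 2 • (U0 t (E 0)) - U0 t (U0 t (E 0))) : Fin 14 → R) 3 = 0 := by
  simp only [Pi.add_apply, Pi.sub_apply, Pi.smul_apply, Pi.neg_apply, smul_eq_mul, U0_0, U0_1, U0_2, U0_3, U0_4, U0_5, U0_6, U0_7, U0_8, U0_9, U0_10, U0_11, U0_12, U0_13, U1_0, U1_1, U1_2, U1_3, U1_4, U1_5, U1_6, U1_7, U1_8, U1_9, U1_10, U1_11, U1_12, U1_13, U3_0, U3_1, U3_2, U3_3, U3_4, U3_5, U3_6, U3_7, U3_8, U3_9, U3_10, U3_11, U3_12, U3_13, E0_0, E0_1, E0_2, E0_3, E0_4, E0_5, E0_6, E0_7, E0_8, E0_9, E0_10, E0_11, E0_12, E0_13]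
  ring

theorem relE1234_4 :
    ((t 0 • (U3 t (E 0))) - (t 1 • (U1 t (E 0))) + (t 2 • (U0 t (E 0)) - U0 t (U0 t (E 0))) : Fin 14 → R) 4 = 0 := by
  simp only [Pi.add_apply, Pi.sub_apply, Pi.smul_apply, Pi.neg_apply, smul_eq_mul, U0_0, U0_1, U0_2, U0_3, U0_4, U0_5, U0_6, U0_7, U0_8, U0_9, U0_10, U0_11, U0_12, U0_13, U1_0, U1_1, U1_2, U1_3, U1_4, U1_5, U1_6, U1_7, U1_8, U1_9, U1_10, U1_11, U1_12, U1_13, U3_0, U3_1, U3_2, U3_3, U3_4, U3_5, U3_6, U3_7, U3_8, U3_9, U3_10, U3_11, U3_12, U3_13, E0_0, E0_1, E0_2, E0_3, E0_4, E0_5, E0_6, E0_7, E0_8, E0_9, E0_10, E0_11, E0_12, E0_13]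
  ring

theorem relE1234_5 :
    ((t 0 • (U3 t (E 0))) - (t 1 • (U1 t (E 0))) + (t 2 • (U0 t (E 0)) - U0 t (U0 t (E 0))) : Fin 14 → R) 5 = 0 := by
  simp only [Pi.add_apply, Pi.sub_apply, Pi.smul_apply, Pi.neg_apply, smul_eq_mul, U0_0, U0_1, U0_2, U0_3, U0_4, U0_5, U0_6, U0_7, U0_8, U0_9, U0_10, U0_11, U0_12, U0_13, U1_0, U1_1, U1_2, U1_3, U1_4, U1_5, U1_6, U1_7, U1_8, U1_9, U1_10, U1_11, U1_12, U1_13, U3_0, U3_1, U3_2, U3_3, U3_4, U3_5, U3_6, U3_7, U3_8, U3_9, U3_10, U3_11, U3_12, U3_13, E0_0, E0_1, E0_2, E0_3, E0_4, E0_5, E0_6, E0_7, E0_8, E0_9, E0_10, E0_11, E0_12, E0_13]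
  ring

theorem relE1234_6 :
    ((t 0 • (U3 t (E 0))) - (t 1 • (U1 t (E 0))) + (t 2 • (U0 t (E 0)) - U0 t (U0 t (E 0))) : Fin 14 → R) 6 = 0 := by
  simp only [Pi.add_apply, Pi.sub_apply, Pi.smul_apply, Pi.neg_apply, smul_eq_mul, U0_0, U0_1, U0_2, U0_3, U0_4, U0_5, U0_6, U0_7, U0_8, U0_9, U0_10, U0_11, U0_12, U0_13, U1_0, U1_1, U1_2, U1_3, U1_4, U1_5, U1_6, U1_7, U1_8, U1_9, U1_10, U1_11, U1_12, U1_13, U3_0, U3_1, U3_2, U3_3, U3_4, U3_5, U3_6, U3_7, U3_8, U3_9, U3_10, U3_11, U3_12, U3_13, E0_0, E0_1, E0_2, E0_3, E0_4, E0_5, E0_6, E0_7, E0_8, E0_9, E0_10, E0_11, E0_12, E0_13]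
  ring

theorem relE1234_7 :
    ((t 0 • (U3 t (E 0))) - (t 1 • (U1 t (E 0))) + (t 2 • (U0 t (E 0)) - U0 t (U0 t (E 0))) : Fin 14 → R) 7 = 0 := by
  simp only [Pi.add_apply, Pi.sub_apply, Pi.smul_apply, Pi.neg_apply, smul_eq_mul, U0_0, U0_1, U0_2, U0_3, U0_4, U0_5, U0_6, U0_7, U0_8, U0_9, U0_10, U0_11, U0_12, U0_13, U1_0, U1_1, U1_2, U1_3, U1_4, U1_5, U1_6, U1_7, U1_8, U1_9, U1_10, U1_11, U1_12, U1_13, U3_0, U3_1, U3_2, U3_3, U3_4, U3_5, U3_6, U3_7, U3_8, U3_9, U3_10, U3_11, U3_12, U3_13, E0_0, E0_1, E0_2, E0_3, E0_4, E0_5, E0_6, E0_7, E0_8, E0_9, E0_10, E0_11, E0_12, E0_13]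
  ring

theorem relE1234_8 :
    ((t 0 • (U3 t (E 0))) - (t 1 • (U1 t (E 0))) + (t 2 • (U0 t (E 0)) - U0 t (U0 t (E 0))) : Fin 14 → R) 8 = 0 := by
  simp only [Pi.add_apply, Pi.sub_apply, Pi.smul_apply, Pi.neg_apply, smul_eq_mul, U0_0, U0_1, U0_2, U0_3, U0_4, U0_5, U0_6, U0_7, U0_8, U0_9, U0_10, U0_11, U0_12, U0_13, U1_0, U1_1, U1_2, U1_3, U1_4, U1_5, U1_6, U1_7, U1_8, U1_9, U1_10, U1_11, U1_12, U1_13, U3_0, U3_1, U3_2, U3_3, U3_4, U3_5, U3_6, U3_7, U3_8, U3_9, U3_10, U3_11, U3_12, U3_13, E0_0, E0_1, E0_2, E0_3, E0_4, E0_5, E0_6, E0_7, E0_8, E0_9, E0_10, E0_11, E0_12, E0_13]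
  ring

theorem relE1234_9 :
    ((t 0 • (U3 t (E 0))) - (t 1 • (U1 t (E 0))) + (t 2 • (U0 t (E 0)) - U0 t (U0 t (E 0))) : Fin 14 → R) 9 = 0 := by
  simp only [Pi.add_apply, Pi.sub_apply, Pi.smul_apply, Pi.neg_apply, smul_eq_mul, U0_0, U0_1, U0_2, U0_3, U0_4, U0_5, U0_6, U0_7, U0_8, U0_9, U0_10, U0_11, U0_12, U0_13, U1_0, U1_1, U1_2, U1_3, U1_4, U1_5, U1_6, U1_7, U1_8, U1_9, U1_10, U1_11, U1_12, U1_13, U3_0, U3_1, U3_2, U3_3, U3_4, U3_5, U3_6, U3_7, U3_8, U3_9, U3_10, U3_11, U3_12, U3_13, E0_0, E0_1, E0_2, E0_3, E0_4, E0_5, E0_6, E0_7, E0_8, E0_9, E0_10, E0_11, E0_12, E0_13]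
  ring

theorem relE1234_10 :
    ((t 0 • (U3 t (E 0))) - (t 1 • (U1 t (E 0))) + (t 2 • (U0 t (E 0)) - U0 t (U0 t (E 0))) : Fin 14 → R) 10 = 0 := by
  simp only [Pi.add_apply, Pi.sub_apply, Pi.smul_apply, Pi.neg_apply, smul_eq_mul, U0_0, U0_1, U0_2, U0_3, U0_4, U0_5, U0_6, U0_7, U0_8, U0_9, U0_10, U0_11, U0_12, U0_13, U1_0, U1_1, U1_2, U1_3, U1_4, U1_5, U1_6, U1_7, U1_8, U1_9, U1_10, U1_11, U1_12, U1_13, U3_0, U3_1, U3_2, U3_3, U3_4, U3_5, U3_6, U3_7, U3_8, U3_9, U3_10, U3_11, U3_12, U3_13, E0_0, E0_1, E0_2, E0_3, E0_4, E0_5, E0_6, E0_7, E0_8, E0_9, E0_10, E0_11, E0_12, E0_13]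
  ring

theorem relE1234_11 :
    ((t 0 • (U3 t (E 0))) - (t 1 • (U1 t (E 0))) + (t 2 • (U0 t (E 0)) - U0 t (U0 t (E 0))) : Fin 14 → R) 11 = 0 := by
  simp only [Pi.add_apply, Pi.sub_apply, Pi.smul_apply, Pi.neg_apply, smul_eq_mul, U0_0, U0_1, U0_2, U0_3, U0_4, U0_5, U0_6, U0_7, U0_8, U0_9, U0_10, U0_11, U0_12, U0_13, U1_0, U1_1, U1_2, U1_3, U1_4, U1_5, U1_6, U1_7, U1_8, U1_9, U1_10, U1_11, U1_12, U1_13, U3_0, U3_1, U3_2, U3_3, U3_4, U3_5, U3_6, U3_7, U3_8, U3_9, U3_10, U3_11, U3_12, U3_13, E0_0, E0_1, E0_2, E0_3, E0_4, E0_5, E0_6, E0_7, E0_8, E0_9, E0_10, E0_11, E0_12, E0_13]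
  ring

theorem relE1234_12 :
    ((t 0 • (U3 t (E 0))) - (t 1 • (U1 t (E 0))) + (t 2 • (U0 t (E 0)) - U0 t (U0 t (E 0))) : Fin 14 → R) 12 = 0 := by
  simp only [Pi.add_apply, Pi.sub_apply, Pi.smul_apply, Pi.neg_apply, smul_eq_mul, U0_0, U0_1, U0_2, U0_3, U0_4, U0_5, U0_6, U0_7, U0_8, U0_9, U0_10, U0_11, U0_12, U0_13, U1_0, U1_1, U1_2, U1_3, U1_4, U1_5, U1_6, U1_7, U1_8, U1_9, U1_10, U1_11, U1_12, U1_13, U3_0, U3_1, U3_2, U3_3, U3_4, U3_5, U3_6, U3_7, U3_8, U3_9, U3_10, U3_11, U3_12, U3_13, E0_0, E0_1, E0_2, E0_3, E0_4, E0_5, E0_6, E0_7, E0_8, E0_9, E0_10, E0_11, E0_12, E0_13]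
  ring

theorem relE1234_13 :
    ((t 0 • (U3 t (E 0))) - (t 1 • (U1 t (E 0))) + (t 2 • (U0 t (E 0)) - U0 t (U0 t (E 0))) : Fin 14 → R) 13 = 0 := by
  simp only [Pi.add_apply, Pi.sub_apply, Pi.smul_apply, Pi.neg_apply, smul_eq_mul, U0_0, U0_1, U0_2, U0_3, U0_4, U0_5, U0_6, U0_7, U0_8, U0_9, U0_10, U0_11, U0_12, U0_13, U1_0, U1_1, U1_2, U1_3, U1_4, U1_5, U1_6, U1_7, U1_8, U1_9, U1_10, U1_11, U1_12, U1_13, U3_0, U3_1, U3_2, U3_3, U3_4, U3_5, U3_6, U3_7, U3_8, U3_9, U3_10, U3_11, U3_12, U3_13, E0_0, E0_1, E0_2, E0_3, E0_4, E0_5, E0_6, E0_7, E0_8, E0_9, E0_10, E0_11, E0_12, E0_13]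
  ring

theorem relE1234 :
    ((t 0 • (U3 t (E 0))) - (t 1 • (U1 t (E 0))) + (t 2 • (U0 t (E 0)) - U0 t (U0 t (E 0))) : Fin 14 → R) = 0 := by
  refine funext fun i => ?_
  fin_cases i
  exacts [relE1234_0 t, relE1234_1 t, relE1234_2 t, relE1234_3 t, relE1234_4 t, relE1234_5 t, relE1234_6 t, relE1234_7 t, relE1234_8 t, relE1234_9 t, relE1234_10 t, relE1234_11 t, relE1234_12 t, relE1234_13 t]

theorem relC1234 : tC t 0 * UC t 3 - tC t 1 * UC t 1 + (tC t 2 - UC t 0) * UC t 0 = 0 :=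
  cyc t _ (relE1234 t)

theorem relE1235_0 :
    ((t 0 • (U4 t (E 0))) - (t 1 • (U2 t (E 0))) + (t 3 • (U0 t (E 0)) - U1 t (U0 t (E 0))) : Fin 14 → R) 0 = 0 := by
  simp only [Pi.add_apply, Pi.sub_apply, Pi.smul_apply, Pi.neg_apply, smul_eq_mul, U0_0, U0_1, U0_2, U0_3, U0_4, U0_5, U0_6, U0_7, U0_8, U0_9, U0_10, U0_11, U0_12, U0_13, U1_0, U1_1, U1_2, U1_3, U1_4, U1_5, U1_6, U1_7, U1_8, U1_9, U1_10, U1_11, U1_12, U1_13, U2_0, U2_1, U2_2, U2_3, U2_4, U2_5, U2_6, U2_7, U2_8, U2_9, U2_10, U2_11, U2_12, U2_13, U4_0, U4_1, U4_2, U4_3, U4_4, U4_5, U4_6, U4_7, U4_8, U4_9, U4_10, U4_11, U4_12, U4_13, E0_0, E0_1, E0_2, E0_3, E0_4, E0_5, E0_6, E0_7, E0_8, E0_9, E0_10, E0_11, E0_12, E0_13]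
  ring

theorem relE1235_1 :
    ((t 0 • (U4 t (E 0))) - (t 1 • (U2 t (E 0))) + (t 3 • (U0 t (E 0)) - U1 t (U0 t (E 0))) : Fin 14 → R) 1 = 0 := by
  simp only [Pi.add_apply, Pi.sub_apply, Pi.smul_apply, Pi.neg_apply, smul_eq_mul, U0_0, U0_1, U0_2, U0_3, U0_4, U0_5, U0_6, U0_7, U0_8, U0_9, U0_10, U0_11, U0_12, U0_13, U1_0, U1_1, U1_2, U1_3, U1_4, U1_5, U1_6, U1_7, U1_8, U1_9, U1_10, U1_11, U1_12, U1_13, U2_0, U2_1, U2_2, U2_3, U2_4, U2_5, U2_6, U2_7, U2_8, U2_9, U2_10, U2_11, U2_12, U2_13, U4_0, U4_1, U4_2, U4_3, U4_4, U4_5, U4_6, U4_7, U4_8, U4_9, U4_10, U4_11, U4_12, U4_13, E0_0, E0_1, E0_2, E0_3, E0_4, E0_5, E0_6, E0_7, E0_8, E0_9, E0_10, E0_11, E0_12, E0_13]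
  ring

theorem relE1235_2 :
    ((t 0 • (U4 t (E 0))) - (t 1 • (U2 t (E 0))) + (t 3 • (U0 t (E 0)) - U1 t (U0 t (E 0))) : Fin 14 → R) 2 = 0 := by
  simp only [Pi.add_apply, Pi.sub_apply, Pi.smul_apply, Pi.neg_apply, smul_eq_mul, U0_0, U0_1, U0_2, U0_3, U0_4, U0_5, U0_6, U0_7, U0_8, U0_9, U0_10, U0_11, U0_12, U0_13, U1_0, U1_1, U1_2, U1_3, U1_4, U1_5, U1_6, U1_7, U1_8, U1_9, U1_10, U1_11, U1_12, U1_13, U2_0, U2_1, U2_2, U2_3, U2_4, U2_5, U2_6, U2_7, U2_8, U2_9, U2_10, U2_11, U2_12, U2_13, U4_0, U4_1, U4_2, U4_3, U4_4, U4_5, U4_6, U4_7, U4_8, U4_9, U4_10, U4_11, U4_12, U4_13, E0_0, E0_1, E0_2, E0_3, E0_4, E0_5, E0_6, E0_7, E0_8, E0_9, E0_10, E0_11, E0_12, E0_13]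
  ring

theorem relE1235_3 :
    ((t 0 • (U4 t (E 0))) - (t 1 • (U2 t (E 0))) + (t 3 • (U0 t (E 0)) - U1 t (U0 t (E 0))) : Fin 14 → R) 3 = 0 := by
  simp only [Pi.add_apply, Pi.sub_apply, Pi.smul_apply, Pi.neg_apply, smul_eq_mul, U0_0, U0_1, U0_2, U0_3, U0_4, U0_5, U0_6, U0_7, U0_8, U0_9, U0_10, U0_11, U0_12, U0_13, U1_0, U1_1, U1_2, U1_3, U1_4, U1_5, U1_6, U1_7, U1_8, U1_9, U1_10, U1_11, U1_12, U1_13, U2_0, U2_1, U2_2, U2_3, U2_4, U2_5, U2_6, U2_7, U2_8, U2_9, U2_10, U2_11, U2_12, U2_13, U4_0, U4_1, U4_2, U4_3, U4_4, U4_5, U4_6, U4_7, U4_8, U4_9, U4_10, U4_11, U4_12, U4_13, E0_0, E0_1, E0_2, E0_3, E0_4, E0_5, E0_6, E0_7, E0_8, E0_9, E0_10, E0_11, E0_12, E0_13]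
  ring

theorem relE1235_4 :
    ((t 0 • (U4 t (E 0))) - (t 1 • (U2 t (E 0))) + (t 3 • (U0 t (E 0)) - U1 t (U0 t (E 0))) : Fin 14 → R) 4 = 0 := by
  simp only [Pi.add_apply, Pi.sub_apply, Pi.smul_apply, Pi.neg_apply, smul_eq_mul, U0_0, U0_1, U0_2, U0_3, U0_4, U0_5, U0_6, U0_7, U0_8, U0_9, U0_10, U0_11, U0_12, U0_13, U1_0, U1_1, U1_2, U1_3, U1_4, U1_5, U1_6, U1_7, U1_8, U1_9, U1_10, U1_11, U1_12, U1_13, U2_0, U2_1, U2_2, U2_3, U2_4, U2_5, U2_6, U2_7, U2_8, U2_9, U2_10, U2_11, U2_12, U2_13, U4_0, U4_1, U4_2, U4_3, U4_4, U4_5, U4_6, U4_7, U4_8, U4_9, U4_10, U4_11, U4_12, U4_13, E0_0, E0_1, E0_2, E0_3, E0_4, E0_5, E0_6, E0_7, E0_8, E0_9, E0_10, E0_11, E0_12, E0_13]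
  ring

theorem relE1235_5 :
    ((t 0 • (U4 t (E 0))) - (t 1 • (U2 t (E 0))) + (t 3 • (U0 t (E 0)) - U1 t (U0 t (E 0))) : Fin 14 → R) 5 = 0 := by
  simp only [Pi.add_apply, Pi.sub_apply, Pi.smul_apply, Pi.neg_apply, smul_eq_mul, U0_0, U0_1, U0_2, U0_3, U0_4, U0_5, U0_6, U0_7, U0_8, U0_9, U0_10, U0_11, U0_12, U0_13, U1_0, U1_1, U1_2, U1_3, U1_4, U1_5, U1_6, U1_7, U1_8, U1_9, U1_10, U1_11, U1_12, U1_13, U2_0, U2_1, U2_2, U2_3, U2_4, U2_5, U2_6, U2_7, U2_8, U2_9, U2_10, U2_11, U2_12, U2_13, U4_0, U4_1, U4_2, U4_3, U4_4, U4_5, U4_6, U4_7, U4_8, U4_9, U4_10, U4_11, U4_12, U4_13, E0_0, E0_1, E0_2, E0_3, E0_4, E0_5, E0_6, E0_7, E0_8, E0_9, E0_10, E0_11, E0_12, E0_13]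
  ring

theorem relE1235_6 :
    ((t 0 • (U4 t (E 0))) - (t 1 • (U2 t (E 0))) + (t 3 • (U0 t (E 0)) - U1 t (U0 t (E 0))) : Fin 14 → R) 6 = 0 := by
  simp only [Pi.add_apply, Pi.sub_apply, Pi.smul_apply, Pi.neg_apply, smul_eq_mul, U0_0, U0_1, U0_2, U0_3, U0_4, U0_5, U0_6, U0_7, U0_8, U0_9, U0_10, U0_11, U0_12, U0_13, U1_0, U1_1, U1_2, U1_3, U1_4, U1_5, U1_6, U1_7, U1_8, U1_9, U1_10, U1_11, U1_12, U1_13, U2_0, U2_1, U2_2, U2_3, U2_4, U2_5, U2_6, U2_7, U2_8, U2_9, U2_10, U2_11, U2_12, U2_13, U4_0, U4_1, U4_2, U4_3, U4_4, U4_5, U4_6, U4_7, U4_8, U4_9, U4_10, U4_11, U4_12, U4_13, E0_0, E0_1, E0_2, E0_3, E0_4, E0_5, E0_6, E0_7, E0_8, E0_9, E0_10, E0_11, E0_12, E0_13]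
  ring

theorem relE1235_7 :
    ((t 0 • (U4 t (E 0))) - (t 1 • (U2 t (E 0))) + (t 3 • (U0 t (E 0)) - U1 t (U0 t (E 0))) : Fin 14 → R) 7 = 0 := by
  simp only [Pi.add_apply, Pi.sub_apply, Pi.smul_apply, Pi.neg_apply, smul_eq_mul, U0_0, U0_1, U0_2, U0_3, U0_4, U0_5, U0_6, U0_7, U0_8, U0_9, U0_10, U0_11, U0_12, U0_13, U1_0, U1_1, U1_2, U1_3, U1_4, U1_5, U1_6, U1_7, U1_8, U1_9, U1_10, U1_11, U1_12, U1_13, U2_0, U2_1, U2_2, U2_3, U2_4, U2_5, U2_6, U2_7, U2_8, U2_9, U2_10, U2_11, U2_12, U2_13, U4_0, U4_1, U4_2, U4_3, U4_4, U4_5, U4_6, U4_7, U4_8, U4_9, U4_10, U4_11, U4_12, U4_13, E0_0, E0_1, E0_2, E0_3, E0_4, E0_5, E0_6, E0_7, E0_8, E0_9, E0_10, E0_11, E0_12, E0_13]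
  ring

theorem relE1235_8 :
    ((t 0 • (U4 t (E 0))) - (t 1 • (U2 t (E 0))) + (t 3 • (U0 t (E 0)) - U1 t (U0 t (E 0))) : Fin 14 → R) 8 = 0 := by
  simp only [Pi.add_apply, Pi.sub_apply, Pi.smul_apply, Pi.neg_apply, smul_eq_mul, U0_0, U0_1, U0_2, U0_3, U0_4, U0_5, U0_6, U0_7, U0_8, U0_9, U0_10, U0_11, U0_12, U0_13, U1_0, U1_1, U1_2, U1_3, U1_4, U1_5, U1_6, U1_7, U1_8, U1_9, U1_10, U1_11, U1_12, U1_13, U2_0, U2_1, U2_2, U2_3, U2_4, U2_5, U2_6, U2_7, U2_8, U2_9, U2_10, U2_11, U2_12, U2_13, U4_0, U4_1, U4_2, U4_3, U4_4, U4_5, U4_6, U4_7, U4_8, U4_9, U4_10, U4_11, U4_12, U4_13, E0_0, E0_1, E0_2, E0_3, E0_4, E0_5, E0_6, E0_7, E0_8, E0_9, E0_10, E0_11, E0_12, E0_13]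
  ring

theorem relE1235_9 :
    ((t 0 • (U4 t (E 0))) - (t 1 • (U2 t (E 0))) + (t 3 • (U0 t (E 0)) - U1 t (U0 t (E 0))) : Fin 14 → R) 9 = 0 := by
  simp only [Pi.add_apply, Pi.sub_apply, Pi.smul_apply, Pi.neg_apply, smul_eq_mul, U0_0, U0_1, U0_2, U0_3, U0_4, U0_5, U0_6, U0_7, U0_8, U0_9, U0_10, U0_11, U0_12, U0_13, U1_0, U1_1, U1_2, U1_3, U1_4, U1_5, U1_6, U1_7, U1_8, U1_9, U1_10, U1_11, U1_12, U1_13, U2_0, U2_1, U2_2, U2_3, U2_4, U2_5, U2_6, U2_7, U2_8, U2_9, U2_10, U2_11, U2_12, U2_13, U4_0, U4_1, U4_2, U4_3, U4_4, U4_5, U4_6, U4_7, U4_8, U4_9, U4_10, U4_11, U4_12, U4_13, E0_0, E0_1, E0_2, E0_3, E0_4, E0_5, E0_6, E0_7, E0_8, E0_9, E0_10, E0_11, E0_12, E0_13]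
  ring

theorem relE1235_10 :
    ((t 0 • (U4 t (E 0))) - (t 1 • (U2 t (E 0))) + (t 3 • (U0 t (E 0)) - U1 t (U0 t (E 0))) : Fin 14 → R) 10 = 0 := by
  simp only [Pi.add_apply, Pi.sub_apply, Pi.smul_apply, Pi.neg_apply, smul_eq_mul, U0_0, U0_1, U0_2, U0_3, U0_4, U0_5, U0_6, U0_7, U0_8, U0_9, U0_10, U0_11, U0_12, U0_13, U1_0, U1_1, U1_2, U1_3, U1_4, U1_5, U1_6, U1_7, U1_8, U1_9, U1_10, U1_11, U1_12, U1_13, U2_0, U2_1, U2_2, U2_3, U2_4, U2_5, U2_6, U2_7, U2_8, U2_9, U2_10, U2_11, U2_12, U2_13, U4_0, U4_1, U4_2, U4_3, U4_4, U4_5, U4_6, U4_7, U4_8, U4_9, U4_10, U4_11, U4_12, U4_13, E0_0, E0_1, E0_2, E0_3, E0_4, E0_5, E0_6, E0_7, E0_8, E0_9, E0_10, E0_11, E0_12, E0_13]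
  ring

theorem relE1235_11 :
    ((t 0 • (U4 t (E 0))) - (t 1 • (U2 t (E 0))) + (t 3 • (U0 t (E 0)) - U1 t (U0 t (E 0))) : Fin 14 → R) 11 = 0 := by
  simp only [Pi.add_apply, Pi.sub_apply, Pi.smul_apply, Pi.neg_apply, smul_eq_mul, U0_0, U0_1, U0_2, U0_3, U0_4, U0_5, U0_6, U0_7, U0_8, U0_9, U0_10, U0_11, U0_12, U0_13, U1_0, U1_1, U1_2, U1_3, U1_4, U1_5, U1_6, U1_7, U1_8, U1_9, U1_10, U1_11, U1_12, U1_13, U2_0, U2_1, U2_2, U2_3, U2_4, U2_5, U2_6, U2_7, U2_8, U2_9, U2_10, U2_11, U2_12, U2_13, U4_0, U4_1, U4_2, U4_3, U4_4, U4_5, U4_6, U4_7, U4_8, U4_9, U4_10, U4_11, U4_12, U4_13, E0_0, E0_1, E0_2, E0_3, E0_4, E0_5, E0_6, E0_7, E0_8, E0_9, E0_10, E0_11, E0_12, E0_13]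
  ring

theorem relE1235_12 :
    ((t 0 • (U4 t (E 0))) - (t 1 • (U2 t (E 0))) + (t 3 • (U0 t (E 0)) - U1 t (U0 t (E 0))) : Fin 14 → R) 12 = 0 := by
  simp only [Pi.add_apply, Pi.sub_apply, Pi.smul_apply, Pi.neg_apply, smul_eq_mul, U0_0, U0_1, U0_2, U0_3, U0_4, U0_5, U0_6, U0_7, U0_8, U0_9, U0_10, U0_11, U0_12, U0_13, U1_0, U1_1, U1_2, U1_3, U1_4, U1_5, U1_6, U1_7, U1_8, U1_9, U1_10, U1_11, U1_12, U1_13, U2_0, U2_1, U2_2, U2_3, U2_4, U2_5, U2_6, U2_7, U2_8, U2_9, U2_10, U2_11, U2_12, U2_13, U4_0, U4_1, U4_2, U4_3, U4_4, U4_5, U4_6, U4_7, U4_8, U4_9, U4_10, U4_11, U4_12, U4_13, E0_0, E0_1, E0_2, E0_3, E0_4, E0_5, E0_6, E0_7, E0_8, E0_9, E0_10, E0_11, E0_12, E0_13]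
  ring

theorem relE1235_13 :
    ((t 0 • (U4 t (E 0))) - (t 1 • (U2 t (E 0))) + (t 3 • (U0 t (E 0)) - U1 t (U0 t (E 0))) : Fin 14 → R) 13 = 0 := by
  simp only [Pi.add_apply, Pi.sub_apply, Pi.smul_apply, Pi.neg_apply, smul_eq_mul, U0_0, U0_1, U0_2, U0_3, U0_4, U0_5, U0_6, U0_7, U0_8, U0_9, U0_10, U0_11, U0_12, U0_13, U1_0, U1_1, U1_2, U1_3, U1_4, U1_5, U1_6, U1_7, U1_8, U1_9, U1_10, U1_11, U1_12, U1_13, U2_0, U2_1, U2_2, U2_3, U2_4, U2_5, U2_6, U2_7, U2_8, U2_9, U2_10, U2_11, U2_12, U2_13, U4_0, U4_1, U4_2, U4_3, U4_4, U4_5, U4_6, U4_7, U4_8, U4_9, U4_10, U4_11, U4_12, U4_13, E0_0, E0_1, E0_2, E0_3, E0_4, E0_5, E0_6, E0_7, E0_8, E0_9, E0_10, E0_11, E0_12, E0_13]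
  ring

theorem relE1235 :
    ((t 0 • (U4 t (E 0))) - (t 1 • (U2 t (E 0))) + (t 3 • (U0 t (E 0)) - U1 t (U0 t (E 0))) : Fin 14 → R) = 0 := by
  refine funext fun i => ?_
  fin_cases i
  exacts [relE1235_0 t, relE1235_1 t, relE1235_2 t, relE1235_3 t, relE1235_4 t, relE1235_5 t, relE1235_6 t, relE1235_7 t, relE1235_8 t, relE1235_9 t, relE1235_10 t, relE1235_11 t, relE1235_12 t, relE1235_13 t]

theorem relC1235 : tC t 0 * UC t 4 - tC t 1 * UC t 2 + (tC t 3 - UC t 1) * UC t 0 = 0 :=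
  cyc t _ (relE1235 t)

theorem relE1236_0 :
    ((t 0 • (t 6 • (E 0) - U5 t (E 0))) - (t 1 • (t 5 • (E 0) - U4 t (E 0))) + (t 4 • (U0 t (E 0)) - U2 t (U0 t (E 0)) - U3 t (U0 t (E 0))) : Fin 14 → R) 0 = 0 := by
  simp only [Pi.add_apply, Pi.sub_apply, Pi.smul_apply, Pi.neg_apply, smul_eq_mul, U0_0, U0_1, U0_2, U0_3, U0_4, U0_5, U0_6, U0_7, U0_8, U0_9, U0_10, U0_11, U0_12, U0_13, U2_0, U2_1, U2_2, U2_3, U2_4, U2_5, U2_6, U2_7, U2_8, U2_9, U2_10, U2_11, U2_12, U2_13, U3_0, U3_1, U3_2, U3_3, U3_4, U3_5, U3_6, U3_7, U3_8, U3_9, U3_10, U3_11, U3_12, U3_13, U4_0, U4_1, U4_2, U4_3, U4_4, U4_5, U4_6, U4_7, U4_8, U4_9, U4_10, U4_11, U4_12, U4_13, U5_0, U5_1, U5_2, U5_3, U5_4, U5_5, U5_6, U5_7, U5_8, U5_9, U5_10, U5_11, U5_12, U5_13, E0_0, E0_1, E0_2, E0_3, E0_4, E0_5, E0_6, E0_7, E0_8, E0_9,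 E0_10, E0_11, E0_12, E0_13]
  ring

theorem relE1236_1 :
    ((t 0 • (t 6 • (E 0) - U5 t (E 0))) - (t 1 • (t 5 • (E 0) - U4 t (E 0))) + (t 4 • (U0 t (E 0)) - U2 t (U0 t (E 0)) - U3 t (U0 t (E 0))) : Fin 14 → R) 1 = 0 := by
  simp only [Pi.add_apply, Pi.sub_apply, Pi.smul_apply, Pi.neg_apply, smul_eq_mul, U0_0, U0_1, U0_2, U0_3, U0_4, U0_5, U0_6, U0_7, U0_8, U0_9, U0_10, U0_11, U0_12, U0_13, U2_0, U2_1, U2_2, U2_3, U2_4, U2_5, U2_6, U2_7, U2_8, U2_9, U2_10, U2_11, U2_12, U2_13, U3_0, U3_1, U3_2, U3_3, U3_4, U3_5, U3_6, U3_7, U3_8, U3_9, U3_10, U3_11, U3_12, U3_13, U4_0, U4_1, U4_2, U4_3, U4_4, U4_5, U4_6, U4_7, U4_8, U4_9, U4_10, U4_11, U4_12, U4_13, U5_0, U5_1, U5_2, U5_3, U5_4, U5_5, U5_6, U5_7, U5_8, U5_9, U5_10, U5_11, U5_12, U5_13, E0_0, E0_1, E0_2, E0_3, E0_4, E0_5, E0_6, E0_7,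 E0_8, E0_9, E0_10, E0_11, E0_12, E0_13]
  ring

theorem relE1236_2 :
    ((t 0 • (t 6 • (E 0) - U5 t (E 0))) - (t 1 • (t 5 • (E 0) - U4 t (E 0))) + (t 4 • (U0 t (E 0)) - U2 t (U0 t (E 0)) - U3 t (U0 t (E 0))) : Fin 14 → R) 2 = 0 := by
  simp only [Pi.add_apply, Pi.sub_apply, Pi.smul_apply, Pi.neg_apply, smul_eq_mul, U0_0, U0_1, U0_2, U0_3, U0_4, U0_5, U0_6, U0_7, U0_8, U0_9, U0_10, U0_11, U0_12, U0_13, U2_0, U2_1, U2_2, U2_3, U2_4, U2_5, U2_6, U2_7, U2_8, U2_9, U2_10, U2_11, U2_12, U2_13, U3_0, U3_1, U3_2, U3_3, U3_4, U3_5, U3_6, U3_7, U3_8, U3_9, U3_10, U3_11, U3_12, U3_13, U4_0, U4_1, U4_2, U4_3, U4_4, U4_5, U4_6, U4_7, U4_8, U4_9, U4_10, U4_11, U4_12, U4_13, U5_0, U5_1, U5_2, U5_3, U5_4, U5_5, U5_6, U5_7, U5_8, U5_9, U5_10, U5_11, U5_12, U5_13, E0_0, E0_1, E0_2, E0_3, E0_4, E0_5,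 E0_6, E0_7, E0_8, E0_9, E0_10, E0_11, E0_12, E0_13]
  ring

theorem relE1236_3 :
    ((t 0 • (t 6 • (E 0) - U5 t (E 0))) - (t 1 • (t 5 • (E 0) - U4 t (E 0))) + (t 4 • (U0 t (E 0)) - U2 t (U0 t (E 0)) - U3 t (U0 t (E 0))) : Fin 14 → R) 3 = 0 := by
  simp only [Pi.add_apply, Pi.sub_apply, Pi.smul_apply, Pi.neg_apply, smul_eq_mul, U0_0, U0_1, U0_2, U0_3, U0_4, U0_5, U0_6, U0_7, U0_8, U0_9, U0_10, U0_11, U0_12, U0_13, U2_0, U2_1, U2_2, U2_3, U2_4, U2_5, U2_6, U2_7, U2_8, U2_9, U2_10, U2_11, U2_12, U2_13, U3_0, U3_1, U3_2, U3_3, U3_4, U3_5, U3_6, U3_7, U3_8, U3_9, U3_10, U3_11, U3_12, U3_13, U4_0, U4_1, U4_2, U4_3, U4_4, U4_5, U4_6, U4_7, U4_8, U4_9, U4_10, U4_11, U4_12, U4_13, U5_0, U5_1, U5_2, U5_3, U5_4, U5_5, U5_6, U5_7, U5_8, U5_9, U5_10, U5_11, U5_12, U5_13, E0_0, E0_1, E0_2, E0_3,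 E0_4, E0_5, E0_6, E0_7, E0_8, E0_9, E0_10, E0_11, E0_12, E0_13]
  ring

theorem relE1236_4 :
    ((t 0 • (t 6 • (E 0) - U5 t (E 0))) - (t 1 • (t 5 • (E 0) - U4 t (E 0))) + (t 4 • (U0 t (E 0)) - U2 t (U0 t (E 0)) - U3 t (U0 t (E 0))) : Fin 14 → R) 4 = 0 := by
  simp only [Pi.add_apply, Pi.sub_apply, Pi.smul_apply, Pi.neg_apply, smul_eq_mul, U0_0, U0_1, U0_2, U0_3, U0_4, U0_5, U0_6, U0_7, U0_8, U0_9, U0_10, U0_11, U0_12, U0_13, U2_0, U2_1, U2_2, U2_3, U2_4, U2_5, U2_6, U2_7, U2_8, U2_9, U2_10, U2_11, U2_12, U2_13, U3_0, U3_1, U3_2, U3_3, U3_4, U3_5, U3_6, U3_7, U3_8, U3_9, U3_10, U3_11, U3_12, U3_13, U4_0, U4_1, U4_2, U4_3, U4_4, U4_5, U4_6, U4_7, U4_8, U4_9, U4_10, U4_11, U4_12, U4_13, U5_0, U5_1, U5_2, U5_3, U5_4, U5_5, U5_6, U5_7, U5_8, U5_9, U5_10, U5_11, U5_12, U5_13, E0_0, E0_1,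 E0_2, E0_3, E0_4, E0_5, E0_6, E0_7, E0_8, E0_9, E0_10, E0_11, E0_12, E0_13]
  ring

theorem relE1236_5 :
    ((t 0 • (t 6 • (E 0) - U5 t (E 0))) - (t 1 • (t 5 • (E 0) - U4 t (E 0))) + (t 4 • (U0 t (E 0)) - U2 t (U0 t (E 0)) - U3 t (U0 t (E 0))) : Fin 14 → R) 5 = 0 := by
  simp only [Pi.add_apply, Pi.sub_apply, Pi.smul_apply, Pi.neg_apply, smul_eq_mul, U0_0, U0_1, U0_2, U0_3, U0_4, U0_5, U0_6, U0_7, U0_8, U0_9, U0_10, U0_11, U0_12, U0_13, U2_0, U2_1, U2_2, U2_3, U2_4, U2_5, U2_6, U2_7, U2_8, U2_9, U2_10, U2_11, U2_12, U2_13, U3_0, U3_1, U3_2, U3_3, U3_4, U3_5, U3_6, U3_7, U3_8, U3_9, U3_10, U3_11, U3_12, U3_13, U4_0, U4_1, U4_2, U4_3, U4_4, U4_5, U4_6, U4_7, U4_8, U4_9, U4_10, U4_11, U4_12, U4_13, U5_0, U5_1, U5_2, U5_3, U5_4, U5_5, U5_6, U5_7, U5_8, U5_9, U5_10, U5_11, U5_12, U5_13,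 E0_0, E0_1, E0_2, E0_3, E0_4, E0_5, E0_6, E0_7, E0_8, E0_9, E0_10, E0_11, E0_12, E0_13]
  ring

theorem relE1236_6 :
    ((t 0 • (t 6 • (E 0) - U5 t (E 0))) - (t 1 • (t 5 • (E 0) - U4 t (E 0))) + (t 4 • (U0 t (E 0)) - U2 t (U0 t (E 0)) - U3 t (U0 t (E 0))) : Fin 14 → R) 6 = 0 := by
  simp only [Pi.add_apply, Pi.sub_apply, Pi.smul_apply, Pi.neg_apply, smul_eq_mul, U0_0, U0_1, U0_2, U0_3, U0_4, U0_5, U0_6, U0_7, U0_8, U0_9, U0_10, U0_11, U0_12, U0_13, U2_0, U2_1, U2_2, U2_3, U2_4, U2_5, U2_6, U2_7, U2_8, U2_9, U2_10, U2_11, U2_12, U2_13, U3_0, U3_1, U3_2, U3_3, U3_4, U3_5, U3_6, U3_7, U3_8, U3_9, U3_10, U3_11, U3_12, U3_13, U4_0, U4_1, U4_2, U4_3, U4_4, U4_5, U4_6, U4_7, U4_8, U4_9, U4_10, U4_11, U4_12, U4_13, U5_0, U5_1, U5_2, U5_3, U5_4, U5_5, U5_6, U5_7, U5_8, U5_9, U5_10, U5_11,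 U5_12, U5_13, E0_0, E0_1, E0_2, E0_3, E0_4, E0_5, E0_6, E0_7, E0_8, E0_9, E0_10, E0_11, E0_12, E0_13]
  ring

theorem relE1236_7 :
    ((t 0 • (t 6 • (E 0) - U5 t (E 0))) - (t 1 • (t 5 • (E 0) - U4 t (E 0))) + (t 4 • (U0 t (E 0)) - U2 t (U0 t (E 0)) - U3 t (U0 t (E 0))) : Fin 14 → R) 7 = 0 := by
  simp only [Pi.add_apply, Pi.sub_apply, Pi.smul_apply, Pi.neg_apply, smul_eq_mul, U0_0, U0_1, U0_2, U0_3, U0_4, U0_5, U0_6, U0_7, U0_8, U0_9, U0_10, U0_11, U0_12, U0_13, U2_0, U2_1, U2_2, U2_3, U2_4, U2_5, U2_6, U2_7, U2_8, U2_9, U2_10, U2_11, U2_12, U2_13, U3_0, U3_1, U3_2, U3_3, U3_4, U3_5, U3_6, U3_7, U3_8, U3_9, U3_10, U3_11, U3_12, U3_13, U4_0, U4_1, U4_2, U4_3, U4_4, U4_5, U4_6, U4_7, U4_8, U4_9, U4_10, U4_11, U4_12, U4_13, U5_0, U5_1, U5_2, U5_3, U5_4, U5_5, U5_6, U5_7, U5_8, U5_9,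 U5_10, U5_11, U5_12, U5_13, E0_0, E0_1, E0_2, E0_3, E0_4, E0_5, E0_6, E0_7, E0_8, E0_9, E0_10, E0_11, E0_12, E0_13]
  ring

theorem relE1236_8 :
    ((t 0 • (t 6 • (E 0) - U5 t (E 0))) - (t 1 • (t 5 • (E 0) - U4 t (E 0))) + (t 4 • (U0 t (E 0)) - U2 t (U0 t (E 0)) - U3 t (U0 t (E 0))) : Fin 14 → R) 8 = 0 := by
  simp only [Pi.add_apply, Pi.sub_apply, Pi.smul_apply, Pi.neg_apply, smul_eq_mul, U0_0, U0_1, U0_2, U0_3, U0_4, U0_5, U0_6, U0_7, U0_8, U0_9, U0_10, U0_11, U0_12, U0_13, U2_0, U2_1, U2_2, U2_3, U2_4, U2_5, U2_6, U2_7, U2_8, U2_9, U2_10, U2_11, U2_12, U2_13, U3_0, U3_1, U3_2, U3_3, U3_4, U3_5, U3_6, U3_7, U3_8, U3_9, U3_10, U3_11, U3_12, U3_13, U4_0, U4_1, U4_2, U4_3, U4_4, U4_5, U4_6, U4_7, U4_8, U4_9, U4_10, U4_11, U4_12, U4_13, U5_0, U5_1, U5_2, U5_3, U5_4, U5_5, U5_6, U5_7,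 U5_8, U5_9, U5_10, U5_11, U5_12, U5_13, E0_0, E0_1, E0_2, E0_3, E0_4, E0_5, E0_6, E0_7, E0_8, E0_9, E0_10, E0_11, E0_12, E0_13]
  ring

theorem relE1236_9 :
    ((t 0 • (t 6 • (E 0) - U5 t (E 0))) - (t 1 • (t 5 • (E 0) - U4 t (E 0))) + (t 4 • (U0 t (E 0)) - U2 t (U0 t (E 0)) - U3 t (U0 t (E 0))) : Fin 14 → R) 9 = 0 := by
  simp only [Pi.add_apply, Pi.sub_apply, Pi.smul_apply, Pi.neg_apply, smul_eq_mul, U0_0, U0_1, U0_2, U0_3, U0_4, U0_5, U0_6, U0_7, U0_8, U0_9, U0_10, U0_11, U0_12, U0_13, U2_0, U2_1, U2_2, U2_3, U2_4, U2_5, U2_6, U2_7, U2_8, U2_9, U2_10, U2_11, U2_12, U2_13, U3_0, U3_1, U3_2, U3_3, U3_4, U3_5, U3_6, U3_7, U3_8, U3_9, U3_10, U3_11, U3_12, U3_13, U4_0, U4_1, U4_2, U4_3, U4_4, U4_5, U4_6, U4_7, U4_8, U4_9, U4_10, U4_11, U4_12, U4_13, U5_0, U5_1, U5_2, U5_3, U5_4, U5_5,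 U5_6, U5_7, U5_8, U5_9, U5_10, U5_11, U5_12, U5_13, E0_0, E0_1, E0_2, E0_3, E0_4, E0_5, E0_6, E0_7, E0_8, E0_9, E0_10, E0_11, E0_12, E0_13]
  ring

theorem relE1236_10 :
    ((t 0 • (t 6 • (E 0) - U5 t (E 0))) - (t 1 • (t 5 • (E 0) - U4 t (E 0))) + (t 4 • (U0 t (E 0)) - U2 t (U0 t (E 0)) - U3 t (U0 t (E 0))) : Fin 14 → R) 10 = 0 := by
  simp only [Pi.add_apply, Pi.sub_apply, Pi.smul_apply, Pi.neg_apply, smul_eq_mul, U0_0, U0_1, U0_2, U0_3, U0_4, U0_5, U0_6, U0_7, U0_8, U0_9, U0_10, U0_11, U0_12, U0_13, U2_0, U2_1, U2_2, U2_3, U2_4, U2_5, U2_6, U2_7, U2_8, U2_9, U2_10, U2_11, U2_12, U2_13, U3_0, U3_1, U3_2, U3_3, U3_4, U3_5, U3_6, U3_7, U3_8, U3_9, U3_10, U3_11, U3_12, U3_13, U4_0, U4_1, U4_2, U4_3, U4_4, U4_5, U4_6, U4_7, U4_8, U4_9, U4_10, U4_11, U4_12, U4_13, U5_0, U5_1, U5_2, U5_3,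 U5_4, U5_5, U5_6, U5_7, U5_8, U5_9, U5_10, U5_11, U5_12, U5_13, E0_0, E0_1, E0_2, E0_3, E0_4, E0_5, E0_6, E0_7, E0_8, E0_9, E0_10, E0_11, E0_12, E0_13]
  ring

theorem relE1236_11 :
    ((t 0 • (t 6 • (E 0) - U5 t (E 0))) - (t 1 • (t 5 • (E 0) - U4 t (E 0))) + (t 4 • (U0 t (E 0)) - U2 t (U0 t (E 0)) - U3 t (U0 t (E 0))) : Fin 14 → R) 11 = 0 := by
  simp only [Pi.add_apply, Pi.sub_apply, Pi.smul_apply, Pi.neg_apply, smul_eq_mul, U0_0, U0_1, U0_2, U0_3, U0_4, U0_5, U0_6, U0_7, U0_8, U0_9, U0_10, U0_11, U0_12, U0_13, U2_0, U2_1, U2_2, U2_3, U2_4, U2_5, U2_6, U2_7, U2_8, U2_9, U2_10, U2_11, U2_12, U2_13, U3_0, U3_1, U3_2, U3_3, U3_4, U3_5, U3_6, U3_7, U3_8, U3_9, U3_10, U3_11, U3_12, U3_13, U4_0, U4_1, U4_2, U4_3, U4_4, U4_5, U4_6, U4_7, U4_8, U4_9, U4_10, U4_11, U4_12, U4_13, U5_0, U5_1,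 U5_2, U5_3, U5_4, U5_5, U5_6, U5_7, U5_8, U5_9, U5_10, U5_11, U5_12, U5_13, E0_0, E0_1, E0_2, E0_3, E0_4, E0_5, E0_6, E0_7, E0_8, E0_9, E0_10, E0_11, E0_12, E0_13]
  ring

theorem relE1236_12 :
    ((t 0 • (t 6 • (E 0) - U5 t (E 0))) - (t 1 • (t 5 • (E 0) - U4 t (E 0))) + (t 4 • (U0 t (E 0)) - U2 t (U0 t (E 0)) - U3 t (U0 t (E 0))) : Fin 14 → R) 12 = 0 := by
  simp only [Pi.add_apply, Pi.sub_apply, Pi.smul_apply, Pi.neg_apply, smul_eq_mul, U0_0, U0_1, U0_2, U0_3, U0_4, U0_5, U0_6, U0_7, U0_8, U0_9, U0_10, U0_11, U0_12, U0_13, U2_0, U2_1, U2_2, U2_3, U2_4, U2_5, U2_6, U2_7, U2_8, U2_9, U2_10, U2_11, U2_12, U2_13, U3_0, U3_1, U3_2, U3_3, U3_4, U3_5, U3_6, U3_7, U3_8, U3_9, U3_10, U3_11, U3_12, U3_13, U4_0, U4_1, U4_2, U4_3, U4_4, U4_5, U4_6, U4_7, U4_8, U4_9, U4_10, U4_11, U4_12, U4_13,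 U5_0, U5_1, U5_2, U5_3, U5_4, U5_5, U5_6, U5_7, U5_8, U5_9, U5_10, U5_11, U5_12, U5_13, E0_0, E0_1, E0_2, E0_3, E0_4, E0_5, E0_6, E0_7, E0_8, E0_9, E0_10, E0_11, E0_12, E0_13]
  ring

theorem relE1236_13 :
    ((t 0 • (t 6 • (E 0) - U5 t (E 0))) - (t 1 • (t 5 • (E 0) - U4 t (E 0))) + (t 4 • (U0 t (E 0)) - U2 t (U0 t (E 0)) - U3 t (U0 t (E 0))) : Fin 14 → R) 13 = 0 := by
  simp only [Pi.add_apply, Pi.sub_apply, Pi.smul_apply, Pi.neg_apply, smul_eq_mul, U0_0, U0_1, U0_2, U0_3, U0_4, U0_5, U0_6, U0_7, U0_8, U0_9, U0_10, U0_11, U0_12, U0_13, U2_0, U2_1, U2_2, U2_3, U2_4, U2_5, U2_6, U2_7, U2_8, U2_9, U2_10, U2_11, U2_12, U2_13, U3_0, U3_1, U3_2, U3_3, U3_4, U3_5, U3_6, U3_7, U3_8, U3_9, U3_10, U3_11, U3_12, U3_13, U4_0, U4_1, U4_2, U4_3, U4_4, U4_5, U4_6, U4_7, U4_8, U4_9, U4_10, U4_11,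 U4_12, U4_13, U5_0, U5_1, U5_2, U5_3, U5_4, U5_5, U5_6, U5_7, U5_8, U5_9, U5_10, U5_11, U5_12, U5_13, E0_0, E0_1, E0_2, E0_3, E0_4, E0_5, E0_6, E0_7, E0_8, E0_9, E0_10, E0_11, E0_12, E0_13]
  ring

theorem relE1236 :
    ((t 0 • (t 6 • (E 0) - U5 t (E 0))) - (t 1 • (t 5 • (E 0) - U4 t (E 0))) + (t 4 • (U0 t (E 0)) - U2 t (U0 t (E 0)) - U3 t (U0 t (E 0))) : Fin 14 → R) = 0 := by
  refine funext fun i => ?_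
  fin_cases i
  exacts [relE1236_0 t, relE1236_1 t, relE1236_2 t, relE1236_3 t, relE1236_4 t, relE1236_5 t, relE1236_6 t, relE1236_7 t, relE1236_8 t, relE1236_9 t, relE1236_10 t, relE1236_11 t, relE1236_12 t, relE1236_13 t]

theorem relC1236 : tC t 0 * (tC t 6 - UC t 5) - tC t 1 * (tC t 5 - UC t 4) + (tC t 4 - UC t 2 - UC t 3) * UC t 0 = 0 :=
  cyc t _ (relE1236 t)

theorem relE1245_0 :
    ((t 0 • (U5 t (E 0))) - (t 2 • (U2 t (E 0)) - U0 t (U2 t (E 0))) + (t 3 • (U1 t (E 0)) - U1 t (U1 t (E 0))) : Fin 14 → R) 0 = 0 := by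
  simp only [Pi.add_apply, Pi.sub_apply, Pi.smul_apply, Pi.neg_apply, smul_eq_mul, U0_0, U0_1, U0_2, U0_3, U0_4, U0_5, U0_6, U0_7, U0_8, U0_9, U0_10, U0_11, U0_12, U0_13, U1_0, U1_1, U1_2, U1_3, U1_4, U1_5, U1_6, U1_7, U1_8, U1_9, U1_10, U1_11, U1_12, U1_13, U2_0, U2_1, U2_2, U2_3, U2_4, U2_5, U2_6, U2_7, U2_8, U2_9, U2_10, U2_11, U2_12, U2_13, U5_0, U5_1, U5_2, U5_3, U5_4, U5_5, U5_6, U5_7, U5_8, U5_9, U5_10, U5_11, U5_12, U5_13, E0_0, E0_1, E0_2, E0_3, E0_4, E0_5, E0_6, E0_7, E0_8, E0_9, E0_10, E0_11, E0_12, E0_13]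
  ring

theorem relE1245_1 :
    ((t 0 • (U5 t (E 0))) - (t 2 • (U2 t (E 0)) - U0 t (U2 t (E 0))) + (t 3 • (U1 t (E 0)) - U1 t (U1 t (E 0))) : Fin 14 → R) 1 = 0 := by
  simp only [Pi.add_apply, Pi.sub_apply, Pi.smul_apply, Pi.neg_apply, smul_eq_mul, U0_0, U0_1, U0_2, U0_3, U0_4, U0_5, U0_6, U0_7, U0_8, U0_9, U0_10, U0_11, U0_12, U0_13, U1_0, U1_1, U1_2, U1_3, U1_4, U1_5, U1_6, U1_7, U1_8, U1_9, U1_10, U1_11, U1_12, U1_13, U2_0, U2_1, U2_2, U2_3, U2_4, U2_5, U2_6, U2_7, U2_8, U2_9, U2_10, U2_11, U2_12, U2_13, U5_0, U5_1, U5_2, U5_3, U5_4, U5_5, U5_6, U5_7, U5_8, U5_9, U5_10, U5_11, U5_12, U5_13, E0_0, E0_1, E0_2, E0_3, E0_4, E0_5, E0_6, E0_7, E0_8, E0_9, E0_10, E0_11, E0_12, E0_13]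
  ring

theorem relE1245_2 :
    ((t 0 • (U5 t (E 0))) - (t 2 • (U2 t (E 0)) - U0 t (U2 t (E 0))) + (t 3 • (U1 t (E 0)) - U1 t (U1 t (E 0))) : Fin 14 → R) 2 = 0 := by
  simp only [Pi.add_apply, Pi.sub_apply, Pi.smul_apply, Pi.neg_apply, smul_eq_mul, U0_0, U0_1, U0_2, U0_3, U0_4, U0_5, U0_6, U0_7, U0_8, U0_9, U0_10, U0_11, U0_12, U0_13, U1_0, U1_1, U1_2, U1_3, U1_4, U1_5, U1_6, U1_7, U1_8, U1_9, U1_10, U1_11, U1_12, U1_13, U2_0, U2_1, U2_2, U2_3, U2_4, U2_5, U2_6, U2_7, U2_8, U2_9, U2_10, U2_11, U2_12, U2_13, U5_0, U5_1, U5_2, U5_3, U5_4, U5_5, U5_6, U5_7, U5_8, U5_9, U5_10, U5_11, U5_12, U5_13, E0_0, E0_1, E0_2, E0_3, E0_4, E0_5, E0_6, E0_7, E0_8, E0_9, E0_10, E0_11, E0_12, E0_13]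
  ring

theorem relE1245_3 :
    ((t 0 • (U5 t (E 0))) - (t 2 • (U2 t (E 0)) - U0 t (U2 t (E 0))) + (t 3 • (U1 t (E 0)) - U1 t (U1 t (E 0))) : Fin 14 → R) 3 = 0 := by
  simp only [Pi.add_apply, Pi.sub_apply, Pi.smul_apply, Pi.neg_apply, smul_eq_mul, U0_0, U0_1, U0_2, U0_3, U0_4, U0_5, U0_6, U0_7, U0_8, U0_9, U0_10, U0_11, U0_12, U0_13, U1_0, U1_1, U1_2, U1_3, U1_4, U1_5, U1_6, U1_7, U1_8, U1_9, U1_10, U1_11, U1_12, U1_13, U2_0, U2_1, U2_2, U2_3, U2_4, U2_5, U2_6, U2_7, U2_8, U2_9, U2_10, U2_11, U2_12, U2_13, U5_0, U5_1, U5_2, U5_3, U5_4, U5_5, U5_6, U5_7, U5_8, U5_9, U5_10, U5_11, U5_12, U5_13, E0_0, E0_1, E0_2, E0_3, E0_4, E0_5, E0_6, E0_7, E0_8, E0_9, E0_10, E0_11, E0_12, E0_13]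
  ring

theorem relE1245_4 :
    ((t 0 • (U5 t (E 0))) - (t 2 • (U2 t (E 0)) - U0 t (U2 t (E 0))) + (t 3 • (U1 t (E 0)) - U1 t (U1 t (E 0))) : Fin 14 → R) 4 = 0 := by
  simp only [Pi.add_apply, Pi.sub_apply, Pi.smul_apply, Pi.neg_apply, smul_eq_mul, U0_0, U0_1, U0_2, U0_3, U0_4, U0_5, U0_6, U0_7, U0_8, U0_9, U0_10, U0_11, U0_12, U0_13, U1_0, U1_1, U1_2, U1_3, U1_4, U1_5, U1_6, U1_7, U1_8, U1_9, U1_10, U1_11, U1_12, U1_13, U2_0, U2_1, U2_2, U2_3, U2_4, U2_5, U2_6, U2_7, U2_8, U2_9, U2_10, U2_11, U2_12, U2_13, U5_0, U5_1, U5_2, U5_3, U5_4, U5_5, U5_6, U5_7, U5_8, U5_9, U5_10, U5_11, U5_12, U5_13, E0_0, E0_1, E0_2, E0_3, E0_4, E0_5, E0_6, E0_7, E0_8, E0_9, E0_10, E0_11, E0_12, E0_13]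
  ring

theorem relE1245_5 :
    ((t 0 • (U5 t (E 0))) - (t 2 • (U2 t (E 0)) - U0 t (U2 t (E 0))) + (t 3 • (U1 t (E 0)) - U1 t (U1 t (E 0))) : Fin 14 → R) 5 = 0 := by
  simp only [Pi.add_apply, Pi.sub_apply, Pi.smul_apply, Pi.neg_apply, smul_eq_mul, U0_0, U0_1, U0_2, U0_3, U0_4, U0_5, U0_6, U0_7, U0_8, U0_9, U0_10, U0_11, U0_12, U0_13, U1_0, U1_1, U1_2, U1_3, U1_4, U1_5, U1_6, U1_7, U1_8, U1_9, U1_10, U1_11, U1_12, U1_13, U2_0, U2_1, U2_2, U2_3, U2_4, U2_5, U2_6, U2_7, U2_8, U2_9, U2_10, U2_11, U2_12, U2_13, U5_0, U5_1, U5_2, U5_3, U5_4, U5_5, U5_6, U5_7, U5_8, U5_9, U5_10, U5_11, U5_12, U5_13, E0_0, E0_1, E0_2, E0_3, E0_4, E0_5, E0_6, E0_7, E0_8, E0_9, E0_10, E0_11, E0_12, E0_13]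
  ring

theorem relE1245_6 :
    ((t 0 • (U5 t (E 0))) - (t 2 • (U2 t (E 0)) - U0 t (U2 t (E 0))) + (t 3 • (U1 t (E 0)) - U1 t (U1 t (E 0))) : Fin 14 → R) 6 = 0 := by
  simp only [Pi.add_apply, Pi.sub_apply, Pi.smul_apply, Pi.neg_apply, smul_eq_mul, U0_0, U0_1, U0_2, U0_3, U0_4, U0_5, U0_6, U0_7, U0_8, U0_9, U0_10, U0_11, U0_12, U0_13, U1_0, U1_1, U1_2, U1_3, U1_4, U1_5, U1_6, U1_7, U1_8, U1_9, U1_10, U1_11, U1_12, U1_13, U2_0, U2_1, U2_2, U2_3, U2_4, U2_5, U2_6, U2_7, U2_8, U2_9, U2_10, U2_11, U2_12, U2_13, U5_0, U5_1, U5_2, U5_3, U5_4, U5_5, U5_6, U5_7, U5_8, U5_9, U5_10, U5_11, U5_12, U5_13, E0_0, E0_1, E0_2, E0_3, E0_4, E0_5, E0_6, E0_7, E0_8, E0_9, E0_10, E0_11, E0_12, E0_13]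
  ring

theorem relE1245_7 :
    ((t 0 • (U5 t (E 0))) - (t 2 • (U2 t (E 0)) - U0 t (U2 t (E 0))) + (t 3 • (U1 t (E 0)) - U1 t (U1 t (E 0))) : Fin 14 → R) 7 = 0 := by
  simp only [Pi.add_apply, Pi.sub_apply, Pi.smul_apply, Pi.neg_apply, smul_eq_mul, U0_0, U0_1, U0_2, U0_3, U0_4, U0_5, U0_6, U0_7, U0_8, U0_9, U0_10, U0_11, U0_12, U0_13, U1_0, U1_1, U1_2, U1_3, U1_4, U1_5, U1_6, U1_7, U1_8, U1_9, U1_10, U1_11, U1_12, U1_13, U2_0, U2_1, U2_2, U2_3, U2_4, U2_5, U2_6, U2_7, U2_8, U2_9, U2_10, U2_11, U2_12, U2_13, U5_0, U5_1, U5_2, U5_3, U5_4, U5_5, U5_6, U5_7, U5_8, U5_9, U5_10, U5_11, U5_12, U5_13, E0_0, E0_1, E0_2, E0_3, E0_4, E0_5, E0_6, E0_7, E0_8, E0_9, E0_10, E0_11, E0_12, E0_13]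
  ring

theorem relE1245_8 :
    ((t 0 • (U5 t (E 0))) - (t 2 • (U2 t (E 0)) - U0 t (U2 t (E 0))) + (t 3 • (U1 t (E 0)) - U1 t (U1 t (E 0))) : Fin 14 → R) 8 = 0 := by
  simp only [Pi.add_apply, Pi.sub_apply, Pi.smul_apply, Pi.neg_apply, smul_eq_mul, U0_0, U0_1, U0_2, U0_3, U0_4, U0_5, U0_6, U0_7, U0_8, U0_9, U0_10, U0_11, U0_12, U0_13, U1_0, U1_1, U1_2, U1_3, U1_4, U1_5, U1_6, U1_7, U1_8, U1_9, U1_10, U1_11, U1_12, U1_13, U2_0, U2_1, U2_2, U2_3, U2_4, U2_5, U2_6, U2_7, U2_8, U2_9, U2_10, U2_11, U2_12, U2_13, U5_0, U5_1, U5_2, U5_3, U5_4, U5_5, U5_6, U5_7, U5_8, U5_9, U5_10, U5_11, U5_12, U5_13, E0_0, E0_1, E0_2, E0_3, E0_4, E0_5, E0_6, E0_7, E0_8, E0_9, E0_10, E0_11, E0_12, E0_13]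
  ring

theorem relE1245_9 :
    ((t 0 • (U5 t (E 0))) - (t 2 • (U2 t (E 0)) - U0 t (U2 t (E 0))) + (t 3 • (U1 t (E 0)) - U1 t (U1 t (E 0))) : Fin 14 → R) 9 = 0 := by
  simp only [Pi.add_apply, Pi.sub_apply, Pi.smul_apply, Pi.neg_apply, smul_eq_mul, U0_0, U0_1, U0_2, U0_3, U0_4, U0_5, U0_6, U0_7, U0_8, U0_9, U0_10, U0_11, U0_12, U0_13, U1_0, U1_1, U1_2, U1_3, U1_4, U1_5, U1_6, U1_7, U1_8, U1_9, U1_10, U1_11, U1_12, U1_13, U2_0, U2_1, U2_2, U2_3, U2_4, U2_5, U2_6, U2_7, U2_8, U2_9, U2_10, U2_11, U2_12, U2_13, U5_0, U5_1, U5_2, U5_3, U5_4, U5_5, U5_6, U5_7, U5_8, U5_9, U5_10, U5_11, U5_12, U5_13, E0_0, E0_1, E0_2, E0_3, E0_4, E0_5, E0_6, E0_7, E0_8, E0_9, E0_10, E0_11, E0_12, E0_13]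
  ring

theorem relE1245_10 :
    ((t 0 • (U5 t (E 0))) - (t 2 • (U2 t (E 0)) - U0 t (U2 t (E 0))) + (t 3 • (U1 t (E 0)) - U1 t (U1 t (E 0))) : Fin 14 → R) 10 = 0 := by
  simp only [Pi.add_apply, Pi.sub_apply, Pi.smul_apply, Pi.neg_apply, smul_eq_mul, U0_0, U0_1, U0_2, U0_3, U0_4, U0_5, U0_6, U0_7, U0_8, U0_9, U0_10, U0_11, U0_12, U0_13, U1_0, U1_1, U1_2, U1_3, U1_4, U1_5, U1_6, U1_7, U1_8, U1_9, U1_10, U1_11, U1_12, U1_13, U2_0, U2_1, U2_2, U2_3, U2_4, U2_5, U2_6, U2_7, U2_8, U2_9, U2_10, U2_11, U2_12, U2_13, U5_0, U5_1, U5_2, U5_3, U5_4, U5_5, U5_6, U5_7, U5_8, U5_9, U5_10, U5_11, U5_12, U5_13, E0_0, E0_1, E0_2, E0_3, E0_4, E0_5, E0_6, E0_7, E0_8, E0_9, E0_10, E0_11, E0_12, E0_13]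
  ring

theorem relE1245_11 :
    ((t 0 • (U5 t (E 0))) - (t 2 • (U2 t (E 0)) - U0 t (U2 t (E 0))) + (t 3 • (U1 t (E 0)) - U1 t (U1 t (E 0))) : Fin 14 → R) 11 = 0 := by
  simp only [Pi.add_apply, Pi.sub_apply, Pi.smul_apply, Pi.neg_apply, smul_eq_mul, U0_0, U0_1, U0_2, U0_3, U0_4, U0_5, U0_6, U0_7, U0_8, U0_9, U0_10, U0_11, U0_12, U0_13, U1_0, U1_1, U1_2, U1_3, U1_4, U1_5, U1_6, U1_7, U1_8, U1_9, U1_10, U1_11, U1_12, U1_13, U2_0, U2_1, U2_2, U2_3, U2_4, U2_5, U2_6, U2_7, U2_8, U2_9, U2_10, U2_11, U2_12, U2_13, U5_0, U5_1, U5_2, U5_3, U5_4, U5_5, U5_6, U5_7, U5_8, U5_9, U5_10, U5_11, U5_12, U5_13, E0_0, E0_1, E0_2, E0_3, E0_4, E0_5, E0_6, E0_7, E0_8, E0_9, E0_10, E0_11, E0_12, E0_13]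
  ring

theorem relE1245_12 :
    ((t 0 • (U5 t (E 0))) - (t 2 • (U2 t (E 0)) - U0 t (U2 t (E 0))) + (t 3 • (U1 t (E 0)) - U1 t (U1 t (E 0))) : Fin 14 → R) 12 = 0 := by
  simp only [Pi.add_apply, Pi.sub_apply, Pi.smul_apply, Pi.neg_apply, smul_eq_mul, U0_0, U0_1, U0_2, U0_3, U0_4, U0_5, U0_6, U0_7, U0_8, U0_9, U0_10, U0_11, U0_12, U0_13, U1_0, U1_1, U1_2, U1_3, U1_4, U1_5, U1_6, U1_7, U1_8, U1_9, U1_10, U1_11, U1_12, U1_13, U2_0, U2_1, U2_2, U2_3, U2_4, U2_5, U2_6, U2_7, U2_8, U2_9, U2_10, U2_11, U2_12, U2_13, U5_0, U5_1, U5_2, U5_3, U5_4, U5_5, U5_6, U5_7, U5_8, U5_9, U5_10, U5_11, U5_12, U5_13, E0_0, E0_1, E0_2, E0_3, E0_4, E0_5, E0_6, E0_7, E0_8, E0_9, E0_10, E0_11, E0_12, E0_13]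
  ring

theorem relE1245_13 :
    ((t 0 • (U5 t (E 0))) - (t 2 • (U2 t (E 0)) - U0 t (U2 t (E 0))) + (t 3 • (U1 t (E 0)) - U1 t (U1 t (E 0))) : Fin 14 → R) 13 = 0 := by
  simp only [Pi.add_apply, Pi.sub_apply, Pi.smul_apply, Pi.neg_apply, smul_eq_mul, U0_0, U0_1, U0_2, U0_3, U0_4, U0_5, U0_6, U0_7, U0_8, U0_9, U0_10, U0_11, U0_12, U0_13, U1_0, U1_1, U1_2, U1_3, U1_4, U1_5, U1_6, U1_7, U1_8, U1_9, U1_10, U1_11, U1_12, U1_13, U2_0, U2_1, U2_2, U2_3, U2_4, U2_5, U2_6, U2_7, U2_8, U2_9, U2_10, U2_11, U2_12, U2_13, U5_0, U5_1, U5_2, U5_3, U5_4, U5_5, U5_6, U5_7, U5_8, U5_9, U5_10, U5_11, U5_12, U5_13, E0_0, E0_1, E0_2, E0_3, E0_4, E0_5, E0_6, E0_7, E0_8, E0_9, E0_10, E0_11, E0_12, E0_13]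
  ring

theorem relE1245 :
    ((t 0 • (U5 t (E 0))) - (t 2 • (U2 t (E 0)) - U0 t (U2 t (E 0))) + (t 3 • (U1 t (E 0)) - U1 t (U1 t (E 0))) : Fin 14 → R) = 0 := by
  refine funext fun i => ?_
  fin_cases i
  exacts [relE1245_0 t, relE1245_1 t, relE1245_2 t, relE1245_3 t, relE1245_4 t, relE1245_5 t, relE1245_6 t, relE1245_7 t, relE1245_8 t, relE1245_9 t, relE1245_10 t, relE1245_11 t, relE1245_12 t, relE1245_13 t]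

theorem relC1245 : tC t 0 * UC t 5 - (tC t 2 - UC t 0) * UC t 2 + (tC t 3 - UC t 1) * UC t 1 = 0 :=
  cyc t _ (relE1245 t)

theorem relE1246_0 :
    ((t 0 • (t 7 • (E 0))) - (t 2 • (t 5 • (E 0) - U4 t (E 0)) - U0 t (t 5 • (E 0) - U4 t (E 0))) + (t 4 • (U1 t (E 0)) - U2 t (U1 t (E 0)) - U3 t (U1 t (E 0))) : Fin 14 → R) 0 = 0 := by
  simp only [Pi.add_apply, Pi.sub_apply, Pi.smul_apply, Pi.neg_apply, smul_eq_mul, U0_0, U0_1, U0_2, U0_3, U0_4, U0_5, U0_6, U0_7, U0_8, U0_9, U0_10, U0_11, U0_12, U0_13, U1_0, U1_1, U1_2, U1_3, U1_4, U1_5, U1_6, U1_7, U1_8, U1_9, U1_10, U1_11, U1_12, U1_13, U2_0, U2_1, U2_2, U2_3, U2_4, U2_5, U2_6, U2_7, U2_8, U2_9, U2_10, U2_11, U2_12, U2_13, U3_0, U3_1, U3_2, U3_3, U3_4, U3_5, U3_6, U3_7, U3_8, U3_9, U3_10, U3_11, U3_12, U3_13, U4_0, U4_1, U4_2, U4_3,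 U4_4, U4_5, U4_6, U4_7, U4_8, U4_9, U4_10, U4_11, U4_12, U4_13, E0_0, E0_1, E0_2, E0_3, E0_4, E0_5, E0_6, E0_7, E0_8, E0_9, E0_10, E0_11, E0_12, E0_13]
  ring

theorem relE1246_1 :
    ((t 0 • (t 7 • (E 0))) - (t 2 • (t 5 • (E 0) - U4 t (E 0)) - U0 t (t 5 • (E 0) - U4 t (E 0))) + (t 4 • (U1 t (E 0)) - U2 t (U1 t (E 0)) - U3 t (U1 t (E 0))) : Fin 14 → R) 1 = 0 := by
  simp only [Pi.add_apply, Pi.sub_apply, Pi.smul_apply, Pi.neg_apply, smul_eq_mul, U0_0, U0_1, U0_2, U0_3, U0_4, U0_5, U0_6, U0_7, U0_8, U0_9, U0_10, U0_11, U0_12, U0_13, U1_0, U1_1, U1_2, U1_3, U1_4, U1_5, U1_6, U1_7, U1_8, U1_9, U1_10, U1_11, U1_12, U1_13, U2_0, U2_1, U2_2, U2_3, U2_4, U2_5, U2_6, U2_7, U2_8, U2_9, U2_10, U2_11, U2_12, U2_13, U3_0, U3_1, U3_2, U3_3, U3_4, U3_5, U3_6, U3_7, U3_8, U3_9, U3_10, U3_11, U3_12,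 U3_13, U4_0, U4_1, U4_2, U4_3, U4_4, U4_5, U4_6, U4_7, U4_8, U4_9, U4_10, U4_11, U4_12, U4_13, E0_0, E0_1, E0_2, E0_3, E0_4, E0_5, E0_6, E0_7, E0_8, E0_9, E0_10, E0_11, E0_12, E0_13]
  ring

theorem relE1246_2 :
    ((t 0 • (t 7 • (E 0))) - (t 2 • (t 5 • (E 0) - U4 t (E 0)) - U0 t (t 5 • (E 0) - U4 t (E 0))) + (t 4 • (U1 t (E 0)) - U2 t (U1 t (E 0)) - U3 t (U1 t (E 0))) : Fin 14 → R) 2 = 0 := by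
  simp only [Pi.add_apply, Pi.sub_apply, Pi.smul_apply, Pi.neg_apply, smul_eq_mul, U0_0, U0_1, U0_2, U0_3, U0_4, U0_5, U0_6, U0_7, U0_8, U0_9, U0_10, U0_11, U0_12, U0_13, U1_0, U1_1, U1_2, U1_3, U1_4, U1_5, U1_6, U1_7, U1_8, U1_9, U1_10, U1_11, U1_12, U1_13, U2_0, U2_1, U2_2, U2_3, U2_4, U2_5, U2_6, U2_7, U2_8, U2_9, U2_10, U2_11, U2_12, U2_13, U3_0, U3_1, U3_2, U3_3, U3_4, U3_5, U3_6, U3_7, U3_8, U3_9, U3_10, U3_11, U3_12, U3_13, U4_0, U4_1, U4_2, U4_3, U4_4, U4_5, U4_6, U4_7, U4_8, U4_9, U4_10, U4_11, U4_12, U4_13, E0_0, E0_1, E0_2, E0_3, E0_4, E0_5, E0_6, E0_7, E0_8, E0_9, E0_10, E0_11, E0_12, E0_13]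
  ring

theorem relE1246_3 :
    ((t 0 • (t 7 • (E 0))) - (t 2 • (t 5 • (E 0) - U4 t (E 0)) - U0 t (t 5 • (E 0) - U4 t (E 0))) + (t 4 • (U1 t (E 0)) - U2 t (U1 t (E 0)) - U3 t (U1 t (E 0))) : Fin 14 → R) 3 = 0 := by
  simp only [Pi.add_apply, Pi.sub_apply, Pi.smul_apply, Pi.neg_apply, smul_eq_mul, U0_0, U0_1, U0_2, U0_3, U0_4, U0_5, U0_6, U0_7, U0_8, U0_9, U0_10, U0_11, U0_12, U0_13, U1_0, U1_1, U1_2, U1_3, U1_4, U1_5, U1_6, U1_7, U1_8, U1_9, U1_10, U1_11, U1_12, U1_13, U2_0, U2_1, U2_2, U2_3, U2_4, U2_5, U2_6, U2_7, U2_8, U2_9, U2_10, U2_11, U2_12, U2_13, U3_0, U3_1, U3_2, U3_3, U3_4, U3_5, U3_6, U3_7, U3_8, U3_9, U3_10, U3_11, U3_12, U3_13, U4_0, U4_1, U4_2, U4_3, U4_4, U4_5, U4_6, U4_7, U4_8, U4_9, U4_10, U4_11, U4_12, U4_13, E0_0, E0_1, E0_2, E0_3, E0_4, E0_5, E0_6, E0_7, E0_8,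 E0_9, E0_10, E0_11, E0_12, E0_13]
  ring

theorem relE1246_4 :
    ((t 0 • (t 7 • (E 0))) - (t 2 • (t 5 • (E 0) - U4 t (E 0)) - U0 t (t 5 • (E 0) - U4 t (E 0))) + (t 4 • (U1 t (E 0)) - U2 t (U1 t (E 0)) - U3 t (U1 t (E 0))) : Fin 14 → R) 4 = 0 := by
  simp only [Pi.add_apply, Pi.sub_apply, Pi.smul_apply, Pi.neg_apply, smul_eq_mul, U0_0, U0_1, U0_2, U0_3, U0_4, U0_5, U0_6, U0_7, U0_8, U0_9, U0_10, U0_11, U0_12, U0_13, U1_0, U1_1, U1_2, U1_3, U1_4, U1_5, U1_6, U1_7, U1_8, U1_9, U1_10, U1_11, U1_12, U1_13, U2_0, U2_1, U2_2, U2_3, U2_4, U2_5, U2_6, U2_7, U2_8, U2_9, U2_10, U2_11, U2_12, U2_13, U3_0, U3_1, U3_2, U3_3, U3_4, U3_5, U3_6, U3_7, U3_8, U3_9, U3_10, U3_11, U3_12, U3_13, U4_0, U4_1, U4_2, U4_3, U4_4, U4_5, U4_6, U4_7, U4_8, U4_9, U4_10, U4_11, U4_12, U4_13, E0_0, E0_1, E0_2, E0_3,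 E0_4, E0_5, E0_6, E0_7, E0_8, E0_9, E0_10, E0_11, E0_12, E0_13]
  ring

theorem relE1246_5 :
    ((t 0 • (t 7 • (E 0))) - (t 2 • (t 5 • (E 0) - U4 t (E 0)) - U0 t (t 5 • (E 0) - U4 t (E 0))) + (t 4 • (U1 t (E 0)) - U2 t (U1 t (E 0)) - U3 t (U1 t (E 0))) : Fin 14 → R) 5 = 0 := by
  simp only [Pi.add_apply, Pi.sub_apply, Pi.smul_apply, Pi.neg_apply, smul_eq_mul, U0_0, U0_1, U0_2, U0_3, U0_4, U0_5, U0_6, U0_7, U0_8, U0_9, U0_10, U0_11, U0_12, U0_13, U1_0, U1_1, U1_2, U1_3, U1_4, U1_5, U1_6, U1_7, U1_8, U1_9, U1_10, U1_11, U1_12, U1_13, U2_0, U2_1, U2_2, U2_3, U2_4, U2_5, U2_6, U2_7, U2_8, U2_9, U2_10, U2_11, U2_12, U2_13, U3_0, U3_1, U3_2, U3_3, U3_4, U3_5, U3_6, U3_7, U3_8, U3_9, U3_10, U3_11, U3_12, U3_13, U4_0, U4_1, U4_2, U4_3, U4_4, U4_5, U4_6, U4_7, U4_8, U4_9, U4_10, U4_11, U4_12,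 U4_13, E0_0, E0_1, E0_2, E0_3, E0_4, E0_5, E0_6, E0_7, E0_8, E0_9, E0_10, E0_11, E0_12, E0_13]
  ring

theorem relE1246_6 :
    ((t 0 • (t 7 • (E 0))) - (t 2 • (t 5 • (E 0) - U4 t (E 0)) - U0 t (t 5 • (E 0) - U4 t (E 0))) + (t 4 • (U1 t (E 0)) - U2 t (U1 t (E 0)) - U3 t (U1 t (E 0))) : Fin 14 → R) 6 = 0 := by
  simp only [Pi.add_apply, Pi.sub_apply, Pi.smul_apply, Pi.neg_apply, smul_eq_mul, U0_0, U0_1, U0_2, U0_3, U0_4, U0_5, U0_6, U0_7, U0_8, U0_9, U0_10, U0_11, U0_12, U0_13, U1_0, U1_1, U1_2, U1_3, U1_4, U1_5, U1_6, U1_7, U1_8, U1_9, U1_10, U1_11, U1_12, U1_13, U2_0, U2_1, U2_2, U2_3, U2_4, U2_5, U2_6, U2_7, U2_8, U2_9, U2_10, U2_11, U2_12, U2_13, U3_0, U3_1, U3_2, U3_3, U3_4, U3_5, U3_6, U3_7, U3_8, U3_9, U3_10, U3_11, U3_12, U3_13, U4_0, U4_1, U4_2, U4_3, U4_4, U4_5, U4_6, U4_7,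 U4_8, U4_9, U4_10, U4_11, U4_12, U4_13, E0_0, E0_1, E0_2, E0_3, E0_4, E0_5, E0_6, E0_7, E0_8, E0_9, E0_10, E0_11, E0_12, E0_13]
  ring

theorem relE1246_7 :
    ((t 0 • (t 7 • (E 0))) - (t 2 • (t 5 • (E 0) - U4 t (E 0)) - U0 t (t 5 • (E 0) - U4 t (E 0))) + (t 4 • (U1 t (E 0)) - U2 t (U1 t (E 0)) - U3 t (U1 t (E 0))) : Fin 14 → R) 7 = 0 := by
  simp only [Pi.add_apply, Pi.sub_apply, Pi.smul_apply, Pi.neg_apply, smul_eq_mul, U0_0, U0_1, U0_2, U0_3, U0_4, U0_5, U0_6, U0_7, U0_8, U0_9, U0_10, U0_11, U0_12, U0_13, U1_0, U1_1, U1_2, U1_3, U1_4, U1_5, U1_6, U1_7, U1_8, U1_9, U1_10, U1_11, U1_12, U1_13, U2_0, U2_1, U2_2, U2_3, U2_4, U2_5, U2_6, U2_7, U2_8, U2_9, U2_10, U2_11, U2_12, U2_13, U3_0, U3_1, U3_2, U3_3, U3_4, U3_5, U3_6, U3_7, U3_8, U3_9, U3_10, U3_11, U3_12, U3_13, U4_0, U4_1, U4_2,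 U4_3, U4_4, U4_5, U4_6, U4_7, U4_8, U4_9, U4_10, U4_11, U4_12, U4_13, E0_0, E0_1, E0_2, E0_3, E0_4, E0_5, E0_6, E0_7, E0_8, E0_9, E0_10, E0_11, E0_12, E0_13]
  ring

theorem relE1246_8 :
    ((t 0 • (t 7 • (E 0))) - (t 2 • (t 5 • (E 0) - U4 t (E 0)) - U0 t (t 5 • (E 0) - U4 t (E 0))) + (t 4 • (U1 t (E 0)) - U2 t (U1 t (E 0)) - U3 t (U1 t (E 0))) : Fin 14 → R) 8 = 0 := by
  simp only [Pi.add_apply, Pi.sub_apply, Pi.smul_apply, Pi.neg_apply, smul_eq_mul, U0_0, U0_1, U0_2, U0_3, U0_4, U0_5, U0_6, U0_7, U0_8, U0_9, U0_10, U0_11, U0_12, U0_13, U1_0, U1_1, U1_2, U1_3, U1_4, U1_5, U1_6, U1_7, U1_8, U1_9, U1_10, U1_11, U1_12, U1_13, U2_0, U2_1, U2_2, U2_3, U2_4, U2_5, U2_6, U2_7, U2_8, U2_9, U2_10, U2_11, U2_12, U2_13, U3_0, U3_1, U3_2, U3_3, U3_4, U3_5, U3_6, U3_7, U3_8, U3_9, U3_10, U3_11,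 U3_12, U3_13, U4_0, U4_1, U4_2, U4_3, U4_4, U4_5, U4_6, U4_7, U4_8, U4_9, U4_10, U4_11, U4_12, U4_13, E0_0, E0_1, E0_2, E0_3, E0_4, E0_5, E0_6, E0_7, E0_8, E0_9, E0_10, E0_11, E0_12, E0_13]
  ring

theorem relE1246_9 :
    ((t 0 • (t 7 • (E 0))) - (t 2 • (t 5 • (E 0) - U4 t (E 0)) - U0 t (t 5 • (E 0) - U4 t (E 0))) + (t 4 • (U1 t (E 0)) - U2 t (U1 t (E 0)) - U3 t (U1 t (E 0))) : Fin 14 → R) 9 = 0 := by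
  simp only [Pi.add_apply, Pi.sub_apply, Pi.smul_apply, Pi.neg_apply, smul_eq_mul, U0_0, U0_1, U0_2, U0_3, U0_4, U0_5, U0_6, U0_7, U0_8, U0_9, U0_10, U0_11, U0_12, U0_13, U1_0, U1_1, U1_2, U1_3, U1_4, U1_5, U1_6, U1_7, U1_8, U1_9, U1_10, U1_11, U1_12, U1_13, U2_0, U2_1, U2_2, U2_3, U2_4, U2_5, U2_6, U2_7, U2_8, U2_9, U2_10, U2_11, U2_12, U2_13, U3_0, U3_1, U3_2, U3_3, U3_4, U3_5, U3_6, U3_7, U3_8, U3_9, U3_10, U3_11, U3_12, U3_13, U4_0, U4_1, U4_2, U4_3, U4_4, U4_5, U4_6, U4_7, U4_8, U4_9, U4_10, U4_11, U4_12, U4_13, E0_0, E0_1, E0_2, E0_3, E0_4, E0_5, E0_6, E0_7, E0_8, E0_9, E0_10, E0_11, E0_12, E0_13]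
  ring

theorem relE1246_10 :
    ((t 0 • (t 7 • (E 0))) - (t 2 • (t 5 • (E 0) - U4 t (E 0)) - U0 t (t 5 • (E 0) - U4 t (E 0))) + (t 4 • (U1 t (E 0)) - U2 t (U1 t (E 0)) - U3 t (U1 t (E 0))) : Fin 14 → R) 10 = 0 := by
  simp only [Pi.add_apply, Pi.sub_apply, Pi.smul_apply, Pi.neg_apply, smul_eq_mul, U0_0, U0_1, U0_2, U0_3, U0_4, U0_5, U0_6, U0_7, U0_8, U0_9, U0_10, U0_11, U0_12, U0_13, U1_0, U1_1, U1_2, U1_3, U1_4, U1_5, U1_6, U1_7, U1_8, U1_9, U1_10, U1_11, U1_12, U1_13, U2_0, U2_1, U2_2, U2_3, U2_4, U2_5, U2_6, U2_7, U2_8, U2_9, U2_10, U2_11, U2_12, U2_13, U3_0, U3_1, U3_2, U3_3, U3_4, U3_5, U3_6, U3_7, U3_8, U3_9, U3_10, U3_11, U3_12, U3_13, U4_0, U4_1, U4_2, U4_3, U4_4, U4_5, U4_6, U4_7, U4_8, U4_9, U4_10, U4_11, U4_12, U4_13, E0_0, E0_1, E0_2, E0_3, E0_4, E0_5, E0_6, E0_7, E0_8,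 E0_9, E0_10, E0_11, E0_12, E0_13]
  ring

theorem relE1246_11 :
    ((t 0 • (t 7 • (E 0))) - (t 2 • (t 5 • (E 0) - U4 t (E 0)) - U0 t (t 5 • (E 0) - U4 t (E 0))) + (t 4 • (U1 t (E 0)) - U2 t (U1 t (E 0)) - U3 t (U1 t (E 0))) : Fin 14 → R) 11 = 0 := by
  simp only [Pi.add_apply, Pi.sub_apply, Pi.smul_apply, Pi.neg_apply, smul_eq_mul, U0_0, U0_1, U0_2, U0_3, U0_4, U0_5, U0_6, U0_7, U0_8, U0_9, U0_10, U0_11, U0_12, U0_13, U1_0, U1_1, U1_2, U1_3, U1_4, U1_5, U1_6, U1_7, U1_8, U1_9, U1_10, U1_11, U1_12, U1_13, U2_0, U2_1, U2_2, U2_3, U2_4, U2_5, U2_6, U2_7, U2_8, U2_9, U2_10, U2_11, U2_12, U2_13, U3_0, U3_1, U3_2, U3_3, U3_4, U3_5, U3_6, U3_7, U3_8, U3_9, U3_10, U3_11, U3_12, U3_13, U4_0, U4_1, U4_2, U4_3, U4_4, U4_5, U4_6, U4_7, U4_8, U4_9, U4_10, U4_11, U4_12, U4_13, E0_0, E0_1, E0_2,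 E0_3, E0_4, E0_5, E0_6, E0_7, E0_8, E0_9, E0_10, E0_11, E0_12, E0_13]
  ring

theorem relE1246_12 :
    ((t 0 • (t 7 • (E 0))) - (t 2 • (t 5 • (E 0) - U4 t (E 0)) - U0 t (t 5 • (E 0) - U4 t (E 0))) + (t 4 • (U1 t (E 0)) - U2 t (U1 t (E 0)) - U3 t (U1 t (E 0))) : Fin 14 → R) 12 = 0 := by
  simp only [Pi.add_apply, Pi.sub_apply, Pi.smul_apply, Pi.neg_apply, smul_eq_mul, U0_0, U0_1, U0_2, U0_3, U0_4, U0_5, U0_6, U0_7, U0_8, U0_9, U0_10, U0_11, U0_12, U0_13, U1_0, U1_1, U1_2, U1_3, U1_4, U1_5, U1_6, U1_7, U1_8, U1_9, U1_10, U1_11, U1_12, U1_13, U2_0, U2_1, U2_2, U2_3, U2_4, U2_5, U2_6, U2_7, U2_8, U2_9, U2_10, U2_11, U2_12, U2_13, U3_0, U3_1, U3_2, U3_3, U3_4, U3_5, U3_6, U3_7, U3_8, U3_9, U3_10, U3_11, U3_12, U3_13, U4_0, U4_1, U4_2, U4_3, U4_4, U4_5, U4_6, U4_7, U4_8, U4_9, U4_10, U4_11,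 U4_12, U4_13, E0_0, E0_1, E0_2, E0_3, E0_4, E0_5, E0_6, E0_7, E0_8, E0_9, E0_10, E0_11, E0_12, E0_13]
  ring

theorem relE1246_13 :
    ((t 0 • (t 7 • (E 0))) - (t 2 • (t 5 • (E 0) - U4 t (E 0)) - U0 t (t 5 • (E 0) - U4 t (E 0))) + (t 4 • (U1 t (E 0)) - U2 t (U1 t (E 0)) - U3 t (U1 t (E 0))) : Fin 14 → R) 13 = 0 := by
  simp only [Pi.add_apply, Pi.sub_apply, Pi.smul_apply, Pi.neg_apply, smul_eq_mul, U0_0, U0_1, U0_2, U0_3, U0_4, U0_5, U0_6, U0_7, U0_8, U0_9, U0_10, U0_11, U0_12, U0_13, U1_0, U1_1, U1_2, U1_3, U1_4, U1_5, U1_6, U1_7, U1_8, U1_9, U1_10, U1_11, U1_12, U1_13, U2_0, U2_1, U2_2, U2_3, U2_4, U2_5, U2_6, U2_7, U2_8, U2_9, U2_10, U2_11, U2_12, U2_13, U3_0, U3_1, U3_2, U3_3, U3_4, U3_5, U3_6, U3_7, U3_8, U3_9, U3_10, U3_11, U3_12, U3_13, U4_0, U4_1, U4_2, U4_3, U4_4, U4_5, U4_6,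 U4_7, U4_8, U4_9, U4_10, U4_11, U4_12, U4_13, E0_0, E0_1, E0_2, E0_3, E0_4, E0_5, E0_6, E0_7, E0_8, E0_9, E0_10, E0_11, E0_12, E0_13]
  ring

theorem relE1246 :
    ((t 0 • (t 7 • (E 0))) - (t 2 • (t 5 • (E 0) - U4 t (E 0)) - U0 t (t 5 • (E 0) - U4 t (E 0))) + (t 4 • (U1 t (E 0)) - U2 t (U1 t (E 0)) - U3 t (U1 t (E 0))) : Fin 14 → R) = 0 := by
  refine funext fun i => ?_
  fin_cases i
  exacts [relE1246_0 t, relE1246_1 t, relE1246_2 t, relE1246_3 t, relE1246_4 t, relE1246_5 t, relE1246_6 t, relE1246_7 t, relE1246_8 t, relE1246_9 t, relE1246_10 t, relE1246_11 t, relE1246_12 t, relE1246_13 t]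

theorem relC1246 : tC t 0 * tC t 7 - (tC t 2 - UC t 0) * (tC t 5 - UC t 4) + (tC t 4 - UC t 2 - UC t 3) * UC t 1 = 0 :=
  cyc t _ (relE1246 t)

theorem relE1256_0 :
    ((t 0 • (t 8 • (E 0))) - (t 3 • (t 5 • (E 0) - U4 t (E 0)) - U1 t (t 5 • (E 0) - U4 t (E 0))) + (t 4 • (U2 t (E 0)) - U2 t (U2 t (E 0)) - U3 t (U2 t (E 0))) : Fin 14 → R) 0 = 0 := by
  simp only [Pi.add_apply, Pi.sub_apply, Pi.smul_apply, Pi.neg_apply, smul_eq_mul, U1_0, U1_1, U1_2, U1_3, U1_4, U1_5, U1_6, U1_7, U1_8, U1_9, U1_10, U1_11, U1_12, U1_13, U2_0, U2_1, U2_2, U2_3, U2_4, U2_5, U2_6, U2_7, U2_8, U2_9, U2_10, U2_11, U2_12, U2_13, U3_0, U3_1, U3_2, U3_3, U3_4, U3_5, U3_6, U3_7, U3_8, U3_9, U3_10, U3_11, U3_12, U3_13, U4_0, U4_1, U4_2, U4_3, U4_4, U4_5, U4_6, U4_7, U4_8, U4_9, U4_10, U4_11, U4_12, U4_13, E0_0,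 E0_1, E0_2, E0_3, E0_4, E0_5, E0_6, E0_7, E0_8, E0_9, E0_10, E0_11, E0_12, E0_13]
  ring

theorem relE1256_1 :
    ((t 0 • (t 8 • (E 0))) - (t 3 • (t 5 • (E 0) - U4 t (E 0)) - U1 t (t 5 • (E 0) - U4 t (E 0))) + (t 4 • (U2 t (E 0)) - U2 t (U2 t (E 0)) - U3 t (U2 t (E 0))) : Fin 14 → R) 1 = 0 := by
  simp only [Pi.add_apply, Pi.sub_apply, Pi.smul_apply, Pi.neg_apply, smul_eq_mul, U1_0, U1_1, U1_2, U1_3, U1_4, U1_5, U1_6, U1_7, U1_8, U1_9, U1_10, U1_11, U1_12, U1_13, U2_0, U2_1, U2_2, U2_3, U2_4, U2_5, U2_6, U2_7, U2_8, U2_9, U2_10, U2_11, U2_12, U2_13, U3_0, U3_1, U3_2, U3_3, U3_4, U3_5, U3_6, U3_7, U3_8, U3_9, U3_10, U3_11, U3_12, U3_13, U4_0, U4_1, U4_2, U4_3, U4_4, U4_5, U4_6, U4_7, U4_8, U4_9, U4_10, U4_11, U4_12, U4_13, E0_0, E0_1, E0_2, E0_3, E0_4, E0_5, E0_6, E0_7, E0_8, E0_9,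 E0_10, E0_11, E0_12, E0_13]
  ring

theorem relE1256_2 :
    ((t 0 • (t 8 • (E 0))) - (t 3 • (t 5 • (E 0) - U4 t (E 0)) - U1 t (t 5 • (E 0) - U4 t (E 0))) + (t 4 • (U2 t (E 0)) - U2 t (U2 t (E 0)) - U3 t (U2 t (E 0))) : Fin 14 → R) 2 = 0 := by
  simp only [Pi.add_apply, Pi.sub_apply, Pi.smul_apply, Pi.neg_apply, smul_eq_mul, U1_0, U1_1, U1_2, U1_3, U1_4, U1_5, U1_6, U1_7, U1_8, U1_9, U1_10, U1_11, U1_12, U1_13, U2_0, U2_1, U2_2, U2_3, U2_4, U2_5, U2_6, U2_7, U2_8, U2_9, U2_10, U2_11, U2_12, U2_13, U3_0, U3_1, U3_2, U3_3, U3_4, U3_5, U3_6, U3_7, U3_8, U3_9, U3_10, U3_11, U3_12, U3_13, U4_0, U4_1, U4_2, U4_3, U4_4, U4_5, U4_6, U4_7, U4_8, U4_9, U4_10, U4_11, U4_12, U4_13, E0_0, E0_1, E0_2, E0_3, E0_4, E0_5, E0_6, E0_7, E0_8, E0_9, E0_10, E0_11, E0_12, E0_13]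
  ring

theorem relE1256_3 :
    ((t 0 • (t 8 • (E 0))) - (t 3 • (t 5 • (E 0) - U4 t (E 0)) - U1 t (t 5 • (E 0) - U4 t (E 0))) + (t 4 • (U2 t (E 0)) - U2 t (U2 t (E 0)) - U3 t (U2 t (E 0))) : Fin 14 → R) 3 = 0 := by
  simp only [Pi.add_apply, Pi.sub_apply, Pi.smul_apply, Pi.neg_apply, smul_eq_mul, U1_0, U1_1, U1_2, U1_3, U1_4, U1_5, U1_6, U1_7, U1_8, U1_9, U1_10, U1_11, U1_12, U1_13, U2_0, U2_1, U2_2, U2_3, U2_4, U2_5, U2_6, U2_7, U2_8, U2_9, U2_10, U2_11, U2_12, U2_13, U3_0, U3_1, U3_2, U3_3, U3_4, U3_5, U3_6, U3_7, U3_8, U3_9, U3_10, U3_11, U3_12, U3_13, U4_0, U4_1, U4_2, U4_3, U4_4, U4_5, U4_6, U4_7, U4_8, U4_9, U4_10, U4_11, U4_12, U4_13, E0_0, E0_1, E0_2, E0_3, E0_4, E0_5, E0_6, E0_7, E0_8, E0_9, E0_10, E0_11, E0_12, E0_13]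
  ring

theorem relE1256_4 :
    ((t 0 • (t 8 • (E 0))) - (t 3 • (t 5 • (E 0) - U4 t (E 0)) - U1 t (t 5 • (E 0) - U4 t (E 0))) + (t 4 • (U2 t (E 0)) - U2 t (U2 t (E 0)) - U3 t (U2 t (E 0))) : Fin 14 → R) 4 = 0 := by
  simp only [Pi.add_apply, Pi.sub_apply, Pi.smul_apply, Pi.neg_apply, smul_eq_mul, U1_0, U1_1, U1_2, U1_3, U1_4, U1_5, U1_6, U1_7, U1_8, U1_9, U1_10, U1_11, U1_12, U1_13, U2_0, U2_1, U2_2, U2_3, U2_4, U2_5, U2_6, U2_7, U2_8, U2_9, U2_10, U2_11, U2_12, U2_13, U3_0, U3_1, U3_2, U3_3, U3_4, U3_5, U3_6, U3_7, U3_8, U3_9, U3_10, U3_11, U3_12, U3_13, U4_0, U4_1, U4_2, U4_3, U4_4, U4_5, U4_6, U4_7, U4_8, U4_9, U4_10, U4_11, U4_12, U4_13, E0_0, E0_1, E0_2, E0_3, E0_4, E0_5, E0_6, E0_7, E0_8, E0_9, E0_10, E0_11, E0_12, E0_13]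
  ring

theorem relE1256_5 :
    ((t 0 • (t 8 • (E 0))) - (t 3 • (t 5 • (E 0) - U4 t (E 0)) - U1 t (t 5 • (E 0) - U4 t (E 0))) + (t 4 • (U2 t (E 0)) - U2 t (U2 t (E 0)) - U3 t (U2 t (E 0))) : Fin 14 → R) 5 = 0 := by
  simp only [Pi.add_apply, Pi.sub_apply, Pi.smul_apply, Pi.neg_apply, smul_eq_mul, U1_0, U1_1, U1_2, U1_3, U1_4, U1_5, U1_6, U1_7, U1_8, U1_9, U1_10, U1_11, U1_12, U1_13, U2_0, U2_1, U2_2, U2_3, U2_4, U2_5, U2_6, U2_7, U2_8, U2_9, U2_10, U2_11, U2_12, U2_13, U3_0, U3_1, U3_2, U3_3, U3_4, U3_5, U3_6, U3_7, U3_8, U3_9, U3_10, U3_11, U3_12, U3_13, U4_0, U4_1, U4_2, U4_3, U4_4, U4_5, U4_6, U4_7, U4_8, U4_9, U4_10, U4_11, U4_12, U4_13, E0_0, E0_1, E0_2, E0_3, E0_4, E0_5, E0_6, E0_7, E0_8, E0_9, E0_10, E0_11, E0_12, E0_13]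
  ring

theorem relE1256_6 :
    ((t 0 • (t 8 • (E 0))) - (t 3 • (t 5 • (E 0) - U4 t (E 0)) - U1 t (t 5 • (E 0) - U4 t (E 0))) + (t 4 • (U2 t (E 0)) - U2 t (U2 t (E 0)) - U3 t (U2 t (E 0))) : Fin 14 → R) 6 = 0 := by
  simp only [Pi.add_apply, Pi.sub_apply, Pi.smul_apply, Pi.neg_apply, smul_eq_mul, U1_0, U1_1, U1_2, U1_3, U1_4, U1_5, U1_6, U1_7, U1_8, U1_9, U1_10, U1_11, U1_12, U1_13, U2_0, U2_1, U2_2, U2_3, U2_4, U2_5, U2_6, U2_7, U2_8, U2_9, U2_10, U2_11, U2_12, U2_13, U3_0, U3_1, U3_2, U3_3, U3_4, U3_5, U3_6, U3_7, U3_8, U3_9, U3_10, U3_11, U3_12, U3_13, U4_0, U4_1, U4_2, U4_3, U4_4, U4_5, U4_6, U4_7, U4_8, U4_9, U4_10, U4_11, U4_12, U4_13, E0_0, E0_1, E0_2, E0_3, E0_4, E0_5, E0_6, E0_7, E0_8, E0_9, E0_10, E0_11, E0_12, E0_13]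
  ring

theorem relE1256_7 :
    ((t 0 • (t 8 • (E 0))) - (t 3 • (t 5 • (E 0) - U4 t (E 0)) - U1 t (t 5 • (E 0) - U4 t (E 0))) + (t 4 • (U2 t (E 0)) - U2 t (U2 t (E 0)) - U3 t (U2 t (E 0))) : Fin 14 → R) 7 = 0 := by
  simp only [Pi.add_apply, Pi.sub_apply, Pi.smul_apply, Pi.neg_apply, smul_eq_mul, U1_0, U1_1, U1_2, U1_3, U1_4, U1_5, U1_6, U1_7, U1_8, U1_9, U1_10, U1_11, U1_12, U1_13, U2_0, U2_1, U2_2, U2_3, U2_4, U2_5, U2_6, U2_7, U2_8, U2_9, U2_10, U2_11, U2_12, U2_13, U3_0, U3_1, U3_2, U3_3, U3_4, U3_5, U3_6, U3_7, U3_8, U3_9, U3_10, U3_11, U3_12, U3_13, U4_0, U4_1, U4_2, U4_3, U4_4, U4_5, U4_6, U4_7, U4_8, U4_9, U4_10, U4_11, U4_12, U4_13, E0_0, E0_1, E0_2, E0_3, E0_4, E0_5, E0_6, E0_7, E0_8, E0_9, E0_10, E0_11, E0_12, E0_13]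
  ring

theorem relE1256_8 :
    ((t 0 • (t 8 • (E 0))) - (t 3 • (t 5 • (E 0) - U4 t (E 0)) - U1 t (t 5 • (E 0) - U4 t (E 0))) + (t 4 • (U2 t (E 0)) - U2 t (U2 t (E 0)) - U3 t (U2 t (E 0))) : Fin 14 → R) 8 = 0 := by
  simp only [Pi.add_apply, Pi.sub_apply, Pi.smul_apply, Pi.neg_apply, smul_eq_mul, U1_0, U1_1, U1_2, U1_3, U1_4, U1_5, U1_6, U1_7, U1_8, U1_9, U1_10, U1_11, U1_12, U1_13, U2_0, U2_1, U2_2, U2_3, U2_4, U2_5, U2_6, U2_7, U2_8, U2_9, U2_10, U2_11, U2_12, U2_13, U3_0, U3_1, U3_2, U3_3, U3_4, U3_5, U3_6, U3_7, U3_8, U3_9, U3_10, U3_11, U3_12, U3_13, U4_0, U4_1, U4_2, U4_3, U4_4, U4_5, U4_6, U4_7, U4_8, U4_9, U4_10, U4_11, U4_12, U4_13, E0_0, E0_1, E0_2, E0_3, E0_4, E0_5, E0_6, E0_7, E0_8, E0_9, E0_10, E0_11, E0_12, E0_13]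
  ring

theorem relE1256_9 :
    ((t 0 • (t 8 • (E 0))) - (t 3 • (t 5 • (E 0) - U4 t (E 0)) - U1 t (t 5 • (E 0) - U4 t (E 0))) + (t 4 • (U2 t (E 0)) - U2 t (U2 t (E 0)) - U3 t (U2 t (E 0))) : Fin 14 → R) 9 = 0 := by
  simp only [Pi.add_apply, Pi.sub_apply, Pi.smul_apply, Pi.neg_apply, smul_eq_mul, U1_0, U1_1, U1_2, U1_3, U1_4, U1_5, U1_6, U1_7, U1_8, U1_9, U1_10, U1_11, U1_12, U1_13, U2_0, U2_1, U2_2, U2_3, U2_4, U2_5, U2_6, U2_7, U2_8, U2_9, U2_10, U2_11, U2_12, U2_13, U3_0, U3_1, U3_2, U3_3, U3_4, U3_5, U3_6, U3_7, U3_8, U3_9, U3_10, U3_11, U3_12, U3_13, U4_0, U4_1, U4_2, U4_3, U4_4, U4_5, U4_6, U4_7, U4_8, U4_9, U4_10, U4_11, U4_12, U4_13, E0_0, E0_1, E0_2, E0_3, E0_4, E0_5, E0_6, E0_7, E0_8, E0_9, E0_10, E0_11, E0_12, E0_13]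
  ring

theorem relE1256_10 :
    ((t 0 • (t 8 • (E 0))) - (t 3 • (t 5 • (E 0) - U4 t (E 0)) - U1 t (t 5 • (E 0) - U4 t (E 0))) + (t 4 • (U2 t (E 0)) - U2 t (U2 t (E 0)) - U3 t (U2 t (E 0))) : Fin 14 → R) 10 = 0 := by
  simp only [Pi.add_apply, Pi.sub_apply, Pi.smul_apply, Pi.neg_apply, smul_eq_mul, U1_0, U1_1, U1_2, U1_3, U1_4, U1_5, U1_6, U1_7, U1_8, U1_9, U1_10, U1_11, U1_12, U1_13, U2_0, U2_1, U2_2, U2_3, U2_4, U2_5, U2_6, U2_7, U2_8, U2_9, U2_10, U2_11, U2_12, U2_13, U3_0, U3_1, U3_2, U3_3, U3_4, U3_5, U3_6, U3_7, U3_8, U3_9, U3_10, U3_11, U3_12, U3_13, U4_0, U4_1, U4_2, U4_3, U4_4, U4_5, U4_6, U4_7, U4_8, U4_9, U4_10, U4_11, U4_12, U4_13, E0_0, E0_1, E0_2, E0_3, E0_4, E0_5, E0_6, E0_7, E0_8, E0_9, E0_10, E0_11, E0_12, E0_13]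
  ring

theorem relE1256_11 :
    ((t 0 • (t 8 • (E 0))) - (t 3 • (t 5 • (E 0) - U4 t (E 0)) - U1 t (t 5 • (E 0) - U4 t (E 0))) + (t 4 • (U2 t (E 0)) - U2 t (U2 t (E 0)) - U3 t (U2 t (E 0))) : Fin 14 → R) 11 = 0 := by
  simp only [Pi.add_apply, Pi.sub_apply, Pi.smul_apply, Pi.neg_apply, smul_eq_mul, U1_0, U1_1, U1_2, U1_3, U1_4, U1_5, U1_6, U1_7, U1_8, U1_9, U1_10, U1_11, U1_12, U1_13, U2_0, U2_1, U2_2, U2_3, U2_4, U2_5, U2_6, U2_7, U2_8, U2_9, U2_10, U2_11, U2_12, U2_13, U3_0, U3_1, U3_2, U3_3, U3_4, U3_5, U3_6, U3_7, U3_8, U3_9, U3_10, U3_11, U3_12, U3_13, U4_0, U4_1, U4_2, U4_3, U4_4, U4_5, U4_6, U4_7, U4_8, U4_9, U4_10, U4_11, U4_12, U4_13, E0_0, E0_1, E0_2, E0_3, E0_4, E0_5, E0_6, E0_7, E0_8, E0_9, E0_10, E0_11, E0_12, E0_13]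
  ring

theorem relE1256_12 :
    ((t 0 • (t 8 • (E 0))) - (t 3 • (t 5 • (E 0) - U4 t (E 0)) - U1 t (t 5 • (E 0) - U4 t (E 0))) + (t 4 • (U2 t (E 0)) - U2 t (U2 t (E 0)) - U3 t (U2 t (E 0))) : Fin 14 → R) 12 = 0 := by
  simp only [Pi.add_apply, Pi.sub_apply, Pi.smul_apply, Pi.neg_apply, smul_eq_mul, U1_0, U1_1, U1_2, U1_3, U1_4, U1_5, U1_6, U1_7, U1_8, U1_9, U1_10, U1_11, U1_12, U1_13, U2_0, U2_1, U2_2, U2_3, U2_4, U2_5, U2_6, U2_7, U2_8, U2_9, U2_10, U2_11, U2_12, U2_13, U3_0, U3_1, U3_2, U3_3, U3_4, U3_5, U3_6, U3_7, U3_8, U3_9, U3_10, U3_11, U3_12, U3_13, U4_0, U4_1, U4_2, U4_3, U4_4, U4_5, U4_6, U4_7, U4_8, U4_9, U4_10, U4_11, U4_12, U4_13, E0_0, E0_1, E0_2, E0_3, E0_4, E0_5, E0_6, E0_7, E0_8, E0_9, E0_10, E0_11, E0_12, E0_13]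
  ring

theorem relE1256_13 :
    ((t 0 • (t 8 • (E 0))) - (t 3 • (t 5 • (E 0) - U4 t (E 0)) - U1 t (t 5 • (E 0) - U4 t (E 0))) + (t 4 • (U2 t (E 0)) - U2 t (U2 t (E 0)) - U3 t (U2 t (E 0))) : Fin 14 → R) 13 = 0 := by
  simp only [Pi.add_apply, Pi.sub_apply, Pi.smul_apply, Pi.neg_apply, smul_eq_mul, U1_0, U1_1, U1_2, U1_3, U1_4, U1_5, U1_6, U1_7, U1_8, U1_9, U1_10, U1_11, U1_12, U1_13, U2_0, U2_1, U2_2, U2_3, U2_4, U2_5, U2_6, U2_7, U2_8, U2_9, U2_10, U2_11, U2_12, U2_13, U3_0, U3_1, U3_2, U3_3, U3_4, U3_5, U3_6, U3_7, U3_8, U3_9, U3_10, U3_11, U3_12, U3_13, U4_0, U4_1, U4_2, U4_3, U4_4, U4_5, U4_6, U4_7, U4_8, U4_9, U4_10, U4_11, U4_12, U4_13, E0_0, E0_1, E0_2, E0_3, E0_4, E0_5, E0_6, E0_7, E0_8, E0_9, E0_10, E0_11, E0_12, E0_13]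
  ring

theorem relE1256 :
    ((t 0 • (t 8 • (E 0))) - (t 3 • (t 5 • (E 0) - U4 t (E 0)) - U1 t (t 5 • (E 0) - U4 t (E 0))) + (t 4 • (U2 t (E 0)) - U2 t (U2 t (E 0)) - U3 t (U2 t (E 0))) : Fin 14 → R) = 0 := by
  refine funext fun i => ?_
  fin_cases i
  exacts [relE1256_0 t, relE1256_1 t, relE1256_2 t, relE1256_3 t, relE1256_4 t, relE1256_5 t, relE1256_6 t, relE1256_7 t, relE1256_8 t, relE1256_9 t, relE1256_10 t, relE1256_11 t, relE1256_12 t, relE1256_13 t]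

theorem relC1256 : tC t 0 * tC t 8 - (tC t 3 - UC t 1) * (tC t 5 - UC t 4) + (tC t 4 - UC t 2 - UC t 3) * UC t 2 = 0 :=
  cyc t _ (relE1256 t)

theorem relE1345_0 :
    ((t 1 • (U5 t (E 0))) - (t 2 • (U4 t (E 0)) - U0 t (U4 t (E 0))) + (t 3 • (U3 t (E 0)) - U1 t (U3 t (E 0))) : Fin 14 → R) 0 = 0 := by
  simp only [Pi.add_apply, Pi.sub_apply, Pi.smul_apply, Pi.neg_apply, smul_eq_mul, U0_0, U0_1, U0_2, U0_3, U0_4, U0_5, U0_6, U0_7, U0_8, U0_9, U0_10, U0_11, U0_12, U0_13, U1_0, U1_1, U1_2, U1_3, U1_4, U1_5, U1_6, U1_7, U1_8, U1_9, U1_10, U1_11, U1_12, U1_13, U3_0, U3_1, U3_2, U3_3, U3_4, U3_5, U3_6, U3_7, U3_8, U3_9, U3_10, U3_11, U3_12, U3_13, U4_0, U4_1, U4_2, U4_3, U4_4, U4_5, U4_6, U4_7, U4_8, U4_9, U4_10, U4_11, U4_12, U4_13, U5_0, U5_1, U5_2, U5_3, U5_4, U5_5, U5_6, U5_7, U5_8,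 U5_9, U5_10, U5_11, U5_12, U5_13, E0_0, E0_1, E0_2, E0_3, E0_4, E0_5, E0_6, E0_7, E0_8, E0_9, E0_10, E0_11, E0_12, E0_13]
  ring

theorem relE1345_1 :
    ((t 1 • (U5 t (E 0))) - (t 2 • (U4 t (E 0)) - U0 t (U4 t (E 0))) + (t 3 • (U3 t (E 0)) - U1 t (U3 t (E 0))) : Fin 14 → R) 1 = 0 := by
  simp only [Pi.add_apply, Pi.sub_apply, Pi.smul_apply, Pi.neg_apply, smul_eq_mul, U0_0, U0_1, U0_2, U0_3, U0_4, U0_5, U0_6, U0_7, U0_8, U0_9, U0_10, U0_11, U0_12, U0_13, U1_0, U1_1, U1_2, U1_3, U1_4, U1_5, U1_6, U1_7, U1_8, U1_9, U1_10, U1_11, U1_12, U1_13, U3_0, U3_1, U3_2, U3_3, U3_4, U3_5, U3_6, U3_7, U3_8, U3_9, U3_10, U3_11, U3_12, U3_13, U4_0, U4_1, U4_2, U4_3, U4_4, U4_5, U4_6, U4_7, U4_8, U4_9, U4_10, U4_11, U4_12, U4_13, U5_0, U5_1, U5_2, U5_3, U5_4, U5_5, U5_6, U5_7, U5_8, U5_9, U5_10, U5_11,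 U5_12, U5_13, E0_0, E0_1, E0_2, E0_3, E0_4, E0_5, E0_6, E0_7, E0_8, E0_9, E0_10, E0_11, E0_12, E0_13]
  ring

theorem relE1345_2 :
    ((t 1 • (U5 t (E 0))) - (t 2 • (U4 t (E 0)) - U0 t (U4 t (E 0))) + (t 3 • (U3 t (E 0)) - U1 t (U3 t (E 0))) : Fin 14 → R) 2 = 0 := by
  simp only [Pi.add_apply, Pi.sub_apply, Pi.smul_apply, Pi.neg_apply, smul_eq_mul, U0_0, U0_1, U0_2, U0_3, U0_4, U0_5, U0_6, U0_7, U0_8, U0_9, U0_10, U0_11, U0_12, U0_13, U1_0, U1_1, U1_2, U1_3, U1_4, U1_5, U1_6, U1_7, U1_8, U1_9, U1_10, U1_11, U1_12, U1_13, U3_0, U3_1, U3_2, U3_3, U3_4, U3_5, U3_6, U3_7, U3_8, U3_9, U3_10, U3_11, U3_12, U3_13, U4_0, U4_1, U4_2, U4_3, U4_4, U4_5, U4_6, U4_7, U4_8, U4_9, U4_10, U4_11, U4_12, U4_13, U5_0, U5_1, U5_2, U5_3, U5_4, U5_5, U5_6, U5_7, U5_8, U5_9, U5_10, U5_11, U5_12, U5_13,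 E0_0, E0_1, E0_2, E0_3, E0_4, E0_5, E0_6, E0_7, E0_8, E0_9, E0_10, E0_11, E0_12, E0_13]
  ring

theorem relE1345_3 :
    ((t 1 • (U5 t (E 0))) - (t 2 • (U4 t (E 0)) - U0 t (U4 t (E 0))) + (t 3 • (U3 t (E 0)) - U1 t (U3 t (E 0))) : Fin 14 → R) 3 = 0 := by
  simp only [Pi.add_apply, Pi.sub_apply, Pi.smul_apply, Pi.neg_apply, smul_eq_mul, U0_0, U0_1, U0_2, U0_3, U0_4, U0_5, U0_6, U0_7, U0_8, U0_9, U0_10, U0_11, U0_12, U0_13, U1_0, U1_1, U1_2, U1_3, U1_4, U1_5, U1_6, U1_7, U1_8, U1_9, U1_10, U1_11, U1_12, U1_13, U3_0, U3_1, U3_2, U3_3, U3_4, U3_5, U3_6, U3_7, U3_8, U3_9, U3_10, U3_11, U3_12, U3_13, U4_0, U4_1, U4_2, U4_3, U4_4, U4_5, U4_6, U4_7, U4_8, U4_9, U4_10, U4_11, U4_12, U4_13, U5_0, U5_1, U5_2, U5_3, U5_4, U5_5, U5_6, U5_7, U5_8, U5_9, U5_10, U5_11, U5_12, U5_13, E0_0, E0_1, E0_2,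 E0_3, E0_4, E0_5, E0_6, E0_7, E0_8, E0_9, E0_10, E0_11, E0_12, E0_13]
  ring

theorem relE1345_4 :
    ((t 1 • (U5 t (E 0))) - (t 2 • (U4 t (E 0)) - U0 t (U4 t (E 0))) + (t 3 • (U3 t (E 0)) - U1 t (U3 t (E 0))) : Fin 14 → R) 4 = 0 := by
  simp only [Pi.add_apply, Pi.sub_apply, Pi.smul_apply, Pi.neg_apply, smul_eq_mul, U0_0, U0_1, U0_2, U0_3, U0_4, U0_5, U0_6, U0_7, U0_8, U0_9, U0_10, U0_11, U0_12, U0_13, U1_0, U1_1, U1_2, U1_3, U1_4, U1_5, U1_6, U1_7, U1_8, U1_9, U1_10, U1_11, U1_12, U1_13, U3_0, U3_1, U3_2, U3_3, U3_4, U3_5, U3_6, U3_7, U3_8, U3_9, U3_10, U3_11, U3_12, U3_13, U4_0, U4_1, U4_2, U4_3, U4_4, U4_5, U4_6, U4_7, U4_8, U4_9, U4_10, U4_11, U4_12, U4_13, U5_0, U5_1, U5_2, U5_3, U5_4, U5_5, U5_6, U5_7, U5_8, U5_9, U5_10, U5_11, U5_12, U5_13, E0_0, E0_1, E0_2, E0_3, E0_4, E0_5,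 E0_6, E0_7, E0_8, E0_9, E0_10, E0_11, E0_12, E0_13]
  ring

theorem relE1345_5 :
    ((t 1 • (U5 t (E 0))) - (t 2 • (U4 t (E 0)) - U0 t (U4 t (E 0))) + (t 3 • (U3 t (E 0)) - U1 t (U3 t (E 0))) : Fin 14 → R) 5 = 0 := by
  simp only [Pi.add_apply, Pi.sub_apply, Pi.smul_apply, Pi.neg_apply, smul_eq_mul, U0_0, U0_1, U0_2, U0_3, U0_4, U0_5, U0_6, U0_7, U0_8, U0_9, U0_10, U0_11, U0_12, U0_13, U1_0, U1_1, U1_2, U1_3, U1_4, U1_5, U1_6, U1_7, U1_8, U1_9, U1_10, U1_11, U1_12, U1_13, U3_0, U3_1, U3_2, U3_3, U3_4, U3_5, U3_6, U3_7, U3_8, U3_9, U3_10, U3_11, U3_12, U3_13, U4_0, U4_1, U4_2, U4_3, U4_4, U4_5, U4_6, U4_7, U4_8, U4_9, U4_10, U4_11, U4_12, U4_13, U5_0, U5_1, U5_2, U5_3, U5_4, U5_5, U5_6, U5_7, U5_8, U5_9, U5_10, U5_11, U5_12, U5_13, E0_0, E0_1, E0_2, E0_3, E0_4, E0_5, E0_6, E0_7, E0_8,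 E0_9, E0_10, E0_11, E0_12, E0_13]
  ring

theorem relE1345_6 :
    ((t 1 • (U5 t (E 0))) - (t 2 • (U4 t (E 0)) - U0 t (U4 t (E 0))) + (t 3 • (U3 t (E 0)) - U1 t (U3 t (E 0))) : Fin 14 → R) 6 = 0 := by
  simp only [Pi.add_apply, Pi.sub_apply, Pi.smul_apply, Pi.neg_apply, smul_eq_mul, U0_0, U0_1, U0_2, U0_3, U0_4, U0_5, U0_6, U0_7, U0_8, U0_9, U0_10, U0_11, U0_12, U0_13, U1_0, U1_1, U1_2, U1_3, U1_4, U1_5, U1_6, U1_7, U1_8, U1_9, U1_10, U1_11, U1_12, U1_13, U3_0, U3_1, U3_2, U3_3, U3_4, U3_5, U3_6, U3_7, U3_8, U3_9, U3_10, U3_11, U3_12, U3_13, U4_0, U4_1, U4_2, U4_3, U4_4, U4_5, U4_6, U4_7, U4_8, U4_9, U4_10, U4_11, U4_12, U4_13, U5_0, U5_1, U5_2, U5_3, U5_4, U5_5, U5_6, U5_7, U5_8, U5_9, U5_10, U5_11, U5_12, U5_13, E0_0, E0_1, E0_2, E0_3, E0_4, E0_5, E0_6, E0_7, E0_8, E0_9, E0_10, E0_11,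 E0_12, E0_13]
  ring

theorem relE1345_7 :
    ((t 1 • (U5 t (E 0))) - (t 2 • (U4 t (E 0)) - U0 t (U4 t (E 0))) + (t 3 • (U3 t (E 0)) - U1 t (U3 t (E 0))) : Fin 14 → R) 7 = 0 := by
  simp only [Pi.add_apply, Pi.sub_apply, Pi.smul_apply, Pi.neg_apply, smul_eq_mul, U0_0, U0_1, U0_2, U0_3, U0_4, U0_5, U0_6, U0_7, U0_8, U0_9, U0_10, U0_11, U0_12, U0_13, U1_0, U1_1, U1_2, U1_3, U1_4, U1_5, U1_6, U1_7, U1_8, U1_9, U1_10, U1_11, U1_12, U1_13, U3_0, U3_1, U3_2, U3_3, U3_4, U3_5, U3_6, U3_7, U3_8, U3_9, U3_10, U3_11, U3_12, U3_13, U4_0, U4_1, U4_2, U4_3, U4_4, U4_5, U4_6, U4_7, U4_8, U4_9, U4_10, U4_11, U4_12, U4_13, U5_0, U5_1, U5_2, U5_3, U5_4, U5_5, U5_6, U5_7, U5_8, U5_9, U5_10, U5_11, U5_12, U5_13, E0_0, E0_1, E0_2, E0_3, E0_4, E0_5, E0_6, E0_7, E0_8, E0_9, E0_10, E0_11, E0_12, E0_13]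
  ring

theorem relE1345_8 :
    ((t 1 • (U5 t (E 0))) - (t 2 • (U4 t (E 0)) - U0 t (U4 t (E 0))) + (t 3 • (U3 t (E 0)) - U1 t (U3 t (E 0))) : Fin 14 → R) 8 = 0 := by
  simp only [Pi.add_apply, Pi.sub_apply, Pi.smul_apply, Pi.neg_apply, smul_eq_mul, U0_0, U0_1, U0_2, U0_3, U0_4, U0_5, U0_6, U0_7, U0_8, U0_9, U0_10, U0_11, U0_12, U0_13, U1_0, U1_1, U1_2, U1_3, U1_4, U1_5, U1_6, U1_7, U1_8, U1_9, U1_10, U1_11, U1_12, U1_13, U3_0, U3_1, U3_2, U3_3, U3_4, U3_5, U3_6, U3_7, U3_8, U3_9, U3_10, U3_11, U3_12, U3_13, U4_0, U4_1, U4_2, U4_3, U4_4, U4_5, U4_6, U4_7, U4_8, U4_9, U4_10, U4_11, U4_12, U4_13, U5_0, U5_1, U5_2, U5_3, U5_4, U5_5, U5_6, U5_7, U5_8, U5_9, U5_10, U5_11, U5_12, U5_13, E0_0, E0_1, E0_2, E0_3, E0_4, E0_5, E0_6, E0_7, E0_8, E0_9, E0_10, E0_11, E0_12, E0_13]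
  ring

theorem relE1345_9 :
    ((t 1 • (U5 t (E 0))) - (t 2 • (U4 t (E 0)) - U0 t (U4 t (E 0))) + (t 3 • (U3 t (E 0)) - U1 t (U3 t (E 0))) : Fin 14 → R) 9 = 0 := by
  simp only [Pi.add_apply, Pi.sub_apply, Pi.smul_apply, Pi.neg_apply, smul_eq_mul, U0_0, U0_1, U0_2, U0_3, U0_4, U0_5, U0_6, U0_7, U0_8, U0_9, U0_10, U0_11, U0_12, U0_13, U1_0, U1_1, U1_2, U1_3, U1_4, U1_5, U1_6, U1_7, U1_8, U1_9, U1_10, U1_11, U1_12, U1_13, U3_0, U3_1, U3_2, U3_3, U3_4, U3_5, U3_6, U3_7, U3_8, U3_9, U3_10, U3_11, U3_12, U3_13, U4_0, U4_1, U4_2, U4_3, U4_4, U4_5, U4_6, U4_7, U4_8, U4_9, U4_10, U4_11, U4_12, U4_13, U5_0, U5_1, U5_2, U5_3, U5_4, U5_5, U5_6, U5_7, U5_8, U5_9, U5_10, U5_11, U5_12, U5_13, E0_0, E0_1, E0_2, E0_3, E0_4, E0_5, E0_6, E0_7, E0_8, E0_9, E0_10, E0_11, E0_12, E0_13]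
  ring

theorem relE1345_10 :
    ((t 1 • (U5 t (E 0))) - (t 2 • (U4 t (E 0)) - U0 t (U4 t (E 0))) + (t 3 • (U3 t (E 0)) - U1 t (U3 t (E 0))) : Fin 14 → R) 10 = 0 := by
  simp only [Pi.add_apply, Pi.sub_apply, Pi.smul_apply, Pi.neg_apply, smul_eq_mul, U0_0, U0_1, U0_2, U0_3, U0_4, U0_5, U0_6, U0_7, U0_8, U0_9, U0_10, U0_11, U0_12, U0_13, U1_0, U1_1, U1_2, U1_3, U1_4, U1_5, U1_6, U1_7, U1_8, U1_9, U1_10, U1_11, U1_12, U1_13, U3_0, U3_1, U3_2, U3_3, U3_4, U3_5, U3_6, U3_7, U3_8, U3_9, U3_10, U3_11, U3_12, U3_13, U4_0, U4_1, U4_2, U4_3, U4_4, U4_5, U4_6, U4_7, U4_8, U4_9, U4_10, U4_11, U4_12, U4_13, U5_0, U5_1, U5_2, U5_3, U5_4, U5_5, U5_6, U5_7, U5_8, U5_9, U5_10, U5_11, U5_12, U5_13, E0_0, E0_1, E0_2, E0_3, E0_4, E0_5, E0_6, E0_7, E0_8, E0_9, E0_10, E0_11, E0_12, E0_13]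
  ring

theorem relE1345_11 :
    ((t 1 • (U5 t (E 0))) - (t 2 • (U4 t (E 0)) - U0 t (U4 t (E 0))) + (t 3 • (U3 t (E 0)) - U1 t (U3 t (E 0))) : Fin 14 → R) 11 = 0 := by
  simp only [Pi.add_apply, Pi.sub_apply, Pi.smul_apply, Pi.neg_apply, smul_eq_mul, U0_0, U0_1, U0_2, U0_3, U0_4, U0_5, U0_6, U0_7, U0_8, U0_9, U0_10, U0_11, U0_12, U0_13, U1_0, U1_1, U1_2, U1_3, U1_4, U1_5, U1_6, U1_7, U1_8, U1_9, U1_10, U1_11, U1_12, U1_13, U3_0, U3_1, U3_2, U3_3, U3_4, U3_5, U3_6, U3_7, U3_8, U3_9, U3_10, U3_11, U3_12, U3_13, U4_0, U4_1, U4_2, U4_3, U4_4, U4_5, U4_6, U4_7, U4_8, U4_9, U4_10, U4_11, U4_12, U4_13, U5_0, U5_1, U5_2, U5_3, U5_4, U5_5, U5_6, U5_7, U5_8, U5_9, U5_10, U5_11, U5_12, U5_13, E0_0, E0_1, E0_2, E0_3, E0_4, E0_5, E0_6, E0_7, E0_8, E0_9, E0_10, E0_11, E0_12, E0_13]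
  ring

theorem relE1345_12 :
    ((t 1 • (U5 t (E 0))) - (t 2 • (U4 t (E 0)) - U0 t (U4 t (E 0))) + (t 3 • (U3 t (E 0)) - U1 t (U3 t (E 0))) : Fin 14 → R) 12 = 0 := by
  simp only [Pi.add_apply, Pi.sub_apply, Pi.smul_apply, Pi.neg_apply, smul_eq_mul, U0_0, U0_1, U0_2, U0_3, U0_4, U0_5, U0_6, U0_7, U0_8, U0_9, U0_10, U0_11, U0_12, U0_13, U1_0, U1_1, U1_2, U1_3, U1_4, U1_5, U1_6, U1_7, U1_8, U1_9, U1_10, U1_11, U1_12, U1_13, U3_0, U3_1, U3_2, U3_3, U3_4, U3_5, U3_6, U3_7, U3_8, U3_9, U3_10, U3_11, U3_12, U3_13, U4_0, U4_1, U4_2, U4_3, U4_4, U4_5, U4_6, U4_7, U4_8, U4_9, U4_10, U4_11, U4_12, U4_13, U5_0, U5_1, U5_2, U5_3, U5_4, U5_5, U5_6, U5_7, U5_8, U5_9, U5_10, U5_11, U5_12, U5_13, E0_0, E0_1, E0_2, E0_3, E0_4, E0_5, E0_6, E0_7, E0_8, E0_9, E0_10, E0_11, E0_12, E0_13]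
  ring

theorem relE1345_13 :
    ((t 1 • (U5 t (E 0))) - (t 2 • (U4 t (E 0)) - U0 t (U4 t (E 0))) + (t 3 • (U3 t (E 0)) - U1 t (U3 t (E 0))) : Fin 14 → R) 13 = 0 := by
  simp only [Pi.add_apply, Pi.sub_apply, Pi.smul_apply, Pi.neg_apply, smul_eq_mul, U0_0, U0_1, U0_2, U0_3, U0_4, U0_5, U0_6, U0_7, U0_8, U0_9, U0_10, U0_11, U0_12, U0_13, U1_0, U1_1, U1_2, U1_3, U1_4, U1_5, U1_6, U1_7, U1_8, U1_9, U1_10, U1_11, U1_12, U1_13, U3_0, U3_1, U3_2, U3_3, U3_4, U3_5, U3_6, U3_7, U3_8, U3_9, U3_10, U3_11, U3_12, U3_13, U4_0, U4_1, U4_2, U4_3, U4_4, U4_5, U4_6, U4_7, U4_8, U4_9, U4_10, U4_11, U4_12, U4_13, U5_0, U5_1, U5_2, U5_3, U5_4, U5_5, U5_6, U5_7, U5_8, U5_9, U5_10, U5_11, U5_12, U5_13, E0_0, E0_1, E0_2, E0_3, E0_4, E0_5, E0_6, E0_7, E0_8, E0_9, E0_10, E0_11, E0_12, E0_13]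
  ring

theorem relE1345 :
    ((t 1 • (U5 t (E 0))) - (t 2 • (U4 t (E 0)) - U0 t (U4 t (E 0))) + (t 3 • (U3 t (E 0)) - U1 t (U3 t (E 0))) : Fin 14 → R) = 0 := by
  refine funext fun i => ?_
  fin_cases i
  exacts [relE1345_0 t, relE1345_1 t, relE1345_2 t, relE1345_3 t, relE1345_4 t, relE1345_5 t, relE1345_6 t, relE1345_7 t, relE1345_8 t, relE1345_9 t, relE1345_10 t, relE1345_11 t, relE1345_12 t, relE1345_13 t]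

theorem relC1345 : tC t 1 * UC t 5 - (tC t 2 - UC t 0) * UC t 4 + (tC t 3 - UC t 1) * UC t 3 = 0 :=
  cyc t _ (relE1345 t)

theorem relE1346_0 :
    ((t 1 • (t 7 • (E 0))) - (t 2 • (t 6 • (E 0) - U5 t (E 0)) - U0 t (t 6 • (E 0) - U5 t (E 0))) + (t 4 • (U3 t (E 0)) - U2 t (U3 t (E 0)) - U3 t (U3 t (E 0))) : Fin 14 → R) 0 = 0 := by
  simp only [Pi.add_apply, Pi.sub_apply, Pi.smul_apply, Pi.neg_apply, smul_eq_mul, U0_0, U0_1, U0_2, U0_3, U0_4, U0_5, U0_6, U0_7, U0_8, U0_9, U0_10, U0_11, U0_12, U0_13, U2_0, U2_1, U2_2, U2_3, U2_4, U2_5, U2_6, U2_7, U2_8, U2_9, U2_10, U2_11, U2_12, U2_13, U3_0, U3_1, U3_2, U3_3, U3_4, U3_5, U3_6, U3_7, U3_8, U3_9, U3_10, U3_11, U3_12, U3_13, U5_0, U5_1, U5_2, U5_3, U5_4, U5_5, U5_6, U5_7, U5_8, U5_9, U5_10, U5_11, U5_12, U5_13, E0_0, E0_1, E0_2, E0_3,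 E0_4, E0_5, E0_6, E0_7, E0_8, E0_9, E0_10, E0_11, E0_12, E0_13]
  ring

theorem relE1346_1 :
    ((t 1 • (t 7 • (E 0))) - (t 2 • (t 6 • (E 0) - U5 t (E 0)) - U0 t (t 6 • (E 0) - U5 t (E 0))) + (t 4 • (U3 t (E 0)) - U2 t (U3 t (E 0)) - U3 t (U3 t (E 0))) : Fin 14 → R) 1 = 0 := by
  simp only [Pi.add_apply, Pi.sub_apply, Pi.smul_apply, Pi.neg_apply, smul_eq_mul, U0_0, U0_1, U0_2, U0_3, U0_4, U0_5, U0_6, U0_7, U0_8, U0_9, U0_10, U0_11, U0_12, U0_13, U2_0, U2_1, U2_2, U2_3, U2_4, U2_5, U2_6, U2_7, U2_8, U2_9, U2_10, U2_11, U2_12, U2_13, U3_0, U3_1, U3_2, U3_3, U3_4, U3_5, U3_6, U3_7, U3_8, U3_9, U3_10, U3_11, U3_12, U3_13, U5_0, U5_1, U5_2, U5_3, U5_4, U5_5, U5_6, U5_7, U5_8, U5_9, U5_10, U5_11, U5_12, U5_13, E0_0, E0_1, E0_2, E0_3, E0_4, E0_5, E0_6, E0_7, E0_8, E0_9, E0_10, E0_11, E0_12,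 E0_13]
  ring

theorem relE1346_2 :
    ((t 1 • (t 7 • (E 0))) - (t 2 • (t 6 • (E 0) - U5 t (E 0)) - U0 t (t 6 • (E 0) - U5 t (E 0))) + (t 4 • (U3 t (E 0)) - U2 t (U3 t (E 0)) - U3 t (U3 t (E 0))) : Fin 14 → R) 2 = 0 := by
  simp only [Pi.add_apply, Pi.sub_apply, Pi.smul_apply, Pi.neg_apply, smul_eq_mul, U0_0, U0_1, U0_2, U0_3, U0_4, U0_5, U0_6, U0_7, U0_8, U0_9, U0_10, U0_11, U0_12, U0_13, U2_0, U2_1, U2_2, U2_3, U2_4, U2_5, U2_6, U2_7, U2_8, U2_9, U2_10, U2_11, U2_12, U2_13, U3_0, U3_1, U3_2, U3_3, U3_4, U3_5, U3_6, U3_7, U3_8, U3_9, U3_10, U3_11, U3_12, U3_13, U5_0, U5_1, U5_2, U5_3, U5_4, U5_5, U5_6, U5_7, U5_8, U5_9, U5_10, U5_11, U5_12, U5_13, E0_0, E0_1, E0_2, E0_3, E0_4, E0_5, E0_6, E0_7, E0_8, E0_9, E0_10, E0_11, E0_12, E0_13]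
  ring

theorem relE1346_3 :
    ((t 1 • (t 7 • (E 0))) - (t 2 • (t 6 • (E 0) - U5 t (E 0)) - U0 t (t 6 • (E 0) - U5 t (E 0))) + (t 4 • (U3 t (E 0)) - U2 t (U3 t (E 0)) - U3 t (U3 t (E 0))) : Fin 14 → R) 3 = 0 := by
  simp only [Pi.add_apply, Pi.sub_apply, Pi.smul_apply, Pi.neg_apply, smul_eq_mul, U0_0, U0_1, U0_2, U0_3, U0_4, U0_5, U0_6, U0_7, U0_8, U0_9, U0_10, U0_11, U0_12, U0_13, U2_0, U2_1, U2_2, U2_3, U2_4, U2_5, U2_6, U2_7, U2_8, U2_9, U2_10, U2_11, U2_12, U2_13, U3_0, U3_1, U3_2, U3_3, U3_4, U3_5, U3_6, U3_7, U3_8, U3_9, U3_10, U3_11, U3_12, U3_13, U5_0, U5_1, U5_2, U5_3, U5_4, U5_5, U5_6, U5_7, U5_8, U5_9, U5_10, U5_11, U5_12, U5_13, E0_0, E0_1, E0_2, E0_3, E0_4, E0_5, E0_6, E0_7, E0_8, E0_9, E0_10, E0_11, E0_12, E0_13]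
  ring

theorem relE1346_4 :
    ((t 1 • (t 7 • (E 0))) - (t 2 • (t 6 • (E 0) - U5 t (E 0)) - U0 t (t 6 • (E 0) - U5 t (E 0))) + (t 4 • (U3 t (E 0)) - U2 t (U3 t (E 0)) - U3 t (U3 t (E 0))) : Fin 14 → R) 4 = 0 := by
  simp only [Pi.add_apply, Pi.sub_apply, Pi.smul_apply, Pi.neg_apply, smul_eq_mul, U0_0, U0_1, U0_2, U0_3, U0_4, U0_5, U0_6, U0_7, U0_8, U0_9, U0_10, U0_11, U0_12, U0_13, U2_0, U2_1, U2_2, U2_3, U2_4, U2_5, U2_6, U2_7, U2_8, U2_9, U2_10, U2_11, U2_12, U2_13, U3_0, U3_1, U3_2, U3_3, U3_4, U3_5, U3_6, U3_7, U3_8, U3_9, U3_10, U3_11, U3_12, U3_13, U5_0, U5_1, U5_2, U5_3, U5_4, U5_5, U5_6, U5_7, U5_8, U5_9, U5_10, U5_11, U5_12, U5_13, E0_0, E0_1, E0_2, E0_3, E0_4, E0_5, E0_6, E0_7, E0_8, E0_9, E0_10, E0_11, E0_12, E0_13]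
  ring

theorem relE1346_5 :
    ((t 1 • (t 7 • (E 0))) - (t 2 • (t 6 • (E 0) - U5 t (E 0)) - U0 t (t 6 • (E 0) - U5 t (E 0))) + (t 4 • (U3 t (E 0)) - U2 t (U3 t (E 0)) - U3 t (U3 t (E 0))) : Fin 14 → R) 5 = 0 := by
  simp only [Pi.add_apply, Pi.sub_apply, Pi.smul_apply, Pi.neg_apply, smul_eq_mul, U0_0, U0_1, U0_2, U0_3, U0_4, U0_5, U0_6, U0_7, U0_8, U0_9, U0_10, U0_11, U0_12, U0_13, U2_0, U2_1, U2_2, U2_3, U2_4, U2_5, U2_6, U2_7, U2_8, U2_9, U2_10, U2_11, U2_12, U2_13, U3_0, U3_1, U3_2, U3_3, U3_4, U3_5, U3_6, U3_7, U3_8, U3_9, U3_10, U3_11, U3_12, U3_13, U5_0, U5_1, U5_2, U5_3, U5_4, U5_5, U5_6, U5_7, U5_8, U5_9, U5_10, U5_11, U5_12, U5_13, E0_0, E0_1, E0_2, E0_3, E0_4, E0_5, E0_6, E0_7, E0_8, E0_9, E0_10, E0_11, E0_12, E0_13]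
  ring

theorem relE1346_6 :
    ((t 1 • (t 7 • (E 0))) - (t 2 • (t 6 • (E 0) - U5 t (E 0)) - U0 t (t 6 • (E 0) - U5 t (E 0))) + (t 4 • (U3 t (E 0)) - U2 t (U3 t (E 0)) - U3 t (U3 t (E 0))) : Fin 14 → R) 6 = 0 := by
  simp only [Pi.add_apply, Pi.sub_apply, Pi.smul_apply, Pi.neg_apply, smul_eq_mul, U0_0, U0_1, U0_2, U0_3, U0_4, U0_5, U0_6, U0_7, U0_8, U0_9, U0_10, U0_11, U0_12, U0_13, U2_0, U2_1, U2_2, U2_3, U2_4, U2_5, U2_6, U2_7, U2_8, U2_9, U2_10, U2_11, U2_12, U2_13, U3_0, U3_1, U3_2, U3_3, U3_4, U3_5, U3_6, U3_7, U3_8, U3_9, U3_10, U3_11, U3_12, U3_13, U5_0, U5_1, U5_2, U5_3, U5_4, U5_5, U5_6, U5_7, U5_8, U5_9, U5_10, U5_11, U5_12, U5_13, E0_0, E0_1, E0_2, E0_3, E0_4, E0_5, E0_6, E0_7, E0_8, E0_9, E0_10, E0_11, E0_12, E0_13]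
  ring

theorem relE1346_7 :
    ((t 1 • (t 7 • (E 0))) - (t 2 • (t 6 • (E 0) - U5 t (E 0)) - U0 t (t 6 • (E 0) - U5 t (E 0))) + (t 4 • (U3 t (E 0)) - U2 t (U3 t (E 0)) - U3 t (U3 t (E 0))) : Fin 14 → R) 7 = 0 := by
  simp only [Pi.add_apply, Pi.sub_apply, Pi.smul_apply, Pi.neg_apply, smul_eq_mul, U0_0, U0_1, U0_2, U0_3, U0_4, U0_5, U0_6, U0_7, U0_8, U0_9, U0_10, U0_11, U0_12, U0_13, U2_0, U2_1, U2_2, U2_3, U2_4, U2_5, U2_6, U2_7, U2_8, U2_9, U2_10, U2_11, U2_12, U2_13, U3_0, U3_1, U3_2, U3_3, U3_4, U3_5, U3_6, U3_7, U3_8, U3_9, U3_10, U3_11, U3_12, U3_13, U5_0, U5_1, U5_2, U5_3, U5_4, U5_5, U5_6, U5_7, U5_8, U5_9, U5_10, U5_11, U5_12, U5_13, E0_0, E0_1, E0_2, E0_3, E0_4, E0_5, E0_6, E0_7, E0_8, E0_9, E0_10, E0_11, E0_12, E0_13]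
  ring

theorem relE1346_8 :
    ((t 1 • (t 7 • (E 0))) - (t 2 • (t 6 • (E 0) - U5 t (E 0)) - U0 t (t 6 • (E 0) - U5 t (E 0))) + (t 4 • (U3 t (E 0)) - U2 t (U3 t (E 0)) - U3 t (U3 t (E 0))) : Fin 14 → R) 8 = 0 := by
  simp only [Pi.add_apply, Pi.sub_apply, Pi.smul_apply, Pi.neg_apply, smul_eq_mul, U0_0, U0_1, U0_2, U0_3, U0_4, U0_5, U0_6, U0_7, U0_8, U0_9, U0_10, U0_11, U0_12, U0_13, U2_0, U2_1, U2_2, U2_3, U2_4, U2_5, U2_6, U2_7, U2_8, U2_9, U2_10, U2_11, U2_12, U2_13, U3_0, U3_1, U3_2, U3_3, U3_4, U3_5, U3_6, U3_7, U3_8, U3_9, U3_10, U3_11, U3_12, U3_13, U5_0, U5_1, U5_2, U5_3, U5_4, U5_5, U5_6, U5_7, U5_8, U5_9, U5_10, U5_11, U5_12, U5_13, E0_0, E0_1, E0_2, E0_3, E0_4, E0_5, E0_6, E0_7, E0_8, E0_9, E0_10, E0_11, E0_12, E0_13]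
  ring

theorem relE1346_9 :
    ((t 1 • (t 7 • (E 0))) - (t 2 • (t 6 • (E 0) - U5 t (E 0)) - U0 t (t 6 • (E 0) - U5 t (E 0))) + (t 4 • (U3 t (E 0)) - U2 t (U3 t (E 0)) - U3 t (U3 t (E 0))) : Fin 14 → R) 9 = 0 := by
  simp only [Pi.add_apply, Pi.sub_apply, Pi.smul_apply, Pi.neg_apply, smul_eq_mul, U0_0, U0_1, U0_2, U0_3, U0_4, U0_5, U0_6, U0_7, U0_8, U0_9, U0_10, U0_11, U0_12, U0_13, U2_0, U2_1, U2_2, U2_3, U2_4, U2_5, U2_6, U2_7, U2_8, U2_9, U2_10, U2_11, U2_12, U2_13, U3_0, U3_1, U3_2, U3_3, U3_4, U3_5, U3_6, U3_7, U3_8, U3_9, U3_10, U3_11, U3_12, U3_13, U5_0, U5_1, U5_2, U5_3, U5_4, U5_5, U5_6, U5_7, U5_8, U5_9, U5_10, U5_11, U5_12, U5_13, E0_0, E0_1, E0_2, E0_3, E0_4, E0_5, E0_6, E0_7, E0_8, E0_9, E0_10, E0_11, E0_12, E0_13]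
  ring

theorem relE1346_10 :
    ((t 1 • (t 7 • (E 0))) - (t 2 • (t 6 • (E 0) - U5 t (E 0)) - U0 t (t 6 • (E 0) - U5 t (E 0))) + (t 4 • (U3 t (E 0)) - U2 t (U3 t (E 0)) - U3 t (U3 t (E 0))) : Fin 14 → R) 10 = 0 := by
  simp only [Pi.add_apply, Pi.sub_apply, Pi.smul_apply, Pi.neg_apply, smul_eq_mul, U0_0, U0_1, U0_2, U0_3, U0_4, U0_5, U0_6, U0_7, U0_8, U0_9, U0_10, U0_11, U0_12, U0_13, U2_0, U2_1, U2_2, U2_3, U2_4, U2_5, U2_6, U2_7, U2_8, U2_9, U2_10, U2_11, U2_12, U2_13, U3_0, U3_1, U3_2, U3_3, U3_4, U3_5, U3_6, U3_7, U3_8, U3_9, U3_10, U3_11, U3_12, U3_13, U5_0, U5_1, U5_2, U5_3, U5_4, U5_5, U5_6, U5_7, U5_8, U5_9, U5_10, U5_11, U5_12, U5_13, E0_0, E0_1, E0_2, E0_3, E0_4, E0_5, E0_6, E0_7, E0_8, E0_9, E0_10, E0_11, E0_12, E0_13]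
  ring

theorem relE1346_11 :
    ((t 1 • (t 7 • (E 0))) - (t 2 • (t 6 • (E 0) - U5 t (E 0)) - U0 t (t 6 • (E 0) - U5 t (E 0))) + (t 4 • (U3 t (E 0)) - U2 t (U3 t (E 0)) - U3 t (U3 t (E 0))) : Fin 14 → R) 11 = 0 := by
  simp only [Pi.add_apply, Pi.sub_apply, Pi.smul_apply, Pi.neg_apply, smul_eq_mul, U0_0, U0_1, U0_2, U0_3, U0_4, U0_5, U0_6, U0_7, U0_8, U0_9, U0_10, U0_11, U0_12, U0_13, U2_0, U2_1, U2_2, U2_3, U2_4, U2_5, U2_6, U2_7, U2_8, U2_9, U2_10, U2_11, U2_12, U2_13, U3_0, U3_1, U3_2, U3_3, U3_4, U3_5, U3_6, U3_7, U3_8, U3_9, U3_10, U3_11, U3_12, U3_13, U5_0, U5_1, U5_2, U5_3, U5_4, U5_5, U5_6, U5_7, U5_8, U5_9, U5_10, U5_11, U5_12, U5_13, E0_0, E0_1, E0_2, E0_3, E0_4, E0_5, E0_6, E0_7, E0_8, E0_9, E0_10, E0_11, E0_12, E0_13]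
  ring

theorem relE1346_12 :
    ((t 1 • (t 7 • (E 0))) - (t 2 • (t 6 • (E 0) - U5 t (E 0)) - U0 t (t 6 • (E 0) - U5 t (E 0))) + (t 4 • (U3 t (E 0)) - U2 t (U3 t (E 0)) - U3 t (U3 t (E 0))) : Fin 14 → R) 12 = 0 := by
  simp only [Pi.add_apply, Pi.sub_apply, Pi.smul_apply, Pi.neg_apply, smul_eq_mul, U0_0, U0_1, U0_2, U0_3, U0_4, U0_5, U0_6, U0_7, U0_8, U0_9, U0_10, U0_11, U0_12, U0_13, U2_0, U2_1, U2_2, U2_3, U2_4, U2_5, U2_6, U2_7, U2_8, U2_9, U2_10, U2_11, U2_12, U2_13, U3_0, U3_1, U3_2, U3_3, U3_4, U3_5, U3_6, U3_7, U3_8, U3_9, U3_10, U3_11, U3_12, U3_13, U5_0, U5_1, U5_2, U5_3, U5_4, U5_5, U5_6, U5_7, U5_8, U5_9, U5_10, U5_11, U5_12, U5_13, E0_0, E0_1, E0_2, E0_3, E0_4, E0_5, E0_6, E0_7, E0_8, E0_9, E0_10, E0_11, E0_12, E0_13]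
  ring

theorem relE1346_13 :
    ((t 1 • (t 7 • (E 0))) - (t 2 • (t 6 • (E 0) - U5 t (E 0)) - U0 t (t 6 • (E 0) - U5 t (E 0))) + (t 4 • (U3 t (E 0)) - U2 t (U3 t (E 0)) - U3 t (U3 t (E 0))) : Fin 14 → R) 13 = 0 := by
  simp only [Pi.add_apply, Pi.sub_apply, Pi.smul_apply, Pi.neg_apply, smul_eq_mul, U0_0, U0_1, U0_2, U0_3, U0_4, U0_5, U0_6, U0_7, U0_8, U0_9, U0_10, U0_11, U0_12, U0_13, U2_0, U2_1, U2_2, U2_3, U2_4, U2_5, U2_6, U2_7, U2_8, U2_9, U2_10, U2_11, U2_12, U2_13, U3_0, U3_1, U3_2, U3_3, U3_4, U3_5, U3_6, U3_7, U3_8, U3_9, U3_10, U3_11, U3_12, U3_13, U5_0, U5_1, U5_2, U5_3, U5_4, U5_5, U5_6, U5_7, U5_8, U5_9, U5_10, U5_11, U5_12, U5_13, E0_0, E0_1, E0_2, E0_3, E0_4, E0_5, E0_6, E0_7, E0_8, E0_9, E0_10, E0_11, E0_12, E0_13]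
  ring

theorem relE1346 :
    ((t 1 • (t 7 • (E 0))) - (t 2 • (t 6 • (E 0) - U5 t (E 0)) - U0 t (t 6 • (E 0) - U5 t (E 0))) + (t 4 • (U3 t (E 0)) - U2 t (U3 t (E 0)) - U3 t (U3 t (E 0))) : Fin 14 → R) = 0 := by
  refine funext fun i => ?_
  fin_cases i
  exacts [relE1346_0 t, relE1346_1 t, relE1346_2 t, relE1346_3 t, relE1346_4 t, relE1346_5 t, relE1346_6 t, relE1346_7 t, relE1346_8 t, relE1346_9 t, relE1346_10 t, relE1346_11 t, relE1346_12 t, relE1346_13 t]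

theorem relC1346 : tC t 1 * tC t 7 - (tC t 2 - UC t 0) * (tC t 6 - UC t 5) + (tC t 4 - UC t 2 - UC t 3) * UC t 3 = 0 :=
  cyc t _ (relE1346 t)

theorem relE1356_0 :
    ((t 1 • (t 8 • (E 0))) - (t 3 • (t 6 • (E 0) - U5 t (E 0)) - U1 t (t 6 • (E 0) - U5 t (E 0))) + (t 4 • (U4 t (E 0)) - U2 t (U4 t (E 0)) - U3 t (U4 t (E 0))) : Fin 14 → R) 0 = 0 := by
  simp only [Pi.add_apply, Pi.sub_apply, Pi.smul_apply, Pi.neg_apply, smul_eq_mul, U1_0, U1_1, U1_2, U1_3, U1_4, U1_5, U1_6, U1_7, U1_8, U1_9, U1_10, U1_11, U1_12, U1_13, U2_0, U2_1, U2_2, U2_3, U2_4, U2_5, U2_6, U2_7, U2_8, U2_9, U2_10, U2_11, U2_12, U2_13, U3_0, U3_1, U3_2, U3_3, U3_4, U3_5, U3_6, U3_7, U3_8, U3_9, U3_10, U3_11, U3_12, U3_13, U4_0, U4_1, U4_2, U4_3, U4_4, U4_5, U4_6, U4_7, U4_8, U4_9, U4_10, U4_11, U4_12, U4_13, U5_0,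 U5_1, U5_2, U5_3, U5_4, U5_5, U5_6, U5_7, U5_8, U5_9, U5_10, U5_11, U5_12, U5_13, E0_0, E0_1, E0_2, E0_3, E0_4, E0_5, E0_6, E0_7, E0_8, E0_9, E0_10, E0_11, E0_12, E0_13]
  ring

theorem relE1356_1 :
    ((t 1 • (t 8 • (E 0))) - (t 3 • (t 6 • (E 0) - U5 t (E 0)) - U1 t (t 6 • (E 0) - U5 t (E 0))) + (t 4 • (U4 t (E 0)) - U2 t (U4 t (E 0)) - U3 t (U4 t (E 0))) : Fin 14 → R) 1 = 0 := by
  simp only [Pi.add_apply, Pi.sub_apply, Pi.smul_apply, Pi.neg_apply, smul_eq_mul, U1_0, U1_1, U1_2, U1_3, U1_4, U1_5, U1_6, U1_7, U1_8, U1_9, U1_10, U1_11, U1_12, U1_13, U2_0, U2_1, U2_2, U2_3, U2_4, U2_5, U2_6, U2_7, U2_8, U2_9, U2_10, U2_11, U2_12, U2_13, U3_0, U3_1, U3_2, U3_3, U3_4, U3_5, U3_6, U3_7, U3_8, U3_9, U3_10, U3_11, U3_12, U3_13, U4_0, U4_1, U4_2, U4_3, U4_4, U4_5, U4_6, U4_7, U4_8, U4_9,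 U4_10, U4_11, U4_12, U4_13, U5_0, U5_1, U5_2, U5_3, U5_4, U5_5, U5_6, U5_7, U5_8, U5_9, U5_10, U5_11, U5_12, U5_13, E0_0, E0_1, E0_2, E0_3, E0_4, E0_5, E0_6, E0_7, E0_8, E0_9, E0_10, E0_11, E0_12, E0_13]
  ring

theorem relE1356_2 :
    ((t 1 • (t 8 • (E 0))) - (t 3 • (t 6 • (E 0) - U5 t (E 0)) - U1 t (t 6 • (E 0) - U5 t (E 0))) + (t 4 • (U4 t (E 0)) - U2 t (U4 t (E 0)) - U3 t (U4 t (E 0))) : Fin 14 → R) 2 = 0 := by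
  simp only [Pi.add_apply, Pi.sub_apply, Pi.smul_apply, Pi.neg_apply, smul_eq_mul, U1_0, U1_1, U1_2, U1_3, U1_4, U1_5, U1_6, U1_7, U1_8, U1_9, U1_10, U1_11, U1_12, U1_13, U2_0, U2_1, U2_2, U2_3, U2_4, U2_5, U2_6, U2_7, U2_8, U2_9, U2_10, U2_11, U2_12, U2_13, U3_0, U3_1, U3_2, U3_3, U3_4, U3_5, U3_6, U3_7, U3_8, U3_9, U3_10, U3_11, U3_12, U3_13, U4_0, U4_1, U4_2, U4_3, U4_4, U4_5, U4_6, U4_7, U4_8, U4_9, U4_10, U4_11, U4_12, U4_13, U5_0, U5_1, U5_2, U5_3, U5_4, U5_5, U5_6, U5_7, U5_8, U5_9, U5_10, U5_11, U5_12, U5_13, E0_0, E0_1, E0_2, E0_3, E0_4, E0_5, E0_6, E0_7, E0_8, E0_9, E0_10, E0_11, E0_12, E0_13]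
  ring

theorem relE1356_3 :
    ((t 1 • (t 8 • (E 0))) - (t 3 • (t 6 • (E 0) - U5 t (E 0)) - U1 t (t 6 • (E 0) - U5 t (E 0))) + (t 4 • (U4 t (E 0)) - U2 t (U4 t (E 0)) - U3 t (U4 t (E 0))) : Fin 14 → R) 3 = 0 := by
  simp only [Pi.add_apply, Pi.sub_apply, Pi.smul_apply, Pi.neg_apply, smul_eq_mul, U1_0, U1_1, U1_2, U1_3, U1_4, U1_5, U1_6, U1_7, U1_8, U1_9, U1_10, U1_11, U1_12, U1_13, U2_0, U2_1, U2_2, U2_3, U2_4, U2_5, U2_6, U2_7, U2_8, U2_9, U2_10, U2_11, U2_12, U2_13, U3_0, U3_1, U3_2, U3_3, U3_4, U3_5, U3_6, U3_7, U3_8, U3_9, U3_10, U3_11, U3_12, U3_13, U4_0, U4_1, U4_2, U4_3, U4_4, U4_5, U4_6, U4_7, U4_8, U4_9, U4_10, U4_11, U4_12, U4_13, U5_0, U5_1, U5_2, U5_3, U5_4, U5_5, U5_6, U5_7, U5_8, U5_9, U5_10, U5_11, U5_12, U5_13, E0_0, E0_1, E0_2, E0_3, E0_4, E0_5, E0_6, E0_7, E0_8,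 E0_9, E0_10, E0_11, E0_12, E0_13]
  ring

theorem relE1356_4 :
    ((t 1 • (t 8 • (E 0))) - (t 3 • (t 6 • (E 0) - U5 t (E 0)) - U1 t (t 6 • (E 0) - U5 t (E 0))) + (t 4 • (U4 t (E 0)) - U2 t (U4 t (E 0)) - U3 t (U4 t (E 0))) : Fin 14 → R) 4 = 0 := by
  simp only [Pi.add_apply, Pi.sub_apply, Pi.smul_apply, Pi.neg_apply, smul_eq_mul, U1_0, U1_1, U1_2, U1_3, U1_4, U1_5, U1_6, U1_7, U1_8, U1_9, U1_10, U1_11, U1_12, U1_13, U2_0, U2_1, U2_2, U2_3, U2_4, U2_5, U2_6, U2_7, U2_8, U2_9, U2_10, U2_11, U2_12, U2_13, U3_0, U3_1, U3_2, U3_3, U3_4, U3_5, U3_6, U3_7, U3_8, U3_9, U3_10, U3_11, U3_12, U3_13, U4_0, U4_1, U4_2, U4_3, U4_4, U4_5, U4_6, U4_7, U4_8, U4_9, U4_10, U4_11, U4_12, U4_13, U5_0, U5_1, U5_2, U5_3, U5_4, U5_5, U5_6, U5_7, U5_8, U5_9, U5_10, U5_11, U5_12, U5_13, E0_0, E0_1, E0_2, E0_3,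 E0_4, E0_5, E0_6, E0_7, E0_8, E0_9, E0_10, E0_11, E0_12, E0_13]
  ring

theorem relE1356_5 :
    ((t 1 • (t 8 • (E 0))) - (t 3 • (t 6 • (E 0) - U5 t (E 0)) - U1 t (t 6 • (E 0) - U5 t (E 0))) + (t 4 • (U4 t (E 0)) - U2 t (U4 t (E 0)) - U3 t (U4 t (E 0))) : Fin 14 → R) 5 = 0 := by
  simp only [Pi.add_apply, Pi.sub_apply, Pi.smul_apply, Pi.neg_apply, smul_eq_mul, U1_0, U1_1, U1_2, U1_3, U1_4, U1_5, U1_6, U1_7, U1_8, U1_9, U1_10, U1_11, U1_12, U1_13, U2_0, U2_1, U2_2, U2_3, U2_4, U2_5, U2_6, U2_7, U2_8, U2_9, U2_10, U2_11, U2_12, U2_13, U3_0, U3_1, U3_2, U3_3, U3_4, U3_5, U3_6, U3_7, U3_8, U3_9, U3_10, U3_11, U3_12, U3_13, U4_0, U4_1, U4_2, U4_3, U4_4, U4_5, U4_6, U4_7, U4_8, U4_9, U4_10, U4_11, U4_12, U4_13, U5_0, U5_1, U5_2, U5_3, U5_4, U5_5, U5_6, U5_7, U5_8, U5_9, U5_10, U5_11, U5_12,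 U5_13, E0_0, E0_1, E0_2, E0_3, E0_4, E0_5, E0_6, E0_7, E0_8, E0_9, E0_10, E0_11, E0_12, E0_13]
  ring

theorem relE1356_6 :
    ((t 1 • (t 8 • (E 0))) - (t 3 • (t 6 • (E 0) - U5 t (E 0)) - U1 t (t 6 • (E 0) - U5 t (E 0))) + (t 4 • (U4 t (E 0)) - U2 t (U4 t (E 0)) - U3 t (U4 t (E 0))) : Fin 14 → R) 6 = 0 := by
  simp only [Pi.add_apply, Pi.sub_apply, Pi.smul_apply, Pi.neg_apply, smul_eq_mul, U1_0, U1_1, U1_2, U1_3, U1_4, U1_5, U1_6, U1_7, U1_8, U1_9, U1_10, U1_11, U1_12, U1_13, U2_0, U2_1, U2_2, U2_3, U2_4, U2_5, U2_6, U2_7, U2_8, U2_9, U2_10, U2_11, U2_12, U2_13, U3_0, U3_1, U3_2, U3_3, U3_4, U3_5, U3_6, U3_7, U3_8, U3_9, U3_10, U3_11, U3_12, U3_13, U4_0, U4_1, U4_2, U4_3, U4_4, U4_5, U4_6, U4_7, U4_8, U4_9, U4_10, U4_11, U4_12, U4_13, U5_0, U5_1, U5_2, U5_3, U5_4, U5_5, U5_6, U5_7,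 U5_8, U5_9, U5_10, U5_11, U5_12, U5_13, E0_0, E0_1, E0_2, E0_3, E0_4, E0_5, E0_6, E0_7, E0_8, E0_9, E0_10, E0_11, E0_12, E0_13]
  ring

theorem relE1356_7 :
    ((t 1 • (t 8 • (E 0))) - (t 3 • (t 6 • (E 0) - U5 t (E 0)) - U1 t (t 6 • (E 0) - U5 t (E 0))) + (t 4 • (U4 t (E 0)) - U2 t (U4 t (E 0)) - U3 t (U4 t (E 0))) : Fin 14 → R) 7 = 0 := by
  simp only [Pi.add_apply, Pi.sub_apply, Pi.smul_apply, Pi.neg_apply, smul_eq_mul, U1_0, U1_1, U1_2, U1_3, U1_4, U1_5, U1_6, U1_7, U1_8, U1_9, U1_10, U1_11, U1_12, U1_13, U2_0, U2_1, U2_2, U2_3, U2_4, U2_5, U2_6, U2_7, U2_8, U2_9, U2_10, U2_11, U2_12, U2_13, U3_0, U3_1, U3_2, U3_3, U3_4, U3_5, U3_6, U3_7, U3_8, U3_9, U3_10, U3_11, U3_12, U3_13, U4_0, U4_1, U4_2, U4_3, U4_4, U4_5, U4_6, U4_7, U4_8, U4_9, U4_10, U4_11, U4_12, U4_13, U5_0, U5_1, U5_2,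 U5_3, U5_4, U5_5, U5_6, U5_7, U5_8, U5_9, U5_10, U5_11, U5_12, U5_13, E0_0, E0_1, E0_2, E0_3, E0_4, E0_5, E0_6, E0_7, E0_8, E0_9, E0_10, E0_11, E0_12, E0_13]
  ring

theorem relE1356_8 :
    ((t 1 • (t 8 • (E 0))) - (t 3 • (t 6 • (E 0) - U5 t (E 0)) - U1 t (t 6 • (E 0) - U5 t (E 0))) + (t 4 • (U4 t (E 0)) - U2 t (U4 t (E 0)) - U3 t (U4 t (E 0))) : Fin 14 → R) 8 = 0 := by
  simp only [Pi.add_apply, Pi.sub_apply, Pi.smul_apply, Pi.neg_apply, smul_eq_mul, U1_0, U1_1, U1_2, U1_3, U1_4, U1_5, U1_6, U1_7, U1_8, U1_9, U1_10, U1_11, U1_12, U1_13, U2_0, U2_1, U2_2, U2_3, U2_4, U2_5, U2_6, U2_7, U2_8, U2_9, U2_10, U2_11, U2_12, U2_13, U3_0, U3_1, U3_2, U3_3, U3_4, U3_5, U3_6, U3_7, U3_8, U3_9, U3_10, U3_11, U3_12, U3_13, U4_0, U4_1, U4_2, U4_3, U4_4, U4_5, U4_6, U4_7, U4_8, U4_9, U4_10, U4_11,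 U4_12, U4_13, U5_0, U5_1, U5_2, U5_3, U5_4, U5_5, U5_6, U5_7, U5_8, U5_9, U5_10, U5_11, U5_12, U5_13, E0_0, E0_1, E0_2, E0_3, E0_4, E0_5, E0_6, E0_7, E0_8, E0_9, E0_10, E0_11, E0_12, E0_13]
  ring

theorem relE1356_9 :
    ((t 1 • (t 8 • (E 0))) - (t 3 • (t 6 • (E 0) - U5 t (E 0)) - U1 t (t 6 • (E 0) - U5 t (E 0))) + (t 4 • (U4 t (E 0)) - U2 t (U4 t (E 0)) - U3 t (U4 t (E 0))) : Fin 14 → R) 9 = 0 := by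
  simp only [Pi.add_apply, Pi.sub_apply, Pi.smul_apply, Pi.neg_apply, smul_eq_mul, U1_0, U1_1, U1_2, U1_3, U1_4, U1_5, U1_6, U1_7, U1_8, U1_9, U1_10, U1_11, U1_12, U1_13, U2_0, U2_1, U2_2, U2_3, U2_4, U2_5, U2_6, U2_7, U2_8, U2_9, U2_10, U2_11, U2_12, U2_13, U3_0, U3_1, U3_2, U3_3, U3_4, U3_5, U3_6, U3_7, U3_8, U3_9, U3_10, U3_11, U3_12, U3_13, U4_0, U4_1, U4_2, U4_3, U4_4, U4_5, U4_6, U4_7, U4_8, U4_9, U4_10, U4_11, U4_12, U4_13, U5_0, U5_1, U5_2, U5_3, U5_4, U5_5, U5_6, U5_7, U5_8, U5_9, U5_10, U5_11, U5_12, U5_13, E0_0, E0_1, E0_2, E0_3, E0_4, E0_5, E0_6, E0_7, E0_8, E0_9, E0_10, E0_11, E0_12, E0_13]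
  ring

theorem relE1356_10 :
    ((t 1 • (t 8 • (E 0))) - (t 3 • (t 6 • (E 0) - U5 t (E 0)) - U1 t (t 6 • (E 0) - U5 t (E 0))) + (t 4 • (U4 t (E 0)) - U2 t (U4 t (E 0)) - U3 t (U4 t (E 0))) : Fin 14 → R) 10 = 0 := by
  simp only [Pi.add_apply, Pi.sub_apply, Pi.smul_apply, Pi.neg_apply, smul_eq_mul, U1_0, U1_1, U1_2, U1_3, U1_4, U1_5, U1_6, U1_7, U1_8, U1_9, U1_10, U1_11, U1_12, U1_13, U2_0, U2_1, U2_2, U2_3, U2_4, U2_5, U2_6, U2_7, U2_8, U2_9, U2_10, U2_11, U2_12, U2_13, U3_0, U3_1, U3_2, U3_3, U3_4, U3_5, U3_6, U3_7, U3_8, U3_9, U3_10, U3_11, U3_12, U3_13, U4_0, U4_1, U4_2, U4_3, U4_4, U4_5, U4_6, U4_7, U4_8, U4_9, U4_10, U4_11, U4_12, U4_13, U5_0, U5_1, U5_2, U5_3, U5_4, U5_5, U5_6, U5_7, U5_8, U5_9, U5_10, U5_11, U5_12, U5_13, E0_0, E0_1, E0_2, E0_3, E0_4, E0_5, E0_6, E0_7, E0_8,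 E0_9, E0_10, E0_11, E0_12, E0_13]
  ring

theorem relE1356_11 :
    ((t 1 • (t 8 • (E 0))) - (t 3 • (t 6 • (E 0) - U5 t (E 0)) - U1 t (t 6 • (E 0) - U5 t (E 0))) + (t 4 • (U4 t (E 0)) - U2 t (U4 t (E 0)) - U3 t (U4 t (E 0))) : Fin 14 → R) 11 = 0 := by
  simp only [Pi.add_apply, Pi.sub_apply, Pi.smul_apply, Pi.neg_apply, smul_eq_mul, U1_0, U1_1, U1_2, U1_3, U1_4, U1_5, U1_6, U1_7, U1_8, U1_9, U1_10, U1_11, U1_12, U1_13, U2_0, U2_1, U2_2, U2_3, U2_4, U2_5, U2_6, U2_7, U2_8, U2_9, U2_10, U2_11, U2_12, U2_13, U3_0, U3_1, U3_2, U3_3, U3_4, U3_5, U3_6, U3_7, U3_8, U3_9, U3_10, U3_11, U3_12, U3_13, U4_0, U4_1, U4_2, U4_3, U4_4, U4_5, U4_6, U4_7, U4_8, U4_9, U4_10, U4_11, U4_12, U4_13, U5_0, U5_1, U5_2, U5_3, U5_4, U5_5, U5_6, U5_7, U5_8, U5_9, U5_10, U5_11, U5_12, U5_13, E0_0, E0_1, E0_2,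 E0_3, E0_4, E0_5, E0_6, E0_7, E0_8, E0_9, E0_10, E0_11, E0_12, E0_13]
  ring

theorem relE1356_12 :
    ((t 1 • (t 8 • (E 0))) - (t 3 • (t 6 • (E 0) - U5 t (E 0)) - U1 t (t 6 • (E 0) - U5 t (E 0))) + (t 4 • (U4 t (E 0)) - U2 t (U4 t (E 0)) - U3 t (U4 t (E 0))) : Fin 14 → R) 12 = 0 := by
  simp only [Pi.add_apply, Pi.sub_apply, Pi.smul_apply, Pi.neg_apply, smul_eq_mul, U1_0, U1_1, U1_2, U1_3, U1_4, U1_5, U1_6, U1_7, U1_8, U1_9, U1_10, U1_11, U1_12, U1_13, U2_0, U2_1, U2_2, U2_3, U2_4, U2_5, U2_6, U2_7, U2_8, U2_9, U2_10, U2_11, U2_12, U2_13, U3_0, U3_1, U3_2, U3_3, U3_4, U3_5, U3_6, U3_7, U3_8, U3_9, U3_10, U3_11, U3_12, U3_13, U4_0, U4_1, U4_2, U4_3, U4_4, U4_5, U4_6, U4_7, U4_8, U4_9, U4_10, U4_11, U4_12, U4_13, U5_0, U5_1, U5_2, U5_3, U5_4, U5_5, U5_6, U5_7, U5_8, U5_9, U5_10, U5_11,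 U5_12, U5_13, E0_0, E0_1, E0_2, E0_3, E0_4, E0_5, E0_6, E0_7, E0_8, E0_9, E0_10, E0_11, E0_12, E0_13]
  ring

theorem relE1356_13 :
    ((t 1 • (t 8 • (E 0))) - (t 3 • (t 6 • (E 0) - U5 t (E 0)) - U1 t (t 6 • (E 0) - U5 t (E 0))) + (t 4 • (U4 t (E 0)) - U2 t (U4 t (E 0)) - U3 t (U4 t (E 0))) : Fin 14 → R) 13 = 0 := by
  simp only [Pi.add_apply, Pi.sub_apply, Pi.smul_apply, Pi.neg_apply, smul_eq_mul, U1_0, U1_1, U1_2, U1_3, U1_4, U1_5, U1_6, U1_7, U1_8, U1_9, U1_10, U1_11, U1_12, U1_13, U2_0, U2_1, U2_2, U2_3, U2_4, U2_5, U2_6, U2_7, U2_8, U2_9, U2_10, U2_11, U2_12, U2_13, U3_0, U3_1, U3_2, U3_3, U3_4, U3_5, U3_6, U3_7, U3_8, U3_9, U3_10, U3_11, U3_12, U3_13, U4_0, U4_1, U4_2, U4_3, U4_4, U4_5, U4_6, U4_7, U4_8, U4_9, U4_10, U4_11, U4_12, U4_13, U5_0, U5_1, U5_2, U5_3, U5_4, U5_5, U5_6,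 U5_7, U5_8, U5_9, U5_10, U5_11, U5_12, U5_13, E0_0, E0_1, E0_2, E0_3, E0_4, E0_5, E0_6, E0_7, E0_8, E0_9, E0_10, E0_11, E0_12, E0_13]
  ring

theorem relE1356 :
    ((t 1 • (t 8 • (E 0))) - (t 3 • (t 6 • (E 0) - U5 t (E 0)) - U1 t (t 6 • (E 0) - U5 t (E 0))) + (t 4 • (U4 t (E 0)) - U2 t (U4 t (E 0)) - U3 t (U4 t (E 0))) : Fin 14 → R) = 0 := by
  refine funext fun i => ?_
  fin_cases i
  exacts [relE1356_0 t, relE1356_1 t, relE1356_2 t, relE1356_3 t, relE1356_4 t, relE1356_5 t, relE1356_6 t, relE1356_7 t, relE1356_8 t, relE1356_9 t, relE1356_10 t, relE1356_11 t, relE1356_12 t, relE1356_13 t]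

theorem relC1356 : tC t 1 * tC t 8 - (tC t 3 - UC t 1) * (tC t 6 - UC t 5) + (tC t 4 - UC t 2 - UC t 3) * UC t 4 = 0 :=
  cyc t _ (relE1356 t)

theorem relE1456_0 :
    ((t 2 • (t 8 • (E 0)) - U0 t (t 8 • (E 0))) - (t 3 • (t 7 • (E 0)) - U1 t (t 7 • (E 0))) + (t 4 • (U5 t (E 0)) - U2 t (U5 t (E 0)) - U3 t (U5 t (E 0))) : Fin 14 → R) 0 = 0 := by
  simp only [Pi.add_apply, Pi.sub_apply, Pi.smul_apply, Pi.neg_apply, smul_eq_mul, U0_0, U0_1, U0_2, U0_3, U0_4, U0_5, U0_6, U0_7, U0_8, U0_9, U0_10, U0_11, U0_12, U0_13, U1_0, U1_1, U1_2, U1_3, U1_4, U1_5, U1_6, U1_7, U1_8, U1_9, U1_10, U1_11, U1_12, U1_13, U2_0, U2_1, U2_2, U2_3, U2_4, U2_5, U2_6, U2_7, U2_8, U2_9, U2_10, U2_11, U2_12, U2_13, U3_0, U3_1, U3_2, U3_3, U3_4, U3_5, U3_6, U3_7, U3_8, U3_9, U3_10, U3_11, U3_12, U3_13, U5_0, U5_1,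 U5_2, U5_3, U5_4, U5_5, U5_6, U5_7, U5_8, U5_9, U5_10, U5_11, U5_12, U5_13, E0_0, E0_1, E0_2, E0_3, E0_4, E0_5, E0_6, E0_7, E0_8, E0_9, E0_10, E0_11, E0_12, E0_13]
  ring

theorem relE1456_1 :
    ((t 2 • (t 8 • (E 0)) - U0 t (t 8 • (E 0))) - (t 3 • (t 7 • (E 0)) - U1 t (t 7 • (E 0))) + (t 4 • (U5 t (E 0)) - U2 t (U5 t (E 0)) - U3 t (U5 t (E 0))) : Fin 14 → R) 1 = 0 := by
  simp only [Pi.add_apply, Pi.sub_apply, Pi.smul_apply, Pi.neg_apply, smul_eq_mul, U0_0, U0_1, U0_2, U0_3, U0_4, U0_5, U0_6, U0_7, U0_8, U0_9, U0_10, U0_11, U0_12, U0_13, U1_0, U1_1, U1_2, U1_3, U1_4, U1_5, U1_6, U1_7, U1_8, U1_9, U1_10, U1_11, U1_12, U1_13, U2_0, U2_1, U2_2, U2_3, U2_4, U2_5, U2_6, U2_7, U2_8, U2_9, U2_10, U2_11, U2_12, U2_13, U3_0, U3_1, U3_2, U3_3, U3_4, U3_5, U3_6, U3_7, U3_8, U3_9, U3_10, U3_11,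 U3_12, U3_13, U5_0, U5_1, U5_2, U5_3, U5_4, U5_5, U5_6, U5_7, U5_8, U5_9, U5_10, U5_11, U5_12, U5_13, E0_0, E0_1, E0_2, E0_3, E0_4, E0_5, E0_6, E0_7, E0_8, E0_9, E0_10, E0_11, E0_12, E0_13]
  ring

theorem relE1456_2 :
    ((t 2 • (t 8 • (E 0)) - U0 t (t 8 • (E 0))) - (t 3 • (t 7 • (E 0)) - U1 t (t 7 • (E 0))) + (t 4 • (U5 t (E 0)) - U2 t (U5 t (E 0)) - U3 t (U5 t (E 0))) : Fin 14 → R) 2 = 0 := by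
  simp only [Pi.add_apply, Pi.sub_apply, Pi.smul_apply, Pi.neg_apply, smul_eq_mul, U0_0, U0_1, U0_2, U0_3, U0_4, U0_5, U0_6, U0_7, U0_8, U0_9, U0_10, U0_11, U0_12, U0_13, U1_0, U1_1, U1_2, U1_3, U1_4, U1_5, U1_6, U1_7, U1_8, U1_9, U1_10, U1_11, U1_12, U1_13, U2_0, U2_1, U2_2, U2_3, U2_4, U2_5, U2_6, U2_7, U2_8, U2_9, U2_10, U2_11, U2_12, U2_13, U3_0, U3_1, U3_2, U3_3, U3_4, U3_5, U3_6, U3_7, U3_8, U3_9, U3_10, U3_11, U3_12, U3_13, U5_0, U5_1, U5_2, U5_3, U5_4, U5_5, U5_6, U5_7, U5_8, U5_9, U5_10, U5_11, U5_12, U5_13, E0_0, E0_1, E0_2, E0_3, E0_4, E0_5, E0_6, E0_7, E0_8, E0_9, E0_10, E0_11, E0_12, E0_13]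
  ring

theorem relE1456_3 :
    ((t 2 • (t 8 • (E 0)) - U0 t (t 8 • (E 0))) - (t 3 • (t 7 • (E 0)) - U1 t (t 7 • (E 0))) + (t 4 • (U5 t (E 0)) - U2 t (U5 t (E 0)) - U3 t (U5 t (E 0))) : Fin 14 → R) 3 = 0 := by
  simp only [Pi.add_apply, Pi.sub_apply, Pi.smul_apply, Pi.neg_apply, smul_eq_mul, U0_0, U0_1, U0_2, U0_3, U0_4, U0_5, U0_6, U0_7, U0_8, U0_9, U0_10, U0_11, U0_12, U0_13, U1_0, U1_1, U1_2, U1_3, U1_4, U1_5, U1_6, U1_7, U1_8, U1_9, U1_10, U1_11, U1_12, U1_13, U2_0, U2_1, U2_2, U2_3, U2_4, U2_5, U2_6, U2_7, U2_8, U2_9, U2_10, U2_11, U2_12, U2_13, U3_0, U3_1, U3_2, U3_3, U3_4, U3_5, U3_6, U3_7, U3_8, U3_9, U3_10, U3_11, U3_12, U3_13, U5_0, U5_1, U5_2, U5_3, U5_4, U5_5, U5_6, U5_7, U5_8, U5_9, U5_10, U5_11, U5_12, U5_13, E0_0, E0_1, E0_2, E0_3, E0_4, E0_5, E0_6, E0_7, E0_8, E0_9,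 E0_10, E0_11, E0_12, E0_13]
  ring

theorem relE1456_4 :
    ((t 2 • (t 8 • (E 0)) - U0 t (t 8 • (E 0))) - (t 3 • (t 7 • (E 0)) - U1 t (t 7 • (E 0))) + (t 4 • (U5 t (E 0)) - U2 t (U5 t (E 0)) - U3 t (U5 t (E 0))) : Fin 14 → R) 4 = 0 := by
  simp only [Pi.add_apply, Pi.sub_apply, Pi.smul_apply, Pi.neg_apply, smul_eq_mul, U0_0, U0_1, U0_2, U0_3, U0_4, U0_5, U0_6, U0_7, U0_8, U0_9, U0_10, U0_11, U0_12, U0_13, U1_0, U1_1, U1_2, U1_3, U1_4, U1_5, U1_6, U1_7, U1_8, U1_9, U1_10, U1_11, U1_12, U1_13, U2_0, U2_1, U2_2, U2_3, U2_4, U2_5, U2_6, U2_7, U2_8, U2_9, U2_10, U2_11, U2_12, U2_13, U3_0, U3_1, U3_2, U3_3, U3_4, U3_5, U3_6, U3_7, U3_8, U3_9, U3_10, U3_11, U3_12, U3_13, U5_0, U5_1, U5_2, U5_3, U5_4, U5_5, U5_6, U5_7, U5_8, U5_9, U5_10, U5_11, U5_12, U5_13, E0_0, E0_1, E0_2, E0_3, E0_4,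 E0_5, E0_6, E0_7, E0_8, E0_9, E0_10, E0_11, E0_12, E0_13]
  ring

theorem relE1456_5 :
    ((t 2 • (t 8 • (E 0)) - U0 t (t 8 • (E 0))) - (t 3 • (t 7 • (E 0)) - U1 t (t 7 • (E 0))) + (t 4 • (U5 t (E 0)) - U2 t (U5 t (E 0)) - U3 t (U5 t (E 0))) : Fin 14 → R) 5 = 0 := by
  simp only [Pi.add_apply, Pi.sub_apply, Pi.smul_apply, Pi.neg_apply, smul_eq_mul, U0_0, U0_1, U0_2, U0_3, U0_4, U0_5, U0_6, U0_7, U0_8, U0_9, U0_10, U0_11, U0_12, U0_13, U1_0, U1_1, U1_2, U1_3, U1_4, U1_5, U1_6, U1_7, U1_8, U1_9, U1_10, U1_11, U1_12, U1_13, U2_0, U2_1, U2_2, U2_3, U2_4, U2_5, U2_6, U2_7, U2_8, U2_9, U2_10, U2_11, U2_12, U2_13, U3_0, U3_1, U3_2, U3_3, U3_4, U3_5, U3_6, U3_7, U3_8, U3_9, U3_10, U3_11, U3_12, U3_13, U5_0, U5_1, U5_2, U5_3, U5_4, U5_5, U5_6, U5_7, U5_8, U5_9, U5_10, U5_11, U5_12, U5_13,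 E0_0, E0_1, E0_2, E0_3, E0_4, E0_5, E0_6, E0_7, E0_8, E0_9, E0_10, E0_11, E0_12, E0_13]
  ring

theorem relE1456_6 :
    ((t 2 • (t 8 • (E 0)) - U0 t (t 8 • (E 0))) - (t 3 • (t 7 • (E 0)) - U1 t (t 7 • (E 0))) + (t 4 • (U5 t (E 0)) - U2 t (U5 t (E 0)) - U3 t (U5 t (E 0))) : Fin 14 → R) 6 = 0 := by
  simp only [Pi.add_apply, Pi.sub_apply, Pi.smul_apply, Pi.neg_apply, smul_eq_mul, U0_0, U0_1, U0_2, U0_3, U0_4, U0_5, U0_6, U0_7, U0_8, U0_9, U0_10, U0_11, U0_12, U0_13, U1_0, U1_1, U1_2, U1_3, U1_4, U1_5, U1_6, U1_7, U1_8, U1_9, U1_10, U1_11, U1_12, U1_13, U2_0, U2_1, U2_2, U2_3, U2_4, U2_5, U2_6, U2_7, U2_8, U2_9, U2_10, U2_11, U2_12, U2_13, U3_0, U3_1, U3_2, U3_3, U3_4, U3_5, U3_6, U3_7, U3_8, U3_9, U3_10, U3_11, U3_12, U3_13, U5_0, U5_1, U5_2, U5_3, U5_4, U5_5, U5_6, U5_7, U5_8, U5_9,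 U5_10, U5_11, U5_12, U5_13, E0_0, E0_1, E0_2, E0_3, E0_4, E0_5, E0_6, E0_7, E0_8, E0_9, E0_10, E0_11, E0_12, E0_13]
  ring

theorem relE1456_7 :
    ((t 2 • (t 8 • (E 0)) - U0 t (t 8 • (E 0))) - (t 3 • (t 7 • (E 0)) - U1 t (t 7 • (E 0))) + (t 4 • (U5 t (E 0)) - U2 t (U5 t (E 0)) - U3 t (U5 t (E 0))) : Fin 14 → R) 7 = 0 := by
  simp only [Pi.add_apply, Pi.sub_apply, Pi.smul_apply, Pi.neg_apply, smul_eq_mul, U0_0, U0_1, U0_2, U0_3, U0_4, U0_5, U0_6, U0_7, U0_8, U0_9, U0_10, U0_11, U0_12, U0_13, U1_0, U1_1, U1_2, U1_3, U1_4, U1_5, U1_6, U1_7, U1_8, U1_9, U1_10, U1_11, U1_12, U1_13, U2_0, U2_1, U2_2, U2_3, U2_4, U2_5, U2_6, U2_7, U2_8, U2_9, U2_10, U2_11, U2_12, U2_13, U3_0, U3_1, U3_2, U3_3, U3_4, U3_5, U3_6, U3_7, U3_8, U3_9, U3_10, U3_11, U3_12, U3_13, U5_0, U5_1, U5_2, U5_3, U5_4,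 U5_5, U5_6, U5_7, U5_8, U5_9, U5_10, U5_11, U5_12, U5_13, E0_0, E0_1, E0_2, E0_3, E0_4, E0_5, E0_6, E0_7, E0_8, E0_9, E0_10, E0_11, E0_12, E0_13]
  ring

theorem relE1456_8 :
    ((t 2 • (t 8 • (E 0)) - U0 t (t 8 • (E 0))) - (t 3 • (t 7 • (E 0)) - U1 t (t 7 • (E 0))) + (t 4 • (U5 t (E 0)) - U2 t (U5 t (E 0)) - U3 t (U5 t (E 0))) : Fin 14 → R) 8 = 0 := by
  simp only [Pi.add_apply, Pi.sub_apply, Pi.smul_apply, Pi.neg_apply, smul_eq_mul, U0_0, U0_1, U0_2, U0_3, U0_4, U0_5, U0_6, U0_7, U0_8, U0_9, U0_10, U0_11, U0_12, U0_13, U1_0, U1_1, U1_2, U1_3, U1_4, U1_5, U1_6, U1_7, U1_8, U1_9, U1_10, U1_11, U1_12, U1_13, U2_0, U2_1, U2_2, U2_3, U2_4, U2_5, U2_6, U2_7, U2_8, U2_9, U2_10, U2_11, U2_12, U2_13, U3_0, U3_1, U3_2, U3_3, U3_4, U3_5, U3_6, U3_7, U3_8, U3_9, U3_10, U3_11, U3_12, U3_13,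 U5_0, U5_1, U5_2, U5_3, U5_4, U5_5, U5_6, U5_7, U5_8, U5_9, U5_10, U5_11, U5_12, U5_13, E0_0, E0_1, E0_2, E0_3, E0_4, E0_5, E0_6, E0_7, E0_8, E0_9, E0_10, E0_11, E0_12, E0_13]
  ring

theorem relE1456_9 :
    ((t 2 • (t 8 • (E 0)) - U0 t (t 8 • (E 0))) - (t 3 • (t 7 • (E 0)) - U1 t (t 7 • (E 0))) + (t 4 • (U5 t (E 0)) - U2 t (U5 t (E 0)) - U3 t (U5 t (E 0))) : Fin 14 → R) 9 = 0 := by
  simp only [Pi.add_apply, Pi.sub_apply, Pi.smul_apply, Pi.neg_apply, smul_eq_mul, U0_0, U0_1, U0_2, U0_3, U0_4, U0_5, U0_6, U0_7, U0_8, U0_9, U0_10, U0_11, U0_12, U0_13, U1_0, U1_1, U1_2, U1_3, U1_4, U1_5, U1_6, U1_7, U1_8, U1_9, U1_10, U1_11, U1_12, U1_13, U2_0, U2_1, U2_2, U2_3, U2_4, U2_5, U2_6, U2_7, U2_8, U2_9, U2_10, U2_11, U2_12, U2_13, U3_0, U3_1, U3_2, U3_3, U3_4, U3_5, U3_6, U3_7, U3_8, U3_9,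 U3_10, U3_11, U3_12, U3_13, U5_0, U5_1, U5_2, U5_3, U5_4, U5_5, U5_6, U5_7, U5_8, U5_9, U5_10, U5_11, U5_12, U5_13, E0_0, E0_1, E0_2, E0_3, E0_4, E0_5, E0_6, E0_7, E0_8, E0_9, E0_10, E0_11, E0_12, E0_13]
  ring

theorem relE1456_10 :
    ((t 2 • (t 8 • (E 0)) - U0 t (t 8 • (E 0))) - (t 3 • (t 7 • (E 0)) - U1 t (t 7 • (E 0))) + (t 4 • (U5 t (E 0)) - U2 t (U5 t (E 0)) - U3 t (U5 t (E 0))) : Fin 14 → R) 10 = 0 := by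
  simp only [Pi.add_apply, Pi.sub_apply, Pi.smul_apply, Pi.neg_apply, smul_eq_mul, U0_0, U0_1, U0_2, U0_3, U0_4, U0_5, U0_6, U0_7, U0_8, U0_9, U0_10, U0_11, U0_12, U0_13, U1_0, U1_1, U1_2, U1_3, U1_4, U1_5, U1_6, U1_7, U1_8, U1_9, U1_10, U1_11, U1_12, U1_13, U2_0, U2_1, U2_2, U2_3, U2_4, U2_5, U2_6, U2_7, U2_8, U2_9, U2_10, U2_11, U2_12, U2_13, U3_0, U3_1, U3_2, U3_3, U3_4, U3_5, U3_6, U3_7, U3_8, U3_9, U3_10, U3_11, U3_12, U3_13, U5_0, U5_1, U5_2, U5_3, U5_4, U5_5, U5_6, U5_7, U5_8, U5_9, U5_10, U5_11, U5_12, U5_13, E0_0, E0_1, E0_2, E0_3, E0_4, E0_5, E0_6, E0_7, E0_8, E0_9, E0_10, E0_11, E0_12, E0_13]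
  ring

theorem relE1456_11 :
    ((t 2 • (t 8 • (E 0)) - U0 t (t 8 • (E 0))) - (t 3 • (t 7 • (E 0)) - U1 t (t 7 • (E 0))) + (t 4 • (U5 t (E 0)) - U2 t (U5 t (E 0)) - U3 t (U5 t (E 0))) : Fin 14 → R) 11 = 0 := by
  simp only [Pi.add_apply, Pi.sub_apply, Pi.smul_apply, Pi.neg_apply, smul_eq_mul, U0_0, U0_1, U0_2, U0_3, U0_4, U0_5, U0_6, U0_7, U0_8, U0_9, U0_10, U0_11, U0_12, U0_13, U1_0, U1_1, U1_2, U1_3, U1_4, U1_5, U1_6, U1_7, U1_8, U1_9, U1_10, U1_11, U1_12, U1_13, U2_0, U2_1, U2_2, U2_3, U2_4, U2_5, U2_6, U2_7, U2_8, U2_9, U2_10, U2_11, U2_12, U2_13, U3_0, U3_1, U3_2, U3_3, U3_4, U3_5, U3_6, U3_7, U3_8, U3_9, U3_10, U3_11, U3_12, U3_13, U5_0, U5_1, U5_2, U5_3, U5_4, U5_5, U5_6, U5_7, U5_8, U5_9, U5_10, U5_11, U5_12, U5_13, E0_0, E0_1, E0_2, E0_3, E0_4, E0_5, E0_6, E0_7, E0_8, E0_9,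 E0_10, E0_11, E0_12, E0_13]
  ring

theorem relE1456_12 :
    ((t 2 • (t 8 • (E 0)) - U0 t (t 8 • (E 0))) - (t 3 • (t 7 • (E 0)) - U1 t (t 7 • (E 0))) + (t 4 • (U5 t (E 0)) - U2 t (U5 t (E 0)) - U3 t (U5 t (E 0))) : Fin 14 → R) 12 = 0 := by
  simp only [Pi.add_apply, Pi.sub_apply, Pi.smul_apply, Pi.neg_apply, smul_eq_mul, U0_0, U0_1, U0_2, U0_3, U0_4, U0_5, U0_6, U0_7, U0_8, U0_9, U0_10, U0_11, U0_12, U0_13, U1_0, U1_1, U1_2, U1_3, U1_4, U1_5, U1_6, U1_7, U1_8, U1_9, U1_10, U1_11, U1_12, U1_13, U2_0, U2_1, U2_2, U2_3, U2_4, U2_5, U2_6, U2_7, U2_8, U2_9, U2_10, U2_11, U2_12, U2_13, U3_0, U3_1, U3_2, U3_3, U3_4, U3_5, U3_6, U3_7, U3_8, U3_9, U3_10, U3_11, U3_12, U3_13, U5_0, U5_1, U5_2, U5_3, U5_4, U5_5, U5_6, U5_7, U5_8, U5_9, U5_10, U5_11, U5_12, U5_13, E0_0, E0_1, E0_2, E0_3, E0_4,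 E0_5, E0_6, E0_7, E0_8, E0_9, E0_10, E0_11, E0_12, E0_13]
  ring

theorem relE1456_13 :
    ((t 2 • (t 8 • (E 0)) - U0 t (t 8 • (E 0))) - (t 3 • (t 7 • (E 0)) - U1 t (t 7 • (E 0))) + (t 4 • (U5 t (E 0)) - U2 t (U5 t (E 0)) - U3 t (U5 t (E 0))) : Fin 14 → R) 13 = 0 := by
  simp only [Pi.add_apply, Pi.sub_apply, Pi.smul_apply, Pi.neg_apply, smul_eq_mul, U0_0, U0_1, U0_2, U0_3, U0_4, U0_5, U0_6, U0_7, U0_8, U0_9, U0_10, U0_11, U0_12, U0_13, U1_0, U1_1, U1_2, U1_3, U1_4, U1_5, U1_6, U1_7, U1_8, U1_9, U1_10, U1_11, U1_12, U1_13, U2_0, U2_1, U2_2, U2_3, U2_4, U2_5, U2_6, U2_7, U2_8, U2_9, U2_10, U2_11, U2_12, U2_13, U3_0, U3_1, U3_2, U3_3, U3_4, U3_5, U3_6, U3_7, U3_8, U3_9, U3_10, U3_11, U3_12, U3_13, U5_0, U5_1, U5_2, U5_3, U5_4, U5_5, U5_6, U5_7, U5_8, U5_9, U5_10, U5_11, U5_12, U5_13,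 E0_0, E0_1, E0_2, E0_3, E0_4, E0_5, E0_6, E0_7, E0_8, E0_9, E0_10, E0_11, E0_12, E0_13]
  ring

theorem relE1456 :
    ((t 2 • (t 8 • (E 0)) - U0 t (t 8 • (E 0))) - (t 3 • (t 7 • (E 0)) - U1 t (t 7 • (E 0))) + (t 4 • (U5 t (E 0)) - U2 t (U5 t (E 0)) - U3 t (U5 t (E 0))) : Fin 14 → R) = 0 := by
  refine funext fun i => ?_
  fin_cases i
  exacts [relE1456_0 t, relE1456_1 t, relE1456_2 t, relE1456_3 t, relE1456_4 t, relE1456_5 t, relE1456_6 t, relE1456_7 t, relE1456_8 t, relE1456_9 t, relE1456_10 t, relE1456_11 t, relE1456_12 t, relE1456_13 t]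

theorem relC1456 : (tC t 2 - UC t 0) * tC t 8 - (tC t 3 - UC t 1) * tC t 7 + (tC t 4 - UC t 2 - UC t 3) * UC t 5 = 0 :=
  cyc t _ (relE1456 t)

theorem relE2345_0 :
    ((U0 t (U5 t (E 0))) - (U1 t (U4 t (E 0))) + (U2 t (U3 t (E 0))) : Fin 14 → R) 0 = 0 := by
  simp only [Pi.add_apply, Pi.sub_apply, Pi.smul_apply, Pi.neg_apply, smul_eq_mul, U0_0, U0_1, U0_2, U0_3, U0_4, U0_5, U0_6, U0_7, U0_8, U0_9, U0_10, U0_11, U0_12, U0_13, U1_0, U1_1, U1_2, U1_3, U1_4, U1_5, U1_6, U1_7, U1_8, U1_9, U1_10, U1_11, U1_12, U1_13, U2_0, U2_1, U2_2, U2_3, U2_4, U2_5, U2_6, U2_7, U2_8, U2_9, U2_10, U2_11, U2_12, U2_13, U3_0, U3_1, U3_2, U3_3, U3_4, U3_5, U3_6, U3_7, U3_8, U3_9, U3_10, U3_11, U3_12, U3_13, U4_0, U4_1, U4_2, U4_3, U4_4, U4_5, U4_6, U4_7, U4_8, U4_9, U4_10, U4_11, U4_12, U4_13, U5_0, U5_1,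 U5_2, U5_3, U5_4, U5_5, U5_6, U5_7, U5_8, U5_9, U5_10, U5_11, U5_12, U5_13, E0_0, E0_1, E0_2, E0_3, E0_4, E0_5, E0_6, E0_7, E0_8, E0_9, E0_10, E0_11, E0_12, E0_13]
  ring

theorem relE2345_1 :
    ((U0 t (U5 t (E 0))) - (U1 t (U4 t (E 0))) + (U2 t (U3 t (E 0))) : Fin 14 → R) 1 = 0 := by
  simp only [Pi.add_apply, Pi.sub_apply, Pi.smul_apply, Pi.neg_apply, smul_eq_mul, U0_0, U0_1, U0_2, U0_3, U0_4, U0_5, U0_6, U0_7, U0_8, U0_9, U0_10, U0_11, U0_12, U0_13, U1_0, U1_1, U1_2, U1_3, U1_4, U1_5, U1_6, U1_7, U1_8, U1_9, U1_10, U1_11, U1_12, U1_13, U2_0, U2_1, U2_2, U2_3, U2_4, U2_5, U2_6, U2_7, U2_8, U2_9, U2_10, U2_11, U2_12, U2_13, U3_0, U3_1, U3_2, U3_3, U3_4, U3_5, U3_6, U3_7, U3_8, U3_9, U3_10, U3_11, U3_12, U3_13, U4_0, U4_1, U4_2, U4_3, U4_4, U4_5, U4_6, U4_7, U4_8, U4_9, U4_10, U4_11,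 U4_12, U4_13, U5_0, U5_1, U5_2, U5_3, U5_4, U5_5, U5_6, U5_7, U5_8, U5_9, U5_10, U5_11, U5_12, U5_13, E0_0, E0_1, E0_2, E0_3, E0_4, E0_5, E0_6, E0_7, E0_8, E0_9, E0_10, E0_11, E0_12, E0_13]
  ring

theorem relE2345_2 :
    ((U0 t (U5 t (E 0))) - (U1 t (U4 t (E 0))) + (U2 t (U3 t (E 0))) : Fin 14 → R) 2 = 0 := by
  simp only [Pi.add_apply, Pi.sub_apply, Pi.smul_apply, Pi.neg_apply, smul_eq_mul, U0_0, U0_1, U0_2, U0_3, U0_4, U0_5, U0_6, U0_7, U0_8, U0_9, U0_10, U0_11, U0_12, U0_13, U1_0, U1_1, U1_2, U1_3, U1_4, U1_5, U1_6, U1_7, U1_8, U1_9, U1_10, U1_11, U1_12, U1_13, U2_0, U2_1, U2_2, U2_3, U2_4, U2_5, U2_6, U2_7, U2_8, U2_9, U2_10, U2_11, U2_12, U2_13, U3_0, U3_1, U3_2, U3_3, U3_4, U3_5, U3_6, U3_7, U3_8, U3_9, U3_10, U3_11, U3_12, U3_13, U4_0, U4_1, U4_2, U4_3, U4_4, U4_5, U4_6, U4_7,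 U4_8, U4_9, U4_10, U4_11, U4_12, U4_13, U5_0, U5_1, U5_2, U5_3, U5_4, U5_5, U5_6, U5_7, U5_8, U5_9, U5_10, U5_11, U5_12, U5_13, E0_0, E0_1, E0_2, E0_3, E0_4, E0_5, E0_6, E0_7, E0_8, E0_9, E0_10, E0_11, E0_12, E0_13]
  ring

theorem relE2345_3 :
    ((U0 t (U5 t (E 0))) - (U1 t (U4 t (E 0))) + (U2 t (U3 t (E 0))) : Fin 14 → R) 3 = 0 := by
  simp only [Pi.add_apply, Pi.sub_apply, Pi.smul_apply, Pi.neg_apply, smul_eq_mul, U0_0, U0_1, U0_2, U0_3, U0_4, U0_5, U0_6, U0_7, U0_8, U0_9, U0_10, U0_11, U0_12, U0_13, U1_0, U1_1, U1_2, U1_3, U1_4, U1_5, U1_6, U1_7, U1_8, U1_9, U1_10, U1_11, U1_12, U1_13, U2_0, U2_1, U2_2, U2_3, U2_4, U2_5, U2_6, U2_7, U2_8, U2_9, U2_10, U2_11, U2_12, U2_13, U3_0, U3_1, U3_2, U3_3, U3_4, U3_5, U3_6, U3_7, U3_8, U3_9, U3_10, U3_11, U3_12, U3_13, U4_0, U4_1, U4_2,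 U4_3, U4_4, U4_5, U4_6, U4_7, U4_8, U4_9, U4_10, U4_11, U4_12, U4_13, U5_0, U5_1, U5_2, U5_3, U5_4, U5_5, U5_6, U5_7, U5_8, U5_9, U5_10, U5_11, U5_12, U5_13, E0_0, E0_1, E0_2, E0_3, E0_4, E0_5, E0_6, E0_7, E0_8, E0_9, E0_10, E0_11, E0_12, E0_13]
  ring

theorem relE2345_4 :
    ((U0 t (U5 t (E 0))) - (U1 t (U4 t (E 0))) + (U2 t (U3 t (E 0))) : Fin 14 → R) 4 = 0 := by
  simp only [Pi.add_apply, Pi.sub_apply, Pi.smul_apply, Pi.neg_apply, smul_eq_mul, U0_0, U0_1, U0_2, U0_3, U0_4, U0_5, U0_6, U0_7, U0_8, U0_9, U0_10, U0_11, U0_12, U0_13, U1_0, U1_1, U1_2, U1_3, U1_4, U1_5, U1_6, U1_7, U1_8, U1_9, U1_10, U1_11, U1_12, U1_13, U2_0, U2_1, U2_2, U2_3, U2_4, U2_5, U2_6, U2_7, U2_8, U2_9, U2_10, U2_11, U2_12, U2_13, U3_0, U3_1, U3_2, U3_3, U3_4, U3_5, U3_6, U3_7, U3_8, U3_9, U3_10, U3_11, U3_12,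 U3_13, U4_0, U4_1, U4_2, U4_3, U4_4, U4_5, U4_6, U4_7, U4_8, U4_9, U4_10, U4_11, U4_12, U4_13, U5_0, U5_1, U5_2, U5_3, U5_4, U5_5, U5_6, U5_7, U5_8, U5_9, U5_10, U5_11, U5_12, U5_13, E0_0, E0_1, E0_2, E0_3, E0_4, E0_5, E0_6, E0_7, E0_8, E0_9, E0_10, E0_11, E0_12, E0_13]
  ring

theorem relE2345_5 :
    ((U0 t (U5 t (E 0))) - (U1 t (U4 t (E 0))) + (U2 t (U3 t (E 0))) : Fin 14 → R) 5 = 0 := by
  simp only [Pi.add_apply, Pi.sub_apply, Pi.smul_apply, Pi.neg_apply, smul_eq_mul, U0_0, U0_1, U0_2, U0_3, U0_4, U0_5, U0_6, U0_7, U0_8, U0_9, U0_10, U0_11, U0_12, U0_13, U1_0, U1_1, U1_2, U1_3, U1_4, U1_5, U1_6, U1_7, U1_8, U1_9, U1_10, U1_11, U1_12, U1_13, U2_0, U2_1, U2_2, U2_3, U2_4, U2_5, U2_6, U2_7, U2_8, U2_9, U2_10, U2_11, U2_12, U2_13, U3_0, U3_1, U3_2, U3_3, U3_4, U3_5, U3_6, U3_7, U3_8,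 U3_9, U3_10, U3_11, U3_12, U3_13, U4_0, U4_1, U4_2, U4_3, U4_4, U4_5, U4_6, U4_7, U4_8, U4_9, U4_10, U4_11, U4_12, U4_13, U5_0, U5_1, U5_2, U5_3, U5_4, U5_5, U5_6, U5_7, U5_8, U5_9, U5_10, U5_11, U5_12, U5_13, E0_0, E0_1, E0_2, E0_3, E0_4, E0_5, E0_6, E0_7, E0_8, E0_9, E0_10, E0_11, E0_12, E0_13]
  ring

theorem relE2345_6 :
    ((U0 t (U5 t (E 0))) - (U1 t (U4 t (E 0))) + (U2 t (U3 t (E 0))) : Fin 14 → R) 6 = 0 := by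
  simp only [Pi.add_apply, Pi.sub_apply, Pi.smul_apply, Pi.neg_apply, smul_eq_mul, U0_0, U0_1, U0_2, U0_3, U0_4, U0_5, U0_6, U0_7, U0_8, U0_9, U0_10, U0_11, U0_12, U0_13, U1_0, U1_1, U1_2, U1_3, U1_4, U1_5, U1_6, U1_7, U1_8, U1_9, U1_10, U1_11, U1_12, U1_13, U2_0, U2_1, U2_2, U2_3, U2_4, U2_5, U2_6, U2_7, U2_8, U2_9, U2_10, U2_11, U2_12, U2_13, U3_0, U3_1, U3_2, U3_3, U3_4, U3_5, U3_6, U3_7, U3_8, U3_9, U3_10, U3_11, U3_12, U3_13, U4_0, U4_1, U4_2, U4_3, U4_4, U4_5, U4_6, U4_7, U4_8, U4_9, U4_10, U4_11, U4_12, U4_13, U5_0, U5_1, U5_2, U5_3, U5_4, U5_5, U5_6, U5_7, U5_8, U5_9, U5_10, U5_11, U5_12, U5_13, E0_0, E0_1, E0_2, E0_3, E0_4, E0_5, E0_6, E0_7, E0_8, E0_9, E0_10, E0_11, E0_12, E0_13]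
  ring

theorem relE2345_7 :
    ((U0 t (U5 t (E 0))) - (U1 t (U4 t (E 0))) + (U2 t (U3 t (E 0))) : Fin 14 → R) 7 = 0 := by
  simp only [Pi.add_apply, Pi.sub_apply, Pi.smul_apply, Pi.neg_apply, smul_eq_mul, U0_0, U0_1, U0_2, U0_3, U0_4, U0_5, U0_6, U0_7, U0_8, U0_9, U0_10, U0_11, U0_12, U0_13, U1_0, U1_1, U1_2, U1_3, U1_4, U1_5, U1_6, U1_7, U1_8, U1_9, U1_10, U1_11, U1_12, U1_13, U2_0, U2_1, U2_2, U2_3, U2_4, U2_5, U2_6, U2_7, U2_8, U2_9, U2_10, U2_11, U2_12, U2_13, U3_0, U3_1, U3_2, U3_3, U3_4, U3_5, U3_6, U3_7, U3_8, U3_9, U3_10, U3_11, U3_12, U3_13, U4_0, U4_1, U4_2, U4_3, U4_4, U4_5, U4_6, U4_7, U4_8, U4_9, U4_10, U4_11, U4_12, U4_13, U5_0, U5_1, U5_2, U5_3, U5_4, U5_5, U5_6, U5_7, U5_8, U5_9, U5_10, U5_11, U5_12, U5_13, E0_0, E0_1, E0_2, E0_3, E0_4, E0_5, E0_6, E0_7, E0_8, E0_9,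 E0_10, E0_11, E0_12, E0_13]
  ring

theorem relE2345_8 :
    ((U0 t (U5 t (E 0))) - (U1 t (U4 t (E 0))) + (U2 t (U3 t (E 0))) : Fin 14 → R) 8 = 0 := by
  simp only [Pi.add_apply, Pi.sub_apply, Pi.smul_apply, Pi.neg_apply, smul_eq_mul, U0_0, U0_1, U0_2, U0_3, U0_4, U0_5, U0_6, U0_7, U0_8, U0_9, U0_10, U0_11, U0_12, U0_13, U1_0, U1_1, U1_2, U1_3, U1_4, U1_5, U1_6, U1_7, U1_8, U1_9, U1_10, U1_11, U1_12, U1_13, U2_0, U2_1, U2_2, U2_3, U2_4, U2_5, U2_6, U2_7, U2_8, U2_9, U2_10, U2_11, U2_12, U2_13, U3_0, U3_1, U3_2, U3_3, U3_4, U3_5, U3_6, U3_7, U3_8, U3_9, U3_10, U3_11, U3_12, U3_13, U4_0, U4_1, U4_2, U4_3, U4_4, U4_5, U4_6, U4_7, U4_8, U4_9, U4_10, U4_11, U4_12, U4_13, U5_0, U5_1, U5_2, U5_3, U5_4, U5_5, U5_6, U5_7, U5_8, U5_9, U5_10, U5_11, U5_12, U5_13, E0_0, E0_1, E0_2, E0_3, E0_4,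 E0_5, E0_6, E0_7, E0_8, E0_9, E0_10, E0_11, E0_12, E0_13]
  ring

theorem relE2345_9 :
    ((U0 t (U5 t (E 0))) - (U1 t (U4 t (E 0))) + (U2 t (U3 t (E 0))) : Fin 14 → R) 9 = 0 := by
  simp only [Pi.add_apply, Pi.sub_apply, Pi.smul_apply, Pi.neg_apply, smul_eq_mul, U0_0, U0_1, U0_2, U0_3, U0_4, U0_5, U0_6, U0_7, U0_8, U0_9, U0_10, U0_11, U0_12, U0_13, U1_0, U1_1, U1_2, U1_3, U1_4, U1_5, U1_6, U1_7, U1_8, U1_9, U1_10, U1_11, U1_12, U1_13, U2_0, U2_1, U2_2, U2_3, U2_4, U2_5, U2_6, U2_7, U2_8, U2_9, U2_10, U2_11, U2_12, U2_13, U3_0, U3_1, U3_2, U3_3, U3_4, U3_5, U3_6, U3_7, U3_8, U3_9, U3_10, U3_11, U3_12, U3_13, U4_0, U4_1, U4_2, U4_3, U4_4, U4_5, U4_6, U4_7, U4_8, U4_9, U4_10, U4_11, U4_12, U4_13, U5_0, U5_1, U5_2, U5_3, U5_4, U5_5, U5_6, U5_7, U5_8, U5_9, U5_10, U5_11, U5_12, U5_13,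 E0_0, E0_1, E0_2, E0_3, E0_4, E0_5, E0_6, E0_7, E0_8, E0_9, E0_10, E0_11, E0_12, E0_13]
  ring

theorem relE2345_10 :
    ((U0 t (U5 t (E 0))) - (U1 t (U4 t (E 0))) + (U2 t (U3 t (E 0))) : Fin 14 → R) 10 = 0 := by
  simp only [Pi.add_apply, Pi.sub_apply, Pi.smul_apply, Pi.neg_apply, smul_eq_mul, U0_0, U0_1, U0_2, U0_3, U0_4, U0_5, U0_6, U0_7, U0_8, U0_9, U0_10, U0_11, U0_12, U0_13, U1_0, U1_1, U1_2, U1_3, U1_4, U1_5, U1_6, U1_7, U1_8, U1_9, U1_10, U1_11, U1_12, U1_13, U2_0, U2_1, U2_2, U2_3, U2_4, U2_5, U2_6, U2_7, U2_8, U2_9, U2_10, U2_11, U2_12, U2_13, U3_0, U3_1, U3_2, U3_3, U3_4, U3_5, U3_6, U3_7, U3_8, U3_9, U3_10, U3_11, U3_12, U3_13, U4_0, U4_1, U4_2, U4_3, U4_4, U4_5, U4_6, U4_7, U4_8, U4_9, U4_10, U4_11, U4_12, U4_13, U5_0, U5_1, U5_2, U5_3, U5_4, U5_5, U5_6, U5_7, U5_8, U5_9,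 U5_10, U5_11, U5_12, U5_13, E0_0, E0_1, E0_2, E0_3, E0_4, E0_5, E0_6, E0_7, E0_8, E0_9, E0_10, E0_11, E0_12, E0_13]
  ring

theorem relE2345_11 :
    ((U0 t (U5 t (E 0))) - (U1 t (U4 t (E 0))) + (U2 t (U3 t (E 0))) : Fin 14 → R) 11 = 0 := by
  simp only [Pi.add_apply, Pi.sub_apply, Pi.smul_apply, Pi.neg_apply, smul_eq_mul, U0_0, U0_1, U0_2, U0_3, U0_4, U0_5, U0_6, U0_7, U0_8, U0_9, U0_10, U0_11, U0_12, U0_13, U1_0, U1_1, U1_2, U1_3, U1_4, U1_5, U1_6, U1_7, U1_8, U1_9, U1_10, U1_11, U1_12, U1_13, U2_0, U2_1, U2_2, U2_3, U2_4, U2_5, U2_6, U2_7, U2_8, U2_9, U2_10, U2_11, U2_12, U2_13, U3_0, U3_1, U3_2, U3_3, U3_4, U3_5, U3_6, U3_7, U3_8, U3_9, U3_10, U3_11, U3_12, U3_13, U4_0, U4_1, U4_2, U4_3, U4_4, U4_5, U4_6, U4_7, U4_8, U4_9, U4_10, U4_11, U4_12, U4_13, U5_0, U5_1, U5_2, U5_3, U5_4,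 U5_5, U5_6, U5_7, U5_8, U5_9, U5_10, U5_11, U5_12, U5_13, E0_0, E0_1, E0_2, E0_3, E0_4, E0_5, E0_6, E0_7, E0_8, E0_9, E0_10, E0_11, E0_12, E0_13]
  ring

theorem relE2345_12 :
    ((U0 t (U5 t (E 0))) - (U1 t (U4 t (E 0))) + (U2 t (U3 t (E 0))) : Fin 14 → R) 12 = 0 := by
  simp only [Pi.add_apply, Pi.sub_apply, Pi.smul_apply, Pi.neg_apply, smul_eq_mul, U0_0, U0_1, U0_2, U0_3, U0_4, U0_5, U0_6, U0_7, U0_8, U0_9, U0_10, U0_11, U0_12, U0_13, U1_0, U1_1, U1_2, U1_3, U1_4, U1_5, U1_6, U1_7, U1_8, U1_9, U1_10, U1_11, U1_12, U1_13, U2_0, U2_1, U2_2, U2_3, U2_4, U2_5, U2_6, U2_7, U2_8, U2_9, U2_10, U2_11, U2_12, U2_13, U3_0, U3_1, U3_2, U3_3, U3_4, U3_5, U3_6, U3_7, U3_8, U3_9, U3_10, U3_11, U3_12, U3_13, U4_0, U4_1, U4_2, U4_3, U4_4, U4_5, U4_6, U4_7, U4_8, U4_9, U4_10, U4_11, U4_12, U4_13,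 U5_0, U5_1, U5_2, U5_3, U5_4, U5_5, U5_6, U5_7, U5_8, U5_9, U5_10, U5_11, U5_12, U5_13, E0_0, E0_1, E0_2, E0_3, E0_4, E0_5, E0_6, E0_7, E0_8, E0_9, E0_10, E0_11, E0_12, E0_13]
  ring

theorem relE2345_13 :
    ((U0 t (U5 t (E 0))) - (U1 t (U4 t (E 0))) + (U2 t (U3 t (E 0))) : Fin 14 → R) 13 = 0 := by
  simp only [Pi.add_apply, Pi.sub_apply, Pi.smul_apply, Pi.neg_apply, smul_eq_mul, U0_0, U0_1, U0_2, U0_3, U0_4, U0_5, U0_6, U0_7, U0_8, U0_9, U0_10, U0_11, U0_12, U0_13, U1_0, U1_1, U1_2, U1_3, U1_4, U1_5, U1_6, U1_7, U1_8, U1_9, U1_10, U1_11, U1_12, U1_13, U2_0, U2_1, U2_2, U2_3, U2_4, U2_5, U2_6, U2_7, U2_8, U2_9, U2_10, U2_11, U2_12, U2_13, U3_0, U3_1, U3_2, U3_3, U3_4, U3_5, U3_6, U3_7, U3_8, U3_9, U3_10, U3_11, U3_12, U3_13, U4_0, U4_1, U4_2, U4_3, U4_4, U4_5, U4_6, U4_7, U4_8, U4_9,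 U4_10, U4_11, U4_12, U4_13, U5_0, U5_1, U5_2, U5_3, U5_4, U5_5, U5_6, U5_7, U5_8, U5_9, U5_10, U5_11, U5_12, U5_13, E0_0, E0_1, E0_2, E0_3, E0_4, E0_5, E0_6, E0_7, E0_8, E0_9, E0_10, E0_11, E0_12, E0_13]
  ring

theorem relE2345 :
    ((U0 t (U5 t (E 0))) - (U1 t (U4 t (E 0))) + (U2 t (U3 t (E 0))) : Fin 14 → R) = 0 := by
  refine funext fun i => ?_
  fin_cases i
  exacts [relE2345_0 t, relE2345_1 t, relE2345_2 t, relE2345_3 t, relE2345_4 t, relE2345_5 t, relE2345_6 t, relE2345_7 t, relE2345_8 t, relE2345_9 t, relE2345_10 t, relE2345_11 t, relE2345_12 t, relE2345_13 t]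

theorem relC2345 : UC t 0 * UC t 5 - UC t 1 * UC t 4 + UC t 2 * UC t 3 = 0 :=
  cyc t _ (relE2345 t)

theorem relE2346_0 :
    ((U0 t (t 7 • (E 0))) - (U1 t (t 6 • (E 0) - U5 t (E 0))) + (t 5 • (U3 t (E 0)) - U4 t (U3 t (E 0))) : Fin 14 → R) 0 = 0 := by
  simp only [Pi.add_apply, Pi.sub_apply, Pi.smul_apply, Pi.neg_apply, smul_eq_mul, U0_0, U0_1, U0_2, U0_3, U0_4, U0_5, U0_6, U0_7, U0_8, U0_9, U0_10, U0_11, U0_12, U0_13, U1_0, U1_1, U1_2, U1_3, U1_4, U1_5, U1_6, U1_7, U1_8, U1_9, U1_10, U1_11, U1_12, U1_13, U3_0, U3_1, U3_2, U3_3, U3_4, U3_5, U3_6, U3_7, U3_8, U3_9, U3_10, U3_11, U3_12, U3_13, U4_0, U4_1, U4_2, U4_3, U4_4, U4_5, U4_6, U4_7, U4_8, U4_9, U4_10, U4_11, U4_12, U4_13, U5_0, U5_1, U5_2, U5_3, U5_4, U5_5, U5_6, U5_7, U5_8, U5_9, U5_10, U5_11, U5_12, U5_13, E0_0, E0_1, E0_2,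 E0_3, E0_4, E0_5, E0_6, E0_7, E0_8, E0_9, E0_10, E0_11, E0_12, E0_13]
  ring

theorem relE2346_1 :
    ((U0 t (t 7 • (E 0))) - (U1 t (t 6 • (E 0) - U5 t (E 0))) + (t 5 • (U3 t (E 0)) - U4 t (U3 t (E 0))) : Fin 14 → R) 1 = 0 := by
  simp only [Pi.add_apply, Pi.sub_apply, Pi.smul_apply, Pi.neg_apply, smul_eq_mul, U0_0, U0_1, U0_2, U0_3, U0_4, U0_5, U0_6, U0_7, U0_8, U0_9, U0_10, U0_11, U0_12, U0_13, U1_0, U1_1, U1_2, U1_3, U1_4, U1_5, U1_6, U1_7, U1_8, U1_9, U1_10, U1_11, U1_12, U1_13, U3_0, U3_1, U3_2, U3_3, U3_4, U3_5, U3_6, U3_7, U3_8, U3_9, U3_10, U3_11, U3_12, U3_13, U4_0, U4_1, U4_2, U4_3, U4_4, U4_5, U4_6, U4_7, U4_8, U4_9, U4_10, U4_11, U4_12, U4_13, U5_0, U5_1, U5_2, U5_3, U5_4, U5_5, U5_6, U5_7, U5_8, U5_9, U5_10, U5_11, U5_12, U5_13, E0_0, E0_1, E0_2, E0_3, E0_4, E0_5, E0_6,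 E0_7, E0_8, E0_9, E0_10, E0_11, E0_12, E0_13]
  ring

theorem relE2346_2 :
    ((U0 t (t 7 • (E 0))) - (U1 t (t 6 • (E 0) - U5 t (E 0))) + (t 5 • (U3 t (E 0)) - U4 t (U3 t (E 0))) : Fin 14 → R) 2 = 0 := by
  simp only [Pi.add_apply, Pi.sub_apply, Pi.smul_apply, Pi.neg_apply, smul_eq_mul, U0_0, U0_1, U0_2, U0_3, U0_4, U0_5, U0_6, U0_7, U0_8, U0_9, U0_10, U0_11, U0_12, U0_13, U1_0, U1_1, U1_2, U1_3, U1_4, U1_5, U1_6, U1_7, U1_8, U1_9, U1_10, U1_11, U1_12, U1_13, U3_0, U3_1, U3_2, U3_3, U3_4, U3_5, U3_6, U3_7, U3_8, U3_9, U3_10, U3_11, U3_12, U3_13, U4_0, U4_1, U4_2, U4_3, U4_4, U4_5, U4_6, U4_7, U4_8, U4_9, U4_10, U4_11, U4_12, U4_13, U5_0, U5_1, U5_2, U5_3, U5_4, U5_5, U5_6, U5_7, U5_8, U5_9, U5_10, U5_11, U5_12, U5_13, E0_0, E0_1, E0_2, E0_3, E0_4, E0_5, E0_6, E0_7, E0_8, E0_9, E0_10,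 E0_11, E0_12, E0_13]
  ring

theorem relE2346_3 :
    ((U0 t (t 7 • (E 0))) - (U1 t (t 6 • (E 0) - U5 t (E 0))) + (t 5 • (U3 t (E 0)) - U4 t (U3 t (E 0))) : Fin 14 → R) 3 = 0 := by
  simp only [Pi.add_apply, Pi.sub_apply, Pi.smul_apply, Pi.neg_apply, smul_eq_mul, U0_0, U0_1, U0_2, U0_3, U0_4, U0_5, U0_6, U0_7, U0_8, U0_9, U0_10, U0_11, U0_12, U0_13, U1_0, U1_1, U1_2, U1_3, U1_4, U1_5, U1_6, U1_7, U1_8, U1_9, U1_10, U1_11, U1_12, U1_13, U3_0, U3_1, U3_2, U3_3, U3_4, U3_5, U3_6, U3_7, U3_8, U3_9, U3_10, U3_11, U3_12, U3_13, U4_0, U4_1, U4_2, U4_3, U4_4, U4_5, U4_6, U4_7, U4_8, U4_9, U4_10, U4_11, U4_12, U4_13, U5_0, U5_1, U5_2, U5_3, U5_4, U5_5, U5_6, U5_7, U5_8, U5_9, U5_10, U5_11, U5_12, U5_13, E0_0, E0_1, E0_2, E0_3, E0_4, E0_5, E0_6, E0_7, E0_8, E0_9, E0_10, E0_11, E0_12, E0_13]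
  ring

theorem relE2346_4 :
    ((U0 t (t 7 • (E 0))) - (U1 t (t 6 • (E 0) - U5 t (E 0))) + (t 5 • (U3 t (E 0)) - U4 t (U3 t (E 0))) : Fin 14 → R) 4 = 0 := by
  simp only [Pi.add_apply, Pi.sub_apply, Pi.smul_apply, Pi.neg_apply, smul_eq_mul, U0_0, U0_1, U0_2, U0_3, U0_4, U0_5, U0_6, U0_7, U0_8, U0_9, U0_10, U0_11, U0_12, U0_13, U1_0, U1_1, U1_2, U1_3, U1_4, U1_5, U1_6, U1_7, U1_8, U1_9, U1_10, U1_11, U1_12, U1_13, U3_0, U3_1, U3_2, U3_3, U3_4, U3_5, U3_6, U3_7, U3_8, U3_9, U3_10, U3_11, U3_12, U3_13, U4_0, U4_1, U4_2, U4_3, U4_4, U4_5, U4_6, U4_7, U4_8, U4_9, U4_10, U4_11, U4_12, U4_13, U5_0, U5_1, U5_2, U5_3, U5_4, U5_5, U5_6, U5_7, U5_8, U5_9, U5_10, U5_11, U5_12, U5_13, E0_0, E0_1, E0_2, E0_3, E0_4, E0_5, E0_6, E0_7, E0_8, E0_9, E0_10, E0_11, E0_12, E0_13]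
  ring

theorem relE2346_5 :
    ((U0 t (t 7 • (E 0))) - (U1 t (t 6 • (E 0) - U5 t (E 0))) + (t 5 • (U3 t (E 0)) - U4 t (U3 t (E 0))) : Fin 14 → R) 5 = 0 := by
  simp only [Pi.add_apply, Pi.sub_apply, Pi.smul_apply, Pi.neg_apply, smul_eq_mul, U0_0, U0_1, U0_2, U0_3, U0_4, U0_5, U0_6, U0_7, U0_8, U0_9, U0_10, U0_11, U0_12, U0_13, U1_0, U1_1, U1_2, U1_3, U1_4, U1_5, U1_6, U1_7, U1_8, U1_9, U1_10, U1_11, U1_12, U1_13, U3_0, U3_1, U3_2, U3_3, U3_4, U3_5, U3_6, U3_7, U3_8, U3_9, U3_10, U3_11, U3_12, U3_13, U4_0, U4_1, U4_2, U4_3, U4_4, U4_5, U4_6, U4_7, U4_8, U4_9, U4_10, U4_11, U4_12, U4_13, U5_0, U5_1, U5_2, U5_3, U5_4, U5_5, U5_6, U5_7, U5_8, U5_9, U5_10, U5_11, U5_12, U5_13, E0_0, E0_1, E0_2, E0_3, E0_4, E0_5, E0_6, E0_7, E0_8, E0_9, E0_10, E0_11, E0_12, E0_13]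
  ring

theorem relE2346_6 :
    ((U0 t (t 7 • (E 0))) - (U1 t (t 6 • (E 0) - U5 t (E 0))) + (t 5 • (U3 t (E 0)) - U4 t (U3 t (E 0))) : Fin 14 → R) 6 = 0 := by
  simp only [Pi.add_apply, Pi.sub_apply, Pi.smul_apply, Pi.neg_apply, smul_eq_mul, U0_0, U0_1, U0_2, U0_3, U0_4, U0_5, U0_6, U0_7, U0_8, U0_9, U0_10, U0_11, U0_12, U0_13, U1_0, U1_1, U1_2, U1_3, U1_4, U1_5, U1_6, U1_7, U1_8, U1_9, U1_10, U1_11, U1_12, U1_13, U3_0, U3_1, U3_2, U3_3, U3_4, U3_5, U3_6, U3_7, U3_8, U3_9, U3_10, U3_11, U3_12, U3_13, U4_0, U4_1, U4_2, U4_3, U4_4, U4_5, U4_6, U4_7, U4_8, U4_9, U4_10, U4_11, U4_12, U4_13, U5_0, U5_1, U5_2, U5_3, U5_4, U5_5, U5_6, U5_7, U5_8, U5_9, U5_10, U5_11, U5_12, U5_13, E0_0, E0_1, E0_2, E0_3, E0_4, E0_5, E0_6, E0_7, E0_8, E0_9, E0_10, E0_11, E0_12, E0_13]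
  ring

theorem relE2346_7 :
    ((U0 t (t 7 • (E 0))) - (U1 t (t 6 • (E 0) - U5 t (E 0))) + (t 5 • (U3 t (E 0)) - U4 t (U3 t (E 0))) : Fin 14 → R) 7 = 0 := by
  simp only [Pi.add_apply, Pi.sub_apply, Pi.smul_apply, Pi.neg_apply, smul_eq_mul, U0_0, U0_1, U0_2, U0_3, U0_4, U0_5, U0_6, U0_7, U0_8, U0_9, U0_10, U0_11, U0_12, U0_13, U1_0, U1_1, U1_2, U1_3, U1_4, U1_5, U1_6, U1_7, U1_8, U1_9, U1_10, U1_11, U1_12, U1_13, U3_0, U3_1, U3_2, U3_3, U3_4, U3_5, U3_6, U3_7, U3_8, U3_9, U3_10, U3_11, U3_12, U3_13, U4_0, U4_1, U4_2, U4_3, U4_4, U4_5, U4_6, U4_7, U4_8, U4_9, U4_10, U4_11, U4_12, U4_13, U5_0, U5_1, U5_2, U5_3, U5_4, U5_5, U5_6, U5_7, U5_8, U5_9, U5_10, U5_11, U5_12, U5_13, E0_0, E0_1, E0_2, E0_3, E0_4, E0_5, E0_6, E0_7, E0_8, E0_9, E0_10, E0_11, E0_12, E0_13]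
  ring

theorem relE2346_8 :
    ((U0 t (t 7 • (E 0))) - (U1 t (t 6 • (E 0) - U5 t (E 0))) + (t 5 • (U3 t (E 0)) - U4 t (U3 t (E 0))) : Fin 14 → R) 8 = 0 := by
  simp only [Pi.add_apply, Pi.sub_apply, Pi.smul_apply, Pi.neg_apply, smul_eq_mul, U0_0, U0_1, U0_2, U0_3, U0_4, U0_5, U0_6, U0_7, U0_8, U0_9, U0_10, U0_11, U0_12, U0_13, U1_0, U1_1, U1_2, U1_3, U1_4, U1_5, U1_6, U1_7, U1_8, U1_9, U1_10, U1_11, U1_12, U1_13, U3_0, U3_1, U3_2, U3_3, U3_4, U3_5, U3_6, U3_7, U3_8, U3_9, U3_10, U3_11, U3_12, U3_13, U4_0, U4_1, U4_2, U4_3, U4_4, U4_5, U4_6, U4_7, U4_8, U4_9, U4_10, U4_11, U4_12, U4_13, U5_0, U5_1, U5_2, U5_3, U5_4, U5_5, U5_6, U5_7, U5_8, U5_9, U5_10, U5_11, U5_12, U5_13, E0_0, E0_1, E0_2, E0_3, E0_4, E0_5, E0_6, E0_7, E0_8, E0_9, E0_10, E0_11, E0_12, E0_13]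
  ring

theorem relE2346_9 :
    ((U0 t (t 7 • (E 0))) - (U1 t (t 6 • (E 0) - U5 t (E 0))) + (t 5 • (U3 t (E 0)) - U4 t (U3 t (E 0))) : Fin 14 → R) 9 = 0 := by
  simp only [Pi.add_apply, Pi.sub_apply, Pi.smul_apply, Pi.neg_apply, smul_eq_mul, U0_0, U0_1, U0_2, U0_3, U0_4, U0_5, U0_6, U0_7, U0_8, U0_9, U0_10, U0_11, U0_12, U0_13, U1_0, U1_1, U1_2, U1_3, U1_4, U1_5, U1_6, U1_7, U1_8, U1_9, U1_10, U1_11, U1_12, U1_13, U3_0, U3_1, U3_2, U3_3, U3_4, U3_5, U3_6, U3_7, U3_8, U3_9, U3_10, U3_11, U3_12, U3_13, U4_0, U4_1, U4_2, U4_3, U4_4, U4_5, U4_6, U4_7, U4_8, U4_9, U4_10, U4_11, U4_12, U4_13, U5_0, U5_1, U5_2, U5_3, U5_4, U5_5, U5_6, U5_7, U5_8, U5_9, U5_10, U5_11, U5_12, U5_13, E0_0, E0_1, E0_2, E0_3, E0_4, E0_5, E0_6, E0_7, E0_8, E0_9, E0_10, E0_11, E0_12, E0_13]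
  ring

theorem relE2346_10 :
    ((U0 t (t 7 • (E 0))) - (U1 t (t 6 • (E 0) - U5 t (E 0))) + (t 5 • (U3 t (E 0)) - U4 t (U3 t (E 0))) : Fin 14 → R) 10 = 0 := by
  simp only [Pi.add_apply, Pi.sub_apply, Pi.smul_apply, Pi.neg_apply, smul_eq_mul, U0_0, U0_1, U0_2, U0_3, U0_4, U0_5, U0_6, U0_7, U0_8, U0_9, U0_10, U0_11, U0_12, U0_13, U1_0, U1_1, U1_2, U1_3, U1_4, U1_5, U1_6, U1_7, U1_8, U1_9, U1_10, U1_11, U1_12, U1_13, U3_0, U3_1, U3_2, U3_3, U3_4, U3_5, U3_6, U3_7, U3_8, U3_9, U3_10, U3_11, U3_12, U3_13, U4_0, U4_1, U4_2, U4_3, U4_4, U4_5, U4_6, U4_7, U4_8, U4_9, U4_10, U4_11, U4_12, U4_13, U5_0, U5_1, U5_2, U5_3, U5_4, U5_5, U5_6, U5_7, U5_8, U5_9, U5_10, U5_11, U5_12, U5_13, E0_0, E0_1, E0_2, E0_3, E0_4, E0_5, E0_6, E0_7, E0_8, E0_9, E0_10, E0_11, E0_12, E0_13]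
  ring

theorem relE2346_11 :
    ((U0 t (t 7 • (E 0))) - (U1 t (t 6 • (E 0) - U5 t (E 0))) + (t 5 • (U3 t (E 0)) - U4 t (U3 t (E 0))) : Fin 14 → R) 11 = 0 := by
  simp only [Pi.add_apply, Pi.sub_apply, Pi.smul_apply, Pi.neg_apply, smul_eq_mul, U0_0, U0_1, U0_2, U0_3, U0_4, U0_5, U0_6, U0_7, U0_8, U0_9, U0_10, U0_11, U0_12, U0_13, U1_0, U1_1, U1_2, U1_3, U1_4, U1_5, U1_6, U1_7, U1_8, U1_9, U1_10, U1_11, U1_12, U1_13, U3_0, U3_1, U3_2, U3_3, U3_4, U3_5, U3_6, U3_7, U3_8, U3_9, U3_10, U3_11, U3_12, U3_13, U4_0, U4_1, U4_2, U4_3, U4_4, U4_5, U4_6, U4_7, U4_8, U4_9, U4_10, U4_11, U4_12, U4_13, U5_0, U5_1, U5_2, U5_3, U5_4, U5_5, U5_6, U5_7, U5_8, U5_9, U5_10, U5_11, U5_12, U5_13, E0_0, E0_1, E0_2, E0_3, E0_4, E0_5, E0_6, E0_7, E0_8, E0_9, E0_10, E0_11, E0_12, E0_13]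
  ring

theorem relE2346_12 :
    ((U0 t (t 7 • (E 0))) - (U1 t (t 6 • (E 0) - U5 t (E 0))) + (t 5 • (U3 t (E 0)) - U4 t (U3 t (E 0))) : Fin 14 → R) 12 = 0 := by
  simp only [Pi.add_apply, Pi.sub_apply, Pi.smul_apply, Pi.neg_apply, smul_eq_mul, U0_0, U0_1, U0_2, U0_3, U0_4, U0_5, U0_6, U0_7, U0_8, U0_9, U0_10, U0_11, U0_12, U0_13, U1_0, U1_1, U1_2, U1_3, U1_4, U1_5, U1_6, U1_7, U1_8, U1_9, U1_10, U1_11, U1_12, U1_13, U3_0, U3_1, U3_2, U3_3, U3_4, U3_5, U3_6, U3_7, U3_8, U3_9, U3_10, U3_11, U3_12, U3_13, U4_0, U4_1, U4_2, U4_3, U4_4, U4_5, U4_6, U4_7, U4_8, U4_9, U4_10, U4_11, U4_12, U4_13, U5_0, U5_1, U5_2, U5_3, U5_4, U5_5, U5_6, U5_7, U5_8, U5_9, U5_10, U5_11, U5_12, U5_13, E0_0, E0_1, E0_2, E0_3, E0_4, E0_5, E0_6, E0_7, E0_8, E0_9, E0_10, E0_11, E0_12, E0_13]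
  ring

theorem relE2346_13 :
    ((U0 t (t 7 • (E 0))) - (U1 t (t 6 • (E 0) - U5 t (E 0))) + (t 5 • (U3 t (E 0)) - U4 t (U3 t (E 0))) : Fin 14 → R) 13 = 0 := by
  simp only [Pi.add_apply, Pi.sub_apply, Pi.smul_apply, Pi.neg_apply, smul_eq_mul, U0_0, U0_1, U0_2, U0_3, U0_4, U0_5, U0_6, U0_7, U0_8, U0_9, U0_10, U0_11, U0_12, U0_13, U1_0, U1_1, U1_2, U1_3, U1_4, U1_5, U1_6, U1_7, U1_8, U1_9, U1_10, U1_11, U1_12, U1_13, U3_0, U3_1, U3_2, U3_3, U3_4, U3_5, U3_6, U3_7, U3_8, U3_9, U3_10, U3_11, U3_12, U3_13, U4_0, U4_1, U4_2, U4_3, U4_4, U4_5, U4_6, U4_7, U4_8, U4_9, U4_10, U4_11, U4_12, U4_13, U5_0, U5_1, U5_2, U5_3, U5_4, U5_5, U5_6, U5_7, U5_8, U5_9, U5_10, U5_11, U5_12, U5_13, E0_0, E0_1, E0_2, E0_3, E0_4, E0_5, E0_6, E0_7, E0_8, E0_9, E0_10, E0_11, E0_12, E0_13]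
  ring

theorem relE2346 :
    ((U0 t (t 7 • (E 0))) - (U1 t (t 6 • (E 0) - U5 t (E 0))) + (t 5 • (U3 t (E 0)) - U4 t (U3 t (E 0))) : Fin 14 → R) = 0 := by
  refine funext fun i => ?_
  fin_cases i
  exacts [relE2346_0 t, relE2346_1 t, relE2346_2 t, relE2346_3 t, relE2346_4 t, relE2346_5 t, relE2346_6 t, relE2346_7 t, relE2346_8 t, relE2346_9 t, relE2346_10 t, relE2346_11 t, relE2346_12 t, relE2346_13 t]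

theorem relC2346 : UC t 0 * tC t 7 - UC t 1 * (tC t 6 - UC t 5) + (tC t 5 - UC t 4) * UC t 3 = 0 :=
  cyc t _ (relE2346 t)

theorem relE2356_0 :
    ((U0 t (t 8 • (E 0))) - (U2 t (t 6 • (E 0) - U5 t (E 0))) + (t 5 • (U4 t (E 0)) - U4 t (U4 t (E 0))) : Fin 14 → R) 0 = 0 := by
  simp only [Pi.add_apply, Pi.sub_apply, Pi.smul_apply, Pi.neg_apply, smul_eq_mul, U0_0, U0_1, U0_2, U0_3, U0_4, U0_5, U0_6, U0_7, U0_8, U0_9, U0_10, U0_11, U0_12, U0_13, U2_0, U2_1, U2_2, U2_3, U2_4, U2_5, U2_6, U2_7, U2_8, U2_9, U2_10, U2_11, U2_12, U2_13, U4_0, U4_1, U4_2, U4_3, U4_4, U4_5, U4_6, U4_7, U4_8, U4_9, U4_10, U4_11, U4_12, U4_13, U5_0, U5_1, U5_2, U5_3, U5_4, U5_5, U5_6, U5_7, U5_8, U5_9, U5_10, U5_11, U5_12, U5_13, E0_0, E0_1, E0_2, E0_3, E0_4, E0_5, E0_6, E0_7, E0_8, E0_9, E0_10, E0_11, E0_12,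 E0_13]
  ring

theorem relE2356_1 :
    ((U0 t (t 8 • (E 0))) - (U2 t (t 6 • (E 0) - U5 t (E 0))) + (t 5 • (U4 t (E 0)) - U4 t (U4 t (E 0))) : Fin 14 → R) 1 = 0 := by
  simp only [Pi.add_apply, Pi.sub_apply, Pi.smul_apply, Pi.neg_apply, smul_eq_mul, U0_0, U0_1, U0_2, U0_3, U0_4, U0_5, U0_6, U0_7, U0_8, U0_9, U0_10, U0_11, U0_12, U0_13, U2_0, U2_1, U2_2, U2_3, U2_4, U2_5, U2_6, U2_7, U2_8, U2_9, U2_10, U2_11, U2_12, U2_13, U4_0, U4_1, U4_2, U4_3, U4_4, U4_5, U4_6, U4_7, U4_8, U4_9, U4_10, U4_11, U4_12, U4_13, U5_0, U5_1, U5_2, U5_3, U5_4, U5_5, U5_6, U5_7, U5_8, U5_9, U5_10, U5_11, U5_12, U5_13, E0_0, E0_1, E0_2, E0_3, E0_4, E0_5, E0_6, E0_7, E0_8, E0_9, E0_10, E0_11, E0_12, E0_13]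
  ring

theorem relE2356_2 :
    ((U0 t (t 8 • (E 0))) - (U2 t (t 6 • (E 0) - U5 t (E 0))) + (t 5 • (U4 t (E 0)) - U4 t (U4 t (E 0))) : Fin 14 → R) 2 = 0 := by
  simp only [Pi.add_apply, Pi.sub_apply, Pi.smul_apply, Pi.neg_apply, smul_eq_mul, U0_0, U0_1, U0_2, U0_3, U0_4, U0_5, U0_6, U0_7, U0_8, U0_9, U0_10, U0_11, U0_12, U0_13, U2_0, U2_1, U2_2, U2_3, U2_4, U2_5, U2_6, U2_7, U2_8, U2_9, U2_10, U2_11, U2_12, U2_13, U4_0, U4_1, U4_2, U4_3, U4_4, U4_5, U4_6, U4_7, U4_8, U4_9, U4_10, U4_11, U4_12, U4_13, U5_0, U5_1, U5_2, U5_3, U5_4, U5_5, U5_6, U5_7, U5_8, U5_9, U5_10, U5_11, U5_12, U5_13, E0_0, E0_1, E0_2, E0_3, E0_4, E0_5, E0_6, E0_7, E0_8, E0_9, E0_10, E0_11, E0_12, E0_13]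
  ring

theorem relE2356_3 :
    ((U0 t (t 8 • (E 0))) - (U2 t (t 6 • (E 0) - U5 t (E 0))) + (t 5 • (U4 t (E 0)) - U4 t (U4 t (E 0))) : Fin 14 → R) 3 = 0 := by
  simp only [Pi.add_apply, Pi.sub_apply, Pi.smul_apply, Pi.neg_apply, smul_eq_mul, U0_0, U0_1, U0_2, U0_3, U0_4, U0_5, U0_6, U0_7, U0_8, U0_9, U0_10, U0_11, U0_12, U0_13, U2_0, U2_1, U2_2, U2_3, U2_4, U2_5, U2_6, U2_7, U2_8, U2_9, U2_10, U2_11, U2_12, U2_13, U4_0, U4_1, U4_2, U4_3, U4_4, U4_5, U4_6, U4_7, U4_8, U4_9, U4_10, U4_11, U4_12, U4_13, U5_0, U5_1, U5_2, U5_3, U5_4, U5_5, U5_6, U5_7, U5_8, U5_9, U5_10, U5_11, U5_12, U5_13, E0_0, E0_1, E0_2, E0_3, E0_4, E0_5, E0_6, E0_7, E0_8, E0_9, E0_10, E0_11, E0_12, E0_13]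
  ring

theorem relE2356_4 :
    ((U0 t (t 8 • (E 0))) - (U2 t (t 6 • (E 0) - U5 t (E 0))) + (t 5 • (U4 t (E 0)) - U4 t (U4 t (E 0))) : Fin 14 → R) 4 = 0 := by
  simp only [Pi.add_apply, Pi.sub_apply, Pi.smul_apply, Pi.neg_apply, smul_eq_mul, U0_0, U0_1, U0_2, U0_3, U0_4, U0_5, U0_6, U0_7, U0_8, U0_9, U0_10, U0_11, U0_12, U0_13, U2_0, U2_1, U2_2, U2_3, U2_4, U2_5, U2_6, U2_7, U2_8, U2_9, U2_10, U2_11, U2_12, U2_13, U4_0, U4_1, U4_2, U4_3, U4_4, U4_5, U4_6, U4_7, U4_8, U4_9, U4_10, U4_11, U4_12, U4_13, U5_0, U5_1, U5_2, U5_3, U5_4, U5_5, U5_6, U5_7, U5_8, U5_9, U5_10, U5_11, U5_12, U5_13, E0_0, E0_1, E0_2, E0_3, E0_4, E0_5, E0_6, E0_7, E0_8, E0_9, E0_10, E0_11, E0_12, E0_13]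
  ring

theorem relE2356_5 :
    ((U0 t (t 8 • (E 0))) - (U2 t (t 6 • (E 0) - U5 t (E 0))) + (t 5 • (U4 t (E 0)) - U4 t (U4 t (E 0))) : Fin 14 → R) 5 = 0 := by
  simp only [Pi.add_apply, Pi.sub_apply, Pi.smul_apply, Pi.neg_apply, smul_eq_mul, U0_0, U0_1, U0_2, U0_3, U0_4, U0_5, U0_6, U0_7, U0_8, U0_9, U0_10, U0_11, U0_12, U0_13, U2_0, U2_1, U2_2, U2_3, U2_4, U2_5, U2_6, U2_7, U2_8, U2_9, U2_10, U2_11, U2_12, U2_13, U4_0, U4_1, U4_2, U4_3, U4_4, U4_5, U4_6, U4_7, U4_8, U4_9, U4_10, U4_11, U4_12, U4_13, U5_0, U5_1, U5_2, U5_3, U5_4, U5_5, U5_6, U5_7, U5_8, U5_9, U5_10, U5_11, U5_12, U5_13, E0_0, E0_1, E0_2, E0_3, E0_4, E0_5, E0_6, E0_7, E0_8, E0_9, E0_10, E0_11, E0_12, E0_13]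
  ring

theorem relE2356_6 :
    ((U0 t (t 8 • (E 0))) - (U2 t (t 6 • (E 0) - U5 t (E 0))) + (t 5 • (U4 t (E 0)) - U4 t (U4 t (E 0))) : Fin 14 → R) 6 = 0 := by
  simp only [Pi.add_apply, Pi.sub_apply, Pi.smul_apply, Pi.neg_apply, smul_eq_mul, U0_0, U0_1, U0_2, U0_3, U0_4, U0_5, U0_6, U0_7, U0_8, U0_9, U0_10, U0_11, U0_12, U0_13, U2_0, U2_1, U2_2, U2_3, U2_4, U2_5, U2_6, U2_7, U2_8, U2_9, U2_10, U2_11, U2_12, U2_13, U4_0, U4_1, U4_2, U4_3, U4_4, U4_5, U4_6, U4_7, U4_8, U4_9, U4_10, U4_11, U4_12, U4_13, U5_0, U5_1, U5_2, U5_3, U5_4, U5_5, U5_6, U5_7, U5_8, U5_9, U5_10, U5_11, U5_12, U5_13, E0_0, E0_1, E0_2, E0_3, E0_4, E0_5, E0_6, E0_7, E0_8, E0_9, E0_10, E0_11, E0_12, E0_13]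
  ring

theorem relE2356_7 :
    ((U0 t (t 8 • (E 0))) - (U2 t (t 6 • (E 0) - U5 t (E 0))) + (t 5 • (U4 t (E 0)) - U4 t (U4 t (E 0))) : Fin 14 → R) 7 = 0 := by
  simp only [Pi.add_apply, Pi.sub_apply, Pi.smul_apply, Pi.neg_apply, smul_eq_mul, U0_0, U0_1, U0_2, U0_3, U0_4, U0_5, U0_6, U0_7, U0_8, U0_9, U0_10, U0_11, U0_12, U0_13, U2_0, U2_1, U2_2, U2_3, U2_4, U2_5, U2_6, U2_7, U2_8, U2_9, U2_10, U2_11, U2_12, U2_13, U4_0, U4_1, U4_2, U4_3, U4_4, U4_5, U4_6, U4_7, U4_8, U4_9, U4_10, U4_11, U4_12, U4_13, U5_0, U5_1, U5_2, U5_3, U5_4, U5_5, U5_6, U5_7, U5_8, U5_9, U5_10, U5_11, U5_12, U5_13, E0_0, E0_1, E0_2, E0_3, E0_4, E0_5, E0_6, E0_7, E0_8, E0_9, E0_10, E0_11, E0_12, E0_13]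
  ring

theorem relE2356_8 :
    ((U0 t (t 8 • (E 0))) - (U2 t (t 6 • (E 0) - U5 t (E 0))) + (t 5 • (U4 t (E 0)) - U4 t (U4 t (E 0))) : Fin 14 → R) 8 = 0 := by
  simp only [Pi.add_apply, Pi.sub_apply, Pi.smul_apply, Pi.neg_apply, smul_eq_mul, U0_0, U0_1, U0_2, U0_3, U0_4, U0_5, U0_6, U0_7, U0_8, U0_9, U0_10, U0_11, U0_12, U0_13, U2_0, U2_1, U2_2, U2_3, U2_4, U2_5, U2_6, U2_7, U2_8, U2_9, U2_10, U2_11, U2_12, U2_13, U4_0, U4_1, U4_2, U4_3, U4_4, U4_5, U4_6, U4_7, U4_8, U4_9, U4_10, U4_11, U4_12, U4_13, U5_0, U5_1, U5_2, U5_3, U5_4, U5_5, U5_6, U5_7, U5_8, U5_9, U5_10, U5_11, U5_12, U5_13, E0_0, E0_1, E0_2, E0_3, E0_4, E0_5, E0_6, E0_7, E0_8, E0_9, E0_10, E0_11, E0_12, E0_13]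
  ring

theorem relE2356_9 :
    ((U0 t (t 8 • (E 0))) - (U2 t (t 6 • (E 0) - U5 t (E 0))) + (t 5 • (U4 t (E 0)) - U4 t (U4 t (E 0))) : Fin 14 → R) 9 = 0 := by
  simp only [Pi.add_apply, Pi.sub_apply, Pi.smul_apply, Pi.neg_apply, smul_eq_mul, U0_0, U0_1, U0_2, U0_3, U0_4, U0_5, U0_6, U0_7, U0_8, U0_9, U0_10, U0_11, U0_12, U0_13, U2_0, U2_1, U2_2, U2_3, U2_4, U2_5, U2_6, U2_7, U2_8, U2_9, U2_10, U2_11, U2_12, U2_13, U4_0, U4_1, U4_2, U4_3, U4_4, U4_5, U4_6, U4_7, U4_8, U4_9, U4_10, U4_11, U4_12, U4_13, U5_0, U5_1, U5_2, U5_3, U5_4, U5_5, U5_6, U5_7, U5_8, U5_9, U5_10, U5_11, U5_12, U5_13, E0_0, E0_1, E0_2, E0_3, E0_4, E0_5, E0_6, E0_7, E0_8, E0_9, E0_10, E0_11, E0_12, E0_13]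
  ring

theorem relE2356_10 :
    ((U0 t (t 8 • (E 0))) - (U2 t (t 6 • (E 0) - U5 t (E 0))) + (t 5 • (U4 t (E 0)) - U4 t (U4 t (E 0))) : Fin 14 → R) 10 = 0 := by
  simp only [Pi.add_apply, Pi.sub_apply, Pi.smul_apply, Pi.neg_apply, smul_eq_mul, U0_0, U0_1, U0_2, U0_3, U0_4, U0_5, U0_6, U0_7, U0_8, U0_9, U0_10, U0_11, U0_12, U0_13, U2_0, U2_1, U2_2, U2_3, U2_4, U2_5, U2_6, U2_7, U2_8, U2_9, U2_10, U2_11, U2_12, U2_13, U4_0, U4_1, U4_2, U4_3, U4_4, U4_5, U4_6, U4_7, U4_8, U4_9, U4_10, U4_11, U4_12, U4_13, U5_0, U5_1, U5_2, U5_3, U5_4, U5_5, U5_6, U5_7, U5_8, U5_9, U5_10, U5_11, U5_12, U5_13, E0_0, E0_1, E0_2, E0_3, E0_4, E0_5, E0_6, E0_7, E0_8, E0_9, E0_10, E0_11, E0_12, E0_13]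
  ring

theorem relE2356_11 :
    ((U0 t (t 8 • (E 0))) - (U2 t (t 6 • (E 0) - U5 t (E 0))) + (t 5 • (U4 t (E 0)) - U4 t (U4 t (E 0))) : Fin 14 → R) 11 = 0 := by
  simp only [Pi.add_apply, Pi.sub_apply, Pi.smul_apply, Pi.neg_apply, smul_eq_mul, U0_0, U0_1, U0_2, U0_3, U0_4, U0_5, U0_6, U0_7, U0_8, U0_9, U0_10, U0_11, U0_12, U0_13, U2_0, U2_1, U2_2, U2_3, U2_4, U2_5, U2_6, U2_7, U2_8, U2_9, U2_10, U2_11, U2_12, U2_13, U4_0, U4_1, U4_2, U4_3, U4_4, U4_5, U4_6, U4_7, U4_8, U4_9, U4_10, U4_11, U4_12, U4_13, U5_0, U5_1, U5_2, U5_3, U5_4, U5_5, U5_6, U5_7, U5_8, U5_9, U5_10, U5_11, U5_12, U5_13, E0_0, E0_1, E0_2, E0_3, E0_4, E0_5, E0_6, E0_7, E0_8, E0_9, E0_10, E0_11, E0_12, E0_13]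
  ring

theorem relE2356_12 :
    ((U0 t (t 8 • (E 0))) - (U2 t (t 6 • (E 0) - U5 t (E 0))) + (t 5 • (U4 t (E 0)) - U4 t (U4 t (E 0))) : Fin 14 → R) 12 = 0 := by
  simp only [Pi.add_apply, Pi.sub_apply, Pi.smul_apply, Pi.neg_apply, smul_eq_mul, U0_0, U0_1, U0_2, U0_3, U0_4, U0_5, U0_6, U0_7, U0_8, U0_9, U0_10, U0_11, U0_12, U0_13, U2_0, U2_1, U2_2, U2_3, U2_4, U2_5, U2_6, U2_7, U2_8, U2_9, U2_10, U2_11, U2_12, U2_13, U4_0, U4_1, U4_2, U4_3, U4_4, U4_5, U4_6, U4_7, U4_8, U4_9, U4_10, U4_11, U4_12, U4_13, U5_0, U5_1, U5_2, U5_3, U5_4, U5_5, U5_6, U5_7, U5_8, U5_9, U5_10, U5_11, U5_12, U5_13, E0_0, E0_1, E0_2, E0_3, E0_4, E0_5, E0_6, E0_7, E0_8, E0_9, E0_10, E0_11, E0_12, E0_13]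
  ring

theorem relE2356_13 :
    ((U0 t (t 8 • (E 0))) - (U2 t (t 6 • (E 0) - U5 t (E 0))) + (t 5 • (U4 t (E 0)) - U4 t (U4 t (E 0))) : Fin 14 → R) 13 = 0 := by
  simp only [Pi.add_apply, Pi.sub_apply, Pi.smul_apply, Pi.neg_apply, smul_eq_mul, U0_0, U0_1, U0_2, U0_3, U0_4, U0_5, U0_6, U0_7, U0_8, U0_9, U0_10, U0_11, U0_12, U0_13, U2_0, U2_1, U2_2, U2_3, U2_4, U2_5, U2_6, U2_7, U2_8, U2_9, U2_10, U2_11, U2_12, U2_13, U4_0, U4_1, U4_2, U4_3, U4_4, U4_5, U4_6, U4_7, U4_8, U4_9, U4_10, U4_11, U4_12, U4_13, U5_0, U5_1, U5_2, U5_3, U5_4, U5_5, U5_6, U5_7, U5_8, U5_9, U5_10, U5_11, U5_12, U5_13, E0_0, E0_1, E0_2, E0_3, E0_4, E0_5, E0_6, E0_7, E0_8, E0_9, E0_10, E0_11, E0_12, E0_13]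
  ring

theorem relE2356 :
    ((U0 t (t 8 • (E 0))) - (U2 t (t 6 • (E 0) - U5 t (E 0))) + (t 5 • (U4 t (E 0)) - U4 t (U4 t (E 0))) : Fin 14 → R) = 0 := by
  refine funext fun i => ?_
  fin_cases i
  exacts [relE2356_0 t, relE2356_1 t, relE2356_2 t, relE2356_3 t, relE2356_4 t, relE2356_5 t, relE2356_6 t, relE2356_7 t, relE2356_8 t, relE2356_9 t, relE2356_10 t, relE2356_11 t, relE2356_12 t, relE2356_13 t]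

theorem relC2356 : UC t 0 * tC t 8 - UC t 2 * (tC t 6 - UC t 5) + (tC t 5 - UC t 4) * UC t 4 = 0 :=
  cyc t _ (relE2356 t)

theorem relE2456_0 :
    ((U1 t (t 8 • (E 0))) - (U2 t (t 7 • (E 0))) + (t 5 • (U5 t (E 0)) - U4 t (U5 t (E 0))) : Fin 14 → R) 0 = 0 := by
  simp only [Pi.add_apply, Pi.sub_apply, Pi.smul_apply, Pi.neg_apply, smul_eq_mul, U1_0, U1_1, U1_2, U1_3, U1_4, U1_5, U1_6, U1_7, U1_8, U1_9, U1_10, U1_11, U1_12, U1_13, U2_0, U2_1, U2_2, U2_3, U2_4, U2_5, U2_6, U2_7, U2_8, U2_9, U2_10, U2_11, U2_12, U2_13, U4_0, U4_1, U4_2, U4_3, U4_4, U4_5, U4_6, U4_7, U4_8, U4_9, U4_10, U4_11, U4_12, U4_13, U5_0, U5_1, U5_2, U5_3, U5_4, U5_5, U5_6, U5_7, U5_8, U5_9, U5_10, U5_11, U5_12, U5_13, E0_0, E0_1, E0_2, E0_3, E0_4, E0_5, E0_6, E0_7, E0_8, E0_9, E0_10, E0_11, E0_12, E0_13]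
  ring

theorem relE2456_1 :
    ((U1 t (t 8 • (E 0))) - (U2 t (t 7 • (E 0))) + (t 5 • (U5 t (E 0)) - U4 t (U5 t (E 0))) : Fin 14 → R) 1 = 0 := by
  simp only [Pi.add_apply, Pi.sub_apply, Pi.smul_apply, Pi.neg_apply, smul_eq_mul, U1_0, U1_1, U1_2, U1_3, U1_4, U1_5, U1_6, U1_7, U1_8, U1_9, U1_10, U1_11, U1_12, U1_13, U2_0, U2_1, U2_2, U2_3, U2_4, U2_5, U2_6, U2_7, U2_8, U2_9, U2_10, U2_11, U2_12, U2_13, U4_0, U4_1, U4_2, U4_3, U4_4, U4_5, U4_6, U4_7, U4_8, U4_9, U4_10, U4_11, U4_12, U4_13, U5_0, U5_1, U5_2, U5_3, U5_4, U5_5, U5_6, U5_7, U5_8, U5_9, U5_10, U5_11, U5_12, U5_13, E0_0, E0_1, E0_2, E0_3, E0_4, E0_5, E0_6, E0_7, E0_8, E0_9, E0_10, E0_11, E0_12, E0_13]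
  ring

theorem relE2456_2 :
    ((U1 t (t 8 • (E 0))) - (U2 t (t 7 • (E 0))) + (t 5 • (U5 t (E 0)) - U4 t (U5 t (E 0))) : Fin 14 → R) 2 = 0 := by
  simp only [Pi.add_apply, Pi.sub_apply, Pi.smul_apply, Pi.neg_apply, smul_eq_mul, U1_0, U1_1, U1_2, U1_3, U1_4, U1_5, U1_6, U1_7, U1_8, U1_9, U1_10, U1_11, U1_12, U1_13, U2_0, U2_1, U2_2, U2_3, U2_4, U2_5, U2_6, U2_7, U2_8, U2_9, U2_10, U2_11, U2_12, U2_13, U4_0, U4_1, U4_2, U4_3, U4_4, U4_5, U4_6, U4_7, U4_8, U4_9, U4_10, U4_11, U4_12, U4_13, U5_0, U5_1, U5_2, U5_3, U5_4, U5_5, U5_6, U5_7, U5_8, U5_9, U5_10, U5_11, U5_12, U5_13, E0_0, E0_1, E0_2, E0_3, E0_4, E0_5, E0_6, E0_7, E0_8, E0_9, E0_10, E0_11, E0_12, E0_13]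
  ring

theorem relE2456_3 :
    ((U1 t (t 8 • (E 0))) - (U2 t (t 7 • (E 0))) + (t 5 • (U5 t (E 0)) - U4 t (U5 t (E 0))) : Fin 14 → R) 3 = 0 := by
  simp only [Pi.add_apply, Pi.sub_apply, Pi.smul_apply, Pi.neg_apply, smul_eq_mul, U1_0, U1_1, U1_2, U1_3, U1_4, U1_5, U1_6, U1_7, U1_8, U1_9, U1_10, U1_11, U1_12, U1_13, U2_0, U2_1, U2_2, U2_3, U2_4, U2_5, U2_6, U2_7, U2_8, U2_9, U2_10, U2_11, U2_12, U2_13, U4_0, U4_1, U4_2, U4_3, U4_4, U4_5, U4_6, U4_7, U4_8, U4_9, U4_10, U4_11, U4_12, U4_13, U5_0, U5_1, U5_2, U5_3, U5_4, U5_5, U5_6, U5_7, U5_8, U5_9, U5_10, U5_11, U5_12, U5_13, E0_0, E0_1, E0_2, E0_3, E0_4, E0_5, E0_6, E0_7, E0_8, E0_9, E0_10, E0_11, E0_12, E0_13]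
  ring

theorem relE2456_4 :
    ((U1 t (t 8 • (E 0))) - (U2 t (t 7 • (E 0))) + (t 5 • (U5 t (E 0)) - U4 t (U5 t (E 0))) : Fin 14 → R) 4 = 0 := by
  simp only [Pi.add_apply, Pi.sub_apply, Pi.smul_apply, Pi.neg_apply, smul_eq_mul, U1_0, U1_1, U1_2, U1_3, U1_4, U1_5, U1_6, U1_7, U1_8, U1_9, U1_10, U1_11, U1_12, U1_13, U2_0, U2_1, U2_2, U2_3, U2_4, U2_5, U2_6, U2_7, U2_8, U2_9, U2_10, U2_11, U2_12, U2_13, U4_0, U4_1, U4_2, U4_3, U4_4, U4_5, U4_6, U4_7, U4_8, U4_9, U4_10, U4_11, U4_12, U4_13, U5_0, U5_1, U5_2, U5_3, U5_4, U5_5, U5_6, U5_7, U5_8, U5_9, U5_10, U5_11, U5_12, U5_13, E0_0, E0_1, E0_2, E0_3, E0_4, E0_5, E0_6, E0_7, E0_8, E0_9, E0_10, E0_11, E0_12, E0_13]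
  ring

theorem relE2456_5 :
    ((U1 t (t 8 • (E 0))) - (U2 t (t 7 • (E 0))) + (t 5 • (U5 t (E 0)) - U4 t (U5 t (E 0))) : Fin 14 → R) 5 = 0 := by
  simp only [Pi.add_apply, Pi.sub_apply, Pi.smul_apply, Pi.neg_apply, smul_eq_mul, U1_0, U1_1, U1_2, U1_3, U1_4, U1_5, U1_6, U1_7, U1_8, U1_9, U1_10, U1_11, U1_12, U1_13, U2_0, U2_1, U2_2, U2_3, U2_4, U2_5, U2_6, U2_7, U2_8, U2_9, U2_10, U2_11, U2_12, U2_13, U4_0, U4_1, U4_2, U4_3, U4_4, U4_5, U4_6, U4_7, U4_8, U4_9, U4_10, U4_11, U4_12, U4_13, U5_0, U5_1, U5_2, U5_3, U5_4, U5_5, U5_6, U5_7, U5_8, U5_9, U5_10, U5_11, U5_12, U5_13, E0_0, E0_1, E0_2, E0_3, E0_4, E0_5, E0_6, E0_7, E0_8, E0_9, E0_10, E0_11, E0_12, E0_13]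
  ring

theorem relE2456_6 :
    ((U1 t (t 8 • (E 0))) - (U2 t (t 7 • (E 0))) + (t 5 • (U5 t (E 0)) - U4 t (U5 t (E 0))) : Fin 14 → R) 6 = 0 := by
  simp only [Pi.add_apply, Pi.sub_apply, Pi.smul_apply, Pi.neg_apply, smul_eq_mul, U1_0, U1_1, U1_2, U1_3, U1_4, U1_5, U1_6, U1_7, U1_8, U1_9, U1_10, U1_11, U1_12, U1_13, U2_0, U2_1, U2_2, U2_3, U2_4, U2_5, U2_6, U2_7, U2_8, U2_9, U2_10, U2_11, U2_12, U2_13, U4_0, U4_1, U4_2, U4_3, U4_4, U4_5, U4_6, U4_7, U4_8, U4_9, U4_10, U4_11, U4_12, U4_13, U5_0, U5_1, U5_2, U5_3, U5_4, U5_5, U5_6, U5_7, U5_8, U5_9, U5_10, U5_11, U5_12, U5_13, E0_0, E0_1, E0_2, E0_3, E0_4, E0_5, E0_6, E0_7, E0_8, E0_9, E0_10, E0_11, E0_12, E0_13]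
  ring

theorem relE2456_7 :
    ((U1 t (t 8 • (E 0))) - (U2 t (t 7 • (E 0))) + (t 5 • (U5 t (E 0)) - U4 t (U5 t (E 0))) : Fin 14 → R) 7 = 0 := by
  simp only [Pi.add_apply, Pi.sub_apply, Pi.smul_apply, Pi.neg_apply, smul_eq_mul, U1_0, U1_1, U1_2, U1_3, U1_4, U1_5, U1_6, U1_7, U1_8, U1_9, U1_10, U1_11, U1_12, U1_13, U2_0, U2_1, U2_2, U2_3, U2_4, U2_5, U2_6, U2_7, U2_8, U2_9, U2_10, U2_11, U2_12, U2_13, U4_0, U4_1, U4_2, U4_3, U4_4, U4_5, U4_6, U4_7, U4_8, U4_9, U4_10, U4_11, U4_12, U4_13, U5_0, U5_1, U5_2, U5_3, U5_4, U5_5, U5_6, U5_7, U5_8, U5_9, U5_10, U5_11, U5_12, U5_13, E0_0, E0_1, E0_2, E0_3, E0_4, E0_5, E0_6, E0_7, E0_8, E0_9, E0_10, E0_11, E0_12, E0_13]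
  ring

theorem relE2456_8 :
    ((U1 t (t 8 • (E 0))) - (U2 t (t 7 • (E 0))) + (t 5 • (U5 t (E 0)) - U4 t (U5 t (E 0))) : Fin 14 → R) 8 = 0 := by
  simp only [Pi.add_apply, Pi.sub_apply, Pi.smul_apply, Pi.neg_apply, smul_eq_mul, U1_0, U1_1, U1_2, U1_3, U1_4, U1_5, U1_6, U1_7, U1_8, U1_9, U1_10, U1_11, U1_12, U1_13, U2_0, U2_1, U2_2, U2_3, U2_4, U2_5, U2_6, U2_7, U2_8, U2_9, U2_10, U2_11, U2_12, U2_13, U4_0, U4_1, U4_2, U4_3, U4_4, U4_5, U4_6, U4_7, U4_8, U4_9, U4_10, U4_11, U4_12, U4_13, U5_0, U5_1, U5_2, U5_3, U5_4, U5_5, U5_6, U5_7, U5_8, U5_9, U5_10, U5_11, U5_12, U5_13, E0_0, E0_1, E0_2, E0_3, E0_4, E0_5, E0_6, E0_7, E0_8, E0_9, E0_10, E0_11, E0_12, E0_13]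
  ring

theorem relE2456_9 :
    ((U1 t (t 8 • (E 0))) - (U2 t (t 7 • (E 0))) + (t 5 • (U5 t (E 0)) - U4 t (U5 t (E 0))) : Fin 14 → R) 9 = 0 := by
  simp only [Pi.add_apply, Pi.sub_apply, Pi.smul_apply, Pi.neg_apply, smul_eq_mul, U1_0, U1_1, U1_2, U1_3, U1_4, U1_5, U1_6, U1_7, U1_8, U1_9, U1_10, U1_11, U1_12, U1_13, U2_0, U2_1, U2_2, U2_3, U2_4, U2_5, U2_6, U2_7, U2_8, U2_9, U2_10, U2_11, U2_12, U2_13, U4_0, U4_1, U4_2, U4_3, U4_4, U4_5, U4_6, U4_7, U4_8, U4_9, U4_10, U4_11, U4_12, U4_13, U5_0, U5_1, U5_2, U5_3, U5_4, U5_5, U5_6, U5_7, U5_8, U5_9, U5_10, U5_11, U5_12, U5_13, E0_0, E0_1, E0_2, E0_3, E0_4, E0_5, E0_6, E0_7, E0_8, E0_9, E0_10, E0_11, E0_12, E0_13]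
  ring

theorem relE2456_10 :
    ((U1 t (t 8 • (E 0))) - (U2 t (t 7 • (E 0))) + (t 5 • (U5 t (E 0)) - U4 t (U5 t (E 0))) : Fin 14 → R) 10 = 0 := by
  simp only [Pi.add_apply, Pi.sub_apply, Pi.smul_apply, Pi.neg_apply, smul_eq_mul, U1_0, U1_1, U1_2, U1_3, U1_4, U1_5, U1_6, U1_7, U1_8, U1_9, U1_10, U1_11, U1_12, U1_13, U2_0, U2_1, U2_2, U2_3, U2_4, U2_5, U2_6, U2_7, U2_8, U2_9, U2_10, U2_11, U2_12, U2_13, U4_0, U4_1, U4_2, U4_3, U4_4, U4_5, U4_6, U4_7, U4_8, U4_9, U4_10, U4_11, U4_12, U4_13, U5_0, U5_1, U5_2, U5_3, U5_4, U5_5, U5_6, U5_7, U5_8, U5_9, U5_10, U5_11, U5_12, U5_13, E0_0, E0_1, E0_2, E0_3, E0_4, E0_5, E0_6, E0_7, E0_8, E0_9, E0_10, E0_11, E0_12, E0_13]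
  ring

theorem relE2456_11 :
    ((U1 t (t 8 • (E 0))) - (U2 t (t 7 • (E 0))) + (t 5 • (U5 t (E 0)) - U4 t (U5 t (E 0))) : Fin 14 → R) 11 = 0 := by
  simp only [Pi.add_apply, Pi.sub_apply, Pi.smul_apply, Pi.neg_apply, smul_eq_mul, U1_0, U1_1, U1_2, U1_3, U1_4, U1_5, U1_6, U1_7, U1_8, U1_9, U1_10, U1_11, U1_12, U1_13, U2_0, U2_1, U2_2, U2_3, U2_4, U2_5, U2_6, U2_7, U2_8, U2_9, U2_10, U2_11, U2_12, U2_13, U4_0, U4_1, U4_2, U4_3, U4_4, U4_5, U4_6, U4_7, U4_8, U4_9, U4_10, U4_11, U4_12, U4_13, U5_0, U5_1, U5_2, U5_3, U5_4, U5_5, U5_6, U5_7, U5_8, U5_9, U5_10, U5_11, U5_12, U5_13, E0_0, E0_1, E0_2, E0_3, E0_4, E0_5, E0_6, E0_7, E0_8, E0_9, E0_10, E0_11, E0_12, E0_13]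
  ring

theorem relE2456_12 :
    ((U1 t (t 8 • (E 0))) - (U2 t (t 7 • (E 0))) + (t 5 • (U5 t (E 0)) - U4 t (U5 t (E 0))) : Fin 14 → R) 12 = 0 := by
  simp only [Pi.add_apply, Pi.sub_apply, Pi.smul_apply, Pi.neg_apply, smul_eq_mul, U1_0, U1_1, U1_2, U1_3, U1_4, U1_5, U1_6, U1_7, U1_8, U1_9, U1_10, U1_11, U1_12, U1_13, U2_0, U2_1, U2_2, U2_3, U2_4, U2_5, U2_6, U2_7, U2_8, U2_9, U2_10, U2_11, U2_12, U2_13, U4_0, U4_1, U4_2, U4_3, U4_4, U4_5, U4_6, U4_7, U4_8, U4_9, U4_10, U4_11, U4_12, U4_13, U5_0, U5_1, U5_2, U5_3, U5_4, U5_5, U5_6, U5_7, U5_8, U5_9, U5_10, U5_11, U5_12, U5_13, E0_0, E0_1, E0_2, E0_3, E0_4, E0_5, E0_6, E0_7, E0_8, E0_9, E0_10, E0_11, E0_12, E0_13]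
  ring

theorem relE2456_13 :
    ((U1 t (t 8 • (E 0))) - (U2 t (t 7 • (E 0))) + (t 5 • (U5 t (E 0)) - U4 t (U5 t (E 0))) : Fin 14 → R) 13 = 0 := by
  simp only [Pi.add_apply, Pi.sub_apply, Pi.smul_apply, Pi.neg_apply, smul_eq_mul, U1_0, U1_1, U1_2, U1_3, U1_4, U1_5, U1_6, U1_7, U1_8, U1_9, U1_10, U1_11, U1_12, U1_13, U2_0, U2_1, U2_2, U2_3, U2_4, U2_5, U2_6, U2_7, U2_8, U2_9, U2_10, U2_11, U2_12, U2_13, U4_0, U4_1, U4_2, U4_3, U4_4, U4_5, U4_6, U4_7, U4_8, U4_9, U4_10, U4_11, U4_12, U4_13, U5_0, U5_1, U5_2, U5_3, U5_4, U5_5, U5_6, U5_7, U5_8, U5_9, U5_10, U5_11, U5_12, U5_13, E0_0, E0_1, E0_2, E0_3, E0_4, E0_5, E0_6, E0_7, E0_8, E0_9, E0_10, E0_11, E0_12, E0_13]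
  ring

theorem relE2456 :
    ((U1 t (t 8 • (E 0))) - (U2 t (t 7 • (E 0))) + (t 5 • (U5 t (E 0)) - U4 t (U5 t (E 0))) : Fin 14 → R) = 0 := by
  refine funext fun i => ?_
  fin_cases i
  exacts [relE2456_0 t, relE2456_1 t, relE2456_2 t, relE2456_3 t, relE2456_4 t, relE2456_5 t, relE2456_6 t, relE2456_7 t, relE2456_8 t, relE2456_9 t, relE2456_10 t, relE2456_11 t, relE2456_12 t, relE2456_13 t]

theorem relC2456 : UC t 1 * tC t 8 - UC t 2 * tC t 7 + (tC t 5 - UC t 4) * UC t 5 = 0 :=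
  cyc t _ (relE2456 t)

theorem relE3456_0 :
    ((U3 t (t 8 • (E 0))) - (U4 t (t 7 • (E 0))) + (t 6 • (U5 t (E 0)) - U5 t (U5 t (E 0))) : Fin 14 → R) 0 = 0 := by
  simp only [Pi.add_apply, Pi.sub_apply, Pi.smul_apply, Pi.neg_apply, smul_eq_mul, U3_0, U3_1, U3_2, U3_3, U3_4, U3_5, U3_6, U3_7, U3_8, U3_9, U3_10, U3_11, U3_12, U3_13, U4_0, U4_1, U4_2, U4_3, U4_4, U4_5, U4_6, U4_7, U4_8, U4_9, U4_10, U4_11, U4_12, U4_13, U5_0, U5_1, U5_2, U5_3, U5_4, U5_5, U5_6, U5_7, U5_8, U5_9, U5_10, U5_11, U5_12, U5_13, E0_0, E0_1, E0_2, E0_3, E0_4, E0_5, E0_6, E0_7, E0_8, E0_9, E0_10, E0_11, E0_12, E0_13]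
  ring

theorem relE3456_1 :
    ((U3 t (t 8 • (E 0))) - (U4 t (t 7 • (E 0))) + (t 6 • (U5 t (E 0)) - U5 t (U5 t (E 0))) : Fin 14 → R) 1 = 0 := by
  simp only [Pi.add_apply, Pi.sub_apply, Pi.smul_apply, Pi.neg_apply, smul_eq_mul, U3_0, U3_1, U3_2, U3_3, U3_4, U3_5, U3_6, U3_7, U3_8, U3_9, U3_10, U3_11, U3_12, U3_13, U4_0, U4_1, U4_2, U4_3, U4_4, U4_5, U4_6, U4_7, U4_8, U4_9, U4_10, U4_11, U4_12, U4_13, U5_0, U5_1, U5_2, U5_3, U5_4, U5_5, U5_6, U5_7, U5_8, U5_9, U5_10, U5_11, U5_12, U5_13, E0_0, E0_1, E0_2, E0_3, E0_4, E0_5, E0_6, E0_7, E0_8, E0_9, E0_10, E0_11, E0_12, E0_13]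
  ring

theorem relE3456_2 :
    ((U3 t (t 8 • (E 0))) - (U4 t (t 7 • (E 0))) + (t 6 • (U5 t (E 0)) - U5 t (U5 t (E 0))) : Fin 14 → R) 2 = 0 := by
  simp only [Pi.add_apply, Pi.sub_apply, Pi.smul_apply, Pi.neg_apply, smul_eq_mul, U3_0, U3_1, U3_2, U3_3, U3_4, U3_5, U3_6, U3_7, U3_8, U3_9, U3_10, U3_11, U3_12, U3_13, U4_0, U4_1, U4_2, U4_3, U4_4, U4_5, U4_6, U4_7, U4_8, U4_9, U4_10, U4_11, U4_12, U4_13, U5_0, U5_1, U5_2, U5_3, U5_4, U5_5, U5_6, U5_7, U5_8, U5_9, U5_10, U5_11, U5_12, U5_13, E0_0, E0_1, E0_2, E0_3, E0_4, E0_5, E0_6, E0_7, E0_8, E0_9, E0_10, E0_11, E0_12, E0_13]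
  ring

theorem relE3456_3 :
    ((U3 t (t 8 • (E 0))) - (U4 t (t 7 • (E 0))) + (t 6 • (U5 t (E 0)) - U5 t (U5 t (E 0))) : Fin 14 → R) 3 = 0 := by
  simp only [Pi.add_apply, Pi.sub_apply, Pi.smul_apply, Pi.neg_apply, smul_eq_mul, U3_0, U3_1, U3_2, U3_3, U3_4, U3_5, U3_6, U3_7, U3_8, U3_9, U3_10, U3_11, U3_12, U3_13, U4_0, U4_1, U4_2, U4_3, U4_4, U4_5, U4_6, U4_7, U4_8, U4_9, U4_10, U4_11, U4_12, U4_13, U5_0, U5_1, U5_2, U5_3, U5_4, U5_5, U5_6, U5_7, U5_8, U5_9, U5_10, U5_11, U5_12, U5_13, E0_0, E0_1, E0_2, E0_3, E0_4, E0_5, E0_6, E0_7, E0_8, E0_9, E0_10, E0_11, E0_12, E0_13]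
  ring

theorem relE3456_4 :
    ((U3 t (t 8 • (E 0))) - (U4 t (t 7 • (E 0))) + (t 6 • (U5 t (E 0)) - U5 t (U5 t (E 0))) : Fin 14 → R) 4 = 0 := by
  simp only [Pi.add_apply, Pi.sub_apply, Pi.smul_apply, Pi.neg_apply, smul_eq_mul, U3_0, U3_1, U3_2, U3_3, U3_4, U3_5, U3_6, U3_7, U3_8, U3_9, U3_10, U3_11, U3_12, U3_13, U4_0, U4_1, U4_2, U4_3, U4_4, U4_5, U4_6, U4_7, U4_8, U4_9, U4_10, U4_11, U4_12, U4_13, U5_0, U5_1, U5_2, U5_3, U5_4, U5_5, U5_6, U5_7, U5_8, U5_9, U5_10, U5_11, U5_12, U5_13, E0_0, E0_1, E0_2, E0_3, E0_4, E0_5, E0_6, E0_7, E0_8, E0_9, E0_10, E0_11, E0_12, E0_13]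
  ring

theorem relE3456_5 :
    ((U3 t (t 8 • (E 0))) - (U4 t (t 7 • (E 0))) + (t 6 • (U5 t (E 0)) - U5 t (U5 t (E 0))) : Fin 14 → R) 5 = 0 := by
  simp only [Pi.add_apply, Pi.sub_apply, Pi.smul_apply, Pi.neg_apply, smul_eq_mul, U3_0, U3_1, U3_2, U3_3, U3_4, U3_5, U3_6, U3_7, U3_8, U3_9, U3_10, U3_11, U3_12, U3_13, U4_0, U4_1, U4_2, U4_3, U4_4, U4_5, U4_6, U4_7, U4_8, U4_9, U4_10, U4_11, U4_12, U4_13, U5_0, U5_1, U5_2, U5_3, U5_4, U5_5, U5_6, U5_7, U5_8, U5_9, U5_10, U5_11, U5_12, U5_13, E0_0, E0_1, E0_2, E0_3, E0_4, E0_5, E0_6, E0_7, E0_8, E0_9, E0_10, E0_11, E0_12, E0_13]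
  ring

theorem relE3456_6 :
    ((U3 t (t 8 • (E 0))) - (U4 t (t 7 • (E 0))) + (t 6 • (U5 t (E 0)) - U5 t (U5 t (E 0))) : Fin 14 → R) 6 = 0 := by
  simp only [Pi.add_apply, Pi.sub_apply, Pi.smul_apply, Pi.neg_apply, smul_eq_mul, U3_0, U3_1, U3_2, U3_3, U3_4, U3_5, U3_6, U3_7, U3_8, U3_9, U3_10, U3_11, U3_12, U3_13, U4_0, U4_1, U4_2, U4_3, U4_4, U4_5, U4_6, U4_7, U4_8, U4_9, U4_10, U4_11, U4_12, U4_13, U5_0, U5_1, U5_2, U5_3, U5_4, U5_5, U5_6, U5_7, U5_8, U5_9, U5_10, U5_11, U5_12, U5_13, E0_0, E0_1, E0_2, E0_3, E0_4, E0_5, E0_6, E0_7, E0_8, E0_9, E0_10, E0_11, E0_12, E0_13]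
  ring

theorem relE3456_7 :
    ((U3 t (t 8 • (E 0))) - (U4 t (t 7 • (E 0))) + (t 6 • (U5 t (E 0)) - U5 t (U5 t (E 0))) : Fin 14 → R) 7 = 0 := by
  simp only [Pi.add_apply, Pi.sub_apply, Pi.smul_apply, Pi.neg_apply, smul_eq_mul, U3_0, U3_1, U3_2, U3_3, U3_4, U3_5, U3_6, U3_7, U3_8, U3_9, U3_10, U3_11, U3_12, U3_13, U4_0, U4_1, U4_2, U4_3, U4_4, U4_5, U4_6, U4_7, U4_8, U4_9, U4_10, U4_11, U4_12, U4_13, U5_0, U5_1, U5_2, U5_3, U5_4, U5_5, U5_6, U5_7, U5_8, U5_9, U5_10, U5_11, U5_12, U5_13, E0_0, E0_1, E0_2, E0_3, E0_4, E0_5, E0_6, E0_7, E0_8, E0_9, E0_10, E0_11, E0_12, E0_13]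
  ring

theorem relE3456_8 :
    ((U3 t (t 8 • (E 0))) - (U4 t (t 7 • (E 0))) + (t 6 • (U5 t (E 0)) - U5 t (U5 t (E 0))) : Fin 14 → R) 8 = 0 := by
  simp only [Pi.add_apply, Pi.sub_apply, Pi.smul_apply, Pi.neg_apply, smul_eq_mul, U3_0, U3_1, U3_2, U3_3, U3_4, U3_5, U3_6, U3_7, U3_8, U3_9, U3_10, U3_11, U3_12, U3_13, U4_0, U4_1, U4_2, U4_3, U4_4, U4_5, U4_6, U4_7, U4_8, U4_9, U4_10, U4_11, U4_12, U4_13, U5_0, U5_1, U5_2, U5_3, U5_4, U5_5, U5_6, U5_7, U5_8, U5_9, U5_10, U5_11, U5_12, U5_13, E0_0, E0_1, E0_2, E0_3, E0_4, E0_5, E0_6, E0_7, E0_8, E0_9, E0_10, E0_11, E0_12, E0_13]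
  ring

theorem relE3456_9 :
    ((U3 t (t 8 • (E 0))) - (U4 t (t 7 • (E 0))) + (t 6 • (U5 t (E 0)) - U5 t (U5 t (E 0))) : Fin 14 → R) 9 = 0 := by
  simp only [Pi.add_apply, Pi.sub_apply, Pi.smul_apply, Pi.neg_apply, smul_eq_mul, U3_0, U3_1, U3_2, U3_3, U3_4, U3_5, U3_6, U3_7, U3_8, U3_9, U3_10, U3_11, U3_12, U3_13, U4_0, U4_1, U4_2, U4_3, U4_4, U4_5, U4_6, U4_7, U4_8, U4_9, U4_10, U4_11, U4_12, U4_13, U5_0, U5_1, U5_2, U5_3, U5_4, U5_5, U5_6, U5_7, U5_8, U5_9, U5_10, U5_11, U5_12, U5_13, E0_0, E0_1, E0_2, E0_3, E0_4, E0_5, E0_6, E0_7, E0_8, E0_9, E0_10, E0_11, E0_12, E0_13]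
  ring

theorem relE3456_10 :
    ((U3 t (t 8 • (E 0))) - (U4 t (t 7 • (E 0))) + (t 6 • (U5 t (E 0)) - U5 t (U5 t (E 0))) : Fin 14 → R) 10 = 0 := by
  simp only [Pi.add_apply, Pi.sub_apply, Pi.smul_apply, Pi.neg_apply, smul_eq_mul, U3_0, U3_1, U3_2, U3_3, U3_4, U3_5, U3_6, U3_7, U3_8, U3_9, U3_10, U3_11, U3_12, U3_13, U4_0, U4_1, U4_2, U4_3, U4_4, U4_5, U4_6, U4_7, U4_8, U4_9, U4_10, U4_11, U4_12, U4_13, U5_0, U5_1, U5_2, U5_3, U5_4, U5_5, U5_6, U5_7, U5_8, U5_9, U5_10, U5_11, U5_12, U5_13, E0_0, E0_1, E0_2, E0_3, E0_4, E0_5, E0_6, E0_7, E0_8, E0_9, E0_10, E0_11, E0_12, E0_13]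
  ring

theorem relE3456_11 :
    ((U3 t (t 8 • (E 0))) - (U4 t (t 7 • (E 0))) + (t 6 • (U5 t (E 0)) - U5 t (U5 t (E 0))) : Fin 14 → R) 11 = 0 := by
  simp only [Pi.add_apply, Pi.sub_apply, Pi.smul_apply, Pi.neg_apply, smul_eq_mul, U3_0, U3_1, U3_2, U3_3, U3_4, U3_5, U3_6, U3_7, U3_8, U3_9, U3_10, U3_11, U3_12, U3_13, U4_0, U4_1, U4_2, U4_3, U4_4, U4_5, U4_6, U4_7, U4_8, U4_9, U4_10, U4_11, U4_12, U4_13, U5_0, U5_1, U5_2, U5_3, U5_4, U5_5, U5_6, U5_7, U5_8, U5_9, U5_10, U5_11, U5_12, U5_13, E0_0, E0_1, E0_2, E0_3, E0_4, E0_5, E0_6, E0_7, E0_8, E0_9, E0_10, E0_11, E0_12, E0_13]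
  ring

theorem relE3456_12 :
    ((U3 t (t 8 • (E 0))) - (U4 t (t 7 • (E 0))) + (t 6 • (U5 t (E 0)) - U5 t (U5 t (E 0))) : Fin 14 → R) 12 = 0 := by
  simp only [Pi.add_apply, Pi.sub_apply, Pi.smul_apply, Pi.neg_apply, smul_eq_mul, U3_0, U3_1, U3_2, U3_3, U3_4, U3_5, U3_6, U3_7, U3_8, U3_9, U3_10, U3_11, U3_12, U3_13, U4_0, U4_1, U4_2, U4_3, U4_4, U4_5, U4_6, U4_7, U4_8, U4_9, U4_10, U4_11, U4_12, U4_13, U5_0, U5_1, U5_2, U5_3, U5_4, U5_5, U5_6, U5_7, U5_8, U5_9, U5_10, U5_11, U5_12, U5_13, E0_0, E0_1, E0_2, E0_3, E0_4, E0_5, E0_6, E0_7, E0_8, E0_9, E0_10, E0_11, E0_12, E0_13]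
  ring

theorem relE3456_13 :
    ((U3 t (t 8 • (E 0))) - (U4 t (t 7 • (E 0))) + (t 6 • (U5 t (E 0)) - U5 t (U5 t (E 0))) : Fin 14 → R) 13 = 0 := by
  simp only [Pi.add_apply, Pi.sub_apply, Pi.smul_apply, Pi.neg_apply, smul_eq_mul, U3_0, U3_1, U3_2, U3_3, U3_4, U3_5, U3_6, U3_7, U3_8, U3_9, U3_10, U3_11, U3_12, U3_13, U4_0, U4_1, U4_2, U4_3, U4_4, U4_5, U4_6, U4_7, U4_8, U4_9, U4_10, U4_11, U4_12, U4_13, U5_0, U5_1, U5_2, U5_3, U5_4, U5_5, U5_6, U5_7, U5_8, U5_9, U5_10, U5_11, U5_12, U5_13, E0_0, E0_1, E0_2, E0_3, E0_4, E0_5, E0_6, E0_7, E0_8, E0_9, E0_10, E0_11, E0_12, E0_13]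
  ring

theorem relE3456 :
    ((U3 t (t 8 • (E 0))) - (U4 t (t 7 • (E 0))) + (t 6 • (U5 t (E 0)) - U5 t (U5 t (E 0))) : Fin 14 → R) = 0 := by
  refine funext fun i => ?_
  fin_cases i
  exacts [relE3456_0 t, relE3456_1 t, relE3456_2 t, relE3456_3 t, relE3456_4 t, relE3456_5 t, relE3456_6 t, relE3456_7 t, relE3456_8 t, relE3456_9 t, relE3456_10 t, relE3456_11 t, relE3456_12 t, relE3456_13 t]

theorem relC3456 : UC t 3 * tC t 8 - UC t 4 * tC t 7 + (tC t 6 - UC t 5) * UC t 5 = 0 :=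
  cyc t _ (relE3456 t)

theorem TU_CC : TU (tC t) (UC t) where
  r1234 := relC1234 t
  r1235 := relC1235 t
  r1236 := relC1236 t
  r1245 := relC1245 t
  r1246 := relC1246 t
  r1256 := relC1256 t
  r1345 := relC1345 t
  r1346 := relC1346 t
  r1356 := relC1356 t
  r1456 := relC1456 t
  r2345 := relC2345 t
  r2346 := relC2346 t
  r2356 := relC2356 t
  r2456 := relC2456 t
  r3456 := relC3456 t

/-- Pluecker data from `t,u` coordinates. -/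
def Plk.ofTU {t : Fin 9 → R} {u : Fin 6 → R} (h : TU t u) : Plk R where
  p12 := t 0
  p13 := t 1
  p14 := (t 2 - u 0)
  p15 := (t 3 - u 1)
  p16 := (t 4 - u 2 - u 3)
  p23 := u 0
  p24 := u 1
  p25 := u 2
  p26 := (t 5 - u 4)
  p34 := u 3
  p35 := u 4
  p36 := (t 6 - u 5)
  p45 := u 5
  p46 := t 7
  p56 := t 8
  r1234 := h.r1234
  r1235 := h.r1235
  r1236 := h.r1236
  r1245 := h.r1245
  r1246 := h.r1246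
  r1256 := h.r1256
  r1345 := h.r1345
  r1346 := h.r1346
  r1356 := h.r1356
  r1456 := h.r1456
  r2345 := h.r2345
  r2346 := h.r2346
  r2356 := h.r2356
  r2456 := h.r2456
  r3456 := h.r3456

/-- The antidiagonal sums of Pluecker data. -/
def Plk.tv (x : Plk R) : Fin 9 → R := ![x.p12, x.p13, x.p14 + x.p23, x.p15 + x.p24, x.p16 + x.p25 + x.p34, x.p26 + x.p35, x.p36 + x.p45, x.p46, x.p56]

/-- The remaining coordinates of Pluecker data. -/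
def Plk.uv (x : Plk R) : Fin 6 → R := ![x.p23, x.p24, x.p25, x.p34, x.p35, x.p45]

theorem Plk.tv0 (x : Plk R) : x.tv 0 = x.p12 := rfl

theorem Plk.tv1 (x : Plk R) : x.tv 1 = x.p13 := rfl

theorem Plk.tv2 (x : Plk R) : x.tv 2 = x.p14 + x.p23 := rfl

theorem Plk.tv3 (x : Plk R) : x.tv 3 = x.p15 + x.p24 := rfl

theorem Plk.tv4 (x : Plk R) : x.tv 4 = x.p16 + x.p25 + x.p34 := rfl

theorem Plk.tv5 (x : Plk R) : x.tv 5 = x.p26 + x.p35 := rfl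

theorem Plk.tv6 (x : Plk R) : x.tv 6 = x.p36 + x.p45 := rfl

theorem Plk.tv7 (x : Plk R) : x.tv 7 = x.p46 := rfl

theorem Plk.tv8 (x : Plk R) : x.tv 8 = x.p56 := rfl

theorem Plk.uv0 (x : Plk R) : x.uv 0 = x.p23 := rfl

theorem Plk.uv1 (x : Plk R) : x.uv 1 = x.p24 := rfl

theorem Plk.uv2 (x : Plk R) : x.uv 2 = x.p25 := rfl

theorem Plk.uv3 (x : Plk R) : x.uv 3 = x.p34 := rfl

theorem Plk.uv4 (x : Plk R) : x.uv 4 = x.p35 := rfl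

theorem Plk.uv5 (x : Plk R) : x.uv 5 = x.p45 := rfl

theorem Plk.toTU (x : Plk R) : TU x.tv x.uv where
  r1234 := by
    simp only [Plk.tv0, Plk.tv1, Plk.tv2, Plk.tv3, Plk.tv4, Plk.tv5, Plk.tv6, Plk.tv7, Plk.tv8, Plk.uv0, Plk.uv1, Plk.uv2, Plk.uv3, Plk.uv4, Plk.uv5]
    linear_combination x.r1234
  r1235 := by
    simp only [Plk.tv0, Plk.tv1, Plk.tv2, Plk.tv3, Plk.tv4, Plk.tv5, Plk.tv6, Plk.tv7, Plk.tv8, Plk.uv0, Plk.uv1, Plk.uv2, Plk.uv3, Plk.uv4, Plk.uv5]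
    linear_combination x.r1235
  r1236 := by
    simp only [Plk.tv0, Plk.tv1, Plk.tv2, Plk.tv3, Plk.tv4, Plk.tv5, Plk.tv6, Plk.tv7, Plk.tv8, Plk.uv0, Plk.uv1, Plk.uv2, Plk.uv3, Plk.uv4, Plk.uv5]
    linear_combination x.r1236
  r1245 := by
    simp only [Plk.tv0, Plk.tv1, Plk.tv2, Plk.tv3, Plk.tv4, Plk.tv5, Plk.tv6, Plk.tv7, Plk.tv8, Plk.uv0, Plk.uv1, Plk.uv2, Plk.uv3, Plk.uv4, Plk.uv5]
    linear_combination x.r1245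
  r1246 := by
    simp only [Plk.tv0, Plk.tv1, Plk.tv2, Plk.tv3, Plk.tv4, Plk.tv5, Plk.tv6, Plk.tv7, Plk.tv8, Plk.uv0, Plk.uv1, Plk.uv2, Plk.uv3, Plk.uv4, Plk.uv5]
    linear_combination x.r1246
  r1256 := by
    simp only [Plk.tv0, Plk.tv1, Plk.tv2, Plk.tv3, Plk.tv4, Plk.tv5, Plk.tv6, Plk.tv7, Plk.tv8, Plk.uv0, Plk.uv1, Plk.uv2, Plk.uv3, Plk.uv4, Plk.uv5]
    linear_combination x.r1256
  r1345 := by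
    simp only [Plk.tv0, Plk.tv1, Plk.tv2, Plk.tv3, Plk.tv4, Plk.tv5, Plk.tv6, Plk.tv7, Plk.tv8, Plk.uv0, Plk.uv1, Plk.uv2, Plk.uv3, Plk.uv4, Plk.uv5]
    linear_combination x.r1345
  r1346 := by
    simp only [Plk.tv0, Plk.tv1, Plk.tv2, Plk.tv3, Plk.tv4, Plk.tv5, Plk.tv6, Plk.tv7, Plk.tv8, Plk.uv0, Plk.uv1, Plk.uv2, Plk.uv3, Plk.uv4, Plk.uv5]
    linear_combination x.r1346
  r1356 := by
    simp only [Plk.tv0, Plk.tv1, Plk.tv2, Plk.tv3, Plk.tv4, Plk.tv5, Plk.tv6, Plk.tv7, Plk.tv8, Plk.uv0, Plk.uv1, Plk.uv2, Plk.uv3, Plk.uv4, Plk.uv5]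
    linear_combination x.r1356
  r1456 := by
    simp only [Plk.tv0, Plk.tv1, Plk.tv2, Plk.tv3, Plk.tv4, Plk.tv5, Plk.tv6, Plk.tv7, Plk.tv8, Plk.uv0, Plk.uv1, Plk.uv2, Plk.uv3, Plk.uv4, Plk.uv5]
    linear_combination x.r1456
  r2345 := by
    simp only [Plk.tv0, Plk.tv1, Plk.tv2, Plk.tv3, Plk.tv4, Plk.tv5, Plk.tv6, Plk.tv7, Plk.tv8, Plk.uv0, Plk.uv1, Plk.uv2, Plk.uv3, Plk.uv4, Plk.uv5]
    linear_combination x.r2345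
  r2346 := by
    simp only [Plk.tv0, Plk.tv1, Plk.tv2, Plk.tv3, Plk.tv4, Plk.tv5, Plk.tv6, Plk.tv7, Plk.tv8, Plk.uv0, Plk.uv1, Plk.uv2, Plk.uv3, Plk.uv4, Plk.uv5]
    linear_combination x.r2346
  r2356 := by
    simp only [Plk.tv0, Plk.tv1, Plk.tv2, Plk.tv3, Plk.tv4, Plk.tv5, Plk.tv6, Plk.tv7, Plk.tv8, Plk.uv0, Plk.uv1, Plk.uv2, Plk.uv3, Plk.uv4, Plk.uv5]
    linear_combination x.r2356
  r2456 := by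
    simp only [Plk.tv0, Plk.tv1, Plk.tv2, Plk.tv3, Plk.tv4, Plk.tv5, Plk.tv6, Plk.tv7, Plk.tv8, Plk.uv0, Plk.uv1, Plk.uv2, Plk.uv3, Plk.uv4, Plk.uv5]
    linear_combination x.r2456
  r3456 := by
    simp only [Plk.tv0, Plk.tv1, Plk.tv2, Plk.tv3, Plk.tv4, Plk.tv5, Plk.tv6, Plk.tv7, Plk.tv8, Plk.uv0, Plk.uv1, Plk.uv2, Plk.uv3, Plk.uv4, Plk.uv5]
    linear_combination x.r3456

end Pool.Agent.J6H65.Hilb4
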