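import Pool.Agent.J6H65.Hilb4.Free2

set_option autoImplicit false
set_option linter.unusedSimpArgs false
set_option linter.unusedVariables false

namespace Pool.Agent.J6H65.Hilb4


section ev

variable {R : Type*} [CommRing R] {t : Fin 9 → R}

/-- Evaluation of an operator at the cyclic vector. -/
def ev (c : CC t) : Fin 14 → R := c.1 (E 0)

theorem ev_add (c d : CC t) : ev (c + d) = ev c + ev d := rfl

theorem ev_algebraMap (r : R) : ev (algebraMap R (CC t) r) = r • (E 0 : Fin 14 → R) := rfl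

theorem ev_algebraMap_mul (r : R) (c : CC t) : ev (algebraMap R (CC t) r * c) = r • ev c := rfl

theorem ev_word1 : ev (UC t 0) = E 1 := by
  change U0 t (E 0) = E 1
  rw [word1]

theorem ev_word2 : ev (UC t 1) = E 2 := by
  change U1 t (E 0) = E 2
  rw [word2]

theorem ev_word3 : ev (UC t 2) = E 3 := by
  change U2 t (E 0) = E 3
  rw [word3]

theorem ev_word4 : ev (UC t 3) = E 4 := by
  change U3 t (E 0) = E 4
  rw [word4]

theorem ev_word5 : ev (UC t 4) = E 5 := by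
  change U4 t (E 0) = E 5
  rw [word5]

theorem ev_word6 : ev (UC t 5) = E 6 := by
  change U5 t (E 0) = E 6
  rw [word6]

theorem ev_word7 : ev (UC t 0 * UC t 3) = E 7 := by
  change U0 t (U3 t (E 0)) = E 7
  rw [word4, word7]

theorem ev_word8 : ev (UC t 0 * UC t 4) = E 8 := by
  change U0 t (U4 t (E 0)) = E 8
  rw [word5, word8]

theorem ev_word9 : ev (UC t 0 * UC t 5) = E 9 := by
  change U0 t (U5 t (E 0)) = E 9
  rw [word6, word9]

theorem ev_word10 : ev (UC t 1 * UC t 4) = E 10 := by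
  change U1 t (U4 t (E 0)) = E 10
  rw [word5, word10]

theorem ev_word11 : ev (UC t 1 * UC t 5) = E 11 := by
  change U1 t (U5 t (E 0)) = E 11
  rw [word6, word11]

theorem ev_word12 : ev (UC t 3 * UC t 5) = E 12 := by
  change U3 t (U5 t (E 0)) = E 12
  rw [word6, word12]

theorem ev_word13 : ev (UC t 0 * UC t 3 * UC t 5) = E 13 := by
  change U0 t (U3 t (U5 t (E 0))) = E 13
  rw [word6, word12, word13]

theorem coord0 (v : Fin 14 → R) : (v 0 • (E 0 : Fin 14 → R) + v 1 • (E 1 : Fin 14 → R) + v 2 • (E 2 : Fin 14 → R) + v 3 • (E 3 : Fin 14 → R) + v 4 • (E 4 : Fin 14 → R) + v 5 • (E 5 : Fin 14 → R) + v 6 • (E 6 : Fin 14 → R) + v 7 • (E 7 : Fin 14 → R) + v 8 • (E 8 : Fin 14 → R) + v 9 • (E 9 : Fin 14 → R) + v 10 • (E 10 : Fin 14 → R) + v 11 • (E 11 : Fin 14 → R) + v 12 • (E 12 : Fin 14 → R) + v 13 • (E 13 : Fin 14 → R)) 0 = v 0 := by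
  simp only [Pi.add_apply, Pi.smul_apply, smul_eq_mul, E0_0, E1_0, E2_0, E3_0, E4_0, E5_0, E6_0, E7_0, E8_0, E9_0, E10_0, E11_0, E12_0, E13_0]
  ring

theorem coord1 (v : Fin 14 → R) : (v 0 • (E 0 : Fin 14 → R) + v 1 • (E 1 : Fin 14 → R) + v 2 • (E 2 : Fin 14 → R) + v 3 • (E 3 : Fin 14 → R) + v 4 • (E 4 : Fin 14 → R) + v 5 • (E 5 : Fin 14 → R) + v 6 • (E 6 : Fin 14 → R) + v 7 • (E 7 : Fin 14 → R) + v 8 • (E 8 : Fin 14 → R) + v 9 • (E 9 : Fin 14 → R) + v 10 • (E 10 : Fin 14 → R) + v 11 • (E 11 : Fin 14 → R) + v 12 • (E 12 : Fin 14 → R) + v 13 • (E 13 : Fin 14 → R)) 1 = v 1 := by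
  simp only [Pi.add_apply, Pi.smul_apply, smul_eq_mul, E0_1, E1_1, E2_1, E3_1, E4_1, E5_1, E6_1, E7_1, E8_1, E9_1, E10_1, E11_1, E12_1, E13_1]
  ring

theorem coord2 (v : Fin 14 → R) : (v 0 • (E 0 : Fin 14 → R) + v 1 • (E 1 : Fin 14 → R) + v 2 • (E 2 : Fin 14 → R) + v 3 • (E 3 : Fin 14 → R) + v 4 • (E 4 : Fin 14 → R) + v 5 • (E 5 : Fin 14 → R) + v 6 • (E 6 : Fin 14 → R) + v 7 • (E 7 : Fin 14 → R) + v 8 • (E 8 : Fin 14 → R) + v 9 • (E 9 : Fin 14 → R) + v 10 • (E 10 : Fin 14 → R) + v 11 • (E 11 : Fin 14 → R) + v 12 • (E 12 : Fin 14 → R) + v 13 • (E 13 : Fin 14 → R)) 2 = v 2 := by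
  simp only [Pi.add_apply, Pi.smul_apply, smul_eq_mul, E0_2, E1_2, E2_2, E3_2, E4_2, E5_2, E6_2, E7_2, E8_2, E9_2, E10_2, E11_2, E12_2, E13_2]
  ring

theorem coord3 (v : Fin 14 → R) : (v 0 • (E 0 : Fin 14 → R) + v 1 • (E 1 : Fin 14 → R) + v 2 • (E 2 : Fin 14 → R) + v 3 • (E 3 : Fin 14 → R) + v 4 • (E 4 : Fin 14 → R) + v 5 • (E 5 : Fin 14 → R) + v 6 • (E 6 : Fin 14 → R) + v 7 • (E 7 : Fin 14 → R) + v 8 • (E 8 : Fin 14 → R) + v 9 • (E 9 : Fin 14 → R) + v 10 • (E 10 : Fin 14 → R) + v 11 • (E 11 : Fin 14 → R) + v 12 • (E 12 : Fin 14 → R) + v 13 • (E 13 : Fin 14 → R)) 3 = v 3 := by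
  simp only [Pi.add_apply, Pi.smul_apply, smul_eq_mul, E0_3, E1_3, E2_3, E3_3, E4_3, E5_3, E6_3, E7_3, E8_3, E9_3, E10_3, E11_3, E12_3, E13_3]
  ring

theorem coord4 (v : Fin 14 → R) : (v 0 • (E 0 : Fin 14 → R) + v 1 • (E 1 : Fin 14 → R) + v 2 • (E 2 : Fin 14 → R) + v 3 • (E 3 : Fin 14 → R) + v 4 • (E 4 : Fin 14 → R) + v 5 • (E 5 : Fin 14 → R) + v 6 • (E 6 : Fin 14 → R) + v 7 • (E 7 : Fin 14 → R) + v 8 • (E 8 : Fin 14 → R) + v 9 • (E 9 : Fin 14 → R) + v 10 • (E 10 : Fin 14 → R) + v 11 • (E 11 : Fin 14 → R) + v 12 • (E 12 : Fin 14 → R) + v 13 • (E 13 : Fin 14 → R)) 4 = v 4 := by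
  simp only [Pi.add_apply, Pi.smul_apply, smul_eq_mul, E0_4, E1_4, E2_4, E3_4, E4_4, E5_4, E6_4, E7_4, E8_4, E9_4, E10_4, E11_4, E12_4, E13_4]
  ring

theorem coord5 (v : Fin 14 → R) : (v 0 • (E 0 : Fin 14 → R) + v 1 • (E 1 : Fin 14 → R) + v 2 • (E 2 : Fin 14 → R) + v 3 • (E 3 : Fin 14 → R) + v 4 • (E 4 : Fin 14 → R) + v 5 • (E 5 : Fin 14 → R) + v 6 • (E 6 : Fin 14 → R) + v 7 • (E 7 : Fin 14 → R) + v 8 • (E 8 : Fin 14 → R) + v 9 • (E 9 : Fin 14 → R) + v 10 • (E 10 : Fin 14 → R) + v 11 • (E 11 : Fin 14 → R) + v 12 • (E 12 : Fin 14 → R) + v 13 • (E 13 : Fin 14 → R)) 5 = v 5 := by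
  simp only [Pi.add_apply, Pi.smul_apply, smul_eq_mul, E0_5, E1_5, E2_5, E3_5, E4_5, E5_5, E6_5, E7_5, E8_5, E9_5, E10_5, E11_5, E12_5, E13_5]
  ring

theorem coord6 (v : Fin 14 → R) : (v 0 • (E 0 : Fin 14 → R) + v 1 • (E 1 : Fin 14 → R) + v 2 • (E 2 : Fin 14 → R) + v 3 • (E 3 : Fin 14 → R) + v 4 • (E 4 : Fin 14 → R) + v 5 • (E 5 : Fin 14 → R) + v 6 • (E 6 : Fin 14 → R) + v 7 • (E 7 : Fin 14 → R) + v 8 • (E 8 : Fin 14 → R) + v 9 • (E 9 : Fin 14 → R) + v 10 • (E 10 : Fin 14 → R) + v 11 • (E 11 : Fin 14 → R) + v 12 • (E 12 : Fin 14 → R) + v 13 • (E 13 : Fin 14 → R)) 6 = v 6 := by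
  simp only [Pi.add_apply, Pi.smul_apply, smul_eq_mul, E0_6, E1_6, E2_6, E3_6, E4_6, E5_6, E6_6, E7_6, E8_6, E9_6, E10_6, E11_6, E12_6, E13_6]
  ring

theorem coord7 (v : Fin 14 → R) : (v 0 • (E 0 : Fin 14 → R) + v 1 • (E 1 : Fin 14 → R) + v 2 • (E 2 : Fin 14 → R) + v 3 • (E 3 : Fin 14 → R) + v 4 • (E 4 : Fin 14 → R) + v 5 • (E 5 : Fin 14 → R) + v 6 • (E 6 : Fin 14 → R) + v 7 • (E 7 : Fin 14 → R) + v 8 • (E 8 : Fin 14 → R) + v 9 • (E 9 : Fin 14 → R) + v 10 • (E 10 : Fin 14 → R) + v 11 • (E 11 : Fin 14 → R) + v 12 • (E 12 : Fin 14 → R) + v 13 • (E 13 : Fin 14 → R)) 7 = v 7 := by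
  simp only [Pi.add_apply, Pi.smul_apply, smul_eq_mul, E0_7, E1_7, E2_7, E3_7, E4_7, E5_7, E6_7, E7_7, E8_7, E9_7, E10_7, E11_7, E12_7, E13_7]
  ring

theorem coord8 (v : Fin 14 → R) : (v 0 • (E 0 : Fin 14 → R) + v 1 • (E 1 : Fin 14 → R) + v 2 • (E 2 : Fin 14 → R) + v 3 • (E 3 : Fin 14 → R) + v 4 • (E 4 : Fin 14 → R) + v 5 • (E 5 : Fin 14 → R) + v 6 • (E 6 : Fin 14 → R) + v 7 • (E 7 : Fin 14 → R) + v 8 • (E 8 : Fin 14 → R) + v 9 • (E 9 : Fin 14 → R) + v 10 • (E 10 : Fin 14 → R) + v 11 • (E 11 : Fin 14 → R) + v 12 • (E 12 : Fin 14 → R) + v 13 • (E 13 : Fin 14 → R)) 8 = v 8 := by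
  simp only [Pi.add_apply, Pi.smul_apply, smul_eq_mul, E0_8, E1_8, E2_8, E3_8, E4_8, E5_8, E6_8, E7_8, E8_8, E9_8, E10_8, E11_8, E12_8, E13_8]
  ring

theorem coord9 (v : Fin 14 → R) : (v 0 • (E 0 : Fin 14 → R) + v 1 • (E 1 : Fin 14 → R) + v 2 • (E 2 : Fin 14 → R) + v 3 • (E 3 : Fin 14 → R) + v 4 • (E 4 : Fin 14 → R) + v 5 • (E 5 : Fin 14 → R) + v 6 • (E 6 : Fin 14 → R) + v 7 • (E 7 : Fin 14 → R) + v 8 • (E 8 : Fin 14 → R) + v 9 • (E 9 : Fin 14 → R) + v 10 • (E 10 : Fin 14 → R) + v 11 • (E 11 : Fin 14 → R) + v 12 • (E 12 : Fin 14 → R) + v 13 • (E 13 : Fin 14 → R)) 9 = v 9 := by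
  simp only [Pi.add_apply, Pi.smul_apply, smul_eq_mul, E0_9, E1_9, E2_9, E3_9, E4_9, E5_9, E6_9, E7_9, E8_9, E9_9, E10_9, E11_9, E12_9, E13_9]
  ring

theorem coord10 (v : Fin 14 → R) : (v 0 • (E 0 : Fin 14 → R) + v 1 • (E 1 : Fin 14 → R) + v 2 • (E 2 : Fin 14 → R) + v 3 • (E 3 : Fin 14 → R) + v 4 • (E 4 : Fin 14 → R) + v 5 • (E 5 : Fin 14 → R) + v 6 • (E 6 : Fin 14 → R) + v 7 • (E 7 : Fin 14 → R) + v 8 • (E 8 : Fin 14 → R) + v 9 • (E 9 : Fin 14 → R) + v 10 • (E 10 : Fin 14 → R) + v 11 • (E 11 : Fin 14 → R) + v 12 • (E 12 : Fin 14 → R) + v 13 • (E 13 : Fin 14 → R)) 10 = v 10 := by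
  simp only [Pi.add_apply, Pi.smul_apply, smul_eq_mul, E0_10, E1_10, E2_10, E3_10, E4_10, E5_10, E6_10, E7_10, E8_10, E9_10, E10_10, E11_10, E12_10, E13_10]
  ring

theorem coord11 (v : Fin 14 → R) : (v 0 • (E 0 : Fin 14 → R) + v 1 • (E 1 : Fin 14 → R) + v 2 • (E 2 : Fin 14 → R) + v 3 • (E 3 : Fin 14 → R) + v 4 • (E 4 : Fin 14 → R) + v 5 • (E 5 : Fin 14 → R) + v 6 • (E 6 : Fin 14 → R) + v 7 • (E 7 : Fin 14 → R) + v 8 • (E 8 : Fin 14 → R) + v 9 • (E 9 : Fin 14 → R) + v 10 • (E 10 : Fin 14 → R) + v 11 • (E 11 : Fin 14 → R) + v 12 • (E 12 : Fin 14 → R) + v 13 • (E 13 : Fin 14 → R)) 11 = v 11 := by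
  simp only [Pi.add_apply, Pi.smul_apply, smul_eq_mul, E0_11, E1_11, E2_11, E3_11, E4_11, E5_11, E6_11, E7_11, E8_11, E9_11, E10_11, E11_11, E12_11, E13_11]
  ring

theorem coord12 (v : Fin 14 → R) : (v 0 • (E 0 : Fin 14 → R) + v 1 • (E 1 : Fin 14 → R) + v 2 • (E 2 : Fin 14 → R) + v 3 • (E 3 : Fin 14 → R) + v 4 • (E 4 : Fin 14 → R) + v 5 • (E 5 : Fin 14 → R) + v 6 • (E 6 : Fin 14 → R) + v 7 • (E 7 : Fin 14 → R) + v 8 • (E 8 : Fin 14 → R) + v 9 • (E 9 : Fin 14 → R) + v 10 • (E 10 : Fin 14 → R) + v 11 • (E 11 : Fin 14 → R) + v 12 • (E 12 : Fin 14 → R) + v 13 • (E 13 : Fin 14 → R)) 12 = v 12 := by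
  simp only [Pi.add_apply, Pi.smul_apply, smul_eq_mul, E0_12, E1_12, E2_12, E3_12, E4_12, E5_12, E6_12, E7_12, E8_12, E9_12, E10_12, E11_12, E12_12, E13_12]
  ring

theorem coord13 (v : Fin 14 → R) : (v 0 • (E 0 : Fin 14 → R) + v 1 • (E 1 : Fin 14 → R) + v 2 • (E 2 : Fin 14 → R) + v 3 • (E 3 : Fin 14 → R) + v 4 • (E 4 : Fin 14 → R) + v 5 • (E 5 : Fin 14 → R) + v 6 • (E 6 : Fin 14 → R) + v 7 • (E 7 : Fin 14 → R) + v 8 • (E 8 : Fin 14 → R) + v 9 • (E 9 : Fin 14 → R) + v 10 • (E 10 : Fin 14 → R) + v 11 • (E 11 : Fin 14 → R) + v 12 • (E 12 : Fin 14 → R) + v 13 • (E 13 : Fin 14 → R)) 13 = v 13 := by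
  simp only [Pi.add_apply, Pi.smul_apply, smul_eq_mul, E0_13, E1_13, E2_13, E3_13, E4_13, E5_13, E6_13, E7_13, E8_13, E9_13, E10_13, E11_13, E12_13, E13_13]
  ring

end ev

namespace PL

variable (k : Type*) [CommRing k]

noncomputable instance algP : Algebra (MvPolynomial (Fin 9) k) (PL k) :=
  (MvPolynomial.aeval (univ k).tv : MvPolynomial (Fin 9) k →ₐ[k] PL k).toRingHom.toAlgebra

instance : IsScalarTower k (MvPolynomial (Fin 9) k) (PL k) :=
  IsScalarTower.of_algebraMap_eq fun x =>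
    (AlgHom.commutes (MvPolynomial.aeval (univ k).tv : MvPolynomial (Fin 9) k →ₐ[k] PL k) x).symm

theorem algP_X (i : Fin 9) : algebraMap (MvPolynomial (Fin 9) k) (PL k) (MvPolynomial.X i) =
    (univ k).tv i := MvPolynomial.aeval_X _ _

/-- The commutative ring of operators over the polynomial ring. -/
abbrev C : Type _ := CC (MvPolynomial.X : Fin 9 → MvPolynomial (Fin 9) k)

/-- The Pluecker data in the ring of operators. -/
noncomputable def plkC : Plk (C k) := Plk.ofTU (TU_CC (MvPolynomial.X))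

/-- The action of `PL k` on the free module. -/
noncomputable def act : PL k →ₐ[k] C k := lift (plkC k)

theorem act_univ : (univ k).map (act k).toRingHom = plkC k := map_lift _

theorem act_u0 : act k ((univ k).uv 0) = UC MvPolynomial.X 0 :=
  congrArg Plk.p23 (act_univ k)

theorem act_u1 : act k ((univ k).uv 1) = UC MvPolynomial.X 1 :=
  congrArg Plk.p24 (act_univ k)

theorem act_u2 : act k ((univ k).uv 2) = UC MvPolynomial.X 2 :=
  congrArg Plk.p25 (act_univ k)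

theorem act_u3 : act k ((univ k).uv 3) = UC MvPolynomial.X 3 :=
  congrArg Plk.p34 (act_univ k)

theorem act_u4 : act k ((univ k).uv 4) = UC MvPolynomial.X 4 :=
  congrArg Plk.p35 (act_univ k)

theorem act_u5 : act k ((univ k).uv 5) = UC MvPolynomial.X 5 :=
  congrArg Plk.p45 (act_univ k)

theorem act_t0 : act k ((univ k).tv 0) = algebraMap (MvPolynomial (Fin 9) k) (C k) (MvPolynomial.X 0) := by
  rw [Plk.tv0]
  have h12 : act k (univ k).p12 = (plkC k).p12 := congrArg Plk.p12 (act_univ k)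
  rw [h12]
  simp only [plkC, Plk.ofTU]
  rfl

theorem act_t1 : act k ((univ k).tv 1) = algebraMap (MvPolynomial (Fin 9) k) (C k) (MvPolynomial.X 1) := by
  rw [Plk.tv1]
  have h13 : act k (univ k).p13 = (plkC k).p13 := congrArg Plk.p13 (act_univ k)
  rw [h13]
  simp only [plkC, Plk.ofTU]
  rfl

theorem act_t2 : act k ((univ k).tv 2) = algebraMap (MvPolynomial (Fin 9) k) (C k) (MvPolynomial.X 2) := by
  rw [Plk.tv2]
  simp only [map_add]
  have h14 : act k (univ k).p14 = (plkC k).p14 := congrArg Plk.p14 (act_univ k)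
  have h23 : act k (univ k).p23 = (plkC k).p23 := congrArg Plk.p23 (act_univ k)
  rw [h14, h23]
  simp only [plkC, Plk.ofTU]
  change _ = tC MvPolynomial.X _
  ring

theorem act_t3 : act k ((univ k).tv 3) = algebraMap (MvPolynomial (Fin 9) k) (C k) (MvPolynomial.X 3) := by
  rw [Plk.tv3]
  simp only [map_add]
  have h15 : act k (univ k).p15 = (plkC k).p15 := congrArg Plk.p15 (act_univ k)
  have h24 : act k (univ k).p24 = (plkC k).p24 := congrArg Plk.p24 (act_univ k)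
  rw [h15, h24]
  simp only [plkC, Plk.ofTU]
  change _ = tC MvPolynomial.X _
  ring

theorem act_t4 : act k ((univ k).tv 4) = algebraMap (MvPolynomial (Fin 9) k) (C k) (MvPolynomial.X 4) := by
  rw [Plk.tv4]
  simp only [map_add]
  have h16 : act k (univ k).p16 = (plkC k).p16 := congrArg Plk.p16 (act_univ k)
  have h25 : act k (univ k).p25 = (plkC k).p25 := congrArg Plk.p25 (act_univ k)
  have h34 : act k (univ k).p34 = (plkC k).p34 := congrArg Plk.p34 (act_univ k)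
  rw [h16, h25, h34]
  simp only [plkC, Plk.ofTU]
  change _ = tC MvPolynomial.X _
  ring

theorem act_t5 : act k ((univ k).tv 5) = algebraMap (MvPolynomial (Fin 9) k) (C k) (MvPolynomial.X 5) := by
  rw [Plk.tv5]
  simp only [map_add]
  have h26 : act k (univ k).p26 = (plkC k).p26 := congrArg Plk.p26 (act_univ k)
  have h35 : act k (univ k).p35 = (plkC k).p35 := congrArg Plk.p35 (act_univ k)
  rw [h26, h35]
  simp only [plkC, Plk.ofTU]
  change _ = tC MvPolynomial.X _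
  ring

theorem act_t6 : act k ((univ k).tv 6) = algebraMap (MvPolynomial (Fin 9) k) (C k) (MvPolynomial.X 6) := by
  rw [Plk.tv6]
  simp only [map_add]
  have h36 : act k (univ k).p36 = (plkC k).p36 := congrArg Plk.p36 (act_univ k)
  have h45 : act k (univ k).p45 = (plkC k).p45 := congrArg Plk.p45 (act_univ k)
  rw [h36, h45]
  simp only [plkC, Plk.ofTU]
  change _ = tC MvPolynomial.X _
  ring

theorem act_t7 : act k ((univ k).tv 7) = algebraMap (MvPolynomial (Fin 9) k) (C k) (MvPolynomial.X 7) := by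
  rw [Plk.tv7]
  have h46 : act k (univ k).p46 = (plkC k).p46 := congrArg Plk.p46 (act_univ k)
  rw [h46]
  simp only [plkC, Plk.ofTU]
  rfl

theorem act_t8 : act k ((univ k).tv 8) = algebraMap (MvPolynomial (Fin 9) k) (C k) (MvPolynomial.X 8) := by
  rw [Plk.tv8]
  have h56 : act k (univ k).p56 = (plkC k).p56 := congrArg Plk.p56 (act_univ k)
  rw [h56]
  simp only [plkC, Plk.ofTU]
  rfl

theorem act_t (i : Fin 9) : act k ((univ k).tv i) = algebraMap (MvPolynomial (Fin 9) k) (C k) (MvPolynomial.X i) := by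
  fin_cases i
  exacts [act_t0 k, act_t1 k, act_t2 k, act_t3 k, act_t4 k, act_t5 k, act_t6 k, act_t7 k, act_t8 k]

theorem act_algP (f : MvPolynomial (Fin 9) k) :
    act k (algebraMap (MvPolynomial (Fin 9) k) (PL k) f) = algebraMap (MvPolynomial (Fin 9) k) (C k) f := by
  have : (act k).comp (IsScalarTower.toAlgHom k (MvPolynomial (Fin 9) k) (PL k)) =
      IsScalarTower.toAlgHom k (MvPolynomial (Fin 9) k) (C k) := by
    apply MvPolynomial.algHom_ext
    intro i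
    simp only [AlgHom.comp_apply, IsScalarTower.coe_toAlgHom']
    rw [algP_X, act_t]
  exact DFunLike.congr_fun this f

/-- The parametrization of `PL k` by the free module of rank fourteen. -/
noncomputable def Phi : (Fin 14 → MvPolynomial (Fin 9) k) →ₗ[MvPolynomial (Fin 9) k] PL k where
  toFun v := phi (univ k).uv (fun i => algebraMap _ (PL k) (v i))
  map_add' v w := by
    simp only [phi, Pi.add_apply, map_add]
    ring
  map_smul' c v := by
    simp only [phi, Pi.smul_apply, smul_eq_mul, map_mul, RingHom.id_apply, Algebra.smul_def]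
    ring

theorem Phi_apply (v : Fin 14 → MvPolynomial (Fin 9) k) :
    Phi k v = phi (univ k).uv (fun i => algebraMap _ (PL k) (v i)) := rfl

theorem u0_mul_Phi (v : Fin 14 → MvPolynomial (Fin 9) k) :
    (univ k).uv 0 * Phi k v = Phi k (U0 MvPolynomial.X v) := by
  rw [Phi_apply, Phi_apply, (univ k).toTU.mul_phi0]
  congr 1
  have h := U0_map (algebraMap (MvPolynomial (Fin 9) k) (PL k)) MvPolynomial.X v
  have h2 : (fun i => algebraMap (MvPolynomial (Fin 9) k) (PL k) (MvPolynomial.X i)) =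
      (univ k).tv := funext fun i => algP_X k i
  rw [h2] at h
  exact h

theorem u1_mul_Phi (v : Fin 14 → MvPolynomial (Fin 9) k) :
    (univ k).uv 1 * Phi k v = Phi k (U1 MvPolynomial.X v) := by
  rw [Phi_apply, Phi_apply, (univ k).toTU.mul_phi1]
  congr 1
  have h := U1_map (algebraMap (MvPolynomial (Fin 9) k) (PL k)) MvPolynomial.X v
  have h2 : (fun i => algebraMap (MvPolynomial (Fin 9) k) (PL k) (MvPolynomial.X i)) =
      (univ k).tv := funext fun i => algP_X k i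
  rw [h2] at h
  exact h

theorem u2_mul_Phi (v : Fin 14 → MvPolynomial (Fin 9) k) :
    (univ k).uv 2 * Phi k v = Phi k (U2 MvPolynomial.X v) := by
  rw [Phi_apply, Phi_apply, (univ k).toTU.mul_phi2]
  congr 1
  have h := U2_map (algebraMap (MvPolynomial (Fin 9) k) (PL k)) MvPolynomial.X v
  have h2 : (fun i => algebraMap (MvPolynomial (Fin 9) k) (PL k) (MvPolynomial.X i)) =
      (univ k).tv := funext fun i => algP_X k i
  rw [h2] at h
  exact h

theorem u3_mul_Phi (v : Fin 14 → MvPolynomial (Fin 9) k) :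
    (univ k).uv 3 * Phi k v = Phi k (U3 MvPolynomial.X v) := by
  rw [Phi_apply, Phi_apply, (univ k).toTU.mul_phi3]
  congr 1
  have h := U3_map (algebraMap (MvPolynomial (Fin 9) k) (PL k)) MvPolynomial.X v
  have h2 : (fun i => algebraMap (MvPolynomial (Fin 9) k) (PL k) (MvPolynomial.X i)) =
      (univ k).tv := funext fun i => algP_X k i
  rw [h2] at h
  exact h

theorem u4_mul_Phi (v : Fin 14 → MvPolynomial (Fin 9) k) :
    (univ k).uv 4 * Phi k v = Phi k (U4 MvPolynomial.X v) := by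
  rw [Phi_apply, Phi_apply, (univ k).toTU.mul_phi4]
  congr 1
  have h := U4_map (algebraMap (MvPolynomial (Fin 9) k) (PL k)) MvPolynomial.X v
  have h2 : (fun i => algebraMap (MvPolynomial (Fin 9) k) (PL k) (MvPolynomial.X i)) =
      (univ k).tv := funext fun i => algP_X k i
  rw [h2] at h
  exact h

theorem u5_mul_Phi (v : Fin 14 → MvPolynomial (Fin 9) k) :
    (univ k).uv 5 * Phi k v = Phi k (U5 MvPolynomial.X v) := by
  rw [Phi_apply, Phi_apply, (univ k).toTU.mul_phi5]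
  congr 1
  have h := U5_map (algebraMap (MvPolynomial (Fin 9) k) (PL k)) MvPolynomial.X v
  have h2 : (fun i => algebraMap (MvPolynomial (Fin 9) k) (PL k) (MvPolynomial.X i)) =
      (univ k).tv := funext fun i => algP_X k i
  rw [h2] at h
  exact h

theorem t0_mul_Phi (v : Fin 14 → MvPolynomial (Fin 9) k) :
    (univ k).tv 0 * Phi k v = Phi k ((MvPolynomial.X 0 : MvPolynomial (Fin 9) k) • v) := by
  rw [map_smul, Algebra.smul_def, algP_X]

theorem t1_mul_Phi (v : Fin 14 → MvPolynomial (Fin 9) k) :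
    (univ k).tv 1 * Phi k v = Phi k ((MvPolynomial.X 1 : MvPolynomial (Fin 9) k) • v) := by
  rw [map_smul, Algebra.smul_def, algP_X]

theorem t2_mul_Phi (v : Fin 14 → MvPolynomial (Fin 9) k) :
    (univ k).tv 2 * Phi k v = Phi k ((MvPolynomial.X 2 : MvPolynomial (Fin 9) k) • v) := by
  rw [map_smul, Algebra.smul_def, algP_X]

theorem t3_mul_Phi (v : Fin 14 → MvPolynomial (Fin 9) k) :
    (univ k).tv 3 * Phi k v = Phi k ((MvPolynomial.X 3 : MvPolynomial (Fin 9) k) • v) := by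
  rw [map_smul, Algebra.smul_def, algP_X]

theorem t4_mul_Phi (v : Fin 14 → MvPolynomial (Fin 9) k) :
    (univ k).tv 4 * Phi k v = Phi k ((MvPolynomial.X 4 : MvPolynomial (Fin 9) k) • v) := by
  rw [map_smul, Algebra.smul_def, algP_X]

theorem t5_mul_Phi (v : Fin 14 → MvPolynomial (Fin 9) k) :
    (univ k).tv 5 * Phi k v = Phi k ((MvPolynomial.X 5 : MvPolynomial (Fin 9) k) • v) := by
  rw [map_smul, Algebra.smul_def, algP_X]

theorem t6_mul_Phi (v : Fin 14 → MvPolynomial (Fin 9) k) :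
    (univ k).tv 6 * Phi k v = Phi k ((MvPolynomial.X 6 : MvPolynomial (Fin 9) k) • v) := by
  rw [map_smul, Algebra.smul_def, algP_X]

theorem t7_mul_Phi (v : Fin 14 → MvPolynomial (Fin 9) k) :
    (univ k).tv 7 * Phi k v = Phi k ((MvPolynomial.X 7 : MvPolynomial (Fin 9) k) • v) := by
  rw [map_smul, Algebra.smul_def, algP_X]

theorem t8_mul_Phi (v : Fin 14 → MvPolynomial (Fin 9) k) :
    (univ k).tv 8 * Phi k v = Phi k ((MvPolynomial.X 8 : MvPolynomial (Fin 9) k) • v) := by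
  rw [map_smul, Algebra.smul_def, algP_X]

/-- Elements whose multiplication preserves the range of `Phi`. -/
def good : Subring (PL k) where
  carrier := {x | ∀ v, ∃ w, x * Phi k v = Phi k w}
  mul_mem' := by
    intro a b ha hb v
    obtain ⟨w, hw⟩ := hb v
    obtain ⟨z, hz⟩ := ha w
    exact ⟨z, by rw [mul_assoc, hw, hz]⟩
  one_mem' := fun v => ⟨v, one_mul _⟩
  add_mem' := by
    intro a b ha hb v
    obtain ⟨w, hw⟩ := hb v
    obtain ⟨z, hz⟩ := ha v
    exact ⟨z + w, by rw [add_mul, hw, hz, map_add]⟩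
  zero_mem' := fun v => ⟨0, by rw [zero_mul, map_zero]⟩
  neg_mem' := by
    intro a ha v
    obtain ⟨w, hw⟩ := ha v
    exact ⟨-w, by rw [neg_mul, hw, map_neg]⟩

theorem good_u0 : (univ k).uv 0 ∈ good k := fun v => ⟨_, u0_mul_Phi k v⟩

theorem good_u1 : (univ k).uv 1 ∈ good k := fun v => ⟨_, u1_mul_Phi k v⟩

theorem good_u2 : (univ k).uv 2 ∈ good k := fun v => ⟨_, u2_mul_Phi k v⟩

theorem good_u3 : (univ k).uv 3 ∈ good k := fun v => ⟨_, u3_mul_Phi k v⟩

theorem good_u4 : (univ k).uv 4 ∈ good k := fun v => ⟨_, u4_mul_Phi k v⟩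

theorem good_u5 : (univ k).uv 5 ∈ good k := fun v => ⟨_, u5_mul_Phi k v⟩

theorem good_t0 : (univ k).tv 0 ∈ good k := fun v => ⟨_, t0_mul_Phi k v⟩

theorem good_t1 : (univ k).tv 1 ∈ good k := fun v => ⟨_, t1_mul_Phi k v⟩

theorem good_t2 : (univ k).tv 2 ∈ good k := fun v => ⟨_, t2_mul_Phi k v⟩

theorem good_t3 : (univ k).tv 3 ∈ good k := fun v => ⟨_, t3_mul_Phi k v⟩

theorem good_t4 : (univ k).tv 4 ∈ good k := fun v => ⟨_, t4_mul_Phi k v⟩

theorem good_t5 : (univ k).tv 5 ∈ good k := fun v => ⟨_, t5_mul_Phi k v⟩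

theorem good_t6 : (univ k).tv 6 ∈ good k := fun v => ⟨_, t6_mul_Phi k v⟩

theorem good_t7 : (univ k).tv 7 ∈ good k := fun v => ⟨_, t7_mul_Phi k v⟩

theorem good_t8 : (univ k).tv 8 ∈ good k := fun v => ⟨_, t8_mul_Phi k v⟩

theorem good_p12 : (univ k).p12 ∈ good k := by
  have h : (univ k).p12 = (univ k).tv 0 := by
    simp only [Plk.tv0]
  rw [h]
  exact good_t0 k

theorem good_p13 : (univ k).p13 ∈ good k := by
  have h : (univ k).p13 = (univ k).tv 1 := by
    simp only [Plk.tv1]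
  rw [h]
  exact good_t1 k

theorem good_p14 : (univ k).p14 ∈ good k := by
  have h : (univ k).p14 = (univ k).tv 2 - (univ k).uv 0 := by
    simp only [Plk.tv2, Plk.uv0]
    ring
  rw [h]
  exact (good k).sub_mem (good_t2 k) (good_u0 k)

theorem good_p15 : (univ k).p15 ∈ good k := by
  have h : (univ k).p15 = (univ k).tv 3 - (univ k).uv 1 := by
    simp only [Plk.tv3, Plk.uv1]
    ring
  rw [h]
  exact (good k).sub_mem (good_t3 k) (good_u1 k)

theorem good_p16 : (univ k).p16 ∈ good k := by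
  have h : (univ k).p16 = (univ k).tv 4 - (univ k).uv 2 - (univ k).uv 3 := by
    simp only [Plk.tv4, Plk.uv2, Plk.uv3]
    ring
  rw [h]
  exact (good k).sub_mem ((good k).sub_mem (good_t4 k) (good_u2 k)) (good_u3 k)

theorem good_p23 : (univ k).p23 ∈ good k := by
  exact good_u0 k

theorem good_p24 : (univ k).p24 ∈ good k := by
  exact good_u1 k

theorem good_p25 : (univ k).p25 ∈ good k := by
  exact good_u2 k

theorem good_p26 : (univ k).p26 ∈ good k := by
  have h : (univ k).p26 = (univ k).tv 5 - (univ k).uv 4 := by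
    simp only [Plk.tv5, Plk.uv4]
    ring
  rw [h]
  exact (good k).sub_mem (good_t5 k) (good_u4 k)

theorem good_p34 : (univ k).p34 ∈ good k := by
  exact good_u3 k

theorem good_p35 : (univ k).p35 ∈ good k := by
  exact good_u4 k

theorem good_p36 : (univ k).p36 ∈ good k := by
  have h : (univ k).p36 = (univ k).tv 6 - (univ k).uv 5 := by
    simp only [Plk.tv6, Plk.uv5]
    ring
  rw [h]
  exact (good k).sub_mem (good_t6 k) (good_u5 k)

theorem good_p45 : (univ k).p45 ∈ good k := by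
  exact good_u5 k

theorem good_p46 : (univ k).p46 ∈ good k := by
  have h : (univ k).p46 = (univ k).tv 7 := by
    simp only [Plk.tv7]
  rw [h]
  exact good_t7 k

theorem good_p56 : (univ k).p56 ∈ good k := by
  have h : (univ k).p56 = (univ k).tv 8 := by
    simp only [Plk.tv8]
  rw [h]
  exact good_t8 k

theorem good_all (x : PL k) : x ∈ good k := by
  obtain ⟨f, rfl⟩ := proj_surjective k x
  induction f using MvPolynomial.induction_on with
  | C c =>
    intro v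
    refine ⟨c • v, ?_⟩
    have h1 : proj k (MvPolynomial.C c) = algebraMap k (PL k) c := AlgHom.commutes (proj k) c
    rw [h1, ← Algebra.smul_def, ← algebraMap_smul (MvPolynomial (Fin 9) k) c v, map_smul,
      algebraMap_smul]
  | add f g hf hg =>
    rw [map_add]
    exact (good k).add_mem hf hg
  | mul_X f i hf =>
    rw [map_mul]
    refine (good k).mul_mem hf ?_
    fin_cases i
    · exact good_p12 k
    · exact good_p13 k
    · exact good_p14 k
    · exact good_p15 k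
    · exact good_p16 k
    · exact good_p23 k
    · exact good_p24 k
    · exact good_p25 k
    · exact good_p26 k
    · exact good_p34 k
    · exact good_p35 k
    · exact good_p36 k
    · exact good_p45 k
    · exact good_p46 k
    · exact good_p56 k

theorem Phi_E0 : Phi k (E 0) = 1 := by
  rw [Phi_apply]
  simp only [phi, E0_0, E0_1, E0_2, E0_3, E0_4, E0_5, E0_6, E0_7, E0_8, E0_9, E0_10, E0_11, E0_12, E0_13, map_zero, map_one]
  ring

theorem Phi_surjective : Function.Surjective (Phi k) := by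
  intro x
  obtain ⟨w, hw⟩ := good_all k x (E 0)
  rw [Phi_E0, mul_one] at hw
  exact ⟨w, hw.symm⟩

theorem map_phi {R S : Type*} [CommRing R] [CommRing S] (f : R →+* S) (u : Fin 6 → R)
    (v : Fin 14 → R) : f (phi u v) = phi (fun i => f (u i)) (fun i => f (v i)) := by
  simp only [phi, map_add, map_mul]

theorem act_Phi (v : Fin 14 → MvPolynomial (Fin 9) k) : ev (act k (Phi k v)) = v := by
  have h1 : act k (Phi k v) = phi (UC MvPolynomial.X)
      (fun i => algebraMap (MvPolynomial (Fin 9) k) (C k) (v i)) := by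
    rw [Phi_apply]
    have := map_phi (act k).toRingHom (univ k).uv (fun i => algebraMap _ (PL k) (v i))
    refine this.trans ?_
    congr 1
    · funext i
      fin_cases i
      exacts [act_u0 k, act_u1 k, act_u2 k, act_u3 k, act_u4 k, act_u5 k]
    · funext i
      exact act_algP k (v i)
  rw [h1]
  simp only [phi, ev_add, ev_algebraMap, ev_algebraMap_mul, ev_word1, ev_word2, ev_word3, ev_word4, ev_word5, ev_word6, ev_word7, ev_word8, ev_word9, ev_word10, ev_word11, ev_word12, ev_word13]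
  refine funext fun i => ?_
  fin_cases i
  · exact coord0 v
  · exact coord1 v
  · exact coord2 v
  · exact coord3 v
  · exact coord4 v
  · exact coord5 v
  · exact coord6 v
  · exact coord7 v
  · exact coord8 v
  · exact coord9 v
  · exact coord10 v
  · exact coord11 v
  · exact coord12 v
  · exact coord13 v

/-- `PL k` is free of rank fourteen over the polynomial ring in the antidiagonal sums. -/
noncomputable def basisEquiv :
    (Fin 14 → MvPolynomial (Fin 9) k) ≃ₗ[MvPolynomial (Fin 9) k] PL k :=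
  LinearEquiv.ofBijective (Phi k) ⟨fun v w h => by
    rw [← act_Phi k v, ← act_Phi k w, h], Phi_surjective k⟩

instance : Module.Free (MvPolynomial (Fin 9) k) (PL k) := Module.Free.of_equiv (basisEquiv k)

instance : Module.Finite (MvPolynomial (Fin 9) k) (PL k) := Module.Finite.equiv (basisEquiv k)

end PL

end Pool.Agent.J6H65.Hilb4
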