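import Pool.Agent.J6H65.Hilb4.QC

set_option autoImplicit false
set_option linter.unusedSectionVars false

open TensorProduct

namespace Pool.Agent.J6H65.Hilb4

theorem det4' {R : Type*} [CommRing R] (N : Matrix (Fin 4) (Fin 4) R)
    (h : ∀ i : Fin 3, N i.succ 0 = 0) : N.det = N 0 0 * (N.submatrix Fin.succ Fin.succ).det := by
  rw [Matrix.det_succ_column_zero, Fin.sum_univ_succ]
  simp [h]

/-- A basis of a based algebra can be changed into one containing the unit. -/
theorem exists_basis_one {R A : Type*} [CommRing R] [CommRing A] [Algebra R A]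
    (c : Module.Basis (Fin 4) R A) (hc : IsUnit (c.repr 1 0)) :
    ∃ w : Module.Basis (Fin 4) R A, w 0 = 1 := by
  let v : Fin 4 → A := Fin.cons 1 (fun i => c i.succ)
  have hv : IsUnit (c.det v) := by
    rw [Module.Basis.det_apply, ← Matrix.det_transpose, det4']
    · have h1 : (c.toMatrix v).transpose 0 0 = c.repr 1 0 := rfl
      have h2 : ((c.toMatrix v).transpose.submatrix Fin.succ Fin.succ) = 1 := by
        ext i j
        rw [Matrix.submatrix_apply, Matrix.transpose_apply, Module.Basis.toMatrix_apply]
        change c.repr (c i.succ) j.succ = _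
        rw [Module.Basis.repr_self, Finsupp.single_apply, Matrix.one_apply]
        simp only [Fin.succ_inj]
      rw [h1, h2, Matrix.det_one, mul_one]
      exact hc
    · intro i
      change c.repr (c i.succ) 0 = 0
      rw [Module.Basis.repr_self, Finsupp.single_apply, if_neg (Fin.succ_ne_zero i)]
  obtain ⟨h1, h2⟩ := (Module.Basis.is_basis_iff_det c).mpr hv
  exact ⟨Module.Basis.mk h1 h2.ge, by rw [Module.Basis.mk_apply]; rfl⟩

theorem trace_one {R A : Type*} [CommRing R] [CommRing A] [Algebra R A]
    (w : Module.Basis (Fin 4) R A) : Algebra.trace R A 1 = 4 := by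
  have := Algebra.trace_algebraMap_of_basis w (1 : R)
  rw [map_one] at this
  rw [this]
  simp

theorem exists_basis_trace {R A : Type*} [CommRing R] [CommRing A] [Algebra R A]
    (w : Module.Basis (Fin 4) R A) (hw : w 0 = 1) (q : R) (hq : 4 * q = 1) :
    ∃ b : Module.Basis (Fin 4) R A, b 0 = 1 ∧
      ∀ i : Fin 3, Algebra.trace R A (b i.succ) = 0 := by
  let v : Fin 4 → A := Fin.cons 1 (fun i => w i.succ - (q * Algebra.trace R A (w i.succ)) • w 0)
  have hv : IsUnit (w.det v) := by
    rw [Module.Basis.det_apply, det4']
    · have h1 : (w.toMatrix v) 0 0 = 1 := by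
        change w.repr 1 0 = 1
        rw [← hw, Module.Basis.repr_self, Finsupp.single_eq_same]
      have h2 : ((w.toMatrix v).submatrix Fin.succ Fin.succ) = 1 := by
        ext i j
        rw [Matrix.submatrix_apply, Module.Basis.toMatrix_apply]
        change w.repr (w j.succ - _) i.succ = _
        rw [map_sub, map_smul, Finsupp.sub_apply, Finsupp.smul_apply, Module.Basis.repr_self,
          Module.Basis.repr_self, Finsupp.single_apply, Finsupp.single_apply,
          if_neg (Fin.succ_ne_zero i).symm, Matrix.one_apply]
        simp only [Fin.succ_inj, smul_zero, sub_zero, eq_comm]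
      rw [h1, h2, Matrix.det_one, mul_one]
      exact isUnit_one
    · intro i
      change w.repr 1 i.succ = 0
      rw [← hw, Module.Basis.repr_self, Finsupp.single_apply, if_neg (Fin.succ_ne_zero i).symm]
  obtain ⟨h1, h2⟩ := (Module.Basis.is_basis_iff_det w).mpr hv
  refine ⟨Module.Basis.mk h1 h2.ge, by rw [Module.Basis.mk_apply]; rfl, fun i => ?_⟩
  rw [Module.Basis.mk_apply]
  change Algebra.trace R A (w i.succ - _) = 0
  rw [map_sub, map_smul, hw, trace_one w, smul_eq_mul]
  linear_combination (-Algebra.trace R A (w i.succ)) * hq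

theorem exists_trace_basis {R A : Type} [CommRing R] [CommRing A] [Algebra R A]
    (c : Module.Basis (Fin 4) R A) (P : Ideal R) (hP : P.IsPrime) (q : R) (hq : 4 * q = 1) :
    ∃ x ∉ P, ∃ b : Module.Basis (Fin 4) (Localization.Away x) (Localization.Away x ⊗[R] A),
      b 0 = 1 ∧ ∀ i : Fin 3,
        Algebra.trace (Localization.Away x) (Localization.Away x ⊗[R] A) (b i.succ) = 0 := by
  obtain ⟨i0, hi0⟩ : ∃ i, c.repr 1 i ∉ P := by
    by_contra hcon
    push Not at hcon
    have h1 : c 0 = ∑ i, c.repr 1 i • (c i * c 0) := by
      have h2 := congrArg (· * c 0) (c.sum_repr 1)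
      simp only [one_mul, Finset.sum_mul, smul_mul_assoc] at h2
      exact h2.symm
    have h3 : c.repr (c 0) 0 ∈ P := by
      rw [h1]
      simp only [map_sum, map_smul, Finsupp.coe_finsetSum, Finset.sum_apply, Finsupp.smul_apply,
        smul_eq_mul]
      exact P.sum_mem fun i _ => P.mul_mem_right _ (hcon i)
    rw [Module.Basis.repr_self, Finsupp.single_eq_same] at h3
    exact hP.ne_top ((Ideal.eq_top_iff_one _).mpr h3)
  let c' := c.reindex (Equiv.swap i0 0)
  have hc' : c'.repr 1 0 = c.repr 1 i0 := by
    rw [Module.Basis.repr_reindex, Finsupp.mapDomain_equiv_apply]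
    simp
  refine ⟨c.repr 1 i0, hi0, ?_⟩
  set x := c.repr 1 i0
  let d := Algebra.TensorProduct.basis (Localization.Away x) c'
  have hd : IsUnit (d.repr 1 0) := by
    have : d.repr 1 0 = algebraMap R _ x := by
      rw [Algebra.TensorProduct.one_def, Algebra.TensorProduct.basis_repr_tmul]
      simp [hc', Algebra.smul_def]
    rw [this]
    exact IsLocalization.Away.algebraMap_isUnit x
  obtain ⟨w, hw⟩ := exists_basis_one d hd
  exact exists_basis_trace w hw (algebraMap R _ q) (by
    rw [← map_ofNat (algebraMap R (Localization.Away x)) 4, ← map_mul, hq, map_one])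

theorem exists_free_basis {R A : Type} [CommRing R] [CommRing A] [Algebra R A]
    [Module.FinitePresentation R A] [Module.Flat R A] (P : PrimeSpectrum R)
    (hr : Module.rankAtStalk A P = 4) :
    ∃ x ∉ P.asIdeal,
      Nonempty (Module.Basis (Fin 4) (Localization.Away x) (Localization.Away x ⊗[R] A)) := by
  have hf : Module.Free (Localization.AtPrime P.asIdeal)
      (LocalizedModule P.asIdeal.primeCompl A) := by
    have := Module.freeLocus_eq_univ (R := R) (M := A)
    have h2 : P ∈ Module.freeLocus R A := by rw [this]; trivial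
    exact h2
  obtain ⟨x, hx, hfree, hrank⟩ := Module.FinitePresentation.exists_free_localizedModule_powers
    P.asIdeal.primeCompl (LocalizedModule.mkLinearMap P.asIdeal.primeCompl A)
    (Localization.AtPrime P.asIdeal)
  refine ⟨x, hx, ?_⟩
  have hx0 : Nontrivial (Localization.Away x) := by
    have : x ≠ 0 ∨ True := Or.inr trivial
    have hle : Submonoid.powers x ≤ P.asIdeal.primeCompl := Submonoid.powers_le.mpr hx
    exact (IsLocalization.map (M := Submonoid.powers x) (S := Localization.Away x)
      (T := P.asIdeal.primeCompl) (Localization.AtPrime P.asIdeal)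
      (RingHom.id R) hle).domain_nontrivial
  have hrank' : Module.finrank (Localization.Away x) (LocalizedModule.Away x A) = 4 := by
    rw [hrank, ← hr]
    rfl
  have : Module.Finite (Localization.Away x) (LocalizedModule.Away x A) :=
    Module.finite_of_finrank_pos (by rw [hrank']; norm_num)
  let b := Module.finBasisOfFinrankEq (Localization.Away x) (LocalizedModule.Away x A) hrank'
  exact ⟨b.map (LocalizedModule.equivTensorProduct (Submonoid.powers x) A)⟩

end Pool.Agent.J6H65.Hilb4
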