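import Pool.Agent.J6H65.Hilb4.QC

set_option autoImplicit false
set_option linter.unusedSectionVars false

namespace Pool.Agent.J6H65.Hilb4

/-- Lifting along square zero surjections. -/
def Lifts {k S : Type} [CommRing k] [CommRing S] (κ : k →+* S) : Prop :=
  ∀ (B B' : Type) [CommRing B] [CommRing B'] (q : B →+* B'), Function.Surjective q →
    (∀ x y, q x = 0 → q y = 0 → x * y = 0) → ∀ (κB : k →+* B) (ξ' : S →+* B'),
    ξ'.comp κ = q.comp κB → ∃ ξ : S →+* B, ξ.comp κ = κB ∧ q.comp ξ = ξ'

/-- The infinitesimal lifting property of a family of based algebras with a generating map. -/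
def UP {k R A S : Type} [CommRing k] [CommRing R] [CommRing A] [CommRing S] [Algebra R A]
    (κR : k →+* R) (κS : k →+* S) (ξ : S →+* A) : Prop :=
  ∀ (C C' B B' : Type) [CommRing C] [CommRing C'] [CommRing B] [CommRing B'] [Algebra C B]
    [Algebra C' B'] (p : C →+* C') (q : B →+* B'), Function.Surjective p →
    (∀ x y, p x = 0 → p y = 0 → x * y = 0) →
    (∀ c, q (algebraMap C B c) = algebraMap C' B' (p c)) →
    ∀ (β : Module.Basis (Fin 4) C B) (β' : Module.Basis (Fin 4) C' B'), (∀ i, q (β i) = β' i) →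
    ∀ (κC : k →+* C) (ξ' : S →+* B), ξ'.comp κS = (algebraMap C B).comp κC →
    Algebra.adjoin C (Set.range ξ') = ⊤ →
    ∀ (f' : R →+* C') (g' : A →+* B'), f'.comp κR = p.comp κC →
    (∀ r, g' (algebraMap R A r) = algebraMap C' B' (f' r)) → (∀ x, g' (ξ x) = q (ξ' x)) →
    ∃ (f : R →+* C) (g : A →+* B), f.comp κR = κC ∧ p.comp f = f' ∧
      (∀ r, g (algebraMap R A r) = algebraMap C B (f r)) ∧ ∀ x, g (ξ x) = ξ' x

section gen

variable {R A S C B : Type} [CommRing R] [CommRing A] [CommRing S] [CommRing C] [CommRing B]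
  [Algebra R A] [Algebra C B]

theorem basis_of_span (β : Module.Basis (Fin 4) C B) (γ : Fin 4 → B)
    (h : Submodule.span C (Set.range γ) = ⊤) : ∃ γ' : Module.Basis (Fin 4) C B, ∀ i, γ' i = γ i := by
  let L : B →ₗ[C] B := β.constr C γ
  have hL : ∀ i, L (β i) = γ i := fun i => β.constr_basis C γ i
  have hsurj : Function.Surjective L := by
    rw [← LinearMap.range_eq_top, eq_top_iff, ← h, Submodule.span_le]
    rintro _ ⟨i, rfl⟩
    exact ⟨β i, hL i⟩
  have : Module.Finite C B := Module.Finite.of_basis β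
  have hinj : Function.Injective L := OrzechProperty.injective_of_surjective_endomorphism L hsurj
  refine ⟨β.map (LinearEquiv.ofBijective L ⟨hinj, hsurj⟩), fun i => ?_⟩
  rw [Module.Basis.map_apply]
  exact hL i

theorem span_of_gen (b : Module.Basis (Fin 4) R A) (f : R →+* C) (g : A →+* B)
    (hg : ∀ r, g (algebraMap R A r) = algebraMap C B (f r)) (ξ' : S → B) (ξ : S → A)
    (hξ : ∀ x, g (ξ x) = ξ' x)
    (gen : Algebra.adjoin C (Set.range ξ') = ⊤) :
    Submodule.span C (Set.range fun i => g (b i)) = ⊤ := by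
  set N := Submodule.span C (Set.range fun i => g (b i)) with hN
  have hA : ∀ a, g a ∈ N := by
    intro a
    rw [← b.sum_repr a, map_sum]
    refine Submodule.sum_mem _ fun i _ => ?_
    rw [Algebra.smul_def, map_mul, hg, ← Algebra.smul_def]
    exact N.smul_mem _ (Submodule.subset_span ⟨i, rfl⟩)
  have hmul : N * N ≤ N := by
    rw [hN, Submodule.span_mul_span, Submodule.span_le]
    rintro _ ⟨_, ⟨i, rfl⟩, _, ⟨j, rfl⟩, rfl⟩
    change g (b i) * g (b j) ∈ N
    rw [← map_mul]
    exact hA _
  have hone : (1 : B) ∈ N := by rw [← map_one g]; exact hA 1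
  rw [eq_top_iff]
  intro v _
  have hv : v ∈ Algebra.adjoin C (Set.range ξ') := by rw [gen]; trivial
  induction hv using Algebra.adjoin_induction with
  | mem x hx =>
    obtain ⟨y, rfl⟩ := hx
    rw [← hξ]
    exact hA _
  | algebraMap r =>
    rw [Algebra.algebraMap_eq_smul_one]
    exact N.smul_mem _ hone
  | add x y _ _ hx hy => exact N.add_mem (hx trivial) (hy trivial)
  | mul x y _ _ hx hy => exact hmul (Submodule.mul_mem_mul (hx trivial) (hy trivial))

theorem gen_of_span (b : Module.Basis (Fin 4) R A) (f : R →+* C) (g : A →+* B)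
    (hg : ∀ r, g (algebraMap R A r) = algebraMap C B (f r)) (ξ : S → A)
    (gen : Algebra.adjoin R (Set.range ξ) = ⊤)
    (hs : Submodule.span C (Set.range fun i => g (b i)) = ⊤) :
    Algebra.adjoin C (Set.range fun x => g (ξ x)) = ⊤ := by
  have hA : ∀ a, g a ∈ Algebra.adjoin C (Set.range fun x => g (ξ x)) := by
    intro a
    have ha : a ∈ Algebra.adjoin R (Set.range ξ) := by rw [gen]; trivial
    induction ha using Algebra.adjoin_induction with
    | mem x hx =>
      obtain ⟨y, rfl⟩ := hx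
      exact Algebra.subset_adjoin ⟨y, rfl⟩
    | algebraMap r =>
      rw [hg]
      exact Subalgebra.algebraMap_mem _ _
    | add x y _ _ hx hy => rw [map_add]; exact Subalgebra.add_mem _ hx hy
    | mul x y _ _ hx hy => rw [map_mul]; exact Subalgebra.mul_mem _ hx hy
  rw [eq_top_iff]
  intro v _
  have hv : v ∈ Submodule.span C (Set.range fun i => g (b i)) := by rw [hs]; trivial
  induction hv using Submodule.span_induction with
  | mem x hx =>
    obtain ⟨i, rfl⟩ := hx
    exact hA _
  | zero => exact Subalgebra.zero_mem _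
  | add x y _ _ hx hy => exact Subalgebra.add_mem _ (hx trivial) (hy trivial)
  | smul c x _ hx => exact Subalgebra.smul_mem _ (hx trivial) c

theorem gen_lift {C' B' : Type} [CommRing C'] [CommRing B'] [Algebra C' B'] (p : C →+* C')
    (q : B →+* B') (hp : Function.Surjective p) (hp2 : ∀ x y, p x = 0 → p y = 0 → x * y = 0)
    (hq : ∀ c, q (algebraMap C B c) = algebraMap C' B' (p c))
    (β : Module.Basis (Fin 4) C B) (β' : Module.Basis (Fin 4) C' B') (hβ : ∀ i, q (β i) = β' i)
    (ξ' : S → B) (gen : Algebra.adjoin C' (Set.range fun x => q (ξ' x)) = ⊤) :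
    Algebra.adjoin C (Set.range ξ') = ⊤ := by
  have hlift : ∀ w : B', ∃ v ∈ Algebra.adjoin C (Set.range ξ'), q v = w := by
    intro w
    have hw : w ∈ Algebra.adjoin C' (Set.range fun x => q (ξ' x)) := by rw [gen]; trivial
    induction hw using Algebra.adjoin_induction with
    | mem x hx =>
      obtain ⟨y, rfl⟩ := hx
      exact ⟨ξ' y, Algebra.subset_adjoin ⟨y, rfl⟩, rfl⟩
    | algebraMap r =>
      obtain ⟨c, rfl⟩ := hp r
      exact ⟨algebraMap C B c, Subalgebra.algebraMap_mem _ _, hq c⟩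
    | add x y _ _ hx hy =>
      obtain ⟨v, hv, rfl⟩ := hx
      obtain ⟨w, hw, rfl⟩ := hy
      exact ⟨v + w, Subalgebra.add_mem _ hv hw, map_add _ _ _⟩
    | mul x y _ _ hx hy =>
      obtain ⟨v, hv, rfl⟩ := hx
      obtain ⟨w, hw, rfl⟩ := hy
      exact ⟨v * w, Subalgebra.mul_mem _ hv hw, map_mul _ _ _⟩
  have hker : ∀ v : B, q v = 0 → ∀ i, p (β.repr v i) = 0 := by
    intro v hv i
    rw [← β.sum_repr v, map_sum] at hv
    have h1 : ∑ i, p (β.repr v i) • β' i = 0 := by
      rw [← hv]
      refine Finset.sum_congr rfl fun i _ => ?_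
      rw [Algebra.smul_def, Algebra.smul_def, map_mul, hq, hβ]
    exact Fintype.linearIndependent_iff.mp β'.linearIndependent _ h1 i
  have key : ∀ v : B, ∃ n : Fin 4 → C, (∀ i, p (n i) = 0) ∧
      v - ∑ i, n i • β i ∈ Algebra.adjoin C (Set.range ξ') := by
    intro v
    obtain ⟨w, hw, hvw⟩ := hlift (q v)
    refine ⟨fun i => β.repr (v - w) i, hker _ (by rw [map_sub, hvw, sub_self]), ?_⟩
    have : ∑ i, β.repr (v - w) i • β i = v - w := β.sum_repr _
    rw [this, sub_sub_cancel]
    exact hw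
  rw [eq_top_iff]
  intro v _
  obtain ⟨n, hn, hv⟩ := key v
  have h2 : ∀ i, n i • β i ∈ Algebra.adjoin C (Set.range ξ') := by
    intro i
    obtain ⟨m, hm, hi⟩ := key (β i)
    have h3 : n i • β i = n i • (β i - ∑ j, m j • β j) := by
      rw [smul_sub, Finset.smul_sum]
      have : ∑ j, n i • m j • β j = 0 := Finset.sum_eq_zero fun j _ => by
        rw [smul_smul, hp2 _ _ (hn i) (hm j), zero_smul]
      rw [this, sub_zero]
    rw [h3]
    exact Subalgebra.smul_mem _ hi _
  have h4 : v = (v - ∑ i, n i • β i) + ∑ i, n i • β i := by ring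
  rw [h4]
  exact Subalgebra.add_mem _ hv (Subalgebra.sum_mem _ fun i _ => h2 i)

end gen

end Pool.Agent.J6H65.Hilb4
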