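import Pool.Agent.J6H65.Hilb4.Defs
import Pool.Agent.J6H65.Hilb4.QD

set_option autoImplicit false
set_option linter.unusedSectionVars false

open AlgebraicGeometry CategoryTheory Limits TensorProduct

namespace Pool.Agent.J6H65.Hilb4

theorem isPushout_basis {C C' B B' : Type} [CommRing C] [CommRing C'] [CommRing B] [CommRing B']
    [Algebra C B] [Algebra C' B'] (p : C →+* C') (q : B →+* B')
    (hq : ∀ c, q (algebraMap C B c) = algebraMap C' B' (p c)) (β : Module.Basis (Fin 4) C B)
    (β' : Module.Basis (Fin 4) C' B') (hβ : ∀ i, q (β i) = β' i) :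
    IsPushout (CommRingCat.ofHom p) (CommRingCat.ofHom (algebraMap C B))
      (CommRingCat.ofHom (algebraMap C' B')) (CommRingCat.ofHom q) := by
  let _ : Algebra C C' := p.toAlgebra
  let _ : Algebra B B' := q.toAlgebra
  let _ : Algebra C B' := ((algebraMap C' B').comp p).toAlgebra
  have : IsScalarTower C C' B' := IsScalarTower.of_algebraMap_eq fun _ => rfl
  have : IsScalarTower C B B' := IsScalarTower.of_algebraMap_eq fun c => (hq c).symm
  have : Algebra.IsPushout C C' B B' := by
    refine ⟨IsBaseChange.of_equiv ((Algebra.TensorProduct.basis C' β).equiv β' (Equiv.refl _)) ?_⟩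
    intro x
    have h : ((((Algebra.TensorProduct.basis C' β).equiv β' (Equiv.refl _)).toLinearMap.restrictScalars C)
        ∘ₗ (TensorProduct.mk C C' B 1)) = (IsScalarTower.toAlgHom C B B').toLinearMap := by
      refine β.ext fun i => ?_
      change ((Algebra.TensorProduct.basis C' β).equiv β' (Equiv.refl _)) ((1 : C') ⊗ₜ[C] β i) = q (β i)
      rw [← Algebra.TensorProduct.basis_apply, Module.Basis.equiv_apply, hβ]
      rfl
    exact DFunLike.congr_fun h x
  exact CommRingCat.isPushout_of_isPushout C C' B B'

theorem hom_ext_adjoin {W : Scheme.{0}} {S C B : Type} [CommRing S] [CommRing C] [CommRing B]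
    [Algebra C B] (ξ' : S →+* B) (gen : Algebra.adjoin C (Set.range ξ') = ⊤)
    (a b : W ⟶ Spec (.of B))
    (h1 : a ≫ Spec.map (CommRingCat.ofHom (algebraMap C B)) =
      b ≫ Spec.map (CommRingCat.ofHom (algebraMap C B)))
    (h2 : a ≫ Spec.map (CommRingCat.ofHom ξ') = b ≫ Spec.map (CommRingCat.ofHom ξ')) : a = b := by
  apply ext_of_isAffine
  have key : ∀ {D : Type} [CommRing D] (f : D →+* B), a ≫ Spec.map (CommRingCat.ofHom f) =
      b ≫ Spec.map (CommRingCat.ofHom f) → ∀ x : D,
      ((Scheme.ΓSpecIso (.of B)).inv ≫ a.appTop).hom (f x) =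
        ((Scheme.ΓSpecIso (.of B)).inv ≫ b.appTop).hom (f x) := by
    intro D _ f hf x
    have h3 : CommRingCat.ofHom f ≫ (Scheme.ΓSpecIso (.of B)).inv ≫ a.appTop =
        CommRingCat.ofHom f ≫ (Scheme.ΓSpecIso (.of B)).inv ≫ b.appTop := by
      rw [← Category.assoc, ← Category.assoc, Scheme.ΓSpecIso_inv_naturality, Category.assoc,
        Category.assoc, ← Scheme.Hom.comp_appTop, ← Scheme.Hom.comp_appTop, hf]
    exact congr($h3 x)
  have h4 : (Scheme.ΓSpecIso (.of B)).inv ≫ a.appTop = (Scheme.ΓSpecIso (.of B)).inv ≫ b.appTop := by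
    ext x
    have hx : x ∈ Algebra.adjoin C (Set.range ξ') := by rw [gen]; trivial
    induction hx using Algebra.adjoin_induction with
    | mem x hx =>
      obtain ⟨y, rfl⟩ := hx
      exact key ξ' h2 y
    | algebraMap r => exact key (algebraMap C B) h1 r
    | add x y _ _ hx hy => rw [map_add, map_add, hx, hy]
    | mul x y _ _ hx hy => rw [map_mul, map_mul, hx, hy]
  exact (cancel_epi _).mp h4

section affine

variable {X : Over SpecC} {S : Type} [CommRing S] (i : Spec (.of S) ⟶ X.left) [IsOpenImmersion i]
  (κS : ℂ →+* S) (hi : i ≫ X.hom = Spec.map (CommRingCat.ofHom κS)) [IsSeparated X.hom]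
  {C B : Type} [CommRing C] [CommRing B] [Algebra C B] (κC : ℂ →+* C)
  (β : Module.Basis (Fin 4) C B) (ξ' : S →+* B) (hξ : ξ'.comp κS = (algebraMap C B).comp κC)
  (gen : Algebra.adjoin C (Set.range ξ') = ⊤)

include hi hξ in
theorem aff_w : (Spec.map (CommRingCat.ofHom ξ') ≫ i) ≫ X.hom =
    Spec.map (CommRingCat.ofHom (algebraMap C B)) ≫ Spec.map (CommRingCat.ofHom κC) := by
  rw [Category.assoc, hi, ← Spec.map_comp, ← Spec.map_comp, ← CommRingCat.ofHom_comp,
    ← CommRingCat.ofHom_comp, hξ]

include β in
theorem aff_finite : IsFinite (Spec.map (CommRingCat.ofHom (algebraMap C B))) := by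
  rw [IsFinite.SpecMap_iff]
  have : Module.Finite C B := Module.Finite.of_basis β
  exact RingHom.finite_algebraMap.mpr this

include β in
theorem aff_flat : Flat (Spec.map (CommRingCat.ofHom (algebraMap C B))) := by
  rw [Flat.SpecMap_iff]
  have : Module.Free C B := Module.Free.of_basis β
  exact RingHom.flat_algebraMap_iff.mpr inferInstance

include β in
theorem aff_lfp : LocallyOfFinitePresentation (Spec.map (CommRingCat.ofHom (algebraMap C B))) := by
  rw [LocallyOfFinitePresentation.SpecMap_iff]
  have : Module.Free C B := Module.Free.of_basis β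
  have : Module.Finite C B := Module.Finite.of_basis β
  have : Module.FinitePresentation C B := Module.finitePresentation_of_projective C B
  exact RingHom.finitePresentation_algebraMap.mpr inferInstance

include β in
theorem aff_degree (t : Spec (.of C)) :
    (Spec.map (CommRingCat.ofHom (algebraMap C B))).finrank t = 4 := by
  have : Module.Free C B := Module.Free.of_basis β
  have : Module.Finite C B := Module.Finite.of_basis β
  refine (Scheme.Hom.finrank_SpecMap_algebraMap C B t).trans ?_
  have : Nontrivial C := (PrimeSpectrum.nonempty_iff_nontrivial).mp ⟨t⟩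
  rw [Module.rankAtStalk_eq_finrank_of_free, Module.finrank_eq_card_basis β]
  rfl

include β gen in
theorem aff_closed (w : (Spec.map (CommRingCat.ofHom ξ') ≫ i) ≫ X.hom =
    Spec.map (CommRingCat.ofHom (algebraMap C B)) ≫ Spec.map (CommRingCat.ofHom κC)) :
    IsClosedImmersion (pullback.lift (Spec.map (CommRingCat.ofHom ξ') ≫ i)
      (Spec.map (CommRingCat.ofHom (algebraMap C B))) w) := by
  rw [IsClosedImmersion.iff_isFinite_and_mono]
  constructor
  · have : IsFinite (pullback.lift (Spec.map (CommRingCat.ofHom ξ') ≫ i)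
      (Spec.map (CommRingCat.ofHom (algebraMap C B))) w ≫ pullback.snd _ _) := by
      rw [pullback.lift_snd]
      exact aff_finite β
    exact IsFinite.of_comp _ (pullback.snd X.hom (Spec.map (CommRingCat.ofHom κC)))
  · constructor
    intro W a b hab
    have h1 := congrArg (· ≫ pullback.fst _ _) hab
    have h2 := congrArg (· ≫ pullback.snd _ _) hab
    simp only [Category.assoc, pullback.lift_fst, pullback.lift_snd] at h1 h2
    refine hom_ext_adjoin ξ' gen a b h2 ?_
    rw [← Category.assoc, ← Category.assoc] at h1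
    exact (cancel_mono i).mp h1

/-- The family given by a based algebra with a generating map. -/
noncomputable def affFamily : Family 4 X (Over.mk (Spec.map (CommRingCat.ofHom κC))) where
  Z := Spec (.of B)
  p := Spec.map (CommRingCat.ofHom (algebraMap C B))
  u := Spec.map (CommRingCat.ofHom ξ') ≫ i
  w := aff_w i κS hi κC ξ' hξ
  isFinite := aff_finite β
  flat := aff_flat β
  locallyOfFinitePresentation := aff_lfp β
  degree := aff_degree β
  isClosedImmersion := aff_closed i κC β ξ' gen _

end affine

end Pool.Agent.J6H65.Hilb4
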