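import Pool.Agent.J6H65.Hilb4.Geo1

set_option autoImplicit false
set_option linter.unusedSectionVars false

open AlgebraicGeometry CategoryTheory Limits TensorProduct

namespace Pool.Agent.J6H65.Hilb4

theorem comap_surjective_aux {C C' : Type} [CommRing C] [CommRing C'] (p : C →+* C')
    (hp : Function.Surjective p) (hp2 : ∀ x y, p x = 0 → p y = 0 → x * y = 0)
    (z : PrimeSpectrum C) : ∃ z' : PrimeSpectrum C', PrimeSpectrum.comap p z' = z := by
  have h : z ∈ Set.range (PrimeSpectrum.comap p) := by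
    rw [range_comap_of_surjective _ _ hp, PrimeSpectrum.mem_zeroLocus]
    intro x hx
    have hx' : p x = 0 := hx
    have h2 : x * x ∈ z.asIdeal := by rw [hp2 x x hx' hx']; exact z.asIdeal.zero_mem
    exact (z.isPrime.mem_or_mem h2).elim id id
  exact h

theorem specMap_surjective {C C' : Type} [CommRing C] [CommRing C'] (p : C →+* C')
    (hp : Function.Surjective p) (hp2 : ∀ x y, p x = 0 → p y = 0 → x * y = 0)
    (z : Spec (.of C)) : ∃ z' : Spec (.of C'), Spec.map (CommRingCat.ofHom p) z' = z :=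
  comap_surjective_aux p hp hp2 z

section univ

variable {X H : Over SpecC} (F : Family 4 X H) (hF : F.IsUniversal)
  {S : Type} [CommRing S] (i : Spec (.of S) ⟶ X.left) [IsOpenImmersion i]
  (κS : ℂ →+* S) (hi : i ≫ X.hom = Spec.map (CommRingCat.ofHom κS)) [IsSeparated X.hom]
  {C B : Type} [CommRing C] [CommRing B] [Algebra C B] (κC : ℂ →+* C)
  (β : Module.Basis (Fin 4) C B) (ξ' : S →+* B) (hξ : ξ'.comp κS = (algebraMap C B).comp κC)
  (gen : Algebra.adjoin C (Set.range ξ') = ⊤)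

include hF hi β hξ gen

theorem univ_exists : ∃ φ : Spec (.of C) ⟶ H.left, φ ≫ H.hom = Spec.map (CommRingCat.ofHom κC) ∧
    ∃ ψ : Spec (.of B) ⟶ F.Z, IsPullback ψ (Spec.map (CommRingCat.ofHom (algebraMap C B))) F.p φ ∧
      ψ ≫ F.u = Spec.map (CommRingCat.ofHom ξ') ≫ i := by
  obtain ⟨φ, ⟨ψ, hψ1, hψ2⟩, -⟩ := hF _ (affFamily i κS hi κC β ξ' hξ gen)
  exact ⟨φ.left, Over.w φ, ψ, hψ1, hψ2⟩

theorem univ_unique (φ φ' : Spec (.of C) ⟶ H.left)
    (h : φ ≫ H.hom = Spec.map (CommRingCat.ofHom κC))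
    (h' : φ' ≫ H.hom = Spec.map (CommRingCat.ofHom κC))
    (e : ∃ ψ : Spec (.of B) ⟶ F.Z,
      IsPullback ψ (Spec.map (CommRingCat.ofHom (algebraMap C B))) F.p φ ∧
      ψ ≫ F.u = Spec.map (CommRingCat.ofHom ξ') ≫ i)
    (e' : ∃ ψ : Spec (.of B) ⟶ F.Z,
      IsPullback ψ (Spec.map (CommRingCat.ofHom (algebraMap C B))) F.p φ' ∧
      ψ ≫ F.u = Spec.map (CommRingCat.ofHom ξ') ≫ i) : φ = φ' := by
  obtain ⟨φ0, -, huniq⟩ := hF _ (affFamily i κS hi κC β ξ' hξ gen)
  have h1 : (Over.homMk φ h : Over.mk (Spec.map (CommRingCat.ofHom κC)) ⟶ H) = φ0 := huniq _ e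
  have h2 : (Over.homMk φ' h' : Over.mk (Spec.map (CommRingCat.ofHom κC)) ⟶ H) = φ0 := huniq _ e'
  exact congrArg CommaMorphism.left (h1.trans h2.symm)

end univ

theorem up_of_universal {X H : Over SpecC} [IsSeparated X.hom] (F : Family 4 X H)
    (hF : F.IsUniversal) {R A S : Type} [CommRing R] [CommRing A] [CommRing S] [Algebra R A]
    (jR : Spec (.of R) ⟶ H.left) [IsOpenImmersion jR] (jA : Spec (.of A) ⟶ F.Z)
    (sq : IsPullback jA (Spec.map (CommRingCat.ofHom (algebraMap R A))) F.p jR)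
    (i : Spec (.of S) ⟶ X.left) [IsOpenImmersion i] (ξ : S →+* A)
    (hξ : jA ≫ F.u = Spec.map (CommRingCat.ofHom ξ) ≫ i)
    (κR : ℂ →+* R) (hκR : jR ≫ H.hom = Spec.map (CommRingCat.ofHom κR))
    (κS : ℂ →+* S) (hκS : i ≫ X.hom = Spec.map (CommRingCat.ofHom κS))
    (b : Module.Basis (Fin 4) R A) : UP κR κS ξ := by
  intro C C' B B' _ _ _ _ _ _ p q hp hp2 hq β β' hβ κC ξ' hξ' gen f' g' hf' hg' hgξ
  -- the map `q` is surjective and the restricted map generates
  have hqs : Function.Surjective q := by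
    intro w
    have hw : w ∈ Submodule.span C' (Set.range β') := by rw [β'.span_eq]; trivial
    induction hw using Submodule.span_induction with
    | mem x hx =>
      obtain ⟨n, rfl⟩ := hx
      exact ⟨β n, hβ n⟩
    | zero => exact ⟨0, map_zero q⟩
    | add x y _ _ hx hy =>
      obtain ⟨x', rfl⟩ := hx
      obtain ⟨y', rfl⟩ := hy
      exact ⟨x' + y', map_add _ _ _⟩
    | smul c x _ hx =>
      obtain ⟨x', rfl⟩ := hx
      obtain ⟨c', rfl⟩ := hp c
      exact ⟨algebraMap C B c' * x', by rw [map_mul, hq, Algebra.smul_def]⟩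
  have gen' : Algebra.adjoin C' (Set.range (q.comp ξ')) = ⊤ := by
    have := gen_of_span β p q hq ξ' gen (by
      have : (fun n => q (β n)) = β' := funext hβ
      rw [this, β'.span_eq])
    exact this
  have hξ'' : (q.comp ξ').comp κS = (algebraMap C' B').comp (p.comp κC) := by
    rw [RingHom.comp_assoc, hξ']
    ext c
    exact hq _
  obtain ⟨φ, hφw, ψ, hψ1, hψ2⟩ := univ_exists F hF i κS hκS κC β ξ' hξ' gen
  -- first comparison
  have hsq1 : IsPullback (Spec.map (CommRingCat.ofHom q))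
      (Spec.map (CommRingCat.ofHom (algebraMap C' B')))
      (Spec.map (CommRingCat.ofHom (algebraMap C B))) (Spec.map (CommRingCat.ofHom p)) :=
    (isPullback_SpecMap_of_isPushout _ _ _ _ (isPushout_basis p q hq β β' hβ)).flip
  -- second comparison
  obtain ⟨γ, hγ⟩ := basis_of_span β' (fun n => g' (b n))
    (span_of_gen b f' g' hg' (fun x => q (ξ' x)) ξ hgξ gen')
  have hsq2 : IsPullback (Spec.map (CommRingCat.ofHom g'))
      (Spec.map (CommRingCat.ofHom (algebraMap C' B')))
      (Spec.map (CommRingCat.ofHom (algebraMap R A))) (Spec.map (CommRingCat.ofHom f')) :=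
    (isPullback_SpecMap_of_isPushout _ _ _ _
      (isPushout_basis f' g' hg' b γ (fun n => (hγ n).symm))).flip
  have h12 : Spec.map (CommRingCat.ofHom p) ≫ φ = Spec.map (CommRingCat.ofHom f') ≫ jR := by
    refine univ_unique F hF i κS hκS (p.comp κC) β' (q.comp ξ') hξ'' gen' _ _ ?_ ?_
      ⟨Spec.map (CommRingCat.ofHom q) ≫ ψ, hsq1.paste_horiz hψ1, ?_⟩
      ⟨Spec.map (CommRingCat.ofHom g') ≫ jA, hsq2.paste_horiz sq, ?_⟩
    · rw [Category.assoc, hφw, ← Spec.map_comp, ← CommRingCat.ofHom_comp]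
    · rw [Category.assoc, hκR, ← Spec.map_comp, ← CommRingCat.ofHom_comp, hf']
    · rw [Category.assoc, hψ2, CommRingCat.ofHom_comp, Spec.map_comp, Category.assoc]
    · rw [Category.assoc, hξ, ← Category.assoc, ← Spec.map_comp, ← CommRingCat.ofHom_comp]
      congr 3
      ext x
      exact hgξ x
  have hrange : Set.range φ ⊆ Set.range jR := by
    rintro _ ⟨z, rfl⟩
    obtain ⟨z', hz'⟩ := specMap_surjective p hp hp2 z
    refine ⟨Spec.map (CommRingCat.ofHom f') z', ?_⟩
    have : (Spec.map (CommRingCat.ofHom f') ≫ jR) z' =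
        (Spec.map (CommRingCat.ofHom p) ≫ φ) z' := by rw [h12]
    rw [Scheme.Hom.comp_apply, Scheme.Hom.comp_apply, hz'] at this
    exact this
  let l : Spec (.of C) ⟶ Spec (.of R) := IsOpenImmersion.lift jR φ hrange
  have hl : l ≫ jR = φ := IsOpenImmersion.lift_fac _ _ _
  obtain ⟨f, hf⟩ := Spec.map_surjective l
  have hψ3 : ψ ≫ F.p = (Spec.map (CommRingCat.ofHom (algebraMap C B)) ≫ l) ≫ jR := by
    rw [Category.assoc, hl]
    exact hψ1.w
  let m : Spec (.of B) ⟶ Spec (.of A) := sq.lift ψ _ hψ3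
  have hm1 : m ≫ jA = ψ := sq.lift_fst _ _ _
  have hm2 : m ≫ Spec.map (CommRingCat.ofHom (algebraMap R A)) =
    Spec.map (CommRingCat.ofHom (algebraMap C B)) ≫ l := sq.lift_snd _ _ _
  obtain ⟨g, hg⟩ := Spec.map_surjective m
  refine ⟨f.hom, g.hom, ?_, ?_, ?_, ?_⟩
  · have : Spec.map (CommRingCat.ofHom κR ≫ f) = Spec.map (CommRingCat.ofHom κC) := by
      rw [Spec.map_comp, hf, ← hκR, ← Category.assoc, hl, hφw]
    have := Spec.map_injective this
    exact congrArg CommRingCat.Hom.hom this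
  · have : Spec.map (f ≫ CommRingCat.ofHom p) = Spec.map (CommRingCat.ofHom f') := by
      rw [Spec.map_comp, hf, ← cancel_mono jR, Category.assoc, hl, h12]
    have := Spec.map_injective this
    exact congrArg CommRingCat.Hom.hom this
  · have : Spec.map (CommRingCat.ofHom (algebraMap R A) ≫ g) =
        Spec.map (f ≫ CommRingCat.ofHom (algebraMap C B)) := by
      rw [Spec.map_comp, Spec.map_comp, hf, hg, hm2]
    have := Spec.map_injective this
    intro r
    exact congr($this r)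
  · have : Spec.map (CommRingCat.ofHom ξ ≫ g) = Spec.map (CommRingCat.ofHom ξ') := by
      rw [Spec.map_comp, hg, ← cancel_mono i, Category.assoc, ← hξ, ← Category.assoc, hm1]
      exact hψ2
    have := Spec.map_injective this
    intro x
    exact congr($this x)

end Pool.Agent.J6H65.Hilb4
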