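import Pool.Agent.J6H65.Hilb4.Geo1
import Pool.Agent.J6H65.Hilb4.FreeAlg

set_option autoImplicit false
set_option linter.unusedSectionVars false

open AlgebraicGeometry CategoryTheory Limits TensorProduct

namespace Pool.Agent.J6H65.Hilb4

variable {X H : Over SpecC} (F : Family 4 X H)

/-- A chart of a family. -/
structure Chart (R A : Type) [CommRing R] [CommRing A] [Algebra R A] where
  /-- The open immersion into the base. -/
  jR : Spec (.of R) ⟶ H.left
  open' : IsOpenImmersion jR
  /-- The map of total spaces. -/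
  jA : Spec (.of A) ⟶ F.Z
  sq : IsPullback jA (Spec.map (CommRingCat.ofHom (algebraMap R A))) F.p jR

theorem exists_chart0 (h : H.left) (U : X.left.Opens) (hhU : ∀ z : F.Z, F.p z = h → F.u z ∈ U) :
    ∃ (R A : Type) (_ : CommRing R) (_ : CommRing A) (_ : Algebra R A) (c : Chart F R A)
      (_ : ∃ z, c.jR z = h), ∀ z, F.u (c.jA z) ∈ U := by
  have := F.isFinite
  let V : H.left.Opens := ⟨(F.p '' (F.u ⁻¹ᵁ U : Set F.Z)ᶜ)ᶜ, by
    rw [isOpen_compl_iff]
    exact F.p.isClosedMap _ (F.u ⁻¹ᵁ U).isOpen.isClosed_compl⟩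
  have hV : h ∈ V := by
    rintro ⟨z, hz, hzh⟩
    exact hz (hhU z hzh)
  obtain ⟨V0, hV0, hh, hle⟩ := exists_isAffineOpen_mem_and_subset hV
  let Z0 := pullback F.p hV0.fromSpec
  have : IsAffine Z0 := isAffine_of_isAffineHom (pullback.snd F.p hV0.fromSpec)
  let R := Γ(H.left, V0)
  let A := Γ(Z0, ⊤)
  obtain ⟨ρ, hρ⟩ := Spec.map_surjective (Z0.isoSpec.inv ≫ pullback.snd F.p hV0.fromSpec)
  let _ : Algebra R A := ρ.hom.toAlgebra
  have hsq : IsPullback (Z0.isoSpec.inv ≫ pullback.fst F.p hV0.fromSpec)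
      (Spec.map (CommRingCat.ofHom (algebraMap R A))) F.p hV0.fromSpec := by
    have h1 : IsPullback Z0.isoSpec.inv (Spec.map ρ) (pullback.snd F.p hV0.fromSpec) (𝟙 _) :=
      IsPullback.of_horiz_isIso ⟨by rw [hρ, Category.comp_id]⟩
    have h2 := h1.paste_horiz (IsPullback.of_hasPullback F.p hV0.fromSpec)
    rw [Category.id_comp] at h2
    exact h2
  refine ⟨R, A, inferInstance, inferInstance, inferInstance,
    ⟨hV0.fromSpec, inferInstance, _, hsq⟩, ?_, ?_⟩
  · have : h ∈ Set.range hV0.fromSpec := by rw [hV0.range_fromSpec]; exact hh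
    exact this
  · intro z
    by_contra hcon
    have h1 : F.p ((Z0.isoSpec.inv ≫ pullback.fst F.p hV0.fromSpec) z) ∈ V0 := by
      have h2 : (Z0.isoSpec.inv ≫ pullback.fst F.p hV0.fromSpec) ≫ F.p =
        Spec.map (CommRingCat.ofHom (algebraMap R A)) ≫ hV0.fromSpec := hsq.w
      rw [← Scheme.Hom.comp_apply, h2, Scheme.Hom.comp_apply]
      have h3 : ∀ y, hV0.fromSpec y ∈ (V0 : Set H.left) := fun y => by
        rw [← hV0.range_fromSpec]; exact ⟨y, rfl⟩
      exact h3 _
    exact hle h1 ⟨_, hcon, rfl⟩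

/-- Restriction of a chart to a basic open subset. -/
noncomputable def Chart.res {R A : Type} [CommRing R] [CommRing A] [Algebra R A] (c : Chart F R A)
    (x : R) : Chart F (Localization.Away x) (Localization.Away x ⊗[R] A) where
  jR := Spec.map (CommRingCat.ofHom (algebraMap R (Localization.Away x))) ≫ c.jR
  open' := by
    have := c.open'
    infer_instance
  jA := Spec.map (CommRingCat.ofHom
    (Algebra.TensorProduct.includeRight : A →ₐ[R] Localization.Away x ⊗[R] A).toRingHom) ≫ c.jA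
  sq := by
    have h1 := isPullback_SpecMap_of_isPushout _ _ _ _
      (CommRingCat.isPushout_tensorProduct R (Localization.Away x) A)
    have h2 := h1.flip.paste_horiz c.sq
    exact h2

theorem Chart.res_mem {R A : Type} [CommRing R] [CommRing A] [Algebra R A] (c : Chart F R A)
    (x : R) (z : PrimeSpectrum R) (hz : x ∉ z.asIdeal) :
    ∃ z' : PrimeSpectrum (Localization.Away x), (Chart.res F c x).jR z' = c.jR z := by
  have h1 : z ∈ Set.range (PrimeSpectrum.comap (algebraMap R (Localization.Away x))) := by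
    rw [PrimeSpectrum.localization_away_comap_range (Localization.Away x) x]
    exact hz
  obtain ⟨z', hz'⟩ := h1
  exact ⟨z', (Scheme.Hom.comp_apply (Spec.map (CommRingCat.ofHom
    (algebraMap R (Localization.Away x)))) c.jR z').trans (congrArg c.jR hz')⟩

theorem Chart.finite {R A : Type} [CommRing R] [CommRing A] [Algebra R A] (c : Chart F R A) :
    Module.Finite R A := by
  have := MorphismProperty.of_isPullback c.sq F.isFinite
  rw [IsFinite.SpecMap_iff] at this
  exact RingHom.finite_algebraMap.mp this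

theorem Chart.flat {R A : Type} [CommRing R] [CommRing A] [Algebra R A] (c : Chart F R A) :
    Module.Flat R A := by
  have := MorphismProperty.of_isPullback c.sq F.flat
  rw [Flat.SpecMap_iff] at this
  exact RingHom.flat_algebraMap_iff.mp this

theorem Chart.fp {R A : Type} [CommRing R] [CommRing A] [Algebra R A] (c : Chart F R A) :
    Algebra.FinitePresentation R A := by
  have := MorphismProperty.of_isPullback c.sq F.locallyOfFinitePresentation
  rw [LocallyOfFinitePresentation.SpecMap_iff] at this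
  exact RingHom.finitePresentation_algebraMap.mp this

theorem Chart.rank {R A : Type} [CommRing R] [CommRing A] [Algebra R A] (c : Chart F R A)
    (z : PrimeSpectrum R) : Module.rankAtStalk A z = 4 := by
  have := c.finite
  have := c.flat
  have := F.isFinite
  have := F.flat
  rw [← F.degree (c.jR z), ← Scheme.Hom.finrank_of_isPullback _ _ _ _ c.sq z]
  exact (Scheme.Hom.finrank_SpecMap_algebraMap R A z).symm

theorem exists_chart1 (h : H.left) (U : X.left.Opens) (hhU : ∀ z : F.Z, F.p z = h → F.u z ∈ U) :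
    ∃ (R A : Type) (_ : CommRing R) (_ : CommRing A) (_ : Algebra R A) (c : Chart F R A)
      (_ : ∃ z, c.jR z = h) (_ : ∀ z, F.u (c.jA z) ∈ U), Nonempty (Module.Basis (Fin 4) R A) := by
  obtain ⟨R, A, _, _, _, c, ⟨z, hz⟩, hU⟩ := exists_chart0 F h U hhU
  have := c.finite
  have := c.flat
  have := c.fp
  have : Module.FinitePresentation R A := Module.FinitePresentation.of_finite_of_finitePresentation R A
  obtain ⟨x, hx, ⟨b⟩⟩ := exists_free_basis (R := R) (A := A) z (c.rank F z)
  obtain ⟨z', hz'⟩ := c.res_mem F x z hx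
  refine ⟨_, _, _, _, _, Chart.res F c x, ⟨z', hz'.trans hz⟩, fun y => ?_, ⟨b⟩⟩
  exact hU _

theorem exists_chart2 (h : H.left) (U : X.left.Opens) (hhU : ∀ z : F.Z, F.p z = h → F.u z ∈ U)
    (hq : ∀ (R A : Type) [CommRing R] [CommRing A] [Algebra R A] (_ : Chart F R A),
      ∃ q : R, 4 * q = 1) :
    ∃ (R A : Type) (_ : CommRing R) (_ : CommRing A) (_ : Algebra R A) (c : Chart F R A)
      (_ : ∃ z, c.jR z = h) (_ : ∀ z, F.u (c.jA z) ∈ U) (b : Module.Basis (Fin 4) R A),
      b 0 = 1 ∧ ∀ i : Fin 3, Algebra.trace R A (b i.succ) = 0 := by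
  obtain ⟨R, A, _, _, _, c, ⟨z, hz⟩, hU, ⟨b⟩⟩ := exists_chart1 F h U hhU
  obtain ⟨q, hq⟩ := hq R A c
  obtain ⟨x, hx, b', hb'⟩ := exists_trace_basis b (PrimeSpectrum.asIdeal z)
    (PrimeSpectrum.isPrime z) q hq
  obtain ⟨z', hz'⟩ := c.res_mem F x z hx
  exact ⟨_, _, _, _, _, Chart.res F c x, ⟨z', hz'.trans hz⟩, fun y => hU _, b', hb'⟩

end Pool.Agent.J6H65.Hilb4
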