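import Pool.Agent.J6H65.Hilb4.Geo3
import Pool.Agent.J6H65.Hilb4.Geo2

set_option autoImplicit false
set_option linter.unusedSectionVars false

open AlgebraicGeometry CategoryTheory Limits TensorProduct

namespace Pool.Agent.J6H65.Hilb4

theorem surjective_of_isClosedImmersion {R S : Type} [CommRing R] [CommRing S] (f : R →+* S)
    (h : IsClosedImmersion (Spec.map (CommRingCat.ofHom f))) : Function.Surjective f := by
  obtain ⟨-, h2⟩ := IsClosedImmersion.isAffine_surjective_of_isAffine
    (Spec.map (CommRingCat.ofHom f))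
  have h3 : CommRingCat.ofHom f = (Scheme.ΓSpecIso (.of R)).inv ≫
      (Spec.map (CommRingCat.ofHom f)).appTop ≫ (Scheme.ΓSpecIso (.of S)).hom := by
    rw [← Category.assoc, ← Scheme.ΓSpecIso_inv_naturality, Category.assoc, Iso.inv_hom_id,
      Category.comp_id]
  intro y
  obtain ⟨x1, hx1⟩ := (Scheme.ΓSpecIso (.of S)).commRingCatIsoToRingEquiv.surjective y
  obtain ⟨x2, hx2⟩ := h2 x1
  obtain ⟨x3, hx3⟩ := (Scheme.ΓSpecIso (.of R)).symm.commRingCatIsoToRingEquiv.surjective x2
  refine ⟨x3, ?_⟩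
  have h4 := congr($h3 x3)
  refine Eq.trans h4 ?_
  change (Scheme.ΓSpecIso (.of S)).hom ((Spec.map (CommRingCat.ofHom f)).appTop
    ((Scheme.ΓSpecIso (.of R)).inv x3)) = y
  have h5 : (Scheme.ΓSpecIso (.of R)).inv x3 = x2 := hx3
  rw [h5, hx2]
  exact hx1

variable {X H : Over SpecC} (F : Family 4 X H)

theorem Chart.exists_xi {R A : Type} [CommRing R] [CommRing A] [Algebra R A] (c : Chart F R A)
    (U : X.left.Opens) (hU : IsAffineOpen U) (h : ∀ z, F.u (c.jA z) ∈ U) :
    ∃ ξ : Γ(X.left, U) →+* A, c.jA ≫ F.u = Spec.map (CommRingCat.ofHom ξ) ≫ hU.fromSpec ∧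
      Algebra.adjoin R (Set.range ξ) = ⊤ := by
  have hr : Set.range (c.jA ≫ F.u) ⊆ Set.range hU.fromSpec := by
    rw [hU.range_fromSpec]
    rintro _ ⟨z, rfl⟩
    exact h z
  obtain ⟨ξ, hξ⟩ := Spec.map_surjective (IsOpenImmersion.lift hU.fromSpec (c.jA ≫ F.u) hr)
  have hξ' : c.jA ≫ F.u = Spec.map (CommRingCat.ofHom ξ.hom) ≫ hU.fromSpec := by
    change _ = Spec.map ξ ≫ _
    rw [hξ, IsOpenImmersion.lift_fac]
  refine ⟨ξ.hom, hξ', ?_⟩
  let A' := Algebra.adjoin R (Set.range ξ.hom)
  let incl : A' →+* A := A'.subtype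
  have hmono : Mono (Spec.map (CommRingCat.ofHom incl)) := by
    constructor
    intro W a b hab
    have h1 : a ≫ Spec.map (CommRingCat.ofHom (algebraMap R A)) =
        b ≫ Spec.map (CommRingCat.ofHom (algebraMap R A)) := by
      have : Spec.map (CommRingCat.ofHom (algebraMap R A)) =
          Spec.map (CommRingCat.ofHom incl) ≫ Spec.map (CommRingCat.ofHom (algebraMap R A')) := by
        rw [← Spec.map_comp, ← CommRingCat.ofHom_comp]
        rfl
      rw [this, ← Category.assoc, hab, Category.assoc]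
    have h2 : a ≫ Spec.map (CommRingCat.ofHom ξ.hom) = b ≫ Spec.map (CommRingCat.ofHom ξ.hom) := by
      let ξ' : Γ(X.left, U) →+* A' := ξ.hom.codRestrict A'
        (fun x => Algebra.subset_adjoin ⟨x, rfl⟩)
      have : Spec.map (CommRingCat.ofHom ξ.hom) =
          Spec.map (CommRingCat.ofHom incl) ≫ Spec.map (CommRingCat.ofHom ξ') := by
        rw [← Spec.map_comp, ← CommRingCat.ofHom_comp]
        rfl
      rw [this, ← Category.assoc, hab, Category.assoc]
    have h3 : (a ≫ c.jA) ≫ F.u = (b ≫ c.jA) ≫ F.u := by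
      rw [Category.assoc, Category.assoc, hξ', ← Category.assoc, h2, Category.assoc]
    have h4 : (a ≫ c.jA) ≫ F.p = (b ≫ c.jA) ≫ F.p := by
      rw [Category.assoc, Category.assoc, c.sq.w, ← Category.assoc, h1, Category.assoc]
    have := F.isClosedImmersion
    have h5 : a ≫ c.jA = b ≫ c.jA := by
      rw [← cancel_mono (pullback.lift F.u F.p F.w)]
      apply pullback.hom_ext
      · simpa only [Category.assoc, pullback.lift_fst] using h3
      · simpa only [Category.assoc, pullback.lift_snd] using h4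
    exact c.sq.hom_ext h5 h1
  have hfin : IsFinite (Spec.map (CommRingCat.ofHom incl)) := by
    rw [IsFinite.SpecMap_iff]
    have h1 := c.finite
    have h2 : Module.Finite A' A := Module.Finite.of_restrictScalars_finite R A' A
    exact RingHom.finite_algebraMap.mpr h2
  have hs := surjective_of_isClosedImmersion incl
    ((IsClosedImmersion.iff_isFinite_and_mono _).mpr ⟨hfin, hmono⟩)
  rw [eq_top_iff]
  intro x _
  obtain ⟨y, hy⟩ := hs x
  rw [← hy]
  exact y.2

end Pool.Agent.J6H65.Hilb4
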