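import Pool.Agent.J6H65.Hilb4.Spread0

set_option autoImplicit false
set_option linter.unusedSectionVars false

namespace Pool.Agent.J6H65.Hilb4

theorem mem_span_of_gen {R A S : Type} [CommRing R] [CommRing A] [CommRing S] [Algebra R A]
    (ξ : S →+* A) (gen : Algebra.adjoin R (Set.range ξ) = ⊤) (a : A) :
    ∃ c : S →₀ R, (c.sum fun t r => r • ξ t) = a := by
  have h1 : a ∈ Submodule.span R (Set.range ξ) := by
    have ha : a ∈ Subalgebra.toSubmodule (Algebra.adjoin R (Set.range ξ)) := by rw [gen]; trivial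
    rw [Algebra.adjoin_eq_span] at ha
    have h2 : (Submonoid.closure (Set.range ξ) : Set A) = Set.range ξ := by
      have : Submonoid.closure (Set.range ξ) = MonoidHom.mrange (ξ : S →* A) := by
        apply le_antisymm
        · rw [Submonoid.closure_le]
          exact subset_rfl
        · intro y hy
          exact Submonoid.subset_closure hy
      rw [this]
      rfl
    rwa [h2] at ha
  exact Finsupp.mem_span_range_iff_exists_finsupp.mp h1

theorem spread {R A S : Type} [CommRing R] [CommRing A] [CommRing S] [Algebra ℂ R] [Algebra R A]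
    [Algebra ℂ S] [Algebra.FiniteType ℂ S] (ξ : S →+* A)
    (hκ : ∀ c, ξ (algebraMap ℂ S c) = algebraMap R A (algebraMap ℂ R c))
    (b : Module.Basis (Fin 4) R A) (h0 : b 0 = 1) (x : Plk R)
    (hx : IsSC x.toSC (fun i : Fin 3 => b i.succ)) (gen : Algebra.adjoin R (Set.range ξ) = ⊤) :
    ∃ (R1 : Subalgebra ℂ R) (_ : Algebra.FiniteType ℂ R1) (s1 : SC R1) (Φ : QA s1 →+* A)
      (ξ1 : S →+* QA s1), (∀ r : R1, Φ (algebraMap R1 _ r) = algebraMap R A r) ∧
      (∀ i, Φ (QA.basis s1 i) = b i) ∧ (∀ t, Φ (ξ1 t) = ξ t) ∧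
      (∀ c, ξ1 (algebraMap ℂ S c) = algebraMap R1 (QA s1) (algebraMap ℂ R1 c)) ∧
      Algebra.adjoin R1 (Set.range ξ1) = ⊤ := by
  classical
  obtain ⟨G, hG⟩ := (Algebra.FiniteType.out : (⊤ : Subalgebra ℂ S).FG)
  choose c hc using fun i => mem_span_of_gen ξ gen (b i)
  let E : Set R := (Set.range x.vec ∪ (⋃ t ∈ G, Set.range (fun i => b.repr (ξ t) i))) ∪
    ⋃ i, (c i) '' (c i).support
  have hE : E.Finite := by
    refine ((Set.finite_range _).union ?_).union ?_
    · exact Set.Finite.biUnion G.finite_toSet fun t _ => Set.finite_range _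
    · exact Set.finite_iUnion fun i => (c i).support.finite_toSet.image _
  let R1 : Subalgebra ℂ R := Algebra.adjoin ℂ E
  have hft : Algebra.FiniteType ℂ R1 := by
    rw [← Subalgebra.fg_iff_finiteType]
    exact ⟨hE.toFinset, by rw [Set.Finite.coe_toFinset]⟩
  let ι : R1 →+* R := R1.subtype
  have hι : Function.Injective ι := Subtype.val_injective
  obtain ⟨x1, hx1⟩ := Plk.exists_descent ι hι x (fun i =>
    ⟨⟨x.vec i, Algebra.subset_adjoin (Or.inl (Or.inl ⟨i, rfl⟩))⟩, rfl⟩)
  have hs1 : IsSC (x1.toSC.map ι) (fun i : Fin 3 => b i.succ) := by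
    rw [← Plk.toSC_map, hx1]
    exact hx
  let Φ : QA x1.toSC →+* A := hs1.slift
  have hΦ1 : ∀ r : R1, Φ (algebraMap R1 _ r) = algebraMap R A r := hs1.slift_algebraMap
  have hΦ2 : ∀ i, Φ (QA.basis x1.toSC i) = b i := by
    intro i
    refine Fin.cases ?_ (fun j => ?_) i
    · rw [QA.basis_zero, map_one, h0]
    · exact hs1.slift_basis j
  have hΦ3 : ∀ v : QA x1.toSC, Φ v = b.equivFun.symm (fun i => ι (v i)) :=
    fun v => Fr.comb_eq h0 _
  have hinj : Function.Injective Φ := by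
    intro v w hvw
    rw [hΦ3, hΦ3] at hvw
    have h1 := b.equivFun.symm.injective hvw
    funext i
    exact hι (congrFun h1 i)
  have hmem : ∀ t, ξ t ∈ Φ.range := by
    intro t
    have ht : t ∈ Algebra.adjoin ℂ (G : Set S) := by rw [hG]; trivial
    induction ht using Algebra.adjoin_induction with
    | mem t ht =>
      refine ⟨fun i => ⟨b.repr (ξ t) i, Algebra.subset_adjoin (Or.inl (Or.inr ?_))⟩, ?_⟩
      · exact Set.mem_biUnion ht ⟨i, rfl⟩
      · exact (hΦ3 _).trans (b.equivFun.symm_apply_apply (ξ t))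
    | algebraMap r =>
      refine ⟨algebraMap R1 _ (algebraMap ℂ R1 r), ?_⟩
      rw [hΦ1, hκ]
      rfl
    | add y z _ _ hy hz => rw [map_add]; exact Φ.range.add_mem hy hz
    | mul y z _ _ hy hz => rw [map_mul]; exact Φ.range.mul_mem hy hz
  let e : QA x1.toSC ≃+* Φ.range := RingEquiv.ofBijective Φ.rangeRestrict
    ⟨fun v w hvw => hinj (congrArg Subtype.val hvw), Φ.rangeRestrict_surjective⟩
  let ξ1 : S →+* QA x1.toSC := (e.symm : Φ.range →+* QA x1.toSC).comp (ξ.codRestrict Φ.range hmem)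
  have hξ1 : ∀ t, Φ (ξ1 t) = ξ t := by
    intro t
    have h1 : e (ξ1 t) = ⟨ξ t, hmem t⟩ := e.apply_symm_apply _
    exact congrArg Subtype.val h1
  refine ⟨R1, hft, x1.toSC, Φ, ξ1, hΦ1, hΦ2, hξ1, ?_, ?_⟩
  · intro r
    apply hinj
    rw [hξ1, hκ, hΦ1]
    rfl
  · have hb : ∀ i, QA.basis x1.toSC i ∈ Algebra.adjoin R1 (Set.range ξ1) := by
      intro i
      have hmemE : ∀ t ∈ (c i).support, c i t ∈ R1 := fun t ht =>
        Algebra.subset_adjoin (Or.inr (Set.mem_iUnion.mpr ⟨i, Set.mem_image_of_mem _ ht⟩))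
      have h1 : QA.basis x1.toSC i = ∑ t ∈ (c i).support.attach,
          (⟨c i t.1, hmemE t.1 t.2⟩ : R1) • ξ1 t.1 := by
        apply hinj
        rw [map_sum, hΦ2]
        refine (hc i).symm.trans ?_
        rw [Finsupp.sum, ← Finset.sum_attach]
        refine Finset.sum_congr rfl fun t _ => ?_
        rw [Algebra.smul_def, Algebra.smul_def, map_mul, hΦ1, hξ1]
      rw [h1]
      refine Subalgebra.sum_mem _ fun t _ => Subalgebra.smul_mem _ ?_ _
      exact Algebra.subset_adjoin (Set.mem_range_self t.1)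
    rw [eq_top_iff]
    intro v _
    rw [← (QA.basis x1.toSC).sum_repr v]
    exact Subalgebra.sum_mem _ fun i _ => Subalgebra.smul_mem _ (hb i) _

end Pool.Agent.J6H65.Hilb4
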