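import Pool.Agent.J6H65.Hilb4.Geo2
import Pool.Agent.J6H65.Hilb4.Spread1

set_option autoImplicit false
set_option linter.unusedSectionVars false

open AlgebraicGeometry CategoryTheory Limits TensorProduct

namespace Pool.Agent.J6H65.Hilb4

/-- The base ring of a chart of the universal family is of finite type over `ℂ`. -/
theorem chart_finiteType {X H : Over SpecC} [IsSeparated X.hom] (F : Family 4 X H)
    (hF : F.IsUniversal) {R A S : Type} [CommRing R] [CommRing A] [CommRing S] [Algebra R A]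
    (jR : Spec (.of R) ⟶ H.left) [IsOpenImmersion jR] (jA : Spec (.of A) ⟶ F.Z)
    (sq : IsPullback jA (Spec.map (CommRingCat.ofHom (algebraMap R A))) F.p jR)
    (i : Spec (.of S) ⟶ X.left) [IsOpenImmersion i] (ξ : S →+* A)
    (hξ : jA ≫ F.u = Spec.map (CommRingCat.ofHom ξ) ≫ i)
    (κR : ℂ →+* R) (hκR : jR ≫ H.hom = Spec.map (CommRingCat.ofHom κR))
    (κS : ℂ →+* S) (hκS : i ≫ X.hom = Spec.map (CommRingCat.ofHom κS))
    (hκ : ξ.comp κS = (algebraMap R A).comp κR)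
    (hS : κS.FiniteType)
    (b : Module.Basis (Fin 4) R A) (h0 : b 0 = 1)
    (ht : ∀ i : Fin 3, Algebra.trace R A (b i.succ) = 0)
    (gen : Algebra.adjoin R (Set.range ξ) = ⊤) : κR.FiniteType := by
  let _ : Algebra ℂ R := κR.toAlgebra
  let _ : Algebra ℂ S := κS.toAlgebra
  have : Algebra.FiniteType ℂ S := hS
  obtain ⟨x, hx⟩ := SC.exists_plk (Fr.toSC h0 ht) (κR 2⁻¹) (by
    rw [← map_ofNat κR 2, ← map_mul, mul_inv_cancel₀ (by norm_num), map_one])
  have hxs : IsSC x.toSC (fun i : Fin 3 => b i.succ) := by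
    rw [hx]
    exact Fr.isSC_toSC h0 ht
  obtain ⟨R1, hR1, s1, Φ, ξ1, hΦ1, hΦ2, hΦ3, hξ1, gen1⟩ := spread ξ
    (fun c => RingHom.congr_fun hκ c) b h0 x hxs gen
  let ι : R1 →+* R := R1.subtype
  let κ1 : ℂ →+* R1 := algebraMap ℂ R1
  have hκ1 : ξ1.comp κS = (algebraMap R1 (QA s1)).comp κ1 := RingHom.ext hξ1
  have hικ : ι.comp κ1 = κR := rfl
  obtain ⟨φ1, hφ1, ψ1, hψ1, hψ2⟩ := univ_exists F hF i κS hκS κ1 (QA.basis s1) ξ1 hκ1 gen1
  have hsq : IsPullback (Spec.map (CommRingCat.ofHom Φ))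
      (Spec.map (CommRingCat.ofHom (algebraMap R A)))
      (Spec.map (CommRingCat.ofHom (algebraMap R1 (QA s1)))) (Spec.map (CommRingCat.ofHom ι)) :=
    (isPullback_SpecMap_of_isPushout _ _ _ _
      (isPushout_basis ι Φ hΦ1 (QA.basis s1) b hΦ2)).flip
  have hj : Spec.map (CommRingCat.ofHom ι) ≫ φ1 = jR := by
    refine univ_unique F hF i κS hκS κR b ξ hκ gen _ _ ?_ hκR
      ⟨Spec.map (CommRingCat.ofHom Φ) ≫ ψ1, hsq.paste_horiz hψ1, ?_⟩ ⟨jA, sq, hξ⟩
    · rw [Category.assoc, hφ1, ← Spec.map_comp, ← CommRingCat.ofHom_comp, hικ]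
    · rw [Category.assoc, hψ2, ← Category.assoc, ← Spec.map_comp, ← CommRingCat.ofHom_comp]
      congr 3
      ext t
      exact hΦ3 t
  let W : (Spec (.of R1)).Opens := φ1 ⁻¹ᵁ jR.opensRange
  let π : (W : Scheme.{0}) ⟶ Spec (.of R) := IsOpenImmersion.lift jR (W.ι ≫ φ1) (by
    rintro _ ⟨w, rfl⟩
    have h1 : W.ι w ∈ W := w.2
    exact h1)
  have hπ : π ≫ jR = W.ι ≫ φ1 := IsOpenImmersion.lift_fac _ _ _
  let σ : Spec (.of R) ⟶ (W : Scheme.{0}) :=
    IsOpenImmersion.lift W.ι (Spec.map (CommRingCat.ofHom ι)) (by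
      rw [Scheme.Opens.range_ι]
      rintro _ ⟨w, rfl⟩
      change φ1 (Spec.map (CommRingCat.ofHom ι) w) ∈ jR.opensRange
      rw [← Scheme.Hom.comp_apply, hj]
      exact ⟨w, rfl⟩)
  have hσ : σ ≫ W.ι = Spec.map (CommRingCat.ofHom ι) := IsOpenImmersion.lift_fac _ _ _
  have hid : σ ≫ π = 𝟙 _ := by
    rw [← cancel_mono jR, Category.assoc, hπ, ← Category.assoc, hσ, hj, Category.id_comp]
  have hπκ : π ≫ Spec.map (CommRingCat.ofHom κR) = W.ι ≫ Spec.map (CommRingCat.ofHom κ1) := by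
    rw [← hκR, ← Category.assoc, hπ, Category.assoc, hφ1]
  have hsep : IsSeparated π := by
    have : IsSeparated (π ≫ Spec.map (CommRingCat.ofHom κR)) := by
      rw [hπκ]
      infer_instance
    exact IsSeparated.of_comp π (Spec.map (CommRingCat.ofHom κR))
  have hcl : IsClosedImmersion σ := by
    have : IsClosedImmersion (σ ≫ π) := by
      rw [hid]
      infer_instance
    exact IsClosedImmersion.of_comp σ π
  have hft1 : LocallyOfFiniteType (Spec.map (CommRingCat.ofHom κ1)) := by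
    rw [HasRingHomProperty.Spec_iff (P := @LocallyOfFiniteType)]
    exact RingHom.finiteType_algebraMap.mpr hR1
  have hft : LocallyOfFiniteType (Spec.map (CommRingCat.ofHom κR)) := by
    have h1 : Spec.map (CommRingCat.ofHom κR) = σ ≫ W.ι ≫ Spec.map (CommRingCat.ofHom κ1) := by
      rw [← Category.assoc, hσ, ← Spec.map_comp, ← CommRingCat.ofHom_comp, hικ]
    rw [h1]
    infer_instance
  exact HasRingHomProperty.Spec_iff.mp hft

end Pool.Agent.J6H65.Hilb4
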