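import Pool.Agent.J6H65.Hilb4.CMRing

set_option autoImplicit false

namespace Pool.Agent.J6H65.Hilb4

open IsLocalRing

theorem atPrime_away {T : Type*} [CommRing T] (f : T) (q : Ideal T) [q.IsPrime] (hf : f ∉ q) :
    ∃ (Q : Ideal (Localization.Away f)) (_ : Q.IsPrime),
      Nonempty (Localization.AtPrime Q ≃ₐ[T] Localization.AtPrime q) := by
  let Q := q.map (algebraMap T (Localization.Away f))
  have disj : Disjoint (Submonoid.powers f : Set T) (q : Set T) :=
    (Ideal.disjoint_powers_iff_notMem_of_isPrime _).mpr hf
  have hQ : Q.IsPrime := IsLocalization.isPrime_of_isPrime_disjoint (.powers f) _ _ ‹_› disj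
  have : IsLocalization.AtPrime (Localization.AtPrime Q) q := by
    convert IsLocalization.isLocalization_isLocalization_atPrime_isLocalization (.powers f)
      (Localization.AtPrime Q) Q
    exact (IsLocalization.under_map_of_isPrime_disjoint (.powers f) _ ‹_› disj).symm
  exact ⟨Q, hQ, ⟨IsLocalization.algEquiv q.primeCompl (Localization.AtPrime Q)
    (Localization.AtPrime q)⟩⟩

theorem IsCohenMacaulayRing.of_smooth {D : Type*} (T : Type*) [CommRing D] [CommRing T]
    [Algebra D T] [Algebra.Smooth D T] (h : IsCohenMacaulayRing D) : IsCohenMacaulayRing T := by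
  have := h.1
  have : IsNoetherianRing T := Algebra.FiniteType.isNoetherianRing D T
  refine ⟨inferInstance, fun q hq => ?_⟩
  obtain ⟨f, hf, n, _, _, _⟩ :=
    Algebra.IsSmoothAt.exists_isStandardEtale_mvPolynomial (R := D) (p := q)
  have h1 : IsCohenMacaulayRing (MvPolynomial (Fin n) D) := h.mvPolynomial (Fin n)
  have : IsNoetherianRing (Localization.Away f) := IsLocalization.isNoetherianRing (.powers f) _ ‹_›
  have h2 : IsCohenMacaulayRing (Localization.Away f) :=
    h1.of_flat_quasiFinite (Localization.Away f)
  obtain ⟨Q, hQ, ⟨e⟩⟩ := atPrime_away f q hf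
  exact (h2.2 Q).of_ringEquiv e.toRingEquiv

/-- A ring all of whose localizations at primes are integrally closed domains. -/
def IsNormalRing' (A : Type*) [CommRing A] : Prop :=
  ∀ (p : Ideal A) [p.IsPrime], IsDomain (Localization.AtPrime p) ∧
    IsIntegrallyClosed (Localization.AtPrime p)

open TensorProduct in
theorem normal_of_etale {R S : Type*} [CommRing R] [IsDomain R] [IsIntegrallyClosed R]
    [CommRing S] [Algebra R S] [Algebra.Etale R S] (q : Ideal S) [q.IsPrime] :
    IsDomain (Localization.AtPrime q) ∧ IsIntegrallyClosed (Localization.AtPrime q) := by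
  let D := Localization.AtPrime q
  let K := FractionRing R
  have hbij : Function.Bijective (TensorProduct.toIntegralClosure R D K) :=
    TensorProduct.toIntegralClosure_bijective_of_tower (S := S)
      TensorProduct.toIntegralClosure_bijective_of_smooth
      (TensorProduct.toIntegralClosure_bijective_of_isLocalization q.primeCompl)
  let M := D ⊗[R] K
  -- integrally closed in M
  have hint : ∀ x : M, IsIntegral D x → ∃ d : D, algebraMap D M d = x := by
    intro x hx
    obtain ⟨t, ht⟩ := hbij.2 ⟨x, hx⟩
    have ht' : (TensorProduct.toIntegralClosure R D K t : M) = x := by rw [ht]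
    clear ht
    have key : ∀ t : D ⊗[R] integralClosure R K,
        ∃ d : D, algebraMap D M d = (TensorProduct.toIntegralClosure R D K t : M) := by
      intro t
      induction t with
      | zero => exact ⟨0, by simp⟩
      | add a b ha hb =>
        obtain ⟨a', ha'⟩ := ha
        obtain ⟨b', hb'⟩ := hb
        exact ⟨a' + b', by simp [ha', hb']⟩
      | tmul a b =>
        obtain ⟨b, hb⟩ := b
        obtain ⟨r, hr⟩ := (IsIntegrallyClosed.isIntegral_iff (R := R) (K := K)).mp hb
        refine ⟨a * algebraMap R D r, ?_⟩
        subst hr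
        simp only [TensorProduct.toIntegralClosure, AlgHom.coe_codRestrict]
        simp only [Algebra.TensorProduct.map_tmul, AlgHom.coe_id, id_eq, Subalgebra.coe_val]
        rw [Algebra.TensorProduct.algebraMap_apply, Algebra.algebraMap_eq_smul_one (A := K) r,
          TensorProduct.tmul_smul, TensorProduct.smul_tmul', Algebra.smul_def, mul_comm]
        simp
    obtain ⟨d, hd⟩ := key t
    exact ⟨d, by rw [hd, ht']⟩
  have hflat : Module.Flat R D := Module.Flat.trans R S D
  have hinj : Function.Injective (algebraMap D M) := by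
    have h1 : Function.Injective (Algebra.linearMap R K).toFun := IsFractionRing.injective R K
    have h2 := Module.Flat.lTensor_preserves_injective_linearMap (M := D) (Algebra.linearMap R K) h1
    have h3 : ∀ d : D, algebraMap D M d =
        (Algebra.linearMap R K).lTensor D ((TensorProduct.rid R D).symm d) := by
      intro d
      rw [Algebra.TensorProduct.algebraMap_apply]
      simp
    intro a b hab
    rw [h3, h3] at hab
    exact (TensorProduct.rid R D).symm.injective (h2 hab)
  -- M is a field
  have hfu : Algebra.FormallyUnramified R D := Algebra.FormallyUnramified.comp R S D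
  have hess : Algebra.EssFiniteType R D := Algebra.EssFiniteType.comp R S D
  have hred' : IsReduced (K ⊗[R] D) := Algebra.FormallyUnramified.isReduced_of_field K _
  have hfin' : Module.Finite K (K ⊗[R] D) := Algebra.FormallyUnramified.finite_of_free K _
  have hart' : IsArtinianRing (K ⊗[R] D) := .of_finite K _
  let e : (K ⊗[R] D) ≃+* M := (Algebra.TensorProduct.comm R K D).toRingEquiv
  have hred : IsReduced M := isReduced_of_injective e.symm e.symm.injective
  have hart : IsArtinianRing M := e.surjective.isArtinianRing
  have hntM : Nontrivial M := hinj.nontrivial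
  have hunit : ∀ x : M, x ≠ 0 → IsUnit x := by
    intro x hx
    obtain ⟨n, y, hy⟩ := IsArtinian.exists_pow_succ_smul_dvd x (1 : M)
    have h1 : x ^ n * (x * y - 1) = 0 := by
      rw [mul_sub, sub_eq_zero]
      convert! hy using 1
      simp [Nat.succ_eq_add_one, pow_add, mul_assoc]
    have h2 : (x * (x * y - 1)) ^ (n + 1) = 0 := by
      have gen : ∀ w : M, (x * w) ^ (n + 1) = (x ^ n * w) * (x * w ^ n) := fun w => by ring
      rw [gen, h1, zero_mul]
    have h3 : x * (x * y - 1) = 0 := pow_eq_zero_iff (Nat.succ_ne_zero n) |>.mp h2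
    have h4 : (x * y) * (x * y) = x * y := by
      have : x * (x * y) = x := by
        rw [mul_sub, mul_one, sub_eq_zero] at h3
        exact h3
      calc (x * y) * (x * y) = (x * (x * y)) * y := by ring
        _ = x * y := by rw [this]
    obtain ⟨d, hd⟩ := hint (x * y) (by
      refine ⟨Polynomial.X ^ 2 - Polynomial.X, ?_, ?_⟩
      · exact Polynomial.monic_X_pow_sub (by simp)
      · simp [pow_two, h4])
    have hd2 : d * d = d := hinj (by rw [map_mul, hd, h4])
    have hd3 : d * (d - 1) = 0 := by rw [mul_sub, hd2, mul_one, sub_self]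
    rcases IsLocalRing.isUnit_or_isUnit_one_sub_self d with hu | hu
    · have : d = 1 := by
        have := (hu.mul_right_eq_zero).mp hd3
        exact sub_eq_zero.mp this
      rw [this, map_one] at hd
      exact IsUnit.of_mul_eq_one _ hd.symm
    · exfalso
      have h0 : d = 0 := by
        have h5 : (1 - d) * d = 0 := by rw [sub_mul, one_mul, hd2, sub_self]
        exact (hu.mul_right_eq_zero).mp h5
      rw [h0, map_zero] at hd
      rw [mul_sub, mul_one, ← hd, mul_zero, zero_sub, neg_eq_zero] at h3
      exact hx h3
  have key : ∀ z : M, ∃ (x : D) (r : R), r ≠ 0 ∧ algebraMap D M (algebraMap R D r) * z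
      = algebraMap D M x := by
    intro z
    induction z using TensorProduct.induction_on with
    | zero => exact ⟨0, 1, one_ne_zero, by simp⟩
    | add a b ha hb =>
      obtain ⟨x, r, hr, h⟩ := ha
      obtain ⟨x', r', hr', h'⟩ := hb
      refine ⟨algebraMap R D r' * x + algebraMap R D r * x', r * r', mul_ne_zero hr hr', ?_⟩
      rw [map_mul, map_mul, map_add, map_mul, map_mul, ← h, ← h']
      ring
    | tmul a b =>
      obtain ⟨x, y, hy, rfl⟩ := IsFractionRing.div_surjective (A := R) b
      refine ⟨algebraMap R D x * a, y, nonZeroDivisors.ne_zero hy, ?_⟩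
      rw [Algebra.TensorProduct.algebraMap_apply, Algebra.TensorProduct.algebraMap_apply,
        Algebra.TensorProduct.tmul_mul_tmul]
      simp only [Algebra.algebraMap_self, RingHom.id_apply, one_mul]
      rw [← Algebra.smul_def, TensorProduct.smul_tmul, Algebra.smul_def, mul_div_cancel₀]
      · rw [← Algebra.smul_def, TensorProduct.smul_tmul, Algebra.smul_def, mul_one]
      · exact (map_ne_zero_iff _ (IsFractionRing.injective R K)).mpr (nonZeroDivisors.ne_zero hy)
  have hne : ∀ r : R, r ≠ 0 → algebraMap D M (algebraMap R D r) ≠ 0 := by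
    intro r hr h0
    have hr' : algebraMap R K r ≠ 0 := (map_ne_zero_iff _ (IsFractionRing.injective R K)).mpr hr
    have h1 : algebraMap D M (algebraMap R D r) * ((1 : D) ⊗ₜ[R] (algebraMap R K r)⁻¹) = 1 := by
      rw [Algebra.TensorProduct.algebraMap_apply, Algebra.TensorProduct.tmul_mul_tmul]
      simp only [Algebra.algebraMap_self, RingHom.id_apply, one_mul]
      rw [← Algebra.smul_def, TensorProduct.smul_tmul, Algebra.smul_def, mul_inv_cancel₀ hr']
      rfl
    rw [h0, zero_mul] at h1
    exact zero_ne_one h1
  letI : Field M := (show IsField M from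
    { exists_pair_ne := exists_pair_ne M
      mul_comm := mul_comm
      mul_inv_cancel := fun {a} ha => by
        obtain ⟨b, hb⟩ := (hunit a ha).exists_right_inv
        exact ⟨b, hb⟩ }).toField
  have hfaith : FaithfulSMul D M := (faithfulSMul_iff_algebraMap_injective D M).mpr hinj
  have hfrac : IsFractionRing D M := by
    refine IsFractionRing.of_field D M fun z => ?_
    obtain ⟨x, r, hr, h⟩ := key z
    refine ⟨x, algebraMap R D r, ?_⟩
    rw [← h, mul_div_cancel_left₀]
    exact hne r hr
  have hdom : IsDomain D := hinj.isDomain (algebraMap D M)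
  refine ⟨hdom, (isIntegrallyClosed_iff M).mpr fun {x} hx => hint x hx⟩

theorem integrallyClosed_mvPolynomial (R : Type*) [CommRing R] [IsDomain R] [IsIntegrallyClosed R]
    (n : ℕ) : IsIntegrallyClosed (MvPolynomial (Fin n) R) := by
  induction n with
  | zero => exact IsIntegrallyClosed.of_equiv (MvPolynomial.isEmptyRingEquiv R (Fin 0)).symm
  | succ n ih =>
    have : IsIntegrallyClosed (Polynomial (MvPolynomial (Fin n) R)) := inferInstance
    exact IsIntegrallyClosed.of_equiv (MvPolynomial.finSuccEquiv R n).toRingEquiv.symm

theorem normal_of_ringEquiv {A B : Type*} [CommRing A] [CommRing B] (e : A ≃+* B)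
    (h : IsDomain A ∧ IsIntegrallyClosed A) : IsDomain B ∧ IsIntegrallyClosed B := by
  obtain ⟨h1, h2⟩ := h
  exact ⟨e.symm.injective.isDomain (e.symm : B →+* A), IsIntegrallyClosed.of_equiv e⟩

/-- Algebras smooth over a normal domain are normal. -/
theorem normal_of_smooth {D : Type*} (T : Type*) [CommRing D] [IsDomain D] [IsIntegrallyClosed D]
    [CommRing T] [Algebra D T] [Algebra.Smooth D T] : IsNormalRing' T := by
  intro q hq
  obtain ⟨f, hf, n, _, _, _⟩ :=
    Algebra.IsSmoothAt.exists_isStandardEtale_mvPolynomial (R := D) (p := q)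
  have := integrallyClosed_mvPolynomial D n
  obtain ⟨Q, hQ, ⟨e⟩⟩ := atPrime_away f q hf
  exact normal_of_ringEquiv e.toRingEquiv (normal_of_etale (R := MvPolynomial (Fin n) D) Q)

end Pool.Agent.J6H65.Hilb4
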