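import Pool.Agent.J6H65.Hilb4.Free3
import Pool.Agent.J6H65.Hilb4.CMRing
import Pool.Agent.J6H65.Hilb4.Smooth

set_option autoImplicit false
set_option linter.unusedSectionVars false

namespace Pool.Agent.J6H65.Hilb4

open scoped nonZeroDivisors

namespace Plk

variable {R S : Type*} [CommRing R] [CommRing S]

/-- Pluecker data determined by the first nine coordinates when the first one is invertible. -/
def ofUnit (a : Fin 9 → R) (b : R) (h : a 0 * b = 1) : Plk R where
  p12 := a 0
  p13 := a 1
  p14 := a 2
  p15 := a 3
  p16 := a 4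
  p23 := a 5
  p24 := a 6
  p25 := a 7
  p26 := a 8
  p34 := (a 1 * a 6 - a 2 * a 5) * b
  p35 := (a 1 * a 7 - a 3 * a 5) * b
  p36 := (a 1 * a 8 - a 4 * a 5) * b
  p45 := (a 2 * a 7 - a 3 * a 6) * b
  p46 := (a 2 * a 8 - a 4 * a 6) * b
  p56 := (a 3 * a 8 - a 4 * a 7) * b
  r1234 := by linear_combination (a 1 * a 6 - a 2 * a 5) * h
  r1235 := by linear_combination (a 1 * a 7 - a 3 * a 5) * h
  r1236 := by linear_combination (a 1 * a 8 - a 4 * a 5) * h
  r1245 := by linear_combination (a 2 * a 7 - a 3 * a 6) * h
  r1246 := by linear_combination (a 2 * a 8 - a 4 * a 6) * h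
  r1256 := by linear_combination (a 3 * a 8 - a 4 * a 7) * h
  r1345 := by ring
  r1346 := by ring
  r1356 := by ring
  r1456 := by ring
  r2345 := by ring
  r2346 := by ring
  r2356 := by ring
  r2456 := by ring
  r3456 := by ring

/-- The order-reversing symmetry. -/
def flip (x : Plk R) : Plk R where
  p12 := x.p56
  p13 := x.p46
  p14 := x.p36
  p15 := x.p26
  p16 := x.p16
  p23 := x.p45
  p24 := x.p35
  p25 := x.p25
  p26 := x.p15
  p34 := x.p34
  p35 := x.p24
  p36 := x.p14
  p45 := x.p23
  p46 := x.p13
  p56 := x.p12
  r1234 := by linear_combination x.r3456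
  r1235 := by linear_combination x.r2456
  r1236 := by linear_combination x.r1456
  r1245 := by linear_combination x.r2356
  r1246 := by linear_combination x.r1356
  r1256 := by linear_combination x.r1256
  r1345 := by linear_combination x.r2346
  r1346 := by linear_combination x.r1346
  r1356 := by linear_combination x.r1246
  r1456 := by linear_combination x.r1236
  r2345 := by linear_combination x.r2345
  r2346 := by linear_combination x.r1345
  r2356 := by linear_combination x.r1245
  r2456 := by linear_combination x.r1235
  r3456 := by linear_combination x.r1234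

theorem flip_flip (x : Plk R) : x.flip.flip = x := by
  ext <;> rfl

theorem flip_map (f : R →+* S) (x : Plk R) : x.flip.map f = (x.map f).flip := by
  ext <;> rfl

theorem map_ofUnit (f : R →+* S) (a : Fin 9 → R) (b : R) (h : a 0 * b = 1) :
    (ofUnit a b h).map f = ofUnit (fun i => f (a i)) (f b) (by rw [← map_mul, h, map_one]) := by
  ext <;> simp [ofUnit, map]

/-- The first nine coordinates. -/
def nine (x : Plk R) : Fin 9 → R := ![x.p12, x.p13, x.p14, x.p15, x.p16, x.p23, x.p24, x.p25, x.p26]

theorem nine_map (f : R →+* S) (x : Plk R) : (x.map f).nine = fun i => f (x.nine i) := by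
  funext i
  fin_cases i <;> rfl

theorem ofUnit_nine (a : Fin 9 → R) (b : R) (h : a 0 * b = 1) : (ofUnit a b h).nine = a := by
  funext i
  fin_cases i <;> rfl

theorem ext_of_unit (x y : Plk R) (b : R) (hb : x.p12 * b = 1) (h : x.nine = y.nine) : x = y := by
  have h12 : x.p12 = y.p12 := congrFun h 0
  have h13 : x.p13 = y.p13 := congrFun h 1
  have h14 : x.p14 = y.p14 := congrFun h 2
  have h15 : x.p15 = y.p15 := congrFun h 3
  have h16 : x.p16 = y.p16 := congrFun h 4
  have h23 : x.p23 = y.p23 := congrFun h 5
  have h24 : x.p24 = y.p24 := congrFun h 6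
  have h25 : x.p25 = y.p25 := congrFun h 7
  have h26 : x.p26 = y.p26 := congrFun h 8
  have h34 : x.p34 = y.p34 := by
    have hx : x.p12 * x.p34 = x.p12 * y.p34 := by
      have h1 := x.r1234
      have h2 := y.r1234
      rw [← h12, ← h13, ← h14, ← h23, ← h24] at h2
      linear_combination h1 - h2
    linear_combination b * hx - (x.p34 - y.p34) * hb
  have h35 : x.p35 = y.p35 := by
    have hx : x.p12 * x.p35 = x.p12 * y.p35 := by
      have h1 := x.r1235
      have h2 := y.r1235
      rw [← h12, ← h13, ← h15, ← h23, ← h25] at h2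
      linear_combination h1 - h2
    linear_combination b * hx - (x.p35 - y.p35) * hb
  have h36 : x.p36 = y.p36 := by
    have hx : x.p12 * x.p36 = x.p12 * y.p36 := by
      have h1 := x.r1236
      have h2 := y.r1236
      rw [← h12, ← h13, ← h16, ← h23, ← h26] at h2
      linear_combination h1 - h2
    linear_combination b * hx - (x.p36 - y.p36) * hb
  have h45 : x.p45 = y.p45 := by
    have hx : x.p12 * x.p45 = x.p12 * y.p45 := by
      have h1 := x.r1245
      have h2 := y.r1245
      rw [← h12, ← h14, ← h15, ← h24, ← h25] at h2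
      linear_combination h1 - h2
    linear_combination b * hx - (x.p45 - y.p45) * hb
  have h46 : x.p46 = y.p46 := by
    have hx : x.p12 * x.p46 = x.p12 * y.p46 := by
      have h1 := x.r1246
      have h2 := y.r1246
      rw [← h12, ← h14, ← h16, ← h24, ← h26] at h2
      linear_combination h1 - h2
    linear_combination b * hx - (x.p46 - y.p46) * hb
  have h56 : x.p56 = y.p56 := by
    have hx : x.p12 * x.p56 = x.p12 * y.p56 := by
      have h1 := x.r1256
      have h2 := y.r1256
      rw [← h12, ← h15, ← h16, ← h25, ← h26] at h2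
      linear_combination h1 - h2
    linear_combination b * hx - (x.p56 - y.p56) * hb
  ext
  exacts [h12, h13, h14, h15, h16, h23, h24, h25, h26, h34, h35, h36, h45, h46, h56]

end Plk

namespace PL

variable (k : Type*) [Field k]

section chart

variable (E F : Type*) [CommRing E] [CommRing F]
  [Algebra (MvPolynomial (Fin 9) k) E]
  [IsLocalization.Away (MvPolynomial.X 0 : MvPolynomial (Fin 9) k) E]
  [Algebra (PL k) F] [IsLocalization.Away (univ k).p12 F]
  [Algebra k E] [IsScalarTower k (MvPolynomial (Fin 9) k) E]
  [Algebra k F] [IsScalarTower k (PL k) F]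

/-- Coordinates of the chart. -/
noncomputable def chartVar (i : Fin 9) : E :=
  algebraMap (MvPolynomial (Fin 9) k) E (MvPolynomial.X i)

theorem chartVar_unit : chartVar k E 0 *
    IsLocalization.Away.invSelf (S := E) (MvPolynomial.X 0 : MvPolynomial (Fin 9) k) = 1 :=
  IsLocalization.Away.mul_invSelf _

/-- The Pluecker data on the chart. -/
noncomputable def chartPlk : Plk E := Plk.ofUnit (chartVar k E) _ (chartVar_unit k E)

/-- The map to the chart. -/
noncomputable def toChart : PL k →ₐ[k] E := lift (chartPlk k E)

theorem toChart_nine (i : Fin 9) : toChart k E ((univ k).nine i) = chartVar k E i := by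
  have h2 : ((univ k).map (toChart k E).toRingHom).nine = chartVar k E := by
    rw [toChart, map_lift, chartPlk, Plk.ofUnit_nine]
  rw [← h2, Plk.nine_map]
  rfl

/-- The polynomial map to the localization. -/
noncomputable def polyD0 : MvPolynomial (Fin 9) k →ₐ[k] F :=
  MvPolynomial.aeval (fun i => algebraMap (PL k) F ((univ k).nine i))

theorem polyD0_X (i : Fin 9) : (polyD0 k F).toRingHom (MvPolynomial.X i) =
    algebraMap (PL k) F ((univ k).nine i) := MvPolynomial.aeval_X _ _

theorem polyD0_X0 : IsUnit ((polyD0 k F).toRingHom (MvPolynomial.X 0)) := by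
  rw [polyD0_X]
  exact IsLocalization.Away.algebraMap_isUnit (univ k).p12

/-- The map from the chart to the localization. -/
noncomputable def chartD0 : E →+* F :=
  IsLocalization.Away.lift (MvPolynomial.X 0 : MvPolynomial (Fin 9) k)
    (g := (polyD0 k F).toRingHom) (polyD0_X0 k F)

theorem chartD0_alg (f : MvPolynomial (Fin 9) k) :
    chartD0 k E F (algebraMap _ E f) = (polyD0 k F).toRingHom f := by
  unfold chartD0
  rw [IsLocalization.Away.lift_eq]

theorem chartD0_var (i : Fin 9) : chartD0 k E F (chartVar k E i) =
    algebraMap (PL k) F ((univ k).nine i) := by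
  unfold chartVar
  rw [chartD0_alg, polyD0_X]

theorem chartD0_k (c : k) : chartD0 k E F (algebraMap k E c) = algebraMap k F c := by
  rw [IsScalarTower.algebraMap_apply k (MvPolynomial (Fin 9) k) E, chartD0_alg]
  exact (polyD0 k F).commutes c

/-- The map from the chart, as an algebra map. -/
noncomputable def chartD0Alg : E →ₐ[k] F :=
  { chartD0 k E F with commutes' := chartD0_k k E F }

theorem chartD0_toChart : (chartD0Alg k E F).comp (toChart k E) = IsScalarTower.toAlgHom k (PL k) F := by
  apply algHom_ext
  have h0 : ∀ i, chartD0 k E F (toChart k E ((univ k).nine i)) =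
      algebraMap (PL k) F ((univ k).nine i) := by
    intro i
    rw [toChart_nine, chartD0_var]
  refine Plk.ext_of_unit _ _ (IsLocalization.Away.invSelf (S := F) (univ k).p12) ?_ ?_
  · have h1 : ((univ k).map ((chartD0Alg k E F).comp (toChart k E)).toRingHom).p12 =
        algebraMap (PL k) F (univ k).p12 := h0 0
    rw [h1]
    exact IsLocalization.Away.mul_invSelf _
  · rw [Plk.nine_map, Plk.nine_map]
    funext i
    exact h0 i

theorem toChart_p12_unit : IsUnit ((toChart k E).toRingHom (univ k).p12) := by
  have h := toChart_nine k E 0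
  change (toChart k E).toRingHom (univ k).p12 = _ at h
  rw [h]
  exact IsLocalization.Away.algebraMap_isUnit _

/-- The map from the localization to the chart. -/
noncomputable def D0chart : F →+* E :=
  IsLocalization.Away.lift (univ k).p12 (g := (toChart k E).toRingHom) (toChart_p12_unit k E)

theorem D0chart_alg (x : PL k) : D0chart k E F (algebraMap _ F x) = (toChart k E).toRingHom x := by
  unfold D0chart
  rw [IsLocalization.Away.lift_eq]

theorem comp1 : (chartD0 k E F).comp (D0chart k E F) = RingHom.id F := by
  refine IsLocalization.ringHom_ext (Submonoid.powers (univ k).p12) ?_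
  ext x
  rw [RingHom.comp_apply, RingHom.comp_apply, D0chart_alg]
  exact DFunLike.congr_fun (chartD0_toChart k E F) x

theorem comp2 : (D0chart k E F).comp (chartD0 k E F) = RingHom.id E := by
  refine IsLocalization.ringHom_ext
    (Submonoid.powers (MvPolynomial.X 0 : MvPolynomial (Fin 9) k)) ?_
  apply MvPolynomial.ringHom_ext
  · intro c
    rw [RingHom.comp_apply, RingHom.comp_apply, chartD0_alg]
    have h2 : (polyD0 k F).toRingHom (MvPolynomial.C c) = algebraMap (PL k) F (algebraMap k (PL k) c) := by
      rw [← IsScalarTower.algebraMap_apply]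
      exact (polyD0 k F).commutes c
    rw [h2, D0chart_alg]
    have h1 : algebraMap (MvPolynomial (Fin 9) k) E (MvPolynomial.C c) =
      algebraMap k E c := (IsScalarTower.algebraMap_apply k (MvPolynomial (Fin 9) k) E c).symm
    rw [RingHom.comp_apply, RingHom.id_apply, h1]
    exact (toChart k E).commutes c
  · intro i
    change D0chart k E F (chartD0 k E F (chartVar k E i)) = chartVar k E i
    rw [chartD0_var, D0chart_alg]
    exact toChart_nine k E i

/-- The localization is the chart. -/
noncomputable def D0equiv : E ≃+* F :=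
  RingEquiv.ofRingHom (chartD0 k E F) (D0chart k E F) (comp1 k E F) (comp2 k E F)

end chart

theorem D0_normal : IsDomain (Localization.Away (univ k).p12) ∧
    IsIntegrallyClosed (Localization.Away (univ k).p12) := by
  have := integrallyClosed_mvPolynomial k 9
  have hX : (MvPolynomial.X 0 : MvPolynomial (Fin 9) k) ≠ 0 := MvPolynomial.X_ne_zero 0
  have hle : Submonoid.powers (MvPolynomial.X 0 : MvPolynomial (Fin 9) k) ≤ (MvPolynomial (Fin 9) k)⁰ :=
    powers_le_nonZeroDivisors_of_noZeroDivisors hX
  have h1 : IsDomain (Localization.Away (MvPolynomial.X 0 : MvPolynomial (Fin 9) k)) :=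
    IsLocalization.isDomain_localization hle
  have h2 : IsIntegrallyClosed (Localization.Away (MvPolynomial.X 0 : MvPolynomial (Fin 9) k)) :=
    isIntegrallyClosed_of_isLocalization _ _ hle
  exact normal_of_ringEquiv (D0equiv k (Localization.Away (MvPolynomial.X 0 : MvPolynomial (Fin 9) k))
    (Localization.Away (univ k).p12)) ⟨h1, h2⟩

theorem mul_alg_injective (f : MvPolynomial (Fin 9) k) (hf : f ≠ 0) (x : PL k)
    (h : algebraMap _ (PL k) f * x = 0) : x = 0 := by
  have : f • x = 0 := by rw [Algebra.smul_def, h]
  have h2 : f • (basisEquiv k).symm x = 0 := by rw [← map_smul, this, map_zero]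
  have h3 : (basisEquiv k).symm x = 0 := by
    funext i
    have := congrFun h2 i
    rw [Pi.smul_apply, smul_eq_mul, Pi.zero_apply] at this
    exact (mul_eq_zero.mp this).resolve_left hf
  simpa using h3

theorem p12_eq : (univ k).p12 = algebraMap (MvPolynomial (Fin 9) k) (PL k) (MvPolynomial.X 0) :=
  (algP_X k 0).symm

theorem p56_eq : (univ k).p56 = algebraMap (MvPolynomial (Fin 9) k) (PL k) (MvPolynomial.X 8) :=
  (algP_X k 8).symm

theorem toD0_injective : Function.Injective (algebraMap (PL k) (Localization.Away (univ k).p12)) := by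
  refine (injective_iff_map_eq_zero _).mpr fun x hx => ?_
  rw [IsLocalization.map_eq_zero_iff (Submonoid.powers (univ k).p12) (Localization.Away (univ k).p12)] at hx
  obtain ⟨⟨_, n, rfl⟩, hn⟩ := hx
  change (univ k).p12 ^ n * x = 0 at hn
  rw [p12_eq, ← map_pow] at hn
  exact mul_alg_injective k _ (pow_ne_zero _ (MvPolynomial.X_ne_zero 0)) x hn

instance : IsDomain (PL k) := by
  have := (D0_normal k).1
  exact (toD0_injective k).isDomain (algebraMap (PL k) (Localization.Away (univ k).p12))

/-- The order-reversing symmetry of `PL k`. -/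
noncomputable def sigma : PL k →ₐ[k] PL k := lift (univ k).flip

theorem sigma_univ : (univ k).map (sigma k).toRingHom = (univ k).flip := map_lift _

theorem sigma_sigma : (sigma k).comp (sigma k) = AlgHom.id k (PL k) := by
  apply algHom_ext
  have h1 : (univ k).map ((sigma k).comp (sigma k)).toRingHom =
      ((univ k).map (sigma k).toRingHom).map (sigma k).toRingHom := (Plk.map_map _ _ _).symm
  rw [h1, sigma_univ, Plk.flip_map, sigma_univ, Plk.flip_flip]
  exact (Plk.map_id _).symm

/-- The symmetry as an equivalence. -/
noncomputable def sigmaEquiv : PL k ≃+* PL k :=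
  RingEquiv.ofRingHom (sigma k).toRingHom (sigma k).toRingHom
    (RingHom.ext fun x => DFunLike.congr_fun (sigma_sigma k) x)
    (RingHom.ext fun x => DFunLike.congr_fun (sigma_sigma k) x)

theorem sigma_p12 : sigmaEquiv k (univ k).p12 = (univ k).p56 := congrArg Plk.p12 (sigma_univ k)

theorem D8_normal : IsDomain (Localization.Away (univ k).p56) ∧
    IsIntegrallyClosed (Localization.Away (univ k).p56) := by
  refine normal_of_ringEquiv (A := Localization.Away (univ k).p12) ?_ (D0_normal k)
  refine IsLocalization.ringEquivOfRingEquiv (Localization.Away (univ k).p12) (Localization.Away (univ k).p56) (sigmaEquiv k)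
    (M := Submonoid.powers (univ k).p12) (T := Submonoid.powers (univ k).p56) ?_
  rw [Submonoid.map_powers]
  exact congrArg Submonoid.powers (sigma_p12 k)

theorem exists_mul_pow {D : Type*} [CommRing D] [IsDomain D] (f : D) (hf : f ≠ 0)
    (h : IsIntegrallyClosed (Localization.Away f)) (z : FractionRing D) (hz : IsIntegral D z) :
    ∃ (n : ℕ) (x : D), algebraMap D (FractionRing D) f ^ n * z = algebraMap D (FractionRing D) x := by
  have hu : IsUnit (algebraMap D (FractionRing D) f) := by
    rw [isUnit_iff_ne_zero]
    simpa using hf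
  let _ : Algebra (Localization.Away f) (FractionRing D) :=
    (IsLocalization.Away.lift f hu).toAlgebra
  have hle : Submonoid.powers f ≤ D⁰ := powers_le_nonZeroDivisors_of_noZeroDivisors hf
  have : IsDomain (Localization.Away f) := IsLocalization.isDomain_localization hle
  have : IsScalarTower D (Localization.Away f) (FractionRing D) :=
    IsScalarTower.of_algebraMap_eq fun x => (IsLocalization.Away.lift_eq f hu x).symm
  have : IsFractionRing (Localization.Away f) (FractionRing D) :=
    IsFractionRing.isFractionRing_of_isDomain_of_isLocalization (.powers f) _ _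
  obtain ⟨w, hw⟩ := IsIntegrallyClosed.isIntegral_iff.mp (hz.tower_top (A := Localization.Away f))
  obtain ⟨x, ⟨_, n, rfl⟩, hx⟩ := IsLocalization.exists_mk'_eq (Submonoid.powers f) w
  refine ⟨n, x, ?_⟩
  rw [← hw, ← hx]
  have h1 : algebraMap D (FractionRing D) f ^ n =
      algebraMap (Localization.Away f) (FractionRing D) (algebraMap D _ (f ^ n)) := by
    rw [← IsScalarTower.algebraMap_apply, map_pow]
  rw [h1, ← map_mul, IsScalarTower.algebraMap_apply D (Localization.Away f) (FractionRing D) x]
  congr 1
  exact IsLocalization.mk'_spec' (Localization.Away f) x (⟨f ^ n, n, rfl⟩ : Submonoid.powers f)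

instance : IsIntegrallyClosed (PL k) := by
  rw [isIntegrallyClosed_iff (FractionRing (PL k))]
  intro z hz
  have hinj : Function.Injective (algebraMap (PL k) (FractionRing (PL k))) :=
    IsFractionRing.injective _ _
  have hp12 : (univ k).p12 ≠ 0 := by
    intro h
    have h1 := mul_alg_injective k (MvPolynomial.X 0) (MvPolynomial.X_ne_zero 0) 1 (by
      rw [← p12_eq, h, zero_mul])
    exact one_ne_zero h1
  have hp56 : (univ k).p56 ≠ 0 := by
    intro h
    have h1 := mul_alg_injective k (MvPolynomial.X 8) (MvPolynomial.X_ne_zero 8) 1 (by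
      rw [← p56_eq, h, zero_mul])
    exact one_ne_zero h1
  obtain ⟨a, x, hx⟩ := exists_mul_pow (univ k).p12 hp12 (D0_normal k).2 z hz
  obtain ⟨b, y, hy⟩ := exists_mul_pow (univ k).p56 hp56 (D8_normal k).2 z hz
  have h1 : (univ k).p56 ^ b * x = (univ k).p12 ^ a * y := by
    apply hinj
    rw [map_mul, map_mul, map_pow, map_pow, ← hx, ← hy]
    ring
  have h2 : (MvPolynomial.X 8 : MvPolynomial (Fin 9) k) ^ b • (basisEquiv k).symm x =
      (MvPolynomial.X 0 : MvPolynomial (Fin 9) k) ^ a • (basisEquiv k).symm y := by
    rw [← map_smul, ← map_smul]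
    congr 1
    rw [Algebra.smul_def, Algebra.smul_def, map_pow, map_pow, ← p12_eq, ← p56_eq]
    exact h1
  have h3 : ∀ i, (MvPolynomial.X 0 : MvPolynomial (Fin 9) k) ^ a ∣ (basisEquiv k).symm x i := by
    intro i
    have h4 := congrFun h2 i
    simp only [Pi.smul_apply, smul_eq_mul] at h4
    have hp : Prime (MvPolynomial.X 0 : MvPolynomial (Fin 9) k) := MvPolynomial.X_prime
    have hn : ¬ (MvPolynomial.X 0 : MvPolynomial (Fin 9) k) ∣ (MvPolynomial.X 8) ^ b := by
      intro hd
      have hd2 := hp.dvd_of_dvd_pow hd
      have := MvPolynomial.X_dvd_X.mp hd2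
      revert this
      simp
    exact hp.pow_dvd_of_dvd_mul_left a hn ⟨_, h4⟩
  choose w hw using h3
  refine ⟨basisEquiv k w, ?_⟩
  have h5 : x = (univ k).p12 ^ a * basisEquiv k w := by
    rw [p12_eq, ← map_pow, ← Algebra.smul_def, ← map_smul]
    apply (basisEquiv k).symm.injective
    rw [LinearEquiv.symm_apply_apply]
    funext i
    exact hw i
  have h6 : algebraMap (PL k) (FractionRing (PL k)) (univ k).p12 ^ a ≠ 0 :=
    pow_ne_zero _ (fun h => hp12 (hinj (by rw [h, map_zero])))
  apply mul_left_cancel₀ h6
  rw [hx, h5, map_mul, map_pow]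

theorem isCohenMacaulayRing : IsCohenMacaulayRing (PL k) := by
  have h1 : IsCohenMacaulayRing (MvPolynomial (Fin 9) k) :=
    (isCohenMacaulayRing_of_field k).mvPolynomial (Fin 9)
  have : IsNoetherianRing (PL k) := IsNoetherianRing.of_finite (MvPolynomial (Fin 9) k) _
  exact IsCohenMacaulayRing.of_flat_quasiFinite (PL k) h1

end PL

end Pool.Agent.J6H65.Hilb4
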