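import Pool.Agent.J6H65.Hilb4.QE
import Pool.Agent.J6H65.Hilb4.Norm
import Pool.Agent.J6H65.Hilb4.Descent

set_option autoImplicit false
set_option linter.unusedSectionVars false

namespace Pool.Agent.J6H65.Hilb4

theorem PL.ringHom_ext {k A : Type*} [CommRing k] [CommRing A] {f g : PL k →+* A}
    (hk : f.comp (algebraMap k (PL k)) = g.comp (algebraMap k (PL k)))
    (h : (PL.univ k).map f = (PL.univ k).map g) : f = g := by
  let _ : Algebra k A := (f.comp (algebraMap k (PL k))).toAlgebra
  let f' : PL k →ₐ[k] A := { f with commutes' := fun _ => rfl }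
  let g' : PL k →ₐ[k] A := { g with commutes' := fun r => (RingHom.congr_fun hk r).symm }
  have : f' = g' := PL.algHom_ext h
  ext x
  exact DFunLike.congr_fun this x

section frame

variable (R : Type) [CommRing R]

/-- Indexing of matrix entries. -/
def ix : Fin 9 ≃ Fin 3 × Fin 3 := (finProdFinEquiv (m := 3) (n := 3)).symm

/-- The generic matrix. -/
noncomputable def gmat : Matrix (Fin 3) (Fin 3) (MvPolynomial (Fin 9) R) :=
  Matrix.of fun i j => MvPolynomial.X (ix.symm (i, j))

/-- The ring of frames. -/
abbrev FrT : Type := Localization.Away (gmat R).det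

/-- The generic invertible matrix. -/
noncomputable def gT : Matrix (Fin 3) (Fin 3) (FrT R) :=
  (gmat R).map (algebraMap (MvPolynomial (Fin 9) R) (FrT R))

theorem gT_unit : IsUnit (gT R).det := by
  have : (gT R).det = algebraMap (MvPolynomial (Fin 9) R) (FrT R) (gmat R).det :=
    (RingHom.map_det _ _).symm
  rw [this]
  exact IsLocalization.Away.algebraMap_isUnit _

theorem FrT_ext (C : Type) [CommRing C] (h h' : FrT R →+* C)
    (h1 : h.comp (algebraMap R (FrT R)) = h'.comp (algebraMap R (FrT R)))
    (h2 : ∀ i j, h (gT R i j) = h' (gT R i j)) : h = h' := by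
  refine IsLocalization.ringHom_ext (Submonoid.powers (gmat R).det) ?_
  apply MvPolynomial.ringHom_ext
  · intro r
    have := RingHom.congr_fun h1 r
    rw [IsScalarTower.algebraMap_eq R (MvPolynomial (Fin 9) R) (FrT R)] at this
    exact this
  · intro n
    have := h2 (ix n).1 (ix n).2
    simp only [gT, gmat, Matrix.map_apply, Matrix.of_apply, Prod.mk.eta,
      Equiv.symm_apply_apply] at this
    exact this

theorem FrT_lift (C : Type) [CommRing C] (f : R →+* C) (M : Matrix (Fin 3) (Fin 3) C)
    (hM : IsUnit M.det) :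
    ∃ h : FrT R →+* C, h.comp (algebraMap R (FrT R)) = f ∧ ∀ i j, h (gT R i j) = M i j := by
  let e : MvPolynomial (Fin 9) R →+* C := MvPolynomial.eval₂Hom f
    (fun n => M (ix n).1 (ix n).2)
  have he : ∀ i j, e (gmat R i j) = M i j := by
    intro i j
    simp only [e, gmat, Matrix.of_apply, MvPolynomial.coe_eval₂Hom, MvPolynomial.eval₂_X]
    rw [Equiv.apply_symm_apply]
  have hd : e (gmat R).det = M.det := by
    rw [RingHom.map_det]
    congr 1
    ext i j
    exact he i j
  have hu : IsUnit (e (gmat R).det) := by rw [hd]; exact hM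
  refine ⟨IsLocalization.Away.lift (gmat R).det hu, ?_, fun i j => ?_⟩
  · ext r
    rw [RingHom.comp_apply, IsScalarTower.algebraMap_apply R (MvPolynomial (Fin 9) R) (FrT R),
      IsLocalization.Away.lift_eq]
    exact MvPolynomial.eval₂_C _ _ _
  · rw [gT, Matrix.map_apply, IsLocalization.Away.lift_eq]
    exact he i j

end frame

/-- The algebraic form of the main theorem. -/
theorem main_alg {k R A S : Type} [Field k] (h2 : (2 : k) ≠ 0) [CommRing R] [CommRing A]
    [CommRing S] [Algebra k R] [Algebra.FiniteType k R] [Algebra R A] (κS : k →+* S) (ξ : S →+* A)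
    (hκ : ξ.comp κS = (algebraMap R A).comp (algebraMap k R))
    (b : Module.Basis (Fin 4) R A) (h0 : b 0 = 1)
    (ht : ∀ i : Fin 3, Algebra.trace R A (b i.succ) = 0)
    (gen : Algebra.adjoin R (Set.range ξ) = ⊤)
    (up : UP (algebraMap k R) κS ξ) (hS : Lifts κS) :
    IsNormalRing' R ∧ IsCohenMacaulayRing R := by
  have hs := Fr.isSC_toSC h0 ht
  set s := Fr.toSC h0 ht
  let T := FrT R
  let bT := QA.basis (s.map (algebraMap R T))
  have hh : (2 : R) * algebraMap k R (2⁻¹) = 1 := by
    rw [← map_ofNat (algebraMap k R) 2, ← map_mul, mul_inv_cancel₀ h2, map_one]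
  obtain ⟨b', hb'0, hb'⟩ := Fr.exists_basis (b := bT) (QA.basis_zero _) (gT R) (gT_unit R)
  have ht' : ∀ i : Fin 3, Algebra.trace T (QA (s.map (algebraMap R T))) (b' i.succ) = 0 := by
    intro i
    rw [hb']
    unfold Fr.chg
    rw [map_sum]
    refine Finset.sum_eq_zero fun j _ => ?_
    rw [← Algebra.smul_def, map_smul]
    have h3 : Algebra.trace T (QA (s.map (algebraMap R T))) (bT j.succ) = 0 :=
      Fr.trace_zero (QA.basis_zero _) (QA.isSC _) j
    rw [h3, smul_zero]
  obtain ⟨x, hx⟩ := SC.exists_plk (Fr.toSC hb'0 ht') (algebraMap R T (algebraMap k R (2⁻¹))) (by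
    rw [← map_ofNat (algebraMap R T) 2, ← map_mul, hh, map_one])
  have hxs : IsSC x.toSC (Fr.chg (QA.basis (s.map (algebraMap R T))) (gT R)) := by
    rw [hx]
    have := Fr.isSC_toSC hb'0 ht'
    have h3 : (fun i : Fin 3 => b' i.succ) = Fr.chg bT (gT R) := funext hb'
    rwa [h3] at this
  let φ : PL k →ₐ[k] T := PL.lift x
  have hφ : (PL.univ k).map φ.toRingHom = x := PL.map_lift x
  let _ : Algebra (PL k) T := φ.toRingHom.toAlgebra
  have : IsScalarTower k (PL k) T := IsScalarTower.of_algebraMap_eq fun r => (φ.commutes r).symm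
  have fs : Algebra.FormallySmooth (PL k) T := by
    refine Algebra.FormallySmooth.of_comp_surjective fun C _ _ I hI h' => ?_
    obtain ⟨h, hh1, hh2, hh3⟩ := frame_lift (algebraMap k R) κS ξ hκ b h0 s hs gen up hS _ hh
      (gT R) (gT_unit R) (FrT_ext R) (FrT_lift R) x hxs C (C ⧸ I) (Ideal.Quotient.mk I)
      Ideal.Quotient.mk_surjective (by
        intro a c ha hc
        rw [Ideal.Quotient.eq_zero_iff_mem] at ha hc
        have : a * c ∈ I ^ 2 := by rw [pow_two]; exact Ideal.mul_mem_mul ha hc
        rwa [hI, Ideal.mem_bot] at this)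
      ((PL.univ k).map (algebraMap (PL k) C)) h'.toRingHom (by
        rw [← hφ, Plk.map_map, Plk.map_map]
        congr 1
        ext z
        exact h'.commutes z) ((algebraMap (PL k) C).comp (algebraMap k (PL k))) (by
        ext r
        have := h'.commutes (algebraMap k (PL k) r)
        rw [← IsScalarTower.algebraMap_apply k (PL k) T, IsScalarTower.algebraMap_apply k R T] at this
        exact this)
    have key : h.comp φ.toRingHom = algebraMap (PL k) C := by
      refine PL.ringHom_ext ?_ ?_
      · rw [← hh1, RingHom.comp_assoc, RingHom.comp_assoc]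
        congr 1
        ext r
        change φ (algebraMap k (PL k) r) = _
        rw [φ.commutes, IsScalarTower.algebraMap_apply k R T]
        rfl
      · rw [← Plk.map_map, hφ, hh3]
    refine ⟨{ h with commutes' := fun z => RingHom.congr_fun key z }, ?_⟩
    ext z
    exact RingHom.congr_fun hh2 z
  have hcm := PL.isCohenMacaulayRing k
  have hn : IsNoetherianRing (PL k) := hcm.1
  have ft : Algebra.FiniteType k T := by
    have h1 : Algebra.FiniteType k (MvPolynomial (Fin 9) R) :=
      Algebra.FiniteType.trans (S := R) inferInstance inferInstance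
    have h2 : Algebra.FiniteType (MvPolynomial (Fin 9) R) T :=
      inferInstance
    exact Algebra.FiniteType.trans (S := MvPolynomial (Fin 9) R) h1 h2
  have fp : Algebra.FinitePresentation (PL k) T := by
    have : Algebra.FiniteType (PL k) T := Algebra.FiniteType.of_restrictScalars_finiteType k _ _
    exact Algebra.FinitePresentation.of_finiteType.mp this
  have sm : Algebra.Smooth (PL k) T := ⟨fs, fp⟩
  have hR : IsNoetherianRing R := Algebra.FiniteType.isNoetherianRing k R
  refine descent 9 (gmat R).det (fun n => if (ix n).1 =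
    (ix n).2 then 1 else 0) ?_
    (normal_of_smooth (D := PL k) T) (IsCohenMacaulayRing.of_smooth (D := PL k) T hcm)
  have h1 : MvPolynomial.eval (fun n => if (ix n).1 =
      (ix n).2 then 1 else 0) (gmat R).det =
      (1 : Matrix (Fin 3) (Fin 3) R).det := by
    rw [RingHom.map_det]
    congr 1
    ext i j
    simp only [gmat, RingHom.mapMatrix_apply, Matrix.map_apply, Matrix.of_apply,
      MvPolynomial.eval_X, Matrix.one_apply]
    rw [Equiv.apply_symm_apply]
  rw [h1, Matrix.det_one]
  exact isUnit_one

end Pool.Agent.J6H65.Hilb4
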