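import Pool.Agent.J6H65.Hilb4.Geo4
import Pool.Agent.J6H65.Hilb4.Geo6
import Pool.Agent.J6H65.Hilb4.QF
import Pool.Agent.J6H65.Hilb4.Avoid

set_option autoImplicit false
set_option linter.unusedSectionVars false

open AlgebraicGeometry CategoryTheory Limits TensorProduct

namespace Pool.Agent.J6H65.Hilb4

theorem stalk_equiv2 {Y Z : Scheme.{0}} (j : Z ⟶ Y) [IsOpenImmersion j] (z : Z) :
    Nonempty (Z.presheaf.stalk z ≃+* Y.presheaf.stalk (j z)) :=
  ⟨(asIso (j.stalkMap z)).commRingCatIsoToRingEquiv.symm⟩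

theorem stalk_equiv {Y : Scheme.{0}} {R : Type} [CommRing R] (j : Spec (.of R) ⟶ Y)
    [IsOpenImmersion j] (z : PrimeSpectrum R) :
    Nonempty (Localization.AtPrime z.asIdeal ≃+* Y.presheaf.stalk (j z)) := by
  let k : Algebra R ((Spec (.of R)).presheaf.stalk z) := StructureSheaf.stalkAlgebra R z
  have : IsLocalization.AtPrime ((Spec (.of R)).presheaf.stalk z) z.asIdeal :=
    StructureSheaf.IsLocalization.to_stalk R z
  let e1 : Localization.AtPrime z.asIdeal ≃ₐ[R] (Spec (.of R)).presheaf.stalk z :=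
    IsLocalization.algEquiv z.asIdeal.primeCompl _ _
  obtain ⟨e2⟩ := stalk_equiv2 j z
  exact ⟨e1.toRingEquiv.trans e2⟩

theorem lifts_of_smooth {S : Type} [CommRing S] (κS : ℂ →+* S) (h : κS.FormallySmooth) :
    Lifts κS := by
  intro B B' _ _ q hq hker κB ξ' hξ'
  let _ : Algebra ℂ S := κS.toAlgebra
  let _ : Algebra ℂ B := κB.toAlgebra
  let _ : Algebra ℂ B' := (q.comp κB).toAlgebra
  have : Algebra.FormallySmooth ℂ S := h
  let q' : B →ₐ[ℂ] B' := { q with commutes' := fun _ => rfl }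
  let ξ : S →ₐ[ℂ] B' := { ξ' with commutes' := fun r => RingHom.congr_fun hξ' r }
  have hn : IsNilpotent (RingHom.ker (q' : B →+* B')) := by
    refine ⟨2, ?_⟩
    rw [pow_two, Ideal.zero_eq_bot, eq_bot_iff, Ideal.mul_le]
    intro x hx y hy
    exact hker x y hx hy
  refine ⟨(Algebra.FormallySmooth.liftOfSurjective ξ q' hq hn : S →+* B), ?_, ?_⟩
  · ext r
    exact (Algebra.FormallySmooth.liftOfSurjective ξ q' hq hn).commutes r
  · ext x
    exact Algebra.FormallySmooth.liftOfSurjective_apply ξ q' hq hn x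

theorem main_geo {X H : Over SpecC} [IsSeparated X.hom] [Smooth X.hom] (F : Family 4 X H) (hF : F.IsUniversal)
    (haf : ∀ s : Set X.left, s.Finite → ∃ U : X.left.Opens, IsAffineOpen U ∧ s ⊆ U) :
    IsNormalScheme H.left ∧ IsCohenMacaulayScheme H.left := by
  have key : ∀ h : H.left, (IsDomain (H.left.presheaf.stalk h) ∧
      IsIntegrallyClosed (H.left.presheaf.stalk h)) ∧
      IsCohenMacaulayLocalRing (H.left.presheaf.stalk h) := by
    intro h
    have := F.isFinite
    obtain ⟨U, hU, hsU⟩ := haf (F.u '' (F.p ⁻¹' {h}))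
      ((F.p.finite_preimage_singleton h).image _)
    have hkr : ∀ {R : Type} [CommRing R] (j : Spec (.of R) ⟶ H.left),
        ∃ κR : ℂ →+* R, j ≫ H.hom = Spec.map (CommRingCat.ofHom κR) := by
      intro R _ j
      obtain ⟨κ, hκ⟩ := Spec.map_surjective (j ≫ H.hom)
      exact ⟨κ.hom, hκ.symm⟩
    obtain ⟨R, A, _, _, _, c, ⟨z, hz⟩, hcU, b, h0, ht⟩ := exists_chart2 F h U
      (fun z hz => hsU ⟨z, hz, rfl⟩) (by
        intro R A _ _ _ c
        obtain ⟨κR, -⟩ := hkr c.jR
        refine ⟨κR 4⁻¹, ?_⟩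
        rw [← map_ofNat κR 4, ← map_mul, mul_inv_cancel₀ (by norm_num), map_one])
    obtain ⟨ξ, hξ, gen⟩ := c.exists_xi F U hU hcU
    have := c.open'
    obtain ⟨κR, hκR⟩ := hkr c.jR
    obtain ⟨κ, hκ⟩ := Spec.map_surjective (hU.fromSpec ≫ X.hom)
    have hκS : hU.fromSpec ≫ X.hom = Spec.map (CommRingCat.ofHom κ.hom) := hκ.symm
    have up := up_of_universal F hF c.jR c.jA c.sq hU.fromSpec ξ hξ κR hκR κ.hom hκS b
    have hsm : Smooth (Spec.map (CommRingCat.ofHom κ.hom)) := by
      rw [← hκS]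
      infer_instance
    have hsm' : κ.hom.Smooth := HasRingHomProperty.Spec_iff.mp hsm
    have hl := lifts_of_smooth κ.hom hsm'.formallySmooth
    let _ : Algebra ℂ R := κR.toAlgebra
    have hκ' : ξ.comp κ.hom = (algebraMap R A).comp κR := by
      have h1 : Spec.map (CommRingCat.ofHom (ξ.comp κ.hom)) =
          Spec.map (CommRingCat.ofHom ((algebraMap R A).comp κR)) := by
        rw [CommRingCat.ofHom_comp, Spec.map_comp, ← hκS, ← Category.assoc, ← hξ, Category.assoc,
          F.w, ← Category.assoc, c.sq.w, Category.assoc, hκR, ← Spec.map_comp,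
          ← CommRingCat.ofHom_comp]
      exact congrArg CommRingCat.Hom.hom (Spec.map_injective h1)
    have hft' : κR.FiniteType := chart_finiteType F hF c.jR c.jA c.sq hU.fromSpec ξ hξ κR hκR
      κ.hom hκS hκ' (RingHom.FiniteType.of_finitePresentation hsm'.finitePresentation) b h0 ht gen
    have : Algebra.FiniteType ℂ R := hft'
    obtain ⟨hN, hC⟩ := main_alg (k := ℂ) (by norm_num) κ.hom ξ hκ' b h0 ht gen up hl
    let z' : PrimeSpectrum R := z
    obtain ⟨e⟩ := stalk_equiv c.jR z'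
    rw [← hz]
    have hz1 := hN z'.asIdeal
    have hz2 := hC.2 z'.asIdeal
    exact ⟨normal_of_ringEquiv e hz1, IsCohenMacaulayLocalRing.of_ringEquiv e hz2⟩
  exact ⟨fun h => (key h).1, fun h => (key h).2⟩

section

attribute [local instance] MvPolynomial.gradedAlgebra

theorem isSeparated_toSpec (n : ℕ) : IsSeparated (ProjSpace.toSpec n) := by
  have h1 : IsSeparated (Proj.toSpecZero (MvPolynomial.homogeneousSubmodule (Fin (n + 1)) ℂ)) :=
    Proj.isSeparated _
  have h2 : IsSeparated (Spec.map (CommRingCat.ofHom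
      (algebraMap ℂ (MvPolynomial.homogeneousSubmodule (Fin (n + 1)) ℂ 0)))) := inferInstance
  exact MorphismProperty.comp_mem @IsSeparated _ _ h1 h2

theorem exists_affine_proj {n : ℕ} {X : Scheme.{0}} (i : X ⟶ ProjSpace n) [IsImmersion i]
    (s : Set X) (hs : s.Finite) : ∃ U : X.Opens, IsAffineOpen U ∧ s ⊆ U :=
  @exists_affine _ _ _ _ _ (MvPolynomial.homogeneousSubmodule (Fin (n + 1)) ℂ) _ X i ‹_› s hs

end

/-- The Hilbert scheme of four points of a smooth quasi-projective scheme is normal and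
Cohen–Macaulay. -/
theorem main_quasiProjective {X H : Over SpecC} (hX : IsQuasiProjective X) (hs : Smooth X.hom)
    (F : Family 4 X H) (hF : F.IsUniversal) :
    IsNormalScheme H.left ∧ IsCohenMacaulayScheme H.left := by
  obtain ⟨n, i, hi, hiX⟩ := hX
  have : IsSeparated X.hom := by
    have := isSeparated_toSpec n
    rw [← hiX]
    infer_instance
  exact main_geo F hF (fun s hs => exists_affine_proj i s hs)

end Pool.Agent.J6H65.Hilb4
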