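import Mathlib

set_option autoImplicit false
set_option linter.unusedSimpArgs false
set_option linter.unusedVariables false

namespace Pool.Agent.J6H65.Hilb4

variable {R : Type*} [CommRing R]

/-- The Pluecker relations in the coordinates `t` (antidiagonal sums) and `u`. -/
structure TU (t : Fin 9 → R) (u : Fin 6 → R) : Prop where
  r1234 : t 0 * u 3 - t 1 * u 1 + (t 2 - u 0) * u 0 = 0
  r1235 : t 0 * u 4 - t 1 * u 2 + (t 3 - u 1) * u 0 = 0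
  r1236 : t 0 * (t 6 - u 5) - t 1 * (t 5 - u 4) + (t 4 - u 2 - u 3) * u 0 = 0
  r1245 : t 0 * u 5 - (t 2 - u 0) * u 2 + (t 3 - u 1) * u 1 = 0
  r1246 : t 0 * t 7 - (t 2 - u 0) * (t 5 - u 4) + (t 4 - u 2 - u 3) * u 1 = 0
  r1256 : t 0 * t 8 - (t 3 - u 1) * (t 5 - u 4) + (t 4 - u 2 - u 3) * u 2 = 0
  r1345 : t 1 * u 5 - (t 2 - u 0) * u 4 + (t 3 - u 1) * u 3 = 0
  r1346 : t 1 * t 7 - (t 2 - u 0) * (t 6 - u 5) + (t 4 - u 2 - u 3) * u 3 = 0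
  r1356 : t 1 * t 8 - (t 3 - u 1) * (t 6 - u 5) + (t 4 - u 2 - u 3) * u 4 = 0
  r1456 : (t 2 - u 0) * t 8 - (t 3 - u 1) * t 7 + (t 4 - u 2 - u 3) * u 5 = 0
  r2345 : u 0 * u 5 - u 1 * u 4 + u 2 * u 3 = 0
  r2346 : u 0 * t 7 - u 1 * (t 6 - u 5) + (t 5 - u 4) * u 3 = 0
  r2356 : u 0 * t 8 - u 2 * (t 6 - u 5) + (t 5 - u 4) * u 4 = 0
  r2456 : u 1 * t 8 - u 2 * t 7 + (t 5 - u 4) * u 5 = 0
  r3456 : u 3 * t 8 - u 4 * t 7 + (t 6 - u 5) * u 5 = 0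

variable {t : Fin 9 → R} {u : Fin 6 → R}

theorem TU.tab0_0 (h : TU t u) :
    u 0 =
    u 0 := by
  ring

theorem TU.tab0_1 (h : TU t u) :
    u 0 * u 0 =
    t 0 * u 3 - t 1 * u 1 + t 2 * u 0 := by
  linear_combination (- 1) * h.r1234

theorem TU.tab0_2 (h : TU t u) :
    u 0 * u 1 =
    t 0 * u 4 - t 1 * u 2 + t 3 * u 0 := by
  linear_combination (- 1) * h.r1235

theorem TU.tab0_3 (h : TU t u) :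
    u 0 * u 2 =
    - u 0 * u 3 - t 0 * u 5 + t 0 * t 6 + t 1 * u 4 - t 1 * t 5 + t 4 * u 0 := by
  linear_combination (- 1) * h.r1236

theorem TU.tab0_4 (h : TU t u) :
    u 0 * u 3 =
    u 0 * u 3 := by
  ring

theorem TU.tab0_5 (h : TU t u) :
    u 0 * u 4 =
    u 0 * u 4 := by
  ring

theorem TU.tab0_6 (h : TU t u) :
    u 0 * u 5 =
    u 0 * u 5 := by
  ring

theorem TU.tab0_7 (h : TU t u) :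
    u 0 * u 0 * u 3 =
    - t 0 * u 1 * u 4 + t 0 * t 1 * t 7 + t 0 * t 2 * u 5 - t 0 * t 2 * t 6 + t 0 * t 4 * u 3 + t 0 * t 6 * u 0 - t 1 * u 0 * u 4 - t 1 * t 1 * u 5 + t 1 * t 2 * u 4 - t 1 * t 3 * u 3 + t 2 * u 0 * u 3 := by
  linear_combination (- u 3) * h.r1234 + (t 1) * h.r1345 + (- t 0) * h.r1346 + (- t 0) * h.r2345

theorem TU.tab0_8 (h : TU t u) :
    u 0 * u 0 * u 4 =
    t 0 * u 1 * u 5 + t 0 * t 5 * u 3 - t 0 * t 6 * u 1 + t 0 * t 7 * u 0 - t 1 * u 1 * u 4 + t 2 * u 0 * u 4 := by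
  linear_combination (- u 4) * h.r1234 + (- t 0) * h.r2346

theorem TU.tab0_9 (h : TU t u) :
    u 0 * u 0 * u 5 =
    t 0 * u 3 * u 5 - t 1 * u 1 * u 5 + t 2 * u 0 * u 5 := by
  linear_combination (- u 5) * h.r1234

theorem TU.tab0_10 (h : TU t u) :
    u 0 * u 1 * u 4 =
    - t 0 * u 3 * u 5 + t 0 * t 2 * t 8 - t 0 * t 3 * t 7 + t 0 * t 4 * u 5 + t 0 * t 5 * u 4 - t 0 * t 6 * u 2 + t 0 * t 7 * u 1 + 2 * t 1 * u 1 * u 5 - t 1 * t 1 * t 8 - t 1 * t 3 * u 5 + t 1 * t 3 * t 6 - t 1 * t 4 * u 4 + t 1 * t 5 * u 3 - 2 * t 1 * t 6 * u 1 + t 1 * t 7 * u 0 + t 3 * u 0 * u 4 := by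
  linear_combination (- u 4) * h.r1235 + (t 1) * h.r1356 + (- t 0) * h.r1456 + (- t 1) * h.r2346 + (- t 0) * h.r2356

theorem TU.tab0_11 (h : TU t u) :
    u 0 * u 1 * u 5 =
    t 0 * t 5 * u 5 - t 0 * t 7 * u 2 + t 0 * t 8 * u 1 + t 1 * u 3 * u 5 - t 1 * t 2 * t 8 + t 1 * t 3 * t 7 - t 1 * t 4 * u 5 - t 1 * t 7 * u 1 + t 1 * t 8 * u 0 + t 3 * u 0 * u 5 := by
  linear_combination (- u 5) * h.r1235 + (t 1) * h.r1456 + (- t 0) * h.r2456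

theorem TU.tab0_12 (h : TU t u) :
    u 0 * u 3 * u 5 =
    u 0 * u 3 * u 5 := by
  ring

theorem TU.tab0_13 (h : TU t u) :
    u 0 * u 0 * u 3 * u 5 =
    - t 0 * t 0 * t 6 * t 8 + t 0 * t 0 * t 7 * t 7 + t 0 * t 1 * t 5 * t 8 + t 0 * t 1 * t 6 * t 7 - t 0 * t 1 * t 7 * u 5 - 2 * t 0 * t 1 * t 8 * u 4 - t 0 * t 2 * t 5 * t 7 + t 0 * t 2 * t 7 * u 4 + t 0 * t 2 * t 8 * u 2 + t 0 * t 2 * t 8 * u 3 - t 0 * t 3 * t 7 * u 3 - t 0 * t 3 * t 8 * u 1 + t 0 * t 4 * u 3 * u 5 + t 0 * t 4 * t 7 * u 1 - t 0 * t 4 * t 8 * u 0 - t 0 * t 5 * u 1 * u 5 + t 0 * t 5 * t 7 * u 0 + t 0 * t 6 * u 0 * u 5 - 2 * t 0 * t 7 * u 0 * u 4 + t 0 * t 8 * u 0 * u 3 - t 1 * t 1 * t 5 * t 7 - t 1 * t 1 * t 6 * u 5 + 2 * t 1 * t 1 * t 7 * u 4 + t 1 * t 1 * t 8 * u 2 - t 1 * t 1 * t 8 * u 3 + t 1 * t 2 * t 5 * u 5 - t 1 *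 t 2 * t 7 * u 2 + t 1 * t 2 * t 8 * u 1 - t 1 * t 3 * u 3 * u 5 - t 1 * t 3 * t 8 * u 0 + t 1 * t 4 * t 7 * u 0 - t 1 * t 5 * u 0 * u 5 - t 1 * t 7 * u 0 * u 3 + t 2 * u 0 * u 3 * u 5 := by
  linear_combination (- t 2 * t 8 + t 3 * t 7 - t 4 * u 5 - t 7 * u 1) * h.r1234 + (t 1 * t 8 + t 7 * u 0 + u 1 * u 5) * h.r1235 + (t 0 * t 8 - t 1 * t 7 - u 0 * u 5) * h.r1236 + (t 0 * t 8 + t 5 * u 1 - u 0 * u 5 - u 1 * u 4) * h.r1245 + (- t 0 * t 7 - u 1 * u 2) * h.r1246 + (u 1 * u 1) * h.r1256 + (t 1 * u 5) * h.r1345 + (- t 1 * u 1 + t 2 * u 0) * h.r1456 + (- t 1 * t 2) * h.r2456 + (t 1 * t 1) * h.r3456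

theorem TU.tab1_0 (h : TU t u) :
    u 1 =
    u 1 := by
  ring

theorem TU.tab1_1 (h : TU t u) :
    u 1 * u 0 =
    t 0 * u 4 - t 1 * u 2 + t 3 * u 0 := by
  linear_combination (- 1) * h.r1235

theorem TU.tab1_2 (h : TU t u) :
    u 1 * u 1 =
    - u 0 * u 3 + t 0 * t 6 + t 1 * u 4 - t 1 * t 5 - t 2 * u 2 + t 3 * u 1 + t 4 * u 0 := by
  linear_combination (- 1) * h.r1236 + (- 1) * h.r1245

theorem TU.tab1_3 (h : TU t u) :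
    u 1 * u 2 =
    - 2 * u 0 * u 4 + t 0 * t 7 - t 1 * u 5 + 2 * t 2 * u 4 - t 2 * t 5 - t 3 * u 3 + t 4 * u 1 + t 5 * u 0 := by
  linear_combination (- 1) * h.r1246 + (1) * h.r1345

theorem TU.tab1_4 (h : TU t u) :
    u 1 * u 3 =
    u 0 * u 4 + t 1 * u 5 - t 2 * u 4 + t 3 * u 3 := by
  linear_combination (- 1) * h.r1345

theorem TU.tab1_5 (h : TU t u) :
    u 1 * u 4 =
    u 1 * u 4 := by
  ring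

theorem TU.tab1_6 (h : TU t u) :
    u 1 * u 5 =
    u 1 * u 5 := by
  ring

theorem TU.tab1_7 (h : TU t u) :
    u 1 * u 0 * u 3 =
    t 0 * u 1 * u 5 + t 0 * t 5 * u 3 - t 0 * t 6 * u 1 + t 0 * t 7 * u 0 + t 1 * u 0 * u 5 - t 1 * u 1 * u 4 + t 3 * u 0 * u 3 := by
  linear_combination (- u 3) * h.r1235 + (- t 1) * h.r2345 + (- t 0) * h.r2346

theorem TU.tab1_8 (h : TU t u) :
    u 1 * u 0 * u 4 =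
    - t 0 * u 3 * u 5 + t 0 * t 2 * t 8 - t 0 * t 3 * t 7 + t 0 * t 4 * u 5 + t 0 * t 5 * u 4 - t 0 * t 6 * u 2 + t 0 * t 7 * u 1 + 2 * t 1 * u 1 * u 5 - t 1 * t 1 * t 8 - t 1 * t 3 * u 5 + t 1 * t 3 * t 6 - t 1 * t 4 * u 4 + t 1 * t 5 * u 3 - 2 * t 1 * t 6 * u 1 + t 1 * t 7 * u 0 + t 3 * u 0 * u 4 := by
  linear_combination (- u 4) * h.r1235 + (t 1) * h.r1356 + (- t 0) * h.r1456 + (- t 1) * h.r2346 + (- t 0) * h.r2356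

theorem TU.tab1_9 (h : TU t u) :
    u 1 * u 0 * u 5 =
    t 0 * t 5 * u 5 - t 0 * t 7 * u 2 + t 0 * t 8 * u 1 + t 1 * u 3 * u 5 - t 1 * t 2 * t 8 + t 1 * t 3 * t 7 - t 1 * t 4 * u 5 - t 1 * t 7 * u 1 + t 1 * t 8 * u 0 + t 3 * u 0 * u 5 := by
  linear_combination (- u 5) * h.r1235 + (t 1) * h.r1456 + (- t 0) * h.r2456

theorem TU.tab1_10 (h : TU t u) :
    u 1 * u 1 * u 4 =
    - t 0 * t 5 * u 5 + 2 * t 0 * t 6 * u 4 + t 0 * t 7 * u 2 - t 0 * t 7 * u 3 - t 0 * t 8 * u 1 - 2 * t 1 * u 3 * u 5 + t 1 * t 2 * t 8 - 2 * t 1 * t 3 * t 7 + 2 * t 1 * t 4 * u 5 - 2 * t 1 * t 6 * u 2 + 3 * t 1 * t 7 * u 1 - t 1 * t 8 * u 0 + 2 * t 2 * u 1 * u 5 - t 2 * t 3 * u 5 + t 2 * t 3 * t 6 - t 2 * t 4 * u 4 + t 2 * t 5 * u 3 - 2 * t 2 * t 6 * u 1 - t 3 * u 0 * u 5 + t 3 * u 1 * u 4 + t 3 * t 6 * u 0 + t 4 *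 u 0 * u 4 - t 5 * u 0 * u 3 := by
  linear_combination (- 2 * u 4) * h.r1236 + (- u 4) * h.r1245 + (u 3) * h.r1246 + (- u 1) * h.r1346 + (t 2 + u 0) * h.r1356 + (- 2 * t 1) * h.r1456 + (- 2 * t 1) * h.r2356 + (t 0) * h.r2456

theorem TU.tab1_11 (h : TU t u) :
    u 1 * u 1 * u 5 =
    - u 0 * u 3 * u 5 + t 0 * t 6 * u 5 - t 1 * t 7 * u 2 + t 1 * t 8 * u 1 + t 2 * u 3 * u 5 - t 2 * t 2 * t 8 + t 2 * t 3 * t 7 - t 2 * t 4 * u 5 - t 2 * t 7 * u 1 + t 2 * t 8 * u 0 + t 3 * u 1 * u 5 + t 4 * u 0 * u 5 := by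
  linear_combination (- u 5) * h.r1236 + (- u 5) * h.r1245 + (t 2) * h.r1456 + (- t 1) * h.r2456

theorem TU.tab1_12 (h : TU t u) :
    u 1 * u 3 * u 5 =
    - t 0 * t 6 * t 7 + t 0 * t 7 * u 5 + t 0 * t 8 * u 4 + t 1 * t 5 * t 7 + t 1 * t 6 * u 5 - 2 * t 1 * t 7 * u 4 - t 1 * t 8 * u 2 + t 1 * t 8 * u 3 - t 2 * t 5 * u 5 + t 2 * t 7 * u 2 - t 2 * t 8 * u 1 + t 3 * u 3 * u 5 + t 3 * t 8 * u 0 - t 4 * t 7 * u 0 + t 5 * u 0 * u 5 + t 7 * u 0 * u 3 := by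
  linear_combination (- t 8) * h.r1235 + (t 7) * h.r1236 + (- u 5) * h.r1345 + (t 2 - u 0) * h.r2456 + (- t 1) * h.r3456

theorem TU.tab1_13 (h : TU t u) :
    u 1 * u 0 * u 3 * u 5 =
    - t 0 * t 1 * t 6 * t 8 + t 0 * t 1 * t 7 * t 7 + t 0 * t 1 * t 8 * u 5 - t 0 * t 2 * t 8 * u 4 + t 0 * t 3 * t 8 * u 3 + t 0 * t 5 * u 3 * u 5 + t 0 * t 7 * u 0 * u 5 - t 0 * t 7 * u 1 * u 4 + t 0 * t 8 * u 0 * u 4 + t 1 * t 1 * t 5 * t 8 - t 1 * t 1 * t 7 * u 5 - t 1 * t 1 * t 8 * u 4 - t 1 * t 2 * t 5 * t 7 + 2 * t 1 * t 2 * t 7 * u 4 + t 1 * t 2 * t 8 * u 2 - t 1 * t 3 * t 7 * u 3 - t 1 * t 3 * t 8 * u 1 + t 1 * t 4 * t 7 * u 1 - t 1 * t 4 * t 8 * u 0 - t 1 * t 5 * u 1 * u 5 + t 1 * t 5 * t 7 * u 0 + t 1 * t 6 * u 0 * u 5 - 3 * t 1 * t 7 * u 0 * u 4 + 2 * t 1 * t 8 * u 0 * u 3 + t 3 * u 0 * u 3 * u 5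 := by
  linear_combination (t 1 * t 8) * h.r1236 + (t 1 * t 8 - u 3 * u 4) * h.r1245 + (- t 1 * t 7) * h.r1246 + (- t 0 * t 8 + 2 * t 1 * t 7 - u 0 * u 5 + u 1 * u 4) * h.r1345 + (- t 1 * u 5) * h.r1346 + (t 1 * u 3) * h.r1456 + (- t 2 * u 4 + u 0 * u 4) * h.r2345 + (- t 0 * u 5) * h.r2346 + (t 1 * u 1) * h.r2456 + (- t 0 * u 1 - t 1 * t 2) * h.r3456

theorem TU.tab2_0 (h : TU t u) :
    u 2 =
    u 2 := by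
  ring

theorem TU.tab2_1 (h : TU t u) :
    u 2 * u 0 =
    - u 0 * u 3 - t 0 * u 5 + t 0 * t 6 + t 1 * u 4 - t 1 * t 5 + t 4 * u 0 := by
  linear_combination (- 1) * h.r1236

theorem TU.tab2_2 (h : TU t u) :
    u 2 * u 1 =
    - 2 * u 0 * u 4 + t 0 * t 7 - t 1 * u 5 + 2 * t 2 * u 4 - t 2 * t 5 - t 3 * u 3 + t 4 * u 1 + t 5 * u 0 := by
  linear_combination (- 1) * h.r1246 + (1) * h.r1345

theorem TU.tab2_3 (h : TU t u) :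
    u 2 * u 2 =
    u 0 * u 5 - 2 * u 1 * u 4 + t 0 * t 8 + t 3 * u 4 - t 3 * t 5 + t 4 * u 2 + t 5 * u 1 := by
  linear_combination (- 1) * h.r1256 + (- 1) * h.r2345

theorem TU.tab2_4 (h : TU t u) :
    u 2 * u 3 =
    - u 0 * u 5 + u 1 * u 4 := by
  linear_combination (1) * h.r2345

theorem TU.tab2_5 (h : TU t u) :
    u 2 * u 4 =
    - 2 * u 1 * u 5 + t 1 * t 8 + t 3 * u 5 - t 3 * t 6 + t 4 * u 4 - t 5 * u 3 + 2 * t 6 * u 1 - t 7 * u 0 := by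
  linear_combination (- 1) * h.r1356 + (1) * h.r2346

theorem TU.tab2_6 (h : TU t u) :
    u 2 * u 5 =
    - u 3 * u 5 + t 2 * t 8 - t 3 * t 7 + t 4 * u 5 + t 7 * u 1 - t 8 * u 0 := by
  linear_combination (- 1) * h.r1456

theorem TU.tab2_7 (h : TU t u) :
    u 2 * u 0 * u 3 =
    - 2 * t 0 * u 3 * u 5 + t 0 * t 2 * t 8 - t 0 * t 3 * t 7 + t 0 * t 4 * u 5 + t 0 * t 5 * u 4 - t 0 * t 6 * u 2 + t 0 * t 7 * u 1 + 3 * t 1 * u 1 * u 5 - t 1 * t 1 * t 8 - t 1 * t 3 * u 5 + t 1 * t 3 * t 6 - t 1 * t 4 * u 4 + t 1 * t 5 * u 3 - 2 * t 1 * t 6 * u 1 + t 1 * t 7 * u 0 - t 2 * u 0 * u 5 + t 3 * u 0 * u 4 := by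
  linear_combination (u 5) * h.r1234 + (- u 4) * h.r1235 + (t 1) * h.r1356 + (- t 0) * h.r1456 + (u 0) * h.r2345 + (- t 1) * h.r2346 + (- t 0) * h.r2356

theorem TU.tab2_8 (h : TU t u) :
    u 2 * u 0 * u 4 =
    - 2 * t 0 * t 5 * u 5 + 2 * t 0 * t 6 * u 4 + 2 * t 0 * t 7 * u 2 - t 0 * t 7 * u 3 - 2 * t 0 * t 8 * u 1 - 2 * t 1 * u 3 * u 5 + 2 * t 1 * t 2 * t 8 - 2 * t 1 * t 3 * t 7 + 2 * t 1 * t 4 * u 5 - 2 * t 1 * t 6 * u 2 + 3 * t 1 * t 7 * u 1 - t 1 * t 8 * u 0 - t 2 * t 7 * u 0 - t 3 * u 0 * u 5 + t 3 * t 6 * u 0 + t 4 * u 0 * u 4 - t 5 * u 0 * u 3 := by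
  linear_combination (t 7) * h.r1234 + (- 2 * u 4) * h.r1236 + (u 0) * h.r1356 + (- 2 * t 1) * h.r1456 + (u 0) * h.r2346 + (- 2 * t 1) * h.r2356 + (2 * t 0) * h.r2456

theorem TU.tab2_9 (h : TU t u) :
    u 2 * u 0 * u 5 =
    - u 0 * u 3 * u 5 + t 0 * t 7 * u 4 - t 0 * t 8 * u 3 - t 1 * t 7 * u 2 + t 1 * t 8 * u 1 + t 4 * u 0 * u 5 := by
  linear_combination (- u 5) * h.r1236 + (- t 1) * h.r2456 + (t 0) * h.r3456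

theorem TU.tab2_10 (h : TU t u) :
    u 2 * u 1 * u 4 =
    2 * u 0 * u 3 * u 5 - 2 * t 0 * t 6 * u 5 + 2 * t 0 * t 6 * t 6 - t 0 * t 7 * u 4 - t 1 * t 5 * u 5 - 2 * t 1 * t 5 * t 6 + 2 * t 1 * t 6 * u 4 + 3 * t 1 * t 7 * u 2 - t 1 * t 8 * u 1 - 2 * t 2 * u 3 * u 5 + 2 * t 2 * t 2 * t 8 - 2 * t 2 * t 3 * t 7 + 2 * t 2 * t 4 * u 5 + t 2 * t 5 * u 4 - 2 * t 2 * t 6 * u 2 + 2 * t 2 * t 7 * u 1 - 2 * t 2 * t 8 * u 0 - t 3 * u 1 * u 5 - t 3 * t 5 * u 3 + t 3 * t 6 * u 1 - t 3 * t 7 * u 0 - 2 * t 4 * u 0 * u 5 + t 4 * u 1 * u 4 + 2 * t 4 * t 6 * u 0 - t 5 * u 0 * u 4 - 2 * t 6 * u 0 * u 3 := by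
  linear_combination (t 7) * h.r1235 + (- 2 * t 6 + 2 * u 5) * h.r1236 + (- 2 * t 6 + 2 * u 5) * h.r1245 + (t 5) * h.r1345 + (- u 1) * h.r1356 + (- 2 * t 2) * h.r1456 + (u 1) * h.r2346 + (2 * t 1) * h.r2456

theorem TU.tab2_11 (h : TU t u) :
    u 2 * u 1 * u 5 =
    2 * t 0 * t 6 * t 7 - t 0 * t 7 * u 5 - 2 * t 0 * t 8 * u 4 - 2 * t 1 * t 5 * t 7 - t 1 * t 6 * u 5 + 3 * t 1 * t 7 * u 4 + 2 * t 1 * t 8 * u 2 - t 1 * t 8 * u 3 + t 2 * t 5 * u 5 - 2 * t 2 * t 7 * u 2 + 2 * t 2 * t 8 * u 1 - t 3 * u 3 * u 5 - 2 * t 3 * t 8 * u 0 + t 4 * u 1 * u 5 + 2 * t 4 * t 7 * u 0 - t 5 * u 0 * u 5 - 2 * t 7 * u 0 * u 3 := by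
  linear_combination (2 * t 8) * h.r1235 + (- 2 * t 7) * h.r1236 + (- 2 * t 7) * h.r1245 + (u 5) * h.r1246 + (u 5) * h.r1345 + (- 2 * u 1) * h.r1456 + (t 1) * h.r3456

theorem TU.tab2_12 (h : TU t u) :
    u 2 * u 3 * u 5 =
    t 0 * t 6 * t 8 - t 0 * t 7 * t 7 - t 1 * t 5 * t 8 + t 1 * t 7 * u 5 + t 1 * t 8 * u 4 + t 2 * t 5 * t 7 - 2 * t 2 * t 7 * u 4 - t 2 * t 8 * u 2 + t 3 * t 7 * u 3 + t 3 * t 8 * u 1 - t 4 * t 7 * u 1 + t 4 * t 8 * u 0 + t 5 * u 1 * u 5 - t 5 * t 7 * u 0 - t 6 * u 0 * u 5 + 3 * t 7 * u 0 * u 4 - 2 * t 8 * u 0 * u 3 := by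
  linear_combination (- t 8) * h.r1236 + (- t 8) * h.r1245 + (t 7) * h.r1246 + (- t 7) * h.r1345 + (u 5) * h.r2345 + (- u 1) * h.r2456 + (u 0) * h.r3456

theorem TU.tab2_13 (h : TU t u) :
    u 2 * u 0 * u 3 * u 5 =
    - 2 * t 0 * t 1 * t 7 * t 8 + t 0 * t 2 * t 6 * t 8 - t 0 * t 2 * t 8 * u 5 + t 0 * t 3 * t 8 * u 4 - t 0 * t 4 * t 7 * u 4 - t 0 * t 4 * t 8 * u 3 + t 0 * t 5 * t 5 * u 5 - t 0 * t 5 * t 7 * u 2 + 2 * t 0 * t 5 * t 7 * u 3 + t 0 * t 5 * t 8 * u 1 - t 0 * t 6 * u 3 * u 5 - 3 * t 0 * t 6 * t 7 * u 1 - t 0 * t 6 * t 8 * u 0 + 3 * t 0 * t 7 * u 1 * u 5 + 2 * t 0 * t 7 * t 7 * u 0 + 2 * t 0 * t 8 * u 1 * u 4 + 2 * t 1 * t 1 * t 8 * u 5 - 3 * t 1 * t 2 * t 8 * u 4 + t 1 * t 3 * t 5 * t 7 - t 1 * t 3 * t 8 * u 2 + 2 * t 1 * t 3 * t 8 * u 3 - t 1 * t 4 * t 5 * u 5 + t 1 * t 4 * t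 7 * u 2 - t 1 * t 4 * t 8 * u 1 + t 1 * t 5 * u 3 * u 5 + t 1 * t 6 * u 1 * u 5 + t 1 * t 7 * u 0 * u 5 - 3 * t 1 * t 7 * u 1 * u 4 + 3 * t 1 * t 8 * u 0 * u 4 - t 2 * t 6 * u 0 * u 5 + t 2 * t 7 * u 0 * u 4 - t 2 * t 8 * u 0 * u 3 + t 3 * t 3 * t 8 * u 0 - t 3 * t 4 * t 7 * u 0 + t 3 * t 5 * u 0 * u 5 + t 3 * t 7 * u 0 * u 3 := by
  linear_combination (- t 3 * t 8 - u 4 * u 5) * h.r1235 + (t 3 * t 7) * h.r1236 + (t 3 * t 7 + t 4 * u 5 - u 2 * u 5) * h.r1245 + (- 2 * t 3 * u 5 + u 1 * u 5) * h.r1246 + (t 2 * u 5 - u 0 * u 5) * h.r1256 + (- 2 * t 1 * t 8 - u 1 * u 5) * h.r1345 + (t 0 * t 8) * h.r1346 + (t 0 * t 7) * h.r1356 + (- t 0 * u 5 + t 1 * u 4 + t 3 * u 1) * h.r1456 + (t 0 * t 8 - 2 * t 1 * t 7 + t 2 * t 6) * h.r2345 + (- 2 * t 0 * t 7 + t 1 * u 5 - t 2 * u 4) * h.r2346 + (t 2 * u 3)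 * h.r2356 + (- t 0 * t 5 - t 0 * u 4 + t 1 * t 4 - 2 * t 1 * u 3 - t 2 * t 3) * h.r2456 + (t 0 * u 3) * h.r3456

theorem TU.tab3_0 (h : TU t u) :
    u 3 =
    u 3 := by
  ring

theorem TU.tab3_1 (h : TU t u) :
    u 3 * u 0 =
    u 0 * u 3 := by
  ring

theorem TU.tab3_2 (h : TU t u) :
    u 3 * u 1 =
    u 0 * u 4 + t 1 * u 5 - t 2 * u 4 + t 3 * u 3 := by
  linear_combination (- 1) * h.r1345

theorem TU.tab3_3 (h : TU t u) :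
    u 3 * u 2 =
    - u 0 * u 5 + u 1 * u 4 := by
  linear_combination (1) * h.r2345

theorem TU.tab3_4 (h : TU t u) :
    u 3 * u 3 =
    - u 1 * u 4 + t 1 * t 7 + t 2 * u 5 - t 2 * t 6 + t 4 * u 3 + t 6 * u 0 := by
  linear_combination (- 1) * h.r1346 + (- 1) * h.r2345

theorem TU.tab3_5 (h : TU t u) :
    u 3 * u 4 =
    u 1 * u 5 + t 5 * u 3 - t 6 * u 1 + t 7 * u 0 := by
  linear_combination (- 1) * h.r2346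

theorem TU.tab3_6 (h : TU t u) :
    u 3 * u 5 =
    u 3 * u 5 := by
  ring

theorem TU.tab3_7 (h : TU t u) :
    u 3 * u 0 * u 3 =
    t 0 * u 3 * u 5 - t 0 * t 2 * t 8 + t 0 * t 3 * t 7 - t 0 * t 4 * u 5 - t 0 * t 5 * u 4 + t 0 * t 6 * u 2 + t 0 * t 6 * u 3 - t 0 * t 7 * u 1 - 2 * t 1 * u 1 * u 5 + t 1 * t 1 * t 8 + t 1 * t 3 * u 5 - t 1 * t 3 * t 6 + t 1 * t 4 * u 4 - t 1 * t 5 * u 3 + t 1 * t 6 * u 1 + t 2 * u 0 * u 5 - t 3 * u 0 * u 4 + t 4 * u 0 * u 3 := by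
  linear_combination (- u 5) * h.r1234 + (u 4) * h.r1235 + (- u 3) * h.r1236 + (- t 1) * h.r1356 + (t 0) * h.r1456 + (- u 0) * h.r2345 + (t 0) * h.r2356

theorem TU.tab3_8 (h : TU t u) :
    u 3 * u 0 * u 4 =
    t 0 * t 5 * u 5 - t 0 * t 6 * u 4 - t 0 * t 7 * u 2 + t 0 * t 7 * u 3 + t 0 * t 8 * u 1 + t 1 * u 3 * u 5 - t 1 * t 2 * t 8 + t 1 * t 3 * t 7 - t 1 * t 4 * u 5 + t 1 * t 6 * u 2 - 2 * t 1 * t 7 * u 1 + t 1 * t 8 * u 0 + t 2 * t 7 * u 0 + t 3 * u 0 * u 5 - t 3 * t 6 * u 0 + t 5 * u 0 * u 3 := by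
  linear_combination (- t 7) * h.r1234 + (t 6 - u 5) * h.r1235 + (t 1) * h.r1456 + (- u 0) * h.r2346 + (- t 0) * h.r2456

theorem TU.tab3_9 (h : TU t u) :
    u 3 * u 0 * u 5 =
    u 0 * u 3 * u 5 := by
  ring

theorem TU.tab3_10 (h : TU t u) :
    u 3 * u 1 * u 4 =
    - u 0 * u 3 * u 5 + t 0 * t 6 * u 5 - t 0 * t 6 * t 6 + t 0 * t 7 * u 4 + t 1 * t 5 * u 5 + t 1 * t 5 * t 6 - t 1 * t 6 * u 4 - 2 * t 1 * t 7 * u 2 + t 1 * t 8 * u 1 + t 2 * u 3 * u 5 - t 2 * t 2 * t 8 + t 2 * t 3 * t 7 - t 2 * t 4 * u 5 - t 2 * t 5 * u 4 + t 2 * t 6 * u 2 - t 2 * t 7 * u 1 + t 2 * t 8 * u 0 + t 3 * u 1 * u 5 + t 3 * t 5 * u 3 - t 3 * t 6 * u 1 + t 3 * t 7 * u 0 + t 4 * u 0 * u 5 - t 4 * t 6 * u 0 + t 5 * u 0 * u 4 + t 6 * u 0 * u 3 := by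
  linear_combination (- t 7) * h.r1235 + (t 6 - u 5) * h.r1236 + (t 6 - u 5) * h.r1245 + (- t 5) * h.r1345 + (t 2) * h.r1456 + (- u 1) * h.r2346 + (- t 1) * h.r2456

theorem TU.tab3_11 (h : TU t u) :
    u 3 * u 1 * u 5 =
    - t 0 * t 6 * t 7 + t 0 * t 7 * u 5 + t 0 * t 8 * u 4 + t 1 * t 5 * t 7 + t 1 * t 6 * u 5 - 2 * t 1 * t 7 * u 4 - t 1 * t 8 * u 2 + t 1 * t 8 * u 3 - t 2 * t 5 * u 5 + t 2 * t 7 * u 2 - t 2 * t 8 * u 1 + t 3 * u 3 * u 5 + t 3 * t 8 * u 0 - t 4 * t 7 * u 0 + t 5 * u 0 * u 5 + t 7 * u 0 * u 3 := by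
  linear_combination (- t 8) * h.r1235 + (t 7) * h.r1236 + (- u 5) * h.r1345 + (t 2 - u 0) * h.r2456 + (- t 1) * h.r3456

theorem TU.tab3_12 (h : TU t u) :
    u 3 * u 3 * u 5 =
    - t 0 * t 6 * t 8 + t 0 * t 7 * t 7 + t 1 * t 5 * t 8 - t 1 * t 8 * u 4 - t 2 * t 5 * t 7 + t 2 * t 7 * u 4 + t 2 * t 8 * u 2 + t 2 * t 8 * u 3 - t 3 * t 7 * u 3 - t 3 * t 8 * u 1 + t 4 * u 3 * u 5 + t 4 * t 7 * u 1 - t 4 * t 8 * u 0 - t 5 * u 1 * u 5 + t 5 * t 7 * u 0 + t 6 * u 0 * u 5 - 2 * t 7 * u 0 * u 4 + t 8 * u 0 * u 3 := by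
  linear_combination (t 8) * h.r1236 + (t 8) * h.r1245 + (- t 7) * h.r1246 + (- u 3) * h.r1456 + (- u 5) * h.r2345 + (u 1) * h.r2456 + (- u 0) * h.r3456

theorem TU.tab3_13 (h : TU t u) :
    u 3 * u 0 * u 3 * u 5 =
    t 0 * t 1 * t 7 * t 8 - t 0 * t 3 * t 8 * u 4 + t 0 * t 4 * t 7 * u 4 - t 0 * t 5 * t 5 * u 5 + t 0 * t 5 * t 7 * u 2 - t 0 * t 5 * t 7 * u 3 - t 0 * t 5 * t 8 * u 1 + t 0 * t 6 * u 3 * u 5 + 2 * t 0 * t 6 * t 7 * u 1 - 2 * t 0 * t 7 * u 1 * u 5 - t 0 * t 7 * t 7 * u 0 - t 0 * t 8 * u 1 * u 4 - t 1 * t 1 * t 8 * u 5 + 2 * t 1 * t 2 * t 8 * u 4 - t 1 * t 3 * t 5 * t 7 + t 1 * t 3 * t 8 * u 2 - t 1 * t 3 * t 8 * u 3 + t 1 * t 4 * t 5 * u 5 - t 1 * t 4 * t 7 * u 2 + t 1 * t 4 * t 8 * u 1 - t 1 * t 5 * u 3 * u 5 - t 1 * t 6 * u 1 * u 5 + 2 * t 1 * t 7 * u 1 * u 4 - 2 * t 1 * t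 8 * u 0 * u 4 + t 2 * t 6 * u 0 * u 5 - t 2 * t 7 * u 0 * u 4 + t 2 * t 8 * u 0 * u 3 - t 3 * t 3 * t 8 * u 0 + t 3 * t 4 * t 7 * u 0 - t 3 * t 5 * u 0 * u 5 - t 3 * t 7 * u 0 * u 3 + t 4 * u 0 * u 3 * u 5 := by
  linear_combination (t 3 * t 8 + u 4 * u 5) * h.r1235 + (- t 3 * t 7 - u 3 * u 5) * h.r1236 + (- t 3 * t 7 - t 4 * u 5 + u 2 * u 5) * h.r1245 + (2 * t 3 * u 5 - u 1 * u 5) * h.r1246 + (- t 2 * u 5 + u 0 * u 5) * h.r1256 + (t 1 * t 8 + u 1 * u 5) * h.r1345 + (- t 0 * t 7) * h.r1356 + (t 0 * u 5 - t 1 * u 4 - t 3 * u 1) * h.r1456 + (t 1 * t 7 - t 2 * t 6) * h.r2345 + (t 0 * t 7 - t 1 * u 5 + t 2 * u 4) * h.r2346 + (- t 2 * u 3) * h.r2356 + (t 0 * t 5 + t 0 * u 4 - t 1 * t 4 + t 1 * u 3 + t 2 * t 3) * h.r2456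

theorem TU.tab4_0 (h : TU t u) :
    u 4 =
    u 4 := by
  ring

theorem TU.tab4_1 (h : TU t u) :
    u 4 * u 0 =
    u 0 * u 4 := by
  ring

theorem TU.tab4_2 (h : TU t u) :
    u 4 * u 1 =
    u 1 * u 4 := by
  ring

theorem TU.tab4_3 (h : TU t u) :
    u 4 * u 2 =
    - 2 * u 1 * u 5 + t 1 * t 8 + t 3 * u 5 - t 3 * t 6 + t 4 * u 4 - t 5 * u 3 + 2 * t 6 * u 1 - t 7 * u 0 := by
  linear_combination (- 1) * h.r1356 + (1) * h.r2346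

theorem TU.tab4_4 (h : TU t u) :
    u 4 * u 3 =
    u 1 * u 5 + t 5 * u 3 - t 6 * u 1 + t 7 * u 0 := by
  linear_combination (- 1) * h.r2346

theorem TU.tab4_5 (h : TU t u) :
    u 4 * u 4 =
    - u 3 * u 5 + t 2 * t 8 - t 3 * t 7 + t 4 * u 5 + t 5 * u 4 - t 6 * u 2 + t 7 * u 1 := by
  linear_combination (- 1) * h.r1456 + (- 1) * h.r2356

theorem TU.tab4_6 (h : TU t u) :
    u 4 * u 5 =
    t 5 * u 5 - t 7 * u 2 + t 8 * u 1 := by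
  linear_combination (- 1) * h.r2456

theorem TU.tab4_7 (h : TU t u) :
    u 4 * u 0 * u 3 =
    t 0 * t 5 * u 5 - t 0 * t 6 * u 4 - t 0 * t 7 * u 2 + t 0 * t 7 * u 3 + t 0 * t 8 * u 1 + t 1 * u 3 * u 5 - t 1 * t 2 * t 8 + t 1 * t 3 * t 7 - t 1 * t 4 * u 5 + t 1 * t 6 * u 2 - 2 * t 1 * t 7 * u 1 + t 1 * t 8 * u 0 + t 2 * t 7 * u 0 + t 3 * u 0 * u 5 - t 3 * t 6 * u 0 + t 5 * u 0 * u 3 := by
  linear_combination (- t 7) * h.r1234 + (t 6 - u 5) * h.r1235 + (t 1) * h.r1456 + (- u 0) * h.r2346 + (- t 0) * h.r2456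

theorem TU.tab4_8 (h : TU t u) :
    u 4 * u 0 * u 4 =
    - u 0 * u 3 * u 5 + t 0 * t 6 * u 5 - t 0 * t 6 * t 6 + t 0 * t 7 * u 4 + t 1 * t 5 * t 6 - t 1 * t 6 * u 4 - t 1 * t 7 * u 2 + t 2 * t 8 * u 0 + t 4 * u 0 * u 5 - t 4 * t 6 * u 0 + t 5 * u 0 * u 4 + t 6 * u 0 * u 3 := by
  linear_combination (- t 7) * h.r1235 + (t 6) * h.r1236 + (- u 0) * h.r1456 + (- u 0) * h.r2356

theorem TU.tab4_9 (h : TU t u) :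
    u 4 * u 0 * u 5 =
    - t 0 * t 6 * t 7 + t 0 * t 7 * u 5 + t 0 * t 8 * u 4 + t 1 * t 5 * t 7 - t 1 * t 7 * u 4 - t 1 * t 8 * u 2 + t 3 * t 8 * u 0 - t 4 * t 7 * u 0 + t 5 * u 0 * u 5 + t 7 * u 0 * u 3 := by
  linear_combination (- t 8) * h.r1235 + (t 7) * h.r1236 + (- u 0) * h.r2456

theorem TU.tab4_10 (h : TU t u) :
    u 4 * u 1 * u 4 =
    t 0 * t 6 * t 7 - t 0 * t 7 * u 5 - t 0 * t 8 * u 4 - 2 * t 1 * t 5 * t 7 + 3 * t 1 * t 7 * u 4 + t 1 * t 8 * u 2 - t 1 * t 8 * u 3 + t 2 * t 5 * u 5 + t 2 * t 5 * t 6 - 2 * t 2 * t 6 * u 4 - 2 * t 2 * t 7 * u 2 + 2 * t 2 * t 8 * u 1 - t 3 * u 3 * u 5 + t 3 * t 6 * u 3 - t 3 * t 8 * u 0 + t 4 * u 1 * u 5 - t 4 * t 6 * u 1 + 2 * t 4 * t 7 * u 0 - t 5 * u 0 * u 5 + t 5 * u 1 * u 4 - t 5 * t 6 * u 0 + 2 * t 6 * u 0 * u 4 - 2 * t 7 * u 0 * u 3 := by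
  linear_combination (t 8) * h.r1235 + (- 2 * t 7) * h.r1236 + (t 6 - u 5) * h.r1246 + (- u 4) * h.r1346 + (u 3) * h.r1356 + (- u 1) * h.r2356 + (- 2 * t 2 + 2 * u 0) * h.r2456

theorem TU.tab4_11 (h : TU t u) :
    u 4 * u 1 * u 5 =
    t 0 * t 6 * t 8 - t 0 * t 7 * t 7 - t 1 * t 5 * t 8 + t 1 * t 7 * u 5 + t 1 * t 8 * u 4 + t 2 * t 5 * t 7 - 2 * t 2 * t 7 * u 4 - t 2 * t 8 * u 2 + t 3 * t 7 * u 3 + t 3 * t 8 * u 1 - t 4 * t 7 * u 1 + t 4 * t 8 * u 0 + t 5 * u 1 * u 5 - t 5 * t 7 * u 0 + 2 * t 7 * u 0 * u 4 - t 8 * u 0 * u 3 := by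
  linear_combination (- t 8) * h.r1236 + (- t 8) * h.r1245 + (t 7) * h.r1246 + (- t 7) * h.r1345 + (- u 1) * h.r2456

theorem TU.tab4_12 (h : TU t u) :
    u 4 * u 3 * u 5 =
    t 1 * t 8 * u 5 - t 2 * t 8 * u 4 + t 3 * t 8 * u 3 + t 5 * u 3 * u 5 + t 7 * u 0 * u 5 - t 7 * u 1 * u 4 + t 8 * u 0 * u 4 := by
  linear_combination (- t 8) * h.r1345 + (- u 5) * h.r2346 + (- u 1) * h.r3456

theorem TU.tab4_13 (h : TU t u) :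
    u 4 * u 0 * u 3 * u 5 =
    - t 0 * t 2 * t 7 * t 8 + t 0 * t 3 * t 7 * t 7 - t 0 * t 4 * t 7 * u 5 - t 0 * t 5 * t 7 * u 4 + t 0 * t 5 * t 8 * u 3 + t 0 * t 6 * t 7 * u 2 - t 0 * t 6 * t 8 * u 1 + 2 * t 0 * t 7 * u 3 * u 5 - t 0 * t 7 * t 7 * u 1 + t 0 * t 7 * t 8 * u 0 + t 0 * t 8 * u 1 * u 5 + t 1 * t 1 * t 7 * t 8 - t 1 * t 3 * t 6 * t 7 + t 1 * t 3 * t 7 * u 5 + t 1 * t 4 * t 7 * u 4 - t 1 * t 5 * t 7 * u 3 + 2 * t 1 * t 6 * t 7 * u 1 - 3 * t 1 * t 7 * u 1 * u 5 - t 1 * t 7 * t 7 * u 0 + t 1 * t 8 * u 0 * u 5 - t 1 * t 8 * u 1 * u 4 + t 2 * t 7 * u 0 * u 5 - t 3 * t 7 * u 0 * u 4 + t 3 * t 8 * u 0 * u 3 + t 5 * u 0 * u 3 * u 5 := by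
  linear_combination (u 4 * u 5) * h.r1236 + (- u 3 * u 5) * h.r1246 + (t 7 * u 1) * h.r1345 + (- t 1 * t 7 - u 0 * u 5) * h.r1356 + (t 0 * t 7 + u 1 * u 3) * h.r1456 + (- t 2 * t 7) * h.r2345 + (- t 0 * t 8 + t 1 * t 7) * h.r2346 + (t 0 * t 7) * h.r2356 + (t 1 * u 4 - t 2 * u 3) * h.r2456 + (- t 0 * u 4 - t 3 * u 0 + u 0 * u 1) * h.r3456

theorem TU.tab5_0 (h : TU t u) :
    u 5 =
    u 5 := by
  ring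

theorem TU.tab5_1 (h : TU t u) :
    u 5 * u 0 =
    u 0 * u 5 := by
  ring

theorem TU.tab5_2 (h : TU t u) :
    u 5 * u 1 =
    u 1 * u 5 := by
  ring

theorem TU.tab5_3 (h : TU t u) :
    u 5 * u 2 =
    - u 3 * u 5 + t 2 * t 8 - t 3 * t 7 + t 4 * u 5 + t 7 * u 1 - t 8 * u 0 := by
  linear_combination (- 1) * h.r1456

theorem TU.tab5_4 (h : TU t u) :
    u 5 * u 3 =
    u 3 * u 5 := by
  ring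

theorem TU.tab5_5 (h : TU t u) :
    u 5 * u 4 =
    t 5 * u 5 - t 7 * u 2 + t 8 * u 1 := by
  linear_combination (- 1) * h.r2456

theorem TU.tab5_6 (h : TU t u) :
    u 5 * u 5 =
    t 6 * u 5 - t 7 * u 4 + t 8 * u 3 := by
  linear_combination (- 1) * h.r3456

theorem TU.tab5_7 (h : TU t u) :
    u 5 * u 0 * u 3 =
    u 0 * u 3 * u 5 := by
  ring

theorem TU.tab5_8 (h : TU t u) :
    u 5 * u 0 * u 4 =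
    - t 0 * t 6 * t 7 + t 0 * t 7 * u 5 + t 0 * t 8 * u 4 + t 1 * t 5 * t 7 - t 1 * t 7 * u 4 - t 1 * t 8 * u 2 + t 3 * t 8 * u 0 - t 4 * t 7 * u 0 + t 5 * u 0 * u 5 + t 7 * u 0 * u 3 := by
  linear_combination (- t 8) * h.r1235 + (t 7) * h.r1236 + (- u 0) * h.r2456

theorem TU.tab5_9 (h : TU t u) :
    u 5 * u 0 * u 5 =
    t 6 * u 0 * u 5 - t 7 * u 0 * u 4 + t 8 * u 0 * u 3 := by
  linear_combination (- u 0) * h.r3456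

theorem TU.tab5_10 (h : TU t u) :
    u 5 * u 1 * u 4 =
    t 0 * t 6 * t 8 - t 0 * t 7 * t 7 - t 1 * t 5 * t 8 + t 1 * t 7 * u 5 + t 1 * t 8 * u 4 + t 2 * t 5 * t 7 - 2 * t 2 * t 7 * u 4 - t 2 * t 8 * u 2 + t 3 * t 7 * u 3 + t 3 * t 8 * u 1 - t 4 * t 7 * u 1 + t 4 * t 8 * u 0 + t 5 * u 1 * u 5 - t 5 * t 7 * u 0 + 2 * t 7 * u 0 * u 4 - t 8 * u 0 * u 3 := by
  linear_combination (- t 8) * h.r1236 + (- t 8) * h.r1245 + (t 7) * h.r1246 + (- t 7) * h.r1345 + (- u 1) * h.r2456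

theorem TU.tab5_11 (h : TU t u) :
    u 5 * u 1 * u 5 =
    t 1 * t 8 * u 5 - t 2 * t 8 * u 4 + t 3 * t 8 * u 3 + t 6 * u 1 * u 5 - t 7 * u 1 * u 4 + t 8 * u 0 * u 4 := by
  linear_combination (- t 8) * h.r1345 + (- u 1) * h.r3456

theorem TU.tab5_12 (h : TU t u) :
    u 5 * u 3 * u 5 =
    t 1 * t 7 * t 8 - t 2 * t 6 * t 8 + t 2 * t 8 * u 5 + t 4 * t 8 * u 3 - t 5 * t 7 * u 3 + t 6 * u 3 * u 5 + t 6 * t 7 * u 1 + t 6 * t 8 * u 0 - t 7 * u 1 * u 5 - t 7 * t 7 * u 0 - t 8 * u 1 * u 4 := by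
  linear_combination (- t 8) * h.r1346 + (- t 8) * h.r2345 + (t 7) * h.r2346 + (- u 3) * h.r3456

theorem TU.tab5_13 (h : TU t u) :
    u 5 * u 0 * u 3 * u 5 =
    - t 0 * t 2 * t 8 * t 8 + t 0 * t 3 * t 7 * t 8 - t 0 * t 4 * t 8 * u 5 - t 0 * t 5 * t 7 * u 5 - t 0 * t 5 * t 8 * u 4 + t 0 * t 6 * t 7 * u 4 + t 0 * t 6 * t 8 * u 2 + t 0 * t 6 * t 8 * u 3 + t 0 * t 7 * t 7 * u 2 - t 0 * t 7 * t 7 * u 3 - 2 * t 0 * t 7 * t 8 * u 1 + t 0 * t 8 * u 3 * u 5 + t 1 * t 1 * t 8 * t 8 + t 1 * t 2 * t 7 * t 8 - t 1 * t 3 * t 6 * t 8 - t 1 * t 3 * t 7 * t 7 + t 1 * t 3 * t 8 * u 5 + t 1 * t 4 * t 7 * u 5 + t 1 * t 4 * t 8 * u 4 - t 1 * t 5 * t 8 * u 3 - t 1 * t 6 * t 7 * u 2 + t 1 * t 6 * t 8 * u 1 - t 1 * t 7 * u 3 * u 5 + 2 * t 1 * t 7 * t 7 * u 1 - t 1 * t 7 * t 8 * u 0 - 2 * t 1 * t 8 * u 1 * u 5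 - t 2 * t 7 * t 7 * u 0 + t 2 * t 8 * u 0 * u 5 + t 3 * t 6 * t 7 * u 0 - t 3 * t 7 * u 0 * u 5 - t 3 * t 8 * u 0 * u 4 + t 4 * t 8 * u 0 * u 3 - t 5 * t 7 * u 0 * u 3 + t 6 * u 0 * u 3 * u 5 := by
  linear_combination (- t 8 * u 5) * h.r1234 + (t 8 * u 4) * h.r1235 + (- t 7 * u 4 - t 8 * u 3) * h.r1236 + (t 7 * u 3) * h.r1246 + (t 7 * u 3) * h.r1345 + (- t 7 * u 1 - u 3 * u 5) * h.r1346 + (- t 1 * t 8 + t 7 * u 0) * h.r1356 + (t 0 * t 8 - t 1 * t 7 + u 3 * u 3) * h.r1456 + (- t 8 * u 0) * h.r2345 + (t 2 * t 7) * h.r2346 + (t 0 * t 8 - t 1 * t 7) * h.r2356 + (t 0 * t 7) * h.r2456 + (- t 2 * u 3) * h.r3456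

end Pool.Agent.J6H65.Hilb4
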