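import Pool.Agent.J6H65.Hilb4.Comm0
import Pool.Agent.J6H65.Hilb4.Comm1
import Pool.Agent.J6H65.Hilb4.Comm2
import Pool.Agent.J6H65.Hilb4.Table

set_option autoImplicit false
set_option linter.unusedSimpArgs false
set_option linter.unusedVariables false

namespace Pool.Agent.J6H65.Hilb4

variable {R : Type*} [CommRing R]

theorem U0_add_0 (t : Fin 9 → R) (v w : Fin 14 → R) :
    U0 t (v + w) 0 = U0 t v 0 + U0 t w 0 := by
  simp only [U0_0, Pi.add_apply]; ring

theorem U0_smul_0 (t : Fin 9 → R) (c : R) (v : Fin 14 → R) :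
    U0 t (c • v) 0 = c * U0 t v 0 := by
  simp only [U0_0, Pi.smul_apply, smul_eq_mul]; ring

theorem U0_map_0 {S : Type*} [CommRing S] (f : R →+* S) (t : Fin 9 → R) (v : Fin 14 → R) :
    U0 (fun i => f (t i)) (fun i => f (v i)) 0 = f (U0 t v 0) := by
  simp only [U0_0, map_add, map_sub, map_mul, map_neg, map_zero, map_ofNat]

theorem U0_add_1 (t : Fin 9 → R) (v w : Fin 14 → R) :
    U0 t (v + w) 1 = U0 t v 1 + U0 t w 1 := by
  simp only [U0_1, Pi.add_apply]; ring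

theorem U0_smul_1 (t : Fin 9 → R) (c : R) (v : Fin 14 → R) :
    U0 t (c • v) 1 = c * U0 t v 1 := by
  simp only [U0_1, Pi.smul_apply, smul_eq_mul]; ring

theorem U0_map_1 {S : Type*} [CommRing S] (f : R →+* S) (t : Fin 9 → R) (v : Fin 14 → R) :
    U0 (fun i => f (t i)) (fun i => f (v i)) 1 = f (U0 t v 1) := by
  simp only [U0_1, map_add, map_sub, map_mul, map_neg, map_zero, map_ofNat]

theorem U0_add_2 (t : Fin 9 → R) (v w : Fin 14 → R) :
    U0 t (v + w) 2 = U0 t v 2 + U0 t w 2 := by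
  simp only [U0_2, Pi.add_apply]; ring

theorem U0_smul_2 (t : Fin 9 → R) (c : R) (v : Fin 14 → R) :
    U0 t (c • v) 2 = c * U0 t v 2 := by
  simp only [U0_2, Pi.smul_apply, smul_eq_mul]; ring

theorem U0_map_2 {S : Type*} [CommRing S] (f : R →+* S) (t : Fin 9 → R) (v : Fin 14 → R) :
    U0 (fun i => f (t i)) (fun i => f (v i)) 2 = f (U0 t v 2) := by
  simp only [U0_2, map_add, map_sub, map_mul, map_neg, map_zero, map_ofNat]

theorem U0_add_3 (t : Fin 9 → R) (v w : Fin 14 → R) :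
    U0 t (v + w) 3 = U0 t v 3 + U0 t w 3 := by
  simp only [U0_3, Pi.add_apply]; ring

theorem U0_smul_3 (t : Fin 9 → R) (c : R) (v : Fin 14 → R) :
    U0 t (c • v) 3 = c * U0 t v 3 := by
  simp only [U0_3, Pi.smul_apply, smul_eq_mul]; ring

theorem U0_map_3 {S : Type*} [CommRing S] (f : R →+* S) (t : Fin 9 → R) (v : Fin 14 → R) :
    U0 (fun i => f (t i)) (fun i => f (v i)) 3 = f (U0 t v 3) := by
  simp only [U0_3, map_add, map_sub, map_mul, map_neg, map_zero, map_ofNat]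

theorem U0_add_4 (t : Fin 9 → R) (v w : Fin 14 → R) :
    U0 t (v + w) 4 = U0 t v 4 + U0 t w 4 := by
  simp only [U0_4, Pi.add_apply]; ring

theorem U0_smul_4 (t : Fin 9 → R) (c : R) (v : Fin 14 → R) :
    U0 t (c • v) 4 = c * U0 t v 4 := by
  simp only [U0_4, Pi.smul_apply, smul_eq_mul]; ring

theorem U0_map_4 {S : Type*} [CommRing S] (f : R →+* S) (t : Fin 9 → R) (v : Fin 14 → R) :
    U0 (fun i => f (t i)) (fun i => f (v i)) 4 = f (U0 t v 4) := by
  simp only [U0_4, map_add, map_sub, map_mul, map_neg, map_zero, map_ofNat]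

theorem U0_add_5 (t : Fin 9 → R) (v w : Fin 14 → R) :
    U0 t (v + w) 5 = U0 t v 5 + U0 t w 5 := by
  simp only [U0_5, Pi.add_apply]; ring

theorem U0_smul_5 (t : Fin 9 → R) (c : R) (v : Fin 14 → R) :
    U0 t (c • v) 5 = c * U0 t v 5 := by
  simp only [U0_5, Pi.smul_apply, smul_eq_mul]; ring

theorem U0_map_5 {S : Type*} [CommRing S] (f : R →+* S) (t : Fin 9 → R) (v : Fin 14 → R) :
    U0 (fun i => f (t i)) (fun i => f (v i)) 5 = f (U0 t v 5) := by
  simp only [U0_5, map_add, map_sub, map_mul, map_neg, map_zero, map_ofNat]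

theorem U0_add_6 (t : Fin 9 → R) (v w : Fin 14 → R) :
    U0 t (v + w) 6 = U0 t v 6 + U0 t w 6 := by
  simp only [U0_6, Pi.add_apply]; ring

theorem U0_smul_6 (t : Fin 9 → R) (c : R) (v : Fin 14 → R) :
    U0 t (c • v) 6 = c * U0 t v 6 := by
  simp only [U0_6, Pi.smul_apply, smul_eq_mul]; ring

theorem U0_map_6 {S : Type*} [CommRing S] (f : R →+* S) (t : Fin 9 → R) (v : Fin 14 → R) :
    U0 (fun i => f (t i)) (fun i => f (v i)) 6 = f (U0 t v 6) := by
  simp only [U0_6, map_add, map_sub, map_mul, map_neg, map_zero, map_ofNat]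

theorem U0_add_7 (t : Fin 9 → R) (v w : Fin 14 → R) :
    U0 t (v + w) 7 = U0 t v 7 + U0 t w 7 := by
  simp only [U0_7, Pi.add_apply]; ring

theorem U0_smul_7 (t : Fin 9 → R) (c : R) (v : Fin 14 → R) :
    U0 t (c • v) 7 = c * U0 t v 7 := by
  simp only [U0_7, Pi.smul_apply, smul_eq_mul]; ring

theorem U0_map_7 {S : Type*} [CommRing S] (f : R →+* S) (t : Fin 9 → R) (v : Fin 14 → R) :
    U0 (fun i => f (t i)) (fun i => f (v i)) 7 = f (U0 t v 7) := by
  simp only [U0_7, map_add, map_sub, map_mul, map_neg, map_zero, map_ofNat]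

theorem U0_add_8 (t : Fin 9 → R) (v w : Fin 14 → R) :
    U0 t (v + w) 8 = U0 t v 8 + U0 t w 8 := by
  simp only [U0_8, Pi.add_apply]; ring

theorem U0_smul_8 (t : Fin 9 → R) (c : R) (v : Fin 14 → R) :
    U0 t (c • v) 8 = c * U0 t v 8 := by
  simp only [U0_8, Pi.smul_apply, smul_eq_mul]; ring

theorem U0_map_8 {S : Type*} [CommRing S] (f : R →+* S) (t : Fin 9 → R) (v : Fin 14 → R) :
    U0 (fun i => f (t i)) (fun i => f (v i)) 8 = f (U0 t v 8) := by
  simp only [U0_8, map_add, map_sub, map_mul, map_neg, map_zero, map_ofNat]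

theorem U0_add_9 (t : Fin 9 → R) (v w : Fin 14 → R) :
    U0 t (v + w) 9 = U0 t v 9 + U0 t w 9 := by
  simp only [U0_9, Pi.add_apply]; ring

theorem U0_smul_9 (t : Fin 9 → R) (c : R) (v : Fin 14 → R) :
    U0 t (c • v) 9 = c * U0 t v 9 := by
  simp only [U0_9, Pi.smul_apply, smul_eq_mul]; ring

theorem U0_map_9 {S : Type*} [CommRing S] (f : R →+* S) (t : Fin 9 → R) (v : Fin 14 → R) :
    U0 (fun i => f (t i)) (fun i => f (v i)) 9 = f (U0 t v 9) := by
  simp only [U0_9, map_add, map_sub, map_mul, map_neg, map_zero, map_ofNat]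

theorem U0_add_10 (t : Fin 9 → R) (v w : Fin 14 → R) :
    U0 t (v + w) 10 = U0 t v 10 + U0 t w 10 := by
  simp only [U0_10, Pi.add_apply]; ring

theorem U0_smul_10 (t : Fin 9 → R) (c : R) (v : Fin 14 → R) :
    U0 t (c • v) 10 = c * U0 t v 10 := by
  simp only [U0_10, Pi.smul_apply, smul_eq_mul]; ring

theorem U0_map_10 {S : Type*} [CommRing S] (f : R →+* S) (t : Fin 9 → R) (v : Fin 14 → R) :
    U0 (fun i => f (t i)) (fun i => f (v i)) 10 = f (U0 t v 10) := by
  simp only [U0_10, map_add, map_sub, map_mul, map_neg, map_zero, map_ofNat]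

theorem U0_add_11 (t : Fin 9 → R) (v w : Fin 14 → R) :
    U0 t (v + w) 11 = U0 t v 11 + U0 t w 11 := by
  simp only [U0_11, Pi.add_apply]; ring

theorem U0_smul_11 (t : Fin 9 → R) (c : R) (v : Fin 14 → R) :
    U0 t (c • v) 11 = c * U0 t v 11 := by
  simp only [U0_11, Pi.smul_apply, smul_eq_mul]; ring

theorem U0_map_11 {S : Type*} [CommRing S] (f : R →+* S) (t : Fin 9 → R) (v : Fin 14 → R) :
    U0 (fun i => f (t i)) (fun i => f (v i)) 11 = f (U0 t v 11) := by
  simp only [U0_11, map_add, map_sub, map_mul, map_neg, map_zero, map_ofNat]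

theorem U0_add_12 (t : Fin 9 → R) (v w : Fin 14 → R) :
    U0 t (v + w) 12 = U0 t v 12 + U0 t w 12 := by
  simp only [U0_12, Pi.add_apply]; ring

theorem U0_smul_12 (t : Fin 9 → R) (c : R) (v : Fin 14 → R) :
    U0 t (c • v) 12 = c * U0 t v 12 := by
  simp only [U0_12, Pi.smul_apply, smul_eq_mul]; ring

theorem U0_map_12 {S : Type*} [CommRing S] (f : R →+* S) (t : Fin 9 → R) (v : Fin 14 → R) :
    U0 (fun i => f (t i)) (fun i => f (v i)) 12 = f (U0 t v 12) := by
  simp only [U0_12, map_add, map_sub, map_mul, map_neg, map_zero, map_ofNat]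

theorem U0_add_13 (t : Fin 9 → R) (v w : Fin 14 → R) :
    U0 t (v + w) 13 = U0 t v 13 + U0 t w 13 := by
  simp only [U0_13, Pi.add_apply]; ring

theorem U0_smul_13 (t : Fin 9 → R) (c : R) (v : Fin 14 → R) :
    U0 t (c • v) 13 = c * U0 t v 13 := by
  simp only [U0_13, Pi.smul_apply, smul_eq_mul]; ring

theorem U0_map_13 {S : Type*} [CommRing S] (f : R →+* S) (t : Fin 9 → R) (v : Fin 14 → R) :
    U0 (fun i => f (t i)) (fun i => f (v i)) 13 = f (U0 t v 13) := by
  simp only [U0_13, map_add, map_sub, map_mul, map_neg, map_zero, map_ofNat]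

/-- The operator `U0` as a linear map. -/
def UL0 (t : Fin 9 → R) : (Fin 14 → R) →ₗ[R] (Fin 14 → R) where
  toFun := U0 t
  map_add' v w := by
    refine funext fun i => ?_
    fin_cases i
    exacts [U0_add_0 t v w, U0_add_1 t v w, U0_add_2 t v w, U0_add_3 t v w, U0_add_4 t v w, U0_add_5 t v w, U0_add_6 t v w, U0_add_7 t v w, U0_add_8 t v w, U0_add_9 t v w, U0_add_10 t v w, U0_add_11 t v w, U0_add_12 t v w, U0_add_13 t v w]
  map_smul' c v := by
    refine funext fun i => ?_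
    fin_cases i
    exacts [U0_smul_0 t c v, U0_smul_1 t c v, U0_smul_2 t c v, U0_smul_3 t c v, U0_smul_4 t c v, U0_smul_5 t c v, U0_smul_6 t c v, U0_smul_7 t c v, U0_smul_8 t c v, U0_smul_9 t c v, U0_smul_10 t c v, U0_smul_11 t c v, U0_smul_12 t c v, U0_smul_13 t c v]

theorem U0_map {S : Type*} [CommRing S] (f : R →+* S) (t : Fin 9 → R) (v : Fin 14 → R) :
    U0 (fun i => f (t i)) (fun i => f (v i)) = fun i => f (U0 t v i) := by
  refine funext fun i => ?_
  fin_cases i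
  exacts [U0_map_0 f t v, U0_map_1 f t v, U0_map_2 f t v, U0_map_3 f t v, U0_map_4 f t v, U0_map_5 f t v, U0_map_6 f t v, U0_map_7 f t v, U0_map_8 f t v, U0_map_9 f t v, U0_map_10 f t v, U0_map_11 f t v, U0_map_12 f t v, U0_map_13 f t v]

theorem U1_add_0 (t : Fin 9 → R) (v w : Fin 14 → R) :
    U1 t (v + w) 0 = U1 t v 0 + U1 t w 0 := by
  simp only [U1_0, Pi.add_apply]; ring

theorem U1_smul_0 (t : Fin 9 → R) (c : R) (v : Fin 14 → R) :
    U1 t (c • v) 0 = c * U1 t v 0 := by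
  simp only [U1_0, Pi.smul_apply, smul_eq_mul]; ring

theorem U1_map_0 {S : Type*} [CommRing S] (f : R →+* S) (t : Fin 9 → R) (v : Fin 14 → R) :
    U1 (fun i => f (t i)) (fun i => f (v i)) 0 = f (U1 t v 0) := by
  simp only [U1_0, map_add, map_sub, map_mul, map_neg, map_zero, map_ofNat]

theorem U1_add_1 (t : Fin 9 → R) (v w : Fin 14 → R) :
    U1 t (v + w) 1 = U1 t v 1 + U1 t w 1 := by
  simp only [U1_1, Pi.add_apply]; ring

theorem U1_smul_1 (t : Fin 9 → R) (c : R) (v : Fin 14 → R) :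
    U1 t (c • v) 1 = c * U1 t v 1 := by
  simp only [U1_1, Pi.smul_apply, smul_eq_mul]; ring

theorem U1_map_1 {S : Type*} [CommRing S] (f : R →+* S) (t : Fin 9 → R) (v : Fin 14 → R) :
    U1 (fun i => f (t i)) (fun i => f (v i)) 1 = f (U1 t v 1) := by
  simp only [U1_1, map_add, map_sub, map_mul, map_neg, map_zero, map_ofNat]

theorem U1_add_2 (t : Fin 9 → R) (v w : Fin 14 → R) :
    U1 t (v + w) 2 = U1 t v 2 + U1 t w 2 := by
  simp only [U1_2, Pi.add_apply]; ring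

theorem U1_smul_2 (t : Fin 9 → R) (c : R) (v : Fin 14 → R) :
    U1 t (c • v) 2 = c * U1 t v 2 := by
  simp only [U1_2, Pi.smul_apply, smul_eq_mul]; ring

theorem U1_map_2 {S : Type*} [CommRing S] (f : R →+* S) (t : Fin 9 → R) (v : Fin 14 → R) :
    U1 (fun i => f (t i)) (fun i => f (v i)) 2 = f (U1 t v 2) := by
  simp only [U1_2, map_add, map_sub, map_mul, map_neg, map_zero, map_ofNat]

theorem U1_add_3 (t : Fin 9 → R) (v w : Fin 14 → R) :
    U1 t (v + w) 3 = U1 t v 3 + U1 t w 3 := by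
  simp only [U1_3, Pi.add_apply]; ring

theorem U1_smul_3 (t : Fin 9 → R) (c : R) (v : Fin 14 → R) :
    U1 t (c • v) 3 = c * U1 t v 3 := by
  simp only [U1_3, Pi.smul_apply, smul_eq_mul]; ring

theorem U1_map_3 {S : Type*} [CommRing S] (f : R →+* S) (t : Fin 9 → R) (v : Fin 14 → R) :
    U1 (fun i => f (t i)) (fun i => f (v i)) 3 = f (U1 t v 3) := by
  simp only [U1_3, map_add, map_sub, map_mul, map_neg, map_zero, map_ofNat]

theorem U1_add_4 (t : Fin 9 → R) (v w : Fin 14 → R) :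
    U1 t (v + w) 4 = U1 t v 4 + U1 t w 4 := by
  simp only [U1_4, Pi.add_apply]; ring

theorem U1_smul_4 (t : Fin 9 → R) (c : R) (v : Fin 14 → R) :
    U1 t (c • v) 4 = c * U1 t v 4 := by
  simp only [U1_4, Pi.smul_apply, smul_eq_mul]; ring

theorem U1_map_4 {S : Type*} [CommRing S] (f : R →+* S) (t : Fin 9 → R) (v : Fin 14 → R) :
    U1 (fun i => f (t i)) (fun i => f (v i)) 4 = f (U1 t v 4) := by
  simp only [U1_4, map_add, map_sub, map_mul, map_neg, map_zero, map_ofNat]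

theorem U1_add_5 (t : Fin 9 → R) (v w : Fin 14 → R) :
    U1 t (v + w) 5 = U1 t v 5 + U1 t w 5 := by
  simp only [U1_5, Pi.add_apply]; ring

theorem U1_smul_5 (t : Fin 9 → R) (c : R) (v : Fin 14 → R) :
    U1 t (c • v) 5 = c * U1 t v 5 := by
  simp only [U1_5, Pi.smul_apply, smul_eq_mul]; ring

theorem U1_map_5 {S : Type*} [CommRing S] (f : R →+* S) (t : Fin 9 → R) (v : Fin 14 → R) :
    U1 (fun i => f (t i)) (fun i => f (v i)) 5 = f (U1 t v 5) := by
  simp only [U1_5, map_add, map_sub, map_mul, map_neg, map_zero, map_ofNat]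

theorem U1_add_6 (t : Fin 9 → R) (v w : Fin 14 → R) :
    U1 t (v + w) 6 = U1 t v 6 + U1 t w 6 := by
  simp only [U1_6, Pi.add_apply]; ring

theorem U1_smul_6 (t : Fin 9 → R) (c : R) (v : Fin 14 → R) :
    U1 t (c • v) 6 = c * U1 t v 6 := by
  simp only [U1_6, Pi.smul_apply, smul_eq_mul]; ring

theorem U1_map_6 {S : Type*} [CommRing S] (f : R →+* S) (t : Fin 9 → R) (v : Fin 14 → R) :
    U1 (fun i => f (t i)) (fun i => f (v i)) 6 = f (U1 t v 6) := by
  simp only [U1_6, map_add, map_sub, map_mul, map_neg, map_zero, map_ofNat]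

theorem U1_add_7 (t : Fin 9 → R) (v w : Fin 14 → R) :
    U1 t (v + w) 7 = U1 t v 7 + U1 t w 7 := by
  simp only [U1_7, Pi.add_apply]; ring

theorem U1_smul_7 (t : Fin 9 → R) (c : R) (v : Fin 14 → R) :
    U1 t (c • v) 7 = c * U1 t v 7 := by
  simp only [U1_7, Pi.smul_apply, smul_eq_mul]; ring

theorem U1_map_7 {S : Type*} [CommRing S] (f : R →+* S) (t : Fin 9 → R) (v : Fin 14 → R) :
    U1 (fun i => f (t i)) (fun i => f (v i)) 7 = f (U1 t v 7) := by
  simp only [U1_7, map_add, map_sub, map_mul, map_neg, map_zero, map_ofNat]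

theorem U1_add_8 (t : Fin 9 → R) (v w : Fin 14 → R) :
    U1 t (v + w) 8 = U1 t v 8 + U1 t w 8 := by
  simp only [U1_8, Pi.add_apply]; ring

theorem U1_smul_8 (t : Fin 9 → R) (c : R) (v : Fin 14 → R) :
    U1 t (c • v) 8 = c * U1 t v 8 := by
  simp only [U1_8, Pi.smul_apply, smul_eq_mul]; ring

theorem U1_map_8 {S : Type*} [CommRing S] (f : R →+* S) (t : Fin 9 → R) (v : Fin 14 → R) :
    U1 (fun i => f (t i)) (fun i => f (v i)) 8 = f (U1 t v 8) := by
  simp only [U1_8, map_add, map_sub, map_mul, map_neg, map_zero, map_ofNat]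

theorem U1_add_9 (t : Fin 9 → R) (v w : Fin 14 → R) :
    U1 t (v + w) 9 = U1 t v 9 + U1 t w 9 := by
  simp only [U1_9, Pi.add_apply]; ring

theorem U1_smul_9 (t : Fin 9 → R) (c : R) (v : Fin 14 → R) :
    U1 t (c • v) 9 = c * U1 t v 9 := by
  simp only [U1_9, Pi.smul_apply, smul_eq_mul]; ring

theorem U1_map_9 {S : Type*} [CommRing S] (f : R →+* S) (t : Fin 9 → R) (v : Fin 14 → R) :
    U1 (fun i => f (t i)) (fun i => f (v i)) 9 = f (U1 t v 9) := by
  simp only [U1_9, map_add, map_sub, map_mul, map_neg, map_zero, map_ofNat]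

theorem U1_add_10 (t : Fin 9 → R) (v w : Fin 14 → R) :
    U1 t (v + w) 10 = U1 t v 10 + U1 t w 10 := by
  simp only [U1_10, Pi.add_apply]; ring

theorem U1_smul_10 (t : Fin 9 → R) (c : R) (v : Fin 14 → R) :
    U1 t (c • v) 10 = c * U1 t v 10 := by
  simp only [U1_10, Pi.smul_apply, smul_eq_mul]; ring

theorem U1_map_10 {S : Type*} [CommRing S] (f : R →+* S) (t : Fin 9 → R) (v : Fin 14 → R) :
    U1 (fun i => f (t i)) (fun i => f (v i)) 10 = f (U1 t v 10) := by
  simp only [U1_10, map_add, map_sub, map_mul, map_neg, map_zero, map_ofNat]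

theorem U1_add_11 (t : Fin 9 → R) (v w : Fin 14 → R) :
    U1 t (v + w) 11 = U1 t v 11 + U1 t w 11 := by
  simp only [U1_11, Pi.add_apply]; ring

theorem U1_smul_11 (t : Fin 9 → R) (c : R) (v : Fin 14 → R) :
    U1 t (c • v) 11 = c * U1 t v 11 := by
  simp only [U1_11, Pi.smul_apply, smul_eq_mul]; ring

theorem U1_map_11 {S : Type*} [CommRing S] (f : R →+* S) (t : Fin 9 → R) (v : Fin 14 → R) :
    U1 (fun i => f (t i)) (fun i => f (v i)) 11 = f (U1 t v 11) := by
  simp only [U1_11, map_add, map_sub, map_mul, map_neg, map_zero, map_ofNat]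

theorem U1_add_12 (t : Fin 9 → R) (v w : Fin 14 → R) :
    U1 t (v + w) 12 = U1 t v 12 + U1 t w 12 := by
  simp only [U1_12, Pi.add_apply]; ring

theorem U1_smul_12 (t : Fin 9 → R) (c : R) (v : Fin 14 → R) :
    U1 t (c • v) 12 = c * U1 t v 12 := by
  simp only [U1_12, Pi.smul_apply, smul_eq_mul]; ring

theorem U1_map_12 {S : Type*} [CommRing S] (f : R →+* S) (t : Fin 9 → R) (v : Fin 14 → R) :
    U1 (fun i => f (t i)) (fun i => f (v i)) 12 = f (U1 t v 12) := by
  simp only [U1_12, map_add, map_sub, map_mul, map_neg, map_zero, map_ofNat]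

theorem U1_add_13 (t : Fin 9 → R) (v w : Fin 14 → R) :
    U1 t (v + w) 13 = U1 t v 13 + U1 t w 13 := by
  simp only [U1_13, Pi.add_apply]; ring

theorem U1_smul_13 (t : Fin 9 → R) (c : R) (v : Fin 14 → R) :
    U1 t (c • v) 13 = c * U1 t v 13 := by
  simp only [U1_13, Pi.smul_apply, smul_eq_mul]; ring

theorem U1_map_13 {S : Type*} [CommRing S] (f : R →+* S) (t : Fin 9 → R) (v : Fin 14 → R) :
    U1 (fun i => f (t i)) (fun i => f (v i)) 13 = f (U1 t v 13) := by
  simp only [U1_13, map_add, map_sub, map_mul, map_neg, map_zero, map_ofNat]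

/-- The operator `U1` as a linear map. -/
def UL1 (t : Fin 9 → R) : (Fin 14 → R) →ₗ[R] (Fin 14 → R) where
  toFun := U1 t
  map_add' v w := by
    refine funext fun i => ?_
    fin_cases i
    exacts [U1_add_0 t v w, U1_add_1 t v w, U1_add_2 t v w, U1_add_3 t v w, U1_add_4 t v w, U1_add_5 t v w, U1_add_6 t v w, U1_add_7 t v w, U1_add_8 t v w, U1_add_9 t v w, U1_add_10 t v w, U1_add_11 t v w, U1_add_12 t v w, U1_add_13 t v w]
  map_smul' c v := by
    refine funext fun i => ?_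
    fin_cases i
    exacts [U1_smul_0 t c v, U1_smul_1 t c v, U1_smul_2 t c v, U1_smul_3 t c v, U1_smul_4 t c v, U1_smul_5 t c v, U1_smul_6 t c v, U1_smul_7 t c v, U1_smul_8 t c v, U1_smul_9 t c v, U1_smul_10 t c v, U1_smul_11 t c v, U1_smul_12 t c v, U1_smul_13 t c v]

theorem U1_map {S : Type*} [CommRing S] (f : R →+* S) (t : Fin 9 → R) (v : Fin 14 → R) :
    U1 (fun i => f (t i)) (fun i => f (v i)) = fun i => f (U1 t v i) := by
  refine funext fun i => ?_
  fin_cases i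
  exacts [U1_map_0 f t v, U1_map_1 f t v, U1_map_2 f t v, U1_map_3 f t v, U1_map_4 f t v, U1_map_5 f t v, U1_map_6 f t v, U1_map_7 f t v, U1_map_8 f t v, U1_map_9 f t v, U1_map_10 f t v, U1_map_11 f t v, U1_map_12 f t v, U1_map_13 f t v]

theorem U2_add_0 (t : Fin 9 → R) (v w : Fin 14 → R) :
    U2 t (v + w) 0 = U2 t v 0 + U2 t w 0 := by
  simp only [U2_0, Pi.add_apply]; ring

theorem U2_smul_0 (t : Fin 9 → R) (c : R) (v : Fin 14 → R) :
    U2 t (c • v) 0 = c * U2 t v 0 := by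
  simp only [U2_0, Pi.smul_apply, smul_eq_mul]; ring

theorem U2_map_0 {S : Type*} [CommRing S] (f : R →+* S) (t : Fin 9 → R) (v : Fin 14 → R) :
    U2 (fun i => f (t i)) (fun i => f (v i)) 0 = f (U2 t v 0) := by
  simp only [U2_0, map_add, map_sub, map_mul, map_neg, map_zero, map_ofNat]

theorem U2_add_1 (t : Fin 9 → R) (v w : Fin 14 → R) :
    U2 t (v + w) 1 = U2 t v 1 + U2 t w 1 := by
  simp only [U2_1, Pi.add_apply]; ring

theorem U2_smul_1 (t : Fin 9 → R) (c : R) (v : Fin 14 → R) :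
    U2 t (c • v) 1 = c * U2 t v 1 := by
  simp only [U2_1, Pi.smul_apply, smul_eq_mul]; ring

theorem U2_map_1 {S : Type*} [CommRing S] (f : R →+* S) (t : Fin 9 → R) (v : Fin 14 → R) :
    U2 (fun i => f (t i)) (fun i => f (v i)) 1 = f (U2 t v 1) := by
  simp only [U2_1, map_add, map_sub, map_mul, map_neg, map_zero, map_ofNat]

theorem U2_add_2 (t : Fin 9 → R) (v w : Fin 14 → R) :
    U2 t (v + w) 2 = U2 t v 2 + U2 t w 2 := by
  simp only [U2_2, Pi.add_apply]; ring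

theorem U2_smul_2 (t : Fin 9 → R) (c : R) (v : Fin 14 → R) :
    U2 t (c • v) 2 = c * U2 t v 2 := by
  simp only [U2_2, Pi.smul_apply, smul_eq_mul]; ring

theorem U2_map_2 {S : Type*} [CommRing S] (f : R →+* S) (t : Fin 9 → R) (v : Fin 14 → R) :
    U2 (fun i => f (t i)) (fun i => f (v i)) 2 = f (U2 t v 2) := by
  simp only [U2_2, map_add, map_sub, map_mul, map_neg, map_zero, map_ofNat]

theorem U2_add_3 (t : Fin 9 → R) (v w : Fin 14 → R) :
    U2 t (v + w) 3 = U2 t v 3 + U2 t w 3 := by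
  simp only [U2_3, Pi.add_apply]; ring

theorem U2_smul_3 (t : Fin 9 → R) (c : R) (v : Fin 14 → R) :
    U2 t (c • v) 3 = c * U2 t v 3 := by
  simp only [U2_3, Pi.smul_apply, smul_eq_mul]; ring

theorem U2_map_3 {S : Type*} [CommRing S] (f : R →+* S) (t : Fin 9 → R) (v : Fin 14 → R) :
    U2 (fun i => f (t i)) (fun i => f (v i)) 3 = f (U2 t v 3) := by
  simp only [U2_3, map_add, map_sub, map_mul, map_neg, map_zero, map_ofNat]

theorem U2_add_4 (t : Fin 9 → R) (v w : Fin 14 → R) :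
    U2 t (v + w) 4 = U2 t v 4 + U2 t w 4 := by
  simp only [U2_4, Pi.add_apply]; ring

theorem U2_smul_4 (t : Fin 9 → R) (c : R) (v : Fin 14 → R) :
    U2 t (c • v) 4 = c * U2 t v 4 := by
  simp only [U2_4, Pi.smul_apply, smul_eq_mul]; ring

theorem U2_map_4 {S : Type*} [CommRing S] (f : R →+* S) (t : Fin 9 → R) (v : Fin 14 → R) :
    U2 (fun i => f (t i)) (fun i => f (v i)) 4 = f (U2 t v 4) := by
  simp only [U2_4, map_add, map_sub, map_mul, map_neg, map_zero, map_ofNat]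

theorem U2_add_5 (t : Fin 9 → R) (v w : Fin 14 → R) :
    U2 t (v + w) 5 = U2 t v 5 + U2 t w 5 := by
  simp only [U2_5, Pi.add_apply]; ring

theorem U2_smul_5 (t : Fin 9 → R) (c : R) (v : Fin 14 → R) :
    U2 t (c • v) 5 = c * U2 t v 5 := by
  simp only [U2_5, Pi.smul_apply, smul_eq_mul]; ring

theorem U2_map_5 {S : Type*} [CommRing S] (f : R →+* S) (t : Fin 9 → R) (v : Fin 14 → R) :
    U2 (fun i => f (t i)) (fun i => f (v i)) 5 = f (U2 t v 5) := by
  simp only [U2_5, map_add, map_sub, map_mul, map_neg, map_zero, map_ofNat]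

theorem U2_add_6 (t : Fin 9 → R) (v w : Fin 14 → R) :
    U2 t (v + w) 6 = U2 t v 6 + U2 t w 6 := by
  simp only [U2_6, Pi.add_apply]; ring

theorem U2_smul_6 (t : Fin 9 → R) (c : R) (v : Fin 14 → R) :
    U2 t (c • v) 6 = c * U2 t v 6 := by
  simp only [U2_6, Pi.smul_apply, smul_eq_mul]; ring

theorem U2_map_6 {S : Type*} [CommRing S] (f : R →+* S) (t : Fin 9 → R) (v : Fin 14 → R) :
    U2 (fun i => f (t i)) (fun i => f (v i)) 6 = f (U2 t v 6) := by
  simp only [U2_6, map_add, map_sub, map_mul, map_neg, map_zero, map_ofNat]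

theorem U2_add_7 (t : Fin 9 → R) (v w : Fin 14 → R) :
    U2 t (v + w) 7 = U2 t v 7 + U2 t w 7 := by
  simp only [U2_7, Pi.add_apply]; ring

theorem U2_smul_7 (t : Fin 9 → R) (c : R) (v : Fin 14 → R) :
    U2 t (c • v) 7 = c * U2 t v 7 := by
  simp only [U2_7, Pi.smul_apply, smul_eq_mul]; ring

theorem U2_map_7 {S : Type*} [CommRing S] (f : R →+* S) (t : Fin 9 → R) (v : Fin 14 → R) :
    U2 (fun i => f (t i)) (fun i => f (v i)) 7 = f (U2 t v 7) := by
  simp only [U2_7, map_add, map_sub, map_mul, map_neg, map_zero, map_ofNat]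

theorem U2_add_8 (t : Fin 9 → R) (v w : Fin 14 → R) :
    U2 t (v + w) 8 = U2 t v 8 + U2 t w 8 := by
  simp only [U2_8, Pi.add_apply]; ring

theorem U2_smul_8 (t : Fin 9 → R) (c : R) (v : Fin 14 → R) :
    U2 t (c • v) 8 = c * U2 t v 8 := by
  simp only [U2_8, Pi.smul_apply, smul_eq_mul]; ring

theorem U2_map_8 {S : Type*} [CommRing S] (f : R →+* S) (t : Fin 9 → R) (v : Fin 14 → R) :
    U2 (fun i => f (t i)) (fun i => f (v i)) 8 = f (U2 t v 8) := by
  simp only [U2_8, map_add, map_sub, map_mul, map_neg, map_zero, map_ofNat]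

theorem U2_add_9 (t : Fin 9 → R) (v w : Fin 14 → R) :
    U2 t (v + w) 9 = U2 t v 9 + U2 t w 9 := by
  simp only [U2_9, Pi.add_apply]; ring

theorem U2_smul_9 (t : Fin 9 → R) (c : R) (v : Fin 14 → R) :
    U2 t (c • v) 9 = c * U2 t v 9 := by
  simp only [U2_9, Pi.smul_apply, smul_eq_mul]; ring

theorem U2_map_9 {S : Type*} [CommRing S] (f : R →+* S) (t : Fin 9 → R) (v : Fin 14 → R) :
    U2 (fun i => f (t i)) (fun i => f (v i)) 9 = f (U2 t v 9) := by
  simp only [U2_9, map_add, map_sub, map_mul, map_neg, map_zero, map_ofNat]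

theorem U2_add_10 (t : Fin 9 → R) (v w : Fin 14 → R) :
    U2 t (v + w) 10 = U2 t v 10 + U2 t w 10 := by
  simp only [U2_10, Pi.add_apply]; ring

theorem U2_smul_10 (t : Fin 9 → R) (c : R) (v : Fin 14 → R) :
    U2 t (c • v) 10 = c * U2 t v 10 := by
  simp only [U2_10, Pi.smul_apply, smul_eq_mul]; ring

theorem U2_map_10 {S : Type*} [CommRing S] (f : R →+* S) (t : Fin 9 → R) (v : Fin 14 → R) :
    U2 (fun i => f (t i)) (fun i => f (v i)) 10 = f (U2 t v 10) := by
  simp only [U2_10, map_add, map_sub, map_mul, map_neg, map_zero, map_ofNat]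

theorem U2_add_11 (t : Fin 9 → R) (v w : Fin 14 → R) :
    U2 t (v + w) 11 = U2 t v 11 + U2 t w 11 := by
  simp only [U2_11, Pi.add_apply]; ring

theorem U2_smul_11 (t : Fin 9 → R) (c : R) (v : Fin 14 → R) :
    U2 t (c • v) 11 = c * U2 t v 11 := by
  simp only [U2_11, Pi.smul_apply, smul_eq_mul]; ring

theorem U2_map_11 {S : Type*} [CommRing S] (f : R →+* S) (t : Fin 9 → R) (v : Fin 14 → R) :
    U2 (fun i => f (t i)) (fun i => f (v i)) 11 = f (U2 t v 11) := by
  simp only [U2_11, map_add, map_sub, map_mul, map_neg, map_zero, map_ofNat]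

theorem U2_add_12 (t : Fin 9 → R) (v w : Fin 14 → R) :
    U2 t (v + w) 12 = U2 t v 12 + U2 t w 12 := by
  simp only [U2_12, Pi.add_apply]; ring

theorem U2_smul_12 (t : Fin 9 → R) (c : R) (v : Fin 14 → R) :
    U2 t (c • v) 12 = c * U2 t v 12 := by
  simp only [U2_12, Pi.smul_apply, smul_eq_mul]; ring

theorem U2_map_12 {S : Type*} [CommRing S] (f : R →+* S) (t : Fin 9 → R) (v : Fin 14 → R) :
    U2 (fun i => f (t i)) (fun i => f (v i)) 12 = f (U2 t v 12) := by
  simp only [U2_12, map_add, map_sub, map_mul, map_neg, map_zero, map_ofNat]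

theorem U2_add_13 (t : Fin 9 → R) (v w : Fin 14 → R) :
    U2 t (v + w) 13 = U2 t v 13 + U2 t w 13 := by
  simp only [U2_13, Pi.add_apply]; ring

theorem U2_smul_13 (t : Fin 9 → R) (c : R) (v : Fin 14 → R) :
    U2 t (c • v) 13 = c * U2 t v 13 := by
  simp only [U2_13, Pi.smul_apply, smul_eq_mul]; ring

theorem U2_map_13 {S : Type*} [CommRing S] (f : R →+* S) (t : Fin 9 → R) (v : Fin 14 → R) :
    U2 (fun i => f (t i)) (fun i => f (v i)) 13 = f (U2 t v 13) := by
  simp only [U2_13, map_add, map_sub, map_mul, map_neg, map_zero, map_ofNat]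

/-- The operator `U2` as a linear map. -/
def UL2 (t : Fin 9 → R) : (Fin 14 → R) →ₗ[R] (Fin 14 → R) where
  toFun := U2 t
  map_add' v w := by
    refine funext fun i => ?_
    fin_cases i
    exacts [U2_add_0 t v w, U2_add_1 t v w, U2_add_2 t v w, U2_add_3 t v w, U2_add_4 t v w, U2_add_5 t v w, U2_add_6 t v w, U2_add_7 t v w, U2_add_8 t v w, U2_add_9 t v w, U2_add_10 t v w, U2_add_11 t v w, U2_add_12 t v w, U2_add_13 t v w]
  map_smul' c v := by
    refine funext fun i => ?_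
    fin_cases i
    exacts [U2_smul_0 t c v, U2_smul_1 t c v, U2_smul_2 t c v, U2_smul_3 t c v, U2_smul_4 t c v, U2_smul_5 t c v, U2_smul_6 t c v, U2_smul_7 t c v, U2_smul_8 t c v, U2_smul_9 t c v, U2_smul_10 t c v, U2_smul_11 t c v, U2_smul_12 t c v, U2_smul_13 t c v]

theorem U2_map {S : Type*} [CommRing S] (f : R →+* S) (t : Fin 9 → R) (v : Fin 14 → R) :
    U2 (fun i => f (t i)) (fun i => f (v i)) = fun i => f (U2 t v i) := by
  refine funext fun i => ?_
  fin_cases i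
  exacts [U2_map_0 f t v, U2_map_1 f t v, U2_map_2 f t v, U2_map_3 f t v, U2_map_4 f t v, U2_map_5 f t v, U2_map_6 f t v, U2_map_7 f t v, U2_map_8 f t v, U2_map_9 f t v, U2_map_10 f t v, U2_map_11 f t v, U2_map_12 f t v, U2_map_13 f t v]

theorem U3_add_0 (t : Fin 9 → R) (v w : Fin 14 → R) :
    U3 t (v + w) 0 = U3 t v 0 + U3 t w 0 := by
  simp only [U3_0, Pi.add_apply]; ring

theorem U3_smul_0 (t : Fin 9 → R) (c : R) (v : Fin 14 → R) :
    U3 t (c • v) 0 = c * U3 t v 0 := by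
  simp only [U3_0, Pi.smul_apply, smul_eq_mul]; ring

theorem U3_map_0 {S : Type*} [CommRing S] (f : R →+* S) (t : Fin 9 → R) (v : Fin 14 → R) :
    U3 (fun i => f (t i)) (fun i => f (v i)) 0 = f (U3 t v 0) := by
  simp only [U3_0, map_add, map_sub, map_mul, map_neg, map_zero, map_ofNat]

theorem U3_add_1 (t : Fin 9 → R) (v w : Fin 14 → R) :
    U3 t (v + w) 1 = U3 t v 1 + U3 t w 1 := by
  simp only [U3_1, Pi.add_apply]; ring

theorem U3_smul_1 (t : Fin 9 → R) (c : R) (v : Fin 14 → R) :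
    U3 t (c • v) 1 = c * U3 t v 1 := by
  simp only [U3_1, Pi.smul_apply, smul_eq_mul]; ring

theorem U3_map_1 {S : Type*} [CommRing S] (f : R →+* S) (t : Fin 9 → R) (v : Fin 14 → R) :
    U3 (fun i => f (t i)) (fun i => f (v i)) 1 = f (U3 t v 1) := by
  simp only [U3_1, map_add, map_sub, map_mul, map_neg, map_zero, map_ofNat]

theorem U3_add_2 (t : Fin 9 → R) (v w : Fin 14 → R) :
    U3 t (v + w) 2 = U3 t v 2 + U3 t w 2 := by
  simp only [U3_2, Pi.add_apply]; ring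

theorem U3_smul_2 (t : Fin 9 → R) (c : R) (v : Fin 14 → R) :
    U3 t (c • v) 2 = c * U3 t v 2 := by
  simp only [U3_2, Pi.smul_apply, smul_eq_mul]; ring

theorem U3_map_2 {S : Type*} [CommRing S] (f : R →+* S) (t : Fin 9 → R) (v : Fin 14 → R) :
    U3 (fun i => f (t i)) (fun i => f (v i)) 2 = f (U3 t v 2) := by
  simp only [U3_2, map_add, map_sub, map_mul, map_neg, map_zero, map_ofNat]

theorem U3_add_3 (t : Fin 9 → R) (v w : Fin 14 → R) :
    U3 t (v + w) 3 = U3 t v 3 + U3 t w 3 := by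
  simp only [U3_3, Pi.add_apply]; ring

theorem U3_smul_3 (t : Fin 9 → R) (c : R) (v : Fin 14 → R) :
    U3 t (c • v) 3 = c * U3 t v 3 := by
  simp only [U3_3, Pi.smul_apply, smul_eq_mul]; ring

theorem U3_map_3 {S : Type*} [CommRing S] (f : R →+* S) (t : Fin 9 → R) (v : Fin 14 → R) :
    U3 (fun i => f (t i)) (fun i => f (v i)) 3 = f (U3 t v 3) := by
  simp only [U3_3, map_add, map_sub, map_mul, map_neg, map_zero, map_ofNat]

theorem U3_add_4 (t : Fin 9 → R) (v w : Fin 14 → R) :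
    U3 t (v + w) 4 = U3 t v 4 + U3 t w 4 := by
  simp only [U3_4, Pi.add_apply]; ring

theorem U3_smul_4 (t : Fin 9 → R) (c : R) (v : Fin 14 → R) :
    U3 t (c • v) 4 = c * U3 t v 4 := by
  simp only [U3_4, Pi.smul_apply, smul_eq_mul]; ring

theorem U3_map_4 {S : Type*} [CommRing S] (f : R →+* S) (t : Fin 9 → R) (v : Fin 14 → R) :
    U3 (fun i => f (t i)) (fun i => f (v i)) 4 = f (U3 t v 4) := by
  simp only [U3_4, map_add, map_sub, map_mul, map_neg, map_zero, map_ofNat]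

theorem U3_add_5 (t : Fin 9 → R) (v w : Fin 14 → R) :
    U3 t (v + w) 5 = U3 t v 5 + U3 t w 5 := by
  simp only [U3_5, Pi.add_apply]; ring

theorem U3_smul_5 (t : Fin 9 → R) (c : R) (v : Fin 14 → R) :
    U3 t (c • v) 5 = c * U3 t v 5 := by
  simp only [U3_5, Pi.smul_apply, smul_eq_mul]; ring

theorem U3_map_5 {S : Type*} [CommRing S] (f : R →+* S) (t : Fin 9 → R) (v : Fin 14 → R) :
    U3 (fun i => f (t i)) (fun i => f (v i)) 5 = f (U3 t v 5) := by
  simp only [U3_5, map_add, map_sub, map_mul, map_neg, map_zero, map_ofNat]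

theorem U3_add_6 (t : Fin 9 → R) (v w : Fin 14 → R) :
    U3 t (v + w) 6 = U3 t v 6 + U3 t w 6 := by
  simp only [U3_6, Pi.add_apply]; ring

theorem U3_smul_6 (t : Fin 9 → R) (c : R) (v : Fin 14 → R) :
    U3 t (c • v) 6 = c * U3 t v 6 := by
  simp only [U3_6, Pi.smul_apply, smul_eq_mul]; ring

theorem U3_map_6 {S : Type*} [CommRing S] (f : R →+* S) (t : Fin 9 → R) (v : Fin 14 → R) :
    U3 (fun i => f (t i)) (fun i => f (v i)) 6 = f (U3 t v 6) := by
  simp only [U3_6, map_add, map_sub, map_mul, map_neg, map_zero, map_ofNat]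

theorem U3_add_7 (t : Fin 9 → R) (v w : Fin 14 → R) :
    U3 t (v + w) 7 = U3 t v 7 + U3 t w 7 := by
  simp only [U3_7, Pi.add_apply]; ring

theorem U3_smul_7 (t : Fin 9 → R) (c : R) (v : Fin 14 → R) :
    U3 t (c • v) 7 = c * U3 t v 7 := by
  simp only [U3_7, Pi.smul_apply, smul_eq_mul]; ring

theorem U3_map_7 {S : Type*} [CommRing S] (f : R →+* S) (t : Fin 9 → R) (v : Fin 14 → R) :
    U3 (fun i => f (t i)) (fun i => f (v i)) 7 = f (U3 t v 7) := by
  simp only [U3_7, map_add, map_sub, map_mul, map_neg, map_zero, map_ofNat]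

theorem U3_add_8 (t : Fin 9 → R) (v w : Fin 14 → R) :
    U3 t (v + w) 8 = U3 t v 8 + U3 t w 8 := by
  simp only [U3_8, Pi.add_apply]; ring

theorem U3_smul_8 (t : Fin 9 → R) (c : R) (v : Fin 14 → R) :
    U3 t (c • v) 8 = c * U3 t v 8 := by
  simp only [U3_8, Pi.smul_apply, smul_eq_mul]; ring

theorem U3_map_8 {S : Type*} [CommRing S] (f : R →+* S) (t : Fin 9 → R) (v : Fin 14 → R) :
    U3 (fun i => f (t i)) (fun i => f (v i)) 8 = f (U3 t v 8) := by
  simp only [U3_8, map_add, map_sub, map_mul, map_neg, map_zero, map_ofNat]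

theorem U3_add_9 (t : Fin 9 → R) (v w : Fin 14 → R) :
    U3 t (v + w) 9 = U3 t v 9 + U3 t w 9 := by
  simp only [U3_9, Pi.add_apply]; ring

theorem U3_smul_9 (t : Fin 9 → R) (c : R) (v : Fin 14 → R) :
    U3 t (c • v) 9 = c * U3 t v 9 := by
  simp only [U3_9, Pi.smul_apply, smul_eq_mul]; ring

theorem U3_map_9 {S : Type*} [CommRing S] (f : R →+* S) (t : Fin 9 → R) (v : Fin 14 → R) :
    U3 (fun i => f (t i)) (fun i => f (v i)) 9 = f (U3 t v 9) := by
  simp only [U3_9, map_add, map_sub, map_mul, map_neg, map_zero, map_ofNat]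

theorem U3_add_10 (t : Fin 9 → R) (v w : Fin 14 → R) :
    U3 t (v + w) 10 = U3 t v 10 + U3 t w 10 := by
  simp only [U3_10, Pi.add_apply]; ring

theorem U3_smul_10 (t : Fin 9 → R) (c : R) (v : Fin 14 → R) :
    U3 t (c • v) 10 = c * U3 t v 10 := by
  simp only [U3_10, Pi.smul_apply, smul_eq_mul]; ring

theorem U3_map_10 {S : Type*} [CommRing S] (f : R →+* S) (t : Fin 9 → R) (v : Fin 14 → R) :
    U3 (fun i => f (t i)) (fun i => f (v i)) 10 = f (U3 t v 10) := by
  simp only [U3_10, map_add, map_sub, map_mul, map_neg, map_zero, map_ofNat]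

theorem U3_add_11 (t : Fin 9 → R) (v w : Fin 14 → R) :
    U3 t (v + w) 11 = U3 t v 11 + U3 t w 11 := by
  simp only [U3_11, Pi.add_apply]; ring

theorem U3_smul_11 (t : Fin 9 → R) (c : R) (v : Fin 14 → R) :
    U3 t (c • v) 11 = c * U3 t v 11 := by
  simp only [U3_11, Pi.smul_apply, smul_eq_mul]; ring

theorem U3_map_11 {S : Type*} [CommRing S] (f : R →+* S) (t : Fin 9 → R) (v : Fin 14 → R) :
    U3 (fun i => f (t i)) (fun i => f (v i)) 11 = f (U3 t v 11) := by
  simp only [U3_11, map_add, map_sub, map_mul, map_neg, map_zero, map_ofNat]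

theorem U3_add_12 (t : Fin 9 → R) (v w : Fin 14 → R) :
    U3 t (v + w) 12 = U3 t v 12 + U3 t w 12 := by
  simp only [U3_12, Pi.add_apply]; ring

theorem U3_smul_12 (t : Fin 9 → R) (c : R) (v : Fin 14 → R) :
    U3 t (c • v) 12 = c * U3 t v 12 := by
  simp only [U3_12, Pi.smul_apply, smul_eq_mul]; ring

theorem U3_map_12 {S : Type*} [CommRing S] (f : R →+* S) (t : Fin 9 → R) (v : Fin 14 → R) :
    U3 (fun i => f (t i)) (fun i => f (v i)) 12 = f (U3 t v 12) := by
  simp only [U3_12, map_add, map_sub, map_mul, map_neg, map_zero, map_ofNat]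

theorem U3_add_13 (t : Fin 9 → R) (v w : Fin 14 → R) :
    U3 t (v + w) 13 = U3 t v 13 + U3 t w 13 := by
  simp only [U3_13, Pi.add_apply]; ring

theorem U3_smul_13 (t : Fin 9 → R) (c : R) (v : Fin 14 → R) :
    U3 t (c • v) 13 = c * U3 t v 13 := by
  simp only [U3_13, Pi.smul_apply, smul_eq_mul]; ring

theorem U3_map_13 {S : Type*} [CommRing S] (f : R →+* S) (t : Fin 9 → R) (v : Fin 14 → R) :
    U3 (fun i => f (t i)) (fun i => f (v i)) 13 = f (U3 t v 13) := by
  simp only [U3_13, map_add, map_sub, map_mul, map_neg, map_zero, map_ofNat]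

/-- The operator `U3` as a linear map. -/
def UL3 (t : Fin 9 → R) : (Fin 14 → R) →ₗ[R] (Fin 14 → R) where
  toFun := U3 t
  map_add' v w := by
    refine funext fun i => ?_
    fin_cases i
    exacts [U3_add_0 t v w, U3_add_1 t v w, U3_add_2 t v w, U3_add_3 t v w, U3_add_4 t v w, U3_add_5 t v w, U3_add_6 t v w, U3_add_7 t v w, U3_add_8 t v w, U3_add_9 t v w, U3_add_10 t v w, U3_add_11 t v w, U3_add_12 t v w, U3_add_13 t v w]
  map_smul' c v := by
    refine funext fun i => ?_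
    fin_cases i
    exacts [U3_smul_0 t c v, U3_smul_1 t c v, U3_smul_2 t c v, U3_smul_3 t c v, U3_smul_4 t c v, U3_smul_5 t c v, U3_smul_6 t c v, U3_smul_7 t c v, U3_smul_8 t c v, U3_smul_9 t c v, U3_smul_10 t c v, U3_smul_11 t c v, U3_smul_12 t c v, U3_smul_13 t c v]

theorem U3_map {S : Type*} [CommRing S] (f : R →+* S) (t : Fin 9 → R) (v : Fin 14 → R) :
    U3 (fun i => f (t i)) (fun i => f (v i)) = fun i => f (U3 t v i) := by
  refine funext fun i => ?_
  fin_cases i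
  exacts [U3_map_0 f t v, U3_map_1 f t v, U3_map_2 f t v, U3_map_3 f t v, U3_map_4 f t v, U3_map_5 f t v, U3_map_6 f t v, U3_map_7 f t v, U3_map_8 f t v, U3_map_9 f t v, U3_map_10 f t v, U3_map_11 f t v, U3_map_12 f t v, U3_map_13 f t v]

theorem U4_add_0 (t : Fin 9 → R) (v w : Fin 14 → R) :
    U4 t (v + w) 0 = U4 t v 0 + U4 t w 0 := by
  simp only [U4_0, Pi.add_apply]; ring

theorem U4_smul_0 (t : Fin 9 → R) (c : R) (v : Fin 14 → R) :
    U4 t (c • v) 0 = c * U4 t v 0 := by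
  simp only [U4_0, Pi.smul_apply, smul_eq_mul]; ring

theorem U4_map_0 {S : Type*} [CommRing S] (f : R →+* S) (t : Fin 9 → R) (v : Fin 14 → R) :
    U4 (fun i => f (t i)) (fun i => f (v i)) 0 = f (U4 t v 0) := by
  simp only [U4_0, map_add, map_sub, map_mul, map_neg, map_zero, map_ofNat]

theorem U4_add_1 (t : Fin 9 → R) (v w : Fin 14 → R) :
    U4 t (v + w) 1 = U4 t v 1 + U4 t w 1 := by
  simp only [U4_1, Pi.add_apply]; ring

theorem U4_smul_1 (t : Fin 9 → R) (c : R) (v : Fin 14 → R) :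
    U4 t (c • v) 1 = c * U4 t v 1 := by
  simp only [U4_1, Pi.smul_apply, smul_eq_mul]; ring

theorem U4_map_1 {S : Type*} [CommRing S] (f : R →+* S) (t : Fin 9 → R) (v : Fin 14 → R) :
    U4 (fun i => f (t i)) (fun i => f (v i)) 1 = f (U4 t v 1) := by
  simp only [U4_1, map_add, map_sub, map_mul, map_neg, map_zero, map_ofNat]

theorem U4_add_2 (t : Fin 9 → R) (v w : Fin 14 → R) :
    U4 t (v + w) 2 = U4 t v 2 + U4 t w 2 := by
  simp only [U4_2, Pi.add_apply]; ring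

theorem U4_smul_2 (t : Fin 9 → R) (c : R) (v : Fin 14 → R) :
    U4 t (c • v) 2 = c * U4 t v 2 := by
  simp only [U4_2, Pi.smul_apply, smul_eq_mul]; ring

theorem U4_map_2 {S : Type*} [CommRing S] (f : R →+* S) (t : Fin 9 → R) (v : Fin 14 → R) :
    U4 (fun i => f (t i)) (fun i => f (v i)) 2 = f (U4 t v 2) := by
  simp only [U4_2, map_add, map_sub, map_mul, map_neg, map_zero, map_ofNat]

theorem U4_add_3 (t : Fin 9 → R) (v w : Fin 14 → R) :
    U4 t (v + w) 3 = U4 t v 3 + U4 t w 3 := by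
  simp only [U4_3, Pi.add_apply]; ring

theorem U4_smul_3 (t : Fin 9 → R) (c : R) (v : Fin 14 → R) :
    U4 t (c • v) 3 = c * U4 t v 3 := by
  simp only [U4_3, Pi.smul_apply, smul_eq_mul]; ring

theorem U4_map_3 {S : Type*} [CommRing S] (f : R →+* S) (t : Fin 9 → R) (v : Fin 14 → R) :
    U4 (fun i => f (t i)) (fun i => f (v i)) 3 = f (U4 t v 3) := by
  simp only [U4_3, map_add, map_sub, map_mul, map_neg, map_zero, map_ofNat]

theorem U4_add_4 (t : Fin 9 → R) (v w : Fin 14 → R) :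
    U4 t (v + w) 4 = U4 t v 4 + U4 t w 4 := by
  simp only [U4_4, Pi.add_apply]; ring

theorem U4_smul_4 (t : Fin 9 → R) (c : R) (v : Fin 14 → R) :
    U4 t (c • v) 4 = c * U4 t v 4 := by
  simp only [U4_4, Pi.smul_apply, smul_eq_mul]; ring

theorem U4_map_4 {S : Type*} [CommRing S] (f : R →+* S) (t : Fin 9 → R) (v : Fin 14 → R) :
    U4 (fun i => f (t i)) (fun i => f (v i)) 4 = f (U4 t v 4) := by
  simp only [U4_4, map_add, map_sub, map_mul, map_neg, map_zero, map_ofNat]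

theorem U4_add_5 (t : Fin 9 → R) (v w : Fin 14 → R) :
    U4 t (v + w) 5 = U4 t v 5 + U4 t w 5 := by
  simp only [U4_5, Pi.add_apply]; ring

theorem U4_smul_5 (t : Fin 9 → R) (c : R) (v : Fin 14 → R) :
    U4 t (c • v) 5 = c * U4 t v 5 := by
  simp only [U4_5, Pi.smul_apply, smul_eq_mul]; ring

theorem U4_map_5 {S : Type*} [CommRing S] (f : R →+* S) (t : Fin 9 → R) (v : Fin 14 → R) :
    U4 (fun i => f (t i)) (fun i => f (v i)) 5 = f (U4 t v 5) := by
  simp only [U4_5, map_add, map_sub, map_mul, map_neg, map_zero, map_ofNat]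

theorem U4_add_6 (t : Fin 9 → R) (v w : Fin 14 → R) :
    U4 t (v + w) 6 = U4 t v 6 + U4 t w 6 := by
  simp only [U4_6, Pi.add_apply]; ring

theorem U4_smul_6 (t : Fin 9 → R) (c : R) (v : Fin 14 → R) :
    U4 t (c • v) 6 = c * U4 t v 6 := by
  simp only [U4_6, Pi.smul_apply, smul_eq_mul]; ring

theorem U4_map_6 {S : Type*} [CommRing S] (f : R →+* S) (t : Fin 9 → R) (v : Fin 14 → R) :
    U4 (fun i => f (t i)) (fun i => f (v i)) 6 = f (U4 t v 6) := by
  simp only [U4_6, map_add, map_sub, map_mul, map_neg, map_zero, map_ofNat]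

theorem U4_add_7 (t : Fin 9 → R) (v w : Fin 14 → R) :
    U4 t (v + w) 7 = U4 t v 7 + U4 t w 7 := by
  simp only [U4_7, Pi.add_apply]; ring

theorem U4_smul_7 (t : Fin 9 → R) (c : R) (v : Fin 14 → R) :
    U4 t (c • v) 7 = c * U4 t v 7 := by
  simp only [U4_7, Pi.smul_apply, smul_eq_mul]; ring

theorem U4_map_7 {S : Type*} [CommRing S] (f : R →+* S) (t : Fin 9 → R) (v : Fin 14 → R) :
    U4 (fun i => f (t i)) (fun i => f (v i)) 7 = f (U4 t v 7) := by
  simp only [U4_7, map_add, map_sub, map_mul, map_neg, map_zero, map_ofNat]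

theorem U4_add_8 (t : Fin 9 → R) (v w : Fin 14 → R) :
    U4 t (v + w) 8 = U4 t v 8 + U4 t w 8 := by
  simp only [U4_8, Pi.add_apply]; ring

theorem U4_smul_8 (t : Fin 9 → R) (c : R) (v : Fin 14 → R) :
    U4 t (c • v) 8 = c * U4 t v 8 := by
  simp only [U4_8, Pi.smul_apply, smul_eq_mul]; ring

theorem U4_map_8 {S : Type*} [CommRing S] (f : R →+* S) (t : Fin 9 → R) (v : Fin 14 → R) :
    U4 (fun i => f (t i)) (fun i => f (v i)) 8 = f (U4 t v 8) := by
  simp only [U4_8, map_add, map_sub, map_mul, map_neg, map_zero, map_ofNat]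

theorem U4_add_9 (t : Fin 9 → R) (v w : Fin 14 → R) :
    U4 t (v + w) 9 = U4 t v 9 + U4 t w 9 := by
  simp only [U4_9, Pi.add_apply]; ring

theorem U4_smul_9 (t : Fin 9 → R) (c : R) (v : Fin 14 → R) :
    U4 t (c • v) 9 = c * U4 t v 9 := by
  simp only [U4_9, Pi.smul_apply, smul_eq_mul]; ring

theorem U4_map_9 {S : Type*} [CommRing S] (f : R →+* S) (t : Fin 9 → R) (v : Fin 14 → R) :
    U4 (fun i => f (t i)) (fun i => f (v i)) 9 = f (U4 t v 9) := by
  simp only [U4_9, map_add, map_sub, map_mul, map_neg, map_zero, map_ofNat]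

theorem U4_add_10 (t : Fin 9 → R) (v w : Fin 14 → R) :
    U4 t (v + w) 10 = U4 t v 10 + U4 t w 10 := by
  simp only [U4_10, Pi.add_apply]; ring

theorem U4_smul_10 (t : Fin 9 → R) (c : R) (v : Fin 14 → R) :
    U4 t (c • v) 10 = c * U4 t v 10 := by
  simp only [U4_10, Pi.smul_apply, smul_eq_mul]; ring

theorem U4_map_10 {S : Type*} [CommRing S] (f : R →+* S) (t : Fin 9 → R) (v : Fin 14 → R) :
    U4 (fun i => f (t i)) (fun i => f (v i)) 10 = f (U4 t v 10) := by
  simp only [U4_10, map_add, map_sub, map_mul, map_neg, map_zero, map_ofNat]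

theorem U4_add_11 (t : Fin 9 → R) (v w : Fin 14 → R) :
    U4 t (v + w) 11 = U4 t v 11 + U4 t w 11 := by
  simp only [U4_11, Pi.add_apply]; ring

theorem U4_smul_11 (t : Fin 9 → R) (c : R) (v : Fin 14 → R) :
    U4 t (c • v) 11 = c * U4 t v 11 := by
  simp only [U4_11, Pi.smul_apply, smul_eq_mul]; ring

theorem U4_map_11 {S : Type*} [CommRing S] (f : R →+* S) (t : Fin 9 → R) (v : Fin 14 → R) :
    U4 (fun i => f (t i)) (fun i => f (v i)) 11 = f (U4 t v 11) := by
  simp only [U4_11, map_add, map_sub, map_mul, map_neg, map_zero, map_ofNat]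

theorem U4_add_12 (t : Fin 9 → R) (v w : Fin 14 → R) :
    U4 t (v + w) 12 = U4 t v 12 + U4 t w 12 := by
  simp only [U4_12, Pi.add_apply]; ring

theorem U4_smul_12 (t : Fin 9 → R) (c : R) (v : Fin 14 → R) :
    U4 t (c • v) 12 = c * U4 t v 12 := by
  simp only [U4_12, Pi.smul_apply, smul_eq_mul]; ring

theorem U4_map_12 {S : Type*} [CommRing S] (f : R →+* S) (t : Fin 9 → R) (v : Fin 14 → R) :
    U4 (fun i => f (t i)) (fun i => f (v i)) 12 = f (U4 t v 12) := by
  simp only [U4_12, map_add, map_sub, map_mul, map_neg, map_zero, map_ofNat]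

theorem U4_add_13 (t : Fin 9 → R) (v w : Fin 14 → R) :
    U4 t (v + w) 13 = U4 t v 13 + U4 t w 13 := by
  simp only [U4_13, Pi.add_apply]; ring

theorem U4_smul_13 (t : Fin 9 → R) (c : R) (v : Fin 14 → R) :
    U4 t (c • v) 13 = c * U4 t v 13 := by
  simp only [U4_13, Pi.smul_apply, smul_eq_mul]; ring

theorem U4_map_13 {S : Type*} [CommRing S] (f : R →+* S) (t : Fin 9 → R) (v : Fin 14 → R) :
    U4 (fun i => f (t i)) (fun i => f (v i)) 13 = f (U4 t v 13) := by
  simp only [U4_13, map_add, map_sub, map_mul, map_neg, map_zero, map_ofNat]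

/-- The operator `U4` as a linear map. -/
def UL4 (t : Fin 9 → R) : (Fin 14 → R) →ₗ[R] (Fin 14 → R) where
  toFun := U4 t
  map_add' v w := by
    refine funext fun i => ?_
    fin_cases i
    exacts [U4_add_0 t v w, U4_add_1 t v w, U4_add_2 t v w, U4_add_3 t v w, U4_add_4 t v w, U4_add_5 t v w, U4_add_6 t v w, U4_add_7 t v w, U4_add_8 t v w, U4_add_9 t v w, U4_add_10 t v w, U4_add_11 t v w, U4_add_12 t v w, U4_add_13 t v w]
  map_smul' c v := by
    refine funext fun i => ?_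
    fin_cases i
    exacts [U4_smul_0 t c v, U4_smul_1 t c v, U4_smul_2 t c v, U4_smul_3 t c v, U4_smul_4 t c v, U4_smul_5 t c v, U4_smul_6 t c v, U4_smul_7 t c v, U4_smul_8 t c v, U4_smul_9 t c v, U4_smul_10 t c v, U4_smul_11 t c v, U4_smul_12 t c v, U4_smul_13 t c v]

theorem U4_map {S : Type*} [CommRing S] (f : R →+* S) (t : Fin 9 → R) (v : Fin 14 → R) :
    U4 (fun i => f (t i)) (fun i => f (v i)) = fun i => f (U4 t v i) := by
  refine funext fun i => ?_
  fin_cases i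
  exacts [U4_map_0 f t v, U4_map_1 f t v, U4_map_2 f t v, U4_map_3 f t v, U4_map_4 f t v, U4_map_5 f t v, U4_map_6 f t v, U4_map_7 f t v, U4_map_8 f t v, U4_map_9 f t v, U4_map_10 f t v, U4_map_11 f t v, U4_map_12 f t v, U4_map_13 f t v]

theorem U5_add_0 (t : Fin 9 → R) (v w : Fin 14 → R) :
    U5 t (v + w) 0 = U5 t v 0 + U5 t w 0 := by
  simp only [U5_0, Pi.add_apply]; ring

theorem U5_smul_0 (t : Fin 9 → R) (c : R) (v : Fin 14 → R) :
    U5 t (c • v) 0 = c * U5 t v 0 := by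
  simp only [U5_0, Pi.smul_apply, smul_eq_mul]; ring

theorem U5_map_0 {S : Type*} [CommRing S] (f : R →+* S) (t : Fin 9 → R) (v : Fin 14 → R) :
    U5 (fun i => f (t i)) (fun i => f (v i)) 0 = f (U5 t v 0) := by
  simp only [U5_0, map_add, map_sub, map_mul, map_neg, map_zero, map_ofNat]

theorem U5_add_1 (t : Fin 9 → R) (v w : Fin 14 → R) :
    U5 t (v + w) 1 = U5 t v 1 + U5 t w 1 := by
  simp only [U5_1, Pi.add_apply]; ring

theorem U5_smul_1 (t : Fin 9 → R) (c : R) (v : Fin 14 → R) :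
    U5 t (c • v) 1 = c * U5 t v 1 := by
  simp only [U5_1, Pi.smul_apply, smul_eq_mul]; ring

theorem U5_map_1 {S : Type*} [CommRing S] (f : R →+* S) (t : Fin 9 → R) (v : Fin 14 → R) :
    U5 (fun i => f (t i)) (fun i => f (v i)) 1 = f (U5 t v 1) := by
  simp only [U5_1, map_add, map_sub, map_mul, map_neg, map_zero, map_ofNat]

theorem U5_add_2 (t : Fin 9 → R) (v w : Fin 14 → R) :
    U5 t (v + w) 2 = U5 t v 2 + U5 t w 2 := by
  simp only [U5_2, Pi.add_apply]; ring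

theorem U5_smul_2 (t : Fin 9 → R) (c : R) (v : Fin 14 → R) :
    U5 t (c • v) 2 = c * U5 t v 2 := by
  simp only [U5_2, Pi.smul_apply, smul_eq_mul]; ring

theorem U5_map_2 {S : Type*} [CommRing S] (f : R →+* S) (t : Fin 9 → R) (v : Fin 14 → R) :
    U5 (fun i => f (t i)) (fun i => f (v i)) 2 = f (U5 t v 2) := by
  simp only [U5_2, map_add, map_sub, map_mul, map_neg, map_zero, map_ofNat]

theorem U5_add_3 (t : Fin 9 → R) (v w : Fin 14 → R) :
    U5 t (v + w) 3 = U5 t v 3 + U5 t w 3 := by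
  simp only [U5_3, Pi.add_apply]; ring

theorem U5_smul_3 (t : Fin 9 → R) (c : R) (v : Fin 14 → R) :
    U5 t (c • v) 3 = c * U5 t v 3 := by
  simp only [U5_3, Pi.smul_apply, smul_eq_mul]; ring

theorem U5_map_3 {S : Type*} [CommRing S] (f : R →+* S) (t : Fin 9 → R) (v : Fin 14 → R) :
    U5 (fun i => f (t i)) (fun i => f (v i)) 3 = f (U5 t v 3) := by
  simp only [U5_3, map_add, map_sub, map_mul, map_neg, map_zero, map_ofNat]

theorem U5_add_4 (t : Fin 9 → R) (v w : Fin 14 → R) :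
    U5 t (v + w) 4 = U5 t v 4 + U5 t w 4 := by
  simp only [U5_4, Pi.add_apply]; ring

theorem U5_smul_4 (t : Fin 9 → R) (c : R) (v : Fin 14 → R) :
    U5 t (c • v) 4 = c * U5 t v 4 := by
  simp only [U5_4, Pi.smul_apply, smul_eq_mul]; ring

theorem U5_map_4 {S : Type*} [CommRing S] (f : R →+* S) (t : Fin 9 → R) (v : Fin 14 → R) :
    U5 (fun i => f (t i)) (fun i => f (v i)) 4 = f (U5 t v 4) := by
  simp only [U5_4, map_add, map_sub, map_mul, map_neg, map_zero, map_ofNat]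

theorem U5_add_5 (t : Fin 9 → R) (v w : Fin 14 → R) :
    U5 t (v + w) 5 = U5 t v 5 + U5 t w 5 := by
  simp only [U5_5, Pi.add_apply]; ring

theorem U5_smul_5 (t : Fin 9 → R) (c : R) (v : Fin 14 → R) :
    U5 t (c • v) 5 = c * U5 t v 5 := by
  simp only [U5_5, Pi.smul_apply, smul_eq_mul]; ring

theorem U5_map_5 {S : Type*} [CommRing S] (f : R →+* S) (t : Fin 9 → R) (v : Fin 14 → R) :
    U5 (fun i => f (t i)) (fun i => f (v i)) 5 = f (U5 t v 5) := by
  simp only [U5_5, map_add, map_sub, map_mul, map_neg, map_zero, map_ofNat]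

theorem U5_add_6 (t : Fin 9 → R) (v w : Fin 14 → R) :
    U5 t (v + w) 6 = U5 t v 6 + U5 t w 6 := by
  simp only [U5_6, Pi.add_apply]; ring

theorem U5_smul_6 (t : Fin 9 → R) (c : R) (v : Fin 14 → R) :
    U5 t (c • v) 6 = c * U5 t v 6 := by
  simp only [U5_6, Pi.smul_apply, smul_eq_mul]; ring

theorem U5_map_6 {S : Type*} [CommRing S] (f : R →+* S) (t : Fin 9 → R) (v : Fin 14 → R) :
    U5 (fun i => f (t i)) (fun i => f (v i)) 6 = f (U5 t v 6) := by
  simp only [U5_6, map_add, map_sub, map_mul, map_neg, map_zero, map_ofNat]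

theorem U5_add_7 (t : Fin 9 → R) (v w : Fin 14 → R) :
    U5 t (v + w) 7 = U5 t v 7 + U5 t w 7 := by
  simp only [U5_7, Pi.add_apply]; ring

theorem U5_smul_7 (t : Fin 9 → R) (c : R) (v : Fin 14 → R) :
    U5 t (c • v) 7 = c * U5 t v 7 := by
  simp only [U5_7, Pi.smul_apply, smul_eq_mul]; ring

theorem U5_map_7 {S : Type*} [CommRing S] (f : R →+* S) (t : Fin 9 → R) (v : Fin 14 → R) :
    U5 (fun i => f (t i)) (fun i => f (v i)) 7 = f (U5 t v 7) := by
  simp only [U5_7, map_add, map_sub, map_mul, map_neg, map_zero, map_ofNat]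

theorem U5_add_8 (t : Fin 9 → R) (v w : Fin 14 → R) :
    U5 t (v + w) 8 = U5 t v 8 + U5 t w 8 := by
  simp only [U5_8, Pi.add_apply]; ring

theorem U5_smul_8 (t : Fin 9 → R) (c : R) (v : Fin 14 → R) :
    U5 t (c • v) 8 = c * U5 t v 8 := by
  simp only [U5_8, Pi.smul_apply, smul_eq_mul]; ring

theorem U5_map_8 {S : Type*} [CommRing S] (f : R →+* S) (t : Fin 9 → R) (v : Fin 14 → R) :
    U5 (fun i => f (t i)) (fun i => f (v i)) 8 = f (U5 t v 8) := by
  simp only [U5_8, map_add, map_sub, map_mul, map_neg, map_zero, map_ofNat]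

theorem U5_add_9 (t : Fin 9 → R) (v w : Fin 14 → R) :
    U5 t (v + w) 9 = U5 t v 9 + U5 t w 9 := by
  simp only [U5_9, Pi.add_apply]; ring

theorem U5_smul_9 (t : Fin 9 → R) (c : R) (v : Fin 14 → R) :
    U5 t (c • v) 9 = c * U5 t v 9 := by
  simp only [U5_9, Pi.smul_apply, smul_eq_mul]; ring

theorem U5_map_9 {S : Type*} [CommRing S] (f : R →+* S) (t : Fin 9 → R) (v : Fin 14 → R) :
    U5 (fun i => f (t i)) (fun i => f (v i)) 9 = f (U5 t v 9) := by
  simp only [U5_9, map_add, map_sub, map_mul, map_neg, map_zero, map_ofNat]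

theorem U5_add_10 (t : Fin 9 → R) (v w : Fin 14 → R) :
    U5 t (v + w) 10 = U5 t v 10 + U5 t w 10 := by
  simp only [U5_10, Pi.add_apply]; ring

theorem U5_smul_10 (t : Fin 9 → R) (c : R) (v : Fin 14 → R) :
    U5 t (c • v) 10 = c * U5 t v 10 := by
  simp only [U5_10, Pi.smul_apply, smul_eq_mul]; ring

theorem U5_map_10 {S : Type*} [CommRing S] (f : R →+* S) (t : Fin 9 → R) (v : Fin 14 → R) :
    U5 (fun i => f (t i)) (fun i => f (v i)) 10 = f (U5 t v 10) := by
  simp only [U5_10, map_add, map_sub, map_mul, map_neg, map_zero, map_ofNat]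

theorem U5_add_11 (t : Fin 9 → R) (v w : Fin 14 → R) :
    U5 t (v + w) 11 = U5 t v 11 + U5 t w 11 := by
  simp only [U5_11, Pi.add_apply]; ring

theorem U5_smul_11 (t : Fin 9 → R) (c : R) (v : Fin 14 → R) :
    U5 t (c • v) 11 = c * U5 t v 11 := by
  simp only [U5_11, Pi.smul_apply, smul_eq_mul]; ring

theorem U5_map_11 {S : Type*} [CommRing S] (f : R →+* S) (t : Fin 9 → R) (v : Fin 14 → R) :
    U5 (fun i => f (t i)) (fun i => f (v i)) 11 = f (U5 t v 11) := by
  simp only [U5_11, map_add, map_sub, map_mul, map_neg, map_zero, map_ofNat]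

theorem U5_add_12 (t : Fin 9 → R) (v w : Fin 14 → R) :
    U5 t (v + w) 12 = U5 t v 12 + U5 t w 12 := by
  simp only [U5_12, Pi.add_apply]; ring

theorem U5_smul_12 (t : Fin 9 → R) (c : R) (v : Fin 14 → R) :
    U5 t (c • v) 12 = c * U5 t v 12 := by
  simp only [U5_12, Pi.smul_apply, smul_eq_mul]; ring

theorem U5_map_12 {S : Type*} [CommRing S] (f : R →+* S) (t : Fin 9 → R) (v : Fin 14 → R) :
    U5 (fun i => f (t i)) (fun i => f (v i)) 12 = f (U5 t v 12) := by
  simp only [U5_12, map_add, map_sub, map_mul, map_neg, map_zero, map_ofNat]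

theorem U5_add_13 (t : Fin 9 → R) (v w : Fin 14 → R) :
    U5 t (v + w) 13 = U5 t v 13 + U5 t w 13 := by
  simp only [U5_13, Pi.add_apply]; ring

theorem U5_smul_13 (t : Fin 9 → R) (c : R) (v : Fin 14 → R) :
    U5 t (c • v) 13 = c * U5 t v 13 := by
  simp only [U5_13, Pi.smul_apply, smul_eq_mul]; ring

theorem U5_map_13 {S : Type*} [CommRing S] (f : R →+* S) (t : Fin 9 → R) (v : Fin 14 → R) :
    U5 (fun i => f (t i)) (fun i => f (v i)) 13 = f (U5 t v 13) := by
  simp only [U5_13, map_add, map_sub, map_mul, map_neg, map_zero, map_ofNat]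

/-- The operator `U5` as a linear map. -/
def UL5 (t : Fin 9 → R) : (Fin 14 → R) →ₗ[R] (Fin 14 → R) where
  toFun := U5 t
  map_add' v w := by
    refine funext fun i => ?_
    fin_cases i
    exacts [U5_add_0 t v w, U5_add_1 t v w, U5_add_2 t v w, U5_add_3 t v w, U5_add_4 t v w, U5_add_5 t v w, U5_add_6 t v w, U5_add_7 t v w, U5_add_8 t v w, U5_add_9 t v w, U5_add_10 t v w, U5_add_11 t v w, U5_add_12 t v w, U5_add_13 t v w]
  map_smul' c v := by
    refine funext fun i => ?_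
    fin_cases i
    exacts [U5_smul_0 t c v, U5_smul_1 t c v, U5_smul_2 t c v, U5_smul_3 t c v, U5_smul_4 t c v, U5_smul_5 t c v, U5_smul_6 t c v, U5_smul_7 t c v, U5_smul_8 t c v, U5_smul_9 t c v, U5_smul_10 t c v, U5_smul_11 t c v, U5_smul_12 t c v, U5_smul_13 t c v]

theorem U5_map {S : Type*} [CommRing S] (f : R →+* S) (t : Fin 9 → R) (v : Fin 14 → R) :
    U5 (fun i => f (t i)) (fun i => f (v i)) = fun i => f (U5 t v i) := by
  refine funext fun i => ?_
  fin_cases i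
  exacts [U5_map_0 f t v, U5_map_1 f t v, U5_map_2 f t v, U5_map_3 f t v, U5_map_4 f t v, U5_map_5 f t v, U5_map_6 f t v, U5_map_7 f t v, U5_map_8 f t v, U5_map_9 f t v, U5_map_10 f t v, U5_map_11 f t v, U5_map_12 f t v, U5_map_13 f t v]

/-- The linear combination of the fourteen standard generators with coefficients `v`. -/
def phi (u : Fin 6 → R) (v : Fin 14 → R) : R :=
  v 0 + v 1 * (u 0) + v 2 * (u 1) + v 3 * (u 2) + v 4 * (u 3) + v 5 * (u 4) + v 6 * (u 5) + v 7 * (u 0 * u 3) + v 8 * (u 0 * u 4) + v 9 * (u 0 * u 5) + v 10 * (u 1 * u 4) + v 11 * (u 1 * u 5) + v 12 * (u 3 * u 5) + v 13 * (u 0 * u 3 * u 5)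

theorem TU.mul_phi0 {t : Fin 9 → R} {u : Fin 6 → R} (h : TU t u) (v : Fin 14 → R) :
    u 0 * phi u v = phi u (U0 t v) := by
  simp only [phi, U0_0, U0_1, U0_2, U0_3, U0_4, U0_5, U0_6, U0_7, U0_8, U0_9, U0_10, U0_11, U0_12, U0_13]
  linear_combination v 0 * h.tab0_0 + v 1 * h.tab0_1 + v 2 * h.tab0_2 + v 3 * h.tab0_3 + v 4 * h.tab0_4 + v 5 * h.tab0_5 + v 6 * h.tab0_6 + v 7 * h.tab0_7 + v 8 * h.tab0_8 + v 9 * h.tab0_9 + v 10 * h.tab0_10 + v 11 * h.tab0_11 + v 12 * h.tab0_12 + v 13 * h.tab0_13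

theorem TU.mul_phi1 {t : Fin 9 → R} {u : Fin 6 → R} (h : TU t u) (v : Fin 14 → R) :
    u 1 * phi u v = phi u (U1 t v) := by
  simp only [phi, U1_0, U1_1, U1_2, U1_3, U1_4, U1_5, U1_6, U1_7, U1_8, U1_9, U1_10, U1_11, U1_12, U1_13]
  linear_combination v 0 * h.tab1_0 + v 1 * h.tab1_1 + v 2 * h.tab1_2 + v 3 * h.tab1_3 + v 4 * h.tab1_4 + v 5 * h.tab1_5 + v 6 * h.tab1_6 + v 7 * h.tab1_7 + v 8 * h.tab1_8 + v 9 * h.tab1_9 + v 10 * h.tab1_10 + v 11 * h.tab1_11 + v 12 * h.tab1_12 + v 13 * h.tab1_13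

theorem TU.mul_phi2 {t : Fin 9 → R} {u : Fin 6 → R} (h : TU t u) (v : Fin 14 → R) :
    u 2 * phi u v = phi u (U2 t v) := by
  simp only [phi, U2_0, U2_1, U2_2, U2_3, U2_4, U2_5, U2_6, U2_7, U2_8, U2_9, U2_10, U2_11, U2_12, U2_13]
  linear_combination v 0 * h.tab2_0 + v 1 * h.tab2_1 + v 2 * h.tab2_2 + v 3 * h.tab2_3 + v 4 * h.tab2_4 + v 5 * h.tab2_5 + v 6 * h.tab2_6 + v 7 * h.tab2_7 + v 8 * h.tab2_8 + v 9 * h.tab2_9 + v 10 * h.tab2_10 + v 11 * h.tab2_11 + v 12 * h.tab2_12 + v 13 * h.tab2_13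

theorem TU.mul_phi3 {t : Fin 9 → R} {u : Fin 6 → R} (h : TU t u) (v : Fin 14 → R) :
    u 3 * phi u v = phi u (U3 t v) := by
  simp only [phi, U3_0, U3_1, U3_2, U3_3, U3_4, U3_5, U3_6, U3_7, U3_8, U3_9, U3_10, U3_11, U3_12, U3_13]
  linear_combination v 0 * h.tab3_0 + v 1 * h.tab3_1 + v 2 * h.tab3_2 + v 3 * h.tab3_3 + v 4 * h.tab3_4 + v 5 * h.tab3_5 + v 6 * h.tab3_6 + v 7 * h.tab3_7 + v 8 * h.tab3_8 + v 9 * h.tab3_9 + v 10 * h.tab3_10 + v 11 * h.tab3_11 + v 12 * h.tab3_12 + v 13 * h.tab3_13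

theorem TU.mul_phi4 {t : Fin 9 → R} {u : Fin 6 → R} (h : TU t u) (v : Fin 14 → R) :
    u 4 * phi u v = phi u (U4 t v) := by
  simp only [phi, U4_0, U4_1, U4_2, U4_3, U4_4, U4_5, U4_6, U4_7, U4_8, U4_9, U4_10, U4_11, U4_12, U4_13]
  linear_combination v 0 * h.tab4_0 + v 1 * h.tab4_1 + v 2 * h.tab4_2 + v 3 * h.tab4_3 + v 4 * h.tab4_4 + v 5 * h.tab4_5 + v 6 * h.tab4_6 + v 7 * h.tab4_7 + v 8 * h.tab4_8 + v 9 * h.tab4_9 + v 10 * h.tab4_10 + v 11 * h.tab4_11 + v 12 * h.tab4_12 + v 13 * h.tab4_13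

theorem TU.mul_phi5 {t : Fin 9 → R} {u : Fin 6 → R} (h : TU t u) (v : Fin 14 → R) :
    u 5 * phi u v = phi u (U5 t v) := by
  simp only [phi, U5_0, U5_1, U5_2, U5_3, U5_4, U5_5, U5_6, U5_7, U5_8, U5_9, U5_10, U5_11, U5_12, U5_13]
  linear_combination v 0 * h.tab5_0 + v 1 * h.tab5_1 + v 2 * h.tab5_2 + v 3 * h.tab5_3 + v 4 * h.tab5_4 + v 5 * h.tab5_5 + v 6 * h.tab5_6 + v 7 * h.tab5_7 + v 8 * h.tab5_8 + v 9 * h.tab5_9 + v 10 * h.tab5_10 + v 11 * h.tab5_11 + v 12 * h.tab5_12 + v 13 * h.tab5_13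

end Pool.Agent.J6H65.Hilb4
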