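import Mathlib

set_option autoImplicit false

namespace Pool.Agent.J6H65.Hilb4

variable {R : Type*} [CommRing R]

/-- Multiplication by `p23` on the free module with the fourteen standard generators. -/
def U0 (t : Fin 9 → R) (v : Fin 14 → R) : Fin 14 → R := ![
  t 0 * t 6 * v 3 - t 1 * t 5 * v 3 + t 0 * t 1 * t 7 * v 7 - t 0 * t 2 * t 6 * v 7 + t 0 * t 2 * t 8 * v 10 - t 0 * t 3 * t 7 * v 10 - t 1 * t 1 * t 8 * v 10 + t 1 * t 3 * t 6 * v 10 - t 1 * t 2 * t 8 * v 11 + t 1 * t 3 * t 7 * v 11 - t 0 * t 0 * t 6 * t 8 * v 13 + t 0 * t 0 * t 7 * t 7 * v 13 + t 0 * t 1 * t 5 * t 8 * v 13 + t 0 * t 1 * t 6 * t 7 * v 13 - t 0 * t 2 * t 5 * t 7 * v 13 - t 1 * t 1 * t 5 * t 7 * v 13,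
  v 0 + t 2 * v 1 + t 3 * v 2 + t 4 * v 3 + t 0 * t 6 * v 7 + t 0 * t 7 * v 8 + t 1 * t 7 * v 10 + t 1 * t 8 * v 11 - t 0 * t 4 * t 8 * v 13 + t 0 * t 5 * t 7 * v 13 - t 1 * t 3 * t 8 * v 13 + t 1 * t 4 * t 7 * v 13,
  - t 1 * v 1 - t 0 * t 6 * v 8 + t 0 * t 7 * v 10 - 2 * t 1 * t 6 * v 10 + t 0 * t 8 * v 11 - t 1 * t 7 * v 11 - t 0 * t 3 * t 8 * v 13 + t 0 * t 4 * t 7 * v 13 + t 1 * t 2 * t 8 * v 13,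
  - t 1 * v 2 - t 0 * t 6 * v 10 - t 0 * t 7 * v 11 + t 0 * t 2 * t 8 * v 13 + t 1 * t 1 * t 8 * v 13 - t 1 * t 2 * t 7 * v 13,
  t 0 * v 1 + t 0 * t 4 * v 7 - t 1 * t 3 * v 7 + t 0 * t 5 * v 8 + t 1 * t 5 * v 10 + t 0 * t 2 * t 8 * v 13 - t 0 * t 3 * t 7 * v 13 - t 1 * t 1 * t 8 * v 13,
  t 0 * v 2 + t 1 * v 3 + t 1 * t 2 * v 7 + t 0 * t 5 * v 10 - t 1 * t 4 * v 10 - 2 * t 0 * t 1 * t 8 * v 13 + t 0 * t 2 * t 7 * v 13 + 2 * t 1 * t 1 * t 7 * v 13,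
  - t 0 * v 3 + t 0 * t 2 * v 7 - t 1 * t 1 * v 7 + t 0 * t 4 * v 10 - t 1 * t 3 * v 10 + t 0 * t 5 * v 11 - t 1 * t 4 * v 11 - t 0 * t 1 * t 7 * v 13 - t 1 * t 1 * t 6 * v 13 + t 1 * t 2 * t 5 * v 13,
  - v 3 + v 4 + t 2 * v 7 + t 0 * t 8 * v 13 - t 1 * t 7 * v 13,
  v 5 - t 1 * v 7 + t 2 * v 8 + t 3 * v 10 - 2 * t 0 * t 7 * v 13,
  v 6 + t 2 * v 9 + t 3 * v 11 + t 0 * t 6 * v 13 - t 1 * t 5 * v 13,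
  - t 0 * v 7 - t 1 * v 8,
  t 0 * v 8 - t 1 * v 9 + 2 * t 1 * v 10 - t 0 * t 5 * v 13,
  t 0 * v 9 - t 0 * v 10 + t 1 * v 11 + t 0 * t 4 * v 13 - t 1 * t 3 * v 13,
  v 12 + t 2 * v 13]

/-- Multiplication by `p24` on the free module with the fourteen standard generators. -/
def U1 (t : Fin 9 → R) (v : Fin 14 → R) : Fin 14 → R := ![
  t 0 * t 6 * v 2 - t 1 * t 5 * v 2 + t 0 * t 7 * v 3 - t 2 * t 5 * v 3 + t 0 * t 2 * t 8 * v 8 - t 0 * t 3 * t 7 * v 8 - t 1 * t 1 * t 8 * v 8 + t 1 * t 3 * t 6 * v 8 - t 1 * t 2 * t 8 * v 9 + t 1 * t 3 * t 7 * v 9 + t 1 * t 2 * t 8 * v 10 - 2 * t 1 * t 3 * t 7 * v 10 + t 2 * t 3 * t 6 * v 10 - t 2 * t 2 * t 8 * v 11 + t 2 * t 3 * t 7 * v 11 - t 0 * t 6 * t 7 * v 12 + t 1 * t 5 * t 7 * v 12 - t 0 * t 1 * t 6 * t 8 * v 13 + t 0 *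 t 1 * t 7 * t 7 * v 13 + t 1 * t 1 * t 5 * t 8 * v 13 - t 1 * t 2 * t 5 * t 7 * v 13,
  t 3 * v 1 + t 4 * v 2 + t 5 * v 3 + t 0 * t 7 * v 7 + t 1 * t 7 * v 8 + t 1 * t 8 * v 9 - t 1 * t 8 * v 10 + t 3 * t 6 * v 10 + t 2 * t 8 * v 11 + t 3 * t 8 * v 12 - t 4 * t 7 * v 12 - t 1 * t 4 * t 8 * v 13 + t 1 * t 5 * t 7 * v 13,
  v 0 + t 3 * v 2 + t 4 * v 3 - t 0 * t 6 * v 7 + t 0 * t 7 * v 8 - 2 * t 1 * t 6 * v 8 + t 0 * t 8 * v 9 - t 1 * t 7 * v 9 - t 0 * t 8 * v 10 + 3 * t 1 * t 7 * v 10 - 2 * t 2 * t 6 * v 10 + t 1 * t 8 * v 11 - t 2 * t 7 * v 11 - t 2 * t 8 * v 12 - t 1 * t 3 * t 8 * v 13 + t 1 * t 4 * t 7 * v 13,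
  - t 1 * v 1 - t 2 * v 2 - t 0 * t 6 * v 8 - t 0 * t 7 * v 9 + t 0 * t 7 * v 10 - 2 * t 1 * t 6 * v 10 - t 1 * t 7 * v 11 - t 1 * t 8 * v 12 + t 2 * t 7 * v 12 + t 1 * t 2 * t 8 * v 13,
  - t 3 * v 3 + t 3 * v 4 + t 0 * t 5 * v 7 + t 1 * t 5 * v 8 - t 0 * t 7 * v 10 + t 2 * t 5 * v 10 + t 1 * t 8 * v 12 + t 0 * t 3 * t 8 * v 13 - t 1 * t 3 * t 7 * v 13,
  t 0 * v 1 + t 1 * v 2 + 2 * t 2 * v 3 - t 2 * v 4 + t 0 * t 5 * v 8 - t 1 * t 4 * v 8 + 2 * t 0 * t 6 * v 10 - t 2 * t 4 * v 10 + t 0 * t 8 * v 12 - 2 * t 1 * t 7 * v 12 - t 0 * t 2 * t 8 * v 13 - t 1 * t 1 * t 8 * v 13 + 2 * t 1 * t 2 * t 7 * v 13,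
  - t 1 * v 3 + t 1 * v 4 + t 0 * t 4 * v 8 - t 1 * t 3 * v 8 + t 0 * t 5 * v 9 - t 1 * t 4 * v 9 - t 0 * t 5 * v 10 + 2 * t 1 * t 4 * v 10 - t 2 * t 3 * v 10 + t 0 * t 6 * v 11 - t 2 * t 4 * v 11 + t 0 * t 7 * v 12 + t 1 * t 6 * v 12 - t 2 * t 5 * v 12 + t 0 * t 1 * t 8 * v 13 - t 1 * t 1 * t 7 * v 13,
  - v 2 + t 3 * v 7 - t 5 * v 10 + t 7 * v 12 + 2 * t 1 * t 8 * v 13,
  - 2 * v 3 + v 4 + t 3 * v 8 + t 4 * v 10 + t 0 * t 8 * v 13 - 3 * t 1 * t 7 * v 13,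
  t 1 * v 7 + t 3 * v 9 - t 3 * v 10 + t 4 * v 11 + t 5 * v 12 + t 0 * t 7 * v 13 + t 1 * t 6 * v 13,
  v 5 - t 1 * v 7 + t 3 * v 10 - t 0 * t 7 * v 13,
  v 6 + t 0 * v 7 + 2 * t 1 * v 8 + 2 * t 2 * v 10 + t 3 * v 11 - t 1 * t 5 * v 13,
  - t 0 * v 8 + t 1 * v 9 - 2 * t 1 * v 10 + t 2 * v 11 + t 3 * v 12 + t 0 * t 5 * v 13,
  - v 11 + t 3 * v 13]

/-- Multiplication by `p25` on the free module with the fourteen standard generators. -/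
def U2 (t : Fin 9 → R) (v : Fin 14 → R) : Fin 14 → R := ![
  t 0 * t 6 * v 1 - t 1 * t 5 * v 1 + t 0 * t 7 * v 2 - t 2 * t 5 * v 2 + t 0 * t 8 * v 3 - t 3 * t 5 * v 3 + t 1 * t 8 * v 5 - t 3 * t 6 * v 5 + t 2 * t 8 * v 6 - t 3 * t 7 * v 6 + t 0 * t 2 * t 8 * v 7 - t 0 * t 3 * t 7 * v 7 - t 1 * t 1 * t 8 * v 7 + t 1 * t 3 * t 6 * v 7 + 2 * t 1 * t 2 * t 8 * v 8 - 2 * t 1 * t 3 * t 7 * v 8 + 2 * t 0 * t 6 * t 6 * v 10 - 2 * t 1 * t 5 * t 6 * v 10 + 2 * t 2 * t 2 * t 8 * v 10 - 2 * t 2 * t 3 * t 7 * v 10 + 2 * t 0 * t 6 * t 7 * v 11 - 2 * t 1 * t 5 * t 7 * v 11 + t 0 * t 6 * t 8 * v 12 - t 0 * t 7 * t 7 * v 12 - t 1 * t 5 * t 8 * v 12 + t 2 * t 5 * t 7 * v 12 - 2 * t 0 * t 1 * t 7 * t 8 * v 13 + t 0 * t 2 * t 6 * t 8 * v 13 + t 1 * t 3 * t 5 * t 7 * v 13,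
  t 4 * v 1 + t 5 * v 2 - t 7 * v 5 - t 8 * v 6 + t 1 * t 7 * v 7 - t 1 * t 8 * v 8 - t 2 * t 7 * v 8 + t 3 * t 6 * v 8 - 2 * t 2 * t 8 * v 10 - t 3 * t 7 * v 10 + 2 * t 4 * t 6 * v 10 - 2 * t 3 * t 8 * v 11 + 2 * t 4 * t 7 * v 11 + t 4 * t 8 * v 12 - t 5 * t 7 * v 12 - t 0 * t 6 * t 8 * v 13 + 2 * t 0 * t 7 * t 7 * v 13 + t 3 * t 3 * t 8 * v 13 - t 3 * t 4 * t 7 * v 13,
  t 4 * v 2 + t 5 * v 3 + 2 * t 6 * v 5 + t 7 * v 6 + t 0 * t 7 * v 7 - 2 * t 1 * t 6 * v 7 - 2 * t 0 * t 8 * v 8 + 3 * t 1 * t 7 * v 8 + t 1 * t 8 * v 9 - t 1 * t 8 * v 10 + 2 * t 2 * t 7 * v 10 + t 3 * t 6 * v 10 + 2 * t 2 * t 8 * v 11 + t 3 * t 8 * v 12 - t 4 * t 7 * v 12 + t 0 * t 5 * t 8 * v 13 - 3 * t 0 * t 6 * t 7 * v 13 - t 1 * t 4 * t 8 * v 13,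
  v 0 + t 4 * v 3 - t 0 * t 6 * v 7 + 2 * t 0 * t 7 * v 8 - 2 * t 1 * t 6 * v 8 - t 1 * t 7 * v 9 + 3 * t 1 * t 7 * v 10 - 2 * t 2 * t 6 * v 10 + 2 * t 1 * t 8 * v 11 - 2 * t 2 * t 7 * v 11 - t 2 * t 8 * v 12 - t 0 * t 5 * t 7 * v 13 - t 1 * t 3 * t 8 * v 13 + t 1 * t 4 * t 7 * v 13,
  - t 3 * v 2 - t 5 * v 5 + t 1 * t 5 * v 7 - t 0 * t 7 * v 8 - t 0 * t 8 * v 9 - t 3 * t 5 * v 10 - t 1 * t 8 * v 11 + t 3 * t 7 * v 12 - t 0 * t 4 * t 8 * v 13 + 2 * t 0 * t 5 * t 7 * v 13 + 2 * t 1 * t 3 * t 8 * v 13,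
  t 1 * v 1 + 2 * t 2 * v 2 + t 3 * v 3 + t 4 * v 5 + t 0 * t 5 * v 7 - t 1 * t 4 * v 7 + 2 * t 0 * t 6 * v 8 + t 0 * t 7 * v 9 - t 0 * t 7 * v 10 + 2 * t 1 * t 6 * v 10 + t 2 * t 5 * v 10 - 2 * t 0 * t 8 * v 11 + 3 * t 1 * t 7 * v 11 + t 1 * t 8 * v 12 - 2 * t 2 * t 7 * v 12 + t 0 * t 3 * t 8 * v 13 - t 0 * t 4 * t 7 * v 13 - 3 * t 1 * t 2 * t 8 * v 13,
  - t 0 * v 1 - t 1 * v 2 + t 3 * v 5 + t 4 * v 6 + t 0 * t 4 * v 7 - t 1 * t 3 * v 7 - 2 * t 0 * t 5 * v 8 + 2 * t 1 * t 4 * v 8 - 2 * t 0 * t 6 * v 10 - t 1 * t 5 * v 10 + 2 * t 2 * t 4 * v 10 - t 0 * t 7 * v 11 - t 1 * t 6 * v 11 + t 2 * t 5 * v 11 + t 1 * t 7 * v 12 - t 0 * t 2 * t 8 * v 13 + t 0 * t 5 * t 5 * v 13 + 2 * t 1 * t 1 * t 8 * v 13 - t 1 * t 4 * t 5 * v 13,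
  - v 1 - t 5 * v 8 - 2 * t 6 * v 10 - 2 * t 7 * v 11 - 2 * t 8 * v 12 - t 2 * t 8 * v 13 + t 3 * t 7 * v 13,
  - 2 * v 2 + t 3 * v 7 + t 4 * v 8 - t 5 * v 10 + 3 * t 7 * v 12 + 3 * t 1 * t 8 * v 13 + t 2 * t 7 * v 13,
  v 3 - v 4 - t 2 * v 7 - t 3 * v 8 + t 4 * v 9 - 2 * t 4 * v 10 - t 5 * v 11 - t 6 * v 12 + t 1 * t 7 * v 13 - t 2 * t 6 * v 13 + t 3 * t 5 * v 13,
  - 2 * v 3 + v 4 + t 4 * v 10 + 2 * t 0 * t 8 * v 13 - 3 * t 1 * t 7 * v 13,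
  - 2 * v 5 + 3 * t 1 * v 7 - t 3 * v 10 + t 4 * v 11 + t 5 * v 12 + 3 * t 0 * t 7 * v 13 + t 1 * t 6 * v 13,
  - v 6 - 2 * t 0 * v 7 - 2 * t 1 * v 8 - 2 * t 2 * v 10 - t 3 * v 11 - t 0 * t 6 * v 13 + t 1 * t 5 * v 13,
  - v 9 + 2 * v 10]

/-- Multiplication by `p34` on the free module with the fourteen standard generators. -/
def U3 (t : Fin 9 → R) (v : Fin 14 → R) : Fin 14 → R := ![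
  t 1 * t 7 * v 4 - t 2 * t 6 * v 4 - t 0 * t 2 * t 8 * v 7 + t 0 * t 3 * t 7 * v 7 + t 1 * t 1 * t 8 * v 7 - t 1 * t 3 * t 6 * v 7 - t 1 * t 2 * t 8 * v 8 + t 1 * t 3 * t 7 * v 8 - t 0 * t 6 * t 6 * v 10 + t 1 * t 5 * t 6 * v 10 - t 2 * t 2 * t 8 * v 10 + t 2 * t 3 * t 7 * v 10 - t 0 * t 6 * t 7 * v 11 + t 1 * t 5 * t 7 * v 11 - t 0 * t 6 * t 8 * v 12 + t 0 * t 7 * t 7 * v 12 + t 1 * t 5 * t 8 * v 12 - t 2 * t 5 * t 7 * v 12 + t 0 * t 1 * t 7 * t 8 * v 13 - t 1 * t 3 * t 5 * t 7 * v 13,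
  t 6 * v 4 + t 7 * v 5 + t 1 * t 8 * v 8 + t 2 * t 7 * v 8 - t 3 * t 6 * v 8 + t 2 * t 8 * v 10 + t 3 * t 7 * v 10 - t 4 * t 6 * v 10 + t 3 * t 8 * v 11 - t 4 * t 7 * v 11 - t 4 * t 8 * v 12 + t 5 * t 7 * v 12 - t 0 * t 7 * t 7 * v 13 - t 3 * t 3 * t 8 * v 13 + t 3 * t 4 * t 7 * v 13,
  - t 6 * v 5 - t 0 * t 7 * v 7 + t 1 * t 6 * v 7 + t 0 * t 8 * v 8 - 2 * t 1 * t 7 * v 8 + t 1 * t 8 * v 10 - t 2 * t 7 * v 10 - t 3 * t 6 * v 10 - t 2 * t 8 * v 11 - t 3 * t 8 * v 12 + t 4 * t 7 * v 12 - t 0 * t 5 * t 8 * v 13 + 2 * t 0 * t 6 * t 7 * v 13 + t 1 * t 4 * t 8 * v 13,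
  t 0 * t 6 * v 7 - t 0 * t 7 * v 8 + t 1 * t 6 * v 8 - 2 * t 1 * t 7 * v 10 + t 2 * t 6 * v 10 - t 1 * t 8 * v 11 + t 2 * t 7 * v 11 + t 2 * t 8 * v 12 + t 0 * t 5 * t 7 * v 13 + t 1 * t 3 * t 8 * v 13 - t 1 * t 4 * t 7 * v 13,
  v 0 + t 3 * v 2 + t 4 * v 4 + t 5 * v 5 + t 0 * t 6 * v 7 - t 1 * t 5 * v 7 + t 0 * t 7 * v 8 + t 3 * t 5 * v 10 + t 1 * t 8 * v 11 + t 2 * t 8 * v 12 - t 3 * t 7 * v 12 - t 0 * t 5 * t 7 * v 13 - t 1 * t 3 * t 8 * v 13,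
  - t 2 * v 2 - t 0 * t 5 * v 7 + t 1 * t 4 * v 7 - t 0 * t 6 * v 8 + t 0 * t 7 * v 10 - t 1 * t 6 * v 10 - t 2 * t 5 * v 10 + t 0 * t 8 * v 11 - 2 * t 1 * t 7 * v 11 - t 1 * t 8 * v 12 + t 2 * t 7 * v 12 - t 0 * t 3 * t 8 * v 13 + t 0 * t 4 * t 7 * v 13 + 2 * t 1 * t 2 * t 8 * v 13,
  t 1 * v 2 + t 2 * v 4 - t 0 * t 4 * v 7 + t 1 * t 3 * v 7 + t 0 * t 5 * v 8 - t 1 * t 4 * v 8 + t 0 * t 6 * v 10 + t 1 * t 5 * v 10 - t 2 * t 4 * v 10 + t 0 * t 7 * v 11 + t 1 * t 6 * v 11 - t 2 * t 5 * v 11 - t 0 * t 5 * t 5 * v 13 - t 1 * t 1 * t 8 * v 13 + t 1 * t 4 * t 5 * v 13,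
  v 1 + t 4 * v 7 + t 5 * v 8 + t 6 * v 10 + t 7 * v 11 + t 8 * v 12 + t 2 * t 8 * v 13 - t 3 * t 7 * v 13,
  v 2 - t 3 * v 7 + t 5 * v 10 - 2 * t 7 * v 12 - 2 * t 1 * t 8 * v 13 - t 2 * t 7 * v 13,
  - v 3 + t 2 * v 7 + t 3 * v 8 + t 4 * v 10 + t 5 * v 11 + t 6 * v 12 + t 2 * t 6 * v 13 - t 3 * t 5 * v 13,
  v 3 - v 4 - t 0 * t 8 * v 13 + 2 * t 1 * t 7 * v 13,
  v 5 - 2 * t 1 * v 7 + t 3 * v 10 - t 5 * v 12 - 2 * t 0 * t 7 * v 13 - t 1 * t 6 * v 13,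
  v 6 + t 0 * v 7 + t 1 * v 8 + t 2 * v 10 + t 3 * v 11 + t 4 * v 12 + t 0 * t 6 * v 13 - t 1 * t 5 * v 13,
  v 9 - v 10 + t 4 * v 13]

/-- Multiplication by `p35` on the free module with the fourteen standard generators. -/
def U4 (t : Fin 9 → R) (v : Fin 14 → R) : Fin 14 → R := ![
  t 1 * t 8 * v 3 - t 3 * t 6 * v 3 + t 2 * t 8 * v 5 - t 3 * t 7 * v 5 - t 1 * t 2 * t 8 * v 7 + t 1 * t 3 * t 7 * v 7 - t 0 * t 6 * t 6 * v 8 + t 1 * t 5 * t 6 * v 8 - t 0 * t 6 * t 7 * v 9 + t 1 * t 5 * t 7 * v 9 + t 0 * t 6 * t 7 * v 10 - 2 * t 1 * t 5 * t 7 * v 10 + t 2 * t 5 * t 6 * v 10 + t 0 * t 6 * t 8 * v 11 - t 0 * t 7 * t 7 * v 11 - t 1 * t 5 * t 8 * v 11 + t 2 * t 5 * t 7 * v 11 - t 0 * t 2 * t 7 * t 8 * v 13 + t 0 * t 3 * t 7 * t 7 * v 13 + t 1 * t 1 * t 7 * t 8 * v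 13 - t 1 * t 3 * t 6 * t 7 * v 13,
  - t 7 * v 3 + t 7 * v 4 + t 1 * t 8 * v 7 + t 2 * t 7 * v 7 - t 3 * t 6 * v 7 + t 2 * t 8 * v 8 - t 4 * t 6 * v 8 + t 3 * t 8 * v 9 - t 4 * t 7 * v 9 - t 3 * t 8 * v 10 + 2 * t 4 * t 7 * v 10 - t 5 * t 6 * v 10 + t 4 * t 8 * v 11 - t 5 * t 7 * v 11 + t 0 * t 7 * t 8 * v 13 - t 1 * t 7 * t 7 * v 13,
  2 * t 6 * v 3 - t 6 * v 4 + t 7 * v 5 + t 8 * v 6 + t 0 * t 8 * v 7 - 2 * t 1 * t 7 * v 7 + 2 * t 2 * t 8 * v 10 - t 4 * t 6 * v 10 + t 3 * t 8 * v 11 - t 4 * t 7 * v 11 - t 0 * t 6 * t 8 * v 13 - t 0 * t 7 * t 7 * v 13 + 2 * t 1 * t 6 * t 7 * v 13,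
  - t 6 * v 5 - t 7 * v 6 - t 0 * t 7 * v 7 + t 1 * t 6 * v 7 - t 1 * t 7 * v 8 - t 1 * t 8 * v 9 + t 1 * t 8 * v 10 - 2 * t 2 * t 7 * v 10 - t 2 * t 8 * v 11 + t 0 * t 6 * t 7 * v 13,
  - t 5 * v 3 + t 5 * v 4 + t 0 * t 7 * v 7 - t 1 * t 8 * v 10 + t 3 * t 6 * v 10 + t 3 * t 7 * v 11 + t 3 * t 8 * v 12 + t 0 * t 5 * t 8 * v 13 - t 1 * t 5 * t 7 * v 13,
  v 0 + t 4 * v 3 + t 5 * v 5 - t 0 * t 6 * v 7 + t 0 * t 7 * v 8 - t 1 * t 6 * v 8 + t 0 * t 8 * v 9 - t 1 * t 7 * v 9 - t 0 * t 8 * v 10 + 3 * t 1 * t 7 * v 10 - 2 * t 2 * t 6 * v 10 + t 1 * t 8 * v 11 - 2 * t 2 * t 7 * v 11 - t 2 * t 8 * v 12 - t 0 * t 5 * t 7 * v 13 + t 1 * t 4 * t 7 * v 13,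
  t 3 * v 3 + t 4 * v 5 + t 5 * v 6 + t 0 * t 5 * v 7 - t 1 * t 4 * v 7 + t 0 * t 6 * v 8 + t 0 * t 7 * v 9 - t 0 * t 7 * v 10 + t 2 * t 5 * v 10 + t 1 * t 7 * v 11 + t 1 * t 8 * v 12 - t 0 * t 4 * t 7 * v 13 + t 1 * t 3 * t 7 * v 13,
  t 5 * v 7 + t 6 * v 8 + t 7 * v 9 - 2 * t 7 * v 10 - t 8 * v 11 + t 3 * t 8 * v 13,
  v 1 + t 5 * v 8 + 2 * t 6 * v 10 + 2 * t 7 * v 11 + t 8 * v 12 - t 3 * t 7 * v 13,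
  t 3 * v 7 + t 4 * v 8 + t 5 * v 9 - t 5 * v 10 + t 7 * v 12 + t 1 * t 8 * v 13 + t 2 * t 7 * v 13,
  v 2 + t 5 * v 10 - t 7 * v 12 - t 1 * t 8 * v 13,
  - 2 * v 3 + v 4 + t 4 * v 10 + t 5 * v 11 + t 0 * t 8 * v 13 - 3 * t 1 * t 7 * v 13,
  - v 5 + t 1 * v 7 - t 3 * v 10 + t 5 * v 12 + 2 * t 0 * t 7 * v 13,
  - v 8 + t 5 * v 13]

/-- Multiplication by `p45` on the free module with the fourteen standard generators. -/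
def U5 (t : Fin 9 → R) (v : Fin 14 → R) : Fin 14 → R := ![
  t 2 * t 8 * v 3 - t 3 * t 7 * v 3 - t 0 * t 6 * t 7 * v 8 + t 1 * t 5 * t 7 * v 8 + t 0 * t 6 * t 8 * v 10 - t 0 * t 7 * t 7 * v 10 - t 1 * t 5 * t 8 * v 10 + t 2 * t 5 * t 7 * v 10 + t 1 * t 7 * t 8 * v 12 - t 2 * t 6 * t 8 * v 12 - t 0 * t 2 * t 8 * t 8 * v 13 + t 0 * t 3 * t 7 * t 8 * v 13 + t 1 * t 1 * t 8 * t 8 * v 13 + t 1 * t 2 * t 7 * t 8 * v 13 - t 1 * t 3 * t 6 * t 8 * v 13 - t 1 * t 3 * t 7 * t 7 * v 13,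
  - t 8 * v 3 + t 3 * t 8 * v 8 - t 4 * t 7 * v 8 + t 4 * t 8 * v 10 - t 5 * t 7 * v 10 + t 6 * t 8 * v 12 - t 7 * t 7 * v 12 - t 1 * t 7 * t 8 * v 13 - t 2 * t 7 * t 7 * v 13 + t 3 * t 6 * t 7 * v 13,
  t 7 * v 3 + t 8 * v 5 + t 3 * t 8 * v 10 - t 4 * t 7 * v 10 + t 6 * t 7 * v 12 - 2 * t 0 * t 7 * t 8 * v 13 + t 1 * t 6 * t 8 * v 13 + 2 * t 1 * t 7 * t 7 * v 13,
  - t 7 * v 5 - t 1 * t 8 * v 8 - t 2 * t 8 * v 10 + t 0 * t 6 * t 8 * v 13 + t 0 * t 7 * t 7 * v 13 - t 1 * t 6 * t 7 * v 13,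
  t 8 * v 6 + t 3 * t 7 * v 10 + t 3 * t 8 * v 11 + t 4 * t 8 * v 12 - t 5 * t 7 * v 12 + t 0 * t 6 * t 8 * v 13 - t 0 * t 7 * t 7 * v 13 - t 1 * t 5 * t 8 * v 13,
  - t 7 * v 6 + t 0 * t 8 * v 8 - t 1 * t 7 * v 8 + t 1 * t 8 * v 10 - 2 * t 2 * t 7 * v 10 - t 2 * t 8 * v 11 - t 0 * t 5 * t 8 * v 13 + t 0 * t 6 * t 7 * v 13 + t 1 * t 4 * t 8 * v 13,
  v 0 + t 4 * v 3 + t 5 * v 5 + t 6 * v 6 + t 0 * t 7 * v 8 + t 1 * t 7 * v 10 + t 1 * t 8 * v 11 + t 2 * t 8 * v 12 - t 0 * t 4 * t 8 * v 13 - t 0 * t 5 * t 7 * v 13 + t 1 * t 3 * t 8 * v 13 + t 1 * t 4 * t 7 * v 13,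
  t 7 * v 8 + t 8 * v 9 - t 8 * v 10 + t 4 * t 8 * v 13 - t 5 * t 7 * v 13,
  - t 7 * v 9 + 2 * t 7 * v 10 + t 8 * v 11 - t 3 * t 8 * v 13,
  v 1 + t 5 * v 8 + t 6 * v 9 + t 2 * t 8 * v 13 - t 3 * t 7 * v 13,
  - t 7 * v 11 - t 8 * v 12,
  v 2 + t 5 * v 10 + t 6 * v 11 - t 7 * v 12 - 2 * t 1 * t 8 * v 13,
  - v 3 + v 4 + t 6 * v 12 + t 0 * t 8 * v 13 - t 1 * t 7 * v 13,
  v 7 + t 6 * v 13]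

theorem U0_0 (t : Fin 9 → R) (v : Fin 14 → R) : U0 t v 0 =
    t 0 * t 6 * v 3 - t 1 * t 5 * v 3 + t 0 * t 1 * t 7 * v 7 - t 0 * t 2 * t 6 * v 7 + t 0 * t 2 * t 8 * v 10 - t 0 * t 3 * t 7 * v 10 - t 1 * t 1 * t 8 * v 10 + t 1 * t 3 * t 6 * v 10 - t 1 * t 2 * t 8 * v 11 + t 1 * t 3 * t 7 * v 11 - t 0 * t 0 * t 6 * t 8 * v 13 + t 0 * t 0 * t 7 * t 7 * v 13 + t 0 * t 1 * t 5 * t 8 * v 13 + t 0 * t 1 * t 6 * t 7 * v 13 - t 0 * t 2 * t 5 * t 7 * v 13 - t 1 * t 1 * t 5 * t 7 * v 13 := rfl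

theorem U0_1 (t : Fin 9 → R) (v : Fin 14 → R) : U0 t v 1 =
    v 0 + t 2 * v 1 + t 3 * v 2 + t 4 * v 3 + t 0 * t 6 * v 7 + t 0 * t 7 * v 8 + t 1 * t 7 * v 10 + t 1 * t 8 * v 11 - t 0 * t 4 * t 8 * v 13 + t 0 * t 5 * t 7 * v 13 - t 1 * t 3 * t 8 * v 13 + t 1 * t 4 * t 7 * v 13 := rfl

theorem U0_2 (t : Fin 9 → R) (v : Fin 14 → R) : U0 t v 2 =
    - t 1 * v 1 - t 0 * t 6 * v 8 + t 0 * t 7 * v 10 - 2 * t 1 * t 6 * v 10 + t 0 * t 8 * v 11 - t 1 * t 7 * v 11 - t 0 * t 3 * t 8 * v 13 + t 0 * t 4 * t 7 * v 13 + t 1 * t 2 * t 8 * v 13 := rfl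

theorem U0_3 (t : Fin 9 → R) (v : Fin 14 → R) : U0 t v 3 =
    - t 1 * v 2 - t 0 * t 6 * v 10 - t 0 * t 7 * v 11 + t 0 * t 2 * t 8 * v 13 + t 1 * t 1 * t 8 * v 13 - t 1 * t 2 * t 7 * v 13 := rfl

theorem U0_4 (t : Fin 9 → R) (v : Fin 14 → R) : U0 t v 4 =
    t 0 * v 1 + t 0 * t 4 * v 7 - t 1 * t 3 * v 7 + t 0 * t 5 * v 8 + t 1 * t 5 * v 10 + t 0 * t 2 * t 8 * v 13 - t 0 * t 3 * t 7 * v 13 - t 1 * t 1 * t 8 * v 13 := rfl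

theorem U0_5 (t : Fin 9 → R) (v : Fin 14 → R) : U0 t v 5 =
    t 0 * v 2 + t 1 * v 3 + t 1 * t 2 * v 7 + t 0 * t 5 * v 10 - t 1 * t 4 * v 10 - 2 * t 0 * t 1 * t 8 * v 13 + t 0 * t 2 * t 7 * v 13 + 2 * t 1 * t 1 * t 7 * v 13 := rfl

theorem U0_6 (t : Fin 9 → R) (v : Fin 14 → R) : U0 t v 6 =
    - t 0 * v 3 + t 0 * t 2 * v 7 - t 1 * t 1 * v 7 + t 0 * t 4 * v 10 - t 1 * t 3 * v 10 + t 0 * t 5 * v 11 - t 1 * t 4 * v 11 - t 0 * t 1 * t 7 * v 13 - t 1 * t 1 * t 6 * v 13 + t 1 * t 2 * t 5 * v 13 := rfl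

theorem U0_7 (t : Fin 9 → R) (v : Fin 14 → R) : U0 t v 7 =
    - v 3 + v 4 + t 2 * v 7 + t 0 * t 8 * v 13 - t 1 * t 7 * v 13 := rfl

theorem U0_8 (t : Fin 9 → R) (v : Fin 14 → R) : U0 t v 8 =
    v 5 - t 1 * v 7 + t 2 * v 8 + t 3 * v 10 - 2 * t 0 * t 7 * v 13 := rfl

theorem U0_9 (t : Fin 9 → R) (v : Fin 14 → R) : U0 t v 9 =
    v 6 + t 2 * v 9 + t 3 * v 11 + t 0 * t 6 * v 13 - t 1 * t 5 * v 13 := rfl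

theorem U0_10 (t : Fin 9 → R) (v : Fin 14 → R) : U0 t v 10 =
    - t 0 * v 7 - t 1 * v 8 := rfl

theorem U0_11 (t : Fin 9 → R) (v : Fin 14 → R) : U0 t v 11 =
    t 0 * v 8 - t 1 * v 9 + 2 * t 1 * v 10 - t 0 * t 5 * v 13 := rfl

theorem U0_12 (t : Fin 9 → R) (v : Fin 14 → R) : U0 t v 12 =
    t 0 * v 9 - t 0 * v 10 + t 1 * v 11 + t 0 * t 4 * v 13 - t 1 * t 3 * v 13 := rfl

theorem U0_13 (t : Fin 9 → R) (v : Fin 14 → R) : U0 t v 13 =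
    v 12 + t 2 * v 13 := rfl

theorem U1_0 (t : Fin 9 → R) (v : Fin 14 → R) : U1 t v 0 =
    t 0 * t 6 * v 2 - t 1 * t 5 * v 2 + t 0 * t 7 * v 3 - t 2 * t 5 * v 3 + t 0 * t 2 * t 8 * v 8 - t 0 * t 3 * t 7 * v 8 - t 1 * t 1 * t 8 * v 8 + t 1 * t 3 * t 6 * v 8 - t 1 * t 2 * t 8 * v 9 + t 1 * t 3 * t 7 * v 9 + t 1 * t 2 * t 8 * v 10 - 2 * t 1 * t 3 * t 7 * v 10 + t 2 * t 3 * t 6 * v 10 - t 2 * t 2 * t 8 * v 11 + t 2 * t 3 * t 7 * v 11 - t 0 * t 6 * t 7 * v 12 + t 1 * t 5 * t 7 * v 12 - t 0 * t 1 * t 6 * t 8 * v 13 + t 0 * t 1 * t 7 * t 7 * v 13 + t 1 * t 1 * t 5 * t 8 * v 13 - t 1 * t 2 * t 5 * t 7 * v 13 := rfl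

theorem U1_1 (t : Fin 9 → R) (v : Fin 14 → R) : U1 t v 1 =
    t 3 * v 1 + t 4 * v 2 + t 5 * v 3 + t 0 * t 7 * v 7 + t 1 * t 7 * v 8 + t 1 * t 8 * v 9 - t 1 * t 8 * v 10 + t 3 * t 6 * v 10 + t 2 * t 8 * v 11 + t 3 * t 8 * v 12 - t 4 * t 7 * v 12 - t 1 * t 4 * t 8 * v 13 + t 1 * t 5 * t 7 * v 13 := rfl

theorem U1_2 (t : Fin 9 → R) (v : Fin 14 → R) : U1 t v 2 =
    v 0 + t 3 * v 2 + t 4 * v 3 - t 0 * t 6 * v 7 + t 0 * t 7 * v 8 - 2 * t 1 * t 6 * v 8 + t 0 * t 8 * v 9 - t 1 * t 7 * v 9 - t 0 * t 8 * v 10 + 3 * t 1 * t 7 * v 10 - 2 * t 2 * t 6 * v 10 + t 1 * t 8 * v 11 - t 2 * t 7 * v 11 - t 2 * t 8 * v 12 - t 1 * t 3 * t 8 * v 13 + t 1 * t 4 * t 7 * v 13 := rfl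

theorem U1_3 (t : Fin 9 → R) (v : Fin 14 → R) : U1 t v 3 =
    - t 1 * v 1 - t 2 * v 2 - t 0 * t 6 * v 8 - t 0 * t 7 * v 9 + t 0 * t 7 * v 10 - 2 * t 1 * t 6 * v 10 - t 1 * t 7 * v 11 - t 1 * t 8 * v 12 + t 2 * t 7 * v 12 + t 1 * t 2 * t 8 * v 13 := rfl

theorem U1_4 (t : Fin 9 → R) (v : Fin 14 → R) : U1 t v 4 =
    - t 3 * v 3 + t 3 * v 4 + t 0 * t 5 * v 7 + t 1 * t 5 * v 8 - t 0 * t 7 * v 10 + t 2 * t 5 * v 10 + t 1 * t 8 * v 12 + t 0 * t 3 * t 8 * v 13 - t 1 * t 3 * t 7 * v 13 := rfl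

theorem U1_5 (t : Fin 9 → R) (v : Fin 14 → R) : U1 t v 5 =
    t 0 * v 1 + t 1 * v 2 + 2 * t 2 * v 3 - t 2 * v 4 + t 0 * t 5 * v 8 - t 1 * t 4 * v 8 + 2 * t 0 * t 6 * v 10 - t 2 * t 4 * v 10 + t 0 * t 8 * v 12 - 2 * t 1 * t 7 * v 12 - t 0 * t 2 * t 8 * v 13 - t 1 * t 1 * t 8 * v 13 + 2 * t 1 * t 2 * t 7 * v 13 := rfl

theorem U1_6 (t : Fin 9 → R) (v : Fin 14 → R) : U1 t v 6 =
    - t 1 * v 3 + t 1 * v 4 + t 0 * t 4 * v 8 - t 1 * t 3 * v 8 + t 0 * t 5 * v 9 - t 1 * t 4 * v 9 - t 0 * t 5 * v 10 + 2 * t 1 * t 4 * v 10 - t 2 * t 3 * v 10 + t 0 * t 6 * v 11 - t 2 * t 4 * v 11 + t 0 * t 7 * v 12 + t 1 * t 6 * v 12 - t 2 * t 5 * v 12 + t 0 * t 1 * t 8 * v 13 - t 1 * t 1 * t 7 * v 13 := rfl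

theorem U1_7 (t : Fin 9 → R) (v : Fin 14 → R) : U1 t v 7 =
    - v 2 + t 3 * v 7 - t 5 * v 10 + t 7 * v 12 + 2 * t 1 * t 8 * v 13 := rfl

theorem U1_8 (t : Fin 9 → R) (v : Fin 14 → R) : U1 t v 8 =
    - 2 * v 3 + v 4 + t 3 * v 8 + t 4 * v 10 + t 0 * t 8 * v 13 - 3 * t 1 * t 7 * v 13 := rfl

theorem U1_9 (t : Fin 9 → R) (v : Fin 14 → R) : U1 t v 9 =
    t 1 * v 7 + t 3 * v 9 - t 3 * v 10 + t 4 * v 11 + t 5 * v 12 + t 0 * t 7 * v 13 + t 1 * t 6 * v 13 := rfl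

theorem U1_10 (t : Fin 9 → R) (v : Fin 14 → R) : U1 t v 10 =
    v 5 - t 1 * v 7 + t 3 * v 10 - t 0 * t 7 * v 13 := rfl

theorem U1_11 (t : Fin 9 → R) (v : Fin 14 → R) : U1 t v 11 =
    v 6 + t 0 * v 7 + 2 * t 1 * v 8 + 2 * t 2 * v 10 + t 3 * v 11 - t 1 * t 5 * v 13 := rfl

theorem U1_12 (t : Fin 9 → R) (v : Fin 14 → R) : U1 t v 12 =
    - t 0 * v 8 + t 1 * v 9 - 2 * t 1 * v 10 + t 2 * v 11 + t 3 * v 12 + t 0 * t 5 * v 13 := rfl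

theorem U1_13 (t : Fin 9 → R) (v : Fin 14 → R) : U1 t v 13 =
    - v 11 + t 3 * v 13 := rfl

theorem U2_0 (t : Fin 9 → R) (v : Fin 14 → R) : U2 t v 0 =
    t 0 * t 6 * v 1 - t 1 * t 5 * v 1 + t 0 * t 7 * v 2 - t 2 * t 5 * v 2 + t 0 * t 8 * v 3 - t 3 * t 5 * v 3 + t 1 * t 8 * v 5 - t 3 * t 6 * v 5 + t 2 * t 8 * v 6 - t 3 * t 7 * v 6 + t 0 * t 2 * t 8 * v 7 - t 0 * t 3 * t 7 * v 7 - t 1 * t 1 * t 8 * v 7 + t 1 * t 3 * t 6 * v 7 + 2 * t 1 * t 2 * t 8 * v 8 - 2 * t 1 * t 3 * t 7 * v 8 + 2 * t 0 * t 6 * t 6 * v 10 - 2 * t 1 * t 5 * t 6 * v 10 + 2 * t 2 * t 2 * t 8 * v 10 - 2 * t 2 * t 3 * t 7 * v 10 + 2 * t 0 * t 6 * t 7 * v 11 - 2 * t 1 * t 5 * t 7 * v 11 + t 0 * t 6 * t 8 * v 12 - t 0 * t 7 * t 7 * v 12 - t 1 * t 5 * t 8 * v 12 + t 2 * t 5 * t 7 * v 12 - 2 * t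 0 * t 1 * t 7 * t 8 * v 13 + t 0 * t 2 * t 6 * t 8 * v 13 + t 1 * t 3 * t 5 * t 7 * v 13 := rfl

theorem U2_1 (t : Fin 9 → R) (v : Fin 14 → R) : U2 t v 1 =
    t 4 * v 1 + t 5 * v 2 - t 7 * v 5 - t 8 * v 6 + t 1 * t 7 * v 7 - t 1 * t 8 * v 8 - t 2 * t 7 * v 8 + t 3 * t 6 * v 8 - 2 * t 2 * t 8 * v 10 - t 3 * t 7 * v 10 + 2 * t 4 * t 6 * v 10 - 2 * t 3 * t 8 * v 11 + 2 * t 4 * t 7 * v 11 + t 4 * t 8 * v 12 - t 5 * t 7 * v 12 - t 0 * t 6 * t 8 * v 13 + 2 * t 0 * t 7 * t 7 * v 13 + t 3 * t 3 * t 8 * v 13 - t 3 * t 4 * t 7 * v 13 := rfl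

theorem U2_2 (t : Fin 9 → R) (v : Fin 14 → R) : U2 t v 2 =
    t 4 * v 2 + t 5 * v 3 + 2 * t 6 * v 5 + t 7 * v 6 + t 0 * t 7 * v 7 - 2 * t 1 * t 6 * v 7 - 2 * t 0 * t 8 * v 8 + 3 * t 1 * t 7 * v 8 + t 1 * t 8 * v 9 - t 1 * t 8 * v 10 + 2 * t 2 * t 7 * v 10 + t 3 * t 6 * v 10 + 2 * t 2 * t 8 * v 11 + t 3 * t 8 * v 12 - t 4 * t 7 * v 12 + t 0 * t 5 * t 8 * v 13 - 3 * t 0 * t 6 * t 7 * v 13 - t 1 * t 4 * t 8 * v 13 := rfl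

theorem U2_3 (t : Fin 9 → R) (v : Fin 14 → R) : U2 t v 3 =
    v 0 + t 4 * v 3 - t 0 * t 6 * v 7 + 2 * t 0 * t 7 * v 8 - 2 * t 1 * t 6 * v 8 - t 1 * t 7 * v 9 + 3 * t 1 * t 7 * v 10 - 2 * t 2 * t 6 * v 10 + 2 * t 1 * t 8 * v 11 - 2 * t 2 * t 7 * v 11 - t 2 * t 8 * v 12 - t 0 * t 5 * t 7 * v 13 - t 1 * t 3 * t 8 * v 13 + t 1 * t 4 * t 7 * v 13 := rfl

theorem U2_4 (t : Fin 9 → R) (v : Fin 14 → R) : U2 t v 4 =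
    - t 3 * v 2 - t 5 * v 5 + t 1 * t 5 * v 7 - t 0 * t 7 * v 8 - t 0 * t 8 * v 9 - t 3 * t 5 * v 10 - t 1 * t 8 * v 11 + t 3 * t 7 * v 12 - t 0 * t 4 * t 8 * v 13 + 2 * t 0 * t 5 * t 7 * v 13 + 2 * t 1 * t 3 * t 8 * v 13 := rfl

theorem U2_5 (t : Fin 9 → R) (v : Fin 14 → R) : U2 t v 5 =
    t 1 * v 1 + 2 * t 2 * v 2 + t 3 * v 3 + t 4 * v 5 + t 0 * t 5 * v 7 - t 1 * t 4 * v 7 + 2 * t 0 * t 6 * v 8 + t 0 * t 7 * v 9 - t 0 * t 7 * v 10 + 2 * t 1 * t 6 * v 10 + t 2 * t 5 * v 10 - 2 * t 0 * t 8 * v 11 + 3 * t 1 * t 7 * v 11 + t 1 * t 8 * v 12 - 2 * t 2 * t 7 * v 12 + t 0 * t 3 * t 8 * v 13 - t 0 * t 4 * t 7 * v 13 - 3 * t 1 * t 2 * t 8 * v 13 := rfl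

theorem U2_6 (t : Fin 9 → R) (v : Fin 14 → R) : U2 t v 6 =
    - t 0 * v 1 - t 1 * v 2 + t 3 * v 5 + t 4 * v 6 + t 0 * t 4 * v 7 - t 1 * t 3 * v 7 - 2 * t 0 * t 5 * v 8 + 2 * t 1 * t 4 * v 8 - 2 * t 0 * t 6 * v 10 - t 1 * t 5 * v 10 + 2 * t 2 * t 4 * v 10 - t 0 * t 7 * v 11 - t 1 * t 6 * v 11 + t 2 * t 5 * v 11 + t 1 * t 7 * v 12 - t 0 * t 2 * t 8 * v 13 + t 0 * t 5 * t 5 * v 13 + 2 * t 1 * t 1 * t 8 * v 13 - t 1 * t 4 * t 5 * v 13 := rfl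

theorem U2_7 (t : Fin 9 → R) (v : Fin 14 → R) : U2 t v 7 =
    - v 1 - t 5 * v 8 - 2 * t 6 * v 10 - 2 * t 7 * v 11 - 2 * t 8 * v 12 - t 2 * t 8 * v 13 + t 3 * t 7 * v 13 := rfl

theorem U2_8 (t : Fin 9 → R) (v : Fin 14 → R) : U2 t v 8 =
    - 2 * v 2 + t 3 * v 7 + t 4 * v 8 - t 5 * v 10 + 3 * t 7 * v 12 + 3 * t 1 * t 8 * v 13 + t 2 * t 7 * v 13 := rfl

theorem U2_9 (t : Fin 9 → R) (v : Fin 14 → R) : U2 t v 9 =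
    v 3 - v 4 - t 2 * v 7 - t 3 * v 8 + t 4 * v 9 - 2 * t 4 * v 10 - t 5 * v 11 - t 6 * v 12 + t 1 * t 7 * v 13 - t 2 * t 6 * v 13 + t 3 * t 5 * v 13 := rfl

theorem U2_10 (t : Fin 9 → R) (v : Fin 14 → R) : U2 t v 10 =
    - 2 * v 3 + v 4 + t 4 * v 10 + 2 * t 0 * t 8 * v 13 - 3 * t 1 * t 7 * v 13 := rfl

theorem U2_11 (t : Fin 9 → R) (v : Fin 14 → R) : U2 t v 11 =
    - 2 * v 5 + 3 * t 1 * v 7 - t 3 * v 10 + t 4 * v 11 + t 5 * v 12 + 3 * t 0 * t 7 * v 13 + t 1 * t 6 * v 13 := rfl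

theorem U2_12 (t : Fin 9 → R) (v : Fin 14 → R) : U2 t v 12 =
    - v 6 - 2 * t 0 * v 7 - 2 * t 1 * v 8 - 2 * t 2 * v 10 - t 3 * v 11 - t 0 * t 6 * v 13 + t 1 * t 5 * v 13 := rfl

theorem U2_13 (t : Fin 9 → R) (v : Fin 14 → R) : U2 t v 13 =
    - v 9 + 2 * v 10 := rfl

theorem U3_0 (t : Fin 9 → R) (v : Fin 14 → R) : U3 t v 0 =
    t 1 * t 7 * v 4 - t 2 * t 6 * v 4 - t 0 * t 2 * t 8 * v 7 + t 0 * t 3 * t 7 * v 7 + t 1 * t 1 * t 8 * v 7 - t 1 * t 3 * t 6 * v 7 - t 1 * t 2 * t 8 * v 8 + t 1 * t 3 * t 7 * v 8 - t 0 * t 6 * t 6 * v 10 + t 1 * t 5 * t 6 * v 10 - t 2 * t 2 * t 8 * v 10 + t 2 * t 3 * t 7 * v 10 - t 0 * t 6 * t 7 * v 11 + t 1 * t 5 * t 7 * v 11 - t 0 * t 6 * t 8 * v 12 + t 0 * t 7 * t 7 * v 12 + t 1 * t 5 * t 8 * v 12 - t 2 * t 5 * t 7 * v 12 + t 0 *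 t 1 * t 7 * t 8 * v 13 - t 1 * t 3 * t 5 * t 7 * v 13 := rfl

theorem U3_1 (t : Fin 9 → R) (v : Fin 14 → R) : U3 t v 1 =
    t 6 * v 4 + t 7 * v 5 + t 1 * t 8 * v 8 + t 2 * t 7 * v 8 - t 3 * t 6 * v 8 + t 2 * t 8 * v 10 + t 3 * t 7 * v 10 - t 4 * t 6 * v 10 + t 3 * t 8 * v 11 - t 4 * t 7 * v 11 - t 4 * t 8 * v 12 + t 5 * t 7 * v 12 - t 0 * t 7 * t 7 * v 13 - t 3 * t 3 * t 8 * v 13 + t 3 * t 4 * t 7 * v 13 := rfl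

theorem U3_2 (t : Fin 9 → R) (v : Fin 14 → R) : U3 t v 2 =
    - t 6 * v 5 - t 0 * t 7 * v 7 + t 1 * t 6 * v 7 + t 0 * t 8 * v 8 - 2 * t 1 * t 7 * v 8 + t 1 * t 8 * v 10 - t 2 * t 7 * v 10 - t 3 * t 6 * v 10 - t 2 * t 8 * v 11 - t 3 * t 8 * v 12 + t 4 * t 7 * v 12 - t 0 * t 5 * t 8 * v 13 + 2 * t 0 * t 6 * t 7 * v 13 + t 1 * t 4 * t 8 * v 13 := rfl

theorem U3_3 (t : Fin 9 → R) (v : Fin 14 → R) : U3 t v 3 =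
    t 0 * t 6 * v 7 - t 0 * t 7 * v 8 + t 1 * t 6 * v 8 - 2 * t 1 * t 7 * v 10 + t 2 * t 6 * v 10 - t 1 * t 8 * v 11 + t 2 * t 7 * v 11 + t 2 * t 8 * v 12 + t 0 * t 5 * t 7 * v 13 + t 1 * t 3 * t 8 * v 13 - t 1 * t 4 * t 7 * v 13 := rfl

theorem U3_4 (t : Fin 9 → R) (v : Fin 14 → R) : U3 t v 4 =
    v 0 + t 3 * v 2 + t 4 * v 4 + t 5 * v 5 + t 0 * t 6 * v 7 - t 1 * t 5 * v 7 + t 0 * t 7 * v 8 + t 3 * t 5 * v 10 + t 1 * t 8 * v 11 + t 2 * t 8 * v 12 - t 3 * t 7 * v 12 - t 0 * t 5 * t 7 * v 13 - t 1 * t 3 * t 8 * v 13 := rfl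

theorem U3_5 (t : Fin 9 → R) (v : Fin 14 → R) : U3 t v 5 =
    - t 2 * v 2 - t 0 * t 5 * v 7 + t 1 * t 4 * v 7 - t 0 * t 6 * v 8 + t 0 * t 7 * v 10 - t 1 * t 6 * v 10 - t 2 * t 5 * v 10 + t 0 * t 8 * v 11 - 2 * t 1 * t 7 * v 11 - t 1 * t 8 * v 12 + t 2 * t 7 * v 12 - t 0 * t 3 * t 8 * v 13 + t 0 * t 4 * t 7 * v 13 + 2 * t 1 * t 2 * t 8 * v 13 := rfl

theorem U3_6 (t : Fin 9 → R) (v : Fin 14 → R) : U3 t v 6 =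
    t 1 * v 2 + t 2 * v 4 - t 0 * t 4 * v 7 + t 1 * t 3 * v 7 + t 0 * t 5 * v 8 - t 1 * t 4 * v 8 + t 0 * t 6 * v 10 + t 1 * t 5 * v 10 - t 2 * t 4 * v 10 + t 0 * t 7 * v 11 + t 1 * t 6 * v 11 - t 2 * t 5 * v 11 - t 0 * t 5 * t 5 * v 13 - t 1 * t 1 * t 8 * v 13 + t 1 * t 4 * t 5 * v 13 := rfl

theorem U3_7 (t : Fin 9 → R) (v : Fin 14 → R) : U3 t v 7 =
    v 1 + t 4 * v 7 + t 5 * v 8 + t 6 * v 10 + t 7 * v 11 + t 8 * v 12 + t 2 * t 8 * v 13 - t 3 * t 7 * v 13 := rfl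

theorem U3_8 (t : Fin 9 → R) (v : Fin 14 → R) : U3 t v 8 =
    v 2 - t 3 * v 7 + t 5 * v 10 - 2 * t 7 * v 12 - 2 * t 1 * t 8 * v 13 - t 2 * t 7 * v 13 := rfl

theorem U3_9 (t : Fin 9 → R) (v : Fin 14 → R) : U3 t v 9 =
    - v 3 + t 2 * v 7 + t 3 * v 8 + t 4 * v 10 + t 5 * v 11 + t 6 * v 12 + t 2 * t 6 * v 13 - t 3 * t 5 * v 13 := rfl

theorem U3_10 (t : Fin 9 → R) (v : Fin 14 → R) : U3 t v 10 =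
    v 3 - v 4 - t 0 * t 8 * v 13 + 2 * t 1 * t 7 * v 13 := rfl

theorem U3_11 (t : Fin 9 → R) (v : Fin 14 → R) : U3 t v 11 =
    v 5 - 2 * t 1 * v 7 + t 3 * v 10 - t 5 * v 12 - 2 * t 0 * t 7 * v 13 - t 1 * t 6 * v 13 := rfl

theorem U3_12 (t : Fin 9 → R) (v : Fin 14 → R) : U3 t v 12 =
    v 6 + t 0 * v 7 + t 1 * v 8 + t 2 * v 10 + t 3 * v 11 + t 4 * v 12 + t 0 * t 6 * v 13 - t 1 * t 5 * v 13 := rfl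

theorem U3_13 (t : Fin 9 → R) (v : Fin 14 → R) : U3 t v 13 =
    v 9 - v 10 + t 4 * v 13 := rfl

theorem U4_0 (t : Fin 9 → R) (v : Fin 14 → R) : U4 t v 0 =
    t 1 * t 8 * v 3 - t 3 * t 6 * v 3 + t 2 * t 8 * v 5 - t 3 * t 7 * v 5 - t 1 * t 2 * t 8 * v 7 + t 1 * t 3 * t 7 * v 7 - t 0 * t 6 * t 6 * v 8 + t 1 * t 5 * t 6 * v 8 - t 0 * t 6 * t 7 * v 9 + t 1 * t 5 * t 7 * v 9 + t 0 * t 6 * t 7 * v 10 - 2 * t 1 * t 5 * t 7 * v 10 + t 2 * t 5 * t 6 * v 10 + t 0 * t 6 * t 8 * v 11 - t 0 * t 7 * t 7 * v 11 - t 1 * t 5 * t 8 * v 11 + t 2 * t 5 * t 7 * v 11 - t 0 * t 2 * t 7 * t 8 * v 13 + t 0 * t 3 * t 7 * t 7 * v 13 + t 1 * t 1 * t 7 * t 8 * v 13 - t 1 * t 3 * t 6 * t 7 * v 13 := rfl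

theorem U4_1 (t : Fin 9 → R) (v : Fin 14 → R) : U4 t v 1 =
    - t 7 * v 3 + t 7 * v 4 + t 1 * t 8 * v 7 + t 2 * t 7 * v 7 - t 3 * t 6 * v 7 + t 2 * t 8 * v 8 - t 4 * t 6 * v 8 + t 3 * t 8 * v 9 - t 4 * t 7 * v 9 - t 3 * t 8 * v 10 + 2 * t 4 * t 7 * v 10 - t 5 * t 6 * v 10 + t 4 * t 8 * v 11 - t 5 * t 7 * v 11 + t 0 * t 7 * t 8 * v 13 - t 1 * t 7 * t 7 * v 13 := rfl

theorem U4_2 (t : Fin 9 → R) (v : Fin 14 → R) : U4 t v 2 =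
    2 * t 6 * v 3 - t 6 * v 4 + t 7 * v 5 + t 8 * v 6 + t 0 * t 8 * v 7 - 2 * t 1 * t 7 * v 7 + 2 * t 2 * t 8 * v 10 - t 4 * t 6 * v 10 + t 3 * t 8 * v 11 - t 4 * t 7 * v 11 - t 0 * t 6 * t 8 * v 13 - t 0 * t 7 * t 7 * v 13 + 2 * t 1 * t 6 * t 7 * v 13 := rfl

theorem U4_3 (t : Fin 9 → R) (v : Fin 14 → R) : U4 t v 3 =
    - t 6 * v 5 - t 7 * v 6 - t 0 * t 7 * v 7 + t 1 * t 6 * v 7 - t 1 * t 7 * v 8 - t 1 * t 8 * v 9 + t 1 * t 8 * v 10 - 2 * t 2 * t 7 * v 10 - t 2 * t 8 * v 11 + t 0 * t 6 * t 7 * v 13 := rfl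

theorem U4_4 (t : Fin 9 → R) (v : Fin 14 → R) : U4 t v 4 =
    - t 5 * v 3 + t 5 * v 4 + t 0 * t 7 * v 7 - t 1 * t 8 * v 10 + t 3 * t 6 * v 10 + t 3 * t 7 * v 11 + t 3 * t 8 * v 12 + t 0 * t 5 * t 8 * v 13 - t 1 * t 5 * t 7 * v 13 := rfl

theorem U4_5 (t : Fin 9 → R) (v : Fin 14 → R) : U4 t v 5 =
    v 0 + t 4 * v 3 + t 5 * v 5 - t 0 * t 6 * v 7 + t 0 * t 7 * v 8 - t 1 * t 6 * v 8 + t 0 * t 8 * v 9 - t 1 * t 7 * v 9 - t 0 * t 8 * v 10 + 3 * t 1 * t 7 * v 10 - 2 * t 2 * t 6 * v 10 + t 1 * t 8 * v 11 - 2 * t 2 * t 7 * v 11 - t 2 * t 8 * v 12 - t 0 * t 5 * t 7 * v 13 + t 1 * t 4 * t 7 * v 13 := rfl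

theorem U4_6 (t : Fin 9 → R) (v : Fin 14 → R) : U4 t v 6 =
    t 3 * v 3 + t 4 * v 5 + t 5 * v 6 + t 0 * t 5 * v 7 - t 1 * t 4 * v 7 + t 0 * t 6 * v 8 + t 0 * t 7 * v 9 - t 0 * t 7 * v 10 + t 2 * t 5 * v 10 + t 1 * t 7 * v 11 + t 1 * t 8 * v 12 - t 0 * t 4 * t 7 * v 13 + t 1 * t 3 * t 7 * v 13 := rfl

theorem U4_7 (t : Fin 9 → R) (v : Fin 14 → R) : U4 t v 7 =
    t 5 * v 7 + t 6 * v 8 + t 7 * v 9 - 2 * t 7 * v 10 - t 8 * v 11 + t 3 * t 8 * v 13 := rfl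

theorem U4_8 (t : Fin 9 → R) (v : Fin 14 → R) : U4 t v 8 =
    v 1 + t 5 * v 8 + 2 * t 6 * v 10 + 2 * t 7 * v 11 + t 8 * v 12 - t 3 * t 7 * v 13 := rfl

theorem U4_9 (t : Fin 9 → R) (v : Fin 14 → R) : U4 t v 9 =
    t 3 * v 7 + t 4 * v 8 + t 5 * v 9 - t 5 * v 10 + t 7 * v 12 + t 1 * t 8 * v 13 + t 2 * t 7 * v 13 := rfl

theorem U4_10 (t : Fin 9 → R) (v : Fin 14 → R) : U4 t v 10 =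
    v 2 + t 5 * v 10 - t 7 * v 12 - t 1 * t 8 * v 13 := rfl

theorem U4_11 (t : Fin 9 → R) (v : Fin 14 → R) : U4 t v 11 =
    - 2 * v 3 + v 4 + t 4 * v 10 + t 5 * v 11 + t 0 * t 8 * v 13 - 3 * t 1 * t 7 * v 13 := rfl

theorem U4_12 (t : Fin 9 → R) (v : Fin 14 → R) : U4 t v 12 =
    - v 5 + t 1 * v 7 - t 3 * v 10 + t 5 * v 12 + 2 * t 0 * t 7 * v 13 := rfl

theorem U4_13 (t : Fin 9 → R) (v : Fin 14 → R) : U4 t v 13 =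
    - v 8 + t 5 * v 13 := rfl

theorem U5_0 (t : Fin 9 → R) (v : Fin 14 → R) : U5 t v 0 =
    t 2 * t 8 * v 3 - t 3 * t 7 * v 3 - t 0 * t 6 * t 7 * v 8 + t 1 * t 5 * t 7 * v 8 + t 0 * t 6 * t 8 * v 10 - t 0 * t 7 * t 7 * v 10 - t 1 * t 5 * t 8 * v 10 + t 2 * t 5 * t 7 * v 10 + t 1 * t 7 * t 8 * v 12 - t 2 * t 6 * t 8 * v 12 - t 0 * t 2 * t 8 * t 8 * v 13 + t 0 * t 3 * t 7 * t 8 * v 13 + t 1 * t 1 * t 8 * t 8 * v 13 + t 1 * t 2 * t 7 * t 8 * v 13 - t 1 * t 3 * t 6 * t 8 * v 13 - t 1 * t 3 * t 7 * t 7 * v 13 := rfl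

theorem U5_1 (t : Fin 9 → R) (v : Fin 14 → R) : U5 t v 1 =
    - t 8 * v 3 + t 3 * t 8 * v 8 - t 4 * t 7 * v 8 + t 4 * t 8 * v 10 - t 5 * t 7 * v 10 + t 6 * t 8 * v 12 - t 7 * t 7 * v 12 - t 1 * t 7 * t 8 * v 13 - t 2 * t 7 * t 7 * v 13 + t 3 * t 6 * t 7 * v 13 := rfl

theorem U5_2 (t : Fin 9 → R) (v : Fin 14 → R) : U5 t v 2 =
    t 7 * v 3 + t 8 * v 5 + t 3 * t 8 * v 10 - t 4 * t 7 * v 10 + t 6 * t 7 * v 12 - 2 * t 0 * t 7 * t 8 * v 13 + t 1 * t 6 * t 8 * v 13 + 2 * t 1 * t 7 * t 7 * v 13 := rfl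

theorem U5_3 (t : Fin 9 → R) (v : Fin 14 → R) : U5 t v 3 =
    - t 7 * v 5 - t 1 * t 8 * v 8 - t 2 * t 8 * v 10 + t 0 * t 6 * t 8 * v 13 + t 0 * t 7 * t 7 * v 13 - t 1 * t 6 * t 7 * v 13 := rfl

theorem U5_4 (t : Fin 9 → R) (v : Fin 14 → R) : U5 t v 4 =
    t 8 * v 6 + t 3 * t 7 * v 10 + t 3 * t 8 * v 11 + t 4 * t 8 * v 12 - t 5 * t 7 * v 12 + t 0 * t 6 * t 8 * v 13 - t 0 * t 7 * t 7 * v 13 - t 1 * t 5 * t 8 * v 13 := rfl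

theorem U5_5 (t : Fin 9 → R) (v : Fin 14 → R) : U5 t v 5 =
    - t 7 * v 6 + t 0 * t 8 * v 8 - t 1 * t 7 * v 8 + t 1 * t 8 * v 10 - 2 * t 2 * t 7 * v 10 - t 2 * t 8 * v 11 - t 0 * t 5 * t 8 * v 13 + t 0 * t 6 * t 7 * v 13 + t 1 * t 4 * t 8 * v 13 := rfl

theorem U5_6 (t : Fin 9 → R) (v : Fin 14 → R) : U5 t v 6 =
    v 0 + t 4 * v 3 + t 5 * v 5 + t 6 * v 6 + t 0 * t 7 * v 8 + t 1 * t 7 * v 10 + t 1 * t 8 * v 11 + t 2 * t 8 * v 12 - t 0 * t 4 * t 8 * v 13 - t 0 * t 5 * t 7 * v 13 + t 1 * t 3 * t 8 * v 13 + t 1 * t 4 * t 7 * v 13 := rfl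

theorem U5_7 (t : Fin 9 → R) (v : Fin 14 → R) : U5 t v 7 =
    t 7 * v 8 + t 8 * v 9 - t 8 * v 10 + t 4 * t 8 * v 13 - t 5 * t 7 * v 13 := rfl

theorem U5_8 (t : Fin 9 → R) (v : Fin 14 → R) : U5 t v 8 =
    - t 7 * v 9 + 2 * t 7 * v 10 + t 8 * v 11 - t 3 * t 8 * v 13 := rfl

theorem U5_9 (t : Fin 9 → R) (v : Fin 14 → R) : U5 t v 9 =
    v 1 + t 5 * v 8 + t 6 * v 9 + t 2 * t 8 * v 13 - t 3 * t 7 * v 13 := rfl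

theorem U5_10 (t : Fin 9 → R) (v : Fin 14 → R) : U5 t v 10 =
    - t 7 * v 11 - t 8 * v 12 := rfl

theorem U5_11 (t : Fin 9 → R) (v : Fin 14 → R) : U5 t v 11 =
    v 2 + t 5 * v 10 + t 6 * v 11 - t 7 * v 12 - 2 * t 1 * t 8 * v 13 := rfl

theorem U5_12 (t : Fin 9 → R) (v : Fin 14 → R) : U5 t v 12 =
    - v 3 + v 4 + t 6 * v 12 + t 0 * t 8 * v 13 - t 1 * t 7 * v 13 := rfl

theorem U5_13 (t : Fin 9 → R) (v : Fin 14 → R) : U5 t v 13 =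
    v 7 + t 6 * v 13 := rfl

end Pool.Agent.J6H65.Hilb4
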