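import Pool.Agent.J6H65.Hilb4.SC

set_option autoImplicit false
set_option linter.unusedSimpArgs false

namespace Pool.Agent.J6H65.Hilb4

/-- The quartic algebra with given structure constants. -/
def QA {R : Type*} [CommRing R] (_s : SC R) : Type _ := Fin 4 → R

namespace QA

variable {R : Type*} [CommRing R] (s : SC R)

instance : AddCommGroup (QA s) := inferInstanceAs (AddCommGroup (Fin 4 → R))

instance : Module R (QA s) := inferInstanceAs (Module R (Fin 4 → R))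

/-- Multiplication with given structure constants. -/
def mulq (a b : Fin 4 → R) : Fin 4 → R := ![
  a 0 * b 0 + a 1 * b 1 * s.c11_0 + (a 1 * b 2 + a 2 * b 1) * s.c12_0 + (a 1 * b 3 + a 3 * b 1) * s.c13_0 + a 2 * b 2 * s.c22_0 + (a 2 * b 3 + a 3 * b 2) * s.c23_0 + a 3 * b 3 * s.c33_0,
  a 0 * b 1 + a 1 * b 0 + a 1 * b 1 * s.c11_1 + (a 1 * b 2 + a 2 * b 1) * s.c12_1 + (a 1 * b 3 + a 3 * b 1) * s.c13_1 + a 2 * b 2 * s.c22_1 + (a 2 * b 3 + a 3 * b 2) * s.c23_1 + a 3 * b 3 * s.c33_1,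
  a 0 * b 2 + a 2 * b 0 + a 1 * b 1 * s.c11_2 + (a 1 * b 2 + a 2 * b 1) * s.c12_2 + (a 1 * b 3 + a 3 * b 1) * s.c13_2 + a 2 * b 2 * s.c22_2 + (a 2 * b 3 + a 3 * b 2) * s.c23_2 + a 3 * b 3 * s.c33_2,
  a 0 * b 3 + a 3 * b 0 + a 1 * b 1 * s.c11_3 + (a 1 * b 2 + a 2 * b 1) * s.c12_3 + (a 1 * b 3 + a 3 * b 1) * s.c13_3 + a 2 * b 2 * s.c22_3 + (a 2 * b 3 + a 3 * b 2) * s.c23_3 + a 3 * b 3 * s.c33_3]

theorem mulq_0 (a b : Fin 4 → R) : mulq s a b 0 = a 0 * b 0 + a 1 * b 1 * s.c11_0 + (a 1 * b 2 + a 2 * b 1) * s.c12_0 + (a 1 * b 3 + a 3 * b 1) * s.c13_0 + a 2 * b 2 * s.c22_0 + (a 2 * b 3 + a 3 * b 2) * s.c23_0 + a 3 * b 3 * s.c33_0 := rfl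

theorem mulq_1 (a b : Fin 4 → R) : mulq s a b 1 = a 0 * b 1 + a 1 * b 0 + a 1 * b 1 * s.c11_1 + (a 1 * b 2 + a 2 * b 1) * s.c12_1 + (a 1 * b 3 + a 3 * b 1) * s.c13_1 + a 2 * b 2 * s.c22_1 + (a 2 * b 3 + a 3 * b 2) * s.c23_1 + a 3 * b 3 * s.c33_1 := rfl

theorem mulq_2 (a b : Fin 4 → R) : mulq s a b 2 = a 0 * b 2 + a 2 * b 0 + a 1 * b 1 * s.c11_2 + (a 1 * b 2 + a 2 * b 1) * s.c12_2 + (a 1 * b 3 + a 3 * b 1) * s.c13_2 + a 2 * b 2 * s.c22_2 + (a 2 * b 3 + a 3 * b 2) * s.c23_2 + a 3 * b 3 * s.c33_2 := rfl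

theorem mulq_3 (a b : Fin 4 → R) : mulq s a b 3 = a 0 * b 3 + a 3 * b 0 + a 1 * b 1 * s.c11_3 + (a 1 * b 2 + a 2 * b 1) * s.c12_3 + (a 1 * b 3 + a 3 * b 1) * s.c13_3 + a 2 * b 2 * s.c22_3 + (a 2 * b 3 + a 3 * b 2) * s.c23_3 + a 3 * b 3 * s.c33_3 := rfl

theorem mulq_assoc_0 (a b c : Fin 4 → R) : mulq s (mulq s a b) c 0 = mulq s a (mulq s b c) 0 := by
  simp only [mulq_0, mulq_1, mulq_2, mulq_3]
  linear_combination (a 1 * b 1 * c 2) * s.a112_0 + (a 1 * b 1 * c 3) * s.a113_0 + (-(a 1 * b 2 * c 2)) * s.a221_0 + (a 1 * b 2 * c 3) * s.a123_0 + (a 1 * b 3 * c 2) * s.a123_0 + (-(a 1 * b 3 * c 2)) * s.a132_0 + (-(a 1 * b 3 * c 3)) * s.a331_0 + (-(a 2 * b 1 * c 1)) * s.a112_0 + (a 2 * b 1 * c 3) * s.a132_0 + (a 2 * b 2 * c 1) * s.a221_0 + (a 2 * b 2 * c 3) * s.a223_0 + (a 2 * b 3 * c 1) * s.a132_0 + (-(a 2 * b 3 * c 1)) * s.a123_0 + (-(a 2 * b 3 * c 3)) * s.a332_0 + (-(a 3 * b 1 * c 1)) * s.a113_0 + (-(a 3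 * b 1 * c 2)) * s.a132_0 + (-(a 3 * b 2 * c 1)) * s.a123_0 + (-(a 3 * b 2 * c 2)) * s.a223_0 + (a 3 * b 3 * c 1) * s.a331_0 + (a 3 * b 3 * c 2) * s.a332_0

theorem mulq_assoc_1 (a b c : Fin 4 → R) : mulq s (mulq s a b) c 1 = mulq s a (mulq s b c) 1 := by
  simp only [mulq_0, mulq_1, mulq_2, mulq_3]
  linear_combination (a 1 * b 1 * c 2) * s.a112_1 + (a 1 * b 1 * c 3) * s.a113_1 + (-(a 1 * b 2 * c 2)) * s.a221_1 + (a 1 * b 2 * c 3) * s.a123_1 + (a 1 * b 3 * c 2) * s.a123_1 + (-(a 1 * b 3 * c 2)) * s.a132_1 + (-(a 1 * b 3 * c 3)) * s.a331_1 + (-(a 2 * b 1 * c 1)) * s.a112_1 + (a 2 * b 1 * c 3) * s.a132_1 + (a 2 * b 2 * c 1) * s.a221_1 + (a 2 * b 2 * c 3) * s.a223_1 + (a 2 * b 3 * c 1) * s.a132_1 + (-(a 2 * b 3 * c 1)) * s.a123_1 + (-(a 2 * b 3 * c 3)) * s.a332_1 + (-(a 3 * b 1 * c 1)) * s.a113_1 + (-(a 3 * b 1 * c 2)) * s.a132_1 + (-(a 3 * b 2 * c 1)) * s.a123_1 + (-(a 3 * b 2 * c 2)) * s.a223_1 + (a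 3 * b 3 * c 1) * s.a331_1 + (a 3 * b 3 * c 2) * s.a332_1

theorem mulq_assoc_2 (a b c : Fin 4 → R) : mulq s (mulq s a b) c 2 = mulq s a (mulq s b c) 2 := by
  simp only [mulq_0, mulq_1, mulq_2, mulq_3]
  linear_combination (a 1 * b 1 * c 2) * s.a112_2 + (a 1 * b 1 * c 3) * s.a113_2 + (-(a 1 * b 2 * c 2)) * s.a221_2 + (a 1 * b 2 * c 3) * s.a123_2 + (a 1 * b 3 * c 2) * s.a123_2 + (-(a 1 * b 3 * c 2)) * s.a132_2 + (-(a 1 * b 3 * c 3)) * s.a331_2 + (-(a 2 * b 1 * c 1)) * s.a112_2 + (a 2 * b 1 * c 3) * s.a132_2 + (a 2 * b 2 * c 1) * s.a221_2 + (a 2 * b 2 * c 3) * s.a223_2 + (a 2 * b 3 * c 1) * s.a132_2 + (-(a 2 * b 3 * c 1)) * s.a123_2 + (-(a 2 * b 3 * c 3)) * s.a332_2 + (-(a 3 * b 1 * c 1)) * s.a113_2 + (-(a 3 * b 1 * c 2)) * s.a132_2 + (-(a 3 * b 2 * c 1)) * s.a123_2 + (-(a 3 * b 2 * c 2)) * s.a223_2 + (a 3 * b 3 * c 1) * s.a331_2 + (a 3 * b 3 * c 2) * s.a332_2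

theorem mulq_assoc_3 (a b c : Fin 4 → R) : mulq s (mulq s a b) c 3 = mulq s a (mulq s b c) 3 := by
  simp only [mulq_0, mulq_1, mulq_2, mulq_3]
  linear_combination (a 1 * b 1 * c 2) * s.a112_3 + (a 1 * b 1 * c 3) * s.a113_3 + (-(a 1 * b 2 * c 2)) * s.a221_3 + (a 1 * b 2 * c 3) * s.a123_3 + (a 1 * b 3 * c 2) * s.a123_3 + (-(a 1 * b 3 * c 2)) * s.a132_3 + (-(a 1 * b 3 * c 3)) * s.a331_3 + (-(a 2 * b 1 * c 1)) * s.a112_3 + (a 2 * b 1 * c 3) * s.a132_3 + (a 2 * b 2 * c 1) * s.a221_3 + (a 2 * b 2 * c 3) * s.a223_3 + (a 2 * b 3 * c 1) * s.a132_3 + (-(a 2 * b 3 * c 1)) * s.a123_3 + (-(a 2 * b 3 * c 3)) * s.a332_3 + (-(a 3 * b 1 * c 1)) * s.a113_3 + (-(a 3 * b 1 * c 2)) * s.a132_3 + (-(a 3 * b 2 * c 1)) * s.a123_3 + (-(a 3 * b 2 * c 2)) * s.a223_3 + (a 3 * b 3 * c 1) * s.a331_3 + (a 3 * b 3 * c 2) * s.a332_3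

theorem mulq_assoc (a b c : Fin 4 → R) : mulq s (mulq s a b) c = mulq s a (mulq s b c) := by
  funext i
  fin_cases i
  exacts [mulq_assoc_0 s a b c, mulq_assoc_1 s a b c, mulq_assoc_2 s a b c, mulq_assoc_3 s a b c]

theorem mulq_comm (a b : Fin 4 → R) : mulq s a b = mulq s b a := by
  funext i
  fin_cases i
  · change mulq s a b 0 = mulq s b a 0
    rw [mulq_0, mulq_0]; ring
  · change mulq s a b 1 = mulq s b a 1
    rw [mulq_1, mulq_1]; ring
  · change mulq s a b 2 = mulq s b a 2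
    rw [mulq_2, mulq_2]; ring
  · change mulq s a b 3 = mulq s b a 3
    rw [mulq_3, mulq_3]; ring

/-- The unit element. -/
def oneq (R : Type*) [CommRing R] : Fin 4 → R := ![1, 0, 0, 0]

theorem oneq_0 : oneq R 0 = 1 := rfl
theorem oneq_1 : oneq R 1 = 0 := rfl
theorem oneq_2 : oneq R 2 = 0 := rfl
theorem oneq_3 : oneq R 3 = 0 := rfl

theorem one_mulq (a : Fin 4 → R) : mulq s (oneq R) a = a := by
  funext i
  fin_cases i
  · change mulq s (oneq R) a 0 = a 0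
    rw [mulq_0, oneq_0, oneq_1, oneq_2, oneq_3]; ring
  · change mulq s (oneq R) a 1 = a 1
    rw [mulq_1, oneq_0, oneq_1, oneq_2, oneq_3]; ring
  · change mulq s (oneq R) a 2 = a 2
    rw [mulq_2, oneq_0, oneq_1, oneq_2, oneq_3]; ring
  · change mulq s (oneq R) a 3 = a 3
    rw [mulq_3, oneq_0, oneq_1, oneq_2, oneq_3]; ring

theorem mulq_add (a b c : Fin 4 → R) : mulq s a (b + c) = mulq s a b + mulq s a c := by
  funext i
  fin_cases i
  · change mulq s a (b + c) 0 = mulq s a b 0 + mulq s a c 0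
    simp only [mulq_0, Pi.add_apply]; ring
  · change mulq s a (b + c) 1 = mulq s a b 1 + mulq s a c 1
    simp only [mulq_1, Pi.add_apply]; ring
  · change mulq s a (b + c) 2 = mulq s a b 2 + mulq s a c 2
    simp only [mulq_2, Pi.add_apply]; ring
  · change mulq s a (b + c) 3 = mulq s a b 3 + mulq s a c 3
    simp only [mulq_3, Pi.add_apply]; ring

theorem smul_mulq (r : R) (a b : Fin 4 → R) : mulq s (r • a) b = r • mulq s a b := by
  funext i
  fin_cases i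
  · change mulq s (r • a) b 0 = r * mulq s a b 0
    simp only [mulq_0, Pi.smul_apply, smul_eq_mul]; ring
  · change mulq s (r • a) b 1 = r * mulq s a b 1
    simp only [mulq_1, Pi.smul_apply, smul_eq_mul]; ring
  · change mulq s (r • a) b 2 = r * mulq s a b 2
    simp only [mulq_2, Pi.smul_apply, smul_eq_mul]; ring
  · change mulq s (r • a) b 3 = r * mulq s a b 3
    simp only [mulq_3, Pi.smul_apply, smul_eq_mul]; ring

theorem add_mulq (a b c : Fin 4 → R) : mulq s (a + b) c = mulq s a c + mulq s b c := by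
  rw [mulq_comm s (a + b) c, mulq_add, mulq_comm s c a, mulq_comm s c b]

theorem mulq_smul (r : R) (a b : Fin 4 → R) : mulq s a (r • b) = r • mulq s a b := by
  rw [mulq_comm s a, smul_mulq, mulq_comm s b a]

theorem zero_mulq (a : Fin 4 → R) : mulq s 0 a = 0 := by
  have := smul_mulq s 0 0 a
  rwa [zero_smul, zero_smul] at this

instance : CommRing (QA s) :=
  { (inferInstance : AddCommGroup (QA s)) with
    mul := mulq s
    one := oneq R
    mul_assoc := mulq_assoc s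
    one_mul := one_mulq s
    mul_one := fun a => (mulq_comm s a (oneq R)).trans (one_mulq s a)
    left_distrib := mulq_add s
    right_distrib := add_mulq s
    zero_mul := zero_mulq s
    mul_zero := fun a => (mulq_comm s a 0).trans (zero_mulq s a)
    mul_comm := mulq_comm s }

theorem mul_def (a b : QA s) : a * b = mulq s a b := rfl

theorem one_def : (1 : QA s) = oneq R := rfl

noncomputable instance : Algebra R (QA s) := Algebra.ofModule (smul_mulq s)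
  (fun r a b => mulq_smul s r a b)

/-- The standard basis. -/
noncomputable def basis : Module.Basis (Fin 4) R (QA s) := Pi.basisFun R (Fin 4)

theorem basis_repr (v : QA s) (i : Fin 4) : (basis s).repr v i = v i := rfl

theorem basis_apply (i j : Fin 4) : (basis s i : Fin 4 → R) j = if i = j then 1 else 0 := by
  change (Pi.basisFun R (Fin 4) i : Fin 4 → R) j = _
  rw [Pi.basisFun_apply, Pi.single_apply]
  simp only [eq_comm]

theorem basis_zero : basis s 0 = 1 := by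
  funext j
  rw [basis_apply]
  fin_cases j <;> rfl

instance : Module.Free R (QA s) := Module.Free.of_basis (basis s)

instance : Module.Finite R (QA s) := Module.Finite.of_basis (basis s)

end QA

/-- The elements `e` multiply according to the structure constants `s`. -/
structure IsSC {R A : Type*} [CommRing R] [CommRing A] [Algebra R A] (s : SC R) (e : Fin 3 → A) : Prop where
  h11 : e 0 * e 0 = algebraMap R A s.c11_0 + algebraMap R A s.c11_1 * e 0 + algebraMap R A s.c11_2 * e 1 + algebraMap R A s.c11_3 * e 2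
  h12 : e 0 * e 1 = algebraMap R A s.c12_0 + algebraMap R A s.c12_1 * e 0 + algebraMap R A s.c12_2 * e 1 + algebraMap R A s.c12_3 * e 2
  h13 : e 0 * e 2 = algebraMap R A s.c13_0 + algebraMap R A s.c13_1 * e 0 + algebraMap R A s.c13_2 * e 1 + algebraMap R A s.c13_3 * e 2
  h22 : e 1 * e 1 = algebraMap R A s.c22_0 + algebraMap R A s.c22_1 * e 0 + algebraMap R A s.c22_2 * e 1 + algebraMap R A s.c22_3 * e 2
  h23 : e 1 * e 2 = algebraMap R A s.c23_0 + algebraMap R A s.c23_1 * e 0 + algebraMap R A s.c23_2 * e 1 + algebraMap R A s.c23_3 * e 2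
  h33 : e 2 * e 2 = algebraMap R A s.c33_0 + algebraMap R A s.c33_1 * e 0 + algebraMap R A s.c33_2 * e 1 + algebraMap R A s.c33_3 * e 2

namespace IsSC

variable {R S A B : Type*} [CommRing R] [CommRing S] [CommRing A] [CommRing B]
  [Algebra R A] [Algebra S B]

theorem map {s : SC R} {e : Fin 3 → A} (h : IsSC s e) (f : R →+* S) (g : A →+* B)
    (hfg : ∀ r, g (algebraMap R A r) = algebraMap S B (f r)) : IsSC (s.map f) (fun i => g (e i)) where
  h11 := by simpa only [map_add, map_mul, hfg, SC.map] using congrArg g h.h11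
  h12 := by simpa only [map_add, map_mul, hfg, SC.map] using congrArg g h.h12
  h13 := by simpa only [map_add, map_mul, hfg, SC.map] using congrArg g h.h13
  h22 := by simpa only [map_add, map_mul, hfg, SC.map] using congrArg g h.h22
  h23 := by simpa only [map_add, map_mul, hfg, SC.map] using congrArg g h.h23
  h33 := by simpa only [map_add, map_mul, hfg, SC.map] using congrArg g h.h33

/-- The linear combination with given coordinates. -/
def comb (e : Fin 3 → A) (v : Fin 4 → R) : A :=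
  algebraMap R A (v 0) + algebraMap R A (v 1) * e 0 + algebraMap R A (v 2) * e 1 +
    algebraMap R A (v 3) * e 2

theorem comb_add (e : Fin 3 → A) (v w : Fin 4 → R) : comb e (v + w) = comb e v + comb e w := by
  simp only [comb, Pi.add_apply, map_add]
  ring

theorem comb_smul (e : Fin 3 → A) (r : R) (v : Fin 4 → R) : comb e (r • v) = r • comb e v := by
  simp only [comb, Pi.smul_apply, smul_eq_mul, map_mul, Algebra.smul_def]
  ring

theorem comb_one (e : Fin 3 → A) : comb e (QA.oneq R) = 1 := by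
  simp only [comb, QA.oneq_0, QA.oneq_1, QA.oneq_2, QA.oneq_3, map_one, map_zero]
  ring

theorem comb_mul {s : SC R} {e : Fin 3 → A} (h : IsSC s e) (v w : Fin 4 → R) :
    comb e (QA.mulq s v w) = comb e v * comb e w := by
  simp only [comb, QA.mulq_0, QA.mulq_1, QA.mulq_2, QA.mulq_3, map_add, map_mul]
  linear_combination (-(algebraMap R A (v 1) * algebraMap R A (w 1))) * h.h11 + (-(algebraMap R A (v 1) * algebraMap R A (w 2) + algebraMap R A (v 2) * algebraMap R A (w 1))) * h.h12 + (-(algebraMap R A (v 1) * algebraMap R A (w 3) + algebraMap R A (v 3) * algebraMap R A (w 1))) * h.h13 + (-(algebraMap R A (v 2) * algebraMap R A (w 2))) * h.h22 + (-(algebraMap R A (v 2) * algebraMap R A (w 3) + algebraMap R A (v 3) * algebraMap R A (w 2))) * h.h23 + (-(algebraMap R A (v 3) * algebraMap R A (w 3))) * h.h33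

/-- The algebra map from the model. -/
noncomputable def lift {s : SC R} {e : Fin 3 → A} (h : IsSC s e) : QA s →ₐ[R] A :=
  AlgHom.ofLinearMap
    { toFun := comb e
      map_add' := comb_add e
      map_smul' := comb_smul e }
    (comb_one e) (comb_mul h)

theorem lift_apply {s : SC R} {e : Fin 3 → A} (h : IsSC s e) (v : QA s) :
    h.lift v = comb e v := rfl

end IsSC

/-- The standard basis vectors. -/
def QA.bq (R : Type*) [CommRing R] (i : Fin 4) : Fin 4 → R := fun j => if i = j then 1 else 0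

theorem QA.basis_eq {R : Type*} [CommRing R] (s : SC R) (i : Fin 4) :
    QA.basis s i = (QA.bq R i : QA s) := funext fun j => QA.basis_apply s i j

theorem QA.bq_apply (R : Type*) [CommRing R] (i j : Fin 4) :
    QA.bq R i j = if i = j then 1 else 0 := rfl

theorem QA.mulq_bq_11 {R : Type*} [CommRing R] (s : SC R) :
    QA.mulq s (QA.bq R 1) (QA.bq R 1) = s.c11_0 • QA.bq R 0 + s.c11_1 • QA.bq R 1 +
      s.c11_2 • QA.bq R 2 + s.c11_3 • QA.bq R 3 := by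
  funext l
  fin_cases l
  · change QA.mulq s (QA.bq R 1) (QA.bq R 1) 0 = s.c11_0 * QA.bq R 0 0 +
        s.c11_1 * QA.bq R 1 0 + s.c11_2 * QA.bq R 2 0 +
        s.c11_3 * QA.bq R 3 0
    rw [QA.mulq_0]
    simp only [QA.bq_apply]
    simp
  · change QA.mulq s (QA.bq R 1) (QA.bq R 1) 1 = s.c11_0 * QA.bq R 0 1 +
        s.c11_1 * QA.bq R 1 1 + s.c11_2 * QA.bq R 2 1 +
        s.c11_3 * QA.bq R 3 1
    rw [QA.mulq_1]
    simp only [QA.bq_apply]
    simp
  · change QA.mulq s (QA.bq R 1) (QA.bq R 1) 2 = s.c11_0 * QA.bq R 0 2 +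
        s.c11_1 * QA.bq R 1 2 + s.c11_2 * QA.bq R 2 2 +
        s.c11_3 * QA.bq R 3 2
    rw [QA.mulq_2]
    simp only [QA.bq_apply]
    simp
  · change QA.mulq s (QA.bq R 1) (QA.bq R 1) 3 = s.c11_0 * QA.bq R 0 3 +
        s.c11_1 * QA.bq R 1 3 + s.c11_2 * QA.bq R 2 3 +
        s.c11_3 * QA.bq R 3 3
    rw [QA.mulq_3]
    simp only [QA.bq_apply]
    simp

theorem QA.mulq_bq_12 {R : Type*} [CommRing R] (s : SC R) :
    QA.mulq s (QA.bq R 1) (QA.bq R 2) = s.c12_0 • QA.bq R 0 + s.c12_1 • QA.bq R 1 +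
      s.c12_2 • QA.bq R 2 + s.c12_3 • QA.bq R 3 := by
  funext l
  fin_cases l
  · change QA.mulq s (QA.bq R 1) (QA.bq R 2) 0 = s.c12_0 * QA.bq R 0 0 +
        s.c12_1 * QA.bq R 1 0 + s.c12_2 * QA.bq R 2 0 +
        s.c12_3 * QA.bq R 3 0
    rw [QA.mulq_0]
    simp only [QA.bq_apply]
    simp
  · change QA.mulq s (QA.bq R 1) (QA.bq R 2) 1 = s.c12_0 * QA.bq R 0 1 +
        s.c12_1 * QA.bq R 1 1 + s.c12_2 * QA.bq R 2 1 +
        s.c12_3 * QA.bq R 3 1
    rw [QA.mulq_1]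
    simp only [QA.bq_apply]
    simp
  · change QA.mulq s (QA.bq R 1) (QA.bq R 2) 2 = s.c12_0 * QA.bq R 0 2 +
        s.c12_1 * QA.bq R 1 2 + s.c12_2 * QA.bq R 2 2 +
        s.c12_3 * QA.bq R 3 2
    rw [QA.mulq_2]
    simp only [QA.bq_apply]
    simp
  · change QA.mulq s (QA.bq R 1) (QA.bq R 2) 3 = s.c12_0 * QA.bq R 0 3 +
        s.c12_1 * QA.bq R 1 3 + s.c12_2 * QA.bq R 2 3 +
        s.c12_3 * QA.bq R 3 3
    rw [QA.mulq_3]
    simp only [QA.bq_apply]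
    simp

theorem QA.mulq_bq_13 {R : Type*} [CommRing R] (s : SC R) :
    QA.mulq s (QA.bq R 1) (QA.bq R 3) = s.c13_0 • QA.bq R 0 + s.c13_1 • QA.bq R 1 +
      s.c13_2 • QA.bq R 2 + s.c13_3 • QA.bq R 3 := by
  funext l
  fin_cases l
  · change QA.mulq s (QA.bq R 1) (QA.bq R 3) 0 = s.c13_0 * QA.bq R 0 0 +
        s.c13_1 * QA.bq R 1 0 + s.c13_2 * QA.bq R 2 0 +
        s.c13_3 * QA.bq R 3 0
    rw [QA.mulq_0]
    simp only [QA.bq_apply]
    simp
  · change QA.mulq s (QA.bq R 1) (QA.bq R 3) 1 = s.c13_0 * QA.bq R 0 1 +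
        s.c13_1 * QA.bq R 1 1 + s.c13_2 * QA.bq R 2 1 +
        s.c13_3 * QA.bq R 3 1
    rw [QA.mulq_1]
    simp only [QA.bq_apply]
    simp
  · change QA.mulq s (QA.bq R 1) (QA.bq R 3) 2 = s.c13_0 * QA.bq R 0 2 +
        s.c13_1 * QA.bq R 1 2 + s.c13_2 * QA.bq R 2 2 +
        s.c13_3 * QA.bq R 3 2
    rw [QA.mulq_2]
    simp only [QA.bq_apply]
    simp
  · change QA.mulq s (QA.bq R 1) (QA.bq R 3) 3 = s.c13_0 * QA.bq R 0 3 +
        s.c13_1 * QA.bq R 1 3 + s.c13_2 * QA.bq R 2 3 +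
        s.c13_3 * QA.bq R 3 3
    rw [QA.mulq_3]
    simp only [QA.bq_apply]
    simp

theorem QA.mulq_bq_22 {R : Type*} [CommRing R] (s : SC R) :
    QA.mulq s (QA.bq R 2) (QA.bq R 2) = s.c22_0 • QA.bq R 0 + s.c22_1 • QA.bq R 1 +
      s.c22_2 • QA.bq R 2 + s.c22_3 • QA.bq R 3 := by
  funext l
  fin_cases l
  · change QA.mulq s (QA.bq R 2) (QA.bq R 2) 0 = s.c22_0 * QA.bq R 0 0 +
        s.c22_1 * QA.bq R 1 0 + s.c22_2 * QA.bq R 2 0 +
        s.c22_3 * QA.bq R 3 0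
    rw [QA.mulq_0]
    simp only [QA.bq_apply]
    simp
  · change QA.mulq s (QA.bq R 2) (QA.bq R 2) 1 = s.c22_0 * QA.bq R 0 1 +
        s.c22_1 * QA.bq R 1 1 + s.c22_2 * QA.bq R 2 1 +
        s.c22_3 * QA.bq R 3 1
    rw [QA.mulq_1]
    simp only [QA.bq_apply]
    simp
  · change QA.mulq s (QA.bq R 2) (QA.bq R 2) 2 = s.c22_0 * QA.bq R 0 2 +
        s.c22_1 * QA.bq R 1 2 + s.c22_2 * QA.bq R 2 2 +
        s.c22_3 * QA.bq R 3 2
    rw [QA.mulq_2]
    simp only [QA.bq_apply]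
    simp
  · change QA.mulq s (QA.bq R 2) (QA.bq R 2) 3 = s.c22_0 * QA.bq R 0 3 +
        s.c22_1 * QA.bq R 1 3 + s.c22_2 * QA.bq R 2 3 +
        s.c22_3 * QA.bq R 3 3
    rw [QA.mulq_3]
    simp only [QA.bq_apply]
    simp

theorem QA.mulq_bq_23 {R : Type*} [CommRing R] (s : SC R) :
    QA.mulq s (QA.bq R 2) (QA.bq R 3) = s.c23_0 • QA.bq R 0 + s.c23_1 • QA.bq R 1 +
      s.c23_2 • QA.bq R 2 + s.c23_3 • QA.bq R 3 := by
  funext l
  fin_cases l
  · change QA.mulq s (QA.bq R 2) (QA.bq R 3) 0 = s.c23_0 * QA.bq R 0 0 +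
        s.c23_1 * QA.bq R 1 0 + s.c23_2 * QA.bq R 2 0 +
        s.c23_3 * QA.bq R 3 0
    rw [QA.mulq_0]
    simp only [QA.bq_apply]
    simp
  · change QA.mulq s (QA.bq R 2) (QA.bq R 3) 1 = s.c23_0 * QA.bq R 0 1 +
        s.c23_1 * QA.bq R 1 1 + s.c23_2 * QA.bq R 2 1 +
        s.c23_3 * QA.bq R 3 1
    rw [QA.mulq_1]
    simp only [QA.bq_apply]
    simp
  · change QA.mulq s (QA.bq R 2) (QA.bq R 3) 2 = s.c23_0 * QA.bq R 0 2 +
        s.c23_1 * QA.bq R 1 2 + s.c23_2 * QA.bq R 2 2 +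
        s.c23_3 * QA.bq R 3 2
    rw [QA.mulq_2]
    simp only [QA.bq_apply]
    simp
  · change QA.mulq s (QA.bq R 2) (QA.bq R 3) 3 = s.c23_0 * QA.bq R 0 3 +
        s.c23_1 * QA.bq R 1 3 + s.c23_2 * QA.bq R 2 3 +
        s.c23_3 * QA.bq R 3 3
    rw [QA.mulq_3]
    simp only [QA.bq_apply]
    simp

theorem QA.mulq_bq_33 {R : Type*} [CommRing R] (s : SC R) :
    QA.mulq s (QA.bq R 3) (QA.bq R 3) = s.c33_0 • QA.bq R 0 + s.c33_1 • QA.bq R 1 +
      s.c33_2 • QA.bq R 2 + s.c33_3 • QA.bq R 3 := by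
  funext l
  fin_cases l
  · change QA.mulq s (QA.bq R 3) (QA.bq R 3) 0 = s.c33_0 * QA.bq R 0 0 +
        s.c33_1 * QA.bq R 1 0 + s.c33_2 * QA.bq R 2 0 +
        s.c33_3 * QA.bq R 3 0
    rw [QA.mulq_0]
    simp only [QA.bq_apply]
    simp
  · change QA.mulq s (QA.bq R 3) (QA.bq R 3) 1 = s.c33_0 * QA.bq R 0 1 +
        s.c33_1 * QA.bq R 1 1 + s.c33_2 * QA.bq R 2 1 +
        s.c33_3 * QA.bq R 3 1
    rw [QA.mulq_1]
    simp only [QA.bq_apply]
    simp
  · change QA.mulq s (QA.bq R 3) (QA.bq R 3) 2 = s.c33_0 * QA.bq R 0 2 +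
        s.c33_1 * QA.bq R 1 2 + s.c33_2 * QA.bq R 2 2 +
        s.c33_3 * QA.bq R 3 2
    rw [QA.mulq_2]
    simp only [QA.bq_apply]
    simp
  · change QA.mulq s (QA.bq R 3) (QA.bq R 3) 3 = s.c33_0 * QA.bq R 0 3 +
        s.c33_1 * QA.bq R 1 3 + s.c33_2 * QA.bq R 2 3 +
        s.c33_3 * QA.bq R 3 3
    rw [QA.mulq_3]
    simp only [QA.bq_apply]
    simp

theorem QA.isSC {R : Type*} [CommRing R] (s : SC R) :
    IsSC s (fun i : Fin 3 => (QA.basis s) i.succ) where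
  h11 := by
    change QA.basis s 1 * QA.basis s 1 = _ + _ * QA.basis s 1 + _ * QA.basis s 2 + _ * QA.basis s 3
    rw [Algebra.algebraMap_eq_smul_one, ← QA.basis_zero, ← Algebra.smul_def, ← Algebra.smul_def,
      ← Algebra.smul_def]
    rw [QA.basis_eq, QA.basis_eq, QA.basis_eq, QA.basis_eq]
    exact QA.mulq_bq_11 s
  h12 := by
    change QA.basis s 1 * QA.basis s 2 = _ + _ * QA.basis s 1 + _ * QA.basis s 2 + _ * QA.basis s 3
    rw [Algebra.algebraMap_eq_smul_one, ← QA.basis_zero, ← Algebra.smul_def, ← Algebra.smul_def,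
      ← Algebra.smul_def]
    rw [QA.basis_eq, QA.basis_eq, QA.basis_eq, QA.basis_eq]
    exact QA.mulq_bq_12 s
  h13 := by
    change QA.basis s 1 * QA.basis s 3 = _ + _ * QA.basis s 1 + _ * QA.basis s 2 + _ * QA.basis s 3
    rw [Algebra.algebraMap_eq_smul_one, ← QA.basis_zero, ← Algebra.smul_def, ← Algebra.smul_def,
      ← Algebra.smul_def]
    rw [QA.basis_eq, QA.basis_eq, QA.basis_eq, QA.basis_eq]
    exact QA.mulq_bq_13 s
  h22 := by
    change QA.basis s 2 * QA.basis s 2 = _ + _ * QA.basis s 1 + _ * QA.basis s 2 + _ * QA.basis s 3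
    rw [Algebra.algebraMap_eq_smul_one, ← QA.basis_zero, ← Algebra.smul_def, ← Algebra.smul_def,
      ← Algebra.smul_def]
    rw [QA.basis_eq, QA.basis_eq, QA.basis_eq, QA.basis_eq]
    exact QA.mulq_bq_22 s
  h23 := by
    change QA.basis s 2 * QA.basis s 3 = _ + _ * QA.basis s 1 + _ * QA.basis s 2 + _ * QA.basis s 3
    rw [Algebra.algebraMap_eq_smul_one, ← QA.basis_zero, ← Algebra.smul_def, ← Algebra.smul_def,
      ← Algebra.smul_def]
    rw [QA.basis_eq, QA.basis_eq, QA.basis_eq, QA.basis_eq]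
    exact QA.mulq_bq_23 s
  h33 := by
    change QA.basis s 3 * QA.basis s 3 = _ + _ * QA.basis s 1 + _ * QA.basis s 2 + _ * QA.basis s 3
    rw [Algebra.algebraMap_eq_smul_one, ← QA.basis_zero, ← Algebra.smul_def, ← Algebra.smul_def,
      ← Algebra.smul_def]
    rw [QA.basis_eq, QA.basis_eq, QA.basis_eq, QA.basis_eq]
    exact QA.mulq_bq_33 s

end Pool.Agent.J6H65.Hilb4
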