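import Pool.Agent.J6H65.Hilb4.QA

set_option autoImplicit false
set_option linter.unusedSimpArgs false

namespace Pool.Agent.J6H65.Hilb4

namespace Fr

variable {R A : Type*} [CommRing R] [CommRing A] [Algebra R A] (b : Module.Basis (Fin 4) R A)

/-- Structure constants of a basis. -/
noncomputable def C (i j m : Fin 4) : R := b.repr (b i * b j) m

theorem C_comm (i j m : Fin 4) : C b i j m = C b j i m := by
  unfold C
  rw [mul_comm]

theorem mul_eq (i j : Fin 4) : b i * b j = C b i j 0 • b 0 + C b i j 1 • b 1 + C b i j 2 • b 2 +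
    C b i j 3 • b 3 := by
  have := (b.sum_repr (b i * b j)).symm
  rw [Fin.sum_univ_four] at this
  exact this

theorem repr_comb (r0 r1 r2 r3 : R) (m : Fin 4) :
    b.repr (r0 • b 0 + r1 • b 1 + r2 • b 2 + r3 • b 3) m =
      r0 * (if 0 = m then 1 else 0) + r1 * (if 1 = m then 1 else 0) +
        r2 * (if 2 = m then 1 else 0) + r3 * (if 3 = m then 1 else 0) := by
  simp only [map_add, map_smul, Module.Basis.repr_self, Finsupp.add_apply, Finsupp.smul_apply,
    smul_eq_mul, Finsupp.single_apply]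

theorem assoc_coord (i j k m : Fin 4) : b.repr (b i * b j * b k) m =
    C b i j 0 * C b 0 k m + C b i j 1 * C b 1 k m + C b i j 2 * C b 2 k m +
      C b i j 3 * C b 3 k m := by
  rw [mul_eq b i j]
  simp only [add_mul, smul_mul_assoc, map_add, map_smul, Finsupp.add_apply, Finsupp.smul_apply,
    smul_eq_mul]
  rfl

theorem key (i j k i' j' k' : Fin 4) (h : b i * b j * b k = b i' * b j' * b k') (m : Fin 4) :
    C b i j 0 * C b 0 k m + C b i j 1 * C b 1 k m + C b i j 2 * C b 2 k m +
      C b i j 3 * C b 3 k m = C b i' j' 0 * C b 0 k' m + C b i' j' 1 * C b 1 k' m +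
      C b i' j' 2 * C b 2 k' m + C b i' j' 3 * C b 3 k' m := by
  rw [← assoc_coord, ← assoc_coord, h]

variable {b} (h0 : b 0 = 1)

include h0

theorem C_zero (k m : Fin 4) : C b 0 k m = if k = m then 1 else 0 := by
  unfold C
  rw [h0, one_mul, Module.Basis.repr_self, Finsupp.single_apply]

theorem trace_eq (i : Fin 4) (hi : i ≠ 0) : Algebra.trace R A (b i) =
    C b i 1 1 + C b i 2 2 + C b i 3 3 := by
  rw [Algebra.trace_eq_matrix_trace b, Matrix.trace, Fin.sum_univ_four]
  simp only [Matrix.diag_apply, Algebra.leftMulMatrix_eq_repr_mul]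
  have h1 : b.repr (b i * b 0) 0 = 0 := by
    rw [h0, mul_one, Module.Basis.repr_self, Finsupp.single_apply, if_neg hi]
  rw [h1, zero_add]
  rfl

/-- The structure constants of a trace zero based quartic algebra. -/
noncomputable def toSC (ht : ∀ i : Fin 3, Algebra.trace R A (b i.succ) = 0) : SC R where
  c11_0 := C b 1 1 0
  c11_1 := C b 1 1 1
  c11_2 := C b 1 1 2
  c11_3 := C b 1 1 3
  c12_0 := C b 1 2 0
  c12_1 := C b 1 2 1
  c12_2 := C b 1 2 2
  c12_3 := C b 1 2 3
  c13_0 := C b 1 3 0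
  c13_1 := C b 1 3 1
  c13_2 := C b 1 3 2
  c13_3 := C b 1 3 3
  c22_0 := C b 2 2 0
  c22_1 := C b 2 2 1
  c22_2 := C b 2 2 2
  c22_3 := C b 2 2 3
  c23_0 := C b 2 3 0
  c23_1 := C b 2 3 1
  c23_2 := C b 2 3 2
  c23_3 := C b 2 3 3
  c33_0 := C b 3 3 0
  c33_1 := C b 3 3 1
  c33_2 := C b 3 3 2
  c33_3 := C b 3 3 3
  t1 := by
    have h := trace_eq h0 1 (by decide)
    rw [show (b 1) = b (Fin.succ 0) from rfl, ht] at h
    exact h.symm
  t2 := by
    have h := trace_eq h0 2 (by decide)
    rw [show (b 2) = b (Fin.succ 1) from rfl, ht] at h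
    rw [C_comm b 2 1 1] at h
    exact h.symm
  t3 := by
    have h := trace_eq h0 3 (by decide)
    rw [show (b 3) = b (Fin.succ 2) from rfl, ht] at h
    rw [C_comm b 3 1 1, C_comm b 3 2 2] at h
    exact h.symm
  a112_0 := by
    have h := key b 1 1 2 1 2 1 (by ring) 0
    rw [C_zero h0, C_zero h0] at h
    simp only [C_comm b 2 1, C_comm b 3 1, C_comm b 3 2] at h
    simp at h
    linear_combination h
  a112_1 := by
    have h := key b 1 1 2 1 2 1 (by ring) 1
    rw [C_zero h0, C_zero h0] at h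
    simp only [C_comm b 2 1, C_comm b 3 1, C_comm b 3 2] at h
    simp at h
    linear_combination h
  a112_2 := by
    have h := key b 1 1 2 1 2 1 (by ring) 2
    rw [C_zero h0, C_zero h0] at h
    simp only [C_comm b 2 1, C_comm b 3 1, C_comm b 3 2] at h
    simp at h
    linear_combination h
  a112_3 := by
    have h := key b 1 1 2 1 2 1 (by ring) 3
    rw [C_zero h0, C_zero h0] at h
    simp only [C_comm b 2 1, C_comm b 3 1, C_comm b 3 2] at h
    simp at h
    linear_combination h
  a113_0 := by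
    have h := key b 1 1 3 1 3 1 (by ring) 0
    rw [C_zero h0, C_zero h0] at h
    simp only [C_comm b 2 1, C_comm b 3 1, C_comm b 3 2] at h
    simp at h
    linear_combination h
  a113_1 := by
    have h := key b 1 1 3 1 3 1 (by ring) 1
    rw [C_zero h0, C_zero h0] at h
    simp only [C_comm b 2 1, C_comm b 3 1, C_comm b 3 2] at h
    simp at h
    linear_combination h
  a113_2 := by
    have h := key b 1 1 3 1 3 1 (by ring) 2
    rw [C_zero h0, C_zero h0] at h
    simp only [C_comm b 2 1, C_comm b 3 1, C_comm b 3 2] at h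
    simp at h
    linear_combination h
  a113_3 := by
    have h := key b 1 1 3 1 3 1 (by ring) 3
    rw [C_zero h0, C_zero h0] at h
    simp only [C_comm b 2 1, C_comm b 3 1, C_comm b 3 2] at h
    simp at h
    linear_combination h
  a221_0 := by
    have h := key b 2 2 1 2 1 2 (by ring) 0
    rw [C_zero h0, C_zero h0] at h
    simp only [C_comm b 2 1, C_comm b 3 1, C_comm b 3 2] at h
    simp at h
    linear_combination h
  a221_1 := by
    have h := key b 2 2 1 2 1 2 (by ring) 1
    rw [C_zero h0, C_zero h0] at h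
    simp only [C_comm b 2 1, C_comm b 3 1, C_comm b 3 2] at h
    simp at h
    linear_combination h
  a221_2 := by
    have h := key b 2 2 1 2 1 2 (by ring) 2
    rw [C_zero h0, C_zero h0] at h
    simp only [C_comm b 2 1, C_comm b 3 1, C_comm b 3 2] at h
    simp at h
    linear_combination h
  a221_3 := by
    have h := key b 2 2 1 2 1 2 (by ring) 3
    rw [C_zero h0, C_zero h0] at h
    simp only [C_comm b 2 1, C_comm b 3 1, C_comm b 3 2] at h
    simp at h
    linear_combination h
  a223_0 := by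
    have h := key b 2 2 3 2 3 2 (by ring) 0
    rw [C_zero h0, C_zero h0] at h
    simp only [C_comm b 2 1, C_comm b 3 1, C_comm b 3 2] at h
    simp at h
    linear_combination h
  a223_1 := by
    have h := key b 2 2 3 2 3 2 (by ring) 1
    rw [C_zero h0, C_zero h0] at h
    simp only [C_comm b 2 1, C_comm b 3 1, C_comm b 3 2] at h
    simp at h
    linear_combination h
  a223_2 := by
    have h := key b 2 2 3 2 3 2 (by ring) 2
    rw [C_zero h0, C_zero h0] at h
    simp only [C_comm b 2 1, C_comm b 3 1, C_comm b 3 2] at h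
    simp at h
    linear_combination h
  a223_3 := by
    have h := key b 2 2 3 2 3 2 (by ring) 3
    rw [C_zero h0, C_zero h0] at h
    simp only [C_comm b 2 1, C_comm b 3 1, C_comm b 3 2] at h
    simp at h
    linear_combination h
  a331_0 := by
    have h := key b 3 3 1 3 1 3 (by ring) 0
    rw [C_zero h0, C_zero h0] at h
    simp only [C_comm b 2 1, C_comm b 3 1, C_comm b 3 2] at h
    simp at h
    linear_combination h
  a331_1 := by
    have h := key b 3 3 1 3 1 3 (by ring) 1
    rw [C_zero h0, C_zero h0] at h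
    simp only [C_comm b 2 1, C_comm b 3 1, C_comm b 3 2] at h
    simp at h
    linear_combination h
  a331_2 := by
    have h := key b 3 3 1 3 1 3 (by ring) 2
    rw [C_zero h0, C_zero h0] at h
    simp only [C_comm b 2 1, C_comm b 3 1, C_comm b 3 2] at h
    simp at h
    linear_combination h
  a331_3 := by
    have h := key b 3 3 1 3 1 3 (by ring) 3
    rw [C_zero h0, C_zero h0] at h
    simp only [C_comm b 2 1, C_comm b 3 1, C_comm b 3 2] at h
    simp at h
    linear_combination h
  a332_0 := by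
    have h := key b 3 3 2 3 2 3 (by ring) 0
    rw [C_zero h0, C_zero h0] at h
    simp only [C_comm b 2 1, C_comm b 3 1, C_comm b 3 2] at h
    simp at h
    linear_combination h
  a332_1 := by
    have h := key b 3 3 2 3 2 3 (by ring) 1
    rw [C_zero h0, C_zero h0] at h
    simp only [C_comm b 2 1, C_comm b 3 1, C_comm b 3 2] at h
    simp at h
    linear_combination h
  a332_2 := by
    have h := key b 3 3 2 3 2 3 (by ring) 2
    rw [C_zero h0, C_zero h0] at h
    simp only [C_comm b 2 1, C_comm b 3 1, C_comm b 3 2] at h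
    simp at h
    linear_combination h
  a332_3 := by
    have h := key b 3 3 2 3 2 3 (by ring) 3
    rw [C_zero h0, C_zero h0] at h
    simp only [C_comm b 2 1, C_comm b 3 1, C_comm b 3 2] at h
    simp at h
    linear_combination h
  a123_0 := by
    have h := key b 1 2 3 2 3 1 (by ring) 0
    rw [C_zero h0, C_zero h0] at h
    simp only [C_comm b 2 1, C_comm b 3 1, C_comm b 3 2] at h
    simp at h
    linear_combination h
  a123_1 := by
    have h := key b 1 2 3 2 3 1 (by ring) 1
    rw [C_zero h0, C_zero h0] at h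
    simp only [C_comm b 2 1, C_comm b 3 1, C_comm b 3 2] at h
    simp at h
    linear_combination h
  a123_2 := by
    have h := key b 1 2 3 2 3 1 (by ring) 2
    rw [C_zero h0, C_zero h0] at h
    simp only [C_comm b 2 1, C_comm b 3 1, C_comm b 3 2] at h
    simp at h
    linear_combination h
  a123_3 := by
    have h := key b 1 2 3 2 3 1 (by ring) 3
    rw [C_zero h0, C_zero h0] at h
    simp only [C_comm b 2 1, C_comm b 3 1, C_comm b 3 2] at h
    simp at h
    linear_combination h
  a132_0 := by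
    have h := key b 1 2 3 1 3 2 (by ring) 0
    rw [C_zero h0, C_zero h0] at h
    simp only [C_comm b 2 1, C_comm b 3 1, C_comm b 3 2] at h
    simp at h
    linear_combination h
  a132_1 := by
    have h := key b 1 2 3 1 3 2 (by ring) 1
    rw [C_zero h0, C_zero h0] at h
    simp only [C_comm b 2 1, C_comm b 3 1, C_comm b 3 2] at h
    simp at h
    linear_combination h
  a132_2 := by
    have h := key b 1 2 3 1 3 2 (by ring) 2
    rw [C_zero h0, C_zero h0] at h
    simp only [C_comm b 2 1, C_comm b 3 1, C_comm b 3 2] at h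
    simp at h
    linear_combination h
  a132_3 := by
    have h := key b 1 2 3 1 3 2 (by ring) 3
    rw [C_zero h0, C_zero h0] at h
    simp only [C_comm b 2 1, C_comm b 3 1, C_comm b 3 2] at h
    simp at h
    linear_combination h

theorem isSC_toSC (ht : ∀ i : Fin 3, Algebra.trace R A (b i.succ) = 0) :
    IsSC (toSC h0 ht) (fun i => b i.succ) where
  h11 := by
    change b 1 * b 1 = _ + _ * b 1 + _ * b 2 + _ * b 3
    rw [Algebra.algebraMap_eq_smul_one, ← h0, ← Algebra.smul_def, ← Algebra.smul_def,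
      ← Algebra.smul_def]
    exact mul_eq b 1 1
  h12 := by
    change b 1 * b 2 = _ + _ * b 1 + _ * b 2 + _ * b 3
    rw [Algebra.algebraMap_eq_smul_one, ← h0, ← Algebra.smul_def, ← Algebra.smul_def,
      ← Algebra.smul_def]
    exact mul_eq b 1 2
  h13 := by
    change b 1 * b 3 = _ + _ * b 1 + _ * b 2 + _ * b 3
    rw [Algebra.algebraMap_eq_smul_one, ← h0, ← Algebra.smul_def, ← Algebra.smul_def,
      ← Algebra.smul_def]
    exact mul_eq b 1 3
  h22 := by
    change b 2 * b 2 = _ + _ * b 1 + _ * b 2 + _ * b 3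
    rw [Algebra.algebraMap_eq_smul_one, ← h0, ← Algebra.smul_def, ← Algebra.smul_def,
      ← Algebra.smul_def]
    exact mul_eq b 2 2
  h23 := by
    change b 2 * b 3 = _ + _ * b 1 + _ * b 2 + _ * b 3
    rw [Algebra.algebraMap_eq_smul_one, ← h0, ← Algebra.smul_def, ← Algebra.smul_def,
      ← Algebra.smul_def]
    exact mul_eq b 2 3
  h33 := by
    change b 3 * b 3 = _ + _ * b 1 + _ * b 2 + _ * b 3
    rw [Algebra.algebraMap_eq_smul_one, ← h0, ← Algebra.smul_def, ← Algebra.smul_def,
      ← Algebra.smul_def]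
    exact mul_eq b 3 3

theorem c11_0 {s : SC R} (h : IsSC s (fun i : Fin 3 => b i.succ)) : C b 1 1 0 = s.c11_0 := by
  have h1 : b 1 * b 1 = algebraMap R A s.c11_0 + algebraMap R A s.c11_1 * b 1 +
    algebraMap R A s.c11_2 * b 2 + algebraMap R A s.c11_3 * b 3 := h.h11
  rw [Algebra.algebraMap_eq_smul_one, ← h0, ← Algebra.smul_def, ← Algebra.smul_def,
    ← Algebra.smul_def] at h1
  unfold C
  rw [h1, repr_comb]
  simp

theorem c11_1 {s : SC R} (h : IsSC s (fun i : Fin 3 => b i.succ)) : C b 1 1 1 = s.c11_1 := by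
  have h1 : b 1 * b 1 = algebraMap R A s.c11_0 + algebraMap R A s.c11_1 * b 1 +
    algebraMap R A s.c11_2 * b 2 + algebraMap R A s.c11_3 * b 3 := h.h11
  rw [Algebra.algebraMap_eq_smul_one, ← h0, ← Algebra.smul_def, ← Algebra.smul_def,
    ← Algebra.smul_def] at h1
  unfold C
  rw [h1, repr_comb]
  simp

theorem c11_2 {s : SC R} (h : IsSC s (fun i : Fin 3 => b i.succ)) : C b 1 1 2 = s.c11_2 := by
  have h1 : b 1 * b 1 = algebraMap R A s.c11_0 + algebraMap R A s.c11_1 * b 1 +
    algebraMap R A s.c11_2 * b 2 + algebraMap R A s.c11_3 * b 3 := h.h11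
  rw [Algebra.algebraMap_eq_smul_one, ← h0, ← Algebra.smul_def, ← Algebra.smul_def,
    ← Algebra.smul_def] at h1
  unfold C
  rw [h1, repr_comb]
  simp

theorem c11_3 {s : SC R} (h : IsSC s (fun i : Fin 3 => b i.succ)) : C b 1 1 3 = s.c11_3 := by
  have h1 : b 1 * b 1 = algebraMap R A s.c11_0 + algebraMap R A s.c11_1 * b 1 +
    algebraMap R A s.c11_2 * b 2 + algebraMap R A s.c11_3 * b 3 := h.h11
  rw [Algebra.algebraMap_eq_smul_one, ← h0, ← Algebra.smul_def, ← Algebra.smul_def,
    ← Algebra.smul_def] at h1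
  unfold C
  rw [h1, repr_comb]
  simp

theorem c12_0 {s : SC R} (h : IsSC s (fun i : Fin 3 => b i.succ)) : C b 1 2 0 = s.c12_0 := by
  have h1 : b 1 * b 2 = algebraMap R A s.c12_0 + algebraMap R A s.c12_1 * b 1 +
    algebraMap R A s.c12_2 * b 2 + algebraMap R A s.c12_3 * b 3 := h.h12
  rw [Algebra.algebraMap_eq_smul_one, ← h0, ← Algebra.smul_def, ← Algebra.smul_def,
    ← Algebra.smul_def] at h1
  unfold C
  rw [h1, repr_comb]
  simp

theorem c12_1 {s : SC R} (h : IsSC s (fun i : Fin 3 => b i.succ)) : C b 1 2 1 = s.c12_1 := by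
  have h1 : b 1 * b 2 = algebraMap R A s.c12_0 + algebraMap R A s.c12_1 * b 1 +
    algebraMap R A s.c12_2 * b 2 + algebraMap R A s.c12_3 * b 3 := h.h12
  rw [Algebra.algebraMap_eq_smul_one, ← h0, ← Algebra.smul_def, ← Algebra.smul_def,
    ← Algebra.smul_def] at h1
  unfold C
  rw [h1, repr_comb]
  simp

theorem c12_2 {s : SC R} (h : IsSC s (fun i : Fin 3 => b i.succ)) : C b 1 2 2 = s.c12_2 := by
  have h1 : b 1 * b 2 = algebraMap R A s.c12_0 + algebraMap R A s.c12_1 * b 1 +
    algebraMap R A s.c12_2 * b 2 + algebraMap R A s.c12_3 * b 3 := h.h12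
  rw [Algebra.algebraMap_eq_smul_one, ← h0, ← Algebra.smul_def, ← Algebra.smul_def,
    ← Algebra.smul_def] at h1
  unfold C
  rw [h1, repr_comb]
  simp

theorem c12_3 {s : SC R} (h : IsSC s (fun i : Fin 3 => b i.succ)) : C b 1 2 3 = s.c12_3 := by
  have h1 : b 1 * b 2 = algebraMap R A s.c12_0 + algebraMap R A s.c12_1 * b 1 +
    algebraMap R A s.c12_2 * b 2 + algebraMap R A s.c12_3 * b 3 := h.h12
  rw [Algebra.algebraMap_eq_smul_one, ← h0, ← Algebra.smul_def, ← Algebra.smul_def,
    ← Algebra.smul_def] at h1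
  unfold C
  rw [h1, repr_comb]
  simp

theorem c13_0 {s : SC R} (h : IsSC s (fun i : Fin 3 => b i.succ)) : C b 1 3 0 = s.c13_0 := by
  have h1 : b 1 * b 3 = algebraMap R A s.c13_0 + algebraMap R A s.c13_1 * b 1 +
    algebraMap R A s.c13_2 * b 2 + algebraMap R A s.c13_3 * b 3 := h.h13
  rw [Algebra.algebraMap_eq_smul_one, ← h0, ← Algebra.smul_def, ← Algebra.smul_def,
    ← Algebra.smul_def] at h1
  unfold C
  rw [h1, repr_comb]
  simp

theorem c13_1 {s : SC R} (h : IsSC s (fun i : Fin 3 => b i.succ)) : C b 1 3 1 = s.c13_1 := by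
  have h1 : b 1 * b 3 = algebraMap R A s.c13_0 + algebraMap R A s.c13_1 * b 1 +
    algebraMap R A s.c13_2 * b 2 + algebraMap R A s.c13_3 * b 3 := h.h13
  rw [Algebra.algebraMap_eq_smul_one, ← h0, ← Algebra.smul_def, ← Algebra.smul_def,
    ← Algebra.smul_def] at h1
  unfold C
  rw [h1, repr_comb]
  simp

theorem c13_2 {s : SC R} (h : IsSC s (fun i : Fin 3 => b i.succ)) : C b 1 3 2 = s.c13_2 := by
  have h1 : b 1 * b 3 = algebraMap R A s.c13_0 + algebraMap R A s.c13_1 * b 1 +
    algebraMap R A s.c13_2 * b 2 + algebraMap R A s.c13_3 * b 3 := h.h13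
  rw [Algebra.algebraMap_eq_smul_one, ← h0, ← Algebra.smul_def, ← Algebra.smul_def,
    ← Algebra.smul_def] at h1
  unfold C
  rw [h1, repr_comb]
  simp

theorem c13_3 {s : SC R} (h : IsSC s (fun i : Fin 3 => b i.succ)) : C b 1 3 3 = s.c13_3 := by
  have h1 : b 1 * b 3 = algebraMap R A s.c13_0 + algebraMap R A s.c13_1 * b 1 +
    algebraMap R A s.c13_2 * b 2 + algebraMap R A s.c13_3 * b 3 := h.h13
  rw [Algebra.algebraMap_eq_smul_one, ← h0, ← Algebra.smul_def, ← Algebra.smul_def,
    ← Algebra.smul_def] at h1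
  unfold C
  rw [h1, repr_comb]
  simp

theorem c22_0 {s : SC R} (h : IsSC s (fun i : Fin 3 => b i.succ)) : C b 2 2 0 = s.c22_0 := by
  have h1 : b 2 * b 2 = algebraMap R A s.c22_0 + algebraMap R A s.c22_1 * b 1 +
    algebraMap R A s.c22_2 * b 2 + algebraMap R A s.c22_3 * b 3 := h.h22
  rw [Algebra.algebraMap_eq_smul_one, ← h0, ← Algebra.smul_def, ← Algebra.smul_def,
    ← Algebra.smul_def] at h1
  unfold C
  rw [h1, repr_comb]
  simp

theorem c22_1 {s : SC R} (h : IsSC s (fun i : Fin 3 => b i.succ)) : C b 2 2 1 = s.c22_1 := by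
  have h1 : b 2 * b 2 = algebraMap R A s.c22_0 + algebraMap R A s.c22_1 * b 1 +
    algebraMap R A s.c22_2 * b 2 + algebraMap R A s.c22_3 * b 3 := h.h22
  rw [Algebra.algebraMap_eq_smul_one, ← h0, ← Algebra.smul_def, ← Algebra.smul_def,
    ← Algebra.smul_def] at h1
  unfold C
  rw [h1, repr_comb]
  simp

theorem c22_2 {s : SC R} (h : IsSC s (fun i : Fin 3 => b i.succ)) : C b 2 2 2 = s.c22_2 := by
  have h1 : b 2 * b 2 = algebraMap R A s.c22_0 + algebraMap R A s.c22_1 * b 1 +
    algebraMap R A s.c22_2 * b 2 + algebraMap R A s.c22_3 * b 3 := h.h22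
  rw [Algebra.algebraMap_eq_smul_one, ← h0, ← Algebra.smul_def, ← Algebra.smul_def,
    ← Algebra.smul_def] at h1
  unfold C
  rw [h1, repr_comb]
  simp

theorem c22_3 {s : SC R} (h : IsSC s (fun i : Fin 3 => b i.succ)) : C b 2 2 3 = s.c22_3 := by
  have h1 : b 2 * b 2 = algebraMap R A s.c22_0 + algebraMap R A s.c22_1 * b 1 +
    algebraMap R A s.c22_2 * b 2 + algebraMap R A s.c22_3 * b 3 := h.h22
  rw [Algebra.algebraMap_eq_smul_one, ← h0, ← Algebra.smul_def, ← Algebra.smul_def,
    ← Algebra.smul_def] at h1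
  unfold C
  rw [h1, repr_comb]
  simp

theorem c23_0 {s : SC R} (h : IsSC s (fun i : Fin 3 => b i.succ)) : C b 2 3 0 = s.c23_0 := by
  have h1 : b 2 * b 3 = algebraMap R A s.c23_0 + algebraMap R A s.c23_1 * b 1 +
    algebraMap R A s.c23_2 * b 2 + algebraMap R A s.c23_3 * b 3 := h.h23
  rw [Algebra.algebraMap_eq_smul_one, ← h0, ← Algebra.smul_def, ← Algebra.smul_def,
    ← Algebra.smul_def] at h1
  unfold C
  rw [h1, repr_comb]
  simp

theorem c23_1 {s : SC R} (h : IsSC s (fun i : Fin 3 => b i.succ)) : C b 2 3 1 = s.c23_1 := by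
  have h1 : b 2 * b 3 = algebraMap R A s.c23_0 + algebraMap R A s.c23_1 * b 1 +
    algebraMap R A s.c23_2 * b 2 + algebraMap R A s.c23_3 * b 3 := h.h23
  rw [Algebra.algebraMap_eq_smul_one, ← h0, ← Algebra.smul_def, ← Algebra.smul_def,
    ← Algebra.smul_def] at h1
  unfold C
  rw [h1, repr_comb]
  simp

theorem c23_2 {s : SC R} (h : IsSC s (fun i : Fin 3 => b i.succ)) : C b 2 3 2 = s.c23_2 := by
  have h1 : b 2 * b 3 = algebraMap R A s.c23_0 + algebraMap R A s.c23_1 * b 1 +
    algebraMap R A s.c23_2 * b 2 + algebraMap R A s.c23_3 * b 3 := h.h23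
  rw [Algebra.algebraMap_eq_smul_one, ← h0, ← Algebra.smul_def, ← Algebra.smul_def,
    ← Algebra.smul_def] at h1
  unfold C
  rw [h1, repr_comb]
  simp

theorem c23_3 {s : SC R} (h : IsSC s (fun i : Fin 3 => b i.succ)) : C b 2 3 3 = s.c23_3 := by
  have h1 : b 2 * b 3 = algebraMap R A s.c23_0 + algebraMap R A s.c23_1 * b 1 +
    algebraMap R A s.c23_2 * b 2 + algebraMap R A s.c23_3 * b 3 := h.h23
  rw [Algebra.algebraMap_eq_smul_one, ← h0, ← Algebra.smul_def, ← Algebra.smul_def,
    ← Algebra.smul_def] at h1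
  unfold C
  rw [h1, repr_comb]
  simp

theorem c33_0 {s : SC R} (h : IsSC s (fun i : Fin 3 => b i.succ)) : C b 3 3 0 = s.c33_0 := by
  have h1 : b 3 * b 3 = algebraMap R A s.c33_0 + algebraMap R A s.c33_1 * b 1 +
    algebraMap R A s.c33_2 * b 2 + algebraMap R A s.c33_3 * b 3 := h.h33
  rw [Algebra.algebraMap_eq_smul_one, ← h0, ← Algebra.smul_def, ← Algebra.smul_def,
    ← Algebra.smul_def] at h1
  unfold C
  rw [h1, repr_comb]
  simp

theorem c33_1 {s : SC R} (h : IsSC s (fun i : Fin 3 => b i.succ)) : C b 3 3 1 = s.c33_1 := by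
  have h1 : b 3 * b 3 = algebraMap R A s.c33_0 + algebraMap R A s.c33_1 * b 1 +
    algebraMap R A s.c33_2 * b 2 + algebraMap R A s.c33_3 * b 3 := h.h33
  rw [Algebra.algebraMap_eq_smul_one, ← h0, ← Algebra.smul_def, ← Algebra.smul_def,
    ← Algebra.smul_def] at h1
  unfold C
  rw [h1, repr_comb]
  simp

theorem c33_2 {s : SC R} (h : IsSC s (fun i : Fin 3 => b i.succ)) : C b 3 3 2 = s.c33_2 := by
  have h1 : b 3 * b 3 = algebraMap R A s.c33_0 + algebraMap R A s.c33_1 * b 1 +
    algebraMap R A s.c33_2 * b 2 + algebraMap R A s.c33_3 * b 3 := h.h33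
  rw [Algebra.algebraMap_eq_smul_one, ← h0, ← Algebra.smul_def, ← Algebra.smul_def,
    ← Algebra.smul_def] at h1
  unfold C
  rw [h1, repr_comb]
  simp

theorem c33_3 {s : SC R} (h : IsSC s (fun i : Fin 3 => b i.succ)) : C b 3 3 3 = s.c33_3 := by
  have h1 : b 3 * b 3 = algebraMap R A s.c33_0 + algebraMap R A s.c33_1 * b 1 +
    algebraMap R A s.c33_2 * b 2 + algebraMap R A s.c33_3 * b 3 := h.h33
  rw [Algebra.algebraMap_eq_smul_one, ← h0, ← Algebra.smul_def, ← Algebra.smul_def,
    ← Algebra.smul_def] at h1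
  unfold C
  rw [h1, repr_comb]
  simp

/-- Structure constants are unique. -/
theorem isSC_unique {s s' : SC R} (h : IsSC s (fun i : Fin 3 => b i.succ))
    (h' : IsSC s' (fun i : Fin 3 => b i.succ)) : s = s' := by
  ext
  exacts [(c11_0 h0 h).symm.trans (c11_0 h0 h'),
    (c11_1 h0 h).symm.trans (c11_1 h0 h'),
    (c11_2 h0 h).symm.trans (c11_2 h0 h'),
    (c11_3 h0 h).symm.trans (c11_3 h0 h'),
    (c12_0 h0 h).symm.trans (c12_0 h0 h'),
    (c12_1 h0 h).symm.trans (c12_1 h0 h'),
    (c12_2 h0 h).symm.trans (c12_2 h0 h'),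
    (c12_3 h0 h).symm.trans (c12_3 h0 h'),
    (c13_0 h0 h).symm.trans (c13_0 h0 h'),
    (c13_1 h0 h).symm.trans (c13_1 h0 h'),
    (c13_2 h0 h).symm.trans (c13_2 h0 h'),
    (c13_3 h0 h).symm.trans (c13_3 h0 h'),
    (c22_0 h0 h).symm.trans (c22_0 h0 h'),
    (c22_1 h0 h).symm.trans (c22_1 h0 h'),
    (c22_2 h0 h).symm.trans (c22_2 h0 h'),
    (c22_3 h0 h).symm.trans (c22_3 h0 h'),
    (c23_0 h0 h).symm.trans (c23_0 h0 h'),
    (c23_1 h0 h).symm.trans (c23_1 h0 h'),
    (c23_2 h0 h).symm.trans (c23_2 h0 h'),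
    (c23_3 h0 h).symm.trans (c23_3 h0 h'),
    (c33_0 h0 h).symm.trans (c33_0 h0 h'),
    (c33_1 h0 h).symm.trans (c33_1 h0 h'),
    (c33_2 h0 h).symm.trans (c33_2 h0 h'),
    (c33_3 h0 h).symm.trans (c33_3 h0 h')]

theorem trace_zero {s : SC R} (h : IsSC s (fun i : Fin 3 => b i.succ)) (i : Fin 3) :
    Algebra.trace R A (b i.succ) = 0 := by
  rw [trace_eq h0 _ (Fin.succ_ne_zero i)]
  fin_cases i
  · change C b 1 1 1 + C b 1 2 2 + C b 1 3 3 = 0
    rw [c11_1 h0 h, c12_2 h0 h, c13_3 h0 h, s.t1]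
  · change C b 2 1 1 + C b 2 2 2 + C b 2 3 3 = 0
    rw [C_comm b 2 1, c12_1 h0 h, c22_2 h0 h, c23_3 h0 h, s.t2]
  · change C b 3 1 1 + C b 3 2 2 + C b 3 3 3 = 0
    rw [C_comm b 3 1, C_comm b 3 2, c13_1 h0 h, c23_2 h0 h, c33_3 h0 h, s.t3]

theorem trace_repr {s : SC R} (h : IsSC s (fun i : Fin 3 => b i.succ)) (x : A) :
    Algebra.trace R A x = 4 * b.repr x 0 := by
  have h1 := b.sum_repr x
  rw [Fin.sum_univ_four] at h1
  have h2 : Algebra.trace R A (b 0) = 4 := by
    have := Algebra.trace_algebraMap_of_basis b (1 : R)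
    rw [map_one, ← h0] at this
    rw [this]
    simp
  have e1 := trace_zero h0 h 0
  have e2 := trace_zero h0 h 1
  have e3 := trace_zero h0 h 2
  change Algebra.trace R A (b 1) = 0 at e1
  change Algebra.trace R A (b 2) = 0 at e2
  change Algebra.trace R A (b 3) = 0 at e3
  conv_lhs => rw [← h1]
  rw [map_add, map_add, map_add, map_smul, map_smul, map_smul, map_smul, h2, e1, e2, e3]
  simp only [smul_eq_mul]
  ring

omit h0 in
theorem comb_eq (h0 : b 0 = 1) (v : Fin 4 → R) :
    IsSC.comb (fun i : Fin 3 => b i.succ) v = b.equivFun.symm v := by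
  rw [Module.Basis.equivFun_symm_apply, Fin.sum_univ_four, h0]
  change algebraMap R A (v 0) + algebraMap R A (v 1) * b 1 + algebraMap R A (v 2) * b 2 +
    algebraMap R A (v 3) * b 3 = _
  rw [Algebra.algebraMap_eq_smul_one, ← Algebra.smul_def, ← Algebra.smul_def,
      ← Algebra.smul_def]

/-- The based algebra is isomorphic to the model. -/
noncomputable def equiv {s : SC R} (h : IsSC s (fun i : Fin 3 => b i.succ)) : QA s ≃ₐ[R] A :=
  AlgEquiv.ofBijective h.lift (by
    have : (h.lift : QA s → A) = b.equivFun.symm := funext fun v => comb_eq h0 v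
    rw [this]
    exact b.equivFun.symm.bijective)

theorem equiv_basis {s : SC R} (h : IsSC s (fun i : Fin 3 => b i.succ)) (i : Fin 4) :
    equiv h0 h (QA.basis s i) = b i := by
  refine (comb_eq h0 (QA.basis s i)).trans ?_
  have h1 : QA.basis s i = (Pi.single i 1 : Fin 4 → R) := by
    funext j
    rw [QA.basis_apply, Pi.single_apply]
    simp only [eq_comm]
  rw [h1]
  simp


end Fr

end Pool.Agent.J6H65.Hilb4
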