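import Pool.Agent.J6H65.Hilb4.QB

set_option autoImplicit false

namespace Pool.Agent.J6H65.Hilb4

namespace QA

variable {R C : Type*} [CommRing R] [CommRing C]

theorem algebraMap_def (s : SC R) (r : R) : algebraMap R (QA s) r = (r • oneq R : Fin 4 → R) := by
  rw [Algebra.algebraMap_eq_smul_one]
  rfl

theorem mulq_map (f : R →+* C) (s : SC R) (v w : Fin 4 → R) :
    (fun i => f (mulq s v w i)) = mulq (s.map f) (fun i => f (v i)) (fun i => f (w i)) := by
  funext i
  fin_cases i
  · change f (mulq s v w 0) = mulq (s.map f) (fun i => f (v i)) (fun i => f (w i)) 0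
    simp only [mulq_0, map_add, map_mul, SC.map]
  · change f (mulq s v w 1) = mulq (s.map f) (fun i => f (v i)) (fun i => f (w i)) 1
    simp only [mulq_1, map_add, map_mul, SC.map]
  · change f (mulq s v w 2) = mulq (s.map f) (fun i => f (v i)) (fun i => f (w i)) 2
    simp only [mulq_2, map_add, map_mul, SC.map]
  · change f (mulq s v w 3) = mulq (s.map f) (fun i => f (v i)) (fun i => f (w i)) 3
    simp only [mulq_3, map_add, map_mul, SC.map]

theorem oneq_map (f : R →+* C) : (fun i => f (oneq R i)) = oneq C := by
  funext i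
  fin_cases i
  · exact map_one f
  · exact map_zero f
  · exact map_zero f
  · exact map_zero f

/-- Base change of the model algebras. -/
def map (s : SC R) (f : R →+* C) : QA s →+* QA (s.map f) where
  toFun v := fun i => f (v i)
  map_one' := oneq_map f
  map_mul' := mulq_map f s
  map_zero' := funext fun _ => map_zero f
  map_add' := fun _ _ => funext fun _ => map_add f _ _

theorem map_apply (s : SC R) (f : R →+* C) (v : QA s) (i : Fin 4) : map s f v i = f (v i) := rfl

theorem map_algebraMap (s : SC R) (f : R →+* C) (r : R) :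
    map s f (algebraMap R (QA s) r) = algebraMap C _ (f r) := by
  rw [algebraMap_def, algebraMap_def]
  funext i
  change f (r * oneq R i) = f r * oneq C i
  rw [map_mul]
  exact congrArg (f r * ·) (congrFun (oneq_map f) i)

theorem map_basis (s : SC R) (f : R →+* C) (i : Fin 4) :
    map s f (basis s i) = basis (s.map f) i := by
  rw [basis_eq, basis_eq]
  funext j
  change f (bq R i j) = bq C i j
  simp only [bq_apply]
  split_ifs
  · exact map_one f
  · exact map_zero f

theorem map_surjective (s : SC R) (f : R →+* C) (hf : Function.Surjective f) :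
    Function.Surjective (map s f) := by
  intro w
  choose v hv using fun i => hf (w i)
  exact ⟨v, funext hv⟩

end QA

namespace IsSC

variable {R C B : Type*} [CommRing R] [CommRing C] [CommRing B] [Algebra C B]

/-- The semilinear map from a model algebra. -/
noncomputable def slift {s : SC R} {f : R →+* C} {e : Fin 3 → B} (h : IsSC (s.map f) e) :
    QA s →+* B := (h.lift : QA (s.map f) →+* B).comp (QA.map s f)

theorem slift_algebraMap {s : SC R} {f : R →+* C} {e : Fin 3 → B} (h : IsSC (s.map f) e) (r : R) :
    h.slift (algebraMap R (QA s) r) = algebraMap C B (f r) := by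
  unfold slift
  rw [RingHom.comp_apply, QA.map_algebraMap]
  exact h.lift.commutes (f r)

theorem lift_basis {s : SC C} {e : Fin 3 → B} (h : IsSC s e) (i : Fin 3) :
    h.lift (QA.basis s i.succ) = e i := by
  rw [QA.basis_eq]
  change comb e (QA.bq C i.succ) = e i
  unfold comb
  simp only [QA.bq_apply]
  fin_cases i <;> simp

theorem slift_basis {s : SC R} {f : R →+* C} {e : Fin 3 → B} (h : IsSC (s.map f) e) (i : Fin 3) :
    h.slift (QA.basis s i.succ) = e i := by
  unfold slift
  rw [RingHom.comp_apply, QA.map_basis]
  exact h.lift_basis i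

end IsSC

theorem det4 {R : Type*} [CommRing R] (N : Matrix (Fin 4) (Fin 4) R) (h0 : N 0 0 = 1)
    (h : ∀ i : Fin 3, N i.succ 0 = 0) : N.det = (N.submatrix Fin.succ Fin.succ).det := by
  rw [Matrix.det_succ_column_zero, Fin.sum_univ_succ]
  simp [h0, h]

namespace Fr

variable {R A : Type*} [CommRing R] [CommRing A] [Algebra R A]

/-- The frame obtained from `b` by the matrix `M`. -/
noncomputable def chg (b : Module.Basis (Fin 4) R A) (M : Matrix (Fin 3) (Fin 3) R) (i : Fin 3) : A :=
  ∑ j, algebraMap R A (M i j) * b j.succ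

theorem exists_basis {b : Module.Basis (Fin 4) R A} (h0 : b 0 = 1) (M : Matrix (Fin 3) (Fin 3) R)
    (hM : IsUnit M.det) :
    ∃ b' : Module.Basis (Fin 4) R A, b' 0 = 1 ∧ ∀ i : Fin 3, b' i.succ = chg b M i := by
  let v : Fin 4 → A := Fin.cons 1 (chg b M)
  have hv : IsUnit (b.det v) := by
    rw [Module.Basis.det_apply, det4]
    · have : (b.toMatrix v).submatrix Fin.succ Fin.succ = M.transpose := by
        ext i j
        rw [Matrix.submatrix_apply, Module.Basis.toMatrix_apply, Matrix.transpose_apply]
        change b.repr (chg b M j) i.succ = _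
        unfold chg
        simp only [← Algebra.smul_def, map_sum, map_smul, Module.Basis.repr_self,
          Finsupp.coe_finsetSum, Finset.sum_apply, Finsupp.smul_apply, Finsupp.single_apply,
          Fin.succ_inj, smul_eq_mul, mul_ite, mul_one, mul_zero]
        simp
      rw [this, Matrix.det_transpose]
      exact hM
    · rw [Module.Basis.toMatrix_apply]
      change b.repr 1 0 = 1
      rw [← h0, Module.Basis.repr_self, Finsupp.single_eq_same]
    · intro i
      rw [Module.Basis.toMatrix_apply]
      change b.repr 1 i.succ = 0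
      rw [← h0, Module.Basis.repr_self, Finsupp.single_apply, if_neg (Fin.succ_ne_zero i).symm]
  obtain ⟨h1, h2⟩ := (Module.Basis.is_basis_iff_det b).mpr hv
  refine ⟨Module.Basis.mk h1 h2.ge, ?_, fun i => ?_⟩
  · rw [Module.Basis.mk_apply]; rfl
  · rw [Module.Basis.mk_apply]; rfl

theorem exists_matrix {b β : Module.Basis (Fin 4) R A} (h0 : b 0 = 1) (k0 : β 0 = 1)
    {s t : SC R} (hs : IsSC s (fun i : Fin 3 => b i.succ)) (ht : IsSC t (fun i : Fin 3 => β i.succ))
    (h4 : ∀ x : R, 4 * x = 0 → x = 0) :
    ∃ M : Matrix (Fin 3) (Fin 3) R, IsUnit M.det ∧ ∀ i : Fin 3, β i.succ = chg b M i := by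
  have hz : ∀ i : Fin 3, b.repr (β i.succ) 0 = 0 := by
    intro i
    apply h4
    rw [← trace_repr h0 hs, trace_zero k0 ht]
  refine ⟨Matrix.of fun i j => b.repr (β i.succ) j.succ, ?_, fun i => ?_⟩
  · have hv : IsUnit (b.det β) := Module.Basis.isUnit_det b β
    rw [Module.Basis.det_apply, det4] at hv
    · rw [← Matrix.det_transpose]
      exact hv
    · rw [Module.Basis.toMatrix_apply, k0, ← h0, Module.Basis.repr_self, Finsupp.single_eq_same]
    · intro i
      rw [Module.Basis.toMatrix_apply, k0, ← h0, Module.Basis.repr_self, Finsupp.single_apply,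
        if_neg (Fin.succ_ne_zero i).symm]
  · have h1 := b.sum_repr (β i.succ)
    rw [Fin.sum_univ_succ, hz, zero_smul, zero_add] at h1
    refine h1.symm.trans ?_
    unfold chg
    exact Finset.sum_congr rfl fun j _ => Algebra.smul_def _ _

end Fr

end Pool.Agent.J6H65.Hilb4
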