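import Pool.Agent.J6H65.Hilb4.QD

set_option autoImplicit false
set_option linter.unusedSectionVars false

namespace Pool.Agent.J6H65.Hilb4

theorem QA.mulq_eq_zero {R : Type*} [CommRing R] (s : SC R) (v w : Fin 4 → R)
    (hvw : ∀ i j, v i * w j = 0) : QA.mulq s v w = 0 := by
  funext i
  fin_cases i
  · change QA.mulq s v w 0 = 0
    rw [QA.mulq_0]; simp [hvw]
  · change QA.mulq s v w 1 = 0
    rw [QA.mulq_1]; simp [hvw]
  · change QA.mulq s v w 2 = 0
    rw [QA.mulq_2]; simp [hvw]
  · change QA.mulq s v w 3 = 0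
    rw [QA.mulq_3]; simp [hvw]

theorem map_chg {R A C B : Type} [CommRing R] [CommRing A] [CommRing C] [CommRing B]
    [Algebra R A] [Algebra C B] (b : Module.Basis (Fin 4) R A) (X : Matrix (Fin 3) (Fin 3) R)
    (h : R →+* C) (Ψ : A →+* B) (hΨ : ∀ r, Ψ (algebraMap R A r) = algebraMap C B (h r)) (i : Fin 3) :
    Ψ (Fr.chg b X i) = ∑ j, algebraMap C B (h (X i j)) * Ψ (b j.succ) := by
  unfold Fr.chg
  rw [map_sum]
  exact Finset.sum_congr rfl fun j _ => by rw [map_mul, hΨ]

theorem frame_lift {k R A S T : Type} [CommRing k] [CommRing R] [CommRing A] [CommRing S]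
    [CommRing T] [Algebra R A] [Algebra R T]
    (κR : k →+* R) (κS : k →+* S) (ξ : S →+* A) (hκ : ξ.comp κS = (algebraMap R A).comp κR)
    (b : Module.Basis (Fin 4) R A) (h0 : b 0 = 1) (s : SC R) (hs : IsSC s (fun i => b i.succ))
    (gen : Algebra.adjoin R (Set.range ξ) = ⊤)
    (up : UP κR κS ξ) (hS : Lifts κS)
    (half : R) (hhalf : 2 * half = 1)
    (X : Matrix (Fin 3) (Fin 3) T) (hX : IsUnit X.det)
    (ext : ∀ (C : Type) [CommRing C] (h h' : T →+* C),
      h.comp (algebraMap R T) = h'.comp (algebraMap R T) → (∀ i j, h (X i j) = h' (X i j)) → h = h')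
    (lift : ∀ (C : Type) [CommRing C] (f : R →+* C) (M : Matrix (Fin 3) (Fin 3) C),
      IsUnit M.det → ∃ h : T →+* C, h.comp (algebraMap R T) = f ∧ ∀ i j, h (X i j) = M i j)
    (x : Plk T) (hx : IsSC x.toSC (Fr.chg (QA.basis (s.map (algebraMap R T))) X))
    (C C' : Type) [CommRing C] [CommRing C'] (p : C →+* C') (hp : Function.Surjective p)
    (hp2 : ∀ x y, p x = 0 → p y = 0 → x * y = 0)
    (y : Plk C) (h' : T →+* C') (hxy : x.map h' = y.map p) (κC : k →+* C)
    (hκC : (h'.comp (algebraMap R T)).comp κR = p.comp κC) :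
    ∃ h : T →+* C, (h.comp (algebraMap R T)).comp κR = κC ∧ p.comp h = h' ∧ x.map h = y := by
  set f' := h'.comp (algebraMap R T) with hf'
  set sC := y.toSC with hsC
  let q := QA.map sC p
  let β := QA.basis sC
  let β' := QA.basis (sC.map p)
  have hβ : ∀ i, q (β i) = β' i := QA.map_basis sC p
  let bb := QA.basis (s.map f')
  let M' : Matrix (Fin 3) (Fin 3) C' := X.map h'
  have hM' : IsUnit M'.det := by
    have : M'.det = h' X.det := (RingHom.map_det h' X).symm
    rw [this]
    exact hX.map h'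
  obtain ⟨e', he0, hei⟩ := Fr.exists_basis (b := bb) (QA.basis_zero (s.map f')) M' hM'
  -- the transported frame
  have e1 : IsSC ((s.map (algebraMap R T)).map h') (fun i : Fin 3 => bb i.succ) := by
    rw [SC.map_map]
    exact QA.isSC _
  have hsc' : IsSC (sC.map p) (fun i : Fin 3 => e' i.succ) := by
    have h1 := hx.map h' e1.slift e1.slift_algebraMap
    have h2 : x.toSC.map h' = sC.map p := by
      rw [← Plk.toSC_map, hxy, Plk.toSC_map]
    rw [h2] at h1
    have h3 : (fun i => e1.slift (Fr.chg (QA.basis (s.map (algebraMap R T))) X i)) =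
        fun i : Fin 3 => e' i.succ := by
      funext i
      rw [map_chg _ X h' e1.slift e1.slift_algebraMap, hei]
      unfold Fr.chg
      refine Finset.sum_congr rfl fun j _ => ?_
      rw [e1.slift_basis]
      rfl
    rwa [h3] at h1
  let Θ : QA (sC.map p) ≃ₐ[C'] QA (s.map f') := Fr.equiv he0 hsc'
  have hΘ : ∀ i, Θ (β' i) = e' i := Fr.equiv_basis he0 hsc'
  let push : A →+* QA (s.map f') :=
    (QA.map s f').comp ((Fr.equiv h0 hs).symm : A →+* QA s)
  have hpush1 : ∀ r, push (algebraMap R A r) = algebraMap C' _ (f' r) := by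
    intro r
    change QA.map s f' ((Fr.equiv h0 hs).symm (algebraMap R A r)) = _
    rw [AlgEquiv.commutes, QA.map_algebraMap]
  have hpush2 : ∀ i, push (b i) = bb i := by
    intro i
    change QA.map s f' ((Fr.equiv h0 hs).symm (b i)) = _
    rw [← Fr.equiv_basis h0 hs i, AlgEquiv.symm_apply_apply, QA.map_basis]
  let g' : A →+* QA (sC.map p) := (Θ.symm : QA (s.map f') →+* QA (sC.map p)).comp push
  have hg'1 : ∀ r, g' (algebraMap R A r) = algebraMap C' _ (f' r) := by
    intro r
    change Θ.symm (push (algebraMap R A r)) = _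
    rw [hpush1, AlgEquiv.commutes]
  have hg'2 : ∀ i, g' (b i) = Θ.symm (bb i) := by
    intro i
    change Θ.symm (push (b i)) = _
    rw [hpush2]
  have hq : ∀ c, q (algebraMap C (QA sC) c) = algebraMap C' _ (p c) := QA.map_algebraMap sC p
  -- lift the generating map
  obtain ⟨ξ', hξ'1, hξ'2⟩ := hS (QA sC) (QA (sC.map p)) q (QA.map_surjective sC p hp) (by
    intro v w hv hw
    have hv' : ∀ i, p (v i) = 0 := fun i => congrFun hv i
    have hw' : ∀ i, p (w i) = 0 := fun i => congrFun hw i
    have hvw : ∀ i j, v i * w j = 0 := fun i j => hp2 _ _ (hv' i) (hw' j)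
    exact QA.mulq_eq_zero sC v w hvw) ((algebraMap C (QA sC)).comp κC) (g'.comp ξ) (by
    rw [RingHom.comp_assoc, hκ]
    ext c
    change g' (algebraMap R A (κR c)) = q (algebraMap C (QA sC) (κC c))
    rw [hg'1, hq]
    exact congrArg (algebraMap C' _) (RingHom.congr_fun hκC c))
  have hξq : ∀ z, q (ξ' z) = g' (ξ z) := fun z => RingHom.congr_fun hξ'2 z
  have gen' : Algebra.adjoin C (Set.range ξ') = ⊤ := by
    refine gen_lift p q hp hp2 hq β β' hβ ξ' ?_
    simp only [hξq]
    refine gen_of_span b f' g' hg'1 ξ gen ?_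
    rw [eq_top_iff]
    intro v _
    rw [← (bb.map Θ.symm.toLinearEquiv).sum_repr v]
    refine Submodule.sum_mem _ fun i _ => Submodule.smul_mem _ _ (Submodule.subset_span ⟨i, ?_⟩)
    simp only [hg'2]
    rfl
  obtain ⟨f, g, hf1, hf2, hg1, hg2⟩ := up C C' (QA sC) (QA (sC.map p)) p q hp hp2 hq β β' hβ κC ξ'
    hξ'1 gen' f' g' hκC hg'1 (fun z => (hξq z).symm)
  obtain ⟨γ, hγ⟩ := basis_of_span β (fun i => g (b i)) (span_of_gen b f g hg1 ξ' ξ hg2 gen')
  have hγ0 : γ 0 = 1 := by rw [hγ, h0, map_one]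
  have hγs : IsSC (s.map f) (fun i : Fin 3 => γ i.succ) := by
    have := hs.map f g hg1
    have h1 : (fun i : Fin 3 => g (b i.succ)) = fun i : Fin 3 => γ i.succ := by
      funext i; rw [hγ]
    rwa [h1] at this
  have hfh : 2 * f half = 1 := by rw [← map_ofNat f 2, ← map_mul, hhalf, map_one]
  obtain ⟨M, hM, hβM⟩ := Fr.exists_matrix (b := γ) (β := β) hγ0 (QA.basis_zero sC) hγs
    (QA.isSC sC) (by
      intro z hz
      have : z = (f half * f half) * (4 * z) := by
        linear_combination (-(2 * f half + 1) * z) * hfh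
      rw [this, hz, mul_zero])
  obtain ⟨h, hh1, hh2⟩ := lift C f M hM
  -- `q ∘ g = g'`
  have hqg : ∀ a, q (g a) = g' a := by
    intro a
    have ha : a ∈ Algebra.adjoin R (Set.range ξ) := by rw [gen]; trivial
    induction ha using Algebra.adjoin_induction with
    | mem x hx =>
      obtain ⟨z, rfl⟩ := hx
      rw [hg2, hξq]
    | algebraMap r =>
      rw [hg1, hq, hg'1]
      exact congrArg _ (RingHom.congr_fun hf2 r)
    | add x y _ _ hx hy => rw [map_add, map_add, map_add, hx, hy]
    | mul x y _ _ hx hy => rw [map_mul, map_mul, map_mul, hx, hy]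
  refine ⟨h, by rw [hh1, hf1], ?_, ?_⟩
  · apply ext
    · rw [RingHom.comp_assoc, hh1, hf2]
    · intro i j
      rw [RingHom.comp_apply, hh2]
      have h1 : q (β i.succ) = ∑ j, algebraMap C' _ (p (M i j)) * Θ.symm (bb j.succ) := by
        have : β i.succ = Fr.chg γ M i := hβM i
        rw [this, map_chg γ M p q hq]
        refine Finset.sum_congr rfl fun j _ => ?_
        rw [hγ, hqg, hg'2]
      have h2 : Θ (q (β i.succ)) = ∑ j, p (M i j) • bb j.succ := by
        rw [h1, map_sum]
        refine Finset.sum_congr rfl fun j _ => ?_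
        rw [map_mul, AlgEquiv.commutes, AlgEquiv.apply_symm_apply, Algebra.smul_def]
      have h3 : Θ (q (β i.succ)) = ∑ j, h' (X i j) • bb j.succ := by
        rw [hβ, hΘ, hei]
        unfold Fr.chg
        refine Finset.sum_congr rfl fun j _ => ?_
        rw [Algebra.smul_def]
        rfl
      have h4 : ∀ c : Fin 3 → C', bb.repr (∑ j, c j • bb j.succ) j.succ = c j := by
        intro c
        simp only [map_sum, map_smul, Module.Basis.repr_self, Finsupp.coe_finsetSum,
          Finset.sum_apply, Finsupp.smul_apply, Finsupp.single_apply, Fin.succ_inj, smul_eq_mul,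
          mul_ite, mul_one, mul_zero]
        simp
      rw [← h4 (fun j => p (M i j)), ← h4 (fun j => h' (X i j)), ← h2, ← h3]
  · refine Plk.toSC_injective (f half) hfh _ _ ?_
    refine Fr.isSC_unique (b := β) (QA.basis_zero sC) ?_ (QA.isSC sC)
    have e2 : IsSC ((s.map (algebraMap R T)).map h) (fun i : Fin 3 => γ i.succ) := by
      rw [SC.map_map, hh1]
      exact hγs
    have h1 := hx.map h e2.slift e2.slift_algebraMap
    rw [← Plk.toSC_map] at h1
    have h3 : (fun i => e2.slift (Fr.chg (QA.basis (s.map (algebraMap R T))) X i)) =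
        fun i : Fin 3 => β i.succ := by
      funext i
      rw [map_chg _ X h e2.slift e2.slift_algebraMap]
      refine Eq.trans ?_ (hβM i).symm
      unfold Fr.chg
      refine Finset.sum_congr rfl fun j _ => ?_
      rw [e2.slift_basis, hh2]
    rwa [h3] at h1

end Pool.Agent.J6H65.Hilb4
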