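import Pool.Agent.J6H65.Hilb4.Plk

set_option autoImplicit false

namespace Pool.Agent.J6H65.Hilb4

/-- Structure constants of a commutative associative algebra with basis `1, e1, e2, e3` such that
`e1, e2, e3` have trace zero.  Here `cij_m` is the coordinate of `ei * ej` at `em`. -/
@[ext]
structure SC (R : Type*) [CommRing R] where
  c11_0 : R
  c11_1 : R
  c11_2 : R
  c11_3 : R
  c12_0 : R
  c12_1 : R
  c12_2 : R
  c12_3 : R
  c13_0 : R
  c13_1 : R
  c13_2 : R
  c13_3 : R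
  c22_0 : R
  c22_1 : R
  c22_2 : R
  c22_3 : R
  c23_0 : R
  c23_1 : R
  c23_2 : R
  c23_3 : R
  c33_0 : R
  c33_1 : R
  c33_2 : R
  c33_3 : R
  t1 : c11_1 + c12_2 + c13_3 = 0
  t2 : c12_1 + c22_2 + c23_3 = 0
  t3 : c13_1 + c23_2 + c33_3 = 0
  a112_0 : c11_1 * c12_0 + c11_2 * c22_0 + c11_3 * c23_0 = c11_0 * c12_1 + c12_0 * c12_2 + c12_3 * c13_0
  a112_1 : c11_1 * c12_1 + c11_2 * c22_1 + c11_3 * c23_1 = c11_1 * c12_1 + c12_0 + c12_1 * c12_2 + c12_3 * c13_1
  a112_2 : c11_0 + c11_1 * c12_2 + c11_2 * c22_2 + c11_3 * c23_2 = c11_2 * c12_1 + c12_2 * c12_2 + c12_3 * c13_2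
  a112_3 : c11_1 * c12_3 + c11_2 * c22_3 + c11_3 * c23_3 = c11_3 * c12_1 + c12_2 * c12_3 + c12_3 * c13_3
  a113_0 : c11_1 * c13_0 + c11_2 * c23_0 + c11_3 * c33_0 = c11_0 * c13_1 + c12_0 * c13_2 + c13_0 * c13_3
  a113_1 : c11_1 * c13_1 + c11_2 * c23_1 + c11_3 * c33_1 = c11_1 * c13_1 + c12_1 * c13_2 + c13_0 + c13_1 * c13_3
  a113_2 : c11_1 * c13_2 + c11_2 * c23_2 + c11_3 * c33_2 = c11_2 * c13_1 + c12_2 * c13_2 + c13_2 * c13_3
  a113_3 : c11_0 + c11_1 * c13_3 + c11_2 * c23_3 + c11_3 * c33_3 = c11_3 * c13_1 + c12_3 * c13_2 + c13_3 * c13_3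
  a221_0 : c11_0 * c22_1 + c12_0 * c22_2 + c13_0 * c22_3 = c12_0 * c12_1 + c12_2 * c22_0 + c12_3 * c23_0
  a221_1 : c11_1 * c22_1 + c12_1 * c22_2 + c13_1 * c22_3 + c22_0 = c12_1 * c12_1 + c12_2 * c22_1 + c12_3 * c23_1
  a221_2 : c11_2 * c22_1 + c12_2 * c22_2 + c13_2 * c22_3 = c12_0 + c12_1 * c12_2 + c12_2 * c22_2 + c12_3 * c23_2
  a221_3 : c11_3 * c22_1 + c12_3 * c22_2 + c13_3 * c22_3 = c12_1 * c12_3 + c12_2 * c22_3 + c12_3 * c23_3
  a223_0 : c13_0 * c22_1 + c22_2 * c23_0 + c22_3 * c33_0 = c12_0 * c23_1 + c22_0 * c23_2 + c23_0 * c23_3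
  a223_1 : c13_1 * c22_1 + c22_2 * c23_1 + c22_3 * c33_1 = c12_1 * c23_1 + c22_1 * c23_2 + c23_1 * c23_3
  a223_2 : c13_2 * c22_1 + c22_2 * c23_2 + c22_3 * c33_2 = c12_2 * c23_1 + c22_2 * c23_2 + c23_0 + c23_2 * c23_3
  a223_3 : c13_3 * c22_1 + c22_0 + c22_2 * c23_3 + c22_3 * c33_3 = c12_3 * c23_1 + c22_3 * c23_2 + c23_3 * c23_3
  a331_0 : c11_0 * c33_1 + c12_0 * c33_2 + c13_0 * c33_3 = c13_0 * c13_1 + c13_2 * c23_0 + c13_3 * c33_0
  a331_1 : c11_1 * c33_1 + c12_1 * c33_2 + c13_1 * c33_3 + c33_0 = c13_1 * c13_1 + c13_2 * c23_1 + c13_3 * c33_1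
  a331_2 : c11_2 * c33_1 + c12_2 * c33_2 + c13_2 * c33_3 = c13_1 * c13_2 + c13_2 * c23_2 + c13_3 * c33_2
  a331_3 : c11_3 * c33_1 + c12_3 * c33_2 + c13_3 * c33_3 = c13_0 + c13_1 * c13_3 + c13_2 * c23_3 + c13_3 * c33_3
  a332_0 : c12_0 * c33_1 + c22_0 * c33_2 + c23_0 * c33_3 = c13_0 * c23_1 + c23_0 * c23_2 + c23_3 * c33_0
  a332_1 : c12_1 * c33_1 + c22_1 * c33_2 + c23_1 * c33_3 = c13_1 * c23_1 + c23_1 * c23_2 + c23_3 * c33_1
  a332_2 : c12_2 * c33_1 + c22_2 * c33_2 + c23_2 * c33_3 + c33_0 = c13_2 * c23_1 + c23_2 * c23_2 + c23_3 * c33_2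
  a332_3 : c12_3 * c33_1 + c22_3 * c33_2 + c23_3 * c33_3 = c13_3 * c23_1 + c23_0 + c23_2 * c23_3 + c23_3 * c33_3
  a123_0 : c12_1 * c13_0 + c12_2 * c23_0 + c12_3 * c33_0 = c11_0 * c23_1 + c12_0 * c23_2 + c13_0 * c23_3
  a123_1 : c12_1 * c13_1 + c12_2 * c23_1 + c12_3 * c33_1 = c11_1 * c23_1 + c12_1 * c23_2 + c13_1 * c23_3 + c23_0
  a123_2 : c12_1 * c13_2 + c12_2 * c23_2 + c12_3 * c33_2 = c11_2 * c23_1 + c12_2 * c23_2 + c13_2 * c23_3
  a123_3 : c12_0 + c12_1 * c13_3 + c12_2 * c23_3 + c12_3 * c33_3 = c11_3 * c23_1 + c12_3 * c23_2 + c13_3 * c23_3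
  a132_0 : c12_1 * c13_0 + c12_2 * c23_0 + c12_3 * c33_0 = c12_0 * c13_1 + c13_2 * c22_0 + c13_3 * c23_0
  a132_1 : c12_1 * c13_1 + c12_2 * c23_1 + c12_3 * c33_1 = c12_1 * c13_1 + c13_2 * c22_1 + c13_3 * c23_1
  a132_2 : c12_1 * c13_2 + c12_2 * c23_2 + c12_3 * c33_2 = c12_2 * c13_1 + c13_0 + c13_2 * c22_2 + c13_3 * c23_2
  a132_3 : c12_0 + c12_1 * c13_3 + c12_2 * c23_3 + c12_3 * c33_3 = c12_3 * c13_1 + c13_2 * c22_3 + c13_3 * c23_3

namespace SC

variable {R S T : Type*} [CommRing R] [CommRing S] [CommRing T]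

/-- Base change of structure constants. -/
def map (f : R →+* S) (s : SC R) : SC S where
  c11_0 := f s.c11_0
  c11_1 := f s.c11_1
  c11_2 := f s.c11_2
  c11_3 := f s.c11_3
  c12_0 := f s.c12_0
  c12_1 := f s.c12_1
  c12_2 := f s.c12_2
  c12_3 := f s.c12_3
  c13_0 := f s.c13_0
  c13_1 := f s.c13_1
  c13_2 := f s.c13_2
  c13_3 := f s.c13_3
  c22_0 := f s.c22_0
  c22_1 := f s.c22_1
  c22_2 := f s.c22_2
  c22_3 := f s.c22_3
  c23_0 := f s.c23_0
  c23_1 := f s.c23_1
  c23_2 := f s.c23_2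
  c23_3 := f s.c23_3
  c33_0 := f s.c33_0
  c33_1 := f s.c33_1
  c33_2 := f s.c33_2
  c33_3 := f s.c33_3
  t1 := by simpa only [map_add, map_mul, map_zero] using congrArg f s.t1
  t2 := by simpa only [map_add, map_mul, map_zero] using congrArg f s.t2
  t3 := by simpa only [map_add, map_mul, map_zero] using congrArg f s.t3
  a112_0 := by simpa only [map_add, map_mul, map_zero] using congrArg f s.a112_0
  a112_1 := by simpa only [map_add, map_mul, map_zero] using congrArg f s.a112_1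
  a112_2 := by simpa only [map_add, map_mul, map_zero] using congrArg f s.a112_2
  a112_3 := by simpa only [map_add, map_mul, map_zero] using congrArg f s.a112_3
  a113_0 := by simpa only [map_add, map_mul, map_zero] using congrArg f s.a113_0
  a113_1 := by simpa only [map_add, map_mul, map_zero] using congrArg f s.a113_1
  a113_2 := by simpa only [map_add, map_mul, map_zero] using congrArg f s.a113_2
  a113_3 := by simpa only [map_add, map_mul, map_zero] using congrArg f s.a113_3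
  a221_0 := by simpa only [map_add, map_mul, map_zero] using congrArg f s.a221_0
  a221_1 := by simpa only [map_add, map_mul, map_zero] using congrArg f s.a221_1
  a221_2 := by simpa only [map_add, map_mul, map_zero] using congrArg f s.a221_2
  a221_3 := by simpa only [map_add, map_mul, map_zero] using congrArg f s.a221_3
  a223_0 := by simpa only [map_add, map_mul, map_zero] using congrArg f s.a223_0
  a223_1 := by simpa only [map_add, map_mul, map_zero] using congrArg f s.a223_1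
  a223_2 := by simpa only [map_add, map_mul, map_zero] using congrArg f s.a223_2
  a223_3 := by simpa only [map_add, map_mul, map_zero] using congrArg f s.a223_3
  a331_0 := by simpa only [map_add, map_mul, map_zero] using congrArg f s.a331_0
  a331_1 := by simpa only [map_add, map_mul, map_zero] using congrArg f s.a331_1
  a331_2 := by simpa only [map_add, map_mul, map_zero] using congrArg f s.a331_2
  a331_3 := by simpa only [map_add, map_mul, map_zero] using congrArg f s.a331_3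
  a332_0 := by simpa only [map_add, map_mul, map_zero] using congrArg f s.a332_0
  a332_1 := by simpa only [map_add, map_mul, map_zero] using congrArg f s.a332_1
  a332_2 := by simpa only [map_add, map_mul, map_zero] using congrArg f s.a332_2
  a332_3 := by simpa only [map_add, map_mul, map_zero] using congrArg f s.a332_3
  a123_0 := by simpa only [map_add, map_mul, map_zero] using congrArg f s.a123_0
  a123_1 := by simpa only [map_add, map_mul, map_zero] using congrArg f s.a123_1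
  a123_2 := by simpa only [map_add, map_mul, map_zero] using congrArg f s.a123_2
  a123_3 := by simpa only [map_add, map_mul, map_zero] using congrArg f s.a123_3
  a132_0 := by simpa only [map_add, map_mul, map_zero] using congrArg f s.a132_0
  a132_1 := by simpa only [map_add, map_mul, map_zero] using congrArg f s.a132_1
  a132_2 := by simpa only [map_add, map_mul, map_zero] using congrArg f s.a132_2
  a132_3 := by simpa only [map_add, map_mul, map_zero] using congrArg f s.a132_3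

theorem map_map (f : R →+* S) (g : S →+* T) (s : SC R) : (s.map f).map g = s.map (g.comp f) := by
  ext <;> rfl

theorem map_id (s : SC R) : s.map (RingHom.id R) = s := by
  ext <;> rfl

end SC

namespace Plk

variable {R S : Type*} [CommRing R] [CommRing S]

/-- The trace zero based quartic algebra attached to Pluecker data. -/
def toSC (x : Plk R) : SC R where
  c11_0 := 8 * x.p12 * x.p26 - 4 * x.p12 * x.p35 - 4 * x.p13 * x.p25 + 8 * x.p13 * x.p34 - 16 * x.p14 * x.p16 + 4 * x.p15 * x.p15 + 3 * x.p23 * x.p23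
  c11_1 := 2 * x.p23
  c11_2 := -4 * x.p13
  c11_3 := 4 * x.p12
  c12_0 := 16 * x.p12 * x.p46 - 12 * x.p13 * x.p45 - 8 * x.p14 * x.p26 + 2 * x.p15 * x.p25 + x.p23 * x.p25 - 2 * x.p23 * x.p34
  c12_1 := x.p25 - 2 * x.p34
  c12_2 := -2 * x.p15 - x.p23
  c12_3 := 4 * x.p14
  c13_0 := 12 * x.p12 * x.p56 - 8 * x.p13 * x.p46 - 8 * x.p14 * x.p36 + 2 * x.p15 * x.p35 + 2 * x.p23 * x.p26 - x.p23 * x.p35
  c13_1 := 2 * x.p26 - x.p35
  c13_2 := -4 * x.p16
  c13_3 := 2 * x.p15 - x.p23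
  c22_0 := 16 * x.p14 * x.p46 - 8 * x.p15 * x.p45 - 4 * x.p23 * x.p45 - 8 * x.p24 * x.p26 - 4 * x.p24 * x.p35 + 3 * x.p25 * x.p25 + 4 * x.p34 * x.p34
  c22_1 := 4 * x.p45
  c22_2 := -2 * x.p25
  c22_3 := 4 * x.p24
  c23_0 := 16 * x.p14 * x.p56 - 8 * x.p15 * x.p46 - 12 * x.p24 * x.p36 + 2 * x.p25 * x.p26 + x.p25 * x.p35 + 2 * x.p34 * x.p35
  c23_1 := 4 * x.p46
  c23_2 := -2 * x.p26 - x.p35
  c23_3 := x.p25 + 2 * x.p34
  c33_0 := 8 * x.p15 * x.p56 - 16 * x.p16 * x.p46 - 4 * x.p23 * x.p56 - 4 * x.p25 * x.p36 + 4 * x.p26 * x.p26 - 8 * x.p34 * x.p36 + 3 * x.p35 * x.p35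
  c33_1 := 4 * x.p56
  c33_2 := -4 * x.p36
  c33_3 := 2 * x.p35
  t1 := by ring
  t2 := by ring
  t3 := by ring
  a112_0 := by
    linear_combination (-32 * x.p26 + 4 * x.p35) * x.r1234 + (8 * x.p25 - 4 * x.p34) * x.r1235 + (16 * x.p14) * x.r1256 + (8 * x.p15) * x.r1345 + (-32 * x.p14) * x.r1346 + (-20 * x.p13) * x.r2345 + (48 * x.p12) * x.r2346
  a112_1 := by
    linear_combination (-4) * x.r1345
  a112_2 := by
    linear_combination (-8) * x.r1235
  a112_3 := by
    linear_combination (16) * x.r1234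
  a113_0 := by
    linear_combination (-24 * x.p36) * x.r1234 + (-4 * x.p26 + 8 * x.p35) * x.r1235 + (4 * x.p25 - 8 * x.p34) * x.r1236 + (8 * x.p15) * x.r1256 + (-16 * x.p14) * x.r1356 + (-48 * x.p13) * x.r1456 + (-24 * x.p13) * x.r2346 + (20 * x.p12) * x.r2356
  a113_1 := by
    linear_combination (4) * x.r1256 + (-8) * x.r1346
  a113_2 := by
    linear_combination (-16) * x.r1236
  a113_3 := by
    linear_combination (8) * x.r1235
  a221_0 := by
    linear_combination (32 * x.p46) * x.r1234 + (-16 * x.p45) * x.r1235 + (-16 * x.p26) * x.r1245 + (4 * x.p25 + 8 * x.p34) * x.r1345 + (-64 * x.p14) * x.r1456 + (8 * x.p23) * x.r2345 + (-16 * x.p14) * x.r2346 + (48 * x.p12) * x.r2456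
  a221_1 := by
    linear_combination (8) * x.r2345
  a221_2 := by
    linear_combination (-16) * x.r1246 + (-4) * x.r1345
  a221_3 := by
    linear_combination (16) * x.r1245
  a223_0 := by
    linear_combination (48 * x.p56) * x.r1245 + (-64 * x.p46) * x.r1246 + (16 * x.p46) * x.r1345 + (-4 * x.p26 - 8 * x.p35) * x.r2345 + (8 * x.p34) * x.r2346 + (-20 * x.p24) * x.r2356 + (-16 * x.p15 + 4 * x.p23) * x.r2456 + (-32 * x.p14) * x.r3456
  a223_1 := by
    linear_combination (16) * x.r2456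
  a223_2 := by
    linear_combination (-16) * x.r1456 + (4) * x.r2346
  a223_3 := by
    linear_combination (-8) * x.r2345
  a331_0 := by
    linear_combination (16 * x.p56) * x.r1235 + (-16 * x.p46) * x.r1236 + (-48 * x.p36) * x.r1246 + (8 * x.p26 + 4 * x.p35) * x.r1256 + (16 * x.p36) * x.r1345 + (8 * x.p35) * x.r1346 + (8 * x.p23) * x.r2356 + (32 * x.p13) * x.r3456
  a331_1 := by
    linear_combination (8) * x.r2356
  a331_2 := by
    linear_combination (-16) * x.r1356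
  a331_3 := by
    linear_combination (4) * x.r1256 + (8) * x.r1346
  a332_0 := by
    linear_combination (16 * x.p46) * x.r1256 + (-48 * x.p56) * x.r1345 + (32 * x.p46) * x.r1346 + (16 * x.p36) * x.r2345 + (-8 * x.p26 + 4 * x.p35) * x.r2346 + (8 * x.p25) * x.r2356 + (32 * x.p15) * x.r3456
  a332_1 := by
    linear_combination (-16) * x.r3456
  a332_2 := by
    linear_combination (-8) * x.r2356
  a332_3 := by
    linear_combination (4) * x.r2346
  a123_0 := by
    linear_combination (-24 * x.p56) * x.r1234 + (8 * x.p46) * x.r1235 + (24 * x.p36) * x.r1245 + (-12 * x.p35) * x.r1345 + (-12 * x.p23) * x.r2346 + (-8 * x.p14) * x.r2356 + (-24 * x.p13) * x.r2456 + (-24 * x.p12) * x.r3456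
  a123_1 := by
    linear_combination (-12) * x.r2346
  a123_2 := by
    linear_combination (16) * x.r1346
  a123_3 := by
    linear_combination (-12) * x.r1345
  a132_0 := by
    linear_combination (8 * x.p56) * x.r1234 + (-16 * x.p45) * x.r1236 + (48 * x.p36) * x.r1245 + (-32 * x.p26 - 16 * x.p35) * x.r1246 + (12 * x.p25) * x.r1256 + (-12 * x.p35) * x.r1345 + (16 * x.p34) * x.r1346 + (-32 * x.p15) * x.r1456 + (-24 * x.p14) * x.r2356 + (8 * x.p13) * x.r2456 + (-32 * x.p12) * x.r3456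
  a132_1 := by
    linear_combination (16) * x.r1456
  a132_2 := by
    linear_combination (-12) * x.r1256 + (8) * x.r1346
  a132_3 := by
    linear_combination (16) * x.r1246 + (-12) * x.r1345

theorem toSC_map (f : R →+* S) (x : Plk R) : (x.map f).toSC = x.toSC.map f := by
  ext <;> simp only [toSC, map, SC.map, map_add, map_sub, map_mul, map_neg, map_ofNat]

end Plk

namespace SC

variable {R : Type*} [CommRing R]

/-- Every collection of structure constants comes from Pluecker data if two is invertible. -/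
theorem exists_plk (s : SC R) (h : R) (hh : 2 * h = 1) : ∃ x : Plk R, x.toSC = s := by
  have h4 : 4 * (h * h) = 1 := by linear_combination (2 * h + 1) * hh
  have h16 : 16 * (h * h * (h * h)) = 1 := by linear_combination (4 * (h * h) + 1) * h4
  obtain ⟨p12, hp12⟩ : ∃ z : R, z = h * h * s.c11_3 := ⟨_, rfl⟩
  obtain ⟨p13, hp13⟩ : ∃ z : R, z = -(h * h) * s.c11_2 := ⟨_, rfl⟩
  obtain ⟨p14, hp14⟩ : ∃ z : R, z = h * h * s.c12_3 := ⟨_, rfl⟩
  obtain ⟨p15, hp15⟩ : ∃ z : R, z = h * h * (s.c13_3 - s.c12_2) := ⟨_, rfl⟩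
  obtain ⟨p16, hp16⟩ : ∃ z : R, z = -(h * h) * s.c13_2 := ⟨_, rfl⟩
  obtain ⟨p23, hp23⟩ : ∃ z : R, z = h * s.c11_1 := ⟨_, rfl⟩
  obtain ⟨p24, hp24⟩ : ∃ z : R, z = h * h * s.c22_3 := ⟨_, rfl⟩
  obtain ⟨p25, hp25⟩ : ∃ z : R, z = -h * s.c22_2 := ⟨_, rfl⟩
  obtain ⟨p26, hp26⟩ : ∃ z : R, z = h * h * (s.c13_1 - s.c23_2) := ⟨_, rfl⟩
  obtain ⟨p34, hp34⟩ : ∃ z : R, z = h * h * (s.c23_3 - s.c12_1) := ⟨_, rfl⟩
  obtain ⟨p35, hp35⟩ : ∃ z : R, z = h * s.c33_3 := ⟨_, rfl⟩
  obtain ⟨p36, hp36⟩ : ∃ z : R, z = -(h * h) * s.c33_2 := ⟨_, rfl⟩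
  obtain ⟨p45, hp45⟩ : ∃ z : R, z = h * h * s.c22_1 := ⟨_, rfl⟩
  obtain ⟨p46, hp46⟩ : ∃ z : R, z = h * h * s.c23_1 := ⟨_, rfl⟩
  obtain ⟨p56, hp56⟩ : ∃ z : R, z = h * h * s.c33_1 := ⟨_, rfl⟩
  have kp12 : 4 * p12 = (1) * s.c11_3 := by
    rw [hp12]
    linear_combination ((1) * s.c11_3) * h4
  have kp13 : 4 * p13 = (-1) * s.c11_2 := by
    rw [hp13]
    linear_combination ((-1) * s.c11_2) * h4
  have kp14 : 4 * p14 = (1) * s.c12_3 := by
    rw [hp14]
    linear_combination ((1) * s.c12_3) * h4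
  have kp15 : 4 * p15 = (1) * s.c13_3 + (-1) * s.c12_2 := by
    rw [hp15]
    linear_combination ((1) * s.c13_3 + (-1) * s.c12_2) * h4
  have kp16 : 4 * p16 = (-1) * s.c13_2 := by
    rw [hp16]
    linear_combination ((-1) * s.c13_2) * h4
  have kp23 : 2 * p23 = (1) * s.c11_1 := by
    rw [hp23]
    linear_combination ((1) * s.c11_1) * hh
  have kp24 : 4 * p24 = (1) * s.c22_3 := by
    rw [hp24]
    linear_combination ((1) * s.c22_3) * h4
  have kp25 : 2 * p25 = (-1) * s.c22_2 := by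
    rw [hp25]
    linear_combination ((-1) * s.c22_2) * hh
  have kp26 : 4 * p26 = (1) * s.c13_1 + (-1) * s.c23_2 := by
    rw [hp26]
    linear_combination ((1) * s.c13_1 + (-1) * s.c23_2) * h4
  have kp34 : 4 * p34 = (1) * s.c23_3 + (-1) * s.c12_1 := by
    rw [hp34]
    linear_combination ((1) * s.c23_3 + (-1) * s.c12_1) * h4
  have kp35 : 2 * p35 = (1) * s.c33_3 := by
    rw [hp35]
    linear_combination ((1) * s.c33_3) * hh
  have kp36 : 4 * p36 = (-1) * s.c33_2 := by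
    rw [hp36]
    linear_combination ((-1) * s.c33_2) * h4
  have kp45 : 4 * p45 = (1) * s.c22_1 := by
    rw [hp45]
    linear_combination ((1) * s.c22_1) * h4
  have kp46 : 4 * p46 = (1) * s.c23_1 := by
    rw [hp46]
    linear_combination ((1) * s.c23_1) * h4
  have kp56 : 4 * p56 = (1) * s.c33_1 := by
    rw [hp56]
    linear_combination ((1) * s.c33_1) * h4
  have kc11_1 : s.c11_1 = 2 * p23 := by
    linear_combination (-1) * kp23
  have kc11_2 : s.c11_2 = -4 * p13 := by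
    linear_combination (1) * kp13
  have kc11_3 : s.c11_3 = 4 * p12 := by
    linear_combination (-1) * kp12
  have kc12_1 : s.c12_1 = p25 - 2 * p34 := by
    have e : 2 * s.c12_1 = 2 * (p25 - 2 * p34) := by linear_combination (-1) * kp25 + (1) * kp34 + (1) * s.t2
    linear_combination h * e - (s.c12_1 - (p25 - 2 * p34)) * hh
  have kc12_2 : s.c12_2 = -2 * p15 - p23 := by
    have e : 2 * s.c12_2 = 2 * (-2 * p15 - p23) := by linear_combination (1) * kp23 + (1) * kp15 + (1) * s.t1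
    linear_combination h * e - (s.c12_2 - (-2 * p15 - p23)) * hh
  have kc12_3 : s.c12_3 = 4 * p14 := by
    linear_combination (-1) * kp14
  have kc13_1 : s.c13_1 = 2 * p26 - p35 := by
    have e : 2 * s.c13_1 = 2 * (2 * p26 - p35) := by linear_combination (1) * kp35 + (-1) * kp26 + (1) * s.t3
    linear_combination h * e - (s.c13_1 - (2 * p26 - p35)) * hh
  have kc13_2 : s.c13_2 = -4 * p16 := by
    linear_combination (1) * kp16
  have kc13_3 : s.c13_3 = 2 * p15 - p23 := by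
    have e : 2 * s.c13_3 = 2 * (2 * p15 - p23) := by linear_combination (1) * kp23 + (-1) * kp15 + (1) * s.t1
    linear_combination h * e - (s.c13_3 - (2 * p15 - p23)) * hh
  have kc22_1 : s.c22_1 = 4 * p45 := by
    linear_combination (-1) * kp45
  have kc22_2 : s.c22_2 = -2 * p25 := by
    linear_combination (1) * kp25
  have kc22_3 : s.c22_3 = 4 * p24 := by
    linear_combination (-1) * kp24
  have kc23_1 : s.c23_1 = 4 * p46 := by
    linear_combination (-1) * kp46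
  have kc23_2 : s.c23_2 = -2 * p26 - p35 := by
    have e : 2 * s.c23_2 = 2 * (-2 * p26 - p35) := by linear_combination (1) * kp35 + (1) * kp26 + (1) * s.t3
    linear_combination h * e - (s.c23_2 - (-2 * p26 - p35)) * hh
  have kc23_3 : s.c23_3 = p25 + 2 * p34 := by
    have e : 2 * s.c23_3 = 2 * (p25 + 2 * p34) := by linear_combination (-1) * kp25 + (-1) * kp34 + (1) * s.t2
    linear_combination h * e - (s.c23_3 - (p25 + 2 * p34)) * hh
  have kc33_1 : s.c33_1 = 4 * p56 := by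
    linear_combination (-1) * kp56
  have kc33_2 : s.c33_2 = -4 * p36 := by
    linear_combination (1) * kp36
  have kc33_3 : s.c33_3 = 2 * p35 := by
    linear_combination (-1) * kp35
  have Aa112_1 := s.a112_1
  have Aa112_2 := s.a112_2
  have Aa112_3 := s.a112_3
  have Aa113_1 := s.a113_1
  have Aa113_2 := s.a113_2
  have Aa113_3 := s.a113_3
  have Aa123_1 := s.a123_1
  have Aa123_3 := s.a123_3
  have Aa132_2 := s.a132_2
  have Aa221_1 := s.a221_1
  have Aa221_2 := s.a221_2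
  have Aa221_3 := s.a221_3
  have Aa223_1 := s.a223_1
  have Aa223_2 := s.a223_2
  have Aa223_3 := s.a223_3
  have Aa331_1 := s.a331_1
  have Aa331_2 := s.a331_2
  have Aa331_3 := s.a331_3
  have Aa332_1 := s.a332_1
  have Aa332_2 := s.a332_2
  have Aa332_3 := s.a332_3
  simp only [kc11_1, kc11_2, kc11_3, kc12_1, kc12_2, kc12_3, kc13_1, kc22_1, kc23_1] at Aa112_1
  simp only [kc11_1, kc11_2, kc11_3, kc12_1, kc12_2, kc12_3, kc13_2, kc22_2, kc23_2] at Aa112_2
  simp only [kc11_1, kc11_2, kc11_3, kc12_1, kc12_2, kc12_3, kc13_3, kc22_3, kc23_3] at Aa112_3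
  simp only [kc11_1, kc11_2, kc11_3, kc12_1, kc13_1, kc13_2, kc13_3, kc23_1, kc33_1] at Aa113_1
  simp only [kc11_1, kc11_2, kc11_3, kc12_2, kc13_1, kc13_2, kc13_3, kc23_2, kc33_2] at Aa113_2
  simp only [kc11_1, kc11_2, kc11_3, kc12_3, kc13_1, kc13_2, kc13_3, kc23_3, kc33_3] at Aa113_3
  simp only [kc11_1, kc12_1, kc12_2, kc12_3, kc13_1, kc23_1, kc23_2, kc23_3, kc33_1] at Aa123_1
  simp only [kc11_3, kc12_1, kc12_2, kc12_3, kc13_3, kc23_1, kc23_2, kc23_3, kc33_3] at Aa123_3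
  simp only [kc12_1, kc12_2, kc12_3, kc13_1, kc13_2, kc13_3, kc22_2, kc23_2, kc33_2] at Aa132_2
  simp only [kc11_1, kc12_1, kc12_2, kc12_3, kc13_1, kc22_1, kc22_2, kc22_3, kc23_1] at Aa221_1
  simp only [kc11_2, kc12_1, kc12_2, kc12_3, kc13_2, kc22_1, kc22_2, kc22_3, kc23_2] at Aa221_2
  simp only [kc11_3, kc12_1, kc12_2, kc12_3, kc13_3, kc22_1, kc22_2, kc22_3, kc23_3] at Aa221_3
  simp only [kc12_1, kc13_1, kc22_1, kc22_2, kc22_3, kc23_1, kc23_2, kc23_3, kc33_1] at Aa223_1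
  simp only [kc12_2, kc13_2, kc22_1, kc22_2, kc22_3, kc23_1, kc23_2, kc23_3, kc33_2] at Aa223_2
  simp only [kc12_3, kc13_3, kc22_1, kc22_2, kc22_3, kc23_1, kc23_2, kc23_3, kc33_3] at Aa223_3
  simp only [kc11_1, kc12_1, kc13_1, kc13_2, kc13_3, kc23_1, kc33_1, kc33_2, kc33_3] at Aa331_1
  simp only [kc11_2, kc12_2, kc13_1, kc13_2, kc13_3, kc23_2, kc33_1, kc33_2, kc33_3] at Aa331_2
  simp only [kc11_3, kc12_3, kc13_1, kc13_2, kc13_3, kc23_3, kc33_1, kc33_2, kc33_3] at Aa331_3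
  simp only [kc12_1, kc13_1, kc22_1, kc23_1, kc23_2, kc23_3, kc33_1, kc33_2, kc33_3] at Aa332_1
  simp only [kc12_2, kc13_2, kc22_2, kc23_1, kc23_2, kc23_3, kc33_1, kc33_2, kc33_3] at Aa332_2
  simp only [kc12_3, kc13_3, kc22_3, kc23_1, kc23_2, kc23_3, kc33_1, kc33_2, kc33_3] at Aa332_3
  have r1234 : p12 * p34 - p13 * p24 + p14 * p23 = 0 := by
    linear_combination (h * h * (h * h)) * ((1) * Aa112_3) - (p12 * p34 - p13 * p24 + p14 * p23) * h16
  have r1235 : p12 * p35 - p13 * p25 + p15 * p23 = 0 := by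
    linear_combination (h * h * (h * h)) * ((-1) * Aa112_2 + (1) * Aa113_3) - (p12 * p35 - p13 * p25 + p15 * p23) * h16
  have r1236 : p12 * p36 - p13 * p26 + p16 * p23 = 0 := by
    linear_combination (h * h * (h * h)) * ((-1) * Aa113_2) - (p12 * p36 - p13 * p26 + p16 * p23) * h16
  have r1245 : p12 * p45 - p14 * p25 + p15 * p24 = 0 := by
    linear_combination (h * h * (h * h)) * ((1) * Aa221_3) - (p12 * p45 - p14 * p25 + p15 * p24) * h16
  have r1246 : p12 * p46 - p14 * p26 + p16 * p24 = 0 := by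
    linear_combination (h * h * (h * h)) * ((1) * Aa112_1 + (-1) * Aa221_2) - (p12 * p46 - p14 * p26 + p16 * p24) * h16
  have r1256 : p12 * p56 - p15 * p26 + p16 * p25 = 0 := by
    linear_combination (h * h * (h * h)) * ((1) * Aa331_3 + (-1) * Aa132_2) - (p12 * p56 - p15 * p26 + p16 * p25) * h16
  have r1345 : p13 * p45 - p14 * p35 + p15 * p34 = 0 := by
    linear_combination (h * h * (h * h)) * ((-1) * Aa112_1 + (-1) * Aa123_3) - (p13 * p45 - p14 * p35 + p15 * p34) * h16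
  have r1346 : p13 * p46 - p14 * p36 + p16 * p34 = 0 := by
    linear_combination (h * h * (h * h)) * ((-1) * Aa113_1 + (1) * Aa331_3) - (p13 * p46 - p14 * p36 + p16 * p34) * h16
  have r1356 : p13 * p56 - p15 * p36 + p16 * p35 = 0 := by
    linear_combination (h * h * (h * h)) * ((-1) * Aa331_2) - (p13 * p56 - p15 * p36 + p16 * p35) * h16
  have r1456 : p14 * p56 - p15 * p46 + p16 * p45 = 0 := by
    linear_combination (h * h * (h * h)) * ((-1) * Aa223_2 + (1) * Aa332_3) - (p14 * p56 - p15 * p46 + p16 * p45) * h16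
  have r2345 : p23 * p45 - p24 * p35 + p25 * p34 = 0 := by
    linear_combination (h * h * (h * h)) * ((1) * Aa221_1 + (-1) * Aa223_3) - (p23 * p45 - p24 * p35 + p25 * p34) * h16
  have r2346 : p23 * p46 - p24 * p36 + p26 * p34 = 0 := by
    linear_combination (h * h * (h * h)) * ((1) * Aa332_3 + (-1) * Aa123_1) - (p23 * p46 - p24 * p36 + p26 * p34) * h16
  have r2356 : p23 * p56 - p25 * p36 + p26 * p35 = 0 := by
    linear_combination (h * h * (h * h)) * ((1) * Aa331_1 + (-1) * Aa332_2) - (p23 * p56 - p25 * p36 + p26 * p35) * h16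
  have r2456 : p24 * p56 - p25 * p46 + p26 * p45 = 0 := by
    linear_combination (h * h * (h * h)) * ((1) * Aa223_1) - (p24 * p56 - p25 * p46 + p26 * p45) * h16
  have r3456 : p34 * p56 - p35 * p46 + p36 * p45 = 0 := by
    linear_combination (h * h * (h * h)) * ((-1) * Aa332_1) - (p34 * p56 - p35 * p46 + p36 * p45) * h16
  have kc11_0 : s.c11_0 = 8 * p12 * p26 - 4 * p12 * p35 - 4 * p13 * p25 + 8 * p13 * p34 - 16 * p14 * p16 + 4 * p15 * p15 + 3 * p23 * p23 := by
    linear_combination (h * h) * ((2) * Aa112_2 + (2) * Aa113_3) - (s.c11_0 - (8 * p12 * p26 - 4 * p12 * p35 - 4 * p13 * p25 + 8 * p13 * p34 - 16 * p14 * p16 + 4 * p15 * p15 + 3 * p23 * p23)) * h4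
  have kc12_0 : s.c12_0 = 16 * p12 * p46 - 12 * p13 * p45 - 8 * p14 * p26 + 2 * p15 * p25 + p23 * p25 - 2 * p23 * p34 := by
    linear_combination (h * h) * ((-3) * Aa112_1 + (1) * Aa123_3) - (s.c12_0 - (16 * p12 * p46 - 12 * p13 * p45 - 8 * p14 * p26 + 2 * p15 * p25 + p23 * p25 - 2 * p23 * p34)) * h4
  have kc13_0 : s.c13_0 = 12 * p12 * p56 - 8 * p13 * p46 - 8 * p14 * p36 + 2 * p15 * p35 + 2 * p23 * p26 - p23 * p35 := by
    linear_combination (h * h) * ((-2) * Aa113_1 + (-1) * Aa331_3 + (-1) * Aa132_2) - (s.c13_0 - (12 * p12 * p56 - 8 * p13 * p46 - 8 * p14 * p36 + 2 * p15 * p35 + 2 * p23 * p26 - p23 * p35)) * h4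
  have kc22_0 : s.c22_0 = 16 * p14 * p46 - 8 * p15 * p45 - 4 * p23 * p45 - 8 * p24 * p26 - 4 * p24 * p35 + 3 * p25 * p25 + 4 * p34 * p34 := by
    linear_combination (h * h) * ((2) * Aa221_1 + (2) * Aa223_3) - (s.c22_0 - (16 * p14 * p46 - 8 * p15 * p45 - 4 * p23 * p45 - 8 * p24 * p26 - 4 * p24 * p35 + 3 * p25 * p25 + 4 * p34 * p34)) * h4
  have kc23_0 : s.c23_0 = 16 * p14 * p56 - 8 * p15 * p46 - 12 * p24 * p36 + 2 * p25 * p26 + p25 * p35 + 2 * p34 * p35 := by
    linear_combination (h * h) * ((-3) * Aa332_3 + (-1) * Aa123_1) - (s.c23_0 - (16 * p14 * p56 - 8 * p15 * p46 - 12 * p24 * p36 + 2 * p25 * p26 + p25 * p35 + 2 * p34 * p35)) * h4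
  have kc33_0 : s.c33_0 = 8 * p15 * p56 - 16 * p16 * p46 - 4 * p23 * p56 - 4 * p25 * p36 + 4 * p26 * p26 - 8 * p34 * p36 + 3 * p35 * p35 := by
    linear_combination (h * h) * ((2) * Aa331_1 + (2) * Aa332_2) - (s.c33_0 - (8 * p15 * p56 - 16 * p16 * p46 - 4 * p23 * p56 - 4 * p25 * p36 + 4 * p26 * p26 - 8 * p34 * p36 + 3 * p35 * p35)) * h4
  refine ⟨⟨p12, p13, p14, p15, p16, p23, p24, p25, p26, p34, p35, p36, p45, p46, p56, r1234, r1235, r1236, r1245, r1246, r1256, r1345, r1346, r1356, r1456, r2345, r2346, r2356, r2456, r3456⟩, ?_⟩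
  ext
  exacts [kc11_0.symm, kc11_1.symm, kc11_2.symm, kc11_3.symm, kc12_0.symm, kc12_1.symm, kc12_2.symm, kc12_3.symm, kc13_0.symm, kc13_1.symm, kc13_2.symm, kc13_3.symm, kc22_0.symm, kc22_1.symm, kc22_2.symm, kc22_3.symm, kc23_0.symm, kc23_1.symm, kc23_2.symm, kc23_3.symm, kc33_0.symm, kc33_1.symm, kc33_2.symm, kc33_3.symm]

end SC

/-- Pluecker data are determined by the structure constants if two is invertible. -/
theorem Plk.toSC_injective {R : Type*} [CommRing R] (h : R) (hh : 2 * h = 1) (x y : Plk R)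
    (e : x.toSC = y.toSC) : x = y := by
  have h4 : 4 * (h * h) = 1 := by linear_combination (2 * h + 1) * hh
  have kp12 : x.p12 = y.p12 := by
    have ec11_3 : 4 * x.p12 = 4 * y.p12 := congrArg SC.c11_3 e
    linear_combination (h * h) * ((1) * ec11_3) - (x.p12 - y.p12) * h4
  have kp13 : x.p13 = y.p13 := by
    have ec11_2 : -4 * x.p13 = -4 * y.p13 := congrArg SC.c11_2 e
    linear_combination (h * h) * ((-1) * ec11_2) - (x.p13 - y.p13) * h4
  have kp14 : x.p14 = y.p14 := by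
    have ec12_3 : 4 * x.p14 = 4 * y.p14 := congrArg SC.c12_3 e
    linear_combination (h * h) * ((1) * ec12_3) - (x.p14 - y.p14) * h4
  have kp15 : x.p15 = y.p15 := by
    have ec13_3 : 2 * x.p15 - x.p23 = 2 * y.p15 - y.p23 := congrArg SC.c13_3 e
    have ec12_2 : -2 * x.p15 - x.p23 = -2 * y.p15 - y.p23 := congrArg SC.c12_2 e
    linear_combination (h * h) * ((1) * ec13_3 + (-1) * ec12_2) - (x.p15 - y.p15) * h4
  have kp16 : x.p16 = y.p16 := by
    have ec13_2 : -4 * x.p16 = -4 * y.p16 := congrArg SC.c13_2 e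
    linear_combination (h * h) * ((-1) * ec13_2) - (x.p16 - y.p16) * h4
  have kp23 : x.p23 = y.p23 := by
    have ec11_1 : 2 * x.p23 = 2 * y.p23 := congrArg SC.c11_1 e
    linear_combination h * ((1) * ec11_1) - (x.p23 - y.p23) * hh
  have kp24 : x.p24 = y.p24 := by
    have ec22_3 : 4 * x.p24 = 4 * y.p24 := congrArg SC.c22_3 e
    linear_combination (h * h) * ((1) * ec22_3) - (x.p24 - y.p24) * h4
  have kp25 : x.p25 = y.p25 := by
    have ec22_2 : -2 * x.p25 = -2 * y.p25 := congrArg SC.c22_2 e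
    linear_combination h * ((-1) * ec22_2) - (x.p25 - y.p25) * hh
  have kp26 : x.p26 = y.p26 := by
    have ec13_1 : 2 * x.p26 - x.p35 = 2 * y.p26 - y.p35 := congrArg SC.c13_1 e
    have ec23_2 : -2 * x.p26 - x.p35 = -2 * y.p26 - y.p35 := congrArg SC.c23_2 e
    linear_combination (h * h) * ((1) * ec13_1 + (-1) * ec23_2) - (x.p26 - y.p26) * h4
  have kp34 : x.p34 = y.p34 := by
    have ec23_3 : x.p25 + 2 * x.p34 = y.p25 + 2 * y.p34 := congrArg SC.c23_3 e
    have ec12_1 : x.p25 - 2 * x.p34 = y.p25 - 2 * y.p34 := congrArg SC.c12_1 e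
    linear_combination (h * h) * ((1) * ec23_3 + (-1) * ec12_1) - (x.p34 - y.p34) * h4
  have kp35 : x.p35 = y.p35 := by
    have ec33_3 : 2 * x.p35 = 2 * y.p35 := congrArg SC.c33_3 e
    linear_combination h * ((1) * ec33_3) - (x.p35 - y.p35) * hh
  have kp36 : x.p36 = y.p36 := by
    have ec33_2 : -4 * x.p36 = -4 * y.p36 := congrArg SC.c33_2 e
    linear_combination (h * h) * ((-1) * ec33_2) - (x.p36 - y.p36) * h4
  have kp45 : x.p45 = y.p45 := by
    have ec22_1 : 4 * x.p45 = 4 * y.p45 := congrArg SC.c22_1 e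
    linear_combination (h * h) * ((1) * ec22_1) - (x.p45 - y.p45) * h4
  have kp46 : x.p46 = y.p46 := by
    have ec23_1 : 4 * x.p46 = 4 * y.p46 := congrArg SC.c23_1 e
    linear_combination (h * h) * ((1) * ec23_1) - (x.p46 - y.p46) * h4
  have kp56 : x.p56 = y.p56 := by
    have ec33_1 : 4 * x.p56 = 4 * y.p56 := congrArg SC.c33_1 e
    linear_combination (h * h) * ((1) * ec33_1) - (x.p56 - y.p56) * h4
  ext
  exacts [kp12, kp13, kp14, kp15, kp16, kp23, kp24, kp25, kp26, kp34, kp35, kp36, kp45, kp46, kp56]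

end Pool.Agent.J6H65.Hilb4
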