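import Pool.Agent.J6H65.Hilb4.QD

set_option autoImplicit false
set_option linter.unusedSectionVars false

namespace Pool.Agent.J6H65.Hilb4

/-- Pluecker data with coordinates in a subring descend to the subring. -/
theorem Plk.exists_descent {R R1 : Type*} [CommRing R] [CommRing R1] (ι : R1 →+* R)
    (hι : Function.Injective ι) (x : Plk R) (h : ∀ i, x.vec i ∈ Set.range ι) :
    ∃ y : Plk R1, y.map ι = x := by
  obtain ⟨q12, h12⟩ := h 0
  change ι q12 = x.p12 at h12
  obtain ⟨q13, h13⟩ := h 1
  change ι q13 = x.p13 at h13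
  obtain ⟨q14, h14⟩ := h 2
  change ι q14 = x.p14 at h14
  obtain ⟨q15, h15⟩ := h 3
  change ι q15 = x.p15 at h15
  obtain ⟨q16, h16⟩ := h 4
  change ι q16 = x.p16 at h16
  obtain ⟨q23, h23⟩ := h 5
  change ι q23 = x.p23 at h23
  obtain ⟨q24, h24⟩ := h 6
  change ι q24 = x.p24 at h24
  obtain ⟨q25, h25⟩ := h 7
  change ι q25 = x.p25 at h25
  obtain ⟨q26, h26⟩ := h 8
  change ι q26 = x.p26 at h26
  obtain ⟨q34, h34⟩ := h 9
  change ι q34 = x.p34 at h34
  obtain ⟨q35, h35⟩ := h 10
  change ι q35 = x.p35 at h35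
  obtain ⟨q36, h36⟩ := h 11
  change ι q36 = x.p36 at h36
  obtain ⟨q45, h45⟩ := h 12
  change ι q45 = x.p45 at h45
  obtain ⟨q46, h46⟩ := h 13
  change ι q46 = x.p46 at h46
  obtain ⟨q56, h56⟩ := h 14
  change ι q56 = x.p56 at h56
  refine ⟨⟨q12, q13, q14, q15, q16, q23, q24, q25, q26, q34, q35, q36, q45, q46, q56, ?_, ?_, ?_, ?_, ?_, ?_, ?_, ?_, ?_, ?_, ?_, ?_, ?_, ?_, ?_⟩, ?_⟩
  · apply hι
    rw [map_add, map_sub, map_mul, map_mul, map_mul, map_zero, h12, h34, h13, h24, h14, h23]
    exact x.r1234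
  · apply hι
    rw [map_add, map_sub, map_mul, map_mul, map_mul, map_zero, h12, h35, h13, h25, h15, h23]
    exact x.r1235
  · apply hι
    rw [map_add, map_sub, map_mul, map_mul, map_mul, map_zero, h12, h36, h13, h26, h16, h23]
    exact x.r1236
  · apply hι
    rw [map_add, map_sub, map_mul, map_mul, map_mul, map_zero, h12, h45, h14, h25, h15, h24]
    exact x.r1245
  · apply hι
    rw [map_add, map_sub, map_mul, map_mul, map_mul, map_zero, h12, h46, h14, h26, h16, h24]
    exact x.r1246
  · apply hι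
    rw [map_add, map_sub, map_mul, map_mul, map_mul, map_zero, h12, h56, h15, h26, h16, h25]
    exact x.r1256
  · apply hι
    rw [map_add, map_sub, map_mul, map_mul, map_mul, map_zero, h13, h45, h14, h35, h15, h34]
    exact x.r1345
  · apply hι
    rw [map_add, map_sub, map_mul, map_mul, map_mul, map_zero, h13, h46, h14, h36, h16, h34]
    exact x.r1346
  · apply hι
    rw [map_add, map_sub, map_mul, map_mul, map_mul, map_zero, h13, h56, h15, h36, h16, h35]
    exact x.r1356
  · apply hι
    rw [map_add, map_sub, map_mul, map_mul, map_mul, map_zero, h14, h56, h15, h46, h16, h45]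
    exact x.r1456
  · apply hι
    rw [map_add, map_sub, map_mul, map_mul, map_mul, map_zero, h23, h45, h24, h35, h25, h34]
    exact x.r2345
  · apply hι
    rw [map_add, map_sub, map_mul, map_mul, map_mul, map_zero, h23, h46, h24, h36, h26, h34]
    exact x.r2346
  · apply hι
    rw [map_add, map_sub, map_mul, map_mul, map_mul, map_zero, h23, h56, h25, h36, h26, h35]
    exact x.r2356
  · apply hι
    rw [map_add, map_sub, map_mul, map_mul, map_mul, map_zero, h24, h56, h25, h46, h26, h45]
    exact x.r2456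
  · apply hι
    rw [map_add, map_sub, map_mul, map_mul, map_mul, map_zero, h34, h56, h35, h46, h36, h45]
    exact x.r3456
  · ext
    exacts [h12, h13, h14, h15, h16, h23, h24, h25, h26, h34, h35, h36, h45, h46, h56]

end Pool.Agent.J6H65.Hilb4
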